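import Mathlib
import Pool.Agent.W245.EB.Gz
import Pool.Agent.W245.EB.Zt

/-!
# Elliptic logarithmic derivatives: definitions

For a derivation `D` of `ℂ` which kills `g₂` and `g₃` the numbers `om L D z = D ℘(z) / ℘'(z)` and
`et L D z = D ζ(z) + ℘(z) om L D z` are additive in `z`.
-/

set_option autoImplicit false

open Filter
open scoped Topology PeriodPair

noncomputable section

namespace Pool.Agent.TH813.Ell

open H667R3 Pool.Agent.W245.EB

variable (L : PeriodPair)

/-- the derivative of the elliptic logarithm, computed from the point (it is `0` when `z` is in the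
lattice or a half period) -/
def om (D : Derivation ℚ ℂ ℂ) (z : ℂ) : ℂ := D (℘[L] z) / ℘'[L] z

/-- the derivative of `ζ(z)`, corrected by the algebraic form of the second kind -/
def et (D : Derivation ℚ ℂ ℂ) (z : ℂ) : ℂ := D (zt L z) + ℘[L] z * om L D z

/-- `v` is a logarithm of the conjugate by `σ` of the point with logarithm `u` -/
def Cj (σ : ℂ →+* ℂ) (u v : ℂ) : Prop :=
  (u ∈ L.lattice ∧ v ∈ L.lattice) ∨
    (u ∉ L.lattice ∧ v ∉ L.lattice ∧ ℘[L] v = σ (℘[L] u) ∧ ℘'[L] v = σ (℘'[L] u))

/-- meromorphic functions on `ℂ`, periodic outside a discrete set -/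
def Ellip (f : ℂ → ℂ) : Prop :=
  Meromorphic f ∧ ∀ l ∈ L.lattice, (fun z => f (z + l)) =ᶠ[codiscrete ℂ] f

end Pool.Agent.TH813.Ell
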