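import Mathlib
import Pool.Agent.TH813.Ell0
import Pool.Agent.TH494.Ell.Add2

/-!
# Elliptic logarithmic derivatives: additivity

The theorems `om_of_mem`, `om_add_lattice`, `et_add_lattice`, `om_neg`, `et_neg`,
`om_of_two_mul_mem`, `om_eq_zero_iff`, `om_add`, `et_add` of the namespace
`Pool.Agent.TH813.Ell` are in the imported file.
-/
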