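import Mathlib
import Pool.Agent.TH813.Ell0
import Pool.Agent.TH822.Ell.Cj

/-!
# Logarithms of conjugate points

The theorems `Cj.zero`, `Cj.add`, `Cj.sum`, `Cj.exists`, `conj_family` of the namespace
`Pool.Agent.TH813.Ell` are in the imported file.
-/
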