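import Mathlib
import Pool.Agent.TH813.Ell0
import Pool.Agent.TH921.J1794

/-!
# Elliptic functions

The closure properties of `Ellip` and the theorem `liouville` of the namespace
`Pool.Agent.TH813.Ell` are in the imported file.
-/
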