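import Mathlib
import Pool.Agent.TH813.EllC
import Pool.Agent.TH312.J1796

/-!
# Derivatives of elliptic functions
-/

set_option autoImplicit false

open Filter
open scoped Topology PeriodPair

noncomputable section

namespace Pool.Agent.TH813.Ell

open H667R3 Pool.Agent.W245.EB

variable {L : PeriodPair}

/-- **A sum of logarithmic derivatives, a constant and a multiple of `℘` is the derivative of an
elliptic function only if the constant and the multiple are zero.** -/
theorem noexact {n : ℕ} {g : ℂ → ℂ} {N : Fin n → ℂ → ℂ} (β : Fin n → ℂ) (a b : ℂ)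
    (hg : Ellip L g) (hN : ∀ l, Ellip L (N l))
    (hN0 : ∀ l, ¬ N l =ᶠ[codiscrete ℂ] fun _ => 0)
    (h : deriv g =ᶠ[codiscrete ℂ] fun z => ∑ l, β l * (deriv (N l) z / N l z) + a + b * ℘[L] z) :
    a = 0 ∧ b = 0 :=
  Pool.Agent.TH312.J1796.noexact (fun hf hz => liouville hf hz) β a b hg hN hN0 h

end Pool.Agent.TH813.Ell
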