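import Mathlib
import Pool.Agent.TH813.EllC
import Pool.Agent.TH11.Tr1797

/-!
# Transfer to elliptic functions

The theorems `codiscrete_neBot`, `der_mem`, `transfer` of the namespace `Pool.Agent.TH813.Ell` are
in the imported file.
-/
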