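import Mathlib
import Pool.Agent.W669.GelBase
import Pool.Agent.W252.QuadR

/-!
# Exceptional points of a rational space contain no tripartite grids
-/

set_option autoImplicit false

namespace Pool.Agent.TH813.Grid

open Pool.Agent.W252 Pool.Agent.W669.Gel

theorem crd_add_der (β : ℂ) (D D' : Derivation ℚ ℂ ℂ) (s : Fin 4) (y : ℂ) :
    crd β (D + D') s y = crd β D s y + crd β D' s y := by
  fin_cases s <;> simp [crd, dl_apply, dlog, add_div]

theorem crd_smul_der (β c : ℂ) (D : Derivation ℚ ℂ ℂ) (s : Fin 4) (y : ℂ) :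
    crd β (c • D) s y = c * crd β D s y := by
  fin_cases s <;> simp [crd, dl_apply, dlog, mul_div_assoc]

/-- the quadratic form of a minor -/
noncomputable def qm (β : ℂ) (D D' : Derivation ℚ ℂ ℂ) (s t : Fin 4) (y : ℂ) : ℂ :=
  mnr β D D' s t y y

/-- the symmetric bilinear form of a minor -/
noncomputable def bm (β : ℂ) (D D' : Derivation ℚ ℂ ℂ) (s t : Fin 4) (y z : ℂ) : ℂ :=
  mnr β D D' s t y z + mnr β D D' s t z y

variable {β : ℂ}

/-- orthogonality for all minors -/
def Ortho (β y z : ℂ) : Prop := ∀ (D D' : Derivation ℚ ℂ ℂ) (s t : Fin 4), bm β D D' s t y z = 0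

theorem Ortho.symm {y z : ℂ} (h : Ortho β y z) : Ortho β z y := by
  intro D D' s t
  have := h D D' s t
  unfold bm at this ⊢
  rw [add_comm]; exact this

theorem bm_add_right (D D' : Derivation ℚ ℂ ℂ) (s t : Fin 4) (y z w : ℂ) :
    bm β D D' s t y (z + w) = bm β D D' s t y z + bm β D D' s t y w := by
  unfold bm mnr
  simp only [map_add]
  ring

theorem bm_smul_right (D D' : Derivation ℚ ℂ ℂ) (s t : Fin 4) (y z : ℂ) (q : ℚ) :
    bm β D D' s t y (q • z) = q * bm β D D' s t y z := by
  unfold bm mnr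
  simp only [map_smul]
  simp only [Rat.smul_def]
  ring

theorem Ortho.add_right {y z w : ℂ} (h1 : Ortho β y z) (h2 : Ortho β y w) : Ortho β y (z + w) := by
  intro D D' s t
  rw [bm_add_right, h1, h2, add_zero]

theorem Ortho.smul_right {y z : ℂ} (h1 : Ortho β y z) (q : ℚ) : Ortho β y (q • z) := by
  intro D D' s t
  rw [bm_smul_right, h1, mul_zero]

theorem Ortho.zero_right (y : ℂ) : Ortho β y 0 := by
  intro D D' s t
  unfold bm mnr
  simp

theorem Ortho.sum_right {ι : Type*} (S : Finset ι) {y : ℂ} {z : ι → ℂ} (c : ι → ℚ)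
    (h : ∀ i ∈ S, Ortho β y (z i)) : Ortho β y (∑ i ∈ S, (c i : ℂ) * z i) := by
  classical
  induction S using Finset.induction_on with
  | empty => simpa using Ortho.zero_right y
  | insert a S ha ih =>
    rw [Finset.sum_insert ha]
    refine Ortho.add_right ?_ (ih (fun i hi => h i (Finset.mem_insert_of_mem hi)))
    have := (h a (Finset.mem_insert_self a S)).smul_right (c a)
    rwa [Rat.smul_def] at this

theorem qm_add (D D' : Derivation ℚ ℂ ℂ) (s t : Fin 4) (y z : ℂ) :
    qm β D D' s t (y + z) = qm β D D' s t y + bm β D D' s t y z + qm β D D' s t z := by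
  unfold qm bm mnr
  simp only [map_add]
  ring

theorem qm_exc {y : ℂ} (h : Exc β y) (D D' : Derivation ℚ ℂ ℂ) (s t : Fin 4) :
    qm β D D' s t y = 0 := mnr_exc h D D' s t

/-- opposite sides of an exceptional square are orthogonal -/
theorem ortho_of_square {y f g : ℂ} (h0 : Exc β y) (h1 : Exc β (y + f)) (h2 : Exc β (y + g))
    (h3 : Exc β (y + f + g)) : Ortho β f g := by
  intro D D' s t
  have e0 := qm_exc h0 D D' s t
  have e1 := qm_exc h1 D D' s t
  have e2 := qm_exc h2 D D' s t
  have e3 := qm_exc h3 D D' s t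
  rw [qm_add] at e1 e2 e3
  rw [qm_add] at e3
  have e4 : bm β D D' s t (y + f) g = bm β D D' s t y g + bm β D D' s t f g := by
    unfold bm mnr
    simp only [map_add]
    ring
  rw [e4] at e3
  linear_combination e3 - e1 - e2 + e0

/-- `D, D'` are dual to the columns `s, t` of `f` -/
structure Dual (β f : ℂ) (D D' : Derivation ℚ ℂ ℂ) (s t : Fin 4) : Prop where
  h1 : crd β D s f = 1
  h2 : crd β D t f = 0
  h3 : crd β D' s f = 0
  h4 : crd β D' t f = 1

theorem exists_dual {f : ℂ} (h : ¬ Exc β f) : ∃ D D' s t, Dual β f D D' s t := by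
  unfold Exc at h
  push Not at h
  obtain ⟨a, ha, b, hb, hab⟩ := h
  obtain ⟨s, rfl⟩ := mem_four_iff.1 ha
  obtain ⟨t, rfl⟩ := mem_four_iff.1 hb
  obtain ⟨D, D', h1, h2, h3, h4⟩ := exists_dual_der hab
  refine ⟨nrm β f s • D, nrm β f t • D', s, t, ?_, ?_, ?_, ?_⟩
  · rw [crd_smul_der, crd_eq, h1, mul_one_div_cancel (nrm_ne _ _ _)]
  · rw [crd_smul_der, crd_eq, h2, zero_div, mul_zero]
  · rw [crd_smul_der, crd_eq, h3, zero_div, mul_zero]
  · rw [crd_smul_der, crd_eq, h4, mul_one_div_cancel (nrm_ne _ _ _)]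

/-- if all the minors vanish then `y` is exceptional -/
theorem exc_of_minors {y : ℂ} (h : ∀ (D D' : Derivation ℚ ℂ ℂ) (s t : Fin 4),
    qm β D D' s t y = 0) : Exc β y := by
  by_contra hcon
  obtain ⟨D, D', s, t, hd⟩ := exists_dual hcon
  have := h D D' s t
  unfold qm mnr at this
  rw [hd.h1, hd.h2, hd.h3, hd.h4] at this
  norm_num at this

/-- if all the coordinates vanish then `y = 0` (Hermite and Lindemann) -/
theorem eq_zero_of_crd {y : ℂ} (h : ∀ (D : Derivation ℚ ℂ ℂ) (s : Fin 4), crd β D s y = 0) :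
    y = 0 := by
  by_contra hy
  have h0 : IsAlgebraic ℚ y := Pool.Agent.W342.GEL.alg_of_mem_cst (fun D => by
    have := h D 0
    simpa [crd] using this)
  have h2 : IsAlgebraic ℚ (Complex.exp y) := Pool.Agent.W342.GEL.alg_of_mem_cst (fun D => by
    have := h D 2
    have h3 : D (Complex.exp y) / Complex.exp y = 0 := this
    exact (div_eq_zero_iff.1 h3).resolve_right (Complex.exp_ne_zero y))
  obtain ⟨θ, hθ, hθ'⟩ := Pool.Agent.W342.GEL.exists_theta hy
  rcases hθ with rfl | rfl
  · exact hθ' h0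
  · exact hθ' h2

variable {D D' : Derivation ℚ ℂ ℂ} {s t : Fin 4} {f g : ℂ}

theorem inj_of_dual (hd : Dual β f D D' s t) (ho : Ortho β f g) (h1 : crd β D s g = 0)
    (h2 : crd β D t g = 0) (h3 : crd β D' s g = 0) (h4 : crd β D' t g = 0) : g = 0 := by
  have et : ∀ E : Derivation ℚ ℂ ℂ, crd β E t g = 0 := by
    intro E
    have := ho E D s t
    unfold bm mnr at this
    rw [hd.h1, hd.h2, h1, h2] at this
    linear_combination -this
  have es : ∀ E : Derivation ℚ ℂ ℂ, crd β E s g = 0 := by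
    intro E
    have := ho E D' s t
    unfold bm mnr at this
    rw [hd.h3, hd.h4, h3, h4] at this
    linear_combination this
  have ek1 : ∀ (E : Derivation ℚ ℂ ℂ) (k : Fin 4), crd β E k g = crd β D k g * crd β E s f := by
    intro E k
    have := ho E D k s
    unfold bm mnr at this
    rw [hd.h1, h1, es E] at this
    linear_combination this
  have ek2 : ∀ (E : Derivation ℚ ℂ ℂ) (k : Fin 4), crd β E k g = crd β D' k g * crd β E t f := by
    intro E k
    have := ho E D' k t
    unfold bm mnr at this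
    rw [hd.h4, h4, et E] at this
    linear_combination this
  apply eq_zero_of_crd (β := β)
  intro E k
  rw [ek1 E k, ek2 D k, hd.h2, mul_zero, zero_mul]

theorem exc_of_dual (hd : Dual β f D D' s t) (ho : Ortho β f g) (hq : qm β D D' s t g = 0) :
    Exc β g := by
  -- a combination of `D, D'` which kills the columns `s, t` of `g`
  obtain ⟨a, b, hab, ha1, hb1⟩ : ∃ a b : ℂ, (a ≠ 0 ∨ b ≠ 0) ∧
      a * crd β D s g + b * crd β D' s g = 0 ∧ a * crd β D t g + b * crd β D' t g = 0 := by
    unfold qm mnr at hq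
    by_cases h1 : crd β D s g = 0 ∧ crd β D' s g = 0
    · by_cases h2 : crd β D t g = 0 ∧ crd β D' t g = 0
      · exact ⟨1, 0, Or.inl one_ne_zero, by rw [h1.1]; ring, by rw [h2.1]; ring⟩
      · refine ⟨crd β D' t g, -crd β D t g, ?_, by rw [h1.1, h1.2]; ring, by ring⟩
        by_contra hcon
        push Not at hcon
        exact h2 ⟨neg_eq_zero.1 hcon.2, hcon.1⟩
    · refine ⟨crd β D' s g, -crd β D s g, ?_, by ring, by linear_combination -hq⟩
      by_contra hcon
      push Not at hcon
      exact h1 ⟨neg_eq_zero.1 hcon.2, hcon.1⟩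
  set D1 : Derivation ℚ ℂ ℂ := a • D + b • D' with hD1
  have hc : ∀ (k : Fin 4) (y : ℂ), crd β D1 k y = a * crd β D k y + b * crd β D' k y := by
    intro k y
    rw [hD1, crd_add_der, crd_smul_der, crd_smul_der]
  have f1 : crd β D1 s f = a := by rw [hc, hd.h1, hd.h3]; ring
  have f2 : crd β D1 t f = b := by rw [hc, hd.h2, hd.h4]; ring
  have g1 : crd β D1 s g = 0 := by rw [hc, ha1]
  have g2 : crd β D1 t g = 0 := by rw [hc, hb1]
  -- the trace relation
  have htr : crd β D s g + crd β D' t g = 0 := by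
    have := ho D D' s t
    unfold bm mnr at this
    rw [hd.h1, hd.h2, hd.h3, hd.h4] at this
    linear_combination this
  have g3 : ∀ k, crd β D1 k g = 0 := by
    intro k
    have e1 := ho D D1 k s
    have e2 := ho D' D1 k t
    unfold bm mnr at e1 e2
    rw [hd.h1, f1, g1] at e1
    rw [hd.h4, f2, g2] at e2
    have e3 := hc k g
    linear_combination (-1 : ℂ) * e1 - e2 - crd β D1 k f * htr - e3
  have k1 : ∀ (E : Derivation ℚ ℂ ℂ) (k : Fin 4),
      a * crd β E k g = crd β D1 k f * crd β E s g := by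
    intro E k
    have := ho E D1 k s
    unfold bm mnr at this
    rw [f1, g1, g3 k] at this
    linear_combination this
  have k2 : ∀ (E : Derivation ℚ ℂ ℂ) (k : Fin 4),
      b * crd β E k g = crd β D1 k f * crd β E t g := by
    intro E k
    have := ho E D1 k t
    unfold bm mnr at this
    rw [f2, g2, g3 k] at this
    linear_combination this
  apply exc_of_minors
  intro E F k l
  unfold qm mnr
  rcases hab with ha | hb
  · have : a * a * (crd β E k g * crd β F l g - crd β F k g * crd β E l g) = 0 := by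
      linear_combination (a * crd β F l g) * k1 E k + (crd β D1 k f * crd β E s g) * k1 F l -
        (a * crd β E l g) * k1 F k - (crd β D1 k f * crd β F s g) * k1 E l
    exact (mul_eq_zero.1 this).resolve_left (mul_ne_zero ha ha)
  · have : b * b * (crd β E k g * crd β F l g - crd β F k g * crd β E l g) = 0 := by
      linear_combination (b * crd β F l g) * k2 E k + (crd β D1 k f * crd β E t g) * k2 F l -
        (b * crd β E l g) * k2 F k - (crd β D1 k f * crd β F t g) * k2 E l
    exact (mul_eq_zero.1 this).resolve_left (mul_ne_zero hb hb)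

/-- change of the dual pair -/
theorem dual_change (D D' : Derivation ℚ ℂ ℂ) (s t : Fin 4) (g : ℂ)
    (hq : qm β D D' s t g ≠ 0) : ∃ E E' : Derivation ℚ ℂ ℂ, Dual β g E E' s t ∧
      (∃ a b c d : ℂ, E = a • D + b • D' ∧ E' = c • D + d • D' ∧ a * d - b * c ≠ 0) := by
  set Δ := qm β D D' s t g with hΔ
  have hΔ' : Δ = crd β D s g * crd β D' t g - crd β D' s g * crd β D t g := rfl
  refine ⟨(crd β D' t g / Δ) • D + (-crd β D t g / Δ) • D',
    (-crd β D' s g / Δ) • D + (crd β D s g / Δ) • D', ⟨?_, ?_, ?_, ?_⟩,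
    ⟨_, _, _, _, rfl, rfl, ?_⟩⟩
  · rw [crd_add_der, crd_smul_der, crd_smul_der]
    field_simp
    rw [hΔ']; ring
  · rw [crd_add_der, crd_smul_der, crd_smul_der]
    field_simp
    ring
  · rw [crd_add_der, crd_smul_der, crd_smul_der]
    field_simp
    ring
  · rw [crd_add_der, crd_smul_der, crd_smul_der]
    field_simp
    rw [hΔ']; ring
  · have : crd β D' t g / Δ * (crd β D s g / Δ) - -crd β D t g / Δ * (-crd β D' s g / Δ) =
        1 / Δ := by
      field_simp
      rw [hΔ']; ring
    rw [this]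
    exact one_div_ne_zero hq

/-- the bilinear form on `ℂ⁴` -/
noncomputable def bl : LinearMap.BilinForm ℂ (Fin 4 → ℂ) :=
  LinearMap.mk₂ ℂ (fun u v => u 0 * v 3 + v 0 * u 3 - u 2 * v 1 - v 2 * u 1)
    (by intro a b c; simp only [Pi.add_apply]; ring)
    (by intro a b c; simp only [Pi.smul_apply, smul_eq_mul]; ring)
    (by intro a b c; simp only [Pi.add_apply]; ring)
    (by intro a b c; simp only [Pi.smul_apply, smul_eq_mul]; ring)

theorem bl_apply (u v : Fin 4 → ℂ) :
    bl u v = u 0 * v 3 + v 0 * u 3 - u 2 * v 1 - v 2 * u 1 := rfl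

theorem bl_symm (u v : Fin 4 → ℂ) : bl u v = bl v u := by
  rw [bl_apply, bl_apply]; ring

theorem bl_nondeg : bl.Nondegenerate := by
  have key : ∀ u : Fin 4 → ℂ, (∀ v, bl u v = 0) → u = 0 := by
    intro u hu
    have h0 := hu ![1, 0, 0, 0]
    have h1 := hu ![0, 1, 0, 0]
    have h2 := hu ![0, 0, 1, 0]
    have h3 := hu ![0, 0, 0, 1]
    simp [bl_apply] at h0 h1 h2 h3
    funext i
    fin_cases i
    · exact h3
    · exact h2
    · exact h1
    · exact h0
  refine ⟨?_, ?_⟩
  · intro u hu
    exact key u hu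
  · intro u hu
    exact key u (fun v => by rw [bl_symm]; exact hu v)

/-- two orthogonal planes in a four-dimensional quadratic space -/
theorem planes {u1 u2 w1 w2 g : Fin 4 → ℂ} (hu : LinearIndependent ℂ ![u1, u2])
    (hw : LinearIndependent ℂ ![w1, w2]) (h11 : bl u1 w1 = 0) (h12 : bl u1 w2 = 0)
    (h21 : bl u2 w1 = 0) (h22 : bl u2 w2 = 0) (h1 : bl u1 g = 0) (h2 : bl u2 g = 0)
    (k1 : bl w1 g = 0) (k2 : bl w2 g = 0) : bl g g = 0 := by
  set U : Submodule ℂ (Fin 4 → ℂ) := Submodule.span ℂ (Set.range ![u1, u2]) with hU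
  set W : Submodule ℂ (Fin 4 → ℂ) := Submodule.span ℂ (Set.range ![w1, w2]) with hW
  have hUr : Module.finrank ℂ U = 2 := by
    rw [hU, finrank_span_eq_card hu]; simp
  have hWr : Module.finrank ℂ W = 2 := by
    rw [hW, finrank_span_eq_card hw]; simp
  have hO : Module.finrank ℂ (bl.orthogonal U) = 2 := by
    rw [LinearMap.BilinForm.finrank_orthogonal bl_nondeg, hUr]
    simp
  have mem : ∀ v, bl u1 v = 0 → bl u2 v = 0 → v ∈ bl.orthogonal U := by
    intro v e1 e2
    rw [LinearMap.BilinForm.mem_orthogonal_iff]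
    intro n hn
    rw [hU] at hn
    change bl n v = 0
    induction hn using Submodule.span_induction with
    | mem x hx =>
      obtain ⟨i, rfl⟩ := hx
      fin_cases i
      · exact e1
      · exact e2
    | zero => simp
    | add x y _ _ hx hy => rw [map_add, LinearMap.add_apply, hx, hy, add_zero]
    | smul a x _ hx => rw [map_smul, LinearMap.smul_apply, hx, smul_zero]
  have hle : W ≤ bl.orthogonal U := by
    rw [hW, Submodule.span_le]
    rintro x ⟨i, rfl⟩
    fin_cases i
    · exact mem _ h11 h21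
    · exact mem _ h12 h22
  have hEq : W = bl.orthogonal U := Submodule.eq_of_le_of_finrank_eq hle (by rw [hWr, hO])
  have hg : g ∈ W := by
    rw [hEq]; exact mem g h1 h2
  rw [hW] at hg
  have hg' : ∀ v ∈ Submodule.span ℂ (Set.range ![w1, w2]), bl v g = 0 := by
    intro n hn
    induction hn using Submodule.span_induction with
    | mem x hx =>
      obtain ⟨i, rfl⟩ := hx
      fin_cases i
      · exact k1
      · exact k2
    | zero => simp
    | add x y _ _ hx hy => rw [map_add, LinearMap.add_apply, hx, hy, add_zero]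
    | smul a x _ hx => rw [map_smul, LinearMap.smul_apply, hx, smul_zero]
  exact hg' g hg

/-- the four coordinates used -/
noncomputable def mu (β : ℂ) (D D' : Derivation ℚ ℂ ℂ) (s t : Fin 4) : ℂ →ₗ[ℚ] (Fin 4 → ℂ) :=
  LinearMap.pi ![crd β D s, crd β D t, crd β D' s, crd β D' t]

theorem mu_zero (y : ℂ) : mu β D D' s t y 0 = crd β D s y := rfl
theorem mu_one (y : ℂ) : mu β D D' s t y 1 = crd β D t y := rfl
theorem mu_two (y : ℂ) : mu β D D' s t y 2 = crd β D' s y := rfl
theorem mu_three (y : ℂ) : mu β D D' s t y 3 = crd β D' t y := rfl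

theorem bl_mu (y z : ℂ) : bl (mu β D D' s t y) (mu β D D' s t z) = bm β D D' s t y z := by
  rw [bl_apply, mu_zero, mu_one, mu_two, mu_three, mu_zero, mu_one, mu_two, mu_three]
  unfold bm mnr
  ring

theorem bl_mu_self (y : ℂ) : bl (mu β D D' s t y) (mu β D D' s t y) = 2 * qm β D D' s t y := by
  rw [bl_mu]
  unfold bm qm
  ring

/-- rational combinations -/
noncomputable def cmb (f : Fin 3 → ℂ) (k : Fin 3 → ℚ) : ℂ := ∑ i, (k i : ℂ) * f i

theorem ortho_cmb {f g : Fin 3 → ℂ} (h : ∀ i j, Ortho β (f i) (g j)) (k l : Fin 3 → ℚ) :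
    Ortho β (cmb f k) (cmb g l) := by
  refine Ortho.sum_right _ _ (fun j _ => ?_)
  refine Ortho.symm ?_
  exact Ortho.sum_right _ _ (fun i _ => (h i j).symm)

theorem two_indep (hβ : ∀ q : ℚ, β ≠ q) {f : Fin 3 → ℂ} (hf : LinearIndependent ℚ f) {y0 : ℂ}
    (h0 : Exc β y0) (h1 : ∀ i, Exc β (y0 + f i))
    (inj : ∀ k, mu β D D' s t (cmb f k) = 0 → cmb f k = 0)
    (ex : ∀ k, qm β D D' s t (cmb f k) = 0 → Exc β (cmb f k)) :
    ∃ i j, LinearIndependent ℂ ![mu β D D' s t (f i), mu β D D' s t (f j)] := by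
  by_contra hcon
  push Not at hcon
  have hsingle : ∀ i, cmb f (Pi.single i 1) = f i := by
    intro i
    unfold cmb
    rw [Finset.sum_eq_single i]
    · simp
    · intro j _ hj; simp [hj]
    · simp
  have hne : ∀ i, mu β D D' s t (f i) ≠ 0 := by
    intro i h
    have := inj (Pi.single i 1)
    rw [hsingle] at this
    exact hf.ne_zero i (this h)
  have hl : ∀ i, ∃ a : ℂ, a • mu β D D' s t (f 0) = mu β D D' s t (f i) := by
    intro i
    have := hcon 0 i
    rw [LinearIndependent.pair_iff' (hne 0)] at this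
    push Not at this
    exact this
  choose a ha using hl
  set u := mu β D D' s t (f 0) with hu
  have ha0 : ∀ i, a i ≠ 0 := by
    intro i h
    apply hne i
    rw [← ha i, h, zero_smul]
  have ha1 : a 0 ≠ a 1 := by
    intro h
    have h2 : mu β D D' s t (f 0 - f 1) = 0 := by
      rw [map_sub, ← ha 0, ← ha 1, h, sub_self]
    have h3 : cmb f (Pi.single 0 1 - Pi.single 1 1) = f 0 - f 1 := by
      have e0 := hsingle 0
      have e1 := hsingle 1
      unfold cmb at *
      rw [← e0, ← e1, ← Finset.sum_sub_distrib]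
      refine Finset.sum_congr rfl (fun i _ => ?_)
      simp only [Pi.sub_apply]
      push_cast
      ring
    have h4 := inj (Pi.single 0 1 - Pi.single 1 1)
    rw [h3] at h4
    have h5 : f 0 = f 1 := sub_eq_zero.1 (h4 h2)
    have := hf.injective h5
    simp at this
  have key : ∀ i, 2 * bl (mu β D D' s t y0) u + a i * bl u u = 0 := by
    intro i
    have e1 := qm_exc (h1 i) D D' s t
    rw [qm_add, qm_exc h0] at e1
    have e2 := bl_mu (β := β) (D := D) (D' := D') (s := s) (t := t) y0 (f i)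
    have e3 := bl_mu_self (β := β) (D := D) (D' := D') (s := s) (t := t) (f i)
    rw [← ha i] at e2 e3
    rw [map_smul] at e2
    rw [map_smul, map_smul, LinearMap.smul_apply] at e3
    simp only [smul_eq_mul] at e2 e3
    have e4 : a i * (2 * bl (mu β D D' s t y0) u + a i * bl u u) = 0 := by
      linear_combination 2 * e1 + 2 * e2 + e3
    exact (mul_eq_zero.1 e4).resolve_left (ha0 i)
  have huu : bl u u = 0 := by
    have : (a 0 - a 1) * bl u u = 0 := by linear_combination key 0 - key 1
    exact (mul_eq_zero.1 this).resolve_left (sub_ne_zero.2 ha1)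
  obtain ⟨k, hk⟩ := Pool.Agent.W252.QuadR.exists_nonexc β hβ le_rfl f hf
  apply hk
  have hk2 : mu β D D' s t (cmb f k) = (∑ i, (k i : ℂ) * a i) • u := by
    unfold cmb
    rw [map_sum, Finset.sum_smul]
    refine Finset.sum_congr rfl (fun i _ => ?_)
    have : ((k i : ℂ) * f i) = k i • f i := by rw [Rat.smul_def]
    rw [this, map_smul, ← ha i]
    rw [mul_smul]
    exact (Rat.cast_smul_eq_qsmul ℂ _ _).symm
  refine ex k ?_
  have e3 := bl_mu_self (β := β) (D := D) (D' := D') (s := s) (t := t) (cmb f k)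
  rw [hk2, map_smul, map_smul, LinearMap.smul_apply, huu] at e3
  simp only [smul_eq_mul, mul_zero] at e3
  have h2 : (2 : ℂ) ≠ 0 := two_ne_zero
  exact (mul_eq_zero.1 e3.symm).resolve_left h2

/-- **No grids**: the exceptional points contain no tripartite grid with sides of rank three. -/
theorem no_grid (hβ : ∀ q : ℚ, β ≠ q) {f g h : Fin 3 → ℂ} (hf : LinearIndependent ℚ f)
    (hg : LinearIndependent ℚ g) (hh : LinearIndependent ℚ h) {y0 : ℂ} (h0 : Exc β y0)
    (hF : ∀ i, Exc β (y0 + f i)) (hG : ∀ i, Exc β (y0 + g i)) (hH : ∀ i, Exc β (y0 + h i))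
    (hFG : ∀ i j, Exc β (y0 + f i + g j)) (hFH : ∀ i j, Exc β (y0 + f i + h j))
    (hGH : ∀ i j, Exc β (y0 + g i + h j)) : False := by
  have oFG : ∀ i j, Ortho β (f i) (g j) := fun i j => ortho_of_square h0 (hF i) (hG j) (hFG i j)
  have oFH : ∀ i j, Ortho β (f i) (h j) := fun i j => ortho_of_square h0 (hF i) (hH j) (hFH i j)
  have oGH : ∀ i j, Ortho β (g i) (h j) := fun i j => ortho_of_square h0 (hG i) (hH j) (hGH i j)
  obtain ⟨kf, hkf⟩ := Pool.Agent.W252.QuadR.exists_nonexc β hβ le_rfl f hf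
  change ¬ Exc β (cmb f kf) at hkf
  obtain ⟨D, D', s, t, hd⟩ := exists_dual hkf
  have injG : ∀ k, mu β D D' s t (cmb g k) = 0 → cmb g k = 0 := by
    intro k hk
    exact inj_of_dual hd (ortho_cmb oFG kf k) (congr_fun hk 0) (congr_fun hk 1) (congr_fun hk 2)
      (congr_fun hk 3)
  have injH : ∀ k, mu β D D' s t (cmb h k) = 0 → cmb h k = 0 := by
    intro k hk
    exact inj_of_dual hd (ortho_cmb oFH kf k) (congr_fun hk 0) (congr_fun hk 1) (congr_fun hk 2)
      (congr_fun hk 3)
  have exG : ∀ k, qm β D D' s t (cmb g k) = 0 → Exc β (cmb g k) := fun k hk =>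
    exc_of_dual hd (ortho_cmb oFG kf k) hk
  have exH : ∀ k, qm β D D' s t (cmb h k) = 0 → Exc β (cmb h k) := fun k hk =>
    exc_of_dual hd (ortho_cmb oFH kf k) hk
  obtain ⟨kg, hkg⟩ := Pool.Agent.W252.QuadR.exists_nonexc β hβ le_rfl g hg
  change ¬ Exc β (cmb g kg) at hkg
  have hq : qm β D D' s t (cmb g kg) ≠ 0 := fun hh => hkg (exG kg hh)
  obtain ⟨E, E', hE, a, b, c, d, rfl, rfl, hdet⟩ := dual_change D D' s t (cmb g kg) hq
  have oGF : ∀ i j, Ortho β (g i) (f j) := fun i j => (oFG j i).symm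
  have injF : ∀ k, mu β D D' s t (cmb f k) = 0 → cmb f k = 0 := by
    intro k hk
    have e0 : crd β D s (cmb f k) = 0 := congr_fun hk 0
    have e1 : crd β D t (cmb f k) = 0 := congr_fun hk 1
    have e2 : crd β D' s (cmb f k) = 0 := congr_fun hk 2
    have e3 : crd β D' t (cmb f k) = 0 := congr_fun hk 3
    refine inj_of_dual hE (ortho_cmb oGF kg k) ?_ ?_ ?_ ?_
    · rw [crd_add_der, crd_smul_der, crd_smul_der, e0, e2]; ring
    · rw [crd_add_der, crd_smul_der, crd_smul_der, e1, e3]; ring
    · rw [crd_add_der, crd_smul_der, crd_smul_der, e0, e2]; ring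
    · rw [crd_add_der, crd_smul_der, crd_smul_der, e1, e3]; ring
  have exF : ∀ k, qm β D D' s t (cmb f k) = 0 → Exc β (cmb f k) := by
    intro k hk
    refine exc_of_dual hE (ortho_cmb oGF kg k) ?_
    have : qm β (a • D + b • D') (c • D + d • D') s t (cmb f k) =
        (a * d - b * c) * qm β D D' s t (cmb f k) := by
      unfold qm mnr
      simp only [crd_add_der, crd_smul_der]
      ring
    rw [this, hk, mul_zero]
  obtain ⟨i, i', hi⟩ := two_indep hβ hf h0 hF injF exF
  obtain ⟨j, j', hj⟩ := two_indep hβ hh h0 hH injH exH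
  apply hq
  have hm : ∀ (y z : ℂ), Ortho β y z → bl (mu β D D' s t y) (mu β D D' s t z) = 0 := by
    intro y z hyz
    rw [bl_mu]; exact hyz D D' s t
  have hsingle : ∀ (f : Fin 3 → ℂ) i, cmb f (Pi.single i 1) = f i := by
    intro f i
    unfold cmb
    rw [Finset.sum_eq_single i]
    · simp
    · intro j _ hj; simp [hj]
    · simp
  have o1 : ∀ i, Ortho β (f i) (cmb g kg) := by
    intro i
    have := ortho_cmb oFG (Pi.single i 1) kg
    rwa [hsingle] at this
  have o2 : ∀ i, Ortho β (h i) (cmb g kg) := by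
    intro i
    have := ortho_cmb oGH kg (Pi.single i 1)
    rw [hsingle] at this
    exact this.symm
  have := planes hi hj (hm _ _ (oFH i j)) (hm _ _ (oFH i j')) (hm _ _ (oFH i' j))
    (hm _ _ (oFH i' j')) (hm _ _ (o1 i)) (hm _ _ (o1 i')) (hm _ _ (o2 j)) (hm _ _ (o2 j'))
  rw [bl_mu_self] at this
  exact (mul_eq_zero.1 this).resolve_left two_ne_zero

end Pool.Agent.TH813.Grid
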