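import Mathlib
import Pool.Agent.TH813.Grid

/-!
# The tangent space of the exceptional set at an exceptional point
-/

set_option autoImplicit false

namespace Pool.Agent.TH813.Tang

open Pool.Agent.W252 Pool.Agent.W669.Gel Pool.Agent.TH813.Grid Pool.Agent.H327R2.SC

/-- a derivation of `ℂ` which kills `K`, as a derivation over `K` -/
noncomputable def lift (K : IntermediateField ℚ ℂ) (D : Derivation ℚ ℂ ℂ)
    (hD : ∀ w ∈ K, D w = 0) : Derivation K ℂ ℂ :=
  Derivation.mk' (R := K)
    { toFun := fun x => D x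
      map_add' := fun a b => map_add D a b
      map_smul' := fun k x => by
        change D ((k : ℂ) * x) = (k : ℂ) * D x
        rw [Derivation.leibniz, hD k k.2]
        simp } (fun a b => D.leibniz a b)

/-- logarithmic derivatives are not exact -/
theorem ros (K : IntermediateField ℚ ℂ) {x z : ℂ} (hx : x ≠ 0)
    (h : ∀ D : Derivation ℚ ℂ ℂ, (∀ w ∈ K, D w = 0) → D x = D z * x) :
    ∀ D : Derivation ℚ ℂ ℂ, (∀ w ∈ K, D w = 0) → D z = 0 := by
  have hK : ∀ D : Derivation K ℂ ℂ, ∀ w ∈ K, D.restrictScalars ℚ w = 0 := fun D w hw =>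
    D.map_algebraMap (⟨w, hw⟩ : K)
  have hz : z ∈ cst K ℂ := by
    by_contra hcon
    have htr : Transcendental (cst K ℂ) z := by
      intro halg
      apply hcon
      intro D
      exact der_alg (K := K) (L := ℂ) (cst K ℂ) D (fun x hx => hx D) halg
    have : CharZero K := charZero_of_injective_algebraMap (algebraMap ℚ K).injective
    have : CharZero (cst K ℂ) :=
      charZero_of_injective_algebraMap (algebraMap K (cst K ℂ)).injective
    have hind : AlgebraicIndependent (cst K ℂ) (fun _ : Unit => z) :=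
      (algebraicIndependent_unique_type_iff).2 htr
    obtain ⟨D, hD⟩ := Pool.Agent.H135R2.VS.exists_der hind (fun _ => (1 : ℂ))
    have hD1 : (D.restrictScalars K) z = 1 := hD ()
    have hx' : x ∈ ClF K z := by
      intro D' hD'
      have h1 := h (D'.restrictScalars ℚ) (hK D')
      have h2 : (D'.restrictScalars ℚ) x = D' x := rfl
      have h3 : (D'.restrictScalars ℚ) z = D' z := rfl
      rw [h2, h3, hD', zero_mul] at h1
      exact h1
    have h4 := lemE htr hx hx' (D.restrictScalars K) (by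
      rw [hD1]; exact (cst K ℂ).one_mem) 1 (by
      rw [map_one, one_mul]
      have h1 := h ((D.restrictScalars K).restrictScalars ℚ) (hK (D.restrictScalars K))
      have h2 : ((D.restrictScalars K).restrictScalars ℚ) x = (D.restrictScalars K) x := rfl
      have h3 : ((D.restrictScalars K).restrictScalars ℚ) z = (D.restrictScalars K) z := rfl
      rw [h2, h3, hD1, one_mul] at h1
      exact h1)
    exact one_ne_zero h4
  intro D hD
  exact hz (lift K D hD)

variable {β : ℂ}

/-- `D` kills the four numbers -/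
def Kills (β : ℂ) (D : Derivation ℚ ℂ ℂ) (y : ℂ) : Prop := ∀ k, crd β D k y = 0

theorem kills_iff {D : Derivation ℚ ℂ ℂ} {y : ℂ} : Kills β D y ↔ ∀ k, D (num β y k) = 0 := by
  unfold Kills
  refine forall_congr' (fun k => ?_)
  rw [crd_eq, div_eq_zero_iff]
  exact or_iff_left (nrm_ne β y k)

/-- the field of all numbers killed by the derivations which kill the four numbers -/
noncomputable def Ky (β y : ℂ) : IntermediateField ℚ ℂ where
  carrier := {w | ∀ D : Derivation ℚ ℂ ℂ, Kills β D y → D w = 0}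
  mul_mem' := by
    intro a b ha hb D hD
    rw [Derivation.leibniz, ha D hD, hb D hD, smul_zero, smul_zero, add_zero]
  add_mem' := by
    intro a b ha hb D hD
    rw [map_add, ha D hD, hb D hD, add_zero]
  algebraMap_mem' := fun r D _ => D.map_algebraMap r
  inv_mem' := by
    intro a ha D hD
    rw [Derivation.leibniz_inv, ha D hD, smul_zero]

theorem num_mem_Ky (y : ℂ) (k : Fin 4) : num β y k ∈ Ky β y := fun _ hD => kills_iff.1 hD k

theorem kills_of_Ky {D : Derivation ℚ ℂ ℂ} {y : ℂ} (h : ∀ w ∈ Ky β y, D w = 0) :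
    Kills β D y := kills_iff.2 (fun k => h _ (num_mem_Ky y k))

theorem nrm_eq (y : ℂ) (k : Fin 4) : (nrm β y k = 1 ∧ (k = 0 ∨ k = 1)) ∨
    (nrm β y k = num β y k ∧ (k = 2 ∨ k = 3)) := by
  fin_cases k <;> simp [nrm, num]

theorem der_nrm {D : Derivation ℚ ℂ ℂ} {y : ℂ} (hD : Kills β D y) (k : Fin 4) :
    D (nrm β y k) = 0 := by
  rcases nrm_eq (β := β) y k with ⟨h, _⟩ | ⟨h, _⟩
  · rw [h]; exact D.map_one_eq_zero
  · rw [h]; exact kills_iff.1 hD k

theorem der_crd {D : Derivation ℚ ℂ ℂ} {y : ℂ} (hD : Kills β D y) (D0 : Derivation ℚ ℂ ℂ)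
    (k : Fin 4) : D (crd β D0 k y) = crd β ⁅D, D0⁆ k y := by
  rw [crd_eq, crd_eq, Derivation.commutator_apply, kills_iff.1 hD k, map_zero, sub_zero,
    div_eq_mul_inv, Derivation.leibniz, Derivation.leibniz_inv, der_nrm hD k]
  simp [div_eq_mul_inv, mul_comm]

/-- the rank is one at an exceptional point -/
theorem rank_one {y : ℂ} (h : Exc β y) (D D' : Derivation ℚ ℂ ℂ) (k l : Fin 4) :
    crd β D k y * crd β D' l y = crd β D' k y * crd β D l y := by
  have := qm_exc h D D' k l
  unfold qm mnr at this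
  linear_combination this

theorem exists_crd {y : ℂ} (hy : y ≠ 0) : ∃ (D : Derivation ℚ ℂ ℂ) (k : Fin 4),
    crd β D k y ≠ 0 := by
  by_contra hcon
  push Not at hcon
  exact hy (eq_zero_of_crd hcon)

/-- a multiple of `D0` agrees with `D` on the numbers attached to `y` -/
theorem exists_rho {y : ℂ} (h : Exc β y) {D0 : Derivation ℚ ℂ ℂ} {k0 : Fin 4}
    (h0 : crd β D0 k0 y ≠ 0) (D : Derivation ℚ ℂ ℂ) :
    Kills β (D + (-(crd β D k0 y / crd β D0 k0 y)) • D0) y := by
  intro k
  rw [crd_add_der, crd_smul_der]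
  have := rank_one h D D0 k k0
  field_simp
  linear_combination this

theorem exc_of_kills {y τ : ℂ} (h : Exc β y) (hy : y ≠ 0)
    (hk : ∀ D, Kills β D y → Kills β D τ) : Exc β τ ∧ Ortho β y τ := by
  obtain ⟨D0, k0, h0⟩ := exists_crd (β := β) hy
  have key : ∀ D k, crd β D k τ = crd β D k0 y / crd β D0 k0 y * crd β D0 k τ := by
    intro D k
    have := hk _ (exists_rho h h0 D) k
    rw [crd_add_der, crd_smul_der] at this
    linear_combination this
  have key' : ∀ D k, crd β D k y = crd β D k0 y / crd β D0 k0 y * crd β D0 k y := by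
    intro D k
    have := exists_rho h h0 D k
    rw [crd_add_der, crd_smul_der] at this
    linear_combination this
  constructor
  · apply exc_of_minors
    intro D D' k l
    unfold qm mnr
    rw [key D k, key D' l, key D' k, key D l]
    ring
  · intro D D' k l
    unfold bm mnr
    rw [key D k, key D' l, key D' k, key D l, key' D k, key' D' l, key' D' k, key' D l]
    ring

theorem kills_symm {y τ : ℂ} (h : Exc β y) (hy : y ≠ 0) (hτ : τ ≠ 0)
    (hk : ∀ D, Kills β D y → Kills β D τ) : ∀ D, Kills β D τ → Kills β D y := by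
  obtain ⟨D0, k0, h0⟩ := exists_crd (β := β) hy
  have key : ∀ D k, crd β D k τ = crd β D k0 y / crd β D0 k0 y * crd β D0 k τ := by
    intro D k
    have := hk _ (exists_rho h h0 D) k
    rw [crd_add_der, crd_smul_der] at this
    linear_combination this
  obtain ⟨D1, k1, h1⟩ := exists_crd (β := β) hτ
  have h2 : crd β D0 k1 τ ≠ 0 := by
    intro h3
    rw [key D1 k1, h3, mul_zero] at h1
    exact h1 rfl
  intro D hD k
  have h3 := hD k1
  rw [key D k1] at h3
  have h4 : crd β D k0 y / crd β D0 k0 y = 0 := (mul_eq_zero.1 h3).resolve_right h2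
  have h5 := exists_rho h h0 D k
  rw [crd_add_der, crd_smul_der, h4] at h5
  linear_combination h5

/-- `y` and `β y` are not both algebraic at an exceptional point -/
theorem not_both_alg (hβ : ∀ q : ℚ, β ≠ q) {y : ℂ} (h : Exc β y) (hy : y ≠ 0)
    (h0 : ∀ D, crd β D 0 y = 0) (h1 : ∀ D, crd β D 1 y = 0) : False := by
  have hy1 : IsAlgebraic ℚ y := Pool.Agent.W342.GEL.alg_of_mem_cst (fun D => h0 D)
  have hy2 : IsAlgebraic ℚ (β * y) := Pool.Agent.W342.GEL.alg_of_mem_cst (fun D => h1 D)
  have hli : LinearIndependent ℚ ![y, β * y] := by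
    rw [LinearIndependent.pair_iff]
    intro p q hpq
    simp only [Rat.smul_def] at hpq
    have h3 : ((p : ℂ) + q * β) * y = 0 := by linear_combination hpq
    have h4 := (mul_eq_zero.1 h3).resolve_right hy
    by_cases hq : q = 0
    · subst hq
      refine ⟨?_, rfl⟩
      have : (p : ℂ) = 0 := by simpa using h4
      exact_mod_cast this
    · exfalso
      apply hβ (-p / q)
      have hqC : (q : ℂ) ≠ 0 := by exact_mod_cast hq
      push_cast
      rw [eq_div_iff hqC]
      linear_combination h4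
  have hlw := lw_algInd ![y, β * y] (by
    intro i
    fin_cases i
    · exact hy1
    · exact hy2) hli
  have h5 : (fun i => Complex.exp ((![y, β * y] : Fin 2 → ℂ) i)) =
      ![Complex.exp y, Complex.exp (β * y)] := by
    ext i
    fin_cases i <;> rfl
  rw [h5] at hlw
  exact h _ (Or.inr (Or.inr (Or.inl rfl))) _ (Or.inr (Or.inr (Or.inr rfl))) hlw

/-- **The tangent space.** -/
theorem tangent (hβ : ∀ q : ℚ, β ≠ q) {y τ : ℂ} (h : Exc β y) (hy : y ≠ 0)
    (hlog : ∃ D, crd β D 2 y ≠ 0 ∨ crd β D 3 y ≠ 0) (ho : Ortho β y τ) :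
    ∀ D, Kills β D y → Kills β D τ := by
  obtain ⟨D0, j, hj, hj0⟩ : ∃ D0, ∃ j : Fin 4, (j = 2 ∨ j = 3) ∧ crd β D0 j y ≠ 0 := by
    obtain ⟨D, h1 | h1⟩ := hlog
    · exact ⟨D, 2, Or.inl rfl, h1⟩
    · exact ⟨D, 3, Or.inr rfl, h1⟩
  obtain ⟨i, hi, hi0⟩ : ∃ i : Fin 4, (i = 0 ∨ i = 1) ∧ crd β D0 i y ≠ 0 := by
    by_contra hcon
    push Not at hcon
    have e0 := hcon 0 (Or.inl rfl)
    have e1 := hcon 1 (Or.inr rfl)
    refine not_both_alg hβ h hy (fun D => ?_) (fun D => ?_)
    · have := rank_one h D D0 0 j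
      rw [e0, zero_mul] at this
      exact (mul_eq_zero.1 this).resolve_right hj0
    · have := rank_one h D D0 1 j
      rw [e1, zero_mul] at this
      exact (mul_eq_zero.1 this).resolve_right hj0
  have hst : ∀ D, Kills β D y → ∀ k l, crd β D0 k y * crd β D l τ =
      crd β D k τ * crd β D0 l y := by
    intro D hD k l
    have := ho D0 D k l
    unfold bm mnr at this
    rw [hD k, hD l] at this
    linear_combination this
  set g := crd β D0 j y / crd β D0 i y with hg
  have hg0 : g ≠ 0 := div_ne_zero hj0 hi0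
  have hDg : ∀ D, Kills β D y → D g = 0 := by
    intro D hD
    rw [hg, div_eq_mul_inv, Derivation.leibniz, Derivation.leibniz_inv, der_crd hD, der_crd hD]
    have := rank_one h ⁅D, D0⁆ D0 j i
    simp only [smul_eq_mul]
    field_simp
    linear_combination this
  have hnj : nrm β τ j = num β τ j := by
    rcases nrm_eq (β := β) τ j with ⟨_, h1 | h1⟩ | ⟨h1, _⟩
    · rcases hj with h2 | h2 <;> rw [h2] at h1 <;> exact absurd h1 (by decide)
    · rcases hj with h2 | h2 <;> rw [h2] at h1 <;> exact absurd h1 (by decide)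
    · exact h1
  have hni : nrm β τ i = 1 := by
    rcases nrm_eq (β := β) τ i with ⟨h1, _⟩ | ⟨_, h1 | h1⟩
    · exact h1
    · rcases hi with h2 | h2 <;> rw [h2] at h1 <;> exact absurd h1 (by decide)
    · rcases hi with h2 | h2 <;> rw [h2] at h1 <;> exact absurd h1 (by decide)
  have hx : num β τ j ≠ 0 := by rw [← hnj]; exact nrm_ne β τ j
  have hcj : ∀ D : Derivation ℚ ℂ ℂ, D (num β τ j) = crd β D j τ * num β τ j := by
    intro D
    rw [crd_eq, hnj]
    field_simp
  have hci : ∀ D : Derivation ℚ ℂ ℂ, D (num β τ i) = crd β D i τ := by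
    intro D
    rw [crd_eq, hni, div_one]
  have hros := ros (Ky β y) hx (z := g * num β τ i) (by
    intro D hD
    have hk := kills_of_Ky hD
    rw [hcj, Derivation.leibniz, hDg D hk, hci, smul_zero, add_zero, smul_eq_mul]
    have h1 := hst D hk i j
    congr 1
    rw [hg]
    field_simp
    linear_combination h1)
  intro D hD
  have h1 := hros D (fun w hw => hw D hD)
  rw [Derivation.leibniz, hDg D hD, hci, smul_zero, add_zero, smul_eq_mul] at h1
  have h2 : crd β D i τ = 0 := (mul_eq_zero.1 h1).resolve_left hg0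
  intro l
  have h3 := hst D hD i l
  rw [h2, zero_mul] at h3
  exact (mul_eq_zero.1 h3).resolve_left hi0

end Pool.Agent.TH813.Tang
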