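import Mathlib
import Pool.Agent.TH813.EllRos

/-!
# The theorem of Rosenlicht for logarithmic and elliptic differentials
-/

set_option autoImplicit false

open Finset Module
open scoped PeriodPair

noncomputable section

namespace Pool.Agent.TH813.Ell

open H667R3 Pool.Agent.W245.EB

variable {L : PeriodPair}

/-- `om` as a linear map -/
def omL (L : PeriodPair) (D : Derivation ℚ ℂ ℂ) (h2 : D L.g₂ = 0) (h3 : D L.g₃ = 0) : ℂ →ₗ[ℚ] ℂ :=
  (AddMonoidHom.mk' (om L D) (om_add L D h2 h3)).toRatLinearMap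

theorem omL_apply (D : Derivation ℚ ℂ ℂ) (h2 : D L.g₂ = 0) (h3 : D L.g₃ = 0) (v : ℂ) :
    omL L D h2 h3 v = om L D v := rfl

/-- `et` as a linear map -/
def etL (L : PeriodPair) (D : Derivation ℚ ℂ ℂ) (h2 : D L.g₂ = 0) (h3 : D L.g₃ = 0) : ℂ →ₗ[ℚ] ℂ :=
  (AddMonoidHom.mk' (et L D) (et_add L D h2 h3)).toRatLinearMap

theorem etL_apply (D : Derivation ℚ ℂ ℂ) (h2 : D L.g₂ = 0) (h3 : D L.g₃ = 0) (v : ℂ) :
    etL L D h2 h3 v = et L D v := rfl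

theorem om_lin (D : Derivation ℚ ℂ ℂ) (h2 : D L.g₂ = 0) (h3 : D L.g₃ = 0) {n : ℕ}
    (q : Fin n → ℚ) (v : Fin n → ℂ) :
    om L D (∑ j, q j • v j) = ∑ j, (q j : ℂ) * om L D (v j) := by
  rw [← omL_apply D h2 h3, map_sum]
  refine sum_congr rfl (fun j _ => ?_)
  rw [map_smul, omL_apply, Rat.smul_def]

theorem et_lin (D : Derivation ℚ ℂ ℂ) (h2 : D L.g₂ = 0) (h3 : D L.g₃ = 0) {n : ℕ}
    (q : Fin n → ℚ) (v : Fin n → ℂ) :
    et L D (∑ j, q j • v j) = ∑ j, (q j : ℂ) * et L D (v j) := by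
  rw [← etL_apply D h2 h3, map_sum]
  refine sum_congr rfl (fun j _ => ?_)
  rw [map_smul, etL_apply, Rat.smul_def]

/-- the case of an integral vector -/
theorem ros_int (hcm : NoCM L) (K : IntermediateField ℚ ℂ) (h2 : L.g₂ ∈ K) (h3 : L.g₃ ∈ K)
    {m n : ℕ} (β u : Fin m → ℂ) (hβ : ∀ l, β l ∈ K) (hu : ∀ l, u l ≠ 0)
    (b c v : Fin n → ℂ) (hb : ∀ j, b j ∈ K) (hc : ∀ j, c j ∈ K) (x : ℂ)
    (h : ∀ D : Derivation ℚ ℂ ℂ, (∀ w ∈ K, D w = 0) → D x = ∑ l, β l * (D (u l) / u l) +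
      ∑ j, (b j * om L D (v j) + c j * (℘[L] (v j) * om L D (v j))))
    (a : Fin n → ℤ) (ha : ∀ N : Fin n → ℤ, ∑ j, b j * (N j : ℂ) = 0 → ∑ j, c j * (N j : ℂ) = 0 →
      ∑ j, a j * N j = 0) :
    ∀ D : Derivation ℚ ℂ ℂ, (∀ w ∈ K, D w = 0) → ∑ j, (a j : ℂ) * om L D (v j) = 0 := by
  intro D₀ hD₀
  by_contra hne
  set w : ℂ := ∑ j, (a j : ℂ) * v j with hw
  have homw : om L D₀ w = ∑ j, (a j : ℂ) * om L D₀ (v j) := by
    rw [hw, om_sum D₀ (hD₀ _ h2) (hD₀ _ h3)]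
    exact sum_congr rfl (fun j _ => om_int D₀ (hD₀ _ h2) (hD₀ _ h3) _ _)
  rw [← homw] at hne
  have hw2 : 2 * w ∉ L.lattice := fun h => hne (om_of_two_mul_mem L D₀ h)
  have hwl : w ∉ L.lattice := fun h => hne (om_of_mem L D₀ h)
  have hDy : D₀ (℘[L] w) ≠ 0 := by
    intro h0
    apply hne
    unfold om
    rw [h0, zero_div]
  obtain ⟨K₁, D₁, h1, h4, h5⟩ := Ros.exists_setup K (Ros.trans_of_der K D₀ hD₀ hDy)
  have : CharZero K := charZero_of_injective_algebraMap (algebraMap ℚ K).injective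
  have : CharZero K₁ := charZero_of_injective_algebraMap (algebraMap K K₁).injective
  let D : Derivation K₁ ℂ ℂ := ℘'[L] w • D₁
  have hD : D (℘[L] w) = ℘'[L] w := by
    change ℘'[L] w • D₁ (℘[L] w) = _
    rw [h5, smul_eq_mul, mul_one]
  let Dq : Derivation ℚ ℂ ℂ := (D.restrictScalars K).restrictScalars ℚ
  have hKr : ∀ k : ℂ, (hk : k ∈ K) → k = algebraMap K₁ ℂ (algebraMap K K₁ ⟨k, hk⟩) :=
    fun k hk => rfl
  have hkill : ∀ w ∈ K, Dq w = 0 := fun w hw =>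
    (D.restrictScalars K).map_algebraMap (⟨w, hw⟩ : K)
  obtain ⟨d, N, hd, hN1, hN2, hN3⟩ := key_one (L := L) (K₁ := K₁) hcm hw2 h1 h4
    ⟨algebraMap K K₁ ⟨_, h2⟩, rfl⟩ ⟨algebraMap K K₁ ⟨_, h3⟩, rfl⟩ D hD Dq (fun z => rfl)
    (fun l => algebraMap K K₁ ⟨β l, hβ l⟩) u hu (fun j => algebraMap K K₁ ⟨b j, hb j⟩)
    (fun j => algebraMap K K₁ ⟨c j, hc j⟩) v x (h Dq hkill)
  have hconv : ∀ (b : Fin n → ℂ) (hb : ∀ j, b j ∈ K),
      ∑ j, algebraMap K K₁ ⟨b j, hb j⟩ * (N j : K₁) = 0 → ∑ j, b j * (N j : ℂ) = 0 := by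
    intro b hb h0
    have := congrArg (algebraMap K₁ ℂ) h0
    rw [map_sum, map_zero] at this
    rw [← this]
    refine sum_congr rfl (fun j _ => ?_)
    rw [map_mul, map_intCast]
    rfl
  have h6 := ha N (hconv b hb hN1) (hconv c hc hN2)
  have h7 := hN3 a hw
  rw [h6] at h7
  omega

/-- a common denominator -/
theorem exists_denom {n : ℕ} (q : Fin n → ℚ) :
    ∃ (m : ℕ) (_ : 0 < m) (a : Fin n → ℤ), ∀ j, (a j : ℚ) = m * q j := by
  classical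
  refine ⟨∏ j, (q j).den, Finset.prod_pos (fun j _ => (q j).den_pos),
    fun j => (q j).num * ∏ l ∈ univ.erase j, ((q l).den : ℤ), fun j => ?_⟩
  rw [← mul_prod_erase univ (fun l => (q l).den) (mem_univ j)]
  push_cast
  have h1 : ((q j).den : ℚ) * q j = (q j).num := Rat.den_mul_eq_num _
  rw [← h1]
  ring

theorem psi_sum (ψ : ℂ →ₗ[ℚ] ℚ) {n : ℕ} (b : Fin n → ℂ) (N : Fin n → ℤ)
    (h : ∑ j, b j * (N j : ℂ) = 0) : ∑ j, ψ (b j) * (N j : ℚ) = 0 := by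
  have := congrArg ψ h
  rw [map_sum, map_zero] at this
  rw [← this]
  refine sum_congr rfl (fun j _ => ?_)
  have e1 : b j * (N j : ℂ) = (N j : ℚ) • b j := by
    rw [Rat.smul_def]; push_cast; ring
  rw [e1, map_smul, smul_eq_mul, mul_comm]

theorem ros_psi (hcm : NoCM L) (K : IntermediateField ℚ ℂ) (h2 : L.g₂ ∈ K) (h3 : L.g₃ ∈ K)
    {m n : ℕ} (β u : Fin m → ℂ) (hβ : ∀ l, β l ∈ K) (hu : ∀ l, u l ≠ 0)
    (b c v : Fin n → ℂ) (hb : ∀ j, b j ∈ K) (hc : ∀ j, c j ∈ K) (x : ℂ)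
    (h : ∀ D : Derivation ℚ ℂ ℂ, (∀ w ∈ K, D w = 0) → D x = ∑ l, β l * (D (u l) / u l) +
      ∑ j, (b j * om L D (v j) + c j * (℘[L] (v j) * om L D (v j)))) (q : Fin n → ℚ)
    (hq : ∀ N : Fin n → ℤ, ∑ j, b j * (N j : ℂ) = 0 → ∑ j, c j * (N j : ℂ) = 0 →
      ∑ j, q j * (N j : ℚ) = 0) :
    ∀ D : Derivation ℚ ℂ ℂ, (∀ w ∈ K, D w = 0) → ∑ j, (q j : ℂ) * om L D (v j) = 0 := by
  intro D hD
  obtain ⟨k, hk, a, ha⟩ := exists_denom q
  have h1 := ros_int hcm K h2 h3 β u hβ hu b c v hb hc x h a (fun N hN1 hN2 => by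
    have h2 := hq N hN1 hN2
    have h3 : ((∑ j, a j * N j : ℤ) : ℚ) = 0 := by
      push_cast
      have : ∑ j, (a j : ℚ) * (N j : ℚ) = k * ∑ j, q j * (N j : ℚ) := by
        rw [mul_sum]
        refine sum_congr rfl (fun j _ => ?_)
        rw [ha, mul_assoc]
      rw [this, h2, mul_zero]
    exact_mod_cast h3) D hD
  have haC : ∀ j, (a j : ℂ) = k * (q j : ℂ) := fun j => by
    have := ha j
    exact_mod_cast congrArg (fun q : ℚ => (q : ℂ)) this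
  have h4 : ∑ j, (a j : ℂ) * om L D (v j) = k * ∑ j, (q j : ℂ) * om L D (v j) := by
    rw [mul_sum]
    refine sum_congr rfl (fun j _ => ?_)
    rw [haC, mul_assoc]
  rw [h4] at h1
  exact (mul_eq_zero.1 h1).resolve_left (by exact_mod_cast hk.ne')

/-- coordinates on the rational span of finitely many numbers -/
theorem exists_coord {K : IntermediateField ℚ ℂ} {n : ℕ} (c : Fin n → ℂ) (hc : ∀ j, c j ∈ K) :
    ∃ (d : ℕ) (e : Fin d → ℂ) (ψ : Fin d → (ℂ →ₗ[ℚ] ℚ)), (∀ k, e k ∈ K) ∧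
      ∀ j, c j = ∑ k, (ψ k (c j) : ℂ) * e k := by
  classical
  let S := Submodule.span ℚ (Set.range c)
  have : FiniteDimensional ℚ S := FiniteDimensional.span_of_finite ℚ (Set.finite_range c)
  let B := finBasis ℚ S
  obtain ⟨g, hg⟩ := LinearMap.exists_leftInverse_of_injective S.subtype (Submodule.ker_subtype _)
  have hgS : ∀ x (hx : x ∈ S), g x = ⟨x, hx⟩ := fun x hx =>
    LinearMap.congr_fun hg ⟨x, hx⟩
  have hSK : S ≤ Subalgebra.toSubmodule K.toSubalgebra := by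
    rw [Submodule.span_le]
    rintro _ ⟨j, rfl⟩
    exact hc j
  refine ⟨finrank ℚ S, fun k => (B k : ℂ), fun k => B.coord k ∘ₗ g, fun k => hSK (B k).2,
    fun j => ?_⟩
  have hj : c j ∈ S := Submodule.subset_span ⟨j, rfl⟩
  have h1 := congrArg (fun t : S => (t : ℂ)) (B.sum_repr ⟨c j, hj⟩)
  simp only [Submodule.coe_sum, Submodule.coe_smul] at h1
  rw [← h1]
  refine sum_congr rfl (fun k _ => ?_)
  rw [Rat.smul_def]
  congr 2
  rw [h1]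
  change _ = B.repr (g (c j)) k
  rw [hgS _ hj]

/-- **Rosenlicht's theorem** for logarithmic differentials and differentials of the first and of
the second kind. -/
theorem ros (hcm : NoCM L) (K : IntermediateField ℚ ℂ) (h2 : L.g₂ ∈ K) (h3 : L.g₃ ∈ K)
    {m n : ℕ} (β u : Fin m → ℂ) (hβ : ∀ l, β l ∈ K) (hu : ∀ l, u l ≠ 0)
    (b c v : Fin n → ℂ) (hb : ∀ j, b j ∈ K) (hc : ∀ j, c j ∈ K) (x : ℂ)
    (h : ∀ D : Derivation ℚ ℂ ℂ, (∀ w ∈ K, D w = 0) → D x = ∑ l, β l * (D (u l) / u l) +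
      ∑ j, (b j * om L D (v j) + c j * (℘[L] (v j) * om L D (v j))))
    (ψ : ℂ →ₗ[ℚ] ℚ) :
    ∀ D : Derivation ℚ ℂ ℂ, (∀ w ∈ K, D w = 0) →
      ∑ l, (ψ (β l) : ℂ) * (D (u l) / u l) = 0 ∧ ∑ j, (ψ (b j) : ℂ) * om L D (v j) = 0 ∧
        ∑ j, (ψ (c j) : ℂ) * om L D (v j) = 0 := by
  classical
  have hB : ∀ ψ : ℂ →ₗ[ℚ] ℚ, ∀ D : Derivation ℚ ℂ ℂ, (∀ w ∈ K, D w = 0) →
      ∑ j, (ψ (b j) : ℂ) * om L D (v j) = 0 := fun ψ =>
    ros_psi hcm K h2 h3 β u hβ hu b c v hb hc x h _ (fun N hN _ => psi_sum ψ b N hN)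
  have hC : ∀ ψ : ℂ →ₗ[ℚ] ℚ, ∀ D : Derivation ℚ ℂ ℂ, (∀ w ∈ K, D w = 0) →
      ∑ j, (ψ (c j) : ℂ) * om L D (v j) = 0 := fun ψ =>
    ros_psi hcm K h2 h3 β u hβ hu b c v hb hc x h _ (fun N _ hN => psi_sum ψ c N hN)
  obtain ⟨d1, e1, ψ1, he1, hψ1⟩ := exists_coord b hb
  obtain ⟨d2, e2, ψ2, he2, hψ2⟩ := exists_coord c hc
  have hb0 : ∀ D : Derivation ℚ ℂ ℂ, (∀ w ∈ K, D w = 0) → ∑ j, b j * om L D (v j) = 0 := by
    intro D hD
    have h4 : ∀ j, b j * om L D (v j) = ∑ k, e1 k * ((ψ1 k (b j) : ℂ) * om L D (v j)) := by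
      intro j
      conv_lhs => rw [hψ1 j]
      rw [sum_mul]
      exact sum_congr rfl (fun k _ => by ring)
    rw [sum_congr rfl (fun j _ => h4 j), sum_comm]
    refine sum_eq_zero (fun k _ => ?_)
    rw [← mul_sum, hB _ D hD, mul_zero]
  set y : ℂ := ∑ k, e2 k * (zt L (∑ j, ψ2 k (c j) • v j) - ∑ j, (ψ2 k (c j) : ℂ) * zt L (v j))
    with hy
  have hc0 : ∀ D : Derivation ℚ ℂ ℂ, (∀ w ∈ K, D w = 0) →
      ∑ j, c j * (℘[L] (v j) * om L D (v j)) = D y := by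
    intro D hD
    have hd2 := hD _ h2
    have hd3 := hD _ h3
    have h4 : ∀ j, c j * (℘[L] (v j) * om L D (v j)) =
        ∑ k, e2 k * ((ψ2 k (c j) : ℂ) * (et L D (v j) - D (zt L (v j)))) := by
      intro j
      have h5 : ℘[L] (v j) * om L D (v j) = et L D (v j) - D (zt L (v j)) := by
        unfold et; ring
      rw [h5]
      conv_lhs => rw [hψ2 j]
      rw [sum_mul]
      exact sum_congr rfl (fun k _ => by ring)
    have h6 : ∀ k, om L D (∑ j, ψ2 k (c j) • v j) = 0 := by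
      intro k
      rw [om_lin D hd2 hd3]
      exact hC _ D hD
    have h7 : ∀ k, ∑ j, (ψ2 k (c j) : ℂ) * et L D (v j) =
        D (zt L (∑ j, ψ2 k (c j) • v j)) := by
      intro k
      rw [← et_lin D hd2 hd3]
      unfold et
      rw [h6, mul_zero, add_zero]
    rw [sum_congr rfl (fun j _ => h4 j), sum_comm, hy, map_sum]
    refine sum_congr rfl (fun k _ => ?_)
    rw [Derivation.leibniz, hD _ (he2 k), smul_zero, add_zero, smul_eq_mul, map_sub, ← h7,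
      map_sum, ← mul_sum, ← sum_sub_distrib]
    congr 1
    refine sum_congr rfl (fun j _ => ?_)
    have h8 : D ((ψ2 k (c j) : ℂ) * zt L (v j)) = (ψ2 k (c j) : ℂ) * D (zt L (v j)) := by
      rw [← Rat.smul_def, D.map_smul, Rat.smul_def]
    rw [h8, mul_sub]
  have h9 : ∀ D : Derivation ℚ ℂ ℂ, (∀ w ∈ K, D w = 0) →
      D (x - y) = ∑ l, β l * (D (u l) / u l) := by
    intro D hD
    rw [map_sub, h D hD, ← hc0 D hD, sum_add_distrib, hb0 D hD]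
    ring
  have h10 := Ros.exact K β u hβ hu _ h9
  have h11 := Ros.rational K β u hβ hu (fun D hD => by rw [← h9 D hD, h10 D hD]) ψ
  exact fun D hD => ⟨h11 D hD, hB ψ D hD, hC ψ D hD⟩

end Pool.Agent.TH813.Ell
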