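import Mathlib

/-!
# Smooth linear components of an intersection of quadrics: a counting lemma
-/

set_option autoImplicit false

namespace Pool.Agent.TH813.Count

open Module Finset

variable {k V : Type*} [Field k] [AddCommGroup V] [Module k V]

section sel

variable [FiniteDimensional k V]

/-- functionals without common kernel contain a basis of the dual space -/
theorem exists_sel {J : Type*} {r : ℕ} (e : Basis (Fin r) k V) (m : J → Dual k V)
    (h : ∀ x, (∀ j, m j x = 0) → x = 0) :
    ∃ j : Fin r → J, (Matrix.of fun i l => m (j i) (e l)).det ≠ 0 := by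
  classical
  have htop : Submodule.span k (Set.range m) = ⊤ := by
    have h1 := Subspace.dualCoannihilator_dualAnnihilator_eq (W := Submodule.span k (Set.range m))
    have h2 : Submodule.dualCoannihilator (Submodule.span k (Set.range m)) = ⊥ := by
      rw [Submodule.eq_bot_iff]
      intro x hx
      rw [Submodule.mem_dualCoannihilator] at hx
      exact h x (fun j => hx _ (Submodule.subset_span ⟨j, rfl⟩))
    rw [h2, Submodule.dualAnnihilator_bot] at h1
    exact h1.symm
  obtain ⟨b, hb, hspan, hli⟩ := exists_linearIndependent k (Set.range m)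
  rw [htop] at hspan
  have hB : ⊤ ≤ Submodule.span k (Set.range ((↑) : b → Dual k V)) := by
    rw [Subtype.range_coe, hspan]
  let B : Basis b k (Dual k V) := Basis.mk hli hB
  have : Fintype b := FiniteDimensional.fintypeBasisIndex B
  have hcard : Fintype.card b = r := by
    rw [← finrank_eq_card_basis B, Subspace.dual_finrank_eq, finrank_eq_card_basis e,
      Fintype.card_fin]
  let eq : Fin r ≃ b := (Fintype.equivFinOfCardEq hcard).symm
  have hch : ∀ i : Fin r, ∃ j, m j = (eq i : Dual k V) := fun i => hb (eq i).2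
  choose j hj using hch
  refine ⟨j, fun hdet => ?_⟩
  obtain ⟨v, hv, hv0⟩ := Matrix.exists_mulVec_eq_zero_iff.2 hdet
  have hx : ∀ i, m (j i) (∑ l, v l • e l) = 0 := by
    intro i
    rw [map_sum]
    have := congrFun hv0 i
    simp only [Matrix.mulVec, dotProduct, Matrix.of_apply, Pi.zero_apply] at this
    rw [← this]
    refine sum_congr rfl (fun l _ => ?_)
    rw [map_smul, smul_eq_mul, mul_comm]
  have hall : ∀ f : Dual k V, f (∑ l, v l • e l) = 0 := by
    intro f
    have hf : f ∈ Submodule.span k b := by rw [hspan]; trivial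
    induction hf using Submodule.span_induction with
    | mem g hg =>
      have h3 := hx (eq.symm ⟨g, hg⟩)
      rw [hj, Equiv.apply_symm_apply] at h3
      exact h3
    | zero => simp
    | add a b _ _ ha hb => rw [LinearMap.add_apply, ha, hb, add_zero]
    | smul c a _ ha => rw [LinearMap.smul_apply, ha, smul_zero]
  have hx0 : ∑ l, v l • e l = 0 := (forall_dual_apply_eq_zero_iff k _).1 hall
  apply hv
  funext l
  exact (linearIndependent_iff'.1 e.linearIndependent) univ v hx0 l (mem_univ l)

end sel

section poly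

variable {r : ℕ} (e : Basis (Fin r) k V)

/-- the affine coordinates -/
noncomputable def X (t : V) : Option (Fin r) → k
  | none => 1
  | some l => e.repr t l

/-- monomials of degree at most `r` -/
noncomputable def mon (s : Sym (Option (Fin r)) r) : V → k := fun t => (s.1.map (X e t)).prod

/-- polynomial functions of degree at most `r` -/
noncomputable def PP : Submodule k (V → k) := Submodule.span k (Set.range (mon e))

theorem finrank_PP : finrank k (PP e) ≤ (2 * r).choose r := by
  classical
  have h := finrank_range_le_card (R := k) (mon e)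
  unfold Set.finrank at h
  refine h.trans ?_
  rw [Sym.card_sym_eq_choose, Fintype.card_option, Fintype.card_fin]
  have : r + 1 + r - 1 = 2 * r := by omega
  rw [this]

instance : Module.Finite k (PP e) := by
  unfold PP
  exact FiniteDimensional.span_of_finite k (Set.finite_range _)

theorem prod_mem (c : Fin r → Option (Fin r) → k) :
    (fun t => ∏ i, ∑ o, c i o * X e t o) ∈ PP e := by
  classical
  have h1 : (fun t => ∏ i, ∑ o, c i o * X e t o) =
      ∑ φ : Fin r → Option (Fin r), (∏ i, c i (φ i)) • (fun t => ∏ i, X e t (φ i)) := by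
    funext t
    rw [prod_univ_sum]
    simp only [Finset.sum_apply, Pi.smul_apply, smul_eq_mul]
    have : Fintype.piFinset (fun _ : Fin r => (univ : Finset (Option (Fin r)))) = univ := by
      ext; simp
    rw [this]
    refine sum_congr rfl (fun φ _ => ?_)
    rw [prod_mul_distrib]
  rw [h1]
  refine Submodule.sum_mem _ (fun φ _ => Submodule.smul_mem _ _ ?_)
  apply Submodule.subset_span
  refine ⟨⟨(univ : Finset (Fin r)).val.map φ, by simp⟩, ?_⟩
  funext t
  unfold mon
  simp only [Multiset.map_map]
  rfl

theorem det_mem (A : V → Matrix (Fin r) (Fin r) k)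
    (hA : ∀ i l, ∃ c : Option (Fin r) → k, ∀ t, A t i l = ∑ o, c o * X e t o) :
    (fun t => (A t).det) ∈ PP e := by
  classical
  choose c hc using hA
  have h1 : (fun t => (A t).det) = ∑ σ : Equiv.Perm (Fin r), (Equiv.Perm.sign σ : ℤ) •
      (fun t => ∏ i, ∑ o, c (σ i) i o * X e t o) := by
    funext t
    rw [Matrix.det_apply]
    simp only [Finset.sum_apply, Pi.smul_apply]
    refine sum_congr rfl (fun σ _ => ?_)
    simp only [hc]
    rfl
  rw [h1]
  refine Submodule.sum_mem _ (fun σ _ => ?_)
  rw [← Int.cast_smul_eq_zsmul k]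
  exact Submodule.smul_mem _ _ (prod_mem e _)

end poly

section main

variable [FiniteDimensional k V]

theorem exists_poly {r : ℕ} (e : Basis (Fin r) k V) {I : Type*} (b : I → V →ₗ[k] V →ₗ[k] k)
    (hsymm : ∀ a x y, b a x y = b a y x) (h2 : (2 : k) ≠ 0) (t₀ : V)
    (h1 : ∀ a, b a t₀ t₀ = 0)
    (hT : ∀ τ, (∀ a, b a t₀ τ = 0) → ∀ a, b a τ τ = 0) :
    ∃ P ∈ PP e, P t₀ ≠ 0 ∧ ∀ t, (∀ a, b a t t = 0) → (∃ a, b a t₀ t ≠ 0) → P t = 0 := by
  classical
  -- the tangent space
  let W : Submodule k V := ⨅ a, LinearMap.ker (b a t₀)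
  have hW : ∀ τ, τ ∈ W ↔ ∀ a, b a t₀ τ = 0 := by
    intro τ
    simp only [W, Submodule.mem_iInf, LinearMap.mem_ker]
  obtain ⟨T, hWT⟩ := W.exists_isCompl
  let prW : V →ₗ[k] W := W.projectionOnto T hWT
  let prT : V →ₗ[k] T := T.projectionOnto W hWT.symm
  have hprT0 : ∀ x, prT x = 0 ↔ x ∈ W := fun x =>
    Submodule.projectionOnto_apply_eq_zero_iff hWT.symm
  have hprW0 : ∀ x, prW x = 0 ↔ x ∈ T := fun x => Submodule.projectionOnto_apply_eq_zero_iff hWT
  have hprTT : ∀ x : T, prT x = x := fun x => Submodule.projectionOnto_apply_left hWT.symm x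
  let x : V →ₗ[k] V := T.subtype ∘ₗ prT
  have hx : ∀ t, x t = (prT t : V) := fun t => rfl
  let π : V →ₗ[k] V := LinearMap.id - (1 / 2 : k) • x
  have hπ : ∀ t, π t = t - (1 / 2 : k) • x t := fun t => rfl
  have ht₀W : t₀ ∈ W := (hW t₀).2 h1
  have hx₀ : x t₀ = 0 := by rw [hx, (hprT0 t₀).2 ht₀W]; rfl
  have hπ₀ : π t₀ = t₀ := by rw [hπ, hx₀, smul_zero, sub_zero]
  let m : V → (I ⊕ Dual k W) → Dual k V := fun t => Sum.elim (fun a => b a (π t))
    (fun q => q ∘ₗ prW)
  have hker : ∀ y, (∀ j, m t₀ j y = 0) → y = 0 := by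
    intro y hy
    have hy1 : y ∈ W := by
      rw [hW]
      intro a
      have := hy (Sum.inl a)
      simp only [m, Sum.elim_inl, hπ₀] at this
      exact this
    have hy2 : prW y = 0 := by
      apply (forall_dual_apply_eq_zero_iff k _).1
      intro q
      exact hy (Sum.inr q)
    have hy3 : y ∈ T := (hprW0 y).1 hy2
    exact (Submodule.disjoint_def.1 hWT.disjoint) y hy1 hy3
  obtain ⟨j, hj⟩ := exists_sel e (m t₀) hker
  let A : V → Matrix (Fin r) (Fin r) k := fun t => Matrix.of fun i l => m t (j i) (e l)
  refine ⟨fun t => (A t).det, ?_, hj, ?_⟩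
  · apply det_mem
    intro i l
    rcases hji : j i with a | q
    · refine ⟨fun o => o.elim 0 (fun l' => b a (π (e l')) (e l)), fun t => ?_⟩
      rw [Fintype.sum_option]
      simp only [A, m, Matrix.of_apply, hji, Sum.elim_inl, Option.elim, X, zero_mul, zero_add]
      conv_lhs => rw [← e.sum_repr t]
      rw [map_sum, map_sum, LinearMap.sum_apply]
      refine sum_congr rfl (fun l' _ => ?_)
      rw [map_smul, map_smul, LinearMap.smul_apply, smul_eq_mul, mul_comm]
    · refine ⟨fun o => o.elim (q (prW (e l))) (fun _ => 0), fun t => ?_⟩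
      rw [Fintype.sum_option]
      simp only [A, m, Matrix.of_apply, hji, Sum.elim_inr, Option.elim, X, zero_mul, mul_one,
        sum_const_zero, add_zero]
      rfl
  · intro t ht hne
    have htW : t ∉ W := by
      rw [hW]
      push Not
      exact hne
    have hxt : x t ≠ 0 := by
      intro h0
      apply htW
      rw [← hprT0]
      exact Subtype.ext h0
    -- the component in `W`
    have hw : t - x t ∈ W := by
      rw [← hprT0, map_sub, hx, hprTT, sub_self]
    have hb : ∀ a, b a (π t) (x t) = 0 := by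
      intro a
      have h3 := hT (t - x t) ((hW _).1 hw) a
      have h4 := ht a
      have e1 : b a (t - x t) (t - x t) = b a t t - b a t (x t) - b a (x t) t + b a (x t) (x t) := by
        simp only [map_sub, LinearMap.sub_apply]
        ring
      rw [e1, h4, hsymm a (x t) t] at h3
      have e2 : b a (π t) (x t) = b a t (x t) - (1 / 2) * b a (x t) (x t) := by
        rw [hπ, map_sub, map_smul, LinearMap.sub_apply, LinearMap.smul_apply, smul_eq_mul]
      rw [e2]
      have h5 : (2 : k) * (b a t (x t) - (1 / 2) * b a (x t) (x t)) = 0 := by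
        have : (2 : k) * (1 / 2) = 1 := by rw [mul_one_div_cancel h2]
        linear_combination (-1 : k) * h3 - b a (x t) (x t) * this
      exact (mul_eq_zero.1 h5).resolve_left h2
    have hm : ∀ j, m t j (x t) = 0 := by
      intro j
      rcases j with a | q
      · exact hb a
      · have : prW (x t) = 0 := (hprW0 _).2 (prT t).2
        simp only [m, Sum.elim_inr, LinearMap.comp_apply, this, map_zero]
    apply Matrix.exists_mulVec_eq_zero_iff.1
    refine ⟨fun l => e.repr (x t) l, ?_, ?_⟩
    · intro h0
      apply hxt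
      rw [← e.sum_repr (x t)]
      refine sum_eq_zero (fun l _ => ?_)
      rw [congrFun h0 l, Pi.zero_apply, zero_smul]
    · funext i
      simp only [Matrix.mulVec, dotProduct, Pi.zero_apply]
      rw [← hm (j i)]
      conv_rhs => rw [← e.sum_repr (x t)]
      rw [map_sum]
      refine sum_congr rfl (fun l _ => ?_)
      rw [map_smul, smul_eq_mul, mul_comm]
      rfl

/-- **The counting lemma.** -/
theorem count {I : Type*} (b : I → V →ₗ[k] V →ₗ[k] k)
    (hsymm : ∀ a x y, b a x y = b a y x) (h2 : (2 : k) ≠ 0) (S : Finset V)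
    (h1 : ∀ t ∈ S, ∀ a, b a t t = 0)
    (hT : ∀ t ∈ S, ∀ τ, (∀ a, b a t τ = 0) → ∀ a, b a τ τ = 0)
    (hne : ∀ t ∈ S, ∀ t' ∈ S, t ≠ t' → ∃ a, b a t t' ≠ 0) :
    S.card ≤ (2 * finrank k V).choose (finrank k V) := by
  classical
  let e : Basis (Fin (finrank k V)) k V := finBasis k V
  have hP : ∀ t : S, ∃ P ∈ PP e, P t ≠ 0 ∧
      ∀ t' : V, (∀ a, b a t' t' = 0) → (∃ a, b a (t : V) t' ≠ 0) → P t' = 0 := fun t =>
    exists_poly e b hsymm h2 t (h1 t t.2) (hT t t.2)
  choose P hP1 hP2 hP3 using hP
  let Q : S → PP e := fun t => ⟨P t, hP1 t⟩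
  have hli : LinearIndependent k Q := by
    rw [Fintype.linearIndependent_iff]
    intro c hc t
    have h3 : (∑ s, c s • Q s : PP e).1 (t : V) = 0 := by rw [hc]; rfl
    have h4 : (∑ s, c s • Q s : PP e).1 (t : V) = ∑ s, c s * P s t := by
      rw [Submodule.coe_sum, Finset.sum_apply]
      rfl
    rw [h4, sum_eq_single t] at h3
    · exact (mul_eq_zero.1 h3).resolve_right (hP2 t)
    · intro s _ hst
      rw [hP3 s t (h1 t t.2) (hne s s.2 t t.2 (fun h => hst (Subtype.ext h))), mul_zero]
    · intro h
      exact absurd (mem_univ t) h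
  have h5 := hli.fintype_card_le_finrank
  rw [Fintype.card_coe] at h5
  exact h5.trans (finrank_PP e)

end main

end Pool.Agent.TH813.Count
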