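import Mathlib
import Pool.Agent.TH813.Ros
import Pool.Agent.TH813.Count

/-!
# The tangent space at a point where Schanuel's inequality fails, `n` exponentials
-/

set_option autoImplicit false

namespace Pool.Agent.TH813.Core

open Pool.Agent.W252 Pool.Agent.W669.Gel Finset

variable {n : ℕ}

/-- the derivatives of `z` and the logarithmic derivatives of `e^z` -/
noncomputable def cc (D : Derivation ℚ ℂ ℂ) (z : Fin n → ℂ) : Fin n ⊕ Fin n → ℂ :=
  Sum.elim (fun i => D (z i)) (fun i => dlog D (z i))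

theorem cc_inl (D : Derivation ℚ ℂ ℂ) (z : Fin n → ℂ) (i : Fin n) :
    cc D z (Sum.inl i) = D (z i) := rfl

theorem cc_inr (D : Derivation ℚ ℂ ℂ) (z : Fin n → ℂ) (i : Fin n) :
    cc D z (Sum.inr i) = dlog D (z i) := rfl

theorem cc_eq_zero {D : Derivation ℚ ℂ ℂ} {z : Fin n → ℂ} :
    cc D z = 0 ↔ (∀ i, D (z i) = 0) ∧ ∀ i, dlog D (z i) = 0 := by
  constructor
  · intro h
    exact ⟨fun i => congrFun h (Sum.inl i), fun i => congrFun h (Sum.inr i)⟩
  · rintro ⟨h1, h2⟩
    funext k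
    rcases k with i | i
    · exact h1 i
    · exact h2 i

theorem dlog_eq_zero {D : Derivation ℚ ℂ ℂ} {y : ℂ} :
    dlog D y = 0 ↔ D (Complex.exp y) = 0 := by
  unfold dlog
  rw [div_eq_zero_iff]
  exact or_iff_left (Complex.exp_ne_zero y)

theorem dlog_add_der (D D' : Derivation ℚ ℂ ℂ) (y : ℂ) :
    dlog (D + D') y = dlog D y + dlog D' y := by
  unfold dlog
  rw [Derivation.add_apply, add_div]

theorem dlog_smul_der (c : ℂ) (D : Derivation ℚ ℂ ℂ) (y : ℂ) :
    dlog (c • D) y = c * dlog D y := by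
  unfold dlog
  rw [Derivation.smul_apply, smul_eq_mul, mul_div_assoc]

theorem cc_add_der (D D' : Derivation ℚ ℂ ℂ) (z : Fin n → ℂ) : cc (D + D') z = cc D z + cc D' z := by
  funext k
  rcases k with i | i
  · rfl
  · exact dlog_add_der D D' (z i)

theorem cc_smul_der (c : ℂ) (D : Derivation ℚ ℂ ℂ) (z : Fin n → ℂ) : cc (c • D) z = c • cc D z := by
  funext k
  rcases k with i | i
  · rfl
  · exact dlog_smul_der c D (z i)

theorem der_sum {ι : Type*} (s : Finset ι) (c : ι → ℂ) (Dd : ι → Derivation ℚ ℂ ℂ) (y : ℂ) :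
    (∑ a ∈ s, c a • Dd a : Derivation ℚ ℂ ℂ) y = ∑ a ∈ s, c a * Dd a y := by
  classical
  induction s using Finset.induction_on with
  | empty => simp
  | insert a s ha ih =>
    rw [sum_insert ha, sum_insert ha, Derivation.add_apply, ih, Derivation.smul_apply, smul_eq_mul]

theorem dlog_sum {ι : Type*} (s : Finset ι) (c : ι → ℂ) (Dd : ι → Derivation ℚ ℂ ℂ) (y : ℂ) :
    dlog (∑ a ∈ s, c a • Dd a : Derivation ℚ ℂ ℂ) y = ∑ a ∈ s, c a * dlog (Dd a) y := by
  unfold dlog
  rw [der_sum, sum_div]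
  exact sum_congr rfl (fun a _ => mul_div_assoc _ _ _)

/-- the evaluation of derivations -/
noncomputable def ev (z : Fin n → ℂ) : Derivation ℚ ℂ ℂ →ₗ[ℂ] (Fin n ⊕ Fin n → ℂ) where
  toFun := fun D => cc D z
  map_add' := fun D D' => cc_add_der D D' z
  map_smul' := fun c D => cc_smul_der c D z

theorem ev_apply (z : Fin n → ℂ) (D : Derivation ℚ ℂ ℂ) : ev z D = cc D z := rfl

/-- the field of the numbers killed by the derivations which kill `z` and `e^z` -/
noncomputable def Kz (z : Fin n → ℂ) : IntermediateField ℚ ℂ where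
  carrier := {w | ∀ D : Derivation ℚ ℂ ℂ, cc D z = 0 → D w = 0}
  mul_mem' := by
    intro a b ha hb D hD
    rw [Derivation.leibniz, ha D hD, hb D hD, smul_zero, smul_zero, add_zero]
  add_mem' := by
    intro a b ha hb D hD
    rw [map_add, ha D hD, hb D hD, add_zero]
  algebraMap_mem' := fun r D _ => D.map_algebraMap r
  inv_mem' := by
    intro a ha D hD
    rw [Derivation.leibniz_inv, ha D hD, smul_zero]

theorem kills_iff {z : Fin n → ℂ} {D : Derivation ℚ ℂ ℂ} :
    (∀ w ∈ Kz z, D w = 0) ↔ cc D z = 0 := by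
  constructor
  · intro h
    rw [cc_eq_zero]
    refine ⟨fun i => h _ (fun D' hD' => (cc_eq_zero.1 hD').1 i), fun i => ?_⟩
    rw [dlog_eq_zero]
    exact h _ (fun D' hD' => dlog_eq_zero.1 ((cc_eq_zero.1 hD').2 i))
  · intro h w hw
    exact hw D h

/-- a basis of the logarithmic derivatives -/
theorem exists_basis (z : Fin n → ℂ) : ∃ (d : ℕ) (J : Fin d → Fin n)
    (Dd : Fin d → Derivation ℚ ℂ ℂ), (∀ a b, dlog (Dd a) (z (J b)) = if a = b then 1 else 0) ∧
      ∀ D : Derivation ℚ ℂ ℂ, (∀ b, dlog D (z (J b)) = 0) → ∀ i, dlog D (z i) = 0 := by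
  classical
  let L : Derivation ℚ ℂ ℂ →ₗ[ℂ] (Fin n → ℂ) :=
    { toFun := fun D i => dlog D (z i)
      map_add' := fun D D' => by funext i; exact dlog_add_der D D' (z i)
      map_smul' := fun c D => by funext i; exact dlog_smul_der c D (z i) }
  let R := LinearMap.range L
  let e := Module.finBasis ℂ R
  let m : Fin n → Module.Dual ℂ R := fun i => (LinearMap.proj i).comp R.subtype
  obtain ⟨J, hJ⟩ := Pool.Agent.TH813.Count.exists_sel e m (by
    intro x hx
    apply Subtype.ext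
    funext i
    exact hx i)
  let A : Matrix (Fin (Module.finrank ℂ R)) (Fin (Module.finrank ℂ R)) ℂ :=
    Matrix.of fun i l => m (J i) (e l)
  have hdet : IsUnit A.det := isUnit_iff_ne_zero.2 hJ
  have hch : ∀ l, ∃ D : Derivation ℚ ℂ ℂ, L D = (e l : Fin n → ℂ) := fun l => (e l).2
  choose De hDe using hch
  have hinv := Matrix.mul_nonsing_inv A hdet
  refine ⟨Module.finrank ℂ R, J, fun a => ∑ l, A⁻¹ l a • De l, fun a b => ?_, fun D hD i => ?_⟩
  · have h1 : L (∑ l, A⁻¹ l a • De l) (J b) = (A * A⁻¹) b a := by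
      rw [map_sum, Finset.sum_apply, Matrix.mul_apply]
      refine sum_congr rfl (fun l _ => ?_)
      rw [map_smul, hDe, Pi.smul_apply, smul_eq_mul, mul_comm]
      rfl
    rw [hinv, Matrix.one_apply] at h1
    have h2 : L (∑ l, A⁻¹ l a • De l) (J b) = dlog (∑ l, A⁻¹ l a • De l) (z (J b)) := rfl
    rw [← h2, h1]
    simp only [eq_comm]
  · have h1 : (⟨L D, ⟨D, rfl⟩⟩ : R) = 0 := by
      have h2 : A.mulVec (fun l => e.repr ⟨L D, ⟨D, rfl⟩⟩ l) = 0 := by
        funext b
        have h3 : m (J b) (⟨L D, ⟨D, rfl⟩⟩ : R) = 0 := hD b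
        conv at h3 => rw [← e.sum_repr (⟨L D, ⟨D, rfl⟩⟩ : R)]
        rw [map_sum] at h3
        rw [Pi.zero_apply, ← h3]
        simp only [Matrix.mulVec, dotProduct]
        refine sum_congr rfl (fun l _ => ?_)
        rw [map_smul, smul_eq_mul, mul_comm]
        rfl
      have h4 : (fun l => e.repr (⟨L D, ⟨D, rfl⟩⟩ : R) l) = 0 := by
        by_contra hne
        exact hJ (Matrix.exists_mulVec_eq_zero_iff.1 ⟨_, hne, h2⟩)
      rw [← e.sum_repr (⟨L D, ⟨D, rfl⟩⟩ : R)]
      refine sum_eq_zero (fun l _ => ?_)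
      rw [congrFun h4 l, Pi.zero_apply, zero_smul]
    have h5 := congrArg (fun x : R => (x : Fin n → ℂ) i) h1
    exact h5

/-- **The tangent space.** -/
theorem core {z v : Fin n → ℂ}
    (hA : ∀ D : Derivation ℚ ℂ ℂ, (∀ i, dlog D (z i) = 0) → ∀ i, D (z i) = 0)
    (hB : ∀ (D : Derivation ℚ ℂ ℂ) (q : Fin n → ℚ), (∀ i, D (z i) = 0) →
      (∀ i, dlog D (z i) = q i) → q = 0)
    (hT : ∀ D : Derivation ℚ ℂ ℂ, cc D z = 0 → ∃ D', cc D v = cc D' z) :
    ∀ D : Derivation ℚ ℂ ℂ, cc D z = 0 → cc D v = 0 := by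
  classical
  obtain ⟨d, J, Dd, h1, h2⟩ := exists_basis z
  -- the coefficients are in the field
  have hbr : ∀ a, ∀ D : Derivation ℚ ℂ ℂ, cc D z = 0 →
      (∀ i, D (Dd a (z i)) = 0) ∧ ∀ i, D (dlog (Dd a) (z i)) = 0 := by
    intro a D hD
    obtain ⟨hD1, hD2⟩ := cc_eq_zero.1 hD
    have e1 : ∀ i, dlog ⁅D, Dd a⁆ (z i) = D (dlog (Dd a) (z i)) := by
      intro i
      have h3 := dlog_eq_zero.1 (hD2 i)
      unfold dlog
      rw [Derivation.commutator_apply, h3, map_zero, sub_zero, div_eq_mul_inv, div_eq_mul_inv,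
        Derivation.leibniz, Derivation.leibniz_inv, h3, smul_zero, smul_zero, zero_add,
        smul_eq_mul, mul_comm]
    have e2 : ∀ b, dlog ⁅D, Dd a⁆ (z (J b)) = 0 := by
      intro b
      rw [e1, h1]
      split_ifs
      · exact D.map_one_eq_zero
      · exact map_zero D
    have e3 := h2 _ e2
    refine ⟨fun i => ?_, fun i => by rw [← e1]; exact e3 i⟩
    have e4 := hA _ e3 i
    rwa [Derivation.commutator_apply, hD1, map_zero, sub_zero] at e4
  have hk1 : ∀ a i, Dd a (z i) ∈ Kz z := fun a i D hD => (hbr a D hD).1 i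
  have hk2 : ∀ a i, dlog (Dd a) (z i) ∈ Kz z := fun a i D hD => (hbr a D hD).2 i
  -- the linear relations
  have hrel : ∀ D : Derivation ℚ ℂ ℂ, cc D z = 0 →
      (∀ i, D (v i) = ∑ a, Dd a (z i) * dlog D (v (J a))) ∧
      ∀ i, dlog D (v i) = ∑ a, dlog (Dd a) (z i) * dlog D (v (J a)) := by
    intro D hD
    obtain ⟨D', hD'⟩ := hT D hD
    have g1 : ∀ i, D (v i) = D' (z i) := fun i => congrFun hD' (Sum.inl i)
    have g2 : ∀ i, dlog D (v i) = dlog D' (z i) := fun i => congrFun hD' (Sum.inr i)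
    let D2 : Derivation ℚ ℂ ℂ := ∑ a, dlog D (v (J a)) • Dd a
    have hD2 : ∀ y, D2 y = ∑ a, dlog D (v (J a)) * Dd a y := fun y => der_sum _ _ _ y
    have hD2l : ∀ y, dlog D2 y = ∑ a, dlog D (v (J a)) * dlog (Dd a) y := fun y =>
      dlog_sum _ _ _ y
    have g3 : ∀ i, dlog (D' + (-1 : ℂ) • D2) (z i) = 0 := by
      apply h2
      intro b
      rw [dlog_add_der, dlog_smul_der, hD2l, ← g2]
      have : ∑ a, dlog D (v (J a)) * dlog (Dd a) (z (J b)) = dlog D (v (J b)) := by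
        rw [sum_eq_single b]
        · rw [h1, if_pos rfl, mul_one]
        · intro a _ hab
          rw [h1, if_neg hab, mul_zero]
        · intro h; exact absurd (mem_univ b) h
      rw [this]; ring
    have g4 := hA _ g3
    constructor
    · intro i
      have := g4 i
      rw [Derivation.add_apply, Derivation.smul_apply, hD2, smul_eq_mul] at this
      rw [g1]
      simp only [mul_comm (Dd _ (z i))]
      linear_combination this
    · intro i
      have := g3 i
      rw [dlog_add_der, dlog_smul_der, hD2l] at this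
      rw [g2]
      simp only [mul_comm (dlog (Dd _) (z i))]
      linear_combination this
  have hexp : ∀ j, Complex.exp (v (J j)) ≠ 0 := fun j => Complex.exp_ne_zero _
  -- exactness
  have hlin : ∀ i, ∀ D : Derivation ℚ ℂ ℂ, cc D z = 0 → D (v i) = 0 := by
    intro i D hD
    exact Ros.exact (Kz z) (fun a => Dd a (z i)) (fun a => Complex.exp (v (J a)))
      (fun a => hk1 a i) hexp (v i) (fun D' hD' => (hrel D' (kills_iff.1 hD')).1 i) D
      (kills_iff.2 hD)
  have hrat1 : ∀ i, ∀ ψ : ℂ →ₗ[ℚ] ℚ, ∀ D : Derivation ℚ ℂ ℂ, cc D z = 0 →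
      ∑ a, (ψ (Dd a (z i)) : ℂ) * dlog D (v (J a)) = 0 := by
    intro i ψ D hD
    exact Ros.rational (Kz z) (fun a => Dd a (z i)) (fun a => Complex.exp (v (J a)))
      (fun a => hk1 a i) hexp (fun D' hD' => by
        have h3 := (hrel D' (kills_iff.1 hD')).1 i
        rw [hlin i D' (kills_iff.1 hD')] at h3
        exact h3.symm) ψ D (kills_iff.2 hD)
  have hrat2 : ∀ i, ∀ ψ : ℂ →ₗ[ℚ] ℚ, ∀ D : Derivation ℚ ℂ ℂ, cc D z = 0 →
      (ψ 1 : ℂ) * dlog D (v i) - ∑ a, (ψ (dlog (Dd a) (z i)) : ℂ) * dlog D (v (J a)) = 0 := by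
    intro i ψ D hD
    have h3 := Ros.rational (Kz z) (Fin.cons 1 (fun a => -dlog (Dd a) (z i)) : Fin (d + 1) → ℂ)
      (Fin.cons (Complex.exp (v i)) (fun a => Complex.exp (v (J a))) : Fin (d + 1) → ℂ)
      (fun j => by
        refine Fin.cases ?_ (fun a => ?_) j
        · exact (Kz z).one_mem
        · exact (Kz z).neg_mem (hk2 a i))
      (fun j => by
        refine Fin.cases ?_ (fun a => ?_) j
        · exact Complex.exp_ne_zero _
        · exact Complex.exp_ne_zero _) (fun D' hD' => by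
        rw [Fin.sum_univ_succ]
        simp only [Fin.cons_zero, Fin.cons_succ, neg_mul, sum_neg_distrib, one_mul]
        have h4 := (hrel D' (kills_iff.1 hD')).2 i
        unfold dlog at h4 ⊢
        rw [← sub_eq_add_neg, sub_eq_zero]
        exact h4) ψ D (kills_iff.2 hD)
    rw [Fin.sum_univ_succ] at h3
    simp only [Fin.cons_zero, Fin.cons_succ, map_neg, Rat.cast_neg, neg_mul,
      sum_neg_distrib] at h3
    rw [sub_eq_add_neg]
    exact h3
  intro D hD
  rw [cc_eq_zero]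
  refine ⟨fun i => hlin i D hD, ?_⟩
  by_contra hne
  push Not at hne
  obtain ⟨i0, hi0⟩ := hne
  obtain ⟨θ, hθ⟩ : ∃ θ : Module.Dual ℚ ℂ, θ (dlog D (v i0)) ≠ 0 := by
    by_contra hcon
    push Not at hcon
    exact hi0 ((Module.forall_dual_apply_eq_zero_iff ℚ _).1 hcon)
  let q : Fin n → ℚ := fun i => θ (dlog D (v i))
  have hθmul : ∀ (r : ℚ) (w : ℂ), θ ((r : ℂ) * w) = r * θ w := by
    intro r w
    rw [← Rat.smul_def, map_smul, smul_eq_mul]
  let D3 : Derivation ℚ ℂ ℂ := ∑ a, (q (J a) : ℂ) • Dd a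
  have hD3 : ∀ y, D3 y = ∑ a, (q (J a) : ℂ) * Dd a y := fun y => der_sum _ _ _ y
  have hD3l : ∀ y, dlog D3 y = ∑ a, (q (J a) : ℂ) * dlog (Dd a) y := fun y => dlog_sum _ _ _ y
  have hq := hB D3 q (fun i => by
    apply (Module.forall_dual_apply_eq_zero_iff ℚ _).1
    intro ψ
    have h3 := congrArg θ (hrat1 i ψ D hD)
    rw [map_sum, map_zero] at h3
    rw [hD3, map_sum]
    refine Eq.trans (sum_congr rfl (fun a _ => ?_)) h3
    rw [hθmul, ← Rat.smul_def, map_smul, smul_eq_mul, mul_comm]) (fun i => by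
    rw [← sub_eq_zero]
    apply (Module.forall_dual_apply_eq_zero_iff ℚ _).1
    intro ψ
    have h3 := congrArg θ (hrat2 i ψ D hD)
    rw [map_sub, map_sum, map_zero, hθmul] at h3
    rw [hD3l, map_sub, map_sum]
    have e1 : ψ ((q i : ℂ)) = q i * ψ 1 := by
      have : (q i : ℂ) = q i • (1 : ℂ) := by rw [Rat.smul_def, mul_one]
      rw [this, map_smul, smul_eq_mul]
    have e2 : ∑ a, ψ ((q (J a) : ℂ) * dlog (Dd a) (z i)) =
        ∑ a, θ ((ψ (dlog (Dd a) (z i)) : ℂ) * dlog D (v (J a))) := by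
      refine sum_congr rfl (fun a _ => ?_)
      rw [hθmul, ← Rat.smul_def, map_smul, smul_eq_mul, mul_comm]
    rw [e1, e2]
    have e3 : ψ 1 * θ (dlog D (v i)) = q i * ψ 1 := mul_comm _ _
    linarith)
  exact hθ (congrFun hq i0)

end Pool.Agent.TH813.Core
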