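import Mathlib
import Pool.Agent.TH813.Core
import Pool.Agent.H327R2.SC.MultVec
import Pool.Agent.H327R2.SC.Conv

/-!
# The transcendence degree as a rank of derivations
-/

set_option autoImplicit false

namespace Pool.Agent.TH813.Rank

open Pool.Agent.W252 Pool.Agent.W669.Gel Pool.Agent.H327R2.SC Module Finset
open Pool.Agent.TH813.Core

/-- linear maps with the same kernel have ranges of the same dimension -/
theorem finrank_range_eq {k A B C : Type*} [Field k] [AddCommGroup A] [Module k A]
    [AddCommGroup B] [Module k B] [AddCommGroup C] [Module k C] (f : A →ₗ[k] B) (g : A →ₗ[k] C)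
    (h : LinearMap.ker f = LinearMap.ker g) :
    finrank k (LinearMap.range f) = finrank k (LinearMap.range g) := by
  rw [← f.quotKerEquivRange.finrank_eq, ← g.quotKerEquivRange.finrank_eq]
  exact (Submodule.quotEquivOfEq _ _ h).finrank_eq

theorem finrank_range_le {k A B C : Type*} [Field k] [AddCommGroup A] [Module k A]
    [AddCommGroup B] [Module k B] [AddCommGroup C] [Module k C] [FiniteDimensional k B]
    (f : A →ₗ[k] B) (g : A →ₗ[k] C)
    (h : LinearMap.ker f ≤ LinearMap.ker g) :
    finrank k (LinearMap.range g) ≤ finrank k (LinearMap.range f) := by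
  have h1 : FiniteDimensional k (A ⧸ LinearMap.ker f) :=
    LinearEquiv.finiteDimensional f.quotKerEquivRange.symm
  rw [← f.quotKerEquivRange.finrank_eq, ← g.quotKerEquivRange.finrank_eq]
  exact LinearMap.finrank_le_finrank_of_surjective (f := Submodule.factor h)
    (Submodule.factor_surjective h)

theorem ker_eq_of_finrank {k A B C : Type*} [Field k] [AddCommGroup A] [Module k A]
    [AddCommGroup B] [Module k B] [AddCommGroup C] [Module k C] [FiniteDimensional k B]
    (f : A →ₗ[k] B) (g : A →ₗ[k] C)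
    (h : LinearMap.ker f ≤ LinearMap.ker g)
    (h2 : finrank k (LinearMap.range f) = finrank k (LinearMap.range g)) :
    LinearMap.ker f = LinearMap.ker g := by
  apply le_antisymm h
  have h1 : FiniteDimensional k (A ⧸ LinearMap.ker f) :=
    LinearEquiv.finiteDimensional f.quotKerEquivRange.symm
  have h3 : FiniteDimensional k (A ⧸ LinearMap.ker g) :=
    Module.Finite.of_surjective (Submodule.factor h) (Submodule.factor_surjective h)
  have h4 : finrank k (A ⧸ LinearMap.ker f) = finrank k (A ⧸ LinearMap.ker g) := by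
    rw [f.quotKerEquivRange.finrank_eq, g.quotKerEquivRange.finrank_eq, h2]
  have h5 : Function.Injective (Submodule.factor h) :=
    (LinearMap.injective_iff_surjective_of_finrank_eq_finrank h4).2
      (Submodule.factor_surjective h)
  intro x hx
  have h6 : Submodule.factor h (Submodule.Quotient.mk x) = 0 := by
    change Submodule.factor h ((LinearMap.ker f).mkQ x) = 0
    rw [Submodule.factor_mk, Submodule.mkQ_apply, Submodule.Quotient.mk_eq_zero]
    exact hx
  have h7 := (map_eq_zero_iff _ h5).1 h6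
  rwa [Submodule.Quotient.mk_eq_zero] at h7

variable {n : ℕ}

/-- The transcendence degree over `ℚ` of `z` and `e^z`. -/
noncomputable def td (z : Fin n → ℂ) : Cardinal :=
  Algebra.trdeg ℚ (IntermediateField.adjoin ℚ (Set.range z ∪ Complex.exp '' Set.range z))

theorem toENat_td' (z : Fin n → ℂ) : Cardinal.toENat (td z) = rk (EE z) := by
  unfold td
  rw [toENat_trdeg]
  congr 1
  unfold EE
  rw [← Set.range_comp]
  rfl

theorem rank_ev (z : Fin n → ℂ) :
    ((finrank ℂ (LinearMap.range (ev z)) : ℕ) : ℕ∞) = rk (EE z) := by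
  classical
  obtain ⟨I, hI⟩ := MM.exists_isBasis (EE z) (Set.subset_univ _)
  have hIfin : I.Finite := (EE_finite z).subset hI.subset
  have : Fintype I := hIfin.fintype
  let ρ : Derivation ℚ ℂ ℂ →ₗ[ℂ] (I → ℂ) :=
    { toFun := fun D i => D i
      map_add' := fun D D' => rfl
      map_smul' := fun c D => rfl }
  have hind : AlgebraicIndependent ℚ (fun i : I => (i : ℂ)) := hI.indep
  have hsurj : Function.Surjective ρ := by
    intro v
    obtain ⟨D, hD⟩ := Pool.Agent.H135R2.VS.exists_der hind v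
    exact ⟨D, funext hD⟩
  have hker : LinearMap.ker (ev z) = LinearMap.ker ρ := by
    ext D
    rw [LinearMap.mem_ker, LinearMap.mem_ker, ev_apply, cc_eq_zero]
    constructor
    · rintro ⟨h1, h2⟩
      funext i
      rcases hI.subset i.2 with ⟨j, hj⟩ | ⟨j, hj⟩
      · change D (i : ℂ) = 0
        rw [← hj]; exact h1 j
      · change D (i : ℂ) = 0
        rw [← hj]; exact dlog_eq_zero.1 (h2 j)
    · intro h
      have h0 : ∀ i ∈ I, D i = 0 := fun i hi => congrFun h ⟨i, hi⟩
      have hcl : ∀ w ∈ EE z, D w = 0 := fun w hw =>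
        kills_cl D h0 (by rw [hI.closure_eq_closure]; exact subset_cl _ hw)
      exact ⟨fun i => hcl _ (Or.inl ⟨i, rfl⟩),
        fun i => dlog_eq_zero.2 (hcl _ (Or.inr ⟨i, rfl⟩))⟩
  rw [finrank_range_eq (ev z) ρ hker, LinearMap.range_eq_top.2 hsurj, finrank_top,
    finrank_fintype_fun_eq_card]
  have h1 : I.encard = rk (EE z) := hI.encard_eq_eRk
  rw [← h1, ← Set.coe_fintypeCard]

theorem le_td_iff (m : ℕ) (z : Fin n → ℂ) :
    (m : Cardinal) ≤ td z ↔ m ≤ finrank ℂ (LinearMap.range (ev z)) := by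
  rw [← Cardinal.natCast_le_toENat, toENat_td', ← rank_ev]
  exact Nat.cast_le

/-- `cc D` as a linear map -/
noncomputable def ccl (D : Derivation ℚ ℂ ℂ) : (Fin n → ℂ) →ₗ[ℚ] (Fin n ⊕ Fin n → ℂ) where
  toFun := fun z => cc D z
  map_add' := fun z z' => by
    funext k
    rcases k with i | i
    · exact map_add D _ _
    · exact dlog_add D _ _
  map_smul' := fun q z => by
    funext k
    rcases k with i | i
    · exact (D : ℂ →ₗ[ℚ] ℂ).map_smul q _
    · exact (dl D).map_smul q _

theorem ccl_apply (D : Derivation ℚ ℂ ℂ) (z : Fin n → ℂ) : ccl D z = cc D z := rfl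

/-- rational combinations -/
noncomputable def comb {m : ℕ} (A : Matrix (Fin m) (Fin n) ℚ) (z : Fin n → ℂ) : Fin m → ℂ :=
  fun i => ∑ j, (A i j : ℂ) * z j

theorem cc_comb {m : ℕ} (A : Matrix (Fin m) (Fin n) ℚ) (D : Derivation ℚ ℂ ℂ) (z : Fin n → ℂ) :
    (∀ i, cc D (comb A z) (Sum.inl i) = ∑ j, (A i j : ℂ) * cc D z (Sum.inl j)) ∧
      ∀ i, cc D (comb A z) (Sum.inr i) = ∑ j, (A i j : ℂ) * cc D z (Sum.inr j) := by
  constructor
  · intro i
    change D (∑ j, (A i j : ℂ) * z j) = ∑ j, (A i j : ℂ) * D (z j)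
    rw [map_sum]
    refine sum_congr rfl (fun j _ => ?_)
    rw [← Rat.smul_def, ← Rat.smul_def]
    exact (D : ℂ →ₗ[ℚ] ℂ).map_smul _ _
  · intro i
    change dl D (∑ j, (A i j : ℂ) * z j) = ∑ j, (A i j : ℂ) * dl D (z j)
    rw [map_sum]
    refine sum_congr rfl (fun j _ => ?_)
    rw [← Rat.smul_def, ← Rat.smul_def]
    exact (dl D).map_smul _ _

/-- the linear map on the coordinates which belongs to a matrix -/
noncomputable def lm {m : ℕ} (A : Matrix (Fin m) (Fin n) ℚ) :
    (Fin n ⊕ Fin n → ℂ) →ₗ[ℂ] (Fin m ⊕ Fin m → ℂ) where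
  toFun := fun w => Sum.elim (fun i => ∑ j, (A i j : ℂ) * w (Sum.inl j))
    (fun i => ∑ j, (A i j : ℂ) * w (Sum.inr j))
  map_add' := fun w w' => by
    funext k
    rcases k with i | i <;> simp [mul_add, sum_add_distrib]
  map_smul' := fun c w => by
    funext k
    rcases k with i | i <;> simp [mul_sum, mul_left_comm]

theorem lm_ev {m : ℕ} (A : Matrix (Fin m) (Fin n) ℚ) (z : Fin n → ℂ) :
    lm A ∘ₗ ev z = ev (comb A z) := by
  ext D k
  have h := cc_comb A D z
  rcases k with i | i
  · exact (h.1 i).symm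
  · exact (h.2 i).symm

/-- a rational vector gives a rank loss -/
theorem rank_loss {m : ℕ} (A : Matrix (Fin m) (Fin n) ℚ) (z : Fin n → ℂ)
    (D : Derivation ℚ ℂ ℂ) (h0 : cc D z ≠ 0) (h1 : lm A (cc D z) = 0) :
    finrank ℂ (LinearMap.range (ev (comb A z))) + 1 ≤ finrank ℂ (LinearMap.range (ev z)) := by
  let f : LinearMap.range (ev z) →ₗ[ℂ] (Fin m ⊕ Fin m → ℂ) := lm A ∘ₗ (LinearMap.range (ev z)).subtype
  have h2 := f.finrank_range_add_finrank_ker
  have h3 : LinearMap.range f = LinearMap.range (ev (comb A z)) := by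
    rw [← lm_ev, LinearMap.range_comp, LinearMap.range_comp, Submodule.range_subtype]
  have h4 : 1 ≤ finrank ℂ (LinearMap.ker f) := by
    rw [Nat.one_le_iff_ne_zero]
    intro h5
    have h6 : LinearMap.ker f = ⊥ := Submodule.finrank_eq_zero.1 h5
    have h7 : (⟨cc D z, ⟨D, rfl⟩⟩ : LinearMap.range (ev z)) ∈ LinearMap.ker f := h1
    rw [h6, Submodule.mem_bot] at h7
    exact h0 (congrArg Subtype.val h7)
  rw [h3] at h2
  omega

/-- vectors orthogonal to a nonzero rational vector -/
theorem exists_ortho (q : Fin (n + 1) → ℚ) : ∃ A : Matrix (Fin n) (Fin (n + 1)) ℚ,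
    LinearIndependent ℚ (fun i => A i) ∧ ∀ i, ∑ j, A i j * q j = 0 := by
  classical
  let φ : (Fin (n + 1) → ℚ) →ₗ[ℚ] ℚ :=
    { toFun := fun x => ∑ j, x j * q j
      map_add' := fun x y => by simp [add_mul, sum_add_distrib]
      map_smul' := fun c x => by simp [mul_sum, mul_assoc] }
  have h1 := φ.finrank_range_add_finrank_ker
  rw [finrank_fintype_fun_eq_card, Fintype.card_fin] at h1
  have h2 : finrank ℚ (LinearMap.range φ) ≤ 1 := by
    have := Submodule.finrank_le (LinearMap.range φ)
    rwa [finrank_self] at this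
  have h3 : n ≤ finrank ℚ (LinearMap.ker φ) := by omega
  let b := finBasis ℚ (LinearMap.ker φ)
  refine ⟨fun i => (b (Fin.castLE h3 i) : Fin (n + 1) → ℚ), ?_, fun i => (b (Fin.castLE h3 i)).2⟩
  exact (b.linearIndependent.map' (LinearMap.ker φ).subtype
    (Submodule.ker_subtype _)).comp _ (Fin.castLE_injective h3)

end Pool.Agent.TH813.Rank
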