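import Mathlib
import Pool.Agent.TH813.Rank

/-!
# Tangent vectors at a point where Schanuel's inequality fails, without algebraicity assumptions
-/

set_option autoImplicit false

namespace Pool.Agent.TH813.Core2

open Pool.Agent.W252 Pool.Agent.W669.Gel Finset Module
open Pool.Agent.TH813.Core Pool.Agent.TH813.Rank

variable {n : ℕ}

/-- dual derivations -/
theorem exists_dual (z : Fin n → ℂ) : ∃ (d : ℕ) (κ : Fin d → Fin n ⊕ Fin n)
    (Dd : Fin d → Derivation ℚ ℂ ℂ), (∀ a b, cc (Dd a) z (κ b) = if a = b then 1 else 0) ∧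
      ∀ D : Derivation ℚ ℂ ℂ, (∀ b, cc D z (κ b) = 0) → cc D z = 0 := by
  classical
  let R := LinearMap.range (ev z)
  let e := finBasis ℂ R
  let m : (Fin n ⊕ Fin n) → Dual ℂ R := fun k => (LinearMap.proj k).comp R.subtype
  obtain ⟨J, hJ⟩ := Pool.Agent.TH813.Count.exists_sel e m (by
    intro x hx
    apply Subtype.ext
    funext k
    exact hx k)
  let A : Matrix (Fin (finrank ℂ R)) (Fin (finrank ℂ R)) ℂ :=
    Matrix.of fun i l => m (J i) (e l)
  have hdet : IsUnit A.det := isUnit_iff_ne_zero.2 hJ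
  have hch : ∀ l, ∃ D : Derivation ℚ ℂ ℂ, ev z D = (e l : Fin n ⊕ Fin n → ℂ) := fun l => (e l).2
  choose De hDe using hch
  have hinv := Matrix.mul_nonsing_inv A hdet
  refine ⟨finrank ℂ R, J, fun a => ∑ l, A⁻¹ l a • De l, fun a b => ?_, fun D hD => ?_⟩
  · have h1 : ev z (∑ l, A⁻¹ l a • De l) (J b) = (A * A⁻¹) b a := by
      rw [map_sum, Finset.sum_apply, Matrix.mul_apply]
      refine sum_congr rfl (fun l _ => ?_)
      rw [map_smul, hDe, Pi.smul_apply, smul_eq_mul, mul_comm]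
      rfl
    rw [hinv, Matrix.one_apply] at h1
    rw [← ev_apply, h1]
    simp only [eq_comm]
  · have h1 : (⟨ev z D, ⟨D, rfl⟩⟩ : R) = 0 := by
      have h2 : A.mulVec (fun l => e.repr ⟨ev z D, ⟨D, rfl⟩⟩ l) = 0 := by
        funext b
        have h3 : m (J b) (⟨ev z D, ⟨D, rfl⟩⟩ : R) = 0 := hD b
        conv at h3 => rw [← e.sum_repr (⟨ev z D, ⟨D, rfl⟩⟩ : R)]
        rw [map_sum] at h3
        rw [Pi.zero_apply, ← h3]
        simp only [Matrix.mulVec, dotProduct]
        refine sum_congr rfl (fun l _ => ?_)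
        rw [map_smul, smul_eq_mul, mul_comm]
        rfl
      have h4 : (fun l => e.repr (⟨ev z D, ⟨D, rfl⟩⟩ : R) l) = 0 := by
        by_contra hne
        exact hJ (Matrix.exists_mulVec_eq_zero_iff.1 ⟨_, hne, h2⟩)
      rw [← e.sum_repr (⟨ev z D, ⟨D, rfl⟩⟩ : R)]
      refine sum_eq_zero (fun l _ => ?_)
      rw [congrFun h4 l, Pi.zero_apply, zero_smul]
    exact congrArg Subtype.val h1

theorem dlog_bracket {D D' : Derivation ℚ ℂ ℂ} {y : ℂ} (h : dlog D y = 0) :
    dlog ⁅D, D'⁆ y = D (dlog D' y) := by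
  have h3 := dlog_eq_zero.1 h
  unfold dlog
  rw [Derivation.commutator_apply, h3, map_zero, sub_zero, div_eq_mul_inv, div_eq_mul_inv,
    Derivation.leibniz, Derivation.leibniz_inv, h3, smul_zero, smul_zero, zero_add,
    smul_eq_mul, mul_comm]

theorem cc_bracket {D D' : Derivation ℚ ℂ ℂ} {z : Fin n → ℂ} (h : cc D z = 0)
    (k : Fin n ⊕ Fin n) : cc ⁅D, D'⁆ z k = D (cc D' z k) := by
  obtain ⟨h1, h2⟩ := cc_eq_zero.1 h
  rcases k with i | i
  · change ⁅D, D'⁆ (z i) = D (D' (z i))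
    rw [Derivation.commutator_apply, h1, map_zero, sub_zero]
  · exact dlog_bracket (h2 i)

/-- the linear part of a coordinate -/
noncomputable def lin (w : Fin n → ℂ) : Fin n ⊕ Fin n → ℂ := Sum.elim w (fun _ => 0)

/-- the exponential part of a coordinate -/
noncomputable def uu (w : Fin n → ℂ) : Fin n ⊕ Fin n → ℂ :=
  Sum.elim (fun _ => 1) (fun i => Complex.exp (w i))

theorem uu_ne (w : Fin n → ℂ) (k : Fin n ⊕ Fin n) : uu w k ≠ 0 := by
  rcases k with i | i
  · exact one_ne_zero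
  · exact Complex.exp_ne_zero _

theorem cc_split (D : Derivation ℚ ℂ ℂ) (w : Fin n → ℂ) (k : Fin n ⊕ Fin n) :
    cc D w k = D (lin w k) + D (uu w k) / uu w k := by
  rcases k with i | i
  · change D (w i) = D (w i) + D 1 / 1
    rw [D.map_one_eq_zero, zero_div, add_zero]
  · change dlog D (w i) = D 0 + D (Complex.exp (w i)) / Complex.exp (w i)
    rw [map_zero, zero_add]
    rfl

/-- Rosenlicht's theorem in the form which is needed -/
theorem ros_cons {z : Fin n → ℂ} {d : ℕ} (b₀ u₀ x : ℂ) (b u : Fin d → ℂ)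
    (hb₀ : b₀ ∈ Kz z) (hu₀ : u₀ ≠ 0) (hb : ∀ a, b a ∈ Kz z) (hu : ∀ a, u a ≠ 0)
    (h : ∀ D : Derivation ℚ ℂ ℂ, cc D z = 0 →
      D x + b₀ * (D u₀ / u₀) = ∑ a, b a * (D (u a) / u a)) :
    (∀ D : Derivation ℚ ℂ ℂ, cc D z = 0 → D x = 0) ∧
      ∀ (ψ : ℂ →ₗ[ℚ] ℚ) (D : Derivation ℚ ℂ ℂ), cc D z = 0 →
        (ψ b₀ : ℂ) * (D u₀ / u₀) = ∑ a, (ψ (b a) : ℂ) * (D (u a) / u a) := by
  have hβ : ∀ j, (Fin.cons (-b₀) b : Fin (d + 1) → ℂ) j ∈ Kz z := by
    intro j
    refine Fin.cases ?_ (fun a => ?_) j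
    · exact (Kz z).neg_mem hb₀
    · exact hb a
  have hU : ∀ j, (Fin.cons u₀ u : Fin (d + 1) → ℂ) j ≠ 0 := by
    intro j
    refine Fin.cases ?_ (fun a => ?_) j
    · exact hu₀
    · exact hu a
  have hx : ∀ D : Derivation ℚ ℂ ℂ, cc D z = 0 → D x = 0 := by
    intro D hD
    refine Ros.exact (Kz z) (Fin.cons (-b₀) b : Fin (d + 1) → ℂ) (Fin.cons u₀ u) hβ hU x ?_ D
      (kills_iff.2 hD)
    intro D' hD'
    have h1 := h D' (kills_iff.1 hD')
    rw [Fin.sum_univ_succ]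
    simp only [Fin.cons_zero, Fin.cons_succ]
    linear_combination h1
  refine ⟨hx, fun ψ D hD => ?_⟩
  have h2 := Ros.rational (Kz z) (Fin.cons (-b₀) b : Fin (d + 1) → ℂ) (Fin.cons u₀ u) hβ hU (by
    intro D' hD'
    have h1 := h D' (kills_iff.1 hD')
    rw [hx D' (kills_iff.1 hD')] at h1
    rw [Fin.sum_univ_succ]
    simp only [Fin.cons_zero, Fin.cons_succ]
    linear_combination -h1) ψ D (kills_iff.2 hD)
  rw [Fin.sum_univ_succ] at h2
  simp only [Fin.cons_zero, Fin.cons_succ, map_neg, Rat.cast_neg] at h2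
  linear_combination -h2

/-- **Tangent vectors.** -/
theorem core2 {ι : Type*} {z w : Fin n → ℂ} {v w' : ι → ℂ}
    (hB : ∀ (D : Derivation ℚ ℂ ℂ) (q : Fin n → ℚ), (∀ i, D (z i) = 0) →
      (∀ i, dlog D (z i) = q i) → q = 0)
    (hv : ∀ D : Derivation ℚ ℂ ℂ, cc D z = 0 → ∀ m, dlog D (v m) = 0)
    (hT : ∀ D : Derivation ℚ ℂ ℂ, cc D z = 0 → ∃ D', cc D w = cc D' z ∧
      ∀ m, dlog D (w' m) = dlog D' (v m)) :
    ∀ D : Derivation ℚ ℂ ℂ, cc D z = 0 → (∀ i, dlog D (w i) = 0) ∧ ∀ m, dlog D (w' m) = 0 := by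
  classical
  obtain ⟨d, κ, Dd, h1, h2⟩ := exists_dual z
  -- brackets
  have hbr : ∀ a, ∀ D : Derivation ℚ ℂ ℂ, cc D z = 0 → cc ⁅D, Dd a⁆ z = 0 := by
    intro a D hD
    apply h2
    intro b
    rw [cc_bracket hD, h1]
    split_ifs
    · exact D.map_one_eq_zero
    · exact map_zero D
  have hk1 : ∀ a k, cc (Dd a) z k ∈ Kz z := by
    intro a k D hD
    rw [← cc_bracket hD, hbr a D hD]
    rfl
  have hk2 : ∀ a m, dlog (Dd a) (v m) ∈ Kz z := by
    intro a m D hD
    rw [← dlog_bracket (hv D hD m)]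
    exact hv _ (hbr a D hD) m
  -- the linear relations
  have hrel : ∀ D : Derivation ℚ ℂ ℂ, cc D z = 0 →
      (∀ k, cc D w k = ∑ a, cc (Dd a) z k * cc D w (κ a)) ∧
      ∀ m, dlog D (w' m) = ∑ a, dlog (Dd a) (v m) * cc D w (κ a) := by
    intro D hD
    obtain ⟨D', hD', hD2⟩ := hT D hD
    let D2 : Derivation ℚ ℂ ℂ := ∑ a, cc D w (κ a) • Dd a
    have hD2z : ∀ k, cc D2 z k = ∑ a, cc D w (κ a) * cc (Dd a) z k := by
      intro k
      rcases k with i | i
      · exact der_sum _ _ _ (z i)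
      · exact dlog_sum _ _ _ (z i)
    have g3 : cc (D' + (-1 : ℂ) • D2) z = 0 := by
      apply h2
      intro b
      rw [cc_add_der, cc_smul_der, Pi.add_apply, Pi.smul_apply, hD2z, ← hD', smul_eq_mul]
      have : ∑ a, cc D w (κ a) * cc (Dd a) z (κ b) = cc D w (κ b) := by
        rw [sum_eq_single b]
        · rw [h1, if_pos rfl, mul_one]
        · intro a _ hab
          rw [h1, if_neg hab, mul_zero]
        · intro h; exact absurd (mem_univ b) h
      rw [this]; ring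
    constructor
    · intro k
      have := congrFun g3 k
      rw [cc_add_der, cc_smul_der, Pi.add_apply, Pi.smul_apply, hD2z, smul_eq_mul] at this
      rw [hD']
      simp only [mul_comm (cc (Dd _) z k), Pi.zero_apply] at this ⊢
      rw [hD'] at this
      linear_combination this
    · intro m
      have h3 := hv _ g3 m
      rw [dlog_add_der, dlog_smul_der, dlog_sum] at h3
      rw [hD2]
      simp only [mul_comm (dlog (Dd _) (v m))]
      linear_combination h3
  -- the relations, split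
  have hsplit : ∀ (c : Fin d → ℂ), (∀ a, c a ∈ Kz z) → ∀ D : Derivation ℚ ℂ ℂ, cc D z = 0 →
      ∑ a, c a * cc D w (κ a) = D (∑ a, c a * lin w (κ a)) +
        ∑ a, c a * (D (uu w (κ a)) / uu w (κ a)) := by
    intro c hc D hD
    rw [map_sum, ← sum_add_distrib]
    refine sum_congr rfl (fun a _ => ?_)
    rw [cc_split, Derivation.leibniz, hc a D hD, smul_zero, add_zero, smul_eq_mul, mul_add]
  have hrat1 : ∀ i, ∀ ψ : ℂ →ₗ[ℚ] ℚ, ∀ D : Derivation ℚ ℂ ℂ, cc D z = 0 →
      ∑ a, (ψ (cc (Dd a) z (Sum.inl i)) : ℂ) * (D (uu w (κ a)) / uu w (κ a)) = 0 := by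
    intro i ψ D hD
    have h3 := (ros_cons (z := z) 0 1 (w i - ∑ a, cc (Dd a) z (Sum.inl i) * lin w (κ a))
      (fun a => cc (Dd a) z (Sum.inl i)) (fun a => uu w (κ a)) (Kz z).zero_mem one_ne_zero
      (fun a => hk1 a _) (fun a => uu_ne w _) (by
        intro D' hD'
        have h4 := (hrel D' hD').1 (Sum.inl i)
        rw [hsplit _ (fun a => hk1 a _) D' hD'] at h4
        rw [map_sub]
        have h5 : cc D' w (Sum.inl i) = D' (w i) := rfl
        rw [h5] at h4
        linear_combination h4)).2 ψ D hD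
    rw [← h3, map_zero, Rat.cast_zero, zero_mul]
  have hrat2 : ∀ i, ∀ ψ : ℂ →ₗ[ℚ] ℚ, ∀ D : Derivation ℚ ℂ ℂ, cc D z = 0 →
      (ψ 1 : ℂ) * dlog D (w i) =
        ∑ a, (ψ (cc (Dd a) z (Sum.inr i)) : ℂ) * (D (uu w (κ a)) / uu w (κ a)) := by
    intro i ψ D hD
    exact (ros_cons (z := z) 1 (Complex.exp (w i))
      (-∑ a, cc (Dd a) z (Sum.inr i) * lin w (κ a))
      (fun a => cc (Dd a) z (Sum.inr i)) (fun a => uu w (κ a)) (Kz z).one_mem
      (Complex.exp_ne_zero _)
      (fun a => hk1 a _) (fun a => uu_ne w _) (by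
        intro D' hD'
        have h4 := (hrel D' hD').1 (Sum.inr i)
        rw [hsplit _ (fun a => hk1 a _) D' hD'] at h4
        rw [map_neg]
        have h5 : cc D' w (Sum.inr i) = D' (Complex.exp (w i)) / Complex.exp (w i) := rfl
        rw [h5] at h4
        linear_combination h4)).2 ψ D hD
  have hlog : ∀ D : Derivation ℚ ℂ ℂ, cc D z = 0 → ∀ i, dlog D (w i) = 0 := by
    intro D hD
    by_contra hne
    push Not at hne
    obtain ⟨i0, hi0⟩ := hne
    obtain ⟨θ, hθ⟩ : ∃ θ : Dual ℚ ℂ, θ (dlog D (w i0)) ≠ 0 := by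
      by_contra hcon
      push Not at hcon
      exact hi0 ((forall_dual_apply_eq_zero_iff ℚ _).1 hcon)
    let q : Fin n → ℚ := fun i => θ (dlog D (w i))
    let p : Fin d → ℚ := fun a => θ (D (uu w (κ a)) / uu w (κ a))
    have hθmul : ∀ (r : ℚ) (y : ℂ), θ ((r : ℂ) * y) = r * θ y := by
      intro r y
      rw [← Rat.smul_def, map_smul, smul_eq_mul]
    let D3 : Derivation ℚ ℂ ℂ := ∑ a, (p a : ℂ) • Dd a
    have hD3 : ∀ y, D3 y = ∑ a, (p a : ℂ) * Dd a y := fun y => der_sum _ _ _ y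
    have hD3l : ∀ y, dlog D3 y = ∑ a, (p a : ℂ) * dlog (Dd a) y := fun y => dlog_sum _ _ _ y
    have hq := hB D3 q (fun i => by
      apply (forall_dual_apply_eq_zero_iff ℚ _).1
      intro ψ
      have h3 := congrArg θ (hrat1 i ψ D hD)
      rw [map_sum, map_zero] at h3
      rw [hD3, map_sum]
      refine Eq.trans (sum_congr rfl (fun a _ => ?_)) h3
      rw [hθmul, ← Rat.smul_def, map_smul, smul_eq_mul, mul_comm]
      rfl) (fun i => by
      rw [← sub_eq_zero]
      apply (forall_dual_apply_eq_zero_iff ℚ _).1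
      intro ψ
      have h3 := congrArg θ (hrat2 i ψ D hD)
      rw [map_sum, hθmul] at h3
      rw [hD3l, map_sub, map_sum]
      have e1 : ψ ((q i : ℂ)) = q i * ψ 1 := by
        have : (q i : ℂ) = q i • (1 : ℂ) := by rw [Rat.smul_def, mul_one]
        rw [this, map_smul, smul_eq_mul]
      have e2 : ∑ a, ψ ((p a : ℂ) * dlog (Dd a) (z i)) =
          ∑ a, θ ((ψ (cc (Dd a) z (Sum.inr i)) : ℂ) * (D (uu w (κ a)) / uu w (κ a))) := by
        refine sum_congr rfl (fun a _ => ?_)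
        rw [hθmul, ← Rat.smul_def, map_smul, smul_eq_mul, mul_comm]
        rfl
      rw [e1, e2]
      have e3 : ψ 1 * θ (dlog D (w i)) = q i * ψ 1 := mul_comm _ _
      linarith)
    exact hθ (congrFun hq i0)
  intro D hD
  refine ⟨hlog D hD, fun m => ?_⟩
  have huu : ∀ D' : Derivation ℚ ℂ ℂ, cc D' z = 0 → ∀ a, D' (uu w (κ a)) / uu w (κ a) = 0 := by
    intro D' hD' a
    rcases κ a with i | i
    · change D' 1 / 1 = 0
      rw [D'.map_one_eq_zero, zero_div]
    · exact hlog D' hD' i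
  have h00 : ∀ D' : Derivation ℚ ℂ ℂ, cc D' z = 0 →
      ∑ a, dlog (Dd a) (v m) * (D' (uu w (κ a)) / uu w (κ a)) = 0 := fun D' hD' =>
    sum_eq_zero (fun a _ => by rw [huu D' hD' a, mul_zero])
  have h3 := (ros_cons (z := z) (d := 0) (-1) (Complex.exp (w' m))
    (∑ a, dlog (Dd a) (v m) * lin w (κ a)) Fin.elim0 Fin.elim0
    ((Kz z).neg_mem (Kz z).one_mem) (Complex.exp_ne_zero _) (fun a => a.elim0)
    (fun a => a.elim0) (by
      intro D' hD'
      have h4 := (hrel D' hD').2 m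
      rw [hsplit _ (fun a => hk2 a _) D' hD', h00 D' hD', add_zero] at h4
      have h5 : dlog D' (w' m) = D' (Complex.exp (w' m)) / Complex.exp (w' m) := rfl
      rw [h5] at h4
      refine Eq.trans ?_ (Fintype.sum_empty _).symm
      rw [← h4]
      ring)).1 D hD
  have h4 := (hrel D hD).2 m
  rw [hsplit _ (fun a => hk2 a _) D hD, h3, h00 D hD, add_zero] at h4
  exact h4

end Pool.Agent.TH813.Core2
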