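import Mathlib
import Pool.Agent.TH813.Rel1
import Pool.Agent.TH813.EllRos2

/-!
# Tangent vectors for exponentials and elliptic functions
-/

set_option autoImplicit false

open Finset Module
open scoped PeriodPair

noncomputable section

namespace Pool.Agent.TH813.Ell

open H667R3 Pool.Agent.W245.EB
open Pool.Agent.W252 Pool.Agent.W669.Gel
open Pool.Agent.TH813.Core Pool.Agent.TH813.Rank Pool.Agent.TH813.Core2
open Pool.Agent.TH813.Rel (DF mem_DF bracket_mem)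

/-- the coordinates: two for each exponential, three for each point of the elliptic curve -/
abbrev Ix (s n : ℕ) := (Fin s ⊕ Fin s) ⊕ (Fin n ⊕ (Fin n ⊕ Fin n))

variable (L : PeriodPair) {s n : ℕ}

/-- the coordinates of a derivation at a pair of tuples -/
def cm (D : Derivation ℚ ℂ ℂ) (t : Fin s → ℂ) (p : Fin n → ℂ) : Ix s n → ℂ :=
  Sum.elim (cc D t) (Sum.elim (fun i => D (p i))
    (Sum.elim (fun i => om L D (p i)) (fun i => et L D (p i))))

variable {L}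

theorem cm_eq_zero {D : Derivation ℚ ℂ ℂ} {t : Fin s → ℂ} {p : Fin n → ℂ} :
    cm L D t p = 0 ↔ cc D t = 0 ∧ ∀ i, D (p i) = 0 ∧ om L D (p i) = 0 ∧ et L D (p i) = 0 := by
  constructor
  · intro h
    refine ⟨funext (fun k => congrFun h (Sum.inl k)), fun i => ⟨congrFun h (Sum.inr (Sum.inl i)),
      congrFun h (Sum.inr (Sum.inr (Sum.inl i))), congrFun h (Sum.inr (Sum.inr (Sum.inr i)))⟩⟩
  · rintro ⟨h1, h2⟩
    funext k
    rcases k with k | i | i | i
    · exact congrFun h1 k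
    · exact (h2 i).1
    · exact (h2 i).2.1
    · exact (h2 i).2.2

theorem om_add_der (D D' : Derivation ℚ ℂ ℂ) (z : ℂ) :
    om L (D + D') z = om L D z + om L D' z := by
  unfold om
  rw [Derivation.add_apply, add_div]

theorem om_smul_der (c : ℂ) (D : Derivation ℚ ℂ ℂ) (z : ℂ) :
    om L (c • D) z = c * om L D z := by
  unfold om
  rw [Derivation.smul_apply, smul_eq_mul, mul_div_assoc]

theorem et_add_der (D D' : Derivation ℚ ℂ ℂ) (z : ℂ) :
    et L (D + D') z = et L D z + et L D' z := by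
  unfold et
  rw [Derivation.add_apply, om_add_der]
  ring

theorem et_smul_der (c : ℂ) (D : Derivation ℚ ℂ ℂ) (z : ℂ) :
    et L (c • D) z = c * et L D z := by
  unfold et
  rw [Derivation.smul_apply, om_smul_der, smul_eq_mul]
  ring

theorem cm_add_der (D D' : Derivation ℚ ℂ ℂ) (t : Fin s → ℂ) (p : Fin n → ℂ) :
    cm L (D + D') t p = cm L D t p + cm L D' t p := by
  funext k
  rcases k with k | i | i | i
  · exact congrFun (cc_add_der D D' t) k
  · rfl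
  · exact om_add_der D D' (p i)
  · exact et_add_der D D' (p i)

theorem cm_smul_der (c : ℂ) (D : Derivation ℚ ℂ ℂ) (t : Fin s → ℂ) (p : Fin n → ℂ) :
    cm L (c • D) t p = c • cm L D t p := by
  funext k
  rcases k with k | i | i | i
  · exact congrFun (cc_smul_der c D t) k
  · rfl
  · exact om_smul_der c D (p i)
  · exact et_smul_der c D (p i)

/-- evaluation of derivations -/
def evD (L : PeriodPair) (t : Fin s → ℂ) (p : Fin n → ℂ) :
    Derivation ℚ ℂ ℂ →ₗ[ℂ] (Ix s n → ℂ) where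
  toFun D := cm L D t p
  map_add' D D' := cm_add_der D D' t p
  map_smul' c D := cm_smul_der c D t p

theorem evD_apply (t : Fin s → ℂ) (p : Fin n → ℂ) (D : Derivation ℚ ℂ ℂ) :
    evD L t p D = cm L D t p := rfl

/-- evaluation of the derivations over `F` -/
def evM (L : PeriodPair) (F : IntermediateField ℚ ℂ) (t : Fin s → ℂ) (p : Fin n → ℂ) :
    DF F →ₗ[ℂ] (Ix s n → ℂ) := evD L t p ∘ₗ (DF F).subtype

theorem evM_apply (F : IntermediateField ℚ ℂ) (t : Fin s → ℂ) (p : Fin n → ℂ) (D : DF F) :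
    evM L F t p D = cm L (D : Derivation ℚ ℂ ℂ) t p := rfl

theorem cm_sum_der {d : ℕ} (c : Fin d → ℂ) (Dd : Fin d → Derivation ℚ ℂ ℂ) (t : Fin s → ℂ)
    (p : Fin n → ℂ) (k : Ix s n) :
    cm L (∑ a, c a • Dd a) t p k = ∑ a, c a * cm L (Dd a) t p k := by
  rw [← evD_apply, map_sum, Finset.sum_apply]
  exact sum_congr rfl (fun a _ => by rw [map_smul]; rfl)

theorem om_sum_der {d : ℕ} (c : Fin d → ℂ) (Dd : Fin d → Derivation ℚ ℂ ℂ) (z : ℂ) :
    om L (∑ a, c a • Dd a) z = ∑ a, c a * om L (Dd a) z :=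
  cm_sum_der (s := 0) (n := 1) c Dd Fin.elim0 (fun _ => z) (Sum.inr (Sum.inr (Sum.inl 0)))

theorem wp_killed {D : Derivation ℚ ℂ ℂ} (h2 : D L.g₂ = 0) (h3 : D L.g₃ = 0) {z : ℂ}
    (h : om L D z = 0) (hz : z ∉ L.lattice) : D (℘[L] z) = 0 ∧ D (℘'[L] z) = 0 :=
  (om_eq_zero_iff L D h2 h3 hz).1 h

theorem om_bracket {D D' : Derivation ℚ ℂ ℂ} (h2 : D L.g₂ = 0) (h3 : D L.g₃ = 0) {z : ℂ}
    (h : om L D z = 0) : om L ⁅D, D'⁆ z = D (om L D' z) := by
  by_cases hz : z ∈ L.lattice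
  · rw [om_of_mem L _ hz, om_of_mem L _ hz, map_zero]
  · obtain ⟨h4, h5⟩ := wp_killed h2 h3 h hz
    unfold om
    rw [Derivation.commutator_apply, h4, map_zero, sub_zero, div_eq_mul_inv, div_eq_mul_inv,
      Derivation.leibniz, Derivation.leibniz_inv, h5, smul_zero, smul_zero, zero_add,
      smul_eq_mul, mul_comm]

theorem zt_killed {D : Derivation ℚ ℂ ℂ} {z : ℂ} (h : om L D z = 0) (h' : et L D z = 0) :
    D (zt L z) = 0 := by
  unfold et at h'
  rwa [h, mul_zero, add_zero] at h'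

theorem et_bracket {D D' : Derivation ℚ ℂ ℂ} (h2 : D L.g₂ = 0) (h3 : D L.g₃ = 0) {z : ℂ}
    (h : om L D z = 0) (h' : et L D z = 0) : et L ⁅D, D'⁆ z = D (et L D' z) := by
  have h4 := zt_killed h h'
  by_cases hz : z ∈ L.lattice
  · unfold et
    rw [om_of_mem L _ hz, om_of_mem L _ hz, mul_zero, add_zero, add_zero,
      Derivation.commutator_apply, h4, map_zero, sub_zero]
  · obtain ⟨h5, -⟩ := wp_killed h2 h3 h hz
    unfold et
    rw [om_bracket h2 h3 h, Derivation.commutator_apply, h4, map_zero, sub_zero, map_add,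
      Derivation.leibniz, h5, smul_zero, add_zero, smul_eq_mul]

theorem cm_bracket {D D' : Derivation ℚ ℂ ℂ} (h2 : D L.g₂ = 0) (h3 : D L.g₃ = 0)
    {t : Fin s → ℂ} {p : Fin n → ℂ} (h : cm L D t p = 0) (k : Ix s n) :
    cm L ⁅D, D'⁆ t p k = D (cm L D' t p k) := by
  obtain ⟨h4, h5⟩ := cm_eq_zero.1 h
  rcases k with k | i | i | i
  · exact cc_bracket h4 k
  · change ⁅D, D'⁆ (p i) = D (D' (p i))
    rw [Derivation.commutator_apply, (h5 i).1, map_zero, sub_zero]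
  · exact om_bracket h2 h3 (h5 i).2.1
  · exact et_bracket h2 h3 (h5 i).2.1 (h5 i).2.2

/-- the field of the numbers killed by the derivations over `F` which kill the point -/
def KM (L : PeriodPair) (F : IntermediateField ℚ ℂ) (t : Fin s → ℂ) (p : Fin n → ℂ) :
    IntermediateField ℚ ℂ where
  carrier := {w | ∀ D ∈ DF F, cm L D t p = 0 → D w = 0}
  mul_mem' := by
    intro a b ha hb D hF hD
    rw [Derivation.leibniz, ha D hF hD, hb D hF hD, smul_zero, smul_zero, add_zero]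
  add_mem' := by
    intro a b ha hb D hF hD
    rw [map_add, ha D hF hD, hb D hF hD, add_zero]
  algebraMap_mem' := fun r D _ _ => D.map_algebraMap r
  inv_mem' := by
    intro a ha D hF hD
    rw [Derivation.leibniz_inv, ha D hF hD, smul_zero]

variable {F : IntermediateField ℚ ℂ}

theorem F_le_KM (t : Fin s → ℂ) (p : Fin n → ℂ) : ∀ x ∈ F, x ∈ KM L F t p :=
  fun x hx D hD _ => hD x hx

theorem kills_iffM (h2 : L.g₂ ∈ F) (h3 : L.g₃ ∈ F) {t : Fin s → ℂ} {p : Fin n → ℂ}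
    {D : Derivation ℚ ℂ ℂ} :
    (∀ w ∈ KM L F t p, D w = 0) ↔ D ∈ DF F ∧ cm L D t p = 0 := by
  constructor
  · intro h
    refine ⟨fun x hx => h x (F_le_KM t p x hx), cm_eq_zero.2 ⟨?_, fun i => ?_⟩⟩
    · rw [cc_eq_zero]
      refine ⟨fun i => h _ (fun D' _ hD' => (cc_eq_zero.1 (cm_eq_zero.1 hD').1).1 i), fun i => ?_⟩
      rw [dlog_eq_zero]
      exact h _ (fun D' _ hD' => dlog_eq_zero.1 ((cc_eq_zero.1 (cm_eq_zero.1 hD').1).2 i))
    · have hom : om L D (p i) = 0 := by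
        by_cases hz : p i ∈ L.lattice
        · exact om_of_mem L D hz
        · have h4 : D (℘[L] (p i)) = 0 := h _ (fun D' hF' hD' =>
            (wp_killed (hF' _ h2) (hF' _ h3) ((cm_eq_zero.1 hD').2 i).2.1 hz).1)
          unfold om
          rw [h4, zero_div]
      refine ⟨h _ (fun D' _ hD' => ((cm_eq_zero.1 hD').2 i).1), hom, ?_⟩
      unfold et
      rw [hom, mul_zero, add_zero]
      exact h _ (fun D' _ hD' => zt_killed ((cm_eq_zero.1 hD').2 i).2.1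
        ((cm_eq_zero.1 hD').2 i).2.2)
  · intro h w hw
    exact hw D h.1 h.2

/-- dual derivations -/
theorem exists_dualM (t : Fin s → ℂ) (p : Fin n → ℂ) : ∃ (d : ℕ) (κ : Fin d → Ix s n)
    (Dd : Fin d → Derivation ℚ ℂ ℂ), (∀ a, Dd a ∈ DF F) ∧
      (∀ a b, cm L (Dd a) t p (κ b) = if a = b then 1 else 0) ∧
      ∀ D ∈ DF F, (∀ b, cm L D t p (κ b) = 0) → cm L D t p = 0 := by
  classical
  let R := LinearMap.range (evM L F t p)
  let e := finBasis ℂ R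
  let m : Ix s n → Dual ℂ R := fun k => (LinearMap.proj k).comp R.subtype
  obtain ⟨J, hJ⟩ := Pool.Agent.TH813.Count.exists_sel e m (by
    intro x hx
    apply Subtype.ext
    funext k
    exact hx k)
  let A : Matrix (Fin (finrank ℂ R)) (Fin (finrank ℂ R)) ℂ :=
    Matrix.of fun i l => m (J i) (e l)
  have hdet : IsUnit A.det := isUnit_iff_ne_zero.2 hJ
  have hch : ∀ l, ∃ D : DF F, evM L F t p D = (e l : Ix s n → ℂ) := fun l => (e l).2
  choose De hDe using hch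
  have hinv := Matrix.mul_nonsing_inv A hdet
  refine ⟨finrank ℂ R, J, fun a => ((∑ l, A⁻¹ l a • De l : DF F) : Derivation ℚ ℂ ℂ),
    fun a => Subtype.prop _, fun a b => ?_, fun D hDF hD => ?_⟩
  · have h1 : evM L F t p (∑ l, A⁻¹ l a • De l) (J b) = (A * A⁻¹) b a := by
      rw [map_sum, Finset.sum_apply, Matrix.mul_apply]
      refine sum_congr rfl (fun l _ => ?_)
      rw [map_smul, hDe, Pi.smul_apply, smul_eq_mul, mul_comm]
      rfl
    rw [hinv, Matrix.one_apply] at h1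
    rw [← evM_apply, h1]
    simp only [eq_comm]
  · have h1 : (⟨evM L F t p ⟨D, hDF⟩, ⟨⟨D, hDF⟩, rfl⟩⟩ : R) = 0 := by
      have h2 : A.mulVec (fun l => e.repr ⟨evM L F t p ⟨D, hDF⟩, ⟨⟨D, hDF⟩, rfl⟩⟩ l) = 0 := by
        funext b
        have h3 : m (J b) (⟨evM L F t p ⟨D, hDF⟩, ⟨⟨D, hDF⟩, rfl⟩⟩ : R) = 0 := hD b
        conv at h3 => rw [← e.sum_repr (⟨evM L F t p ⟨D, hDF⟩, ⟨⟨D, hDF⟩, rfl⟩⟩ : R)]
        rw [map_sum] at h3
        rw [Pi.zero_apply, ← h3]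
        simp only [Matrix.mulVec, dotProduct]
        refine sum_congr rfl (fun l _ => ?_)
        rw [map_smul, smul_eq_mul, mul_comm]
        rfl
      have h4 : (fun l => e.repr (⟨evM L F t p ⟨D, hDF⟩, ⟨⟨D, hDF⟩, rfl⟩⟩ : R) l) = 0 := by
        by_contra hne
        exact hJ (Matrix.exists_mulVec_eq_zero_iff.1 ⟨_, hne, h2⟩)
      rw [← e.sum_repr (⟨evM L F t p ⟨D, hDF⟩, ⟨⟨D, hDF⟩, rfl⟩⟩ : R)]
      refine sum_eq_zero (fun l _ => ?_)
      rw [congrFun h4 l, Pi.zero_apply, zero_smul]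
    exact congrArg Subtype.val h1

/-! ## The parts of a coordinate -/

/-- the exact part of a coordinate -/
def linM (L : PeriodPair) (w₁ : Fin s → ℂ) (w₂ : Fin n → ℂ) : Ix s n → ℂ :=
  Sum.elim (Sum.elim w₁ 0) (Sum.elim w₂ (Sum.elim 0 (fun i => zt L (w₂ i))))

/-- the exponential part of a coordinate -/
def uuM (w₁ : Fin s → ℂ) : Ix s n → ℂ :=
  Sum.elim (Sum.elim 1 (fun i => Complex.exp (w₁ i))) 1

theorem uuM_ne (w₁ : Fin s → ℂ) (k : Ix s n) : uuM w₁ k ≠ 0 := by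
  rcases k with (i | i) | k
  · exact one_ne_zero
  · exact Complex.exp_ne_zero _
  · exact one_ne_zero

/-- the elliptic part of a coordinate: differential of the first kind -/
def bbM : Ix s n → ℚ := Sum.elim 0 (Sum.elim 0 (Sum.elim 1 0))

/-- the elliptic part of a coordinate: differential of the second kind -/
def ccM : Ix s n → ℚ := Sum.elim 0 (Sum.elim 0 (Sum.elim 0 1))

/-- the elliptic part of a coordinate: the point -/
def vvM (w₂ : Fin n → ℂ) : Ix s n → ℂ := Sum.elim 0 (Sum.elim 0 (Sum.elim w₂ w₂))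

theorem cm_split (D : Derivation ℚ ℂ ℂ) (w₁ : Fin s → ℂ) (w₂ : Fin n → ℂ) (k : Ix s n) :
    cm L D w₁ w₂ k = D (linM L w₁ w₂ k) + D (uuM w₁ k) / uuM w₁ k +
      ((bbM k : ℂ) * om L D (vvM w₂ k) + (ccM k : ℂ) * (℘[L] (vvM w₂ k) * om L D (vvM w₂ k))) := by
  rcases k with (i | i) | i | i | i
  · change D (w₁ i) = D (w₁ i) + D 1 / 1 + (((0 : ℚ) : ℂ) * _ + ((0 : ℚ) : ℂ) * _)
    rw [D.map_one_eq_zero, Rat.cast_zero]
    ring
  · change dlog D (w₁ i) = D 0 + D (Complex.exp (w₁ i)) / Complex.exp (w₁ i) +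
      (((0 : ℚ) : ℂ) * _ + ((0 : ℚ) : ℂ) * _)
    rw [map_zero, Rat.cast_zero, zero_add, zero_mul, zero_mul, add_zero, add_zero]
    rfl
  · change D (w₂ i) = D (w₂ i) + D 1 / 1 + (((0 : ℚ) : ℂ) * _ + ((0 : ℚ) : ℂ) * _)
    rw [D.map_one_eq_zero, Rat.cast_zero]
    ring
  · change om L D (w₂ i) = D 0 + D 1 / 1 +
      (((1 : ℚ) : ℂ) * om L D (w₂ i) + ((0 : ℚ) : ℂ) * _)
    rw [D.map_one_eq_zero, map_zero, Rat.cast_zero, Rat.cast_one]
    ring
  · change et L D (w₂ i) = D (zt L (w₂ i)) + D 1 / 1 +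
      (((0 : ℚ) : ℂ) * _ + ((1 : ℚ) : ℂ) * (℘[L] (w₂ i) * om L D (w₂ i)))
    rw [D.map_one_eq_zero, Rat.cast_zero, Rat.cast_one]
    unfold et
    ring

/-- the logarithmic part of the coordinates of a derivation -/
def LG (D : Derivation ℚ ℂ ℂ) (w₁ : Fin s → ℂ) : Ix s n → ℂ :=
  Sum.elim (Sum.elim 0 (fun i => dlog D (w₁ i))) 0

/-- the elliptic part of the coordinates of a derivation, first kind -/
def OM (L : PeriodPair) (D : Derivation ℚ ℂ ℂ) (w₂ : Fin n → ℂ) : Ix s n → ℂ :=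
  Sum.elim 0 (Sum.elim 0 (Sum.elim (fun i => om L D (w₂ i)) 0))

/-- the elliptic part of the coordinates of a derivation, second kind -/
def ET (L : PeriodPair) (D : Derivation ℚ ℂ ℂ) (w₂ : Fin n → ℂ) : Ix s n → ℂ :=
  Sum.elim 0 (Sum.elim 0 (Sum.elim 0 (fun i => om L D (w₂ i))))

theorem LG_eq (D : Derivation ℚ ℂ ℂ) (w₁ : Fin s → ℂ) (k : Ix s n) :
    D (uuM w₁ k) / uuM w₁ k = LG D w₁ k := by
  rcases k with (i | i) | k
  · change D 1 / 1 = 0
    rw [D.map_one_eq_zero, zero_div]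
  · rfl
  · change D 1 / 1 = LG D w₁ (Sum.inr k)
    rw [D.map_one_eq_zero, zero_div]
    rfl

theorem OM_eq (D : Derivation ℚ ℂ ℂ) (w₂ : Fin n → ℂ) (k : Ix s n) :
    (bbM k : ℂ) * om L D (vvM w₂ k) = OM L D w₂ k := by
  rcases k with k | i | i | i
  · change ((0 : ℚ) : ℂ) * _ = 0
    rw [Rat.cast_zero, zero_mul]
  · change ((0 : ℚ) : ℂ) * _ = 0
    rw [Rat.cast_zero, zero_mul]
  · change ((1 : ℚ) : ℂ) * om L D (w₂ i) = om L D (w₂ i)
    rw [Rat.cast_one, one_mul]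
  · change ((0 : ℚ) : ℂ) * _ = 0
    rw [Rat.cast_zero, zero_mul]

theorem ET_eq (D : Derivation ℚ ℂ ℂ) (w₂ : Fin n → ℂ) (k : Ix s n) :
    (ccM k : ℂ) * om L D (vvM w₂ k) = ET L D w₂ k := by
  rcases k with k | i | i | i
  · change ((0 : ℚ) : ℂ) * _ = 0
    rw [Rat.cast_zero, zero_mul]
  · change ((0 : ℚ) : ℂ) * _ = 0
    rw [Rat.cast_zero, zero_mul]
  · change ((0 : ℚ) : ℂ) * _ = 0
    rw [Rat.cast_zero, zero_mul]
  · change ((1 : ℚ) : ℂ) * om L D (w₂ i) = om L D (w₂ i)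
    rw [Rat.cast_one, one_mul]

theorem psi_rat (ψ : ℂ →ₗ[ℚ] ℚ) (q : ℚ) (c : ℂ) : ψ ((q : ℂ) * c) = q * ψ c := by
  rw [← Rat.smul_def, map_smul, smul_eq_mul]

/-- Rosenlicht's theorem for a linear relation with constant coefficients -/
theorem ros_rel (hcm : NoCM L) (h2 : L.g₂ ∈ F) (h3 : L.g₃ ∈ F) {t : Fin s → ℂ} {p : Fin n → ℂ}
    {w₁ : Fin s → ℂ} {w₂ : Fin n → ℂ} {d : ℕ} {κ : Fin d → Ix s n} (c : Fin d → ℂ)
    (hc : ∀ a, c a ∈ KM L F t p) (x₀ u₀ v₀ : ℂ) (hu₀ : u₀ ≠ 0) (b₀ c₀ : ℚ)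
    (h : ∀ D ∈ DF F, cm L D t p = 0 → D x₀ + D u₀ / u₀ +
      ((b₀ : ℂ) * om L D v₀ + (c₀ : ℂ) * (℘[L] v₀ * om L D v₀)) =
        ∑ a, c a * cm L D w₁ w₂ (κ a)) (ψ : ℂ →ₗ[ℚ] ℚ) :
    ∀ D ∈ DF F, cm L D t p = 0 →
      (ψ 1 : ℂ) * (D u₀ / u₀) = ∑ a, (ψ (c a) : ℂ) * LG D w₁ (κ a) ∧
      (ψ 1 : ℂ) * ((b₀ : ℂ) * om L D v₀) = ∑ a, (ψ (c a) : ℂ) * OM L D w₂ (κ a) ∧
      (ψ 1 : ℂ) * ((c₀ : ℂ) * om L D v₀) = ∑ a, (ψ (c a) : ℂ) * ET L D w₂ (κ a) := by
  set K := KM L F t p with hK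
  have hkill : ∀ D : Derivation ℚ ℂ ℂ, (∀ w ∈ K, D w = 0) ↔ D ∈ DF F ∧ cm L D t p = 0 :=
    fun D => kills_iffM h2 h3
  have hq : ∀ q : ℚ, (q : ℂ) ∈ K := fun q => by
    have := K.algebraMap_mem q
    simpa using this
  have key := ros (L := L) hcm K (F_le_KM t p _ h2) (F_le_KM t p _ h3)
    (Fin.cons 1 (fun a => -c a) : Fin (d + 1) → ℂ)
    (Fin.cons u₀ (fun a => uuM w₁ (κ a)) : Fin (d + 1) → ℂ)
    (by
      intro j
      refine Fin.cases ?_ (fun a => ?_) j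
      · exact K.one_mem
      · exact K.neg_mem (hc a))
    (by
      intro j
      refine Fin.cases ?_ (fun a => ?_) j
      · exact hu₀
      · exact uuM_ne w₁ _)
    (Fin.cons (b₀ : ℂ) (fun a => (bbM (κ a) : ℂ) * -c a) : Fin (d + 1) → ℂ)
    (Fin.cons (c₀ : ℂ) (fun a => (ccM (κ a) : ℂ) * -c a) : Fin (d + 1) → ℂ)
    (Fin.cons v₀ (fun a => vvM w₂ (κ a)) : Fin (d + 1) → ℂ)
    (by
      intro j
      refine Fin.cases ?_ (fun a => ?_) j
      · exact hq _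
      · exact K.mul_mem (hq _) (K.neg_mem (hc a)))
    (by
      intro j
      refine Fin.cases ?_ (fun a => ?_) j
      · exact hq _
      · exact K.mul_mem (hq _) (K.neg_mem (hc a)))
    (∑ a, c a * linM L w₁ w₂ (κ a) - x₀)
    (by
      intro D hD
      obtain ⟨hF, hD'⟩ := (hkill D).1 hD
      have h4 := h D hF hD'
      have h5 : ∀ a, c a * cm L D w₁ w₂ (κ a) = D (c a * linM L w₁ w₂ (κ a)) +
          (c a * (D (uuM w₁ (κ a)) / uuM w₁ (κ a)) +
            (c a * (bbM (κ a) : ℂ) * om L D (vvM w₂ (κ a)) +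
              c a * (ccM (κ a) : ℂ) * (℘[L] (vvM w₂ (κ a)) * om L D (vvM w₂ (κ a))))) := by
        intro a
        rw [cm_split, Derivation.leibniz, hD _ (hc a), smul_zero, add_zero, smul_eq_mul]
        ring
      rw [sum_congr rfl (fun a _ => h5 a), sum_add_distrib, sum_add_distrib, sum_add_distrib] at h4
      rw [Fin.sum_univ_succ, Fin.sum_univ_succ, map_sub, map_sum]
      simp only [Fin.cons_zero, Fin.cons_succ]
      rw [sum_add_distrib]
      have e1 : ∑ a, -c a * (D (uuM w₁ (κ a)) / uuM w₁ (κ a)) =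
          -∑ a, c a * (D (uuM w₁ (κ a)) / uuM w₁ (κ a)) := by
        rw [← sum_neg_distrib]
        exact sum_congr rfl (fun a _ => by ring)
      have e2 : ∑ a, (bbM (κ a) : ℂ) * -c a * om L D (vvM w₂ (κ a)) =
          -∑ a, c a * (bbM (κ a) : ℂ) * om L D (vvM w₂ (κ a)) := by
        rw [← sum_neg_distrib]
        exact sum_congr rfl (fun a _ => by ring)
      have e3 : ∑ a, (ccM (κ a) : ℂ) * -c a * (℘[L] (vvM w₂ (κ a)) * om L D (vvM w₂ (κ a))) =
          -∑ a, c a * (ccM (κ a) : ℂ) * (℘[L] (vvM w₂ (κ a)) * om L D (vvM w₂ (κ a))) := by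
        rw [← sum_neg_distrib]
        exact sum_congr rfl (fun a _ => by ring)
      rw [e1, e2, e3]
      linear_combination -h4)
    ψ
  intro D hF hD
  obtain ⟨k1, k2, k3⟩ := key D ((hkill D).2 ⟨hF, hD⟩)
  rw [Fin.sum_univ_succ] at k1 k2 k3
  simp only [Fin.cons_zero, Fin.cons_succ] at k1 k2 k3
  have hq1 : ∀ q : ℚ, ψ (q : ℂ) = q * ψ 1 := fun q => by
    have := psi_rat ψ q 1
    rwa [mul_one] at this
  have hneg : ∀ c : ℂ, ψ (-c) = -ψ c := fun c => map_neg ψ c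
  refine ⟨?_, ?_, ?_⟩
  · have e1 : ∑ a, (ψ (-c a) : ℂ) * (D (uuM w₁ (κ a)) / uuM w₁ (κ a)) =
        -∑ a, (ψ (c a) : ℂ) * LG D w₁ (κ a) := by
      rw [← sum_neg_distrib]
      refine sum_congr rfl (fun a _ => ?_)
      rw [hneg, Rat.cast_neg, LG_eq]
      ring
    rw [e1] at k1
    linear_combination k1
  · have e1 : ∑ a, (ψ ((bbM (κ a) : ℂ) * -c a) : ℂ) * om L D (vvM w₂ (κ a)) =
        -∑ a, (ψ (c a) : ℂ) * OM L D w₂ (κ a) := by
      rw [← sum_neg_distrib]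
      refine sum_congr rfl (fun a _ => ?_)
      rw [psi_rat, hneg, ← OM_eq]
      push_cast
      ring
    rw [e1, hq1] at k2
    push_cast at k2
    linear_combination k2
  · have e1 : ∑ a, (ψ ((ccM (κ a) : ℂ) * -c a) : ℂ) * om L D (vvM w₂ (κ a)) =
        -∑ a, (ψ (c a) : ℂ) * ET L D w₂ (κ a) := by
      rw [← sum_neg_distrib]
      refine sum_congr rfl (fun a _ => ?_)
      rw [psi_rat, hneg, ← ET_eq]
      push_cast
      ring
    rw [e1, hq1] at k3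
    push_cast at k3
    linear_combination k3

/-- the vector with only logarithmic coordinates -/
def LGv (q : Fin s → ℂ) : Ix s n → ℂ := Sum.elim (Sum.elim 0 q) 0

/-- the vector with only elliptic coordinates of the first kind -/
def OMv (q : Fin n → ℂ) : Ix s n → ℂ := Sum.elim 0 (Sum.elim 0 (Sum.elim q 0))

/-- the vector with only elliptic coordinates of the second kind -/
def ETv (q : Fin n → ℂ) : Ix s n → ℂ := Sum.elim 0 (Sum.elim 0 (Sum.elim 0 q))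

/-- **Tangent vectors.** -/
theorem coreM (hcm : NoCM L) (h2 : L.g₂ ∈ F) (h3 : L.g₃ ∈ F) {ι₁ ι₂ : Type*}
    {t w₁ : Fin s → ℂ} {p w₂ : Fin n → ℂ} {v₁ w₁' : ι₁ → ℂ} {v₂ w₂' : ι₂ → ℂ}
    (hB1 : ∀ D ∈ DF F, ∀ q : Fin s → ℚ, cm L D t p = LGv (fun i => (q i : ℂ)) → q = 0)
    (hB2 : ∀ D ∈ DF F, ∀ D' ∈ DF F, ∀ q : Fin n → ℚ, cm L D t p = OMv (fun i => (q i : ℂ)) →
      cm L D' t p = ETv (fun i => (q i : ℂ)) → q = 0)
    (hv₁ : ∀ D ∈ DF F, cm L D t p = 0 → ∀ m, dlog D (v₁ m) = 0)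
    (hv₂ : ∀ D ∈ DF F, cm L D t p = 0 → ∀ m, om L D (v₂ m) = 0)
    (hT : ∀ D ∈ DF F, cm L D t p = 0 → ∃ D' ∈ DF F, cm L D w₁ w₂ = cm L D' t p ∧
      (∀ m, dlog D (w₁' m) = dlog D' (v₁ m)) ∧ ∀ m, om L D (w₂' m) = om L D' (v₂ m)) :
    ∀ D ∈ DF F, cm L D t p = 0 →
      (∀ m, dlog D (w₁' m) = 0) ∧ ∀ m, om L D (w₂' m) = 0 := by
  classical
  obtain ⟨d, κ, Dd, h0, h1, hz⟩ := exists_dualM (L := L) (F := F) t p
  have hF2 : ∀ D ∈ DF F, D L.g₂ = 0 := fun D hD => hD _ h2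
  have hF3 : ∀ D ∈ DF F, D L.g₃ = 0 := fun D hD => hD _ h3
  -- brackets
  have hbr : ∀ a, ∀ D ∈ DF F, cm L D t p = 0 → cm L ⁅D, Dd a⁆ t p = 0 := by
    intro a D hF hD
    apply hz _ (bracket_mem F hF (h0 a))
    intro b
    rw [cm_bracket (hF2 D hF) (hF3 D hF) hD, h1]
    split_ifs
    · exact D.map_one_eq_zero
    · exact map_zero D
  have hk1 : ∀ a k, cm L (Dd a) t p k ∈ KM L F t p := by
    intro a k D hF hD
    rw [← cm_bracket (hF2 D hF) (hF3 D hF) hD, hbr a D hF hD]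
    rfl
  have hk2 : ∀ a m, dlog (Dd a) (v₁ m) ∈ KM L F t p := by
    intro a m D hF hD
    rw [← dlog_bracket (hv₁ D hF hD m)]
    exact hv₁ _ (bracket_mem F hF (h0 a)) (hbr a D hF hD) m
  have hk3 : ∀ a m, om L (Dd a) (v₂ m) ∈ KM L F t p := by
    intro a m D hF hD
    rw [← om_bracket (hF2 D hF) (hF3 D hF) (hv₂ D hF hD m)]
    exact hv₂ _ (bracket_mem F hF (h0 a)) (hbr a D hF hD) m
  -- the linear relations
  have hrel : ∀ D ∈ DF F, cm L D t p = 0 →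
      (∀ k, cm L D w₁ w₂ k = ∑ a, cm L (Dd a) t p k * cm L D w₁ w₂ (κ a)) ∧
      (∀ m, dlog D (w₁' m) = ∑ a, dlog (Dd a) (v₁ m) * cm L D w₁ w₂ (κ a)) ∧
      ∀ m, om L D (w₂' m) = ∑ a, om L (Dd a) (v₂ m) * cm L D w₁ w₂ (κ a) := by
    intro D hF hD
    obtain ⟨D', hF', hD', hD2, hD3⟩ := hT D hF hD
    let D2 : Derivation ℚ ℂ ℂ := ∑ a, cm L D w₁ w₂ (κ a) • Dd a
    have hD2F : D2 ∈ DF F := (DF F).sum_mem (fun a _ => (DF F).smul_mem _ (h0 a))
    have hD2z : ∀ k, cm L D2 t p k = ∑ a, cm L D w₁ w₂ (κ a) * cm L (Dd a) t p k :=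
      fun k => cm_sum_der _ _ t p k
    have g4 : D' + (-1 : ℂ) • D2 ∈ DF F := (DF F).add_mem hF' ((DF F).smul_mem _ hD2F)
    have g3 : cm L (D' + (-1 : ℂ) • D2) t p = 0 := by
      apply hz _ g4
      intro b
      rw [cm_add_der, cm_smul_der, Pi.add_apply, Pi.smul_apply, hD2z, ← hD', smul_eq_mul]
      have : ∑ a, cm L D w₁ w₂ (κ a) * cm L (Dd a) t p (κ b) = cm L D w₁ w₂ (κ b) := by
        rw [sum_eq_single b]
        · rw [h1, if_pos rfl, mul_one]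
        · intro a _ hab
          rw [h1, if_neg hab, mul_zero]
        · intro h; exact absurd (mem_univ b) h
      rw [this]; ring
    refine ⟨fun k => ?_, fun m => ?_, fun m => ?_⟩
    · have := congrFun g3 k
      rw [cm_add_der, cm_smul_der, Pi.add_apply, Pi.smul_apply, hD2z, smul_eq_mul] at this
      rw [hD']
      simp only [mul_comm (cm L (Dd _) t p k), Pi.zero_apply] at this ⊢
      rw [hD'] at this
      linear_combination this
    · have h3 := hv₁ _ g4 g3 m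
      rw [dlog_add_der, dlog_smul_der, dlog_sum] at h3
      rw [hD2]
      simp only [mul_comm (dlog (Dd _) (v₁ m))]
      linear_combination h3
    · have h3 := hv₂ _ g4 g3 m
      rw [om_add_der, om_smul_der, om_sum_der] at h3
      rw [hD3]
      simp only [mul_comm (om L (Dd _) (v₂ m))]
      linear_combination h3
  -- Rosenlicht
  have hros : ∀ (k : Ix s n) (ψ : ℂ →ₗ[ℚ] ℚ), ∀ D ∈ DF F, cm L D t p = 0 →
      (ψ 1 : ℂ) * LG D w₁ k = ∑ a, (ψ (cm L (Dd a) t p k) : ℂ) * LG D w₁ (κ a) ∧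
      (ψ 1 : ℂ) * OM L D w₂ k = ∑ a, (ψ (cm L (Dd a) t p k) : ℂ) * OM L D w₂ (κ a) ∧
      (ψ 1 : ℂ) * ET L D w₂ k = ∑ a, (ψ (cm L (Dd a) t p k) : ℂ) * ET L D w₂ (κ a) := by
    intro k ψ D hF hD
    have := ros_rel (L := L) (F := F) hcm h2 h3 (t := t) (p := p) (w₁ := w₁) (w₂ := w₂) (κ := κ)
      (fun a => cm L (Dd a) t p k) (fun a => hk1 a k) (linM L w₁ w₂ k) (uuM w₁ k) (vvM w₂ k)
      (uuM_ne w₁ k) (bbM k) (ccM k) (by
        intro D' hF' hD'
        rw [← cm_split]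
        exact (hrel D' hF' hD').1 k) ψ D hF hD
    rwa [LG_eq, OM_eq, ET_eq] at this
  -- the vectors with rational coordinates
  have hvec : ∀ (X : Derivation ℚ ℂ ℂ → Ix s n → ℂ), (∀ (k : Ix s n) (ψ : ℂ →ₗ[ℚ] ℚ),
      ∀ D ∈ DF F, cm L D t p = 0 →
        (ψ 1 : ℂ) * X D k = ∑ a, (ψ (cm L (Dd a) t p k) : ℂ) * X D (κ a)) →
      ∀ (θ : ℂ →ₗ[ℚ] ℚ), ∀ D ∈ DF F, cm L D t p = 0 →
        ∃ D3 ∈ DF F, cm L D3 t p = fun k => (θ (X D k) : ℂ) := by
    intro X hX θ D hF hD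
    refine ⟨∑ a, (θ (X D (κ a)) : ℂ) • Dd a,
      (DF F).sum_mem (fun a _ => (DF F).smul_mem _ (h0 a)), funext (fun k => ?_)⟩
    rw [← sub_eq_zero]
    apply (forall_dual_apply_eq_zero_iff ℚ _).1
    intro ψ
    have h4 := congrArg θ (hX k ψ D hF hD)
    rw [map_sum, psi_rat] at h4
    rw [map_sub, cm_sum_der, map_sum]
    have e1 : ψ ((θ (X D k) : ℚ) : ℂ) = θ (X D k) * ψ 1 := by
      have := psi_rat ψ (θ (X D k)) 1
      rwa [mul_one] at this
    have e2 : ∑ a, ψ ((θ (X D (κ a)) : ℂ) * cm L (Dd a) t p k) =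
        ∑ a, θ ((ψ (cm L (Dd a) t p k) : ℂ) * X D (κ a)) := by
      refine sum_congr rfl (fun a _ => ?_)
      rw [psi_rat, psi_rat, mul_comm]
    rw [e1, e2, ← h4]
    ring
  -- the logarithmic derivatives
  have hlog : ∀ D ∈ DF F, cm L D t p = 0 → ∀ i, dlog D (w₁ i) = 0 := by
    intro D hF hD i
    apply (forall_dual_apply_eq_zero_iff ℚ _).1
    intro θ
    obtain ⟨D3, hD3F, hD3⟩ := hvec (fun D => LG D w₁) (fun k ψ D hF hD => (hros k ψ D hF hD).1)
      θ D hF hD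
    have := hB1 D3 hD3F (fun i => θ (dlog D (w₁ i))) (by
      rw [hD3]
      funext k
      rcases k with (j | j) | k
      · change ((θ (0 : ℂ) : ℚ) : ℂ) = 0
        rw [map_zero, Rat.cast_zero]
      · rfl
      · change ((θ (0 : ℂ) : ℚ) : ℂ) = 0
        rw [map_zero, Rat.cast_zero])
    exact congrFun this i
  have hom : ∀ D ∈ DF F, cm L D t p = 0 → ∀ i, om L D (w₂ i) = 0 := by
    intro D hF hD i
    apply (forall_dual_apply_eq_zero_iff ℚ _).1
    intro θ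
    obtain ⟨D3, hD3F, hD3⟩ := hvec (fun D => OM L D w₂)
      (fun k ψ D hF hD => (hros k ψ D hF hD).2.1) θ D hF hD
    obtain ⟨D4, hD4F, hD4⟩ := hvec (fun D => ET L D w₂)
      (fun k ψ D hF hD => (hros k ψ D hF hD).2.2) θ D hF hD
    have := hB2 D3 hD3F D4 hD4F (fun i => θ (om L D (w₂ i))) (by
      rw [hD3]
      funext k
      rcases k with k | j | j | j
      · change ((θ (0 : ℂ) : ℚ) : ℂ) = 0
        rw [map_zero, Rat.cast_zero]
      · change ((θ (0 : ℂ) : ℚ) : ℂ) = 0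
        rw [map_zero, Rat.cast_zero]
      · rfl
      · change ((θ (0 : ℂ) : ℚ) : ℂ) = 0
        rw [map_zero, Rat.cast_zero]) (by
      rw [hD4]
      funext k
      rcases k with k | j | j | j
      · change ((θ (0 : ℂ) : ℚ) : ℂ) = 0
        rw [map_zero, Rat.cast_zero]
      · change ((θ (0 : ℂ) : ℚ) : ℂ) = 0
        rw [map_zero, Rat.cast_zero]
      · change ((θ (0 : ℂ) : ℚ) : ℂ) = 0
        rw [map_zero, Rat.cast_zero]
      · rfl)
    exact congrFun this i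
  have hLG : ∀ D ∈ DF F, cm L D t p = 0 → ∀ k : Ix s n, LG D w₁ k = 0 := by
    intro D hF hD k
    rcases k with (i | i) | k
    · rfl
    · exact hlog D hF hD i
    · rfl
  have hOM : ∀ D ∈ DF F, cm L D t p = 0 → ∀ k : Ix s n, OM L D w₂ k = 0 := by
    intro D hF hD k
    rcases k with k | i | i | i
    · rfl
    · rfl
    · exact hom D hF hD i
    · rfl
  obtain ⟨ψ, hψ⟩ : ∃ ψ : ℂ →ₗ[ℚ] ℚ, ψ 1 ≠ 0 := by
    by_contra hcon
    push Not at hcon
    exact one_ne_zero ((forall_dual_apply_eq_zero_iff ℚ (1 : ℂ)).1 hcon)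
  have hψ' : (ψ 1 : ℂ) ≠ 0 := by exact_mod_cast hψ
  intro D hF hD
  refine ⟨fun m => ?_, fun m => ?_⟩
  · have h4 := (ros_rel (L := L) (F := F) hcm h2 h3 (t := t) (p := p) (w₁ := w₁) (w₂ := w₂)
      (κ := κ) (fun a => dlog (Dd a) (v₁ m)) (fun a => hk2 a m) 0 (Complex.exp (w₁' m)) 0
      (Complex.exp_ne_zero _) 0 0 (by
        intro D' hF' hD'
        rw [map_zero, Rat.cast_zero, zero_mul, zero_mul, add_zero, add_zero, zero_add]
        exact (hrel D' hF' hD').2.1 m) ψ D hF hD).1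
    rw [sum_eq_zero (fun a _ => by rw [hLG D hF hD, mul_zero])] at h4
    exact (mul_eq_zero.1 h4).resolve_left hψ'
  · have h4 := (ros_rel (L := L) (F := F) hcm h2 h3 (t := t) (p := p) (w₁ := w₁) (w₂ := w₂)
      (κ := κ) (fun a => om L (Dd a) (v₂ m)) (fun a => hk3 a m) 0 1 (w₂' m)
      one_ne_zero 1 0 (by
        intro D' hF' hD'
        rw [map_zero, D'.map_one_eq_zero, Rat.cast_zero, Rat.cast_one, zero_div, zero_mul,
          add_zero, add_zero, zero_add, one_mul]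
        exact (hrel D' hF' hD').2.2 m) ψ D hF hD).2.1
    rw [sum_eq_zero (fun a _ => by rw [hOM D hF hD, mul_zero]), Rat.cast_one, one_mul] at h4
    exact (mul_eq_zero.1 h4).resolve_left hψ'

end Pool.Agent.TH813.Ell
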