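import Mathlib
import Pool.Agent.TH813.Rel1

/-!
# The relative transcendence degree as a rank of derivations
-/

set_option autoImplicit false

namespace Pool.Agent.TH813.Rel

open Pool.Agent.W252 Pool.Agent.W669.Gel Pool.Agent.H327R2.SC Finset Module
open Pool.Agent.TH813.Core Pool.Agent.TH813.Rank Pool.Agent.TH813.Core2

section mat

variable {k : Type} [Field k] [Algebra k ℂ]

/-- The matroid of algebraic independence over `k`. -/
noncomputable abbrev MK (k : Type) [Field k] [Algebra k ℂ] : Matroid ℂ :=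
  AlgebraicIndependent.matroid k ℂ

theorem mem_cl {S : Set ℂ} {x : ℂ} :
    x ∈ (MK k).closure S ↔ IsAlgebraic (Algebra.adjoin k S) x := by
  rw [AlgebraicIndependent.matroid_closure_eq]
  rfl

theorem subset_cl (S : Set ℂ) : S ⊆ (MK k).closure S :=
  (MK k).subset_closure S (Set.subset_univ _)

theorem cl_of_base (S : Set ℂ) (x : k) : algebraMap k ℂ x ∈ (MK k).closure S :=
  mem_cl.2 ((isAlgebraic_algebraMap (A := ℂ) x).extendScalars
    (algebraMap k (Algebra.adjoin k S)).injective)

theorem cl_add {S : Set ℂ} {x y : ℂ} (hx : x ∈ (MK k).closure S) (hy : y ∈ (MK k).closure S) :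
    x + y ∈ (MK k).closure S := mem_cl.2 ((mem_cl.1 hx).add (mem_cl.1 hy))

theorem cl_mul {S : Set ℂ} {x y : ℂ} (hx : x ∈ (MK k).closure S) (hy : y ∈ (MK k).closure S) :
    x * y ∈ (MK k).closure S := mem_cl.2 ((mem_cl.1 hx).mul (mem_cl.1 hy))

theorem cl_inv {S : Set ℂ} {x : ℂ} (hx : x ∈ (MK k).closure S) :
    x⁻¹ ∈ (MK k).closure S := mem_cl.2 ((mem_cl.1 hx).inv)

theorem adjoin_subset_cl {S T : Set ℂ} (hST : S ⊆ (MK k).closure T) {x : ℂ}
    (hx : x ∈ IntermediateField.adjoin k S) : x ∈ (MK k).closure T := by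
  induction hx using IntermediateField.adjoin_induction with
  | mem x hx => exact hST hx
  | algebraMap c => exact cl_of_base _ _
  | add x y _ _ hx hy => exact cl_add hx hy
  | inv x _ hx => exact cl_inv hx
  | mul x y _ _ hx hy => exact cl_mul hx hy

theorem rk_le_of_subset_cl {S T : Set ℂ} (h : S ⊆ (MK k).closure T) :
    (MK k).eRk S ≤ (MK k).eRk T := by
  have := (MK k).eRk_mono h
  rwa [(MK k).eRk_closure_eq] at this

/-- The transcendence degree of `k(S)` is the rank of `S`. -/
theorem toENat_trdeg (S : Set ℂ) :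
    Cardinal.toENat (Algebra.trdeg k (IntermediateField.adjoin k S)) = (MK k).eRk S := by
  set E := IntermediateField.adjoin k S with hE
  have hSF : ∀ x ∈ S, x ∈ E := fun _ hx => IntermediateField.subset_adjoin k S hx
  have hF : ∀ x ∈ E, x ∈ (MK k).closure S := fun _ hx => adjoin_subset_cl (subset_cl S) hx
  obtain ⟨I, hI⟩ := (MK k).exists_isBasis S (Set.subset_univ _)
  have hIS : I ⊆ S := hI.subset
  let x : I → E := fun i => ⟨i, hSF i (hIS i.2)⟩
  have hxv : ∀ i, (x i : ℂ) = i := fun _ => rfl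
  have hind : AlgebraicIndependent k (fun i : I => (i : ℂ)) := hI.indep
  have hx : AlgebraicIndependent k x := by
    have h1 : AlgebraicIndependent k (E.val ∘ x) := hind
    exact (AlgHom.algebraicIndependent_iff E.val E.val.injective).1 h1
  have hcl : (MK k).closure I = (MK k).closure S := hI.closure_eq_closure
  have hT : IsTranscendenceBasis k x := by
    refine ⟨hx, ?_⟩
    intro s hs hxs
    have hs' : (MK k).Indep (E.val '' s) := by
      rw [AlgebraicIndependent.matroid_indep_iff]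
      have h2 : AlgebraicIndependent k (E.val ∘ (fun y : s => (y : E))) :=
        (AlgHom.algebraicIndependent_iff E.val E.val.injective).2 hs
      have h3 : AlgebraicIndependent k (fun y : s => E.val (y : E)) := h2
      exact AlgebraicIndependent.image h3
    have hIs : I ⊆ E.val '' s := by
      intro i hi
      exact ⟨x ⟨i, hi⟩, hxs ⟨⟨i, hi⟩, rfl⟩, rfl⟩
    have hsub : E.val '' s ⊆ (MK k).closure I := by
      rintro _ ⟨y, -, rfl⟩
      rw [hcl]
      exact hF _ y.2
    have heq : I = E.val '' s := hI.indep.isBasis_closure.eq_of_subset_indep hs' hIs hsub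
    apply Set.Subset.antisymm hxs
    intro y hy
    have h3 : (y : ℂ) ∈ I := by
      rw [heq]
      exact ⟨y, hy, rfl⟩
    refine ⟨⟨(y : ℂ), h3⟩, ?_⟩
    apply Subtype.val_injective
    exact hxv _
  rw [← hT.cardinalMk_eq_trdeg]
  exact hI.encard_eq_eRk

theorem lt_iff (S : Set ℂ) (m : ℕ) :
    Algebra.trdeg k (IntermediateField.adjoin k S) < (m : Cardinal) ↔ (MK k).eRk S < m := by
  rw [← not_le, ← not_le, ← Cardinal.natCast_le_toENat, toENat_trdeg]

theorem le_iff (S : Set ℂ) (m : ℕ) :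
    (m : Cardinal) ≤ Algebra.trdeg k (IntermediateField.adjoin k S) ↔ m ≤ (MK k).eRk S := by
  rw [← Cardinal.natCast_le_toENat, toENat_trdeg]

end mat

variable {n : ℕ} (F : IntermediateField ℚ ℂ)

/-- A derivation over `F` kills the closure of a set which it kills. -/
theorem kills_clF {S : Set ℂ} {D : Derivation ℚ ℂ ℂ} (hF : D ∈ DF F) (h : ∀ s ∈ S, D s = 0)
    {u : ℂ} (hu : u ∈ (MK F).closure S) : D u = 0 := by
  let D' : Derivation F ℂ ℂ := Derivation.mk' (R := F)
    { toFun := fun x => D x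
      map_add' := fun a b => map_add D a b
      map_smul' := fun k x => by
        change D ((k : ℂ) * x) = (k : ℂ) * D x
        rw [Derivation.leibniz, hF k k.2]
        simp } (fun a b => D.leibniz a b)
  have hE : ∀ x ∈ IntermediateField.adjoin F S, D' x = 0 := kills_adjoin D' h
  have h2 : IsAlgebraic (IntermediateField.adjoin F S) u := by
    rw [IntermediateField.isAlgebraic_adjoin_iff]
    exact mem_cl.1 hu
  exact Pool.Agent.H327R2.SC.der_alg (IntermediateField.adjoin F S) D' hE h2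

/-- derivations over `F` with prescribed values -/
theorem exists_derF {κ : Type} {x : κ → ℂ} (hx : AlgebraicIndependent F x) (v : κ → ℂ) :
    ∃ D ∈ DF F, ∀ i, D (x i) = v i := by
  obtain ⟨D, hD⟩ := Pool.Agent.H135R2.VS.exists_der hx v
  exact ⟨D.restrictScalars ℚ, fun y hy => D.map_algebraMap (⟨y, hy⟩ : F), hD⟩

theorem rank_evF (z : Fin n → ℂ) :
    ((finrank ℂ (LinearMap.range (evF F z)) : ℕ) : ℕ∞) = (MK F).eRk (EE z) := by
  classical
  obtain ⟨I, hI⟩ := (MK F).exists_isBasis (EE z) (Set.subset_univ _)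
  have hIfin : I.Finite := (EE_finite z).subset hI.subset
  have : Fintype I := hIfin.fintype
  let ρ : DF F →ₗ[ℂ] (I → ℂ) :=
    { toFun := fun D i => (D : Derivation ℚ ℂ ℂ) i
      map_add' := fun D D' => rfl
      map_smul' := fun c D => rfl }
  have hind : AlgebraicIndependent F (fun i : I => (i : ℂ)) := hI.indep
  have hsurj : Function.Surjective ρ := by
    intro v
    obtain ⟨D, hF, hD⟩ := exists_derF F hind v
    exact ⟨⟨D, hF⟩, funext hD⟩
  have hker : LinearMap.ker (evF F z) = LinearMap.ker ρ := by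
    ext D
    rw [LinearMap.mem_ker, LinearMap.mem_ker, evF_apply, cc_eq_zero]
    constructor
    · rintro ⟨h1, h2⟩
      funext i
      rcases hI.subset i.2 with ⟨j, hj⟩ | ⟨j, hj⟩
      · change (D : Derivation ℚ ℂ ℂ) (i : ℂ) = 0
        rw [← hj]; exact h1 j
      · change (D : Derivation ℚ ℂ ℂ) (i : ℂ) = 0
        rw [← hj]; exact dlog_eq_zero.1 (h2 j)
    · intro h
      have h0 : ∀ i ∈ I, (D : Derivation ℚ ℂ ℂ) i = 0 := fun i hi => congrFun h ⟨i, hi⟩
      have hcl : ∀ w ∈ EE z, (D : Derivation ℚ ℂ ℂ) w = 0 := fun w hw =>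
        kills_clF F D.2 h0 (by rw [hI.closure_eq_closure]; exact subset_cl _ hw)
      exact ⟨fun i => hcl _ (Or.inl ⟨i, rfl⟩),
        fun i => dlog_eq_zero.2 (hcl _ (Or.inr ⟨i, rfl⟩))⟩
  rw [finrank_range_eq (evF F z) ρ hker, LinearMap.range_eq_top.2 hsurj, finrank_top,
    finrank_fintype_fun_eq_card]
  have h1 : I.encard = (MK F).eRk (EE z) := hI.encard_eq_eRk
  rw [← h1, ← Set.coe_fintypeCard]

theorem KF_sub {z : Fin n → ℂ} {x : ℂ} (hx : x ∈ KF F z) : x ∈ (MK F).closure (EE z) := by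
  classical
  by_contra hcon
  obtain ⟨I, hI⟩ := (MK F).exists_isBasis (EE z) (Set.subset_univ _)
  rw [← hI.closure_eq_closure] at hcon
  obtain ⟨h1, h2⟩ := (hI.indep.notMem_closure_iff (Set.mem_univ _)).1 hcon
  have hind : AlgebraicIndependent F (fun i : ↥(insert x I) => (i : ℂ)) := h1
  obtain ⟨D, hF, hD⟩ := exists_derF F hind (fun i => if (i : ℂ) = x then 1 else 0)
  have h0 : ∀ i ∈ I, D i = 0 := by
    intro i hi
    rw [hD ⟨i, Or.inr hi⟩, if_neg]
    intro h
    have h' : i = x := h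
    exact h2 (h' ▸ hi)
  have hcl : ∀ w ∈ EE z, D w = 0 := fun w hw =>
    kills_clF F hF h0 (by rw [hI.closure_eq_closure]; exact subset_cl _ hw)
  have h3 : cc D z = 0 := cc_eq_zero.2 ⟨fun i => hcl _ (Or.inl ⟨i, rfl⟩),
    fun i => dlog_eq_zero.2 (hcl _ (Or.inr ⟨i, rfl⟩))⟩
  have h4 := hx D hF h3
  rw [hD ⟨x, Or.inl rfl⟩, if_pos rfl] at h4
  exact one_ne_zero h4

theorem rk_KF (z : Fin n → ℂ) :
    (MK F).eRk (KF F z : Set ℂ) ≤ (finrank ℂ (LinearMap.range (evF F z)) : ℕ) := by
  rw [rank_evF]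
  exact rk_le_of_subset_cl (fun x hx => KF_sub F hx)

/-- The closure of a set as a rational subspace. -/
def clF (S : Set ℂ) : Submodule ℚ ℂ where
  carrier := (MK F).closure S
  add_mem' := fun ha hb => cl_add ha hb
  zero_mem' := by
    have := cl_of_base (k := F) S 0
    rwa [map_zero] at this
  smul_mem' := fun c x hx => by
    rw [Rat.smul_def]
    refine cl_mul ?_ hx
    have := cl_of_base (k := F) S (c : F)
    rwa [map_ratCast] at this

theorem lm_evF {m : ℕ} (A : Matrix (Fin m) (Fin n) ℚ) (z : Fin n → ℂ) :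
    lm A ∘ₗ evF F z = evF F (comb A z) := by
  unfold evF
  rw [← LinearMap.comp_assoc, lm_ev]

/-- a rational vector gives a rank loss -/
theorem rank_lossF {m : ℕ} (A : Matrix (Fin m) (Fin n) ℚ) (z : Fin n → ℂ)
    {D : Derivation ℚ ℂ ℂ} (hF : D ∈ DF F) (h0 : cc D z ≠ 0) (h1 : lm A (cc D z) = 0) :
    finrank ℂ (LinearMap.range (evF F (comb A z))) + 1 ≤ finrank ℂ (LinearMap.range (evF F z)) := by
  let f : LinearMap.range (evF F z) →ₗ[ℂ] (Fin m ⊕ Fin m → ℂ) :=
    lm A ∘ₗ (LinearMap.range (evF F z)).subtype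
  have h2 := f.finrank_range_add_finrank_ker
  have h3 : LinearMap.range f = LinearMap.range (evF F (comb A z)) := by
    rw [← lm_evF, LinearMap.range_comp, LinearMap.range_comp, Submodule.range_subtype]
  have h4 : 1 ≤ finrank ℂ (LinearMap.ker f) := by
    rw [Nat.one_le_iff_ne_zero]
    intro h5
    have h6 : LinearMap.ker f = ⊥ := Submodule.finrank_eq_zero.1 h5
    have h7 : (⟨cc D z, ⟨⟨D, hF⟩, rfl⟩⟩ : LinearMap.range (evF F z)) ∈ LinearMap.ker f := h1
    rw [h6, Submodule.mem_bot] at h7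
    exact h0 (congrArg Subtype.val h7)
  rw [h3] at h2
  omega

end Pool.Agent.TH813.Rel
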