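import Mathlib
import Pool.Agent.TH813.Count

/-!
# Smooth linear components of an intersection of forms of degree `m + 1`: a counting lemma
-/

set_option autoImplicit false

namespace Pool.Agent.TH813.CountN

open Module Finset Pool.Agent.TH813.Count

variable {k V : Type*} [Field k] [AddCommGroup V] [Module k V]

section poly

variable {r : ℕ} (e : Basis (Fin r) k V)

/-- monomials of degree at most `q` -/
noncomputable def mon (q : ℕ) (s : Sym (Option (Fin r)) q) : V → k :=
  fun t => (s.1.map (X e t)).prod

/-- polynomial functions of degree at most `q` -/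
noncomputable def PP (q : ℕ) : Submodule k (V → k) := Submodule.span k (Set.range (mon e q))

theorem finrank_PP (q : ℕ) : finrank k (PP e q) ≤ (r + q).choose q := by
  classical
  have h := finrank_range_le_card (R := k) (mon e q)
  unfold Set.finrank at h
  refine h.trans ?_
  rw [Sym.card_sym_eq_choose, Fintype.card_option, Fintype.card_fin]
  have : r + 1 + q - 1 = r + q := by omega
  rw [this]

instance (q : ℕ) : Module.Finite k (PP e q) := by
  unfold PP
  exact FiniteDimensional.span_of_finite k (Set.finite_range _)

theorem prod_mem {q : ℕ} (φ : Fin q → Option (Fin r)) : (fun t => ∏ i, X e t (φ i)) ∈ PP e q := by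
  apply Submodule.subset_span
  refine ⟨⟨(univ : Finset (Fin q)).val.map φ, by simp⟩, ?_⟩
  funext t
  unfold mon
  simp only [Multiset.map_map]
  rfl

theorem one_mem : (fun _ => 1 : V → k) ∈ PP e 0 := by
  have := prod_mem e (q := 0) Fin.elim0
  simpa using this

theorem mul_mem {p q : ℕ} {f g : V → k} (hf : f ∈ PP e p) (hg : g ∈ PP e q) :
    (fun t => f t * g t) ∈ PP e (p + q) := by
  unfold PP at hf
  induction hf using Submodule.span_induction with
  | mem f hf =>
    obtain ⟨s, rfl⟩ := hf
    unfold PP at hg
    induction hg using Submodule.span_induction with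
    | mem g hg =>
      obtain ⟨s', rfl⟩ := hg
      apply Submodule.subset_span
      refine ⟨⟨s.1 + s'.1, by rw [Multiset.card_add, s.2, s'.2]⟩, ?_⟩
      funext t
      unfold mon
      simp only [Multiset.map_add, Multiset.prod_add]
    | zero =>
      have : (fun t => mon e p s t * (0 : V → k) t) = 0 := by funext t; simp
      rw [this]; exact Submodule.zero_mem _
    | add a b _ _ ha hb =>
      have : (fun t => mon e p s t * (a + b) t) =
          (fun t => mon e p s t * a t) + fun t => mon e p s t * b t := by
        funext t; simp [mul_add]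
      rw [this]; exact Submodule.add_mem _ ha hb
    | smul c a _ ha =>
      have : (fun t => mon e p s t * (c • a) t) = c • (fun t => mon e p s t * a t) := by
        funext t; simp only [Pi.smul_apply, smul_eq_mul]; ring
      rw [this]; exact Submodule.smul_mem _ _ ha
  | zero =>
    have : (fun t => (0 : V → k) t * g t) = 0 := by funext t; simp
    rw [this]; exact Submodule.zero_mem _
  | add a b _ _ ha hb =>
    have : (fun t => (a + b) t * g t) = (fun t => a t * g t) + fun t => b t * g t := by
      funext t; simp [add_mul]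
    rw [this]; exact Submodule.add_mem _ ha hb
  | smul c a _ ha =>
    have : (fun t => (c • a) t * g t) = c • (fun t => a t * g t) := by
      funext t; simp only [Pi.smul_apply, smul_eq_mul]; ring
    rw [this]; exact Submodule.smul_mem _ _ ha

theorem prods_mem {m : ℕ} : ∀ (N : ℕ) (f : Fin N → V → k), (∀ i, f i ∈ PP e m) →
    (fun t => ∏ i, f i t) ∈ PP e (N * m) := by
  intro N
  induction N with
  | zero =>
    intro f _
    rw [Nat.zero_mul]
    simpa using one_mem e
  | succ N ih =>
    intro f hf
    have h1 := mul_mem e (hf 0) (ih (fun i => f i.succ) (fun i => hf i.succ))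
    have h2 : (N + 1) * m = m + N * m := by ring
    rw [h2]
    have h3 : (fun t => ∏ i, f i t) = fun t => f 0 t * ∏ i : Fin N, f i.succ t := by
      funext t
      rw [Fin.prod_univ_succ]
    rw [h3]
    exact h1

theorem det_mem {m : ℕ} (A : V → Matrix (Fin r) (Fin r) k)
    (hA : ∀ i l, (fun t => A t i l) ∈ PP e m) : (fun t => (A t).det) ∈ PP e (r * m) := by
  classical
  have h1 : (fun t => (A t).det) = ∑ σ : Equiv.Perm (Fin r), (Equiv.Perm.sign σ : ℤ) •
      (fun t => ∏ i, A t (σ i) i) := by
    funext t
    rw [Matrix.det_apply]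
    simp only [Finset.sum_apply, Pi.smul_apply]
    rfl
  rw [h1]
  refine Submodule.sum_mem _ (fun σ _ => ?_)
  rw [← Int.cast_smul_eq_zsmul k]
  exact Submodule.smul_mem _ _ (prods_mem e r (fun i t => A t (σ i) i) (fun i => hA (σ i) i))

theorem multi_mem {m : ℕ} (M : MultilinearMap k (fun _ : Fin m => V) k)
    (L : Fin m → V →ₗ[k] V) : (fun t => M (fun i => L i t)) ∈ PP e m := by
  classical
  have h1 : (fun t => M (fun i => L i t)) = ∑ φ : Fin m → Fin r,
      (M (fun i => L i (e (φ i)))) • (fun t => ∏ i, X e t (some (φ i))) := by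
    funext t
    have h2 : ∀ i, L i t = ∑ l, e.repr t l • L i (e l) := by
      intro i
      conv_lhs => rw [← e.sum_repr t]
      rw [map_sum]
      exact sum_congr rfl (fun l _ => map_smul _ _ _)
    have h3 : (fun i => L i t) = fun i => ∑ l, e.repr t l • L i (e l) := funext h2
    rw [h3, MultilinearMap.map_sum]
    simp only [Finset.sum_apply, Pi.smul_apply, smul_eq_mul]
    refine sum_congr rfl (fun φ _ => ?_)
    rw [MultilinearMap.map_smul_univ M (fun i => e.repr t (φ i)) (fun i => L i (e (φ i))),
      smul_eq_mul, mul_comm]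
    rfl
  rw [h1]
  exact Submodule.sum_mem _ (fun φ _ => Submodule.smul_mem _ _ (prod_mem e _))

theorem const_mem (m : ℕ) (c : k) : (fun _ => c : V → k) ∈ PP e m := by
  have h := prod_mem e (q := m) (fun _ => none)
  have h2 : (fun t => ∏ _i : Fin m, X e t none) = (fun _ => 1 : V → k) := by
    funext t
    simp [X]
  rw [h2] at h
  have h3 : (fun _ => c : V → k) = c • (fun _ => 1 : V → k) := by
    funext t; simp
  rw [h3]
  exact Submodule.smul_mem _ _ h

end poly

section tel

variable {m : ℕ}

omit [AddCommGroup V] in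
/-- the arguments of the telescoping sum -/
theorem insert_eq (j : Fin (m + 1)) (t w y : V) :
    (j.insertNth y (fun i : Fin m => if i.castSucc < j then t else w) : Fin (m + 1) → V) =
      Function.update (fun i : Fin (m + 1) => if (i : ℕ) < j then t else w) j y := by
  funext i
  by_cases hij : i = j
  · rw [hij, Fin.insertNth_apply_same, Function.update_self]
  · obtain ⟨i', rfl⟩ := Fin.exists_succAbove_eq hij
    rw [Fin.insertNth_apply_succAbove, Function.update_of_ne hij]
    have h : ((j.succAbove i' : Fin (m + 1)) : ℕ) < j ↔ i'.castSucc < j := by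
      rw [← Fin.lt_def]
      exact Fin.succAbove_lt_iff_castSucc_lt j i'
    by_cases h1 : i'.castSucc < j
    · rw [if_pos h1, if_pos (h.2 h1)]
    · rw [if_neg h1, if_neg (fun h2 => h1 (h.1 h2))]

theorem tel (F : MultilinearMap k (fun _ : Fin (m + 1) => V) k) (t w : V) :
    F (fun _ => t) - F (fun _ => w) =
      ∑ j : Fin (m + 1), F (j.insertNth (t - w) (fun i : Fin m =>
        if i.castSucc < j then t else w)) := by
  let H : ℕ → k := fun q => F (fun i : Fin (m + 1) => if (i : ℕ) < q then t else w)
  have h1 : ∀ j : Fin (m + 1), F (j.insertNth (t - w) (fun i : Fin m =>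
      if i.castSucc < j then t else w)) = H (j + 1) - H j := by
    intro j
    rw [insert_eq, MultilinearMap.map_update_sub]
    congr 1
    · congr 1
      funext i
      by_cases hij : i = j
      · rw [hij, Function.update_self, if_pos (Nat.lt_succ_self _)]
      · rw [Function.update_of_ne hij]
        have : (i : ℕ) ≠ j := fun h => hij (Fin.ext h)
        by_cases h2 : (i : ℕ) < j
        · rw [if_pos h2, if_pos (by omega)]
        · rw [if_neg h2, if_neg (by omega)]
    · congr 1
      funext i
      by_cases hij : i = j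
      · rw [hij, Function.update_self, if_neg (lt_irrefl _)]
      · rw [Function.update_of_ne hij]
  rw [sum_congr rfl (fun j _ => h1 j),
    Fin.sum_univ_eq_sum_range (fun q => H (q + 1) - H q) (m + 1), sum_range_sub]
  congr 1
  · change F _ = F _
    congr 1
    funext i
    rw [if_pos i.2]

end tel

section main

variable {m : ℕ}

/-- the difference quotient of a form -/
noncomputable def G (F : MultilinearMap k (fun _ : Fin (m + 1) => V) k) (t w : V) : V →ₗ[k] k where
  toFun y := ∑ j : Fin (m + 1), F (j.insertNth y (fun i : Fin m => if i.castSucc < j then t else w))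
  map_add' y y' := by
    rw [← sum_add_distrib]
    exact sum_congr rfl (fun j _ => MultilinearMap.map_insertNth_add F j _ y y')
  map_smul' c y := by
    rw [RingHom.id_apply, smul_sum]
    exact sum_congr rfl (fun j _ => MultilinearMap.map_insertNth_smul F j _ c y)

theorem G_apply (F : MultilinearMap k (fun _ : Fin (m + 1) => V) k) (t w y : V) :
    G F t w y = ∑ j : Fin (m + 1), F (j.insertNth y (fun i : Fin m =>
      if i.castSucc < j then t else w)) := rfl

theorem G_self (F : MultilinearMap k (fun _ : Fin (m + 1) => V) k) (t y : V) :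
    G F t t y = ∑ j : Fin (m + 1), F (j.insertNth y (fun _ : Fin m => t)) := by
  rw [G_apply]
  refine sum_congr rfl (fun j _ => ?_)
  simp only [ite_self]

theorem G_tel (F : MultilinearMap k (fun _ : Fin (m + 1) => V) k) (t w : V) :
    G F t w (t - w) = F (fun _ => t) - F (fun _ => w) := (tel F t w).symm

theorem G_self_self (F : MultilinearMap k (fun _ : Fin (m + 1) => V) k) (t : V)
    (h : F (fun _ => t) = 0) : G F t t t = 0 := by
  rw [G_self]
  refine sum_eq_zero (fun j _ => ?_)
  rw [← h]
  congr 1
  funext i
  refine Fin.succAboveCases j ?_ (fun i' => ?_) i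
  · rw [Fin.insertNth_apply_same]
  · rw [Fin.insertNth_apply_succAbove]

variable [FiniteDimensional k V]

theorem exists_poly {r : ℕ} (e : Basis (Fin r) k V) {I : Type*}
    (F : I → MultilinearMap k (fun _ : Fin (m + 1) => V) k) (t₀ : V)
    (h1 : ∀ a, F a (fun _ => t₀) = 0)
    (hT : ∀ τ, (∀ a, G (F a) t₀ t₀ τ = 0) → ∀ a, F a (fun _ => τ) = 0) :
    ∃ P ∈ PP e (r * m), P t₀ ≠ 0 ∧
      ∀ t, (∀ a, F a (fun _ => t) = 0) → (∃ a, G (F a) t₀ t₀ t ≠ 0) → P t = 0 := by
  classical
  -- the tangent space
  let W : Submodule k V := ⨅ a, LinearMap.ker (G (F a) t₀ t₀)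
  have hW : ∀ τ, τ ∈ W ↔ ∀ a, G (F a) t₀ t₀ τ = 0 := by
    intro τ
    simp only [W, Submodule.mem_iInf, LinearMap.mem_ker]
  obtain ⟨T, hWT⟩ := W.exists_isCompl
  let prW : V →ₗ[k] W := W.projectionOnto T hWT
  have hprW0 : ∀ x, prW x = 0 ↔ x ∈ T := fun x => Submodule.projectionOnto_apply_eq_zero_iff hWT
  have hprWW : ∀ x : W, prW x = x := fun x => Submodule.projectionOnto_apply_left hWT x
  let pW : V →ₗ[k] V := W.subtype ∘ₗ prW
  have hpW : ∀ t, pW t = (prW t : V) := fun t => rfl
  have ht₀W : t₀ ∈ W := (hW t₀).2 (fun a => G_self_self (F a) t₀ (h1 a))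
  have hpW₀ : pW t₀ = t₀ := by rw [hpW, hprWW ⟨t₀, ht₀W⟩]
  let mm : V → (I ⊕ Dual k W) → Dual k V := fun t => Sum.elim (fun a => G (F a) t (pW t))
    (fun q => q ∘ₗ prW)
  have hker : ∀ y, (∀ j, mm t₀ j y = 0) → y = 0 := by
    intro y hy
    have hy1 : y ∈ W := by
      rw [hW]
      intro a
      have := hy (Sum.inl a)
      simp only [mm, Sum.elim_inl, hpW₀] at this
      exact this
    have hy2 : prW y = 0 := by
      apply (forall_dual_apply_eq_zero_iff k _).1
      intro q
      exact hy (Sum.inr q)
    have hy3 : y ∈ T := (hprW0 y).1 hy2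
    exact (Submodule.disjoint_def.1 hWT.disjoint) y hy1 hy3
  obtain ⟨j, hj⟩ := exists_sel e (mm t₀) hker
  let A : V → Matrix (Fin r) (Fin r) k := fun t => Matrix.of fun i l => mm t (j i) (e l)
  refine ⟨fun t => (A t).det, ?_, hj, ?_⟩
  · apply det_mem
    intro i l
    rcases hji : j i with a | q
    · have h2 : (fun t => A t i l) = ∑ j' : Fin (m + 1), fun t =>
          (MultilinearMap.curryMid j' (F a)) (e l) (fun i' : Fin m =>
            (if i'.castSucc < j' then LinearMap.id else pW : V →ₗ[k] V) t) := by
        funext t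
        simp only [A, mm, Matrix.of_apply, hji, Sum.elim_inl, Finset.sum_apply]
        rw [G_apply]
        refine sum_congr rfl (fun j' _ => ?_)
        rw [MultilinearMap.curryMid_apply_apply]
        congr 1
        congr 1
        funext i'
        split_ifs <;> rfl
      rw [h2]
      refine Submodule.sum_mem _ (fun j' _ => ?_)
      exact multi_mem e (MultilinearMap.curryMid j' (F a) (e l))
        (fun i' => if i'.castSucc < j' then LinearMap.id else pW)
    · have h2 : (fun t => A t i l) = fun _ => q (prW (e l)) := by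
        funext t
        simp only [A, mm, Matrix.of_apply, hji, Sum.elim_inr]
        rfl
      rw [h2]
      exact const_mem e m _
  · intro t ht hne
    have htW : t ∉ W := by
      rw [hW]
      push Not
      exact hne
    have hxt : t - pW t ≠ 0 := by
      intro h0
      apply htW
      rw [sub_eq_zero] at h0
      rw [h0]
      exact (prW t).2
    have hb : ∀ a, G (F a) t (pW t) (t - pW t) = 0 := by
      intro a
      have h5 : F a (fun _ => pW t) = 0 := hT _ ((hW _).1 (prW t).2) a
      rw [G_tel, ht a, h5, sub_zero]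
    have hm : ∀ j, mm t j (t - pW t) = 0 := by
      intro j
      rcases j with a | q
      · exact hb a
      · have h3 : prW (t - pW t) = 0 := by
          rw [map_sub, hpW, hprWW, sub_self]
        simp only [mm, Sum.elim_inr, LinearMap.comp_apply, h3, map_zero]
    apply Matrix.exists_mulVec_eq_zero_iff.1
    refine ⟨fun l => e.repr (t - pW t) l, ?_, ?_⟩
    · intro h0
      apply hxt
      rw [← e.sum_repr (t - pW t)]
      refine sum_eq_zero (fun l _ => ?_)
      rw [congrFun h0 l, Pi.zero_apply, zero_smul]
    · funext i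
      simp only [Matrix.mulVec, dotProduct, Pi.zero_apply]
      rw [← hm (j i)]
      conv_rhs => rw [← e.sum_repr (t - pW t)]
      rw [_root_.map_sum]
      refine sum_congr rfl (fun l _ => ?_)
      rw [map_smul, smul_eq_mul, mul_comm]
      rfl

/-- **The counting lemma.** -/
theorem count {I : Type*} (F : I → MultilinearMap k (fun _ : Fin (m + 1) => V) k) (S : Finset V)
    (h1 : ∀ t ∈ S, ∀ a, F a (fun _ => t) = 0)
    (hT : ∀ t ∈ S, ∀ τ, (∀ a, G (F a) t t τ = 0) → ∀ a, F a (fun _ => τ) = 0)
    (hne : ∀ t ∈ S, ∀ t' ∈ S, t ≠ t' → ∃ a, G (F a) t t t' ≠ 0) :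
    S.card ≤ ((m + 1) * finrank k V).choose (finrank k V) := by
  classical
  let e : Basis (Fin (finrank k V)) k V := finBasis k V
  have hP : ∀ t : S, ∃ P ∈ PP e (finrank k V * m), P t ≠ 0 ∧
      ∀ t' : V, (∀ a, F a (fun _ => t') = 0) → (∃ a, G (F a) t t t' ≠ 0) → P t' = 0 := fun t =>
    exists_poly e F t (h1 t t.2) (hT t t.2)
  choose P hP1 hP2 hP3 using hP
  let Q : S → PP e (finrank k V * m) := fun t => ⟨P t, hP1 t⟩
  have hli : LinearIndependent k Q := by
    rw [Fintype.linearIndependent_iff]
    intro c hc t
    have h3 : (∑ s, c s • Q s : PP e (finrank k V * m)).1 (t : V) = 0 := by rw [hc]; rfl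
    have h4 : (∑ s, c s • Q s : PP e (finrank k V * m)).1 (t : V) = ∑ s, c s * P s t := by
      rw [Submodule.coe_sum, Finset.sum_apply]
      rfl
    rw [h4, sum_eq_single t] at h3
    · exact (mul_eq_zero.1 h3).resolve_right (hP2 t)
    · intro s _ hst
      rw [hP3 s t (h1 t t.2) (hne s s.2 t t.2 (fun h => hst (Subtype.ext h))), mul_zero]
    · intro h
      exact absurd (mem_univ t) h
  have h5 := hli.fintype_card_le_finrank
  rw [Fintype.card_coe] at h5
  refine h5.trans ((finrank_PP e _).trans (le_of_eq ?_))
  have h6 : finrank k V + finrank k V * m = (m + 1) * finrank k V := by ring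
  rw [h6]
  apply Nat.choose_symm_of_eq_add
  ring

end main

end Pool.Agent.TH813.CountN
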