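import Mathlib
import Pool.Agent.TH813.CountN
import Pool.Agent.TH813.Count

/-!
# Determinantal forms of a rational family of linear maps, and their tangent vectors
-/

set_option autoImplicit false

namespace Pool.Agent.TH813.GForms

open Module Finset

/-- independent vectors have a nonzero minor -/
theorem exists_minor {K' : Type*} {m : ℕ} (x : Fin m → K' → ℂ)
    (hx : LinearIndependent ℂ x) : ∃ κ : Fin m → K',
      (Matrix.of fun i j => x i (κ j)).det ≠ 0 := by
  classical
  let V' := Submodule.span ℂ (Set.range x)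
  let e : Basis (Fin m) ℂ V' := Basis.span hx
  have : FiniteDimensional ℂ V' := Module.Finite.of_basis e
  obtain ⟨κ, hκ⟩ := Pool.Agent.TH813.Count.exists_sel e
    (fun k : K' => (LinearMap.proj k).comp V'.subtype) (by
    intro y hy
    apply Subtype.ext
    funext k
    exact hy k)
  refine ⟨κ, ?_⟩
  rw [← Matrix.det_transpose]
  convert! hκ using 2
  ext i l
  simp only [Matrix.transpose_apply, Matrix.of_apply, LinearMap.comp_apply,
    Submodule.subtype_apply, LinearMap.proj_apply]
  have h1 : ((e l : V') : K' → ℂ) = x l := congrArg Subtype.val (Basis.span_apply hx l)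
  rw [h1]

variable {M E K' : Type*} [AddCommGroup M] [Module ℚ M] [AddCommGroup E] [Module ℂ E]
  {n : ℕ} (Φ : M →ₗ[ℚ] (E →ₗ[ℂ] (K' → ℂ)))

/-- the index set of the forms -/
abbrev Idx (E K' : Type*) (n : ℕ) := (Fin (n + 1) → E) × (Fin (n + 1) → K') × Dual ℚ ℂ

/-- a row of the matrix -/
noncomputable def row (x : E) (κ : Fin (n + 1) → K') : M →ₗ[ℚ] (Fin (n + 1) → ℂ) where
  toFun v := fun j => Φ v x (κ j)
  map_add' v w := by
    funext j
    rw [map_add]
    rfl
  map_smul' q v := by
    funext j
    rw [map_smul]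
    rfl

/-- the determinants as multilinear forms -/
noncomputable def F (a : Idx E K' n) : MultilinearMap ℚ (fun _ : Fin (n + 1) => M) ℚ :=
  a.2.2.compMultilinearMap
    (((Matrix.detRowAlternating (n := Fin (n + 1)) (R := ℂ)).toMultilinearMap.restrictScalars
      ℚ).compLinearMap (fun i => row Φ (a.1 i) a.2.1))

theorem F_apply (a : Idx E K' n) (v : Fin (n + 1) → M) :
    F Φ a v = a.2.2 (Matrix.of fun i j => Φ (v i) (a.1 i) (a.2.1 j)).det := rfl

variable [Finite K']

theorem forms_zero (v : M) (h : finrank ℂ (LinearMap.range (Φ v)) ≤ n) (a : Idx E K' n) :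
    F Φ a (fun _ => v) = 0 := by
  classical
  rw [F_apply]
  have h1 : ¬ LinearIndependent ℂ (fun i => Φ v (a.1 i)) := by
    intro hli
    have h2 : LinearIndependent ℂ (fun i => (⟨Φ v (a.1 i), ⟨a.1 i, rfl⟩⟩ :
        LinearMap.range (Φ v))) := by
      apply LinearIndependent.of_comp (LinearMap.range (Φ v)).subtype
      exact hli
    have h3 := h2.fintype_card_le_finrank
    rw [Fintype.card_fin] at h3
    omega
  have h4 : (Matrix.of fun i j => Φ v (a.1 i) (a.2.1 j)).det = 0 := by
    by_contra hne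
    apply h1
    have h5 : LinearIndependent ℂ (Matrix.of fun i j => Φ v (a.1 i) (a.2.1 j)).row :=
      Matrix.linearIndependent_rows_of_det_ne_zero hne
    have h6 : (Matrix.of fun i j => Φ v (a.1 i) (a.2.1 j)).row =
        (LinearMap.funLeft ℂ ℂ a.2.1) ∘ (fun i => Φ v (a.1 i)) := by
      funext i j
      rfl
    rw [h6] at h5
    exact LinearIndependent.of_comp _ h5
  rw [h4, map_zero]

/-- the tangent condition -/
theorem tangent {z v : M} (hz : finrank ℂ (LinearMap.range (Φ z)) = n)
    (h : ∀ a : Idx E K' n, CountN.G (F Φ a) z z v = 0) :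
    ∀ D : E, Φ z D = 0 → ∃ D', Φ v D = Φ z D' := by
  classical
  intro D hD
  let b := finBasisOfFinrankEq ℂ (LinearMap.range (Φ z)) hz
  have hch : ∀ i, ∃ D, Φ z D = b i := fun i => (b i).2
  choose Dd hDd using hch
  by_contra hcon
  push Not at hcon
  -- independence
  have hb : LinearIndependent ℂ (fun i => (b i : K' → ℂ)) :=
    b.linearIndependent.map' (LinearMap.range (Φ z)).subtype (Submodule.ker_subtype _)
  have hspan : Φ v D ∉ Submodule.span ℂ (Set.range (fun i => (b i : K' → ℂ))) := by
    intro hmem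
    have hle : Submodule.span ℂ (Set.range (fun i => (b i : K' → ℂ))) ≤
        LinearMap.range (Φ z) := by
      rw [Submodule.span_le]
      rintro _ ⟨i, rfl⟩
      exact (b i).2
    obtain ⟨D', hD'⟩ := hle hmem
    exact hcon D' hD'.symm
  have hli : LinearIndependent ℂ (Fin.snoc (fun i => (b i : K' → ℂ))
      (Φ v D) : Fin (n + 1) → (K' → ℂ)) :=
    linearIndependent_finSnoc.2 ⟨hb, hspan⟩
  obtain ⟨κ, hκ⟩ := exists_minor _ hli
  apply hκ
  apply (forall_dual_apply_eq_zero_iff ℚ _).1
  intro φ
  have h1 := h (Fin.snoc Dd D, κ, φ)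
  rw [CountN.G_self, Fin.sum_univ_castSucc, sum_eq_zero, zero_add] at h1
  · rw [F_apply] at h1
    rw [← h1]
    congr 2
    ext i j
    refine Fin.lastCases ?_ (fun i' => ?_) i
    · simp only [Matrix.of_apply, Fin.snoc_last]
      rw [Fin.insertNth_apply_same]
    · simp only [Matrix.of_apply, Fin.snoc_castSucc]
      rw [← hDd i', ← Fin.succAbove_last_apply i', Fin.insertNth_apply_succAbove]
  · intro j _
    rw [F_apply]
    have h2 : (Matrix.of fun i j' => Φ ((j.castSucc.insertNth v (fun _ => z) : Fin (n + 1) → M) i)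
        ((Fin.snoc Dd D : Fin (n + 1) → E) i) (κ j')).det = 0 := by
      apply Matrix.det_eq_zero_of_row_eq_zero (Fin.last n)
      intro j'
      rw [Matrix.of_apply, Fin.snoc_last]
      have h3 : (j.castSucc.insertNth v (fun _ => z) : Fin (n + 1) → M) (Fin.last n) = z := by
        have h4 : Fin.last n ≠ j.castSucc := (Fin.castSucc_lt_last j).ne'
        obtain ⟨i', hi'⟩ := Fin.exists_succAbove_eq h4
        rw [← hi', Fin.insertNth_apply_succAbove]
      rw [h3, hD]
      rfl
    change φ _ = 0
    rw [h2, map_zero]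

/-- vectors dual to a separating family of linear forms -/
theorem exists_dual {k V κ : Type*} [Field k] [AddCommGroup V] [Module k V] [FiniteDimensional k V]
    (m : κ → Dual k V) (hm : ∀ x, (∀ j, m j x = 0) → x = 0) :
    ∃ (J : Fin (finrank k V) → κ) (x : Fin (finrank k V) → V),
      (∀ a b, m (J b) (x a) = if a = b then 1 else 0) ∧ ∀ y, y = ∑ a, m (J a) y • x a := by
  classical
  let e := finBasis k V
  obtain ⟨J, hJ⟩ := Pool.Agent.TH813.Count.exists_sel e m hm
  let A : Matrix (Fin (finrank k V)) (Fin (finrank k V)) k :=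
    Matrix.of fun i l => m (J i) (e l)
  have hdet : IsUnit A.det := isUnit_iff_ne_zero.2 hJ
  have hinv := Matrix.mul_nonsing_inv A hdet
  have hx : ∀ a b, m (J b) (∑ l, A⁻¹ l a • e l) = if a = b then 1 else 0 := by
    intro a b
    have h1 : m (J b) (∑ l, A⁻¹ l a • e l) = (A * A⁻¹) b a := by
      rw [map_sum, Matrix.mul_apply]
      refine sum_congr rfl (fun l _ => ?_)
      rw [map_smul, smul_eq_mul, mul_comm]
      rfl
    rw [h1, hinv, Matrix.one_apply]
    simp only [eq_comm]
  refine ⟨J, fun a => ∑ l, A⁻¹ l a • e l, hx, fun y => ?_⟩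
  have h2 : ∀ b, m (J b) (y - ∑ a, m (J a) y • ∑ l, A⁻¹ l a • e l) = 0 := by
    intro b
    rw [map_sub, map_sum, sum_eq_single b]
    · rw [map_smul, hx, if_pos rfl, smul_eq_mul, mul_one, sub_self]
    · intro a _ hab
      rw [map_smul, hx, if_neg hab, smul_zero]
    · intro h; exact absurd (mem_univ b) h
  rw [← sub_eq_zero]
  set t := y - ∑ a, m (J a) y • ∑ l, A⁻¹ l a • e l with ht
  have h3 : A.mulVec (fun l => e.repr t l) = 0 := by
    funext b
    have h4 := h2 b
    conv at h4 => rw [← e.sum_repr t]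
    rw [map_sum] at h4
    rw [Pi.zero_apply, ← h4]
    simp only [Matrix.mulVec, dotProduct]
    refine sum_congr rfl (fun l _ => ?_)
    rw [map_smul, smul_eq_mul, mul_comm]
    rfl
  have h5 : (fun l => e.repr t l) = 0 := by
    by_contra hne
    exact hJ (Matrix.exists_mulVec_eq_zero_iff.1 ⟨_, hne, h3⟩)
  rw [← e.sum_repr t]
  refine sum_eq_zero (fun l _ => ?_)
  rw [congrFun h5 l, Pi.zero_apply, zero_smul]

end Pool.Agent.TH813.GForms
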