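import Mathlib
import Pool.Agent.TH813.CountN
import Pool.Agent.H135R2.VS.Der

/-!
# A finiteness lemma: linear maps which are infinitesimally constant at the rational points of an
intersection of forms take finitely many values

The proof uses an ultrapower of the rational numbers and its derivations.
-/

set_option autoImplicit false

namespace Pool.Agent.TH813.UP

open Module Finset Filter

section abs

variable {L : Type*} [Field L] [CharZero L] (c : (ℕ → ℚ) →+* L)
  (h0 : ∀ f, c f = 0 ↔ ∀ᶠ k in (hyperfilter ℕ : Filter ℕ), f k = 0)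

omit [CharZero L] in
theorem c_const (q : ℚ) : c (fun _ => q) = (q : L) :=
  eq_ratCast (c.comp (Pi.constRingHom ℕ ℚ)) q

include h0

omit [CharZero L] in
theorem c_eq {f g : ℕ → ℚ} : c f = c g ↔ ∀ᶠ k in (hyperfilter ℕ : Filter ℕ), f k = g k := by
  rw [← sub_eq_zero, ← map_sub, h0]
  simp only [Pi.sub_apply, sub_eq_zero]

theorem standard {f : ℕ → ℚ} (hf : IsAlgebraic ℚ (c f)) :
    ∃ q : ℚ, ∀ᶠ k in (hyperfilter ℕ : Filter ℕ), f k = q := by
  classical
  obtain ⟨p, hp, hp2⟩ := hf
  have h1 : c (fun k => p.eval (f k)) = 0 := by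
    rw [← hp2, Polynomial.aeval_def]
    have h2 : algebraMap ℚ L = c.comp (Pi.constRingHom ℕ ℚ) := Subsingleton.elim _ _
    rw [h2, ← Polynomial.hom_eval₂]
    congr 1
    funext k
    have h3 := Polynomial.hom_eval₂ p (Pi.constRingHom ℕ ℚ) (Pi.evalRingHom (fun _ : ℕ => ℚ) k) f
    have h4 : (Pi.evalRingHom (fun _ : ℕ => ℚ) k).comp (Pi.constRingHom ℕ ℚ) = RingHom.id ℚ :=
      Subsingleton.elim _ _
    rw [h4, Polynomial.eval₂_id] at h3
    exact h3.symm
  rw [h0] at h1
  have h5 : ∀ᶠ k in (hyperfilter ℕ : Filter ℕ), ∃ q ∈ (p.roots.toFinset : Set ℚ), f k = q := by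
    filter_upwards [h1] with k hk
    exact ⟨f k, by simp [hp, Polynomial.IsRoot.def, hk], rfl⟩
  rw [Ultrafilter.eventually_exists_mem_iff (Finset.finite_toSet _)] at h5
  obtain ⟨q, -, hq⟩ := h5
  exact ⟨q, hq⟩

theorem exists_delta {f : ℕ → ℚ} (hf : ¬ ∃ q : ℚ, ∀ᶠ k in (hyperfilter ℕ : Filter ℕ), f k = q) :
    ∃ δ : Derivation ℚ L L, δ (c f) ≠ 0 := by
  have h1 : Transcendental ℚ (c f) := fun h => hf (standard c h0 h)
  have h2 : AlgebraicIndependent ℚ (fun _ : Unit => c f) :=
    (algebraicIndependent_unique_type_iff (R := ℚ) (x := fun _ : Unit => c f)).2 h1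
  obtain ⟨D, hD⟩ := Pool.Agent.H135R2.VS.exists_der h2 (fun _ => 1)
  exact ⟨D, by rw [hD ()]; exact one_ne_zero⟩

end abs

theorem der_prod {K L : Type*} [Field K] [Field L] [Algebra K L] (δ : Derivation K L L) :
    ∀ (n : ℕ) (x : Fin (n + 1) → L),
      δ (∏ i, x i) = ∑ j, δ (x j) * ∏ i : Fin n, x (j.succAbove i) := by
  intro n
  induction n with
  | zero =>
    intro x
    simp
  | succ n ih =>
    intro x
    rw [Fin.prod_univ_succ, Derivation.leibniz, ih, smul_eq_mul, smul_eq_mul,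
      Fin.sum_univ_succ (fun j => δ (x j) * ∏ i, x (j.succAbove i)), add_comm, mul_comm]
    congr 1
    rw [mul_sum]
    refine sum_congr rfl (fun j _ => ?_)
    rw [Fin.prod_univ_succ, Fin.succ_succAbove_zero]
    simp only [Fin.succ_succAbove_succ]
    ring

section multi

variable {k M : Type*} [Field k] [AddCommGroup M] [Module k M] {r n : ℕ} (e : Basis (Fin r) k M)

theorem expand {m : ℕ} (F : MultilinearMap k (fun _ : Fin m => M) k) (x : Fin m → M) :
    F x = ∑ φ : Fin m → Fin r, F (fun i => e (φ i)) * ∏ i, e.repr (x i) (φ i) := by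
  classical
  have h1 : x = fun i => ∑ l, e.repr (x i) l • e l := funext (fun i => (e.sum_repr (x i)).symm)
  conv_lhs => rw [h1]
  rw [MultilinearMap.map_sum]
  refine sum_congr rfl (fun φ _ => ?_)
  rw [MultilinearMap.map_smul_univ F (fun i => e.repr (x i) (φ i)) (fun i => e (φ i)), smul_eq_mul,
    mul_comm]

theorem expand_G (F : MultilinearMap k (fun _ : Fin (n + 1) => M) k) (y w : M) :
    CountN.G F y y w = ∑ φ : Fin (n + 1) → Fin r, F (fun i => e (φ i)) *
      ∑ j, e.repr w (φ j) * ∏ i : Fin n, e.repr y (φ (j.succAbove i)) := by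
  rw [CountN.G_self]
  simp only [mul_sum]
  rw [sum_comm]
  refine sum_congr rfl (fun j _ => ?_)
  rw [expand e]
  refine sum_congr rfl (fun φ _ => ?_)
  congr 1
  rw [Fin.prod_univ_succAbove _ j, Fin.insertNth_apply_same]
  simp only [Fin.insertNth_apply_succAbove]

end multi

section main

variable {L : Type*} [Field L] [CharZero L] (c : (ℕ → ℚ) →+* L)
  (h0 : ∀ f, c f = 0 ↔ ∀ᶠ k in (hyperfilter ℕ : Filter ℕ), f k = 0)
  {M : Type*} [AddCommGroup M] [Module ℚ M] {r n : ℕ} (e : Basis (Fin r) ℚ M)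
  (δ : Derivation ℚ L L) {y w : ℕ → M}
  (hw : ∀ l, c (fun k => e.repr (w k) l) = δ (c (fun k => e.repr (y k) l)))

theorem der_rat (q : ℚ) (x : L) : δ ((q : L) * x) = (q : L) * δ x := by
  rw [← Rat.smul_def, ← Rat.smul_def]
  exact (δ : L →ₗ[ℚ] L).map_smul q x

include hw

theorem der_lin (ρ : Dual ℚ M) : c (fun k => ρ (w k)) = δ (c (fun k => ρ (y k))) := by
  have h1 : ∀ x : ℕ → M, (fun k => ρ (x k)) = ∑ l, (fun _ => ρ (e l)) * fun k => e.repr (x k) l := by
    intro x
    funext k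
    rw [Finset.sum_apply]
    conv_lhs => rw [← e.sum_repr (x k)]
    rw [map_sum]
    refine sum_congr rfl (fun l _ => ?_)
    rw [map_smul, smul_eq_mul, Pi.mul_apply, mul_comm]
  rw [h1, h1, map_sum, map_sum, map_sum]
  refine sum_congr rfl (fun l _ => ?_)
  rw [map_mul, map_mul, hw, c_const, der_rat]

theorem der_multi (F : MultilinearMap ℚ (fun _ : Fin (n + 1) => M) ℚ) :
    c (fun k => CountN.G F (y k) (y k) (w k)) = δ (c (fun k => F (fun _ => y k))) := by
  classical
  have h1 : (fun k => F (fun _ => y k)) = ∑ φ : Fin (n + 1) → Fin r,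
      (fun _ => F (fun i => e (φ i))) * ∏ i, fun k => e.repr (y k) (φ i) := by
    funext k
    rw [expand e, Finset.sum_apply]
    refine sum_congr rfl (fun φ _ => ?_)
    rw [Pi.mul_apply, Finset.prod_apply]
  have h2 : (fun k => CountN.G F (y k) (y k) (w k)) = ∑ φ : Fin (n + 1) → Fin r,
      (fun _ => F (fun i => e (φ i))) * ∑ j, (fun k => e.repr (w k) (φ j)) *
        ∏ i : Fin n, fun k => e.repr (y k) (φ (j.succAbove i)) := by
    funext k
    rw [expand_G e, Finset.sum_apply]
    refine sum_congr rfl (fun φ _ => ?_)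
    rw [Pi.mul_apply, Finset.sum_apply]
    congr 1
    refine sum_congr rfl (fun j _ => ?_)
    rw [Pi.mul_apply, Finset.prod_apply]
  rw [h1, h2, map_sum, map_sum, map_sum]
  refine sum_congr rfl (fun φ _ => ?_)
  rw [map_mul, map_mul, c_const, der_rat, map_prod, der_prod, map_sum]
  congr 1
  refine sum_congr rfl (fun j _ => ?_)
  rw [map_mul, hw, map_prod]

end main

section fin

variable {M : Type*} [AddCommGroup M] [Module ℚ M] [FiniteDimensional ℚ M] {n : ℕ}

omit [FiniteDimensional ℚ M] in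
theorem G_eq_zero_of_span {I : Type*} (F : I → MultilinearMap ℚ (fun _ : Fin (n + 1) => M) ℚ)
    (B : Set (MultilinearMap ℚ (fun _ : Fin (n + 1) => M) ℚ))
    (hB : Submodule.span ℚ (Set.range F) ≤ Submodule.span ℚ B) (y w : M)
    (h : ∀ b ∈ B, CountN.G b y y w = 0) (a : I) : CountN.G (F a) y y w = 0 := by
  have h1 : F a ∈ Submodule.span ℚ B := hB (Submodule.subset_span ⟨a, rfl⟩)
  generalize F a = x at h1
  induction h1 using Submodule.span_induction with
  | mem x hx => exact h x hx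
  | zero =>
    rw [CountN.G_self]
    exact sum_eq_zero (fun j _ => rfl)
  | add a b _ _ ha hb =>
    rw [CountN.G_self] at ha hb ⊢
    simp only [_root_.add_apply, sum_add_distrib, ha, hb, add_zero]
  | smul q a _ ha =>
    rw [CountN.G_self] at ha ⊢
    simp only [_root_.smul_apply]
    rw [← smul_sum, ha, smul_zero]

theorem up_abs {L : Type*} [Field L] [CharZero L] (c : (ℕ → ℚ) →+* L)
    (h0 : ∀ f, c f = 0 ↔ ∀ᶠ k in (hyperfilter ℕ : Filter ℕ), f k = 0)
    (hs : Function.Surjective c) {I ι κ : Type*} [Finite ι] [Finite κ]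
    (F : I → MultilinearMap ℚ (fun _ : Fin (n + 1) => M) ℚ) (P : ι → Dual ℚ M) (Q : κ → Dual ℚ M)
    (y : ℕ → M) (hF : ∀ k a, F a (fun _ => y k) = 0) (hQ : ∀ k j, Q j (y k) = Q j (y 0))
    (hT : ∀ k w, (∀ a, CountN.G (F a) (y k) (y k) w = 0) → (∀ j, Q j w = 0) → ∀ i, P i w = 0) :
    ¬ Function.Injective (fun k i => P i (y k)) := by
  classical
  intro hinj
  let e := finBasis ℚ M
  -- a nonstandard coordinate
  obtain ⟨i, hi⟩ : ∃ i, ¬ ∃ q : ℚ, ∀ᶠ k in (hyperfilter ℕ : Filter ℕ), P i (y k) = q := by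
    by_contra hcon
    push Not at hcon
    choose q hq using hcon
    have h1 : ∀ᶠ k in (hyperfilter ℕ : Filter ℕ), ∀ i, P i (y k) = q i := by
      rw [eventually_all]
      exact hq
    have h2 : {k | ∀ i, P i (y k) = q i}.Infinite := by
      intro hfin
      exact (Filter.notMem_hyperfilter_of_finite hfin) h1
    obtain ⟨a, ha, b, hb, hab⟩ := h2.nontrivial
    apply hab
    apply hinj
    funext i
    exact (ha i).trans (hb i).symm
  obtain ⟨δ, hδ⟩ := exists_delta c h0 hi
  choose W hW using fun l => hs (δ (c (fun k => e.repr (y k) l)))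
  let w : ℕ → M := fun k => ∑ l, W l k • e l
  have hw : ∀ l, c (fun k => e.repr (w k) l) = δ (c (fun k => e.repr (y k) l)) := by
    intro l
    rw [← hW]
    congr 1
    funext k
    change (e.repr (∑ l, W l k • e l)) l = _
    rw [e.repr_sum_self]
  -- a finite subfamily
  obtain ⟨B, hBs, hBspan, hBli⟩ := exists_linearIndependent ℚ (Set.range F)
  have hBfin : B.Finite := hBli.setFinite
  have e1 : ∀ᶠ k in (hyperfilter ℕ : Filter ℕ), ∀ b ∈ B, CountN.G b (y k) (y k) (w k) = 0 := by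
    rw [eventually_all_finite hBfin]
    intro b hb
    obtain ⟨a, rfl⟩ := hBs hb
    rw [← h0, der_multi c e δ hw]
    have : (fun k => F a (fun _ => y k)) = 0 := funext (fun k => hF k a)
    rw [this, map_zero, map_zero]
  have e2 : ∀ᶠ k in (hyperfilter ℕ : Filter ℕ), ∀ j, Q j (w k) = 0 := by
    rw [eventually_all]
    intro j
    rw [← h0, der_lin c e δ hw]
    have : (fun k => Q j (y k)) = fun _ => Q j (y 0) := funext (fun k => hQ k j)
    rw [this, c_const]
    have h3 := der_rat δ (Q j (y 0)) 1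
    rw [mul_one, δ.map_one_eq_zero, mul_zero] at h3
    exact h3
  have e3 : ¬ ∀ᶠ k in (hyperfilter ℕ : Filter ℕ), P i (w k) = 0 := by
    rw [← h0, der_lin c e δ hw]
    exact hδ
  apply e3
  filter_upwards [e1, e2] with k h1 h2
  exact hT k (w k) (G_eq_zero_of_span F B hBspan.ge (y k) (w k) h1) h2 i

/-- **The finiteness lemma.** -/
theorem up {I ι κ : Type*} [Finite ι] [Finite κ]
    (F : I → MultilinearMap ℚ (fun _ : Fin (n + 1) => M) ℚ) (P : ι → Dual ℚ M) (Q : κ → Dual ℚ M)
    (y : ℕ → M) (hF : ∀ k a, F a (fun _ => y k) = 0) (hQ : ∀ k j, Q j (y k) = Q j (y 0))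
    (hT : ∀ k w, (∀ a, CountN.G (F a) (y k) (y k) w = 0) → (∀ j, Q j w = 0) → ∀ i, P i w = 0) :
    ¬ Function.Injective (fun k i => P i (y k)) := by
  have : CharZero (Germ (hyperfilter ℕ : Filter ℕ) ℚ) := by
    apply charZero_of_injective_ringHom
      (f := (Germ.coeRingHom (hyperfilter ℕ : Filter ℕ)).comp (Pi.constRingHom ℕ ℚ))
    exact RingHom.injective _
  refine up_abs (Germ.coeRingHom (hyperfilter ℕ : Filter ℕ)) (fun f => ?_) ?_ F P Q y hF hQ hT
  · exact Germ.coe_eq
  · intro x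
    obtain ⟨f, hf⟩ := Quotient.exists_rep x
    exact ⟨f, hf⟩

end fin

end Pool.Agent.TH813.UP
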