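import Mathlib
import Pool.Agent.TH813.Core2
import Pool.Agent.TH813.GForms
import Pool.Agent.TH813.UP

/-!
# The subspaces attached to the failures of Schanuel's inequality in a rational space
-/

set_option autoImplicit false

namespace Pool.Agent.TH813.USp

open Pool.Agent.W252 Pool.Agent.W669.Gel Module Finset
open Pool.Agent.TH813.Core Pool.Agent.TH813.Rank

variable (V : Submodule ℚ ℂ) {n : ℕ}

/-- the values of the derivations at a pair of tuples -/
noncomputable def Phi (N u : ℕ) : ((Fin N ⊕ Fin u) → V) →ₗ[ℚ]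
    (Derivation ℚ ℂ ℂ →ₗ[ℂ] (((Fin N ⊕ Fin N) ⊕ Fin u) → ℂ)) where
  toFun y :=
    { toFun := fun D => Sum.elim (cc D (fun i => (y (Sum.inl i) : ℂ)))
        (fun m => dlog D (y (Sum.inr m) : ℂ))
      map_add' := fun D D' => by
        funext k
        rcases k with k | m
        · exact congrFun (cc_add_der D D' _) k
        · exact dlog_add_der D D' _
      map_smul' := fun c D => by
        funext k
        rcases k with k | m
        · exact congrFun (cc_smul_der c D _) k
        · exact dlog_smul_der c D _ }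
  map_add' y y' := by
    ext D k
    rcases k with (i | i) | m
    · exact map_add D _ _
    · exact dlog_add D _ _
    · exact dlog_add D _ _
  map_smul' q y := by
    ext D k
    rcases k with (i | i) | m
    · exact (D : ℂ →ₗ[ℚ] ℂ).map_smul q _
    · exact (dl D).map_smul q _
    · exact (dl D).map_smul q _

theorem Phi_apply (N u : ℕ) (y : (Fin N ⊕ Fin u) → V) (D : Derivation ℚ ℂ ℂ) :
    Phi V N u y D = Sum.elim (cc D (fun i => (y (Sum.inl i) : ℂ)))
        (fun m => dlog D (y (Sum.inr m) : ℂ)) := rfl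

theorem rank_Phi {N u : ℕ} {y : (Fin N ⊕ Fin u) → V}
    (hy : ∀ D : Derivation ℚ ℂ ℂ, cc D (fun i => (y (Sum.inl i) : ℂ)) = 0 →
      ∀ m, dlog D (y (Sum.inr m) : ℂ) = 0) :
    finrank ℂ (LinearMap.range (Phi V N u y)) =
      finrank ℂ (LinearMap.range (ev (fun i => (y (Sum.inl i) : ℂ)))) := by
  apply finrank_range_eq
  ext D
  rw [LinearMap.mem_ker, LinearMap.mem_ker, Phi_apply, ev_apply]
  constructor
  · intro h
    funext k
    exact congrFun h (Sum.inl k)
  · intro h
    funext k
    rcases k with k | m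
    · exact congrFun h k
    · exact hy D h m

/-- The points of `V` whose exponential lies in the field attached to `z`. -/
def UU (z : Fin n → ℂ) : Submodule ℚ ℂ where
  carrier := {v | v ∈ V ∧ ∀ D : Derivation ℚ ℂ ℂ, cc D z = 0 → dlog D v = 0}
  add_mem' := by
    rintro a b ⟨ha, ha'⟩ ⟨hb, hb'⟩
    exact ⟨V.add_mem ha hb, fun D hD => by rw [dlog_add, ha' D hD, hb' D hD, add_zero]⟩
  zero_mem' := ⟨V.zero_mem, fun D _ => (dl D).map_zero⟩
  smul_mem' := by
    rintro c a ⟨ha, ha'⟩
    refine ⟨V.smul_mem c ha, fun D hD => ?_⟩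
    have h := (dl D).map_smul c a
    change dlog D (c • a) = c • dlog D a at h
    rw [h, ha' D hD, smul_zero]

/-- the points considered -/
structure Good (z : Fin (n + 1) → ℂ) : Prop where
  mem : ∀ i, z i ∈ V
  hB : ∀ (D : Derivation ℚ ℂ ℂ) (q : Fin (n + 1) → ℚ), (∀ i, D (z i) = 0) →
      (∀ i, dlog D (z i) = q i) → q = 0
  hr : finrank ℂ (LinearMap.range (ev z)) = n

/-- The spaces with prescribed pivots. -/
def cls (n : ℕ) {r : ℕ} (b : Basis (Fin r) ℚ V) (u : ℕ) (C : Fin u → Fin r) :
    Set (Submodule ℚ ℂ) :=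
  {U | ∃ z : Fin (n + 1) → ℂ, Good V z ∧ U = UU V z ∧ ∃ v : Fin u → V,
    (∀ i j, b.repr (v i) (C j) = if i = j then 1 else 0) ∧ (∀ i, (v i : ℂ) ∈ U) ∧
      ∀ y : V, (y : ℂ) ∈ U → y = ∑ a, b.repr y (C a) • v a}

variable [FiniteDimensional ℚ V]

theorem finite_cls (n : ℕ) {r : ℕ} (b : Basis (Fin r) ℚ V) (u : ℕ) (C : Fin u → Fin r) :
    (cls V n b u C).Finite := by
  classical
  by_contra hinf
  have hinf' : Infinite (cls V n b u C) := Set.infinite_coe_iff.2 hinf
  let f : ℕ ↪ cls V n b u C := Infinite.natEmbedding _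
  choose z hz hU v hv1 hv2 hv3 using fun k => (f k).2
  let y : ℕ → (Fin (n + 1) ⊕ Fin u) → V := fun k =>
    Sum.elim (fun i => ⟨z k i, (hz k).mem i⟩) (v k)
  have hker : ∀ k (D : Derivation ℚ ℂ ℂ), cc D (z k) = 0 → ∀ m, dlog D (v k m : ℂ) = 0 := by
    intro k D hD m
    have h1 := hv2 k m
    rw [hU k] at h1
    exact h1.2 D hD
  have hrank : ∀ k, finrank ℂ (LinearMap.range (Phi V (n + 1) u (y k))) = n := by
    intro k
    rw [rank_Phi V (y := y k) (fun D hD m => hker k D hD m)]
    exact (hz k).hr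
  refine UP.up (n := n) (I := GForms.Idx (Derivation ℚ ℂ ℂ) ((Fin (n + 1) ⊕ Fin (n + 1)) ⊕ Fin u) n)
    (ι := Fin u × Fin r) (κ := Fin u × Fin u) (GForms.F (Phi V (n + 1) u))
    (fun p => b.coord p.2 ∘ₗ LinearMap.proj (Sum.inr p.1))
    (fun p => b.coord (C p.2) ∘ₗ LinearMap.proj (Sum.inr p.1)) y ?_ ?_ ?_ ?_
  · intro k a
    exact GForms.forms_zero _ _ (hrank k).le a
  · intro k p
    change b.repr (v k p.1) (C p.2) = b.repr (v 0 p.1) (C p.2)
    rw [hv1, hv1]
  · intro k w hw hQ p
    have h1 := GForms.tangent _ (hrank k) hw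
    have h2 := Core2.core2 (ι := Fin u) (z := z k) (w := fun i => (w (Sum.inl i) : ℂ))
      (v := fun m => (v k m : ℂ)) (w' := fun m => (w (Sum.inr m) : ℂ)) (hz k).hB
      (fun D hD m => hker k D hD m) (by
        intro D hD
        obtain ⟨D', hD'⟩ := h1 D (by
          rw [Phi_apply]
          funext k'
          rcases k' with k' | m
          · exact congrFun hD k'
          · exact hker k D hD m)
        refine ⟨D', ?_, fun m => ?_⟩
        · funext k'
          exact congrFun hD' (Sum.inl k')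
        · exact congrFun hD' (Sum.inr m))
    have h3 : ((w (Sum.inr p.1) : V) : ℂ) ∈ (f k : Submodule ℚ ℂ) := by
      rw [hU k]
      exact ⟨(w (Sum.inr p.1)).2, fun D hD => (h2 D hD).2 p.1⟩
    have h4 := hv3 k _ h3
    have h5 : w (Sum.inr p.1) = 0 := by
      rw [h4]
      refine sum_eq_zero (fun a _ => ?_)
      have h6 : b.repr (w (Sum.inr p.1)) (C a) = 0 := hQ (p.1, a)
      rw [h6, zero_smul]
    change b.repr (w (Sum.inr p.1)) p.2 = 0
    rw [h5, map_zero]
    rfl
  · intro k k' hkk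
    apply f.injective
    apply Subtype.ext
    have h1 : v k = v k' := by
      funext i
      apply b.repr.injective
      ext l
      exact congrFun hkk (i, l)
    have h2 : ∀ k k', v k = v k' → (f k : Submodule ℚ ℂ) ≤ f k' := by
      intro k k' h x hx
      have hxV : x ∈ V := by
        have := hx
        rw [hU k] at this
        exact this.1
      have h3 := congrArg (fun t : V => (t : ℂ)) (hv3 k ⟨x, hxV⟩ hx)
      simp only [Submodule.coe_sum, Submodule.coe_smul] at h3
      rw [h3]
      refine Submodule.sum_mem _ (fun a _ => Submodule.smul_mem _ _ ?_)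
      rw [h]
      exact hv2 k' a
    exact le_antisymm (h2 k k' h1) (h2 k' k h1.symm)

/-- **Finiteness of the subspaces.** -/
theorem finite_UU (n : ℕ) : {U | ∃ z : Fin (n + 1) → ℂ, Good V z ∧ U = UU V z}.Finite := by
  classical
  let b := finBasis ℚ V
  refine Set.Finite.subset (Set.finite_iUnion (fun u : Fin (finrank ℚ V + 1) =>
    Set.finite_iUnion (fun C : Fin u → Fin (finrank ℚ V) => finite_cls V n b u C))) ?_
  rintro U ⟨z, hz, rfl⟩
  let U' : Submodule ℚ V := (UU V z).comap V.subtype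
  obtain ⟨J, x, hx1, hx2⟩ := GForms.exists_dual (k := ℚ) (V := U')
    (fun l : Fin (finrank ℚ V) => b.coord l ∘ₗ U'.subtype) (by
      intro x hx
      apply Subtype.ext
      apply b.repr.injective
      ext l
      exact (hx l).trans (by simp))
  have hle : finrank ℚ U' < finrank ℚ V + 1 := Nat.lt_succ_of_le (Submodule.finrank_le U')
  rw [Set.mem_iUnion]
  refine ⟨⟨finrank ℚ U', hle⟩, ?_⟩
  rw [Set.mem_iUnion]
  refine ⟨J, z, hz, rfl, fun i => (x i : V), fun i j => hx1 i j, fun i => (x i).2, ?_⟩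
  intro y hy
  have h1 := congrArg (fun t : U' => (t : V)) (hx2 ⟨y, hy⟩)
  simp only [Submodule.coe_sum, Submodule.coe_smul] at h1
  exact h1

end Pool.Agent.TH813.USp
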