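import Mathlib
import Pool.Agent.TH813.Rel3

/-!
# Where the relative Schanuel inequality fails in a rational space of finite dimension
-/

set_option autoImplicit false

namespace Pool.Agent.TH813.Rel

open Pool.Agent.W252 Pool.Agent.W669.Gel Module Finset
open Pool.Agent.TH813.Core Pool.Agent.TH813.Rank

variable (F : IntermediateField ℚ ℂ) (L : Submodule ℚ ℂ) {n : ℕ}

/-- the relative transcendence degree -/
noncomputable def trF (S : Set ℂ) : Cardinal := Algebra.trdeg F (IntermediateField.adjoin F S)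

/-- the transcendence degree of `z` and `e^z` -/
noncomputable def tz (z : Fin n → ℂ) : Cardinal := trF F (Set.range z ∪ Complex.exp '' Set.range z)

theorem trF_lt_iff (S : Set ℂ) (m : ℕ) : trF F S < m ↔ (MK F).eRk S < m := lt_iff S m

theorem le_tz_iff (m : ℕ) (z : Fin n → ℂ) :
    (m : Cardinal) ≤ tz F z ↔ m ≤ finrank ℂ (LinearMap.range (evF F z)) := by
  unfold tz trF
  rw [le_iff, Pool.Agent.H327R2.SC.EE_eq, ← rank_evF]
  exact Nat.cast_le

/-- The inequality fails at `z`. -/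
def Fails (U : Submodule ℚ ℂ) (z : Fin n → ℂ) : Prop :=
  LinearIndependent ℚ (fun i => L.mkQ (z i)) ∧ (∀ i, z i ∈ U) ∧ tz F z < n

variable {F L}

theorem comb_indepL {m : ℕ} {A : Matrix (Fin m) (Fin n) ℚ} (hA : LinearIndependent ℚ (fun i => A i))
    {z : Fin n → ℂ} (hz : LinearIndependent ℚ (fun i => L.mkQ (z i))) :
    LinearIndependent ℚ (fun i => L.mkQ (comb A z i)) := by
  let f : (Fin n → ℚ) →ₗ[ℚ] (ℂ ⧸ L) := Fintype.linearCombination ℚ (fun i => L.mkQ (z i))
  have hf : LinearMap.ker f = ⊥ := by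
    rw [LinearMap.ker_eq_bot']
    intro c hc
    funext i
    exact Fintype.linearIndependent_iff.1 hz c (by rwa [Fintype.linearCombination_apply] at hc) i
  have h1 := hA.map' f hf
  have h2 : f ∘ (fun i => A i) = fun i => L.mkQ (comb A z i) := by
    funext i
    rw [Function.comp_apply, Fintype.linearCombination_apply]
    unfold comb
    rw [map_sum]
    refine sum_congr rfl (fun j _ => ?_)
    rw [← Rat.smul_def, map_smul]
  rwa [h2] at h1

/-- minimal failures are good -/
theorem good_of {V U : Submodule ℚ ℂ} (hUV : U ≤ V) {z : Fin (n + 1) → ℂ} (hz : Fails F L U z)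
    (h2 : ∀ x : Fin n → ℂ, ¬ Fails F L U x) : GoodF F V z := by
  classical
  obtain ⟨hli, hzU, h3⟩ := hz
  have hle : finrank ℂ (LinearMap.range (evF F z)) ≤ n := by
    have h4 := mt (le_tz_iff F (n + 1) z).2 (not_le.2 h3)
    omega
  have hcU : ∀ A : Matrix (Fin n) (Fin (n + 1)) ℚ, ∀ i, comb A z i ∈ U := by
    intro A i
    refine U.sum_mem (fun j _ => ?_)
    rw [← Rat.smul_def]
    exact U.smul_mem _ (hzU j)
  have hge : ∀ A : Matrix (Fin n) (Fin (n + 1)) ℚ, LinearIndependent ℚ (fun i => A i) →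
      n ≤ finrank ℂ (LinearMap.range (evF F (comb A z))) := by
    intro A hA
    rw [← le_tz_iff]
    by_contra hcon
    exact h2 _ ⟨comb_indepL hA hli, hcU A, not_le.1 hcon⟩
  refine ⟨fun i => hUV (hzU i), ?_, ?_⟩
  · intro D hF q hD hq
    by_contra hne
    obtain ⟨A, hA, hA2⟩ := exists_ortho q
    have h4 := hge A hA
    have h5 := rank_lossF F A z hF (by
      intro h0
      apply hne
      funext i
      have h6 := (cc_eq_zero.1 h0).2 i
      rw [hq i] at h6
      exact_mod_cast h6) (by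
      funext k
      rcases k with i | i
      · change ∑ j, (A i j : ℂ) * D (z j) = 0
        exact sum_eq_zero (fun j _ => by rw [hD j, mul_zero])
      · change ∑ j, (A i j : ℂ) * dlog D (z j) = 0
        have h7 : ∑ j, (A i j : ℂ) * dlog D (z j) = ((∑ j, A i j * q j : ℚ) : ℂ) := by
          push_cast
          exact sum_congr rfl (fun j _ => by rw [hq j])
        rw [h7, hA2 i, Rat.cast_zero])
    omega
  · apply le_antisymm hle
    obtain ⟨A, hA, -⟩ := exists_ortho (0 : Fin (n + 1) → ℚ)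
    refine (hge A hA).trans ?_
    rw [← lm_evF, LinearMap.range_comp]
    exact Submodule.finrank_map_le _ _

variable (F L)

/-- the subspaces -/
def TF (V : Submodule ℚ ℂ) : Set (Submodule ℚ ℂ) :=
  {W | ∃ (n : ℕ) (z : Fin (n + 1) → ℂ), LinearIndependent ℚ (fun i => L.mkQ (z i)) ∧
    GoodF F V z ∧ W = UF F V z}

theorem finite_TF (V : Submodule ℚ ℂ) [FiniteDimensional ℚ V] : (TF F L V).Finite := by
  refine Set.Finite.subset (Set.finite_iUnion (fun n : Fin (finrank ℚ V) => finite_UF F V n)) ?_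
  rintro W ⟨n, z, hz, hg, rfl⟩
  have h0 : LinearIndependent ℚ z := LinearIndependent.of_comp L.mkQ hz
  have h1 : LinearIndependent ℚ (fun i => (⟨z i, hg.mem i⟩ : V)) := by
    apply LinearIndependent.of_comp V.subtype
    exact h0
  have h2 := h1.fintype_card_le_finrank
  rw [Fintype.card_fin] at h2
  exact Set.mem_iUnion.2 ⟨⟨n, h2⟩, z, hg, rfl⟩

variable {F L}

/-- the space spanned by a failure -/
theorem span_props {V : Submodule ℚ ℂ} {z : Fin (n + 1) → ℂ}
    (hz : LinearIndependent ℚ (fun i => L.mkQ (z i))) (hg : GoodF F V z) :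
    Submodule.span ℚ (Set.range z) ⊓ L = ⊥ ∧
      trF F ((Submodule.span ℚ (Set.range z) : Set ℂ) ∪ Complex.exp '' (UF F V z : Set ℂ)) <
        finrank ℚ (Submodule.span ℚ (Set.range z)) := by
  have h0 : LinearIndependent ℚ z := LinearIndependent.of_comp L.mkQ hz
  constructor
  · rw [eq_bot_iff]
    rintro x ⟨hx, hxL⟩
    obtain ⟨c, rfl⟩ := (Submodule.mem_span_range_iff_exists_fun ℚ).1 hx
    have h1 : ∑ i, c i • L.mkQ (z i) = 0 := by
      have h2 : L.mkQ (∑ i, c i • z i) = 0 := by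
        rw [Submodule.mkQ_apply, Submodule.Quotient.mk_eq_zero]
        exact hxL
      rw [map_sum] at h2
      simpa only [map_smul] using h2
    have h3 := Fintype.linearIndependent_iff.1 hz c h1
    simp only [h3, zero_smul, sum_const_zero]
    exact Submodule.zero_mem _
  · rw [finrank_span_eq_card h0, Fintype.card_fin, trF_lt_iff]
    have h1 : ((Submodule.span ℚ (Set.range z) : Set ℂ) ∪ Complex.exp '' (UF F V z : Set ℂ)) ⊆
        (MK F).closure (KF F z : Set ℂ) := by
      rintro x (hx | ⟨w, hw, rfl⟩)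
      · have h2 : Submodule.span ℚ (Set.range z) ≤ clF F (KF F z : Set ℂ) := by
          rw [Submodule.span_le]
          rintro _ ⟨i, rfl⟩
          exact subset_cl (k := F) _ (fun D _ hD => (cc_eq_zero.1 hD).1 i)
        exact h2 hx
      · exact subset_cl (k := F) _ (fun D hF hD => dlog_eq_zero.1 (hw.2 D hF hD))
    refine lt_of_le_of_lt (rk_le_of_subset_cl h1) (lt_of_le_of_lt (rk_KF F z) ?_)
    rw [hg.hr, Nat.cast_lt]
    omega

variable (F L)

/-- **Main theorem.** -/
theorem main (V : Submodule ℚ ℂ) [FiniteDimensional ℚ V] :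
    ∃ T : Finset (Submodule ℚ ℂ),
      (∀ W ∈ T, W ≤ V ∧ (∀ x ∈ V, Complex.exp x ∈ F → x ∈ W) ∧
        ∃ W' ≤ W, W' ⊓ L = ⊥ ∧ trF F ((W' : Set ℂ) ∪ Complex.exp '' (W : Set ℂ)) <
          finrank ℚ W') ∧
      ∀ U : Submodule ℚ ℂ, U ≤ V →
        ((∃ (m : ℕ) (z : Fin m → ℂ), Fails F L U z) ↔
          ∃ W ∈ T, ∃ U' ≤ U ⊓ W, U' ⊓ L = ⊥ ∧
            trF F ((U' : Set ℂ) ∪ Complex.exp '' (W : Set ℂ)) < finrank ℚ U') := by
  classical
  set T := (finite_TF F L V).toFinset with hTdef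
  have hTm : ∀ W, W ∈ T ↔ W ∈ TF F L V := fun W => by rw [hTdef, Set.Finite.mem_toFinset]
  have hspan : ∀ (n : ℕ) (z : Fin (n + 1) → ℂ), GoodF F V z →
      Submodule.span ℚ (Set.range z) ≤ UF F V z := by
    intro n z hg
    rw [Submodule.span_le]
    rintro _ ⟨i, rfl⟩
    exact ⟨hg.mem i, fun D _ hD => (cc_eq_zero.1 hD).2 i⟩
  refine ⟨T, fun W hW => ?_, fun U hUV => ⟨?_, ?_⟩⟩
  · obtain ⟨n, z, hz, hg, rfl⟩ := (hTm W).1 hW
    obtain ⟨h1, h2⟩ := span_props hz hg
    exact ⟨fun x hx => hx.1, fun x hx hxF => ⟨hx, fun D hF _ => dlog_eq_zero.2 (hF _ hxF)⟩,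
      _, hspan n z hg, h1, h2⟩
  · intro hfail
    have hP : ∃ m, ∃ z : Fin m → ℂ, Fails F L U z := hfail
    obtain ⟨n, hn⟩ : ∃ n, Nat.find hP = n + 1 := by
      apply Nat.exists_eq_succ_of_ne_zero
      intro h0
      have h1 : ∃ z : Fin 0 → ℂ, Fails F L U z := by rw [← h0]; exact Nat.find_spec hP
      obtain ⟨z, -, -, h⟩ := h1
      rw [Nat.cast_zero] at h
      exact absurd h (not_lt.2 (zero_le))
    have hspec := Nat.find_spec hP
    rw [hn] at hspec
    obtain ⟨z, hz⟩ := hspec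
    have hg : GoodF F V z := by
      refine good_of hUV hz ?_
      intro x hx
      have h6 := Nat.find_min' hP ⟨x, hx⟩
      omega
    obtain ⟨h1, h2⟩ := span_props hz.1 hg
    refine ⟨UF F V z, (hTm _).2 ⟨n, z, hz.1, hg, rfl⟩, Submodule.span ℚ (Set.range z),
      le_inf ?_ (hspan n z hg), h1, h2⟩
    rw [Submodule.span_le]
    rintro _ ⟨i, rfl⟩
    exact hz.2.1 i
  · rintro ⟨W, hW, U', hU', hL, h⟩
    have : FiniteDimensional ℚ U' :=
      Submodule.finiteDimensional_of_le (hU'.trans (inf_le_left.trans hUV))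
    let b := finBasis ℚ U'
    refine ⟨finrank ℚ U', fun i => (b i : ℂ), ?_, fun i => (hU' (b i).2).1, ?_⟩
    · have h1 : LinearMap.ker (L.mkQ ∘ₗ U'.subtype) = ⊥ := by
        rw [eq_bot_iff]
        intro x hx
        rw [LinearMap.mem_ker, LinearMap.comp_apply, Submodule.mkQ_apply,
          Submodule.Quotient.mk_eq_zero] at hx
        have h2 : (x : ℂ) ∈ U' ⊓ L := ⟨x.2, hx⟩
        rw [hL, Submodule.mem_bot] at h2
        rw [Submodule.mem_bot]
        exact Subtype.ext h2
      exact b.linearIndependent.map' _ h1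
    · rw [trF_lt_iff] at h
      unfold tz
      rw [trF_lt_iff]
      refine lt_of_le_of_lt ((MK F).eRk_mono ?_) h
      rintro x (⟨i, rfl⟩ | ⟨_, ⟨i, rfl⟩, rfl⟩)
      · exact Or.inl (b i).2
      · exact Or.inr ⟨_, (hU' (b i).2).2, rfl⟩

end Pool.Agent.TH813.Rel
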