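import Mathlib
import Pool.Agent.TH813.Rel4
import Pool.Agent.TH813.EllCore

/-!
# The transcendence degree as a rank, for exponentials and elliptic functions
-/

set_option autoImplicit false

open Finset Module
open scoped PeriodPair

noncomputable section

namespace Pool.Agent.TH813.Ell

open H667R3 Pool.Agent.W245.EB
open Pool.Agent.W252 Pool.Agent.W669.Gel
open Pool.Agent.TH813.Core Pool.Agent.TH813.Rank
open Pool.Agent.TH813.Rel (DF MK mem_cl subset_cl kills_clF exists_derF rk_le_of_subset_cl)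

variable {L : PeriodPair} {s n : ℕ} {F : IntermediateField ℚ ℂ}

/-- the algebraic closure is the common kernel of the derivations -/
theorem mem_cl_iff (S : Set ℂ) (x : ℂ) :
    x ∈ (MK F).closure S ↔ ∀ D ∈ DF F, (∀ y ∈ S, D y = 0) → D x = 0 := by
  classical
  constructor
  · intro hx D hF hD
    exact kills_clF F hF hD hx
  · intro h
    by_contra hcon
    obtain ⟨I, hI⟩ := (MK F).exists_isBasis S (Set.subset_univ _)
    rw [← hI.closure_eq_closure] at hcon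
    obtain ⟨h1, h2⟩ := (hI.indep.notMem_closure_iff (Set.mem_univ _)).1 hcon
    have hind : AlgebraicIndependent F (fun i : ↥(insert x I) => (i : ℂ)) := h1
    obtain ⟨D, hF, hD⟩ := exists_derF F hind (fun i => if (i : ℂ) = x then 1 else 0)
    have h0 : ∀ i ∈ I, D i = 0 := by
      intro i hi
      rw [hD ⟨i, Or.inr hi⟩, if_neg]
      intro h
      have h' : i = x := h
      exact h2 (h' ▸ hi)
    have h4 := h D hF (fun w hw =>
      kills_clF F hF h0 (by rw [hI.closure_eq_closure]; exact subset_cl _ hw))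
    rw [hD ⟨x, Or.inl rfl⟩, if_pos rfl] at h4
    exact one_ne_zero h4

/-- the rank of a map whose kernel consists of the derivations which kill `S` -/
theorem rank_of_ker (S : Set ℂ) (hS : S.Finite) {ι : Type*} (f : DF F →ₗ[ℂ] (ι → ℂ))
    (h : ∀ D : DF F, f D = 0 ↔ ∀ x ∈ S, (D : Derivation ℚ ℂ ℂ) x = 0) :
    ((finrank ℂ (LinearMap.range f) : ℕ) : ℕ∞) = (MK F).eRk S := by
  classical
  obtain ⟨I, hI⟩ := (MK F).exists_isBasis S (Set.subset_univ _)
  have hIfin : I.Finite := hS.subset hI.subset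
  have : Fintype I := hIfin.fintype
  let ρ : DF F →ₗ[ℂ] (I → ℂ) :=
    { toFun := fun D i => (D : Derivation ℚ ℂ ℂ) i
      map_add' := fun D D' => rfl
      map_smul' := fun c D => rfl }
  have hind : AlgebraicIndependent F (fun i : I => (i : ℂ)) := hI.indep
  have hsurj : Function.Surjective ρ := by
    intro v
    obtain ⟨D, hF, hD⟩ := exists_derF F hind v
    exact ⟨⟨D, hF⟩, funext hD⟩
  have hker : LinearMap.ker f = LinearMap.ker ρ := by
    ext D
    rw [LinearMap.mem_ker, LinearMap.mem_ker, h]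
    constructor
    · intro h1
      funext i
      exact h1 _ (hI.subset i.2)
    · intro h1 w hw
      have h0 : ∀ i ∈ I, (D : Derivation ℚ ℂ ℂ) i = 0 := fun i hi => congrFun h1 ⟨i, hi⟩
      exact kills_clF F D.2 h0 (by rw [hI.closure_eq_closure]; exact subset_cl _ hw)
  rw [finrank_range_eq f ρ hker, LinearMap.range_eq_top.2 hsurj, finrank_top,
    finrank_fintype_fun_eq_card]
  have h1 : I.encard = (MK F).eRk S := hI.encard_eq_eRk
  rw [← h1, ← Set.coe_fintypeCard]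

/-- the numbers attached to four sets -/
def SM (L : PeriodPair) (X₁ W₁ X₂ W₂ : Set ℂ) : Set ℂ :=
  (X₁ ∪ Complex.exp '' W₁) ∪ (X₂ ∪ (zt L '' X₂ ∪ ℘[L] '' (W₂ \ (L.lattice : Set ℂ))))

/-- the numbers attached to a point -/
def EM (L : PeriodPair) (t : Fin s → ℂ) (p : Fin n → ℂ) : Set ℂ :=
  SM L (Set.range t) (Set.range t) (Set.range p) (Set.range p)

theorem SM_finite {X₁ W₁ X₂ W₂ : Set ℂ} (h1 : X₁.Finite) (h2 : W₁.Finite) (h3 : X₂.Finite)
    (h4 : W₂.Finite) : (SM L X₁ W₁ X₂ W₂).Finite :=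
  (h1.union (h2.image _)).union (h3.union ((h3.image _).union
    ((h4.subset Set.sdiff_subset).image _)))

theorem EM_finite (t : Fin s → ℂ) (p : Fin n → ℂ) : (EM L t p).Finite :=
  SM_finite (Set.finite_range _) (Set.finite_range _) (Set.finite_range _) (Set.finite_range _)

theorem SM_mono {X₁ W₁ X₂ W₂ X₁' W₁' X₂' W₂' : Set ℂ} (h1 : X₁ ⊆ X₁') (h2 : W₁ ⊆ W₁')
    (h3 : X₂ ⊆ X₂') (h4 : W₂ ⊆ W₂') : SM L X₁ W₁ X₂ W₂ ⊆ SM L X₁' W₁' X₂' W₂' :=
  Set.union_subset_union (Set.union_subset_union h1 (Set.image_mono h2))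
    (Set.union_subset_union h3 (Set.union_subset_union (Set.image_mono h3)
      (Set.image_mono (Set.sdiff_subset_sdiff_left h4))))

theorem cm_zero_iff (h2 : L.g₂ ∈ F) (h3 : L.g₃ ∈ F) {t : Fin s → ℂ} {p : Fin n → ℂ}
    {D : Derivation ℚ ℂ ℂ} (hF : D ∈ DF F) : cm L D t p = 0 ↔ ∀ x ∈ EM L t p, D x = 0 := by
  constructor
  · intro h
    obtain ⟨h4, h5⟩ := cm_eq_zero.1 h
    obtain ⟨h6, h7⟩ := cc_eq_zero.1 h4
    rintro x ((⟨i, rfl⟩ | ⟨_, ⟨i, rfl⟩, rfl⟩) | (⟨i, rfl⟩ | (⟨_, ⟨i, rfl⟩, rfl⟩ |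
      ⟨_, ⟨⟨i, rfl⟩, hz⟩, rfl⟩)))
    · exact h6 i
    · exact dlog_eq_zero.1 (h7 i)
    · exact (h5 i).1
    · exact zt_killed (h5 i).2.1 (h5 i).2.2
    · exact (wp_killed (hF _ h2) (hF _ h3) (h5 i).2.1 hz).1
  · intro h
    refine cm_eq_zero.2 ⟨cc_eq_zero.2 ⟨fun i => h _ (Or.inl (Or.inl ⟨i, rfl⟩)),
      fun i => dlog_eq_zero.2 (h _ (Or.inl (Or.inr ⟨_, ⟨i, rfl⟩, rfl⟩)))⟩, fun i => ?_⟩
    have hom : om L D (p i) = 0 := by
      by_cases hz : p i ∈ L.lattice
      · exact om_of_mem L D hz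
      · unfold om
        rw [h _ (Or.inr (Or.inr (Or.inr ⟨_, ⟨⟨i, rfl⟩, hz⟩, rfl⟩))), zero_div]
    refine ⟨h _ (Or.inr (Or.inl ⟨i, rfl⟩)), hom, ?_⟩
    unfold et
    rw [hom, mul_zero, add_zero]
    exact h _ (Or.inr (Or.inr (Or.inl ⟨_, ⟨i, rfl⟩, rfl⟩)))

theorem rank_evM (h2 : L.g₂ ∈ F) (h3 : L.g₃ ∈ F) (t : Fin s → ℂ) (p : Fin n → ℂ) :
    ((finrank ℂ (LinearMap.range (evM L F t p)) : ℕ) : ℕ∞) = (MK F).eRk (EM L t p) :=
  rank_of_ker _ (EM_finite t p) _ (fun D => cm_zero_iff h2 h3 D.2)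

theorem KM_eq (h2 : L.g₂ ∈ F) (h3 : L.g₃ ∈ F) (t : Fin s → ℂ) (p : Fin n → ℂ) :
    (KM L F t p : Set ℂ) = (MK F).closure (EM L t p) := by
  ext x
  rw [mem_cl_iff]
  constructor
  · intro h D hF hD
    exact h D hF ((cm_zero_iff h2 h3 hF).2 hD)
  · intro h D hF hD
    exact h D hF ((cm_zero_iff h2 h3 hF).1 hD)

theorem rk_KM (h2 : L.g₂ ∈ F) (h3 : L.g₃ ∈ F) (t : Fin s → ℂ) (p : Fin n → ℂ) :
    (MK F).eRk (KM L F t p : Set ℂ) = (finrank ℂ (LinearMap.range (evM L F t p)) : ℕ) := by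
  rw [rank_evM h2 h3, KM_eq h2 h3, (MK F).eRk_closure_eq]

/-! ## Rational combinations -/

/-- the linear map on the coordinates which belongs to a pair of matrices -/
def lmM {s' n' : ℕ} (A₁ : Matrix (Fin s') (Fin s) ℚ) (A₂ : Matrix (Fin n') (Fin n) ℚ) :
    (Ix s n → ℂ) →ₗ[ℂ] (Ix s' n' → ℂ) where
  toFun := fun w => Sum.elim (Sum.elim (fun i => ∑ j, (A₁ i j : ℂ) * w (Sum.inl (Sum.inl j)))
      (fun i => ∑ j, (A₁ i j : ℂ) * w (Sum.inl (Sum.inr j))))
    (Sum.elim (fun i => ∑ j, (A₂ i j : ℂ) * w (Sum.inr (Sum.inl j)))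
      (Sum.elim (fun i => ∑ j, (A₂ i j : ℂ) * w (Sum.inr (Sum.inr (Sum.inl j))))
        (fun i => ∑ j, (A₂ i j : ℂ) * w (Sum.inr (Sum.inr (Sum.inr j))))))
  map_add' := fun w w' => by
    funext k
    rcases k with (i | i) | i | i | i <;> simp [mul_add, sum_add_distrib]
  map_smul' := fun c w => by
    funext k
    rcases k with (i | i) | i | i | i <;> simp [mul_sum, mul_left_comm]

theorem comb_smul {m : ℕ} (A : Matrix (Fin m) (Fin n) ℚ) (z : Fin n → ℂ) (i : Fin m) :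
    comb A z i = ∑ j, A i j • z j := by
  unfold comb
  exact sum_congr rfl (fun j _ => (Rat.smul_def _ _).symm)

theorem lmM_evM (h2 : L.g₂ ∈ F) (h3 : L.g₃ ∈ F) {s' n' : ℕ} (A₁ : Matrix (Fin s') (Fin s) ℚ)
    (A₂ : Matrix (Fin n') (Fin n) ℚ) (t : Fin s → ℂ) (p : Fin n → ℂ) :
    lmM A₁ A₂ ∘ₗ evM L F t p = evM L F (comb A₁ t) (comb A₂ p) := by
  ext D k
  have h := cc_comb A₁ (D : Derivation ℚ ℂ ℂ) t
  have hF := D.2
  rcases k with (i | i) | i | i | i
  · exact (h.1 i).symm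
  · exact (h.2 i).symm
  · exact ((cc_comb A₂ (D : Derivation ℚ ℂ ℂ) p).1 i).symm
  · change ∑ j, (A₂ i j : ℂ) * om L (D : Derivation ℚ ℂ ℂ) (p j) =
      om L (D : Derivation ℚ ℂ ℂ) (comb A₂ p i)
    rw [comb_smul, om_lin _ (hF _ h2) (hF _ h3)]
  · change ∑ j, (A₂ i j : ℂ) * et L (D : Derivation ℚ ℂ ℂ) (p j) =
      et L (D : Derivation ℚ ℂ ℂ) (comb A₂ p i)
    rw [comb_smul, et_lin _ (hF _ h2) (hF _ h3)]

theorem comb_one (z : Fin n → ℂ) : comb (1 : Matrix (Fin n) (Fin n) ℚ) z = z := by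
  funext i
  unfold comb
  rw [sum_eq_single i]
  · rw [Matrix.one_apply_eq, Rat.cast_one, one_mul]
  · intro j _ hj
    rw [Matrix.one_apply_ne hj.symm, Rat.cast_zero, zero_mul]
  · intro h; exact absurd (mem_univ i) h

/-- independent vectors in the kernel give a rank loss -/
theorem rank_loss_gen {E X Y : Type*} [AddCommGroup E] [Module ℂ E] [AddCommGroup X] [Module ℂ X]
    [FiniteDimensional ℂ X] [AddCommGroup Y] [Module ℂ Y] (f : X →ₗ[ℂ] Y) (g : E →ₗ[ℂ] X) {k : ℕ}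
    (x : Fin k → X) (hx : LinearIndependent ℂ x) (h1 : ∀ i, x i ∈ LinearMap.range g)
    (h2 : ∀ i, f (x i) = 0) :
    finrank ℂ (LinearMap.range (f ∘ₗ g)) + k ≤ finrank ℂ (LinearMap.range g) := by
  let f' : LinearMap.range g →ₗ[ℂ] Y := f ∘ₗ (LinearMap.range g).subtype
  have h3 := f'.finrank_range_add_finrank_ker
  have h4 : LinearMap.range f' = LinearMap.range (f ∘ₗ g) := by
    rw [LinearMap.range_comp, LinearMap.range_comp, Submodule.range_subtype]
  have h5 : k ≤ finrank ℂ (LinearMap.ker f') := by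
    have h6 : LinearIndependent ℂ (fun i => (⟨⟨x i, h1 i⟩, h2 i⟩ : LinearMap.ker f')) := by
      apply LinearIndependent.of_comp ((LinearMap.range g).subtype ∘ₗ (LinearMap.ker f').subtype)
      exact hx
    have h7 := h6.fintype_card_le_finrank
    rwa [Fintype.card_fin] at h7
  rw [h4] at h3
  omega

theorem indep_two {q : Fin n → ℂ} (hq : q ≠ 0) :
    LinearIndependent ℂ (![OMv q, ETv q] : Fin 2 → (Ix s n → ℂ)) := by
  obtain ⟨i, hi⟩ := Function.ne_iff.1 hq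
  rw [LinearIndependent.pair_iff]
  intro a b hab
  have h1 := congrFun hab (Sum.inr (Sum.inr (Sum.inl i)))
  have h2 := congrFun hab (Sum.inr (Sum.inr (Sum.inr i)))
  have e1 : a * q i + b * 0 = 0 := h1
  have e2 : a * 0 + b * q i = 0 := h2
  rw [mul_zero, add_zero] at e1
  rw [mul_zero, zero_add] at e2
  exact ⟨(mul_eq_zero.1 e1).resolve_right hi, (mul_eq_zero.1 e2).resolve_right hi⟩

theorem sum_mul_zero (a : Fin n → ℚ) : ∑ j, (a j : ℂ) * (0 : ℂ) = 0 := by simp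

/-- the loss of rank at an exponential -/
theorem loss_one (h2 : L.g₂ ∈ F) (h3 : L.g₃ ∈ F) {t : Fin (s + 1) → ℂ} {p : Fin n → ℂ}
    {D : Derivation ℚ ℂ ℂ} (hF : D ∈ DF F) {q : Fin (s + 1) → ℚ} (hq : q ≠ 0)
    (hD : cm L D t p = LGv (fun i => (q i : ℂ))) {A : Matrix (Fin s) (Fin (s + 1)) ℚ}
    (hA : ∀ i, ∑ j, A i j * q j = 0) :
    finrank ℂ (LinearMap.range (evM L F (comb A t) p)) + 1 ≤
      finrank ℂ (LinearMap.range (evM L F t p)) := by
  have h := rank_loss_gen (lmM A (1 : Matrix (Fin n) (Fin n) ℚ)) (evM L F t p)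
    (k := 1) (fun _ => cm L D t p) (by
      rw [linearIndependent_unique_iff, hD]
      intro h0
      apply hq
      funext i
      have := congrFun h0 (Sum.inl (Sum.inr i))
      have h' : ((q i : ℚ) : ℂ) = 0 := this
      exact_mod_cast h') (fun _ => ⟨⟨D, hF⟩, rfl⟩) (fun _ => by
      rw [hD]
      funext k
      rcases k with (i | i) | i | i | i
      · exact sum_mul_zero (A i)
      · change ∑ j, (A i j : ℂ) * (q j : ℂ) = 0
        exact_mod_cast congrArg (fun x : ℚ => (x : ℂ)) (hA i)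
      · exact sum_mul_zero ((1 : Matrix (Fin n) (Fin n) ℚ) i)
      · exact sum_mul_zero ((1 : Matrix (Fin n) (Fin n) ℚ) i)
      · exact sum_mul_zero ((1 : Matrix (Fin n) (Fin n) ℚ) i))
  rw [lmM_evM h2 h3, comb_one] at h
  exact h

/-- the loss of rank at a point of the elliptic curve -/
theorem loss_two (h2 : L.g₂ ∈ F) (h3 : L.g₃ ∈ F) {t : Fin s → ℂ} {p : Fin (n + 1) → ℂ}
    {D D' : Derivation ℚ ℂ ℂ} (hF : D ∈ DF F) (hF' : D' ∈ DF F) {q : Fin (n + 1) → ℚ} (hq : q ≠ 0)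
    (hD : cm L D t p = OMv (fun i => (q i : ℂ))) (hD' : cm L D' t p = ETv (fun i => (q i : ℂ)))
    {A : Matrix (Fin n) (Fin (n + 1)) ℚ} (hA : ∀ i, ∑ j, A i j * q j = 0) :
    finrank ℂ (LinearMap.range (evM L F t (comb A p))) + 2 ≤
      finrank ℂ (LinearMap.range (evM L F t p)) := by
  have hq' : (fun i => (q i : ℂ)) ≠ 0 := by
    intro h0
    apply hq
    funext i
    have h' : ((q i : ℚ) : ℂ) = 0 := congrFun h0 i
    exact_mod_cast h'
  have h := rank_loss_gen (lmM (1 : Matrix (Fin s) (Fin s) ℚ) A) (evM L F t p)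
    (k := 2) _ (indep_two (s := s) hq') (fun i => by
      refine Fin.cases ?_ (fun j => ?_) i
      · exact ⟨⟨D, hF⟩, hD⟩
      · have : j = 0 := Subsingleton.elim _ _
        rw [this]
        exact ⟨⟨D', hF'⟩, hD'⟩) (fun i => by
      refine Fin.cases ?_ (fun j => ?_) i
      · change lmM (1 : Matrix (Fin s) (Fin s) ℚ) A (OMv (fun i => (q i : ℂ))) = 0
        funext k
        rcases k with (i | i) | i | i | i
        · exact sum_mul_zero ((1 : Matrix (Fin s) (Fin s) ℚ) i)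
        · exact sum_mul_zero ((1 : Matrix (Fin s) (Fin s) ℚ) i)
        · exact sum_mul_zero (A i)
        · change ∑ j, (A i j : ℂ) * (q j : ℂ) = 0
          exact_mod_cast congrArg (fun x : ℚ => (x : ℂ)) (hA i)
        · exact sum_mul_zero (A i)
      · have : j = 0 := Subsingleton.elim _ _
        rw [this]
        change lmM (1 : Matrix (Fin s) (Fin s) ℚ) A (ETv (fun i => (q i : ℂ))) = 0
        funext k
        rcases k with (i | i) | i | i | i
        · exact sum_mul_zero ((1 : Matrix (Fin s) (Fin s) ℚ) i)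
        · exact sum_mul_zero ((1 : Matrix (Fin s) (Fin s) ℚ) i)
        · exact sum_mul_zero (A i)
        · exact sum_mul_zero (A i)
        · change ∑ j, (A i j : ℂ) * (q j : ℂ) = 0
          exact_mod_cast congrArg (fun x : ℚ => (x : ℂ)) (hA i))
  rw [lmM_evM h2 h3, comb_one] at h
  exact h

theorem rank_comb_le (h2 : L.g₂ ∈ F) (h3 : L.g₃ ∈ F) {s' n' : ℕ}
    (A₁ : Matrix (Fin s') (Fin s) ℚ) (A₂ : Matrix (Fin n') (Fin n) ℚ) (t : Fin s → ℂ)
    (p : Fin n → ℂ) : finrank ℂ (LinearMap.range (evM L F (comb A₁ t) (comb A₂ p))) ≤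
      finrank ℂ (LinearMap.range (evM L F t p)) := by
  rw [← lmM_evM h2 h3, LinearMap.range_comp]
  exact Submodule.finrank_map_le _ _

end Pool.Agent.TH813.Ell
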