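import Mathlib
import Pool.Agent.TH813.UP

/-!
# A uniform finiteness lemma

Linear maps which are infinitesimally constant at the rational points of an intersection of forms
take a number of values which is bounded in terms of the number of variables and the degree only.
The proof uses an ultraproduct and the uncountability of the set of internal points.
-/

set_option autoImplicit false

namespace Pool.Agent.TH813.Uni

open Module Finset Filter Pool.Agent.TH813.UP

section der

variable {L : Type*} [Field L] [CharZero L] (c : (ℕ → ℚ) →+* L)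
  (h0 : ∀ f, c f = 0 ↔ ∀ᶠ k in (hyperfilter ℕ : Filter ℕ), f k = 0)
  {M : Type*} [AddCommGroup M] [Module ℚ M] {r n : ℕ} (e : Basis (Fin r) ℚ M)
  (δ : Derivation ℚ L L) {y w : ℕ → M}
  (hw : ∀ l, c (fun k => e.repr (w k) l) = δ (c (fun k => e.repr (y k) l)))

include hw

/-- the derivative of an internal form with constant coefficients -/
theorem der_multi (F : ℕ → MultilinearMap ℚ (fun _ : Fin (n + 1) => M) ℚ)
    (hF : ∀ φ : Fin (n + 1) → Fin r, δ (c (fun k => F k (fun i => e (φ i)))) = 0) :
    c (fun k => CountN.G (F k) (y k) (y k) (w k)) = δ (c (fun k => F k (fun _ => y k))) := by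
  classical
  have h1 : (fun k => F k (fun _ => y k)) = ∑ φ : Fin (n + 1) → Fin r,
      (fun k => F k (fun i => e (φ i))) * ∏ i, fun k => e.repr (y k) (φ i) := by
    funext k
    rw [expand e, Finset.sum_apply]
    refine sum_congr rfl (fun φ _ => ?_)
    rw [Pi.mul_apply, Finset.prod_apply]
  have h2 : (fun k => CountN.G (F k) (y k) (y k) (w k)) = ∑ φ : Fin (n + 1) → Fin r,
      (fun k => F k (fun i => e (φ i))) * ∑ j, (fun k => e.repr (w k) (φ j)) *
        ∏ i : Fin n, fun k => e.repr (y k) (φ (j.succAbove i)) := by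
    funext k
    rw [expand_G e, Finset.sum_apply]
    refine sum_congr rfl (fun φ _ => ?_)
    rw [Pi.mul_apply, Finset.sum_apply]
    congr 1
    refine sum_congr rfl (fun j _ => ?_)
    rw [Pi.mul_apply, Finset.prod_apply]
  rw [h1, h2, map_sum, map_sum, map_sum]
  refine sum_congr rfl (fun φ _ => ?_)
  rw [map_mul, map_mul, Derivation.leibniz, hF, smul_zero, add_zero, map_prod, der_prod, map_sum,
    smul_eq_mul]
  congr 1
  refine sum_congr rfl (fun j _ => ?_)
  rw [map_mul, hw, map_prod]

end der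

/-- a generating family of fixed length -/
theorem exists_gen {X : Type*} [AddCommGroup X] [Module ℚ X] {s : ℕ} (e : Basis (Fin s) ℚ X)
    (S : Submodule ℚ X) : ∃ B : Fin s → X, (∀ i, B i ∈ S) ∧ S ≤ Submodule.span ℚ (Set.range B) := by
  obtain ⟨g, hg⟩ := S.subtype.exists_leftInverse_of_injective (LinearMap.ker_eq_bot.2
    Subtype.val_injective)
  refine ⟨fun i => (g (e i) : X), fun i => (g (e i)).2, fun f hf => ?_⟩
  have h1 : g f = ⟨f, hf⟩ := by
    have := congrArg (fun t => t (⟨f, hf⟩ : S)) hg
    exact this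
  have h2 : f = ∑ i, e.repr f i • (g (e i) : X) := by
    have h3 := congrArg g (e.sum_repr f)
    rw [map_sum, h1] at h3
    have h4 := congrArg Subtype.val h3
    simp only [map_smul, Submodule.coe_sum, Submodule.coe_smul] at h4
    exact h4.symm
  rw [h2]
  exact Submodule.sum_mem _ (fun i _ => Submodule.smul_mem _ _ (Submodule.subset_span ⟨i, rfl⟩))

section abs

variable {n : ℕ} {M : Type} [AddCommGroup M] [Module ℚ M] [FiniteDimensional ℚ M]

theorem unif_abs {L : Type} [Field L] [CharZero L] (c : (ℕ → ℚ) →+* L)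
    (h0 : ∀ f, c f = 0 ↔ ∀ᶠ k in (hyperfilter ℕ : Filter ℕ), f k = 0)
    (hs : Function.Surjective c) {ι κ : Type} [Finite ι] [Finite κ]
    (P : ι → Dual ℚ M) (Q : κ → Dual ℚ M) (q : κ → ℚ) {I : ℕ → Type}
    (F : ∀ m, I m → MultilinearMap ℚ (fun _ : Fin (n + 1) => M) ℚ)
    (y : ∀ m, Set (Fin m) → M) (hF : ∀ m s a, F m a (fun _ => y m s) = 0)
    (hQ : ∀ m s j, Q j (y m s) = q j)
    (hT : ∀ m s w, (∀ a, CountN.G (F m a) (y m s) (y m s) w = 0) → (∀ j, Q j w = 0) →
      ∀ i, P i w = 0)
    (hinj : ∀ m, Function.Injective (fun s i => P i (y m s))) : False := by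
  classical
  let e := finBasis ℚ M
  let X := MultilinearMap ℚ (fun _ : Fin (n + 1) => M) ℚ
  let eX := finBasis ℚ X
  choose B hB1 hB2 using fun m => exists_gen eX (Submodule.span ℚ (Set.range (F m)))
  -- the countable field of constants
  let S0 : Set L := Set.range (fun p : Fin (finrank ℚ X) × (Fin (n + 1) → Fin (finrank ℚ M)) =>
    c (fun m => B m p.1 (fun i => e (p.2 i))))
  let K := Subfield.closure S0
  have hK : Countable K := by
    have h1 : Cardinal.mk (Subfield.closure S0) ≤ Cardinal.aleph0 := by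
      refine (Subfield.cardinalMk_closure_le_max S0).trans ?_
      refine max_le ?_ le_rfl
      exact Cardinal.le_aleph0_iff_set_countable.2 (Set.countable_range _)
    exact Cardinal.mk_le_aleph0_iff.1 h1
  have hA : {x : L | IsAlgebraic K x}.Countable := Algebraic.countable K L
  let Y : Set ℕ → ℕ → M := fun α m => y m {i | (i : ℕ) ∈ α}
  let Z : Set ℕ → ι → L := fun α i => c (fun m => P i (Y α m))
  have hZ : Function.Injective Z := by
    intro α β hαβ
    by_contra hne
    obtain ⟨t, ht⟩ : ∃ t, ¬ (t ∈ α ↔ t ∈ β) := by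
      by_contra hcon
      push Not at hcon
      exact hne (Set.ext hcon)
    have h1 : ∀ᶠ m in (hyperfilter ℕ : Filter ℕ), ∀ i, P i (Y α m) = P i (Y β m) := by
      rw [eventually_all]
      intro i
      exact (c_eq c h0).1 (congrFun hαβ i)
    have h2 : ∀ᶠ m in (hyperfilter ℕ : Filter ℕ), t < m := by
      have h3 : {m : ℕ | ¬ t < m}.Finite := (Set.finite_le_nat t).subset (fun m hm => not_lt.1 hm)
      exact Filter.compl_mem_hyperfilter_of_finite (s := {m : ℕ | ¬ t < m}) h3 |> fun h => by
        filter_upwards [h] with m hm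
        simpa using hm
    obtain ⟨m, hm1, hm2⟩ := (h1.and h2).exists
    have h4 := hinj m (funext hm1)
    apply ht
    have h5 := congrArg (fun s : Set (Fin m) => (⟨t, hm2⟩ : Fin m) ∈ s) h4
    simpa using h5
  -- a transcendental value
  obtain ⟨α, i, hi⟩ : ∃ α i, Transcendental K (Z α i) := by
    by_contra hcon
    push Not at hcon
    have h1 : (Set.univ.pi (fun _ : ι => {x : L | IsAlgebraic K x})).Countable :=
      Set.countable_univ_pi (fun _ => hA)
    have h2 : ∀ α, Z α ∈ Set.univ.pi (fun _ : ι => {x : L | IsAlgebraic K x}) := by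
      intro α i _
      have := hcon α i
      unfold Transcendental at this
      push Not at this
      exact this
    have h3 : Function.Injective (fun α => (⟨Z α, h2 α⟩ :
        ↥(Set.univ.pi (fun _ : ι => {x : L | IsAlgebraic K x})))) := by
      intro α β hab
      exact hZ (congrArg Subtype.val hab)
    have h4 : Countable (Set.univ.pi (fun _ : ι => {x : L | IsAlgebraic K x})) := h1.to_subtype
    have h5 : Countable (Set ℕ) := h3.countable
    obtain ⟨f, hf⟩ := h5.exists_injective_nat
    exact Function.cantor_injective f hf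
  obtain ⟨δ', hδ'⟩ : ∃ δ' : Derivation K L L, δ' (Z α i) ≠ 0 := by
    have h2 : AlgebraicIndependent K (fun _ : Unit => Z α i) :=
      (algebraicIndependent_unique_type_iff (R := K) (x := fun _ : Unit => Z α i)).2 hi
    obtain ⟨D, hD⟩ := Pool.Agent.H135R2.VS.exists_der h2 (fun _ => 1)
    exact ⟨D, by rw [hD ()]; exact one_ne_zero⟩
  let δ : Derivation ℚ L L := δ'.restrictScalars ℚ
  have hδ : δ (Z α i) ≠ 0 := hδ'
  have hδK : ∀ x ∈ S0, δ x = 0 := fun x hx =>
    δ'.map_algebraMap (⟨x, Subfield.subset_closure hx⟩ : K)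
  choose W hW using fun l => hs (δ (c (fun k => e.repr (Y α k) l)))
  let w : ℕ → M := fun k => ∑ l, W l k • e l
  have hw : ∀ l, c (fun k => e.repr (w k) l) = δ (c (fun k => e.repr (Y α k) l)) := by
    intro l
    rw [← hW]
    congr 1
    funext k
    change (e.repr (∑ l, W l k • e l)) l = _
    rw [e.repr_sum_self]
  have hBz : ∀ m j, B m j (fun _ => Y α m) = 0 := by
    intro m j
    have h1 := hB1 m j
    generalize B m j = x at h1
    induction h1 using Submodule.span_induction with
    | mem x hx =>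
      obtain ⟨a, rfl⟩ := hx
      exact hF m _ a
    | zero => rfl
    | add a b _ _ ha hb => rw [_root_.add_apply, ha, hb, add_zero]
    | smul q a _ ha => rw [_root_.smul_apply, ha, smul_zero]
  have e1 : ∀ᶠ k in (hyperfilter ℕ : Filter ℕ), ∀ j, CountN.G (B k j) (Y α k) (Y α k) (w k) = 0 := by
    rw [eventually_all]
    intro j
    rw [← h0, der_multi c e δ hw (fun k => B k j) (fun φ => hδK _ ⟨(j, φ), rfl⟩)]
    have : (fun k => B k j (fun _ => Y α k)) = 0 := funext (fun k => hBz k j)
    rw [this, map_zero, map_zero]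
  have e2 : ∀ᶠ k in (hyperfilter ℕ : Filter ℕ), ∀ j, Q j (w k) = 0 := by
    rw [eventually_all]
    intro j
    rw [← h0, der_lin c e δ hw]
    have : (fun k => Q j (Y α k)) = fun _ => q j := funext (fun k => hQ k _ j)
    rw [this, c_const]
    have h3 := der_rat δ (q j) 1
    rw [mul_one, δ.map_one_eq_zero, mul_zero] at h3
    exact h3
  have e3 : ¬ ∀ᶠ k in (hyperfilter ℕ : Filter ℕ), P i (w k) = 0 := by
    rw [← h0, der_lin c e δ hw]
    exact hδ
  apply e3
  filter_upwards [e1, e2] with k h1 h2
  exact hT k {i | (i : ℕ) ∈ α} (w k) (fun a =>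
    G_eq_zero_of_span (F k) (Set.range (B k)) (hB2 k) (Y α k) (w k)
      (by rintro _ ⟨j, rfl⟩; exact h1 j) a) h2 i

/-- **The uniform finiteness lemma.** -/
theorem unif {ι κ : Type} [Finite ι] [Finite κ]
    (P : ι → Dual ℚ M) (Q : κ → Dual ℚ M) (q : κ → ℚ) :
    ∃ N : ℕ, ∀ (I : Type) (F : I → MultilinearMap ℚ (fun _ : Fin (n + 1) => M) ℚ) (Y : Set M),
      (∀ y ∈ Y, (∀ a, F a (fun _ => y) = 0) ∧ (∀ j, Q j y = q j) ∧
        ∀ w, (∀ a, CountN.G (F a) y y w = 0) → (∀ j, Q j w = 0) → ∀ i, P i w = 0) →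
      ((fun y i => P i y) '' Y).encard ≤ N := by
  classical
  by_contra hcon
  push Not at hcon
  choose I F Y hY hcard using fun m => hcon (2 ^ m)
  have hex : ∀ m, ∃ y : Set (Fin m) → M, (∀ s, y s ∈ Y m) ∧
      Function.Injective (fun s i => P i (y s)) := by
    intro m
    obtain ⟨T, hT1, hT2⟩ := Set.exists_subset_encard_eq (hcard m).le
    have hfin : T.Finite := by
      apply Set.finite_of_encard_eq_coe (k := 2 ^ m)
      rw [hT2]
    have h1 : Fintype T := hfin.fintype
    have h2 : Fintype.card (Set (Fin m)) = Fintype.card T := by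
      rw [Fintype.card_set, Fintype.card_fin]
      have h3 : (Fintype.card T : ℕ∞) = ((2 ^ m : ℕ) : ℕ∞) := by
        rw [Set.coe_fintypeCard, hT2]
      exact_mod_cast h3.symm
    let g := Fintype.equivOfCardEq h2
    choose y hy1 hy2 using fun s => hT1 (g s).2
    refine ⟨y, hy1, fun s s' h => ?_⟩
    have h4 : ((g s : T) : ι → ℚ) = g s' := by rw [← hy2 s, ← hy2 s']; exact h
    exact g.injective (Subtype.ext h4)
  choose y hy1 hy2 using hex
  have : CharZero (Germ (hyperfilter ℕ : Filter ℕ) ℚ) := by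
    apply charZero_of_injective_ringHom
      (f := (Germ.coeRingHom (hyperfilter ℕ : Filter ℕ)).comp (Pi.constRingHom ℕ ℚ))
    exact RingHom.injective _
  refine unif_abs (Germ.coeRingHom (hyperfilter ℕ : Filter ℕ)) (fun f => ?_) ?_ P Q q F y
    (fun m s a => (hY m _ (hy1 m s)).1 a) (fun m s j => (hY m _ (hy1 m s)).2.1 j)
    (fun m s w h1 h2 i => (hY m _ (hy1 m s)).2.2 w h1 h2 i) hy2
  · exact Germ.coe_eq
  · intro x
    obtain ⟨f, hf⟩ := Quotient.exists_rep x
    exact ⟨f, hf⟩

end abs

end Pool.Agent.TH813.Uni
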