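import Mathlib
import Pool.Agent.TH813.Rel3
import Pool.Agent.TH813.Uni1

/-!
# The subspaces attached to the failures: a uniform bound for their number
-/

set_option autoImplicit false

namespace Pool.Agent.TH813.Uni

open Pool.Agent.W252 Pool.Agent.W669.Gel Module Finset
open Pool.Agent.TH813.Core Pool.Agent.TH813.Rank Pool.Agent.TH813.Rel

variable (F : IntermediateField ℚ ℂ) (V : Submodule ℚ ℂ)

/-- the tuples considered -/
structure GoodN (N n : ℕ) (z : Fin N → ℂ) : Prop where
  mem : ∀ i, z i ∈ V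
  hB : ∀ D ∈ DF F, ∀ (q : Fin N → ℚ), (∀ i, D (z i) = 0) →
      (∀ i, dlog D (z i) = q i) → q = 0
  hr : finrank ℂ (LinearMap.range (evF F z)) = n

/-- The spaces with prescribed pivots. -/
def clsN (N n : ℕ) {r : ℕ} (b : Basis (Fin r) ℚ V) (u : ℕ) (C : Fin u → Fin r) :
    Set (Submodule ℚ ℂ) :=
  {U | ∃ z : Fin N → ℂ, GoodN F V N n z ∧ U = UF F V z ∧ ∃ v : Fin u → V,
    (∀ i j, b.repr (v i) (C j) = if i = j then 1 else 0) ∧ (∀ i, (v i : ℂ) ∈ U) ∧
      ∀ y : V, (y : ℂ) ∈ U → y = ∑ a, b.repr y (C a) • v a}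

/-- the space of the coordinates -/
abbrev MM (N u r : ℕ) := (Fin N ⊕ Fin u) → (Fin r → ℚ)

variable {V}

/-- coordinates -/
noncomputable def EE' (N u : ℕ) {r : ℕ} (b : Basis (Fin r) ℚ V) :
    MM N u r →ₗ[ℚ] ((Fin N ⊕ Fin u) → V) :=
  (LinearEquiv.piCongrRight (fun _ : Fin N ⊕ Fin u => b.equivFun.symm)).toLinearMap

theorem EE'_apply (N u : ℕ) {r : ℕ} (b : Basis (Fin r) ℚ V) (y : MM N u r) (k : Fin N ⊕ Fin u) :
    EE' N u b y k = b.equivFun.symm (y k) := rfl

theorem repr_EE' (N u : ℕ) {r : ℕ} (b : Basis (Fin r) ℚ V) (y : MM N u r) (k : Fin N ⊕ Fin u)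
    (l : Fin r) : b.repr (EE' N u b y k) l = y k l := by
  rw [EE'_apply, ← Basis.equivFun_apply, LinearEquiv.apply_symm_apply]

/-- **Uniform bound for the number of the subspaces with prescribed pivots.** -/
theorem bound_clsN (N n r u : ℕ) (C : Fin u → Fin r) : ∃ B : ℕ,
    ∀ (F : IntermediateField ℚ ℂ) (V : Submodule ℚ ℂ) (b : Basis (Fin r) ℚ V),
      (clsN F V N n b u C).encard ≤ B := by
  classical
  obtain ⟨B, hB⟩ := unif (n := n) (M := MM N u r) (ι := Fin u × Fin r) (κ := Fin u × Fin u)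
    (fun p => LinearMap.proj p.2 ∘ₗ LinearMap.proj (Sum.inr p.1))
    (fun p => LinearMap.proj (C p.2) ∘ₗ LinearMap.proj (Sum.inr p.1))
    (fun p => if p.1 = p.2 then 1 else 0)
  refine ⟨B, fun F V b => ?_⟩
  let Y : Set (MM N u r) := {y | ∃ z : Fin N → ℂ, ∃ v : Fin u → V,
    (∀ i, (EE' N u b y (Sum.inl i) : ℂ) = z i) ∧ (∀ m, EE' N u b y (Sum.inr m) = v m) ∧
    GoodN F V N n z ∧ (∀ i j, b.repr (v i) (C j) = if i = j then 1 else 0) ∧
      (∀ i, (v i : ℂ) ∈ UF F V z) ∧ ∀ y : V, (y : ℂ) ∈ UF F V z → y = ∑ a, b.repr y (C a) • v a}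
  have h1 := hB _ (GForms.F (PhiF F V N u ∘ₗ EE' N u b)) Y (by
    rintro y ⟨z, v, hyz, hyv, hz, hv1, hv2, hv3⟩
    have hyz' : (fun i => (EE' N u b y (Sum.inl i) : ℂ)) = z := funext hyz
    have hker : ∀ D ∈ DF F, cc D z = 0 → ∀ m, dlog D (v m : ℂ) = 0 :=
      fun D hF hD m => (hv2 m).2 D hF hD
    have hrank : finrank ℂ (LinearMap.range ((PhiF F V N u ∘ₗ EE' N u b) y)) = n := by
      rw [LinearMap.comp_apply, rank_PhiF F V (y := EE' N u b y) (fun D hF hD m => by
        rw [hyz'] at hD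
        rw [hyv]
        exact hker D hF hD m), hyz']
      exact hz.hr
    refine ⟨fun a => GForms.forms_zero _ _ hrank.le a, fun p => ?_, fun w hw hQ p => ?_⟩
    · change y (Sum.inr p.1) (C p.2) = _
      rw [← repr_EE' N u b y, hyv, hv1]
    · have g1 := GForms.tangent _ hrank hw
      have g2 := core2 (F := F) (ι := Fin u) (z := z)
        (w := fun i => (EE' N u b w (Sum.inl i) : ℂ))
        (v := fun m => (v m : ℂ)) (w' := fun m => (EE' N u b w (Sum.inr m) : ℂ)) hz.hB
        (fun D hF hD m => hker D hF hD m) (by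
          intro D hF hD
          obtain ⟨D', hD'⟩ := g1 ⟨D, hF⟩ (by
            rw [LinearMap.comp_apply, PhiF_apply, hyz']
            funext k'
            rcases k' with k' | m
            · exact congrFun hD k'
            · change dlog D (EE' N u b y (Sum.inr m) : ℂ) = 0
              rw [hyv]
              exact hker D hF hD m)
          rw [LinearMap.comp_apply, LinearMap.comp_apply, PhiF_apply, PhiF_apply, hyz'] at hD'
          refine ⟨D', D'.2, ?_, fun m => ?_⟩
          · funext k'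
            exact congrFun hD' (Sum.inl k')
          · have := congrFun hD' (Sum.inr m)
            change dlog D (EE' N u b w (Sum.inr m) : ℂ) = dlog D' (EE' N u b y (Sum.inr m) : ℂ)
              at this
            rw [hyv] at this
            exact this)
      have g3 : ((EE' N u b w (Sum.inr p.1) : V) : ℂ) ∈ UF F V z :=
        ⟨(EE' N u b w (Sum.inr p.1)).2, fun D hF hD => (g2 D hF hD).2 p.1⟩
      have g4 := hv3 _ g3
      have g5 : EE' N u b w (Sum.inr p.1) = 0 := by
        rw [g4]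
        refine sum_eq_zero (fun a _ => ?_)
        have h6 : w (Sum.inr p.1) (C a) = 0 := hQ (p.1, a)
        rw [repr_EE', h6, zero_smul]
      change w (Sum.inr p.1) p.2 = 0
      rw [← repr_EE' N u b w, g5, map_zero]
      rfl)
  let g : (Fin u × Fin r → ℚ) → Submodule ℚ ℂ := fun p =>
    Submodule.span ℚ (Set.range (fun i : Fin u => ((b.equivFun.symm (fun l => p (i, l)) : V) : ℂ)))
  have h2 : clsN F V N n b u C ⊆ g '' ((fun (y : MM N u r) (p : Fin u × Fin r) =>
      (LinearMap.proj p.2 ∘ₗ LinearMap.proj (Sum.inr p.1) : MM N u r →ₗ[ℚ] ℚ) y) '' Y) := by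
    rintro U ⟨z, hz, rfl, v, hv1, hv2, hv3⟩
    let y : MM N u r := Sum.elim (fun i => b.equivFun ⟨z i, hz.mem i⟩) (fun m => b.equivFun (v m))
    have hy : y ∈ Y := by
      refine ⟨z, v, fun i => ?_, fun m => ?_, hz, hv1, hv2, hv3⟩
      · rw [EE'_apply]
        change ((b.equivFun.symm (b.equivFun ⟨z i, hz.mem i⟩) : V) : ℂ) = z i
        rw [LinearEquiv.symm_apply_apply]
      · rw [EE'_apply]
        change b.equivFun.symm (b.equivFun (v m)) = v m
        rw [LinearEquiv.symm_apply_apply]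
    refine ⟨_, ⟨y, hy, rfl⟩, ?_⟩
    have e1 : ∀ i : Fin u, ((b.equivFun.symm (fun l => b.equivFun (v i) l) : V) : ℂ) = v i := by
      intro i
      have : (fun l => b.equivFun (v i) l) = b.equivFun (v i) := rfl
      rw [this, LinearEquiv.symm_apply_apply]
    change Submodule.span ℚ (Set.range (fun i : Fin u =>
      ((b.equivFun.symm (fun l => b.equivFun (v i) l) : V) : ℂ))) = _
    simp only [e1]
    apply le_antisymm
    · rw [Submodule.span_le]
      rintro _ ⟨i, rfl⟩
      exact hv2 i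
    · intro x hx
      have h3 := congrArg (fun t : V => (t : ℂ)) (hv3 ⟨x, hx.1⟩ hx)
      simp only [Submodule.coe_sum, Submodule.coe_smul] at h3
      rw [h3]
      exact Submodule.sum_mem _ (fun a _ => Submodule.smul_mem _ _ (Submodule.subset_span ⟨a, rfl⟩))
  exact (Set.encard_le_encard h2).trans ((Set.encard_image_le _ _).trans h1)

/-- **Uniform bound for the number of the subspaces.** -/
theorem bound_UF (N n r : ℕ) : ∃ B : ℕ, ∀ (F : IntermediateField ℚ ℂ) (V : Submodule ℚ ℂ),
    FiniteDimensional ℚ V → finrank ℚ V = r →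
      {U | ∃ z : Fin N → ℂ, GoodN F V N n z ∧ U = UF F V z}.encard ≤ B := by
  classical
  choose B hB using fun (p : Σ u : Fin (r + 1), (Fin u → Fin r)) => bound_clsN N n r p.1 p.2
  refine ⟨∑ p, B p, fun F V _ hV => ?_⟩
  let b : Basis (Fin r) ℚ V := finBasisOfFinrankEq ℚ V hV
  have h1 : {U | ∃ z : Fin N → ℂ, GoodN F V N n z ∧ U = UF F V z} ⊆
      ⋃ p : Σ u : Fin (r + 1), (Fin u → Fin r), clsN F V N n b p.1 p.2 := by
    rintro U ⟨z, hz, rfl⟩
    let U' : Submodule ℚ V := (UF F V z).comap V.subtype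
    obtain ⟨J, x, hx1, hx2⟩ := GForms.exists_dual (k := ℚ) (V := U')
      (fun l : Fin r => b.coord l ∘ₗ U'.subtype) (by
        intro x hx
        apply Subtype.ext
        apply b.repr.injective
        ext l
        exact (hx l).trans (by simp))
    have hle : finrank ℚ U' < r + 1 := by
      have := Submodule.finrank_le U'
      omega
    rw [Set.mem_iUnion]
    refine ⟨⟨⟨finrank ℚ U', hle⟩, J⟩, z, hz, rfl, fun i => (x i : V), fun i j => hx1 i j,
      fun i => (x i).2, ?_⟩
    intro y hy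
    have h1 := congrArg (fun t : U' => (t : V)) (hx2 ⟨y, hy⟩)
    simp only [Submodule.coe_sum, Submodule.coe_smul] at h1
    exact h1
  have h2 : ∀ s : Finset (Σ u : Fin (r + 1), (Fin u → Fin r)),
      (⋃ p ∈ s, clsN F V N n b p.1 p.2).encard ≤ ((∑ p ∈ s, B p : ℕ) : ℕ∞) := by
    intro s
    induction s using Finset.induction_on with
    | empty => simp
    | insert p s hp ih =>
      rw [Finset.set_biUnion_insert, Finset.sum_insert hp, Nat.cast_add]
      exact (Set.encard_union_le _ _).trans (add_le_add (hB p F V b) ih)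
  refine (Set.encard_le_encard h1).trans ?_
  have h3 := h2 Finset.univ
  simp only [Finset.mem_univ, Set.iUnion_true] at h3
  exact h3

end Pool.Agent.TH813.Uni
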