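import Mathlib
import Pool.Agent.TH813.Rel4
import Pool.Agent.TH813.Uni2
import Pool.Agent.TH813.EllRank

/-!
# Families of group types

A group type (over a field `F` of constants) is a field `k` of multiplications together with
functions `lam j D z`, `j = 0, …, e`, of a derivation `D` of `ℂ` and a complex number `z`, which
are additive in `z` and semilinear over `k` if `D` kills `F`.  Example: the multiplicative group with
`lam 0 D z = D (e^z) / e^z`, an elliptic curve, or the universal vector extension of an elliptic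
curve.
-/

set_option autoImplicit false

open Finset Module

noncomputable section

namespace Pool.Agent.TH813.G

open Pool.Agent.W252 Pool.Agent.W669.Gel
open Pool.Agent.TH813.Rel (DF MK mem_cl subset_cl kills_clF rk_le_of_subset_cl trF bracket_mem)

/-- group types -/
structure Ty (F : IntermediateField ℚ ℂ) (e : ℕ) where
  /-- the field of multiplications -/
  k : Type
  [fk : Field k]
  [ck : CharZero k]
  [ak : Algebra k ℂ]
  fin : FiniteDimensional ℚ k
  deg : finrank ℚ k ≤ 2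
  /-- the twists -/
  tw : Fin (e + 1) → k →+* k
  tw_tw : ∀ j a, tw j (tw j a) = a
  tw_zero : ∀ a, tw 0 a = a
  /-- the forms -/
  lam : Fin (e + 1) → Derivation ℚ ℂ ℂ → ℂ → ℂ
  lam_add_der : ∀ j D D' z, lam j (D + D') z = lam j D z + lam j D' z
  lam_smul_der : ∀ j (c : ℂ) D z, lam j (c • D) z = c * lam j D z
  lam_add : ∀ j, ∀ D ∈ DF F, ∀ u v, lam j D (u + v) = lam j D u + lam j D v
  lam_mul : ∀ j, ∀ D ∈ DF F, ∀ (a : k) u,
    lam j D (algebraMap k ℂ a * u) = algebraMap k ℂ (tw j a) * lam j D u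
  om_bracket : ∀ D ∈ DF F, ∀ D' z, lam 0 D z = 0 → lam 0 ⁅D, D'⁆ z = D (lam 0 D' z)
  lam_bracket : ∀ D ∈ DF F, ∀ D' z, D z = 0 → (∀ j, lam j D z = 0) →
    ∀ j, lam j ⁅D, D'⁆ z = D (lam j D' z)
  /-- the numbers attached to `z` -/
  N : ℂ → Set ℂ
  N_fin : ∀ z, (N z).Finite
  N_iff : ∀ D ∈ DF F, ∀ z, (∀ x ∈ N z, D x = 0) ↔ D z = 0 ∧ ∀ j, lam j D z = 0
  /-- the coordinates of the point with logarithm `z` -/
  W : ℂ → Set ℂ
  W_iff : ∀ D ∈ DF F, ∀ z, (∀ x ∈ W z, D x = 0) ↔ lam 0 D z = 0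

attribute [instance] Ty.fk Ty.ck Ty.ak

variable {F : IntermediateField ℚ ℂ} {q : ℕ} {e : Fin q → ℕ}

namespace Ty

variable {m : ℕ} (T : Ty F m)

theorem der_k (D : Derivation ℚ ℂ ℂ) (a : T.k) : D (algebraMap T.k ℂ a) = 0 := by
  have := T.fin
  have h1 : IsAlgebraic ℚ a := Algebra.IsAlgebraic.isAlgebraic a
  have h2 : IsAlgebraic ℚ (algebraMap T.k ℂ a) := by
    obtain ⟨p, hp, hp'⟩ := h1
    refine ⟨p, hp, ?_⟩
    let f : T.k →ₐ[ℚ] ℂ := (algebraMap T.k ℂ).toRatAlgHom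
    have h3 : Polynomial.aeval (f a) p = f (Polynomial.aeval a p) := Polynomial.aeval_algHom_apply f a p
    have h4 : f a = algebraMap T.k ℂ a := rfl
    rw [← h4, h3, hp', map_zero]
  exact Pool.Agent.H327R2.SC.der_alg (⊥ : IntermediateField ℚ ℂ) D (fun x hx => by
      obtain ⟨q, rfl⟩ := IntermediateField.mem_bot.1 hx
      exact D.map_algebraMap q)
      (h2.extendScalars (algebraMap ℚ (⊥ : IntermediateField ℚ ℂ)).injective)

/-- the forms, together with `D z` -/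
def frm (o : Option (Fin (m + 1))) (D : Derivation ℚ ℂ ℂ) (z : ℂ) : ℂ :=
  match o with
  | none => D z
  | some j => T.lam j D z

/-- the twists, together with the trivial twist -/
def twf (o : Option (Fin (m + 1))) : T.k →+* T.k :=
  match o with
  | none => RingHom.id T.k
  | some j => T.tw j

theorem frm_add_der (o : Option (Fin (m + 1))) (D D' : Derivation ℚ ℂ ℂ) (z : ℂ) :
    T.frm o (D + D') z = T.frm o D z + T.frm o D' z := by
  rcases o with _ | j
  · rfl
  · exact T.lam_add_der j D D' z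

theorem frm_smul_der (o : Option (Fin (m + 1))) (c : ℂ) (D : Derivation ℚ ℂ ℂ) (z : ℂ) :
    T.frm o (c • D) z = c * T.frm o D z := by
  rcases o with _ | j
  · rfl
  · exact T.lam_smul_der j c D z

theorem frm_add (o : Option (Fin (m + 1))) {D : Derivation ℚ ℂ ℂ} (hD : D ∈ DF F) (u v : ℂ) :
    T.frm o D (u + v) = T.frm o D u + T.frm o D v := by
  rcases o with _ | j
  · exact map_add D u v
  · exact T.lam_add j D hD u v

theorem frm_smul (o : Option (Fin (m + 1))) {D : Derivation ℚ ℂ ℂ} (hD : D ∈ DF F) (a : T.k)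
    (u : ℂ) : T.frm o D (a • u) = algebraMap T.k ℂ (T.twf o a) * T.frm o D u := by
  rw [Algebra.smul_def]
  rcases o with _ | j
  · change D (algebraMap T.k ℂ a * u) = algebraMap T.k ℂ a * D u
    rw [Derivation.leibniz, T.der_k, smul_zero, add_zero, smul_eq_mul]
  · exact T.lam_mul j D hD a u

theorem frm_zero (o : Option (Fin (m + 1))) {D : Derivation ℚ ℂ ℂ} (hD : D ∈ DF F) :
    T.frm o D 0 = 0 := by
  have := T.frm_add o hD 0 0
  rw [add_zero] at this
  exact left_eq_add.1 this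

theorem frm_rat (o : Option (Fin (m + 1))) {D : Derivation ℚ ℂ ℂ} (hD : D ∈ DF F) (a : ℚ)
    (u : ℂ) : T.frm o D (a • u) = (a : ℂ) * T.frm o D u := by
  have h := T.frm_smul o hD (a : T.k) u
  rw [map_ratCast, map_ratCast] at h
  have h1 : a • u = (a : T.k) • u := by
    rw [Rat.smul_def, Algebra.smul_def (a : T.k) u, map_ratCast]
  rw [h1, h]

/-- the forms as linear maps over the rational numbers -/
def frmL (o : Option (Fin (m + 1))) {D : Derivation ℚ ℂ ℂ} (hD : D ∈ DF F) : ℂ →ₗ[ℚ] ℂ where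
  toFun := T.frm o D
  map_add' := T.frm_add o hD
  map_smul' := fun a u => by
    rw [T.frm_rat o hD, RingHom.id_apply, Rat.smul_def]

theorem frm_sum (o : Option (Fin (m + 1))) {D : Derivation ℚ ℂ ℂ} (hD : D ∈ DF F) {ι : Type*}
    (s : Finset ι) (a : ι → T.k) (u : ι → ℂ) :
    T.frm o D (∑ i ∈ s, a i • u i) =
      ∑ i ∈ s, algebraMap T.k ℂ (T.twf o (a i)) * T.frm o D (u i) := by
  classical
  induction s using Finset.induction_on with
  | empty => rw [sum_empty, sum_empty, T.frm_zero o hD]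
  | insert i s hi ih => rw [sum_insert hi, sum_insert hi, T.frm_add o hD, T.frm_smul o hD, ih]

theorem frm_bracket {D : Derivation ℚ ℂ ℂ} (hD : D ∈ DF F) (D' : Derivation ℚ ℂ ℂ) {z : ℂ}
    (h : ∀ o, T.frm o D z = 0) (o : Option (Fin (m + 1))) :
    T.frm o ⁅D, D'⁆ z = D (T.frm o D' z) := by
  rcases o with _ | j
  · change ⁅D, D'⁆ z = D (D' z)
    have h0 : D z = 0 := h none
    rw [Derivation.commutator_apply, h0, map_zero, sub_zero]
  · exact T.lam_bracket D hD D' z (h none) (fun j => h (some j)) j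

theorem N_iff' {D : Derivation ℚ ℂ ℂ} (hD : D ∈ DF F) (z : ℂ) :
    (∀ x ∈ T.N z, D x = 0) ↔ ∀ o, T.frm o D z = 0 := by
  rw [T.N_iff D hD]
  constructor
  · rintro ⟨h1, h2⟩ (_ | j)
    · exact h1
    · exact h2 j
  · exact fun h => ⟨h none, fun j => h (some j)⟩

end Ty

/-- families of group types -/
abbrev Fam (F : IntermediateField ℚ ℂ) {q : ℕ} (e : Fin q → ℕ) := ∀ c : Fin q, Ty F (e c)

/-- the coordinates -/
abbrev Ix {q : ℕ} (e : Fin q → ℕ) (n : Fin q → ℕ) :=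
  Σ c : Fin q, Fin (n c) × Option (Fin (e c + 1))

/-- tuples -/
abbrev Tu {q : ℕ} (n : Fin q → ℕ) := ∀ c : Fin q, Fin (n c) → ℂ

variable (T : Fam F e) {n : Fin q → ℕ}

/-- the coordinates of a derivation at a tuple -/
def vec (D : Derivation ℚ ℂ ℂ) (z : Tu n) : Ix e n → ℂ :=
  fun κ => (T κ.1).frm κ.2.2 D (z κ.1 κ.2.1)

theorem vec_eq_zero {D : Derivation ℚ ℂ ℂ} {z : Tu n} :
    vec T D z = 0 ↔ ∀ c i o, (T c).frm o D (z c i) = 0 :=
  ⟨fun h c i o => congrFun h ⟨c, i, o⟩, fun h => funext (fun κ => h κ.1 κ.2.1 κ.2.2)⟩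

/-- evaluation of derivations -/
def evD (z : Tu n) : Derivation ℚ ℂ ℂ →ₗ[ℂ] (Ix e n → ℂ) where
  toFun D := vec T D z
  map_add' D D' := funext (fun κ => (T κ.1).frm_add_der κ.2.2 D D' _)
  map_smul' c D := funext (fun κ => (T κ.1).frm_smul_der κ.2.2 c D _)

theorem evD_apply (z : Tu n) (D : Derivation ℚ ℂ ℂ) : evD T z D = vec T D z := rfl

/-- evaluation of the derivations over `F` -/
def ev (z : Tu n) : DF F →ₗ[ℂ] (Ix e n → ℂ) := evD T z ∘ₗ (DF F).subtype

theorem ev_apply (z : Tu n) (D : DF F) : ev T z D = vec T (D : Derivation ℚ ℂ ℂ) z := rfl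

theorem vec_sum_der {d : ℕ} (a : Fin d → ℂ) (Dd : Fin d → Derivation ℚ ℂ ℂ) (z : Tu n)
    (κ : Ix e n) : vec T (∑ i, a i • Dd i) z κ = ∑ i, a i * vec T (Dd i) z κ := by
  rw [← evD_apply, map_sum, Finset.sum_apply]
  exact sum_congr rfl (fun i _ => by rw [map_smul]; rfl)

theorem vec_bracket {D : Derivation ℚ ℂ ℂ} (hD : D ∈ DF F) (D' : Derivation ℚ ℂ ℂ) {z : Tu n}
    (h : vec T D z = 0) (κ : Ix e n) : vec T ⁅D, D'⁆ z κ = D (vec T D' z κ) :=
  (T κ.1).frm_bracket hD D' (fun o => (vec_eq_zero T).1 h κ.1 κ.2.1 o) κ.2.2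

/-- the field of the numbers killed by the derivations over `F` which kill the point -/
def KG (z : Tu n) : IntermediateField ℚ ℂ where
  carrier := {w | ∀ D ∈ DF F, vec T D z = 0 → D w = 0}
  mul_mem' := by
    intro a b ha hb D hF hD
    rw [Derivation.leibniz, ha D hF hD, hb D hF hD, smul_zero, smul_zero, add_zero]
  add_mem' := by
    intro a b ha hb D hF hD
    rw [map_add, ha D hF hD, hb D hF hD, add_zero]
  algebraMap_mem' := fun r D _ _ => D.map_algebraMap r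
  inv_mem' := by
    intro a ha D hF hD
    rw [Derivation.leibniz_inv, ha D hF hD, smul_zero]

theorem F_le_KG (z : Tu n) : ∀ x ∈ F, x ∈ KG T z := fun x hx _ hD _ => hD x hx

theorem kills_iff {z : Tu n} {D : Derivation ℚ ℂ ℂ} :
    (∀ w ∈ KG T z, D w = 0) ↔ D ∈ DF F ∧ vec T D z = 0 := by
  constructor
  · intro h
    have hF : D ∈ DF F := fun x hx => h x (F_le_KG T z x hx)
    refine ⟨hF, (vec_eq_zero T).2 (fun c i => ((T c).N_iff' hF _).1 (fun x hx => ?_))⟩
    exact h x (fun D' hF' hD' => ((T c).N_iff' hF' _).2 ((vec_eq_zero T).1 hD' c i) x hx)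
  · intro h w hw
    exact hw D h.1 h.2

/-- dual derivations -/
theorem exists_dualG (z : Tu n) : ∃ (d : ℕ) (κ : Fin d → Ix e n)
    (Dd : Fin d → Derivation ℚ ℂ ℂ), (∀ a, Dd a ∈ DF F) ∧
      (∀ a b, vec T (Dd a) z (κ b) = if a = b then 1 else 0) ∧
      ∀ D ∈ DF F, (∀ b, vec T D z (κ b) = 0) → vec T D z = 0 := by
  classical
  obtain ⟨J, x, hx1, hx2⟩ := GForms.exists_dual (k := ℂ)
    (V := LinearMap.range (ev T z))
    (fun κ : Ix e n => (LinearMap.proj κ).comp (LinearMap.range (ev T z)).subtype) (by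
      intro y hy
      apply Subtype.ext
      funext κ
      exact hy κ)
  have hch : ∀ a, ∃ D : DF F, ev T z D = (x a : Ix e n → ℂ) := fun a => (x a).2
  choose De hDe using hch
  refine ⟨_, J, fun a => (De a : Derivation ℚ ℂ ℂ), fun a => (De a).2, fun a b => ?_,
    fun D hDF hD => ?_⟩
  · rw [← ev_apply, hDe]
    exact hx1 a b
  · have h1 := hx2 ⟨ev T z ⟨D, hDF⟩, ⟨⟨D, hDF⟩, rfl⟩⟩
    have h2 : (⟨ev T z ⟨D, hDF⟩, ⟨⟨D, hDF⟩, rfl⟩⟩ : LinearMap.range (ev T z)) = 0 := by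
      rw [h1]
      refine sum_eq_zero (fun a _ => ?_)
      have h3 : ((LinearMap.proj (J a)).comp (LinearMap.range (ev T z)).subtype)
          (⟨ev T z ⟨D, hDF⟩, ⟨⟨D, hDF⟩, rfl⟩⟩ : LinearMap.range (ev T z)) = 0 := hD a
      rw [h3, zero_smul]
    exact congrArg Subtype.val h2

/-- Rosenlicht's property of a family of group types -/
def Ros : Prop :=
  ∀ K : IntermediateField ℚ ℂ, (∀ x ∈ F, x ∈ K) →
    (∀ w : ℂ, (∀ D : Derivation ℚ ℂ ℂ, (∀ x ∈ K, D x = 0) → D w = 0) → w ∈ K) →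
    ∀ (m : ℕ) (idx : Fin m → Σ c : Fin q, Fin (e c + 1)) (b v : Fin m → ℂ) (x : ℂ),
      (∀ a, b a ∈ K) →
      (∀ D : Derivation ℚ ℂ ℂ, (∀ w ∈ K, D w = 0) →
        D x = ∑ a, b a * (T (idx a).1).lam (idx a).2 D (v a)) →
      ∀ (c : Fin q) (j : Fin (e c + 1)) (ψ : ℂ →ₗ[(T c).k] (T c).k) (D : Derivation ℚ ℂ ℂ),
        (∀ w ∈ K, D w = 0) →
        ∑ a, (if idx a = ⟨c, j⟩ then algebraMap (T c).k ℂ ((T c).tw j (ψ (b a))) *
          (T (idx a).1).lam 0 D (v a) else 0) = 0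

end Pool.Agent.TH813.G
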