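import Mathlib
import Pool.Agent.TH813.GTy

/-!
# Tangent vectors for families of group types
-/

set_option autoImplicit false

open Finset Module

noncomputable section

namespace Pool.Agent.TH813.G

open Pool.Agent.W252 Pool.Agent.W669.Gel
open Pool.Agent.TH813.Rel (DF MK mem_cl subset_cl kills_clF rk_le_of_subset_cl trF bracket_mem)

variable {F : IntermediateField ℚ ℂ} {q : ℕ} {e : Fin q → ℕ} (T : Fam F e) {n : Fin q → ℕ}

/-- the type and the form of a coordinate; `none` is replaced by the form `0` -/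
def idxOf (κ : Ix e n) : Σ c : Fin q, Fin (e c + 1) := ⟨κ.1, κ.2.2.getD 0⟩

/-- `1` if the coordinate is a form, `0` if it is `D z` -/
def wt (κ : Ix e n) : ℚ := if κ.2.2 = none then 0 else 1

/-- the exact part of a coordinate -/
def exa (w : Tu n) (κ : Ix e n) : ℂ := if κ.2.2 = none then w κ.1 κ.2.1 else 0

theorem vec_split (D : Derivation ℚ ℂ ℂ) (w : Tu n) (κ : Ix e n) :
    vec T D w κ = D (exa w κ) +
      (wt κ : ℂ) * (T (idxOf κ).1).lam (idxOf κ).2 D (w κ.1 κ.2.1) := by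
  obtain ⟨c, i, o⟩ := κ
  rcases o with _ | j
  · change D (w c i) = D (w c i) + ((0 : ℚ) : ℂ) * _
    rw [Rat.cast_zero, zero_mul, add_zero]
  · change (T c).lam j D (w c i) = D 0 + ((1 : ℚ) : ℂ) * (T c).lam j D (w c i)
    rw [map_zero, Rat.cast_one, one_mul, zero_add]

/-- the part of a coordinate which belongs to the form `j` of type `c`, as a value of the first
form -/
def prt (c : Fin q) (j : Fin (e c + 1)) (D : Derivation ℚ ℂ ℂ) (w : Tu n) (κ : Ix e n) : ℂ :=
  if (⟨κ.1, κ.2.2⟩ : Σ c : Fin q, Option (Fin (e c + 1))) = ⟨c, some j⟩ then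
    (T κ.1).lam 0 D (w κ.1 κ.2.1) else 0

theorem idx_iff (κ : Ix e n) (c : Fin q) (j : Fin (e c + 1)) :
    (⟨κ.1, κ.2.2⟩ : Σ c : Fin q, Option (Fin (e c + 1))) = ⟨c, some j⟩ ↔
      κ.2.2 ≠ none ∧ idxOf κ = ⟨c, j⟩ := by
  obtain ⟨c', i, o⟩ := κ
  rcases o with _ | j'
  · constructor
    · intro h
      obtain ⟨h1, h2⟩ := Sigma.mk.inj_iff.1 h
      subst h1
      exact absurd (eq_of_heq h2) (by simp)
    · rintro ⟨h, -⟩
      exact absurd rfl h
  · change (⟨c', some j'⟩ : Σ c : Fin q, Option (Fin (e c + 1))) = ⟨c, some j⟩ ↔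
      some j' ≠ none ∧ (⟨c', j'⟩ : Σ c : Fin q, Fin (e c + 1)) = ⟨c, j⟩
    constructor
    · intro h
      refine ⟨by simp, ?_⟩
      obtain ⟨h1, h2⟩ := Sigma.mk.inj_iff.1 h
      subst h1
      rw [Option.some.inj (eq_of_heq h2)]
    · rintro ⟨-, h⟩
      obtain ⟨h1, h2⟩ := Sigma.mk.inj_iff.1 h
      subst h1
      rw [eq_of_heq h2]

/-- Rosenlicht's theorem for a linear relation with constant coefficients -/
theorem ros_rel (hR : Ros T) {z w : Tu n} {d : ℕ} {κ' : Fin d → Ix e n} (a : Fin d → ℂ)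
    (ha : ∀ i, a i ∈ KG T z) (x₀ v₀ : ℂ) (i₀ : Σ c : Fin q, Fin (e c + 1)) (b₀ : ℚ)
    (h : ∀ D ∈ DF F, vec T D z = 0 → D x₀ + (b₀ : ℂ) * (T i₀.1).lam i₀.2 D v₀ =
        ∑ i, a i * vec T D w (κ' i)) (c : Fin q) (j : Fin (e c + 1))
    (ψ : ℂ →ₗ[(T c).k] (T c).k) (D : Derivation ℚ ℂ ℂ) (hF : D ∈ DF F) (hD : vec T D z = 0) :
    (if i₀ = ⟨c, j⟩ then algebraMap (T c).k ℂ ((T c).tw j (ψ 1)) * ((b₀ : ℂ) *
        (T i₀.1).lam 0 D v₀) else 0) =
      ∑ i, algebraMap (T c).k ℂ ((T c).tw j (ψ (a i))) * prt T c j D w (κ' i) := by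
  classical
  set K := KG T z with hK
  have hkill : ∀ D : Derivation ℚ ℂ ℂ, (∀ w ∈ K, D w = 0) ↔ D ∈ DF F ∧ vec T D z = 0 :=
    fun D => kills_iff T
  have hq : ∀ q : ℚ, (q : ℂ) ∈ K := fun q => SubfieldClass.ratCast_mem K q
  have hψq : ∀ (q : ℚ) (y : ℂ), ψ ((q : ℂ) * y) = (q : (T c).k) * ψ y := by
    intro q y
    have h1 : (q : ℂ) * y = (q : (T c).k) • y := by
      rw [Algebra.smul_def, map_ratCast]
    rw [h1, map_smul, smul_eq_mul]
  have key := hR K (F_le_KG T z) (fun w hw D hF hD => hw D ((hkill D).2 ⟨hF, hD⟩)) (d + 1)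
    (Fin.cons i₀ (fun i => idxOf (κ' i)))
    (Fin.cons (b₀ : ℂ) (fun i => (wt (κ' i) : ℂ) * -a i) : Fin (d + 1) → ℂ)
    (Fin.cons v₀ (fun i => w (κ' i).1 (κ' i).2.1) : Fin (d + 1) → ℂ)
    (∑ i, a i * exa w (κ' i) - x₀)
    (by
      intro l
      refine Fin.cases ?_ (fun i => ?_) l
      · exact hq _
      · exact K.mul_mem (hq _) (K.neg_mem (ha i)))
    (by
      intro D hD
      obtain ⟨hF, hD'⟩ := (hkill D).1 hD
      have h4 := h D hF hD'
      have h5 : ∀ i, a i * vec T D w (κ' i) = D (a i * exa w (κ' i)) +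
          a i * ((wt (κ' i) : ℂ) * (T (idxOf (κ' i)).1).lam (idxOf (κ' i)).2 D
            (w (κ' i).1 (κ' i).2.1)) := by
        intro i
        rw [vec_split T D, Derivation.leibniz, hD _ (ha i), smul_zero, add_zero, smul_eq_mul]
        ring
      rw [sum_congr rfl (fun i _ => h5 i), sum_add_distrib] at h4
      rw [Fin.sum_univ_succ, map_sub, map_sum]
      change ∑ i, D (a i * exa w (κ' i)) - D x₀ = (b₀ : ℂ) * (T i₀.1).lam i₀.2 D v₀ +
        ∑ i, (wt (κ' i) : ℂ) * -a i * (T (idxOf (κ' i)).1).lam (idxOf (κ' i)).2 D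
            (w (κ' i).1 (κ' i).2.1)
      have e1 : ∑ i, (wt (κ' i) : ℂ) * -a i * (T (idxOf (κ' i)).1).lam (idxOf (κ' i)).2 D
            (w (κ' i).1 (κ' i).2.1) =
          -∑ i, a i * ((wt (κ' i) : ℂ) * (T (idxOf (κ' i)).1).lam (idxOf (κ' i)).2 D
            (w (κ' i).1 (κ' i).2.1)) := by
        rw [← sum_neg_distrib]
        exact sum_congr rfl (fun i _ => by ring)
      rw [e1]
      linear_combination -h4) c j ψ D ((hkill D).2 ⟨hF, hD⟩)
  rw [Fin.sum_univ_succ] at key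
  change (if i₀ = ⟨c, j⟩ then algebraMap (T c).k ℂ ((T c).tw j (ψ (b₀ : ℂ))) *
      (T i₀.1).lam 0 D v₀ else 0) + ∑ i, (if idxOf (κ' i) = ⟨c, j⟩ then
      algebraMap (T c).k ℂ ((T c).tw j (ψ ((wt (κ' i) : ℂ) * -a i))) *
        (T (idxOf (κ' i)).1).lam 0 D (w (κ' i).1 (κ' i).2.1) else 0) = 0 at key
  have e1 : ∀ i, (if idxOf (κ' i) = ⟨c, j⟩ then
      algebraMap (T c).k ℂ ((T c).tw j (ψ ((wt (κ' i) : ℂ) * -a i))) *
        (T (idxOf (κ' i)).1).lam 0 D (w (κ' i).1 (κ' i).2.1) else 0) =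
      -(algebraMap (T c).k ℂ ((T c).tw j (ψ (a i))) * prt T c j D w (κ' i)) := by
    intro i
    unfold prt
    by_cases h1 : (κ' i).2.2 = none
    · rw [if_neg (fun h => ((idx_iff (κ' i) c j).1 h).1 h1), mul_zero, neg_zero]
      have : wt (κ' i) = 0 := if_pos h1
      rw [this]
      simp
    · have h2 : wt (κ' i) = 1 := if_neg h1
      by_cases h3 : idxOf (κ' i) = ⟨c, j⟩
      · rw [if_pos h3, if_pos ((idx_iff (κ' i) c j).2 ⟨h1, h3⟩), h2, Rat.cast_one, one_mul,
          map_neg, map_neg, map_neg]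
        change -_ * (T (κ' i).1).lam 0 D _ = _
        ring
      · rw [if_neg h3, if_neg (fun h => h3 ((idx_iff (κ' i) c j).1 h).2), mul_zero, neg_zero]
  rw [sum_congr rfl (fun i _ => e1 i), sum_neg_distrib] at key
  have e2 : (if i₀ = ⟨c, j⟩ then algebraMap (T c).k ℂ ((T c).tw j (ψ (b₀ : ℂ))) *
      (T i₀.1).lam 0 D v₀ else 0) = (if i₀ = ⟨c, j⟩ then
        algebraMap (T c).k ℂ ((T c).tw j (ψ 1)) * ((b₀ : ℂ) * (T i₀.1).lam 0 D v₀) else 0) := by
    split_ifs
    · have h1 := hψq b₀ 1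
      rw [mul_one] at h1
      rw [h1, map_mul, map_ratCast, map_mul, map_ratCast]
      ring
    · rfl
  rw [e2] at key
  linear_combination key

/-- a vector supported at the form `j` of type `c` -/
def Sup (D : Derivation ℚ ℂ ℂ) (z : Tu n) (c : Fin q) (j : Fin (e c + 1))
    (r : Fin (n c) → (T c).k) : Prop :=
  (∀ i, (T c).lam j D (z c i) = algebraMap (T c).k ℂ ((T c).tw j (r i))) ∧
    ∀ κ : Ix e n, (⟨κ.1, κ.2.2⟩ : Σ c : Fin q, Option (Fin (e c + 1))) ≠ ⟨c, some j⟩ →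
      vec T D z κ = 0

/-- **Tangent vectors.** -/
theorem core (hR : Ros T) {ι : Fin q → Type*} {z w : Tu n} {v w' : ∀ c, ι c → ℂ}
    (hB : ∀ (c : Fin q) (Dj : Fin (e c + 1) → Derivation ℚ ℂ ℂ), (∀ j, Dj j ∈ DF F) →
      ∀ r : Fin (n c) → (T c).k, (∀ j, Sup T (Dj j) z c j r) → r = 0)
    (hv : ∀ D ∈ DF F, vec T D z = 0 → ∀ c m, (T c).lam 0 D (v c m) = 0)
    (hT : ∀ D ∈ DF F, vec T D z = 0 → ∃ D' ∈ DF F, vec T D w = vec T D' z ∧
      ∀ c m, (T c).lam 0 D (w' c m) = (T c).lam 0 D' (v c m)) :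
    ∀ D ∈ DF F, vec T D z = 0 → ∀ c m, (T c).lam 0 D (w' c m) = 0 := by
  classical
  obtain ⟨d, κ', Dd, h0, h1, hz⟩ := exists_dualG T z
  -- brackets
  have hbr : ∀ a, ∀ D ∈ DF F, vec T D z = 0 → vec T ⁅D, Dd a⁆ z = 0 := by
    intro a D hF hD
    apply hz _ (bracket_mem F hF (h0 a))
    intro b
    rw [vec_bracket T hF _ hD, h1]
    split_ifs
    · exact D.map_one_eq_zero
    · exact map_zero D
  have hk1 : ∀ a κ, vec T (Dd a) z κ ∈ KG T z := by
    intro a κ D hF hD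
    rw [← vec_bracket T hF _ hD, hbr a D hF hD]
    rfl
  have hk2 : ∀ a c m, (T c).lam 0 (Dd a) (v c m) ∈ KG T z := by
    intro a c m D hF hD
    rw [← (T c).om_bracket D hF _ _ (hv D hF hD c m)]
    exact hv _ (bracket_mem F hF (h0 a)) (hbr a D hF hD) c m
  -- the linear relations
  have hrel : ∀ D ∈ DF F, vec T D z = 0 →
      (∀ κ, vec T D w κ = ∑ a, vec T (Dd a) z κ * vec T D w (κ' a)) ∧
      ∀ c m, (T c).lam 0 D (w' c m) =
        ∑ a, (T c).lam 0 (Dd a) (v c m) * vec T D w (κ' a) := by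
    intro D hF hD
    obtain ⟨D', hF', hD', hD3⟩ := hT D hF hD
    let D2 : Derivation ℚ ℂ ℂ := ∑ a, vec T D w (κ' a) • Dd a
    have hD2F : D2 ∈ DF F := (DF F).sum_mem (fun a _ => (DF F).smul_mem _ (h0 a))
    have hD2z : ∀ κ, vec T D2 z κ = ∑ a, vec T D w (κ' a) * vec T (Dd a) z κ :=
      fun κ => vec_sum_der T _ _ z κ
    have g4 : D' + (-1 : ℂ) • D2 ∈ DF F := (DF F).add_mem hF' ((DF F).smul_mem _ hD2F)
    have g2 : ∀ κ, vec T (D' + (-1 : ℂ) • D2) z κ = vec T D' z κ - vec T D2 z κ := by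
      intro κ
      rw [← evD_apply, map_add, map_smul, Pi.add_apply, Pi.smul_apply, evD_apply, evD_apply,
        smul_eq_mul]
      ring
    have g3 : vec T (D' + (-1 : ℂ) • D2) z = 0 := by
      apply hz _ g4
      intro b
      rw [g2, hD2z, ← hD']
      have : ∑ a, vec T D w (κ' a) * vec T (Dd a) z (κ' b) = vec T D w (κ' b) := by
        rw [sum_eq_single b]
        · rw [h1, if_pos rfl, mul_one]
        · intro a _ hab
          rw [h1, if_neg hab, mul_zero]
        · intro h; exact absurd (mem_univ b) h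
      rw [this]; ring
    refine ⟨fun κ => ?_, fun c m => ?_⟩
    · have := congrFun g3 κ
      rw [g2, hD2z, Pi.zero_apply, ← hD'] at this
      simp only [mul_comm (vec T (Dd _) z κ)]
      linear_combination this
    · have h3 := hv _ g4 g3 c m
      have h4 : (T c).lam 0 D2 (v c m) =
          ∑ a, vec T D w (κ' a) * (T c).lam 0 (Dd a) (v c m) := by
        let g : Derivation ℚ ℂ ℂ →ₗ[ℂ] ℂ :=
          { toFun := fun D => (T c).lam 0 D (v c m)
            map_add' := fun D D' => (T c).lam_add_der 0 D D' _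
            map_smul' := fun a D => (T c).lam_smul_der 0 a D _ }
        change g D2 = _
        rw [map_sum]
        exact sum_congr rfl (fun a _ => by rw [map_smul]; rfl)
      rw [(T c).lam_add_der, (T c).lam_smul_der, h4] at h3
      rw [hD3]
      simp only [mul_comm ((T c).lam 0 (Dd _) (v c m))]
      linear_combination h3
  -- Rosenlicht
  have hros : ∀ (κ : Ix e n) (c : Fin q) (j : Fin (e c + 1)) (ψ : ℂ →ₗ[(T c).k] (T c).k)
      (D : Derivation ℚ ℂ ℂ), D ∈ DF F → vec T D z = 0 →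
      algebraMap (T c).k ℂ ((T c).tw j (ψ 1)) * prt T c j D w κ =
        ∑ a, algebraMap (T c).k ℂ ((T c).tw j (ψ (vec T (Dd a) z κ))) *
          prt T c j D w (κ' a) := by
    intro κ c j ψ D hF hD
    have := ros_rel T hR (z := z) (w := w) (κ' := κ') (fun a => vec T (Dd a) z κ)
      (fun a => hk1 a κ) (exa w κ) (w κ.1 κ.2.1) (idxOf κ) (wt κ) (by
        intro D' hF' hD'
        rw [← vec_split T D']
        exact (hrel D' hF' hD').1 κ) c j ψ D hF hD
    rw [← this]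
    unfold prt
    by_cases h1 : κ.2.2 = none
    · have h2 : wt κ = 0 := if_pos h1
      rw [if_neg (fun h => ((idx_iff κ c j).1 h).1 h1), mul_zero, h2]
      simp
    · have h2 : wt κ = 1 := if_neg h1
      by_cases h3 : idxOf κ = ⟨c, j⟩
      · rw [if_pos h3, if_pos ((idx_iff κ c j).2 ⟨h1, h3⟩), h2, Rat.cast_one, one_mul]
        rfl
      · rw [if_neg h3, if_neg (fun h => h3 ((idx_iff κ c j).1 h).2), mul_zero]
  -- the vector with coordinates in the field of multiplications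
  have hom : ∀ D ∈ DF F, vec T D z = 0 → ∀ c i, (T c).lam 0 D (w c i) = 0 := by
    intro D hF hD c i
    apply (forall_dual_apply_eq_zero_iff (T c).k _).1
    intro θ
    have hψmul : ∀ (ψ : ℂ →ₗ[(T c).k] (T c).k) (a : (T c).k) (y : ℂ),
        ψ (algebraMap (T c).k ℂ a * y) = a * ψ y := by
      intro ψ a y
      rw [← Algebra.smul_def, map_smul, smul_eq_mul]
    have hvec : ∀ (j : Fin (e c + 1)) (κ : Ix e n),
        vec T (∑ a, algebraMap (T c).k ℂ ((T c).tw j (θ (prt T c j D w (κ' a)))) • Dd a) z κ =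
          algebraMap (T c).k ℂ ((T c).tw j (θ (prt T c j D w κ))) := by
      intro j κ
      rw [← sub_eq_zero]
      apply (forall_dual_apply_eq_zero_iff (T c).k _).1
      intro ψ
      have h4 := congrArg (fun y => (T c).tw j (θ y)) (hros κ c j ψ D hF hD)
      simp only [map_sum, hψmul, map_mul, (T c).tw_tw] at h4
      rw [map_sub, vec_sum_der, map_sum]
      have e1 : ψ (algebraMap (T c).k ℂ ((T c).tw j (θ (prt T c j D w κ)))) =
          (T c).tw j (θ (prt T c j D w κ)) * ψ 1 := by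
        have := hψmul ψ ((T c).tw j (θ (prt T c j D w κ))) 1
        rwa [mul_one] at this
      rw [e1]
      simp only [hψmul]
      rw [mul_comm _ (ψ 1), h4, sub_eq_zero]
      exact sum_congr rfl (fun a _ => mul_comm _ _)
    have := hB c (fun j => ∑ a, algebraMap (T c).k ℂ
      ((T c).tw j (θ (prt T c j D w (κ' a)))) • Dd a)
      (fun j => (DF F).sum_mem (fun a _ => (DF F).smul_mem _ (h0 a)))
      (fun i => θ ((T c).lam 0 D (w c i))) (fun j => ⟨fun i => ?_, fun κ hκ => ?_⟩)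
    · exact congrFun this i
    · have h5 := hvec j ⟨c, i, some j⟩
      have h6 : prt T c j D w ⟨c, i, some j⟩ = (T c).lam 0 D (w c i) := if_pos rfl
      rw [h6] at h5
      exact h5
    · rw [hvec]
      have h6 : prt T c j D w κ = 0 := if_neg hκ
      rw [h6, map_zero, map_zero, map_zero]
  intro D hF hD c m
  obtain ⟨ψ, hψ⟩ : ∃ ψ : ℂ →ₗ[(T c).k] (T c).k, ψ 1 ≠ 0 := by
    by_contra hcon
    push Not at hcon
    exact one_ne_zero ((forall_dual_apply_eq_zero_iff (T c).k (1 : ℂ)).1 hcon)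
  have h4 := ros_rel T hR (z := z) (w := w) (κ' := κ')
    (fun a => (T c).lam 0 (Dd a) (v c m)) (fun a => hk2 a c m) 0 (w' c m) ⟨c, 0⟩ 1 (by
      intro D' hF' hD'
      rw [map_zero, Rat.cast_one, one_mul, zero_add]
      exact (hrel D' hF' hD').2 c m) c 0 ψ D hF hD
  rw [if_pos rfl, sum_eq_zero, Rat.cast_one, one_mul] at h4
  · refine (mul_eq_zero.1 h4).resolve_left ?_
    rw [(T c).tw_zero]
    exact fun h => hψ ((map_eq_zero _).1 h)
  · intro a _
    have : prt T c 0 D w (κ' a) = 0 := by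
      unfold prt
      split_ifs
      · exact hom D hF hD _ _
      · rfl
    rw [this, mul_zero]

end Pool.Agent.TH813.G
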