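import Mathlib
import Pool.Agent.TH813.EllA
import Pool.Agent.W245.EB.CMz2
import Pool.Agent.H327R2.SC.Der

/-!
# The field of multiplications of a lattice
-/

set_option autoImplicit false

open Filter Finset
open scoped Topology PeriodPair ComplexConjugate

noncomputable section

namespace Pool.Agent.TH813.Ell

open H667R3 Pool.Agent.W245.EB

variable {L : PeriodPair}

/-- the differential of `ζ(z) - κ z`, corrected by the algebraic differential `(℘ + κ) om` -/
def xi (L : PeriodPair) (κ : ℂ) (D : Derivation ℚ ℂ ℂ) (z : ℂ) : ℂ :=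
  et L D z + κ * (om L D z - D z)

theorem mult_int (n : ℤ) : ∀ w ∈ L.lattice, (n : ℂ) * w ∈ L.lattice := fun w hw => by
  have := L.lattice.smul_mem n hw
  rwa [zsmul_eq_mul] at this

theorem mult_nat (n : ℕ) : ∀ w ∈ L.lattice, (n : ℂ) * w ∈ L.lattice := fun w hw => by
  have := mult_int (L := L) (n : ℤ) w hw
  rwa [Int.cast_natCast] at this

/-- the complex conjugate of a multiplication is a multiplication -/
theorem conj_cases {α : ℂ} (hm : ∀ w ∈ L.lattice, α * w ∈ L.lattice) :
    conj α = α ∨ ∃ T : ℤ, conj α = T - α := by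
  by_cases hα : α = 0
  · left; rw [hα, map_zero]
  obtain ⟨T, Δ, -, h⟩ := exists_det hα hm
  have h1 := congrArg conj h
  rw [map_mul, map_sub, map_intCast, map_intCast] at h1
  have h2 : (conj α - α) * ((T : ℂ) - α - conj α) = 0 := by linear_combination h1 - h
  rcases mul_eq_zero.1 h2 with h3 | h3
  · left; linear_combination h3
  · right; exact ⟨T, by linear_combination -h3⟩

theorem mult_conj {α : ℂ} (hm : ∀ w ∈ L.lattice, α * w ∈ L.lattice) :
    ∀ w ∈ L.lattice, conj α * w ∈ L.lattice := by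
  intro w hw
  rcases conj_cases hm with h | ⟨T, h⟩
  · rw [h]; exact hm w hw
  · rw [h, sub_mul]
    exact sub_mem (mult_int T w hw) (hm w hw)

/-- the field of the multiplications of the rational space of the lattice -/
def kL (L : PeriodPair) : IntermediateField ℚ ℂ where
  carrier := {c | ∃ n : ℕ, 0 < n ∧ ∀ w ∈ L.lattice, (n * c) * w ∈ L.lattice}
  mul_mem' := by
    rintro a b ⟨n, hn, ha⟩ ⟨m, hm, hb⟩
    refine ⟨n * m, Nat.mul_pos hn hm, fun w hw => ?_⟩
    have h1 := ha _ (hb w hw)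
    convert h1 using 1
    push_cast; ring
  add_mem' := by
    rintro a b ⟨n, hn, ha⟩ ⟨m, hm, hb⟩
    refine ⟨n * m, Nat.mul_pos hn hm, fun w hw => ?_⟩
    have h1 := add_mem (mult_nat (L := L) m _ (ha w hw)) (mult_nat (L := L) n _ (hb w hw))
    convert h1 using 1
    push_cast; ring
  algebraMap_mem' := by
    intro q
    refine ⟨q.den, q.den_pos, fun w hw => ?_⟩
    have h1 := mult_int (L := L) q.num w hw
    convert h1 using 2
    rw [eq_ratCast]
    exact_mod_cast congrArg (fun x : ℚ => (x : ℂ)) (Rat.den_mul_eq_num q)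
  inv_mem' := by
    rintro a ⟨n, hn, ha⟩
    by_cases ha0 : a = 0
    · exact ⟨1, one_pos, fun w _ => by rw [ha0, inv_zero, mul_zero, zero_mul]; exact zero_mem _⟩
    have hn0 : (n : ℂ) ≠ 0 := by exact_mod_cast hn.ne'
    obtain ⟨T, Δ, hΔ, h⟩ := exists_det (mul_ne_zero hn0 ha0) ha
    have hΔ0 : (Δ : ℂ) ≠ 0 := by exact_mod_cast hΔ
    have h1 : (Δ : ℂ) * a⁻¹ = n * (T - n * a) := by
      rw [← h]
      field_simp
    have h2 : ∀ w ∈ L.lattice, ((Δ : ℂ) * a⁻¹) * w ∈ L.lattice := by
      intro w hw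
      rw [h1]
      have h3 := sub_mem (mult_int (L := L) T w hw) (ha w hw)
      have h4 := mult_nat (L := L) n _ h3
      convert h4 using 1
      ring
    refine ⟨Δ.natAbs, Int.natAbs_pos.2 hΔ, fun w hw => ?_⟩
    rcases Int.natAbs_eq Δ with h5 | h5
    · have : ((Δ.natAbs : ℕ) : ℂ) = (Δ : ℂ) := by
        conv_rhs => rw [h5]
        simp
      rw [this]
      exact h2 w hw
    · have : ((Δ.natAbs : ℕ) : ℂ) = -(Δ : ℂ) := by
        conv_rhs => rw [h5]
        simp
      rw [this, neg_mul, neg_mul]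
      exact neg_mem (h2 w hw)

theorem mem_kL {c : ℂ} :
    c ∈ kL L ↔ ∃ n : ℕ, 0 < n ∧ ∀ w ∈ L.lattice, (n * c) * w ∈ L.lattice := Iff.rfl

theorem mult_mem_kL {c : ℂ} (h : ∀ w ∈ L.lattice, c * w ∈ L.lattice) : c ∈ kL L :=
  ⟨1, one_pos, fun w hw => by rw [Nat.cast_one, one_mul]; exact h w hw⟩

theorem conj_mem_kL {c : ℂ} (h : c ∈ kL L) : conj c ∈ kL L := by
  obtain ⟨n, hn, h⟩ := h
  refine ⟨n, hn, fun w hw => ?_⟩
  have := mult_conj h w hw
  rwa [map_mul, map_natCast] at this

/-- the multiplications are killed by all derivations -/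
theorem der_kL (D : Derivation ℚ ℂ ℂ) {c : ℂ} (h : c ∈ kL L) : D c = 0 := by
  obtain ⟨n, hn, h⟩ := h
  have h1 : D ((n : ℂ) * c) = 0 :=
    Pool.Agent.H327R2.SC.der_alg (⊥ : IntermediateField ℚ ℂ) D (fun x hx => by
      obtain ⟨q, rfl⟩ := IntermediateField.mem_bot.1 hx
      exact D.map_algebraMap q)
      ((alg_of_mul h).extendScalars (algebraMap ℚ (⊥ : IntermediateField ℚ ℂ)).injective)
  rw [Derivation.leibniz, D.map_natCast, smul_zero, add_zero, smul_eq_mul] at h1
  exact (mul_eq_zero.1 h1).resolve_left (by exact_mod_cast hn.ne')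

end Pool.Agent.TH813.Ell
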