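import Mathlib
import Pool.Agent.TH813.EllRos2
import Pool.Agent.TH813.Ell0K

/-!
# An elliptic analogue of the theorem of Rosenlicht, with complex multiplication
-/

set_option autoImplicit false
set_option linter.unusedSectionVars false

open Filter Finset
open scoped Topology PeriodPair ComplexConjugate

noncomputable section

namespace Pool.Agent.TH813.Ell

open H667R3 Pool.Agent.W245.EB

variable {L : PeriodPair} {κ : ℂ}

/-- the number `κ` belongs to a differential of the second kind which is an eigenvector of the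
multiplications -/
structure Eig (L : PeriodPair) (κ : ℂ) : Prop where
  kill : ∀ D : Derivation ℚ ℂ ℂ, D L.g₂ = 0 → D L.g₃ = 0 → D κ = 0
  om_mul : ∀ D : Derivation ℚ ℂ ℂ, D L.g₂ = 0 → D L.g₃ = 0 → ∀ c ∈ kL L, ∀ z,
    om L D (c * z) = c * om L D z
  xi_mul : ∀ D : Derivation ℚ ℂ ℂ, D L.g₂ = 0 → D L.g₃ = 0 → ∀ c ∈ kL L, ∀ z,
    xi L κ D (c * z) = conj c * xi L κ D z

theorem xi_zero (D : Derivation ℚ ℂ ℂ) : xi L κ D 0 = 0 := by
  unfold xi
  rw [et_zero, om_zero, map_zero, sub_zero, mul_zero, add_zero]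

theorem xi_add (D : Derivation ℚ ℂ ℂ) (h2 : D L.g₂ = 0) (h3 : D L.g₃ = 0) (u v : ℂ) :
    xi L κ D (u + v) = xi L κ D u + xi L κ D v := by
  unfold xi
  rw [et_add L D h2 h3, om_add L D h2 h3, map_add]
  ring

theorem xi_sum (D : Derivation ℚ ℂ ℂ) (h2 : D L.g₂ = 0) (h3 : D L.g₃ = 0) {ι : Type*}
    (s : Finset ι) (v : ι → ℂ) : xi L κ D (∑ i ∈ s, v i) = ∑ i ∈ s, xi L κ D (v i) := by
  classical
  induction s using Finset.induction_on with
  | empty => simp [xi_zero]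
  | insert a s ha ih => rw [sum_insert ha, sum_insert ha, xi_add D h2 h3, ih]

/-- the exact part -/
def zk (L : PeriodPair) (κ : ℂ) (z : ℂ) : ℂ := zt L z - κ * z

theorem xi_eq (D : Derivation ℚ ℂ ℂ) (hκ : D κ = 0) (z : ℂ) :
    xi L κ D z = D (zk L κ z) + (℘[L] z + κ) * om L D z := by
  unfold xi et zk
  rw [map_sub, Derivation.leibniz, hκ, smul_zero, add_zero, smul_eq_mul]
  ring

section gen

variable {K₁ : Type*} [Field K₁] [Algebra K₁ ℂ] [CharZero K₁]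

/-- the elliptic logarithmic derivative of a point over the field of the generic point is a
multiplication of the lattice -/
theorem exists_mult {w : ℂ} (hw : 2 * w ∉ L.lattice)
    (hy : Transcendental K₁ (℘[L] w))
    (h2 : L.g₂ ∈ (algebraMap K₁ ℂ).range) (h3 : L.g₃ ∈ (algebraMap K₁ ℂ).range)
    (hkL : ∀ c ∈ kL L, c ∈ (algebraMap K₁ ℂ).range)
    (D : Derivation K₁ ℂ ℂ) (hD : D (℘[L] w) = ℘'[L] w) (Dq : Derivation ℚ ℂ ℂ)
    (hDq : ∀ z, Dq z = D z) {R : ℂ}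
    (hR : R ∈ L.lattice ∨
      (℘[L] R ∈ IntermediateField.adjoin K₁ ({℘[L] w, ℘'[L] w} : Set ℂ) ∧
        ℘'[L] R ∈ IntermediateField.adjoin K₁ ({℘[L] w, ℘'[L] w} : Set ℂ))) :
    ∃ n : ℂ, (∀ w ∈ L.lattice, n * w ∈ L.lattice) ∧ om L Dq R = n := by
  by_cases hRl : R ∈ L.lattice
  · exact ⟨0, fun w _ => by rw [zero_mul]; exact zero_mem _, by rw [om_of_mem L Dq hRl]⟩
  obtain ⟨hA, hB⟩ := hR.resolve_left hRl
  by_cases hB0 : ℘'[L] R = 0
  · exact ⟨0, fun w _ => by rw [zero_mul]; exact zero_mem _, by unfold om; rw [hB0, div_zero]⟩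
  obtain ⟨Θ, hk, -, -, hrep⟩ := transfer hw hy h2 h3 D hD
  obtain ⟨fA, hfA, hΘA, hder⟩ := hrep ⟨_, hA⟩
  obtain ⟨fB, hfB, hΘB, -⟩ := hrep ⟨_, hB⟩
  obtain ⟨γ2, hγ2⟩ := h2
  obtain ⟨γ3, hγ3⟩ := h3
  have hcurve := L.derivWeierstrassP_sq R hRl
  have e1 : (⟨_, hB⟩ : IntermediateField.adjoin K₁ ({℘[L] w, ℘'[L] w} : Set ℂ)) ^ 2 =
      4 * (⟨_, hA⟩ : IntermediateField.adjoin K₁ ({℘[L] w, ℘'[L] w} : Set ℂ)) ^ 3 -
        algebraMap K₁ _ γ2 * ⟨_, hA⟩ - algebraMap K₁ _ γ3 := by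
    apply Subtype.ext
    change ℘'[L] R ^ 2 = 4 * ℘[L] R ^ 3 - algebraMap K₁ ℂ γ2 * ℘[L] R - algebraMap K₁ ℂ γ3
    rw [hγ2, hγ3]
    exact hcurve
  have e2 := congrArg Θ e1
  rw [map_sub, map_sub, map_mul, map_mul, map_pow, map_pow, hk, hk, hΘA, hΘB, map_ofNat, hγ2,
    hγ3] at e2
  have e3 : (fun z => fB z ^ 2) =ᶠ[codiscrete ℂ]
      fun z => 4 * fA z ^ 3 - L.g₂ * fA z - L.g₃ := Germ.coe_eq.1 e2
  obtain ⟨c, hc, hc2⟩ := endo hfA hfB e3
  obtain ⟨cK, hcK⟩ := hkL c (mult_mem_kL hc)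
  refine ⟨c, hc, ?_⟩
  have hDA := der_mem hw ⟨γ2, hγ2⟩ ⟨γ3, hγ3⟩ D hD hA
  have e4 := hder ⟨_, hDA⟩ rfl
  have e5 : Θ ⟨_, hDA⟩ = Θ (algebraMap K₁ (IntermediateField.adjoin K₁
      ({℘[L] w, ℘'[L] w} : Set ℂ)) cK * ⟨_, hB⟩) := by
    rw [e4, map_mul, hk, hΘB, hcK]
    exact Germ.coe_eq.2 hc2
  have : Nontrivial (Germ (codiscrete ℂ) ℂ) := by
    infer_instance
  have e6 := congrArg Subtype.val (Θ.injective e5)
  have e7 : D (℘[L] R) = algebraMap K₁ ℂ cK * ℘'[L] R := e6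
  unfold om
  rw [hDq, e7, hcK, mul_div_cancel_right₀ _ hB0]

/-- **Key lemma**: the case of a generic point -/
theorem key_oneK (hE : Eig L κ) {w : ℂ} (hw : 2 * w ∉ L.lattice)
    (hy : Transcendental K₁ (℘[L] w))
    (halg : Algebra.IsAlgebraic (IntermediateField.adjoin K₁ {℘[L] w}) ℂ)
    (h2 : L.g₂ ∈ (algebraMap K₁ ℂ).range) (h3 : L.g₃ ∈ (algebraMap K₁ ℂ).range)
    (hkL : ∀ c ∈ kL L, c ∈ (algebraMap K₁ ℂ).range) (hκ : κ ∈ (algebraMap K₁ ℂ).range)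
    (D : Derivation K₁ ℂ ℂ) (hD : D (℘[L] w) = ℘'[L] w) (Dq : Derivation ℚ ℂ ℂ)
    (hDq : ∀ z, Dq z = D z) {m n : ℕ} (β : Fin m → K₁) (u : Fin m → ℂ) (hu : ∀ l, u l ≠ 0)
    (b c : Fin n → K₁) (v : Fin n → ℂ) (x : ℂ)
    (hrel : Dq x = ∑ l, algebraMap K₁ ℂ (β l) * (Dq (u l) / u l) +
      ∑ j, (algebraMap K₁ ℂ (b j) * om L Dq (v j) +
        algebraMap K₁ ℂ (c j) * ((℘[L] (v j) + κ) * om L Dq (v j)))) :
    ∃ (d : ℕ) (N : Fin n → ℂ), 0 < d ∧ (∀ j, ∀ w ∈ L.lattice, N j * w ∈ L.lattice) ∧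
      ∑ j, algebraMap K₁ ℂ (b j) * N j = 0 ∧ ∑ j, algebraMap K₁ ℂ (c j) * conj (N j) = 0 ∧
      ∀ a : Fin n → ℂ, (∀ j, a j ∈ kL L) → w = ∑ j, a j * v j → ∑ j, a j * N j = d := by
  classical
  obtain ⟨κ₁, hκ₁⟩ := hκ
  set E := IntermediateField.adjoin K₁ ({℘[L] w, ℘'[L] w} : Set ℂ) with hEdef
  have hyE : ℘[L] w ∈ E := IntermediateField.subset_adjoin _ _ (Or.inl rfl)
  have hyE' : ℘'[L] w ∈ E := IntermediateField.subset_adjoin _ _ (Or.inr rfl)
  have hle : IntermediateField.adjoin K₁ {℘[L] w} ≤ E := by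
    rw [IntermediateField.adjoin_le_iff]
    rintro _ rfl
    exact hyE
  have hEalg : Algebra.IsAlgebraic E ℂ := by
    refine ⟨fun z => ?_⟩
    obtain ⟨p, hp, hpz⟩ := halg.isAlgebraic z
    refine ⟨p.map (IntermediateField.inclusion hle).toRingHom,
      (Polynomial.map_ne_zero_iff (IntermediateField.inclusion hle).toRingHom.injective).2 hp, ?_⟩
    rw [Polynomial.aeval_def, Polynomial.eval₂_map]
    exact hpz
  have hEch : CharZero E := charZero_of_injective_algebraMap (algebraMap K₁ E).injective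
  have hrange : ∀ z, z ∈ (algebraMap E ℂ).range ↔ z ∈ E := by
    intro z
    constructor
    · rintro ⟨e, rfl⟩
      exact e.2
    · intro hz
      exact ⟨⟨z, hz⟩, rfl⟩
  have hKE : ∀ k : K₁, algebraMap K₁ ℂ k ∈ E := fun k => E.algebraMap_mem k
  have h2E : L.g₂ ∈ (algebraMap E ℂ).range := by
    obtain ⟨γ, hγ⟩ := h2
    rw [hrange, ← hγ]
    exact hKE γ
  have h3E : L.g₃ ∈ (algebraMap E ℂ).range := by
    obtain ⟨γ, hγ⟩ := h3
    rw [hrange, ← hγ]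
    exact hKE γ
  have hDk : ∀ k : K₁, Dq (algebraMap K₁ ℂ k) = 0 := fun k => by
    rw [hDq]; exact D.map_algebraMap k
  have hd2 : Dq L.g₂ = 0 := by
    obtain ⟨γ, hγ⟩ := h2
    rw [← hγ]; exact hDk γ
  have hd3 : Dq L.g₃ = 0 := by
    obtain ⟨γ, hγ⟩ := h3
    rw [← hγ]; exact hDk γ
  have hdκ : Dq κ = 0 := hE.kill Dq hd2 hd3
  have hcomm : ∀ (τ : ℂ ≃ₐ[E] ℂ) (z : ℂ), D (τ z) = τ (D z) := fun τ z =>
    comm_conj halg D hyE (by rw [hD]; exact hyE') τ z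
  have hcommq : ∀ (τ : ℂ ≃ₐ[E] ℂ) (z : ℂ), Dq (τ z) = τ (Dq z) := fun τ z => by
    rw [hDq, hDq, hcomm]
  have hfix : ∀ (τ : ℂ ≃ₐ[E] ℂ), ∀ e ∈ E, τ e = e := fun τ e he => τ.commutes ⟨e, he⟩
  have hκE : κ ∈ E := by rw [← hκ₁]; exact hKE κ₁
  have hkE : ∀ c ∈ kL L, c ∈ E := fun c hc => by
    obtain ⟨cK, hcK⟩ := hkL c hc
    rw [← hcK]; exact hKE cK
  have hwl : w ∉ L.lattice := fun h => hw (by rw [two_mul]; exact add_mem h h)
  have hw' : ℘'[L] w ≠ 0 := wp'_ne_zero L hw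
  have homw : om L Dq w = 1 := by
    unfold om
    rw [hDq, hD, div_self hw']
  obtain ⟨ι, _, _, τ, v', -, hN, hv', hR⟩ := conj_family (L := L) (E := E) h2E h3E
    (fun _ : Fin 0 => (0 : ℂ)) u v
  set N' : Fin m → ℂ := fun l => ∏ i, τ i (u l) with hN'
  set R : Fin n → ℂ := fun j => ∑ i, v' i j with hRdef
  have hN'0 : ∀ l, N' l ≠ 0 := fun l => prod_ne_zero_iff.2 (fun i _ => (map_ne_zero (τ i)).2 (hu l))
  have homc : ∀ i j, om L Dq (v' i j) = τ i (om L Dq (v j)) := fun i j =>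
    om_cj hDq (τ i) (hcomm (τ i)) (hv' i j)
  have hwpc : ∀ i j, (℘[L] (v' i j) + κ) * om L Dq (v' i j) =
      τ i ((℘[L] (v j) + κ) * om L Dq (v j)) := by
    intro i j
    have h4 := wpom_cj hDq (τ i) (hcomm (τ i)) (hv' i j)
    rw [add_mul, h4, homc, add_mul, map_add, map_mul (τ i) κ, hfix (τ i) κ hκE]
  have hch : ∀ j, ∃ n : ℂ, (∀ w ∈ L.lattice, n * w ∈ L.lattice) ∧ om L Dq (R j) = n := fun j => by
    refine exists_mult hw hy h2 h3 hkL D hD Dq hDq ?_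
    rcases hR j with h | ⟨ha, hb⟩
    · exact Or.inl h
    · exact Or.inr ⟨(hrange _).1 ha, (hrange _).1 hb⟩
  choose Nn hNm hNn using hch
  have hNk : ∀ j, Nn j ∈ kL L := fun j => mult_mem_kL (hNm j)
  have hNk' : ∀ j, conj (Nn j) ∈ kL L := fun j => conj_mem_kL (hNk j)
  choose nK hnK using fun j => hkL _ (hNk j)
  choose nK' hnK' using fun j => hkL _ (hNk' j)
  -- the constants
  set r : Fin n → ℂ := fun j => R j - Nn j * w with hr
  have hR' : ∀ j, R j = Nn j * w + r j := fun j => by rw [hr]; ring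
  have homr : ∀ j, om L Dq (r j) = 0 := by
    intro j
    have h1 := hNn j
    rw [hR' j, om_add L Dq hd2 hd3, hE.om_mul Dq hd2 hd3 _ (hNk j), homw] at h1
    linear_combination h1
  have hxir : ∀ j, xi L κ Dq (r j) = Dq (zk L κ (r j)) := fun j => by
    rw [xi_eq Dq hdκ, homr, mul_zero, add_zero]
  have hxiR : ∀ j, xi L κ Dq (R j) = conj (Nn j) * (Dq (zk L κ w) + (℘[L] w + κ)) +
      Dq (zk L κ (r j)) := by
    intro j
    rw [hR' j, xi_add Dq hd2 hd3, hE.xi_mul Dq hd2 hd3 _ (hNk j), hxir, xi_eq Dq hdκ w, homw,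
      mul_one]
  have hsumwp : ∀ j, ∑ i, τ i ((℘[L] (v j) + κ) * om L Dq (v j)) =
      conj (Nn j) * (℘[L] w + κ) +
        Dq (conj (Nn j) * zk L κ w + zk L κ (r j) - ∑ i, zk L κ (v' i j)) := by
    intro j
    have h1 : xi L κ Dq (R j) =
        ∑ i, (Dq (zk L κ (v' i j)) + (℘[L] (v' i j) + κ) * om L Dq (v' i j)) := by
      rw [hRdef]
      simp only
      rw [xi_sum Dq hd2 hd3]
      exact sum_congr rfl (fun i _ => xi_eq Dq hdκ _)
    rw [hxiR, sum_add_distrib] at h1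
    rw [sum_congr rfl (fun i _ => (hwpc i j).symm), map_sub, map_add, map_sum, Derivation.leibniz,
      der_kL Dq (hNk' j), smul_zero, add_zero, smul_eq_mul]
    linear_combination -h1
  have hsumom : ∀ j, ∑ i, τ i (om L Dq (v j)) = Nn j := by
    intro j
    rw [← hNn j, hRdef]
    simp only
    rw [om_sum Dq hd2 hd3]
    exact sum_congr rfl (fun i _ => (homc i j).symm)
  have hlog : ∀ l, ∑ i, τ i (Dq (u l) / u l) = Dq (N' l) / N' l := by
    intro l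
    have h2 := Pool.Agent.H327R2.SC.logder Dq univ (fun i => τ i (u l))
      (fun i _ => (map_ne_zero (τ i)).2 (hu l)) (fun _ => 1)
    simp only [zpow_one, Int.cast_one, one_mul] at h2
    rw [hN']
    simp only
    rw [h2, mul_div_cancel_left₀ _ (prod_ne_zero_iff.2
      (fun i _ => (map_ne_zero (τ i)).2 (hu l)))]
    refine sum_congr rfl (fun i _ => ?_)
    rw [hcommq, map_div₀]
  -- the traced relation
  set X : ℂ := ∑ i, τ i x - ∑ j, algebraMap K₁ ℂ (c j) *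
    (conj (Nn j) * zk L κ w + zk L κ (r j) - ∑ i, zk L κ (v' i j)) with hX
  set aK : K₁ := ∑ j, b j * nK j + κ₁ * ∑ j, c j * nK' j with haK
  set cK : K₁ := ∑ j, c j * nK' j with hcK
  have haK' : algebraMap K₁ ℂ aK = ∑ j, algebraMap K₁ ℂ (b j) * Nn j +
      κ * ∑ j, algebraMap K₁ ℂ (c j) * conj (Nn j) := by
    rw [haK, map_add, map_mul, map_sum, map_sum, hκ₁]
    simp only [map_mul, hnK, hnK']
  have hcK' : algebraMap K₁ ℂ cK = ∑ j, algebraMap K₁ ℂ (c j) * conj (Nn j) := by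
    rw [hcK, map_sum]
    simp only [map_mul, hnK']
  have hX1 : Dq X = ∑ l, algebraMap K₁ ℂ (β l) * (Dq (N' l) / N' l) +
      algebraMap K₁ ℂ aK + algebraMap K₁ ℂ cK * ℘[L] w := by
    have h1 : ∀ i, Dq (τ i x) = ∑ l, algebraMap K₁ ℂ (β l) * τ i (Dq (u l) / u l) +
        ∑ j, (algebraMap K₁ ℂ (b j) * τ i (om L Dq (v j)) +
          algebraMap K₁ ℂ (c j) * τ i ((℘[L] (v j) + κ) * om L Dq (v j))) := by
      intro i
      rw [hcommq, hrel, map_add, map_sum, map_sum]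
      congr 1
      · exact sum_congr rfl (fun l _ => by rw [map_mul, hfix (τ i) _ (hKE _)])
      · exact sum_congr rfl (fun j _ => by
          rw [map_add, map_mul, map_mul (τ i) (algebraMap K₁ ℂ (c j)), hfix (τ i) _ (hKE _),
            hfix (τ i) _ (hKE _)])
    have h4 : Dq (∑ i, τ i x) = ∑ l, algebraMap K₁ ℂ (β l) * (Dq (N' l) / N' l) +
        ∑ j, (algebraMap K₁ ℂ (b j) * Nn j + algebraMap K₁ ℂ (c j) *
          (conj (Nn j) * (℘[L] w + κ) +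
            Dq (conj (Nn j) * zk L κ w + zk L κ (r j) - ∑ i, zk L κ (v' i j)))) := by
      rw [map_sum, sum_congr rfl (fun i _ => h1 i), sum_add_distrib, sum_comm]
      congr 1
      · refine sum_congr rfl (fun l _ => ?_)
        rw [← mul_sum, hlog]
      · rw [sum_comm]
        refine sum_congr rfl (fun j _ => ?_)
        rw [sum_add_distrib, ← mul_sum, ← mul_sum, hsumom, hsumwp]
    have h5 : ∀ j, Dq (algebraMap K₁ ℂ (c j) *
        (conj (Nn j) * zk L κ w + zk L κ (r j) - ∑ i, zk L κ (v' i j))) =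
        algebraMap K₁ ℂ (c j) *
          Dq (conj (Nn j) * zk L κ w + zk L κ (r j) - ∑ i, zk L κ (v' i j)) := by
      intro j
      rw [Derivation.leibniz, hDk, smul_zero, add_zero, smul_eq_mul]
    rw [hX, map_sub, h4, map_sum, sum_congr rfl (fun j _ => h5 j), haK', hcK',
      add_sub_assoc, ← sum_sub_distrib, add_assoc]
    congr 1
    rw [mul_sum, sum_mul, ← sum_add_distrib, ← sum_add_distrib]
    exact sum_congr rfl (fun j _ => by ring)
  -- a second trace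
  obtain ⟨ι₂, _, _, τ₂, _, hXs, -, -, -⟩ := conj_family (L := L) (E := E) h2E h3E
    (fun _ : Fin 1 => X) (fun _ : Fin 0 => (0 : ℂ)) (fun _ : Fin 0 => (0 : ℂ))
  set g : ℂ := ∑ i, τ₂ i X with hg
  have hgE : g ∈ E := (hrange _).1 (hXs 0)
  have hNE : ∀ l, N' l ∈ E := fun l => (hrange _).1 (hN l)
  have hDE : ∀ e ∈ E, D e ∈ E := fun e he => der_mem hw h2 h3 D hD he
  have hrhsE : Dq X ∈ E := by
    rw [hX1]
    refine add_mem (add_mem (sum_mem (fun l _ => mul_mem (hKE _) (div_mem ?_ (hNE l))))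
      (hKE _)) (mul_mem (hKE _) hyE)
    rw [hDq]
    exact hDE _ (hNE l)
  have hDg : Dq g = (Fintype.card ι₂ : ℂ) * Dq X := by
    rw [hg, map_sum, sum_congr rfl (fun i _ => (hcommq (τ₂ i) X).trans (hfix (τ₂ i) _ hrhsE)),
      sum_const, card_univ, nsmul_eq_mul]
  -- transfer
  obtain ⟨Θ, hk, hΘ1, -, hrep⟩ := transfer hw hy h2 h3 D hD
  have hnt : Nontrivial (Germ (codiscrete ℂ) ℂ) := by infer_instance
  obtain ⟨fg, hfg, hΘg, hderg⟩ := hrep ⟨g, hgE⟩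
  choose fN hfN hΘN hderN using fun l => hrep ⟨N' l, hNE l⟩
  set β' : Fin m → K₁ := fun l => (Fintype.card ι₂ : K₁) * β l with hβ'
  set a' : K₁ := (Fintype.card ι₂ : K₁) * aK with ha'
  set c' : K₁ := (Fintype.card ι₂ : K₁) * cK with hc'
  have hdiv : ∀ l, (⟨D (N' l), hDE _ (hNE l)⟩ / ⟨N' l, hNE l⟩ : E) * ⟨N' l, hNE l⟩ =
      ⟨D (N' l), hDE _ (hNE l)⟩ := fun l =>
    div_mul_cancel₀ _ (fun h => hN'0 l (congrArg Subtype.val h))
  have e1 : (⟨D g, hDE g hgE⟩ : E) = ∑ l, algebraMap K₁ E (β' l) *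
      (⟨D (N' l), hDE _ (hNE l)⟩ / ⟨N' l, hNE l⟩) +
      algebraMap K₁ E a' + algebraMap K₁ E c' * ⟨℘[L] w, hyE⟩ := by
    apply Subtype.ext
    change D g = E.val (∑ l, algebraMap K₁ E (β' l) *
      (⟨D (N' l), hDE _ (hNE l)⟩ / ⟨N' l, hNE l⟩) +
      algebraMap K₁ E a' + algebraMap K₁ E c' * ⟨℘[L] w, hyE⟩)
    have hcoe : ∀ k : K₁, E.val (algebraMap K₁ E k) = algebraMap K₁ ℂ k := fun k => rfl
    have hr : E.val (∑ l, algebraMap K₁ E (β' l) *
        (⟨D (N' l), hDE _ (hNE l)⟩ / ⟨N' l, hNE l⟩) +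
        algebraMap K₁ E a' + algebraMap K₁ E c' * ⟨℘[L] w, hyE⟩) =
        ∑ l, algebraMap K₁ ℂ (β' l) * (D (N' l) / N' l) + algebraMap K₁ ℂ a' +
          algebraMap K₁ ℂ c' * ℘[L] w := by
      rw [map_add E.val, map_add E.val, map_sum E.val, map_mul E.val _ ⟨℘[L] w, hyE⟩, hcoe, hcoe]
      congr 2
    have hb : ∀ l, algebraMap K₁ ℂ (β' l) = (Fintype.card ι₂ : ℂ) * algebraMap K₁ ℂ (β l) := by
      intro l
      rw [hβ']
      simp only
      rw [map_mul, map_natCast]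
    have ha0 : algebraMap K₁ ℂ a' = (Fintype.card ι₂ : ℂ) * algebraMap K₁ ℂ aK := by
      rw [ha', map_mul, map_natCast]
    have hc0 : algebraMap K₁ ℂ c' = (Fintype.card ι₂ : ℂ) * algebraMap K₁ ℂ cK := by
      rw [hc', map_mul, map_natCast]
    rw [hr, ← hDq, hDg, hX1, ha0, hc0, mul_add, mul_add, mul_sum, mul_assoc]
    congr 2
    refine sum_congr rfl (fun l _ => ?_)
    rw [hb, mul_assoc, hDq]
  have hne : ∀ l, ∀ᶠ z in codiscrete ℂ, fN l z ≠ 0 := by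
    intro l
    obtain ⟨q, -, hΘq, -⟩ := hrep (⟨N' l, hNE l⟩⁻¹ : E)
    have h1 : (⟨N' l, hNE l⟩ : E) * (⟨N' l, hNE l⟩⁻¹ : E) = 1 :=
      mul_inv_cancel₀ (fun h => hN'0 l (congrArg Subtype.val h))
    have h4 := congrArg Θ h1
    rw [map_mul, hΘN, hΘq, map_one] at h4
    have h5 : (fun z => fN l z * q z) =ᶠ[codiscrete ℂ] fun _ => 1 := Germ.coe_eq.1 h4
    filter_upwards [h5] with z hz h0
    rw [h0, zero_mul] at hz
    exact zero_ne_one hz
  have e3 : ∀ l, Θ (⟨D (N' l), hDE _ (hNE l)⟩ / ⟨N' l, hNE l⟩ : E) =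
      ((fun z => deriv (fN l) z / fN l z : ℂ → ℂ) : Germ (codiscrete ℂ) ℂ) := by
    intro l
    obtain ⟨q, -, hΘq, -⟩ := hrep (⟨D (N' l), hDE _ (hNE l)⟩ / ⟨N' l, hNE l⟩ : E)
    have h4 := congrArg Θ (hdiv l)
    rw [map_mul, hΘN, hΘq, hderN l _ rfl] at h4
    have h5 : (fun z => q z * fN l z) =ᶠ[codiscrete ℂ] deriv (fN l) := Germ.coe_eq.1 h4
    rw [hΘq]
    apply Germ.coe_eq.2
    filter_upwards [h5, hne l] with z hz h0
    rw [← hz, mul_div_cancel_right₀ _ h0]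
  have e2 := congrArg Θ e1
  rw [hderg ⟨D g, hDE g hgE⟩ rfl, map_add Θ, map_add Θ, map_mul Θ _ ⟨℘[L] w, hyE⟩, map_sum Θ] at e2
  have e4 : (deriv fg : Germ (codiscrete ℂ) ℂ) = Germ.coeRingHom (codiscrete ℂ)
      (∑ l, (fun z => algebraMap K₁ ℂ (β' l) * (deriv (fN l) z / fN l z)) +
        (fun _ => algebraMap K₁ ℂ a') + fun z => algebraMap K₁ ℂ c' * ℘[L] z) := by
    rw [map_add, map_add, map_sum]
    refine e2.trans ?_
    congr 1
    · congr 1
      · refine sum_congr rfl (fun l _ => ?_)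
        rw [map_mul, e3]
        exact congrArg (· * ((fun z => deriv (fN l) z / fN l z : ℂ → ℂ) :
          Germ (codiscrete ℂ) ℂ)) (hk (β' l))
      · exact hk a'
    · exact congrArg₂ (· * ·) (hk c') (hΘ1 ⟨_, hyE⟩ rfl)
  have e5 : deriv fg =ᶠ[codiscrete ℂ] fun z => ∑ l, algebraMap K₁ ℂ (β' l) *
      (deriv (fN l) z / fN l z) + algebraMap K₁ ℂ a' + algebraMap K₁ ℂ c' * ℘[L] z := by
    have h6 := Germ.coe_eq.1 e4
    filter_upwards [h6] with z hz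
    rw [hz]
    simp only [Pi.add_apply, Finset.sum_apply]
  obtain ⟨ha0, hc0⟩ := noexact (fun l => algebraMap K₁ ℂ (β' l)) _ _ hfg hfN (fun l h => by
    obtain ⟨z, hz1, hz2⟩ := ((hne l).and h).exists
    exact hz1 hz2) e5
  have hinj : Function.Injective (algebraMap K₁ ℂ) := (algebraMap K₁ ℂ).injective
  have hcard : (Fintype.card ι₂ : K₁) ≠ 0 := by exact_mod_cast Fintype.card_ne_zero
  have hcK0 : cK = 0 := by
    have h6 : c' = 0 := hinj (by rw [hc0, map_zero])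
    exact (mul_eq_zero.1 h6).resolve_left hcard
  have haK0 : aK = 0 := by
    have h6 : a' = 0 := hinj (by rw [ha0, map_zero])
    exact (mul_eq_zero.1 h6).resolve_left hcard
  have hcC : ∑ j, algebraMap K₁ ℂ (c j) * conj (Nn j) = 0 := by
    rw [← hcK', hcK0, map_zero]
  refine ⟨Fintype.card ι, Nn, Fintype.card_pos, hNm, ?_, hcC, fun a haL ha => ?_⟩
  · have h6 := haK'
    rw [haK0, map_zero, hcC, mul_zero, add_zero] at h6
    exact h6.symm
  · have h6 : ∑ j, a j * om L Dq (v j) = 1 := by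
      rw [← homw, ha, om_sum Dq hd2 hd3]
      exact sum_congr rfl (fun j _ => (hE.om_mul Dq hd2 hd3 _ (haL j) _).symm)
    calc ∑ j, a j * Nn j = ∑ j, ∑ i, τ i (a j * om L Dq (v j)) := by
            refine sum_congr rfl (fun j _ => ?_)
            rw [← hsumom, mul_sum]
            exact sum_congr rfl (fun i _ => by rw [map_mul, hfix (τ i) _ (hkE _ (haL j))])
      _ = ∑ i, τ i (∑ j, a j * om L Dq (v j)) := by
            rw [sum_comm]
            exact sum_congr rfl (fun i _ => by rw [map_sum])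
      _ = ∑ _i : ι, (1 : ℂ) := sum_congr rfl (fun i _ => by rw [h6, map_one])
      _ = _ := by rw [sum_const, card_univ, nsmul_eq_mul, mul_one]

end gen

end Pool.Agent.TH813.Ell
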