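import Mathlib
import Pool.Agent.TH813.EKRos

/-!
# The theorem of Rosenlicht for logarithmic and elliptic differentials, with complex multiplication
-/

set_option autoImplicit false

open Finset Module
open scoped PeriodPair ComplexConjugate

noncomputable section

namespace Pool.Agent.TH813.Ell

open H667R3 Pool.Agent.W245.EB

variable {L : PeriodPair} {κ : ℂ}

/-- the case of a vector of multiplications -/
theorem ros_linK (hE : Eig L κ) (K : IntermediateField ℚ ℂ) (h2 : L.g₂ ∈ K) (h3 : L.g₃ ∈ K)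
    (hkL : ∀ c ∈ kL L, c ∈ K) (hκ : κ ∈ K)
    {m n : ℕ} (β u : Fin m → ℂ) (hβ : ∀ l, β l ∈ K) (hu : ∀ l, u l ≠ 0)
    (b c v : Fin n → ℂ) (hb : ∀ j, b j ∈ K) (hc : ∀ j, c j ∈ K) (x : ℂ)
    (h : ∀ D : Derivation ℚ ℂ ℂ, (∀ w ∈ K, D w = 0) → D x = ∑ l, β l * (D (u l) / u l) +
      ∑ j, (b j * om L D (v j) + c j * ((℘[L] (v j) + κ) * om L D (v j))))
    (a : Fin n → ℂ) (haL : ∀ j, a j ∈ kL L) (ha : ∀ N : Fin n → ℂ, (∀ j, N j ∈ kL L) →
      ∑ j, b j * N j = 0 → ∑ j, c j * conj (N j) = 0 → ∑ j, a j * N j = 0) :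
    ∀ D : Derivation ℚ ℂ ℂ, (∀ w ∈ K, D w = 0) → ∑ j, a j * om L D (v j) = 0 := by
  intro D₀ hD₀
  by_contra hne
  set w : ℂ := ∑ j, a j * v j with hw
  have homw : om L D₀ w = ∑ j, a j * om L D₀ (v j) := by
    rw [hw, om_sum D₀ (hD₀ _ h2) (hD₀ _ h3)]
    exact sum_congr rfl (fun j _ => hE.om_mul D₀ (hD₀ _ h2) (hD₀ _ h3) _ (haL j) _)
  rw [← homw] at hne
  have hw2 : 2 * w ∉ L.lattice := fun h => hne (om_of_two_mul_mem L D₀ h)
  have hwl : w ∉ L.lattice := fun h => hne (om_of_mem L D₀ h)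
  have hDy : D₀ (℘[L] w) ≠ 0 := by
    intro h0
    apply hne
    unfold om
    rw [h0, zero_div]
  obtain ⟨K₁, D₁, h1, h4, h5⟩ := Ros.exists_setup K (Ros.trans_of_der K D₀ hD₀ hDy)
  have : CharZero K := charZero_of_injective_algebraMap (algebraMap ℚ K).injective
  have : CharZero K₁ := charZero_of_injective_algebraMap (algebraMap K K₁).injective
  let D : Derivation K₁ ℂ ℂ := ℘'[L] w • D₁
  have hD : D (℘[L] w) = ℘'[L] w := by
    change ℘'[L] w • D₁ (℘[L] w) = _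
    rw [h5, smul_eq_mul, mul_one]
  let Dq : Derivation ℚ ℂ ℂ := (D.restrictScalars K).restrictScalars ℚ
  have hkill : ∀ w ∈ K, Dq w = 0 := fun w hw =>
    (D.restrictScalars K).map_algebraMap (⟨w, hw⟩ : K)
  obtain ⟨d, N, hd, hNm, hN1, hN2, hN3⟩ := key_oneK (L := L) (K₁ := K₁) hE hw2 h1 h4
    ⟨algebraMap K K₁ ⟨_, h2⟩, rfl⟩ ⟨algebraMap K K₁ ⟨_, h3⟩, rfl⟩
    (fun c hc => ⟨algebraMap K K₁ ⟨c, hkL c hc⟩, rfl⟩) ⟨algebraMap K K₁ ⟨κ, hκ⟩, rfl⟩
    D hD Dq (fun z => rfl)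
    (fun l => algebraMap K K₁ ⟨β l, hβ l⟩) u hu (fun j => algebraMap K K₁ ⟨b j, hb j⟩)
    (fun j => algebraMap K K₁ ⟨c j, hc j⟩) v x (h Dq hkill)
  have h6 := ha N (fun j => mult_mem_kL (hNm j)) hN1 hN2
  have h7 := hN3 a haL hw
  rw [h6] at h7
  have h8 : (d : ℂ) ≠ 0 := by exact_mod_cast hd.ne'
  exact h8 h7.symm

theorem psi_mul (ψ : ℂ →ₗ[kL L] kL L) {c : ℂ} (hc : c ∈ kL L) (z : ℂ) :
    (ψ (c * z) : ℂ) = c * ψ z := by
  have h1 : c * z = (⟨c, hc⟩ : kL L) • z := rfl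
  rw [h1, map_smul]
  rfl

theorem psi_sumK (ψ : ℂ →ₗ[kL L] kL L) {n : ℕ} (b N : Fin n → ℂ) (hN : ∀ j, N j ∈ kL L) :
    (ψ (∑ j, b j * N j) : ℂ) = ∑ j, (ψ (b j) : ℂ) * N j := by
  rw [map_sum]
  push_cast
  exact sum_congr rfl (fun j _ => by rw [mul_comm, psi_mul ψ (hN j), mul_comm])

/-- coordinates on the span of finitely many numbers over the field of multiplications -/
theorem exists_coordK {K : IntermediateField ℚ ℂ} (hkL : ∀ c ∈ kL L, c ∈ K) {n : ℕ}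
    (c : Fin n → ℂ) (hc : ∀ j, c j ∈ K) :
    ∃ (d : ℕ) (e : Fin d → ℂ) (ψ : Fin d → (ℂ →ₗ[kL L] kL L)), (∀ k, e k ∈ K) ∧
      ∀ j, c j = ∑ k, (ψ k (c j) : ℂ) * e k := by
  classical
  let S := Submodule.span (kL L) (Set.range c)
  have : FiniteDimensional (kL L) S := FiniteDimensional.span_of_finite _ (Set.finite_range c)
  let B := finBasis (kL L) S
  obtain ⟨g, hg⟩ := LinearMap.exists_leftInverse_of_injective S.subtype (Submodule.ker_subtype _)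
  have hgS : ∀ x (hx : x ∈ S), g x = ⟨x, hx⟩ := fun x hx =>
    LinearMap.congr_fun hg ⟨x, hx⟩
  have hSK : ∀ x ∈ S, x ∈ K := by
    intro x hx
    induction hx using Submodule.span_induction with
    | mem x hx =>
      obtain ⟨j, rfl⟩ := hx
      exact hc j
    | zero => exact K.zero_mem
    | add a b _ _ ha hb => exact K.add_mem ha hb
    | smul q a _ ha => exact K.mul_mem (hkL q q.2) ha
  refine ⟨finrank (kL L) S, fun k => (B k : ℂ), fun k => B.coord k ∘ₗ g, fun k => hSK _ (B k).2,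
    fun j => ?_⟩
  have hj : c j ∈ S := Submodule.subset_span ⟨j, rfl⟩
  have h1 := congrArg (fun t : S => (t : ℂ)) (B.sum_repr ⟨c j, hj⟩)
  simp only [Submodule.coe_sum, Submodule.coe_smul] at h1
  have h2 : ∀ k, (B.coord k ∘ₗ g) (c j) = B.repr ⟨c j, hj⟩ k := fun k => by
    change B.repr (g (c j)) k = _
    rw [hgS _ hj]
  conv_lhs => rw [← h1]
  exact sum_congr rfl (fun k _ => by rw [h2]; rfl)

theorem om_linK (hE : Eig L κ) (D : Derivation ℚ ℂ ℂ) (h2 : D L.g₂ = 0) (h3 : D L.g₃ = 0) {n : ℕ}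
    (q v : Fin n → ℂ) (hq : ∀ j, q j ∈ kL L) :
    om L D (∑ j, q j * v j) = ∑ j, q j * om L D (v j) := by
  rw [om_sum D h2 h3]
  exact sum_congr rfl (fun j _ => hE.om_mul D h2 h3 _ (hq j) _)

theorem xi_linK (hE : Eig L κ) (D : Derivation ℚ ℂ ℂ) (h2 : D L.g₂ = 0) (h3 : D L.g₃ = 0) {n : ℕ}
    (q v : Fin n → ℂ) (hq : ∀ j, q j ∈ kL L) :
    xi L κ D (∑ j, q j * v j) = ∑ j, conj (q j) * xi L κ D (v j) := by
  rw [xi_sum D h2 h3]
  exact sum_congr rfl (fun j _ => hE.xi_mul D h2 h3 _ (hq j) _)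

/-- **Rosenlicht's theorem** for logarithmic differentials and differentials of the first and of
the second kind. -/
theorem rosK (hE : Eig L κ) (K : IntermediateField ℚ ℂ) (h2 : L.g₂ ∈ K) (h3 : L.g₃ ∈ K)
    (hkL : ∀ c ∈ kL L, c ∈ K) (hκ : κ ∈ K)
    {m n : ℕ} (β u : Fin m → ℂ) (hβ : ∀ l, β l ∈ K) (hu : ∀ l, u l ≠ 0)
    (b c v : Fin n → ℂ) (hb : ∀ j, b j ∈ K) (hc : ∀ j, c j ∈ K) (x : ℂ)
    (h : ∀ D : Derivation ℚ ℂ ℂ, (∀ w ∈ K, D w = 0) → D x = ∑ l, β l * (D (u l) / u l) +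
      ∑ j, (b j * om L D (v j) + c j * ((℘[L] (v j) + κ) * om L D (v j)))) :
    (∀ (ψ : ℂ →ₗ[ℚ] ℚ) (D : Derivation ℚ ℂ ℂ), (∀ w ∈ K, D w = 0) →
      ∑ l, (ψ (β l) : ℂ) * (D (u l) / u l) = 0) ∧
    ∀ (ψ : ℂ →ₗ[kL L] kL L) (D : Derivation ℚ ℂ ℂ), (∀ w ∈ K, D w = 0) →
      ∑ j, (ψ (b j) : ℂ) * om L D (v j) = 0 ∧
        ∑ j, conj (ψ (c j) : ℂ) * om L D (v j) = 0 := by
  classical
  have hB : ∀ (ψ : ℂ →ₗ[kL L] kL L) (D : Derivation ℚ ℂ ℂ), (∀ w ∈ K, D w = 0) →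
      ∑ j, (ψ (b j) : ℂ) * om L D (v j) = 0 := fun ψ =>
    ros_linK hE K h2 h3 hkL hκ β u hβ hu b c v hb hc x h _ (fun j => (ψ (b j)).2)
      (fun N hNm hN _ => by rw [← psi_sumK ψ b N hNm, hN, map_zero]; rfl)
  have hC : ∀ (ψ : ℂ →ₗ[kL L] kL L) (D : Derivation ℚ ℂ ℂ), (∀ w ∈ K, D w = 0) →
      ∑ j, conj (ψ (c j) : ℂ) * om L D (v j) = 0 := fun ψ =>
    ros_linK hE K h2 h3 hkL hκ β u hβ hu b c v hb hc x h _ (fun j => conj_mem_kL (ψ (c j)).2)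
      (fun N hNm _ hN => by
        have h4 := psi_sumK ψ c (fun j => conj (N j)) (fun j => conj_mem_kL (hNm j))
        rw [hN, map_zero] at h4
        have h5 := congrArg conj h4
        rw [map_sum] at h5
        simp only [map_mul, Complex.conj_conj] at h5
        rw [← h5]
        simp)
  obtain ⟨d1, e1, ψ1, he1, hψ1⟩ := exists_coordK hkL b hb
  obtain ⟨d2, e2, ψ2, he2, hψ2⟩ := exists_coordK hkL c hc
  have hb0 : ∀ D : Derivation ℚ ℂ ℂ, (∀ w ∈ K, D w = 0) → ∑ j, b j * om L D (v j) = 0 := by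
    intro D hD
    have h4 : ∀ j, b j * om L D (v j) = ∑ k, e1 k * ((ψ1 k (b j) : ℂ) * om L D (v j)) := by
      intro j
      conv_lhs => rw [hψ1 j]
      rw [sum_mul]
      exact sum_congr rfl (fun k _ => by ring)
    rw [sum_congr rfl (fun j _ => h4 j), sum_comm]
    refine sum_eq_zero (fun k _ => ?_)
    rw [← mul_sum, hB _ D hD, mul_zero]
  set y : ℂ := ∑ k, e2 k * (zk L κ (∑ j, conj (ψ2 k (c j) : ℂ) * v j) -
    ∑ j, (ψ2 k (c j) : ℂ) * zk L κ (v j)) with hy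
  have hc0 : ∀ D : Derivation ℚ ℂ ℂ, (∀ w ∈ K, D w = 0) →
      ∑ j, c j * ((℘[L] (v j) + κ) * om L D (v j)) = D y := by
    intro D hD
    have hd2 := hD _ h2
    have hd3 := hD _ h3
    have hdκ := hD _ hκ
    have h4 : ∀ j, c j * ((℘[L] (v j) + κ) * om L D (v j)) =
        ∑ k, e2 k * ((ψ2 k (c j) : ℂ) * (xi L κ D (v j) - D (zk L κ (v j)))) := by
      intro j
      have h5 : (℘[L] (v j) + κ) * om L D (v j) = xi L κ D (v j) - D (zk L κ (v j)) := by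
        rw [xi_eq D hdκ]; ring
      rw [h5]
      conv_lhs => rw [hψ2 j]
      rw [sum_mul]
      exact sum_congr rfl (fun k _ => by ring)
    have h6 : ∀ k, om L D (∑ j, conj (ψ2 k (c j) : ℂ) * v j) = 0 := by
      intro k
      rw [om_linK hE D hd2 hd3 _ _ (fun j => conj_mem_kL (ψ2 k (c j)).2)]
      exact hC _ D hD
    have h7 : ∀ k, ∑ j, (ψ2 k (c j) : ℂ) * xi L κ D (v j) =
        D (zk L κ (∑ j, conj (ψ2 k (c j) : ℂ) * v j)) := by
      intro k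
      have h8 := xi_linK hE D hd2 hd3 (fun j => conj (ψ2 k (c j) : ℂ)) v
        (fun j => conj_mem_kL (ψ2 k (c j)).2)
      simp only [Complex.conj_conj] at h8
      rw [← h8, xi_eq D hdκ, h6, mul_zero, add_zero]
    rw [sum_congr rfl (fun j _ => h4 j), sum_comm, hy, map_sum]
    refine sum_congr rfl (fun k _ => ?_)
    rw [Derivation.leibniz, hD _ (he2 k), smul_zero, add_zero, smul_eq_mul, map_sub, ← h7,
      map_sum, ← mul_sum, ← sum_sub_distrib]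
    congr 1
    refine sum_congr rfl (fun j _ => ?_)
    rw [Derivation.leibniz, der_kL D (ψ2 k (c j)).2, smul_zero, add_zero, smul_eq_mul, mul_sub]
  have h9 : ∀ D : Derivation ℚ ℂ ℂ, (∀ w ∈ K, D w = 0) →
      D (x - y) = ∑ l, β l * (D (u l) / u l) := by
    intro D hD
    rw [map_sub, h D hD, ← hc0 D hD, sum_add_distrib, hb0 D hD]
    ring
  have h10 := Ros.exact K β u hβ hu _ h9
  exact ⟨fun ψ => Ros.rational K β u hβ hu (fun D hD => by rw [← h9 D hD, h10 D hD]) ψ,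
    fun ψ D hD => ⟨hB ψ D hD, hC ψ D hD⟩⟩

end Pool.Agent.TH813.Ell
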