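import Mathlib
import Pool.Agent.TH813.EllCore
import Pool.Agent.TH813.EKRos2

/-!
# Tangent vectors for exponentials and elliptic functions, with complex multiplication
-/

set_option autoImplicit false

open Finset Module
open scoped PeriodPair ComplexConjugate

noncomputable section

namespace Pool.Agent.TH813.Ell

open H667R3 Pool.Agent.W245.EB
open Pool.Agent.W252 Pool.Agent.W669.Gel
open Pool.Agent.TH813.Core Pool.Agent.TH813.Rank Pool.Agent.TH813.Core2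
open Pool.Agent.TH813.Rel (DF mem_DF bracket_mem)

variable {L : PeriodPair} {κ : ℂ} {s n : ℕ} {F : IntermediateField ℚ ℂ}

/-- the coordinates of a derivation at a pair of tuples -/
def ck (L : PeriodPair) (κ : ℂ) (D : Derivation ℚ ℂ ℂ) (t : Fin s → ℂ) (p : Fin n → ℂ) :
    Ix s n → ℂ :=
  Sum.elim (cc D t) (Sum.elim (fun i => D (p i))
    (Sum.elim (fun i => om L D (p i)) (fun i => xi L κ D (p i))))

/-- change of coordinates -/
def chg (κ : ℂ) : (Ix s n → ℂ) →ₗ[ℂ] (Ix s n → ℂ) where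
  toFun w := Sum.elim (fun k => w (Sum.inl k)) (Sum.elim (fun i => w (Sum.inr (Sum.inl i)))
    (Sum.elim (fun i => w (Sum.inr (Sum.inr (Sum.inl i)))) (fun i => w (Sum.inr (Sum.inr (Sum.inr i)))
      + κ * (w (Sum.inr (Sum.inr (Sum.inl i))) - w (Sum.inr (Sum.inl i))))))
  map_add' w w' := by
    funext k
    rcases k with k | i | i | i
    · rfl
    · rfl
    · rfl
    · simp only [Sum.elim_inr, Pi.add_apply]; ring
  map_smul' c w := by
    funext k
    rcases k with k | i | i | i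
    · rfl
    · rfl
    · rfl
    · simp only [Sum.elim_inr, Pi.smul_apply, smul_eq_mul, RingHom.id_apply]; ring

theorem chg_cm (D : Derivation ℚ ℂ ℂ) (t : Fin s → ℂ) (p : Fin n → ℂ) :
    chg κ (cm L D t p) = ck L κ D t p := by
  funext k
  rcases k with k | i | i | i <;> rfl

theorem chg_eq_zero {w : Ix s n → ℂ} : chg κ w = 0 ↔ w = 0 := by
  constructor
  · intro h
    have h1 : ∀ i, w (Sum.inr (Sum.inl i)) = 0 := fun i => congrFun h (Sum.inr (Sum.inl i))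
    have h2 : ∀ i, w (Sum.inr (Sum.inr (Sum.inl i))) = 0 :=
      fun i => congrFun h (Sum.inr (Sum.inr (Sum.inl i)))
    funext k
    rcases k with k | i | i | i
    · exact congrFun h (Sum.inl k)
    · exact h1 i
    · exact h2 i
    · have h3 : w (Sum.inr (Sum.inr (Sum.inr i))) +
          κ * (w (Sum.inr (Sum.inr (Sum.inl i))) - w (Sum.inr (Sum.inl i))) = 0 :=
        congrFun h (Sum.inr (Sum.inr (Sum.inr i)))
      rw [h1, h2, sub_zero, mul_zero, add_zero] at h3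
      exact h3
  · intro h
    rw [h, map_zero]

theorem ck_zero_iff {D : Derivation ℚ ℂ ℂ} {t : Fin s → ℂ} {p : Fin n → ℂ} :
    ck L κ D t p = 0 ↔ cm L D t p = 0 := by
  rw [← chg_cm, chg_eq_zero]

/-- evaluation of the derivations over `F` -/
def evK (L : PeriodPair) (κ : ℂ) (F : IntermediateField ℚ ℂ) (t : Fin s → ℂ) (p : Fin n → ℂ) :
    DF F →ₗ[ℂ] (Ix s n → ℂ) := chg κ ∘ₗ evM L F t p

theorem evK_apply (t : Fin s → ℂ) (p : Fin n → ℂ) (D : DF F) :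
    evK L κ F t p D = ck L κ (D : Derivation ℚ ℂ ℂ) t p := chg_cm _ _ _

theorem ck_lin (D D' : Derivation ℚ ℂ ℂ) (t : Fin s → ℂ) (p : Fin n → ℂ) :
    ck L κ (D + D') t p = ck L κ D t p + ck L κ D' t p := by
  rw [← chg_cm, ← chg_cm, ← chg_cm, cm_add_der, map_add]

theorem ck_smul_der (c : ℂ) (D : Derivation ℚ ℂ ℂ) (t : Fin s → ℂ) (p : Fin n → ℂ) :
    ck L κ (c • D) t p = c • ck L κ D t p := by
  rw [← chg_cm, ← chg_cm, cm_smul_der, map_smul]

/-- evaluation of derivations -/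
def evDK (L : PeriodPair) (κ : ℂ) (t : Fin s → ℂ) (p : Fin n → ℂ) :
    Derivation ℚ ℂ ℂ →ₗ[ℂ] (Ix s n → ℂ) := chg κ ∘ₗ evD L t p

theorem evDK_apply (t : Fin s → ℂ) (p : Fin n → ℂ) (D : Derivation ℚ ℂ ℂ) :
    evDK L κ t p D = ck L κ D t p := chg_cm _ _ _

theorem ck_sum_der {d : ℕ} (c : Fin d → ℂ) (Dd : Fin d → Derivation ℚ ℂ ℂ) (t : Fin s → ℂ)
    (p : Fin n → ℂ) (k : Ix s n) :
    ck L κ (∑ a, c a • Dd a) t p k = ∑ a, c a * ck L κ (Dd a) t p k := by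
  rw [← evDK_apply, map_sum, Finset.sum_apply]
  exact sum_congr rfl (fun a _ => by rw [map_smul, evDK_apply]; rfl)

theorem ck_bracket {D D' : Derivation ℚ ℂ ℂ} (h2 : D L.g₂ = 0) (h3 : D L.g₃ = 0) (hκ : D κ = 0)
    {t : Fin s → ℂ} {p : Fin n → ℂ} (h : ck L κ D t p = 0) (k : Ix s n) :
    ck L κ ⁅D, D'⁆ t p k = D (ck L κ D' t p k) := by
  have h0 := ck_zero_iff.1 h
  have hb := fun k => cm_bracket (D' := D') h2 h3 h0 k
  rcases k with k | i | i | i
  · exact hb (Sum.inl k)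
  · exact hb (Sum.inr (Sum.inl i))
  · exact hb (Sum.inr (Sum.inr (Sum.inl i)))
  · change et L ⁅D, D'⁆ (p i) + κ * (om L ⁅D, D'⁆ (p i) - ⁅D, D'⁆ (p i)) =
      D (et L D' (p i) + κ * (om L D' (p i) - D' (p i)))
    have h4 : et L ⁅D, D'⁆ (p i) = D (et L D' (p i)) := hb (Sum.inr (Sum.inr (Sum.inr i)))
    have h5 : om L ⁅D, D'⁆ (p i) = D (om L D' (p i)) := hb (Sum.inr (Sum.inr (Sum.inl i)))
    have h6 : ⁅D, D'⁆ (p i) = D (D' (p i)) := hb (Sum.inr (Sum.inl i))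
    rw [h4, h5, h6, map_add, Derivation.leibniz, hκ, smul_zero, add_zero, smul_eq_mul, map_sub]

theorem exists_dualK (t : Fin s → ℂ) (p : Fin n → ℂ) : ∃ (d : ℕ) (k : Fin d → Ix s n)
    (Dd : Fin d → Derivation ℚ ℂ ℂ), (∀ a, Dd a ∈ DF F) ∧
      (∀ a b, ck L κ (Dd a) t p (k b) = if a = b then 1 else 0) ∧
      ∀ D ∈ DF F, (∀ b, ck L κ D t p (k b) = 0) → ck L κ D t p = 0 := by
  classical
  let R := LinearMap.range (evK L κ F t p)
  let e := finBasis ℂ R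
  let m : Ix s n → Dual ℂ R := fun k => (LinearMap.proj k).comp R.subtype
  obtain ⟨J, hJ⟩ := Pool.Agent.TH813.Count.exists_sel e m (by
    intro x hx
    apply Subtype.ext
    funext k
    exact hx k)
  let A : Matrix (Fin (finrank ℂ R)) (Fin (finrank ℂ R)) ℂ :=
    Matrix.of fun i l => m (J i) (e l)
  have hdet : IsUnit A.det := isUnit_iff_ne_zero.2 hJ
  have hch : ∀ l, ∃ D : DF F, evK L κ F t p D = (e l : Ix s n → ℂ) := fun l => (e l).2
  choose De hDe using hch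
  have hinv := Matrix.mul_nonsing_inv A hdet
  refine ⟨finrank ℂ R, J, fun a => ((∑ l, A⁻¹ l a • De l : DF F) : Derivation ℚ ℂ ℂ),
    fun a => Subtype.prop _, fun a b => ?_, fun D hDF hD => ?_⟩
  · have h1 : evK L κ F t p (∑ l, A⁻¹ l a • De l) (J b) = (A * A⁻¹) b a := by
      rw [map_sum, Finset.sum_apply, Matrix.mul_apply]
      refine sum_congr rfl (fun l _ => ?_)
      rw [map_smul, hDe, Pi.smul_apply, smul_eq_mul, mul_comm]
      rfl
    rw [hinv, Matrix.one_apply] at h1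
    rw [← evK_apply, h1]
    simp only [eq_comm]
  · have h0 : evK L κ F t p ⟨D, hDF⟩ = ck L κ D t p := evK_apply t p ⟨D, hDF⟩
    have h1 : (⟨evK L κ F t p ⟨D, hDF⟩, ⟨⟨D, hDF⟩, rfl⟩⟩ : R) = 0 := by
      have h2 : A.mulVec (fun l => e.repr ⟨evK L κ F t p ⟨D, hDF⟩, ⟨⟨D, hDF⟩, rfl⟩⟩ l) = 0 := by
        funext b
        have h3 : m (J b) (⟨evK L κ F t p ⟨D, hDF⟩, ⟨⟨D, hDF⟩, rfl⟩⟩ : R) = 0 := by
          change evK L κ F t p ⟨D, hDF⟩ (J b) = 0
          rw [h0]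
          exact hD b
        conv at h3 => rw [← e.sum_repr (⟨evK L κ F t p ⟨D, hDF⟩, ⟨⟨D, hDF⟩, rfl⟩⟩ : R)]
        rw [map_sum] at h3
        rw [Pi.zero_apply, ← h3]
        simp only [Matrix.mulVec, dotProduct]
        refine sum_congr rfl (fun l _ => ?_)
        rw [map_smul, smul_eq_mul, mul_comm]
        rfl
      have h4 : (fun l => e.repr (⟨evK L κ F t p ⟨D, hDF⟩, ⟨⟨D, hDF⟩, rfl⟩⟩ : R) l) = 0 := by
        by_contra hne
        exact hJ (Matrix.exists_mulVec_eq_zero_iff.1 ⟨_, hne, h2⟩)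
      rw [← e.sum_repr (⟨evK L κ F t p ⟨D, hDF⟩, ⟨⟨D, hDF⟩, rfl⟩⟩ : R)]
      refine sum_eq_zero (fun l _ => ?_)
      rw [congrFun h4 l, Pi.zero_apply, zero_smul]
    rw [← h0]
    exact congrArg Subtype.val h1

/-! ## The parts of a coordinate -/

/-- the exact part of a coordinate -/
def linK (L : PeriodPair) (κ : ℂ) (w₁ : Fin s → ℂ) (w₂ : Fin n → ℂ) : Ix s n → ℂ :=
  Sum.elim (Sum.elim w₁ 0) (Sum.elim w₂ (Sum.elim 0 (fun i => zk L κ (w₂ i))))

theorem ck_split (D : Derivation ℚ ℂ ℂ) (hκ : D κ = 0) (w₁ : Fin s → ℂ) (w₂ : Fin n → ℂ)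
    (k : Ix s n) : ck L κ D w₁ w₂ k = D (linK L κ w₁ w₂ k) + D (uuM w₁ k) / uuM w₁ k +
      ((bbM k : ℂ) * om L D (vvM w₂ k) +
        (ccM k : ℂ) * ((℘[L] (vvM w₂ k) + κ) * om L D (vvM w₂ k))) := by
  rcases k with (i | i) | i | i | i
  · change D (w₁ i) = D (w₁ i) + D 1 / 1 + (((0 : ℚ) : ℂ) * _ + ((0 : ℚ) : ℂ) * _)
    rw [D.map_one_eq_zero, Rat.cast_zero]
    ring
  · change dlog D (w₁ i) = D 0 + D (Complex.exp (w₁ i)) / Complex.exp (w₁ i) +
      (((0 : ℚ) : ℂ) * _ + ((0 : ℚ) : ℂ) * _)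
    rw [map_zero, Rat.cast_zero, zero_add, zero_mul, zero_mul, add_zero, add_zero]
    rfl
  · change D (w₂ i) = D (w₂ i) + D 1 / 1 + (((0 : ℚ) : ℂ) * _ + ((0 : ℚ) : ℂ) * _)
    rw [D.map_one_eq_zero, Rat.cast_zero]
    ring
  · change om L D (w₂ i) = D 0 + D 1 / 1 +
      (((1 : ℚ) : ℂ) * om L D (w₂ i) + ((0 : ℚ) : ℂ) * _)
    rw [D.map_one_eq_zero, map_zero, Rat.cast_zero, Rat.cast_one]
    ring
  · change xi L κ D (w₂ i) = D (zk L κ (w₂ i)) + D 1 / 1 +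
      (((0 : ℚ) : ℂ) * _ + ((1 : ℚ) : ℂ) * ((℘[L] (w₂ i) + κ) * om L D (w₂ i)))
    rw [D.map_one_eq_zero, Rat.cast_zero, Rat.cast_one, xi_eq D hκ]
    ring

/-- Rosenlicht's theorem for a linear relation with constant coefficients -/
theorem ros_relK (hE : Eig L κ) (h2 : L.g₂ ∈ F) (h3 : L.g₃ ∈ F) {t : Fin s → ℂ} {p : Fin n → ℂ}
    {w₁ : Fin s → ℂ} {w₂ : Fin n → ℂ} {d : ℕ} {k' : Fin d → Ix s n} (c : Fin d → ℂ)
    (hc : ∀ a, c a ∈ KM L F t p) (x₀ u₀ v₀ : ℂ) (hu₀ : u₀ ≠ 0) (b₀ c₀ : ℚ)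
    (h : ∀ D ∈ DF F, cm L D t p = 0 → D x₀ + D u₀ / u₀ +
      ((b₀ : ℂ) * om L D v₀ + (c₀ : ℂ) * ((℘[L] v₀ + κ) * om L D v₀)) =
        ∑ a, c a * ck L κ D w₁ w₂ (k' a)) :
    (∀ ψ : ℂ →ₗ[ℚ] ℚ, ∀ D ∈ DF F, cm L D t p = 0 →
      (ψ 1 : ℂ) * (D u₀ / u₀) = ∑ a, (ψ (c a) : ℂ) * LG D w₁ (k' a)) ∧
    ∀ ψ : ℂ →ₗ[kL L] kL L, ∀ D ∈ DF F, cm L D t p = 0 →
      (ψ 1 : ℂ) * ((b₀ : ℂ) * om L D v₀) = ∑ a, (ψ (c a) : ℂ) * OM L D w₂ (k' a) ∧
      conj (ψ 1 : ℂ) * ((c₀ : ℂ) * om L D v₀) =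
        ∑ a, conj (ψ (c a) : ℂ) * ET L D w₂ (k' a) := by
  set K := KM L F t p with hK
  have hkill : ∀ D : Derivation ℚ ℂ ℂ, (∀ w ∈ K, D w = 0) ↔ D ∈ DF F ∧ cm L D t p = 0 :=
    fun D => kills_iffM h2 h3
  have hq : ∀ q : ℚ, (q : ℂ) ∈ K := fun q => SubfieldClass.ratCast_mem K q
  have hkK : ∀ c ∈ kL L, c ∈ K := fun c hc D _ _ => der_kL D hc
  have hκK : κ ∈ K := fun D hF _ => hE.kill D (hF _ h2) (hF _ h3)
  have key := rosK (L := L) hE K (F_le_KM t p _ h2) (F_le_KM t p _ h3) hkK hκK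
    (Fin.cons 1 (fun a => -c a) : Fin (d + 1) → ℂ)
    (Fin.cons u₀ (fun a => uuM w₁ (k' a)) : Fin (d + 1) → ℂ)
    (by
      intro j
      refine Fin.cases ?_ (fun a => ?_) j
      · exact K.one_mem
      · exact K.neg_mem (hc a))
    (by
      intro j
      refine Fin.cases ?_ (fun a => ?_) j
      · exact hu₀
      · exact uuM_ne w₁ _)
    (Fin.cons (b₀ : ℂ) (fun a => (bbM (k' a) : ℂ) * -c a) : Fin (d + 1) → ℂ)
    (Fin.cons (c₀ : ℂ) (fun a => (ccM (k' a) : ℂ) * -c a) : Fin (d + 1) → ℂ)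
    (Fin.cons v₀ (fun a => vvM w₂ (k' a)) : Fin (d + 1) → ℂ)
    (by
      intro j
      refine Fin.cases ?_ (fun a => ?_) j
      · exact hq _
      · exact K.mul_mem (hq _) (K.neg_mem (hc a)))
    (by
      intro j
      refine Fin.cases ?_ (fun a => ?_) j
      · exact hq _
      · exact K.mul_mem (hq _) (K.neg_mem (hc a)))
    (∑ a, c a * linK L κ w₁ w₂ (k' a) - x₀)
    (by
      intro D hD
      obtain ⟨hF, hD'⟩ := (hkill D).1 hD
      have h4 := h D hF hD'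
      have h5 : ∀ a, c a * ck L κ D w₁ w₂ (k' a) = D (c a * linK L κ w₁ w₂ (k' a)) +
          (c a * (D (uuM w₁ (k' a)) / uuM w₁ (k' a)) +
            (c a * (bbM (k' a) : ℂ) * om L D (vvM w₂ (k' a)) +
              c a * (ccM (k' a) : ℂ) * ((℘[L] (vvM w₂ (k' a)) + κ) *
                om L D (vvM w₂ (k' a))))) := by
        intro a
        rw [ck_split D (hD _ hκK), Derivation.leibniz, hD _ (hc a), smul_zero, add_zero,
          smul_eq_mul]
        ring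
      rw [sum_congr rfl (fun a _ => h5 a), sum_add_distrib, sum_add_distrib, sum_add_distrib] at h4
      rw [Fin.sum_univ_succ, Fin.sum_univ_succ, map_sub, map_sum]
      simp only [Fin.cons_zero, Fin.cons_succ]
      rw [sum_add_distrib]
      have e1 : ∑ a, -c a * (D (uuM w₁ (k' a)) / uuM w₁ (k' a)) =
          -∑ a, c a * (D (uuM w₁ (k' a)) / uuM w₁ (k' a)) := by
        rw [← sum_neg_distrib]
        exact sum_congr rfl (fun a _ => by ring)
      have e2 : ∑ a, (bbM (k' a) : ℂ) * -c a * om L D (vvM w₂ (k' a)) =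
          -∑ a, c a * (bbM (k' a) : ℂ) * om L D (vvM w₂ (k' a)) := by
        rw [← sum_neg_distrib]
        exact sum_congr rfl (fun a _ => by ring)
      have e3 : ∑ a, (ccM (k' a) : ℂ) * -c a *
          ((℘[L] (vvM w₂ (k' a)) + κ) * om L D (vvM w₂ (k' a))) =
          -∑ a, c a * (ccM (k' a) : ℂ) *
            ((℘[L] (vvM w₂ (k' a)) + κ) * om L D (vvM w₂ (k' a))) := by
        rw [← sum_neg_distrib]
        exact sum_congr rfl (fun a _ => by ring)
      rw [e1, e2, e3]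
      linear_combination -h4)
  have hratk : ∀ q : ℚ, (q : ℂ) ∈ kL L := fun q => SubfieldClass.ratCast_mem (kL L) q
  constructor
  · intro ψ D hF hD
    have k1 := key.1 ψ D ((hkill D).2 ⟨hF, hD⟩)
    rw [Fin.sum_univ_succ] at k1
    simp only [Fin.cons_zero, Fin.cons_succ] at k1
    have hneg : ∀ c : ℂ, ψ (-c) = -ψ c := fun c => map_neg ψ c
    have e1 : ∑ a, (ψ (-c a) : ℂ) * (D (uuM w₁ (k' a)) / uuM w₁ (k' a)) =
        -∑ a, (ψ (c a) : ℂ) * LG D w₁ (k' a) := by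
      rw [← sum_neg_distrib]
      refine sum_congr rfl (fun a _ => ?_)
      rw [hneg, Rat.cast_neg, LG_eq]
      ring
    rw [e1] at k1
    linear_combination k1
  · intro ψ D hF hD
    obtain ⟨k2, k3⟩ := key.2 ψ D ((hkill D).2 ⟨hF, hD⟩)
    rw [Fin.sum_univ_succ] at k2 k3
    simp only [Fin.cons_zero, Fin.cons_succ] at k2 k3
    have hq1 : ∀ q : ℚ, (ψ (q : ℂ) : ℂ) = q * ψ 1 := fun q => by
      have := psi_mul ψ (hratk q) 1
      rwa [mul_one] at this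
    have hq2 : ∀ (q : ℚ) (z : ℂ), (ψ ((q : ℂ) * -z) : ℂ) = -(q * ψ z) := fun q z => by
      rw [psi_mul ψ (hratk q), map_neg]
      push_cast
      ring
    have hconjq : ∀ q : ℚ, conj (q : ℂ) = q := fun q => map_ratCast (starRingEnd ℂ) q
    constructor
    · have e1 : ∑ a, (ψ ((bbM (k' a) : ℂ) * -c a) : ℂ) * om L D (vvM w₂ (k' a)) =
          -∑ a, (ψ (c a) : ℂ) * OM L D w₂ (k' a) := by
        rw [← sum_neg_distrib]
        refine sum_congr rfl (fun a _ => ?_)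
        rw [hq2, ← OM_eq]
        ring
      rw [e1, hq1] at k2
      linear_combination k2
    · have e1 : ∑ a, conj (ψ ((ccM (k' a) : ℂ) * -c a) : ℂ) * om L D (vvM w₂ (k' a)) =
          -∑ a, conj (ψ (c a) : ℂ) * ET L D w₂ (k' a) := by
        rw [← sum_neg_distrib]
        refine sum_congr rfl (fun a _ => ?_)
        rw [hq2, ← ET_eq, map_neg, map_mul, hconjq]
        ring
      rw [e1, hq1, map_mul, hconjq] at k3
      linear_combination k3

/-- **Tangent vectors.** -/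
theorem coreK (hE : Eig L κ) (h2 : L.g₂ ∈ F) (h3 : L.g₃ ∈ F) {ι₁ ι₂ : Type*}
    {t w₁ : Fin s → ℂ} {p w₂ : Fin n → ℂ} {v₁ w₁' : ι₁ → ℂ} {v₂ w₂' : ι₂ → ℂ}
    (hB1 : ∀ D ∈ DF F, ∀ q : Fin s → ℚ, ck L κ D t p = LGv (fun i => (q i : ℂ)) → q = 0)
    (hB2 : ∀ D ∈ DF F, ∀ D' ∈ DF F, ∀ q : Fin n → kL L,
      ck L κ D t p = OMv (fun i => (q i : ℂ)) →
      ck L κ D' t p = ETv (fun i => conj (q i : ℂ)) → q = 0)
    (hv₁ : ∀ D ∈ DF F, cm L D t p = 0 → ∀ m, dlog D (v₁ m) = 0)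
    (hv₂ : ∀ D ∈ DF F, cm L D t p = 0 → ∀ m, om L D (v₂ m) = 0)
    (hT : ∀ D ∈ DF F, cm L D t p = 0 → ∃ D' ∈ DF F, cm L D w₁ w₂ = cm L D' t p ∧
      (∀ m, dlog D (w₁' m) = dlog D' (v₁ m)) ∧ ∀ m, om L D (w₂' m) = om L D' (v₂ m)) :
    ∀ D ∈ DF F, cm L D t p = 0 →
      (∀ m, dlog D (w₁' m) = 0) ∧ ∀ m, om L D (w₂' m) = 0 := by
  classical
  obtain ⟨d, k', Dd, h0, h1, hz'⟩ := exists_dualK (L := L) (κ := κ) (F := F) t p
  have hz : ∀ D ∈ DF F, (∀ b, ck L κ D t p (k' b) = 0) → cm L D t p = 0 := fun D hF h =>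
    ck_zero_iff.1 (hz' D hF h)
  have hF2 : ∀ D ∈ DF F, D L.g₂ = 0 := fun D hD => hD _ h2
  have hF3 : ∀ D ∈ DF F, D L.g₃ = 0 := fun D hD => hD _ h3
  have hFκ : ∀ D ∈ DF F, D κ = 0 := fun D hD => hE.kill D (hD _ h2) (hD _ h3)
  -- brackets
  have hbr : ∀ a, ∀ D ∈ DF F, cm L D t p = 0 → cm L ⁅D, Dd a⁆ t p = 0 := by
    intro a D hF hD
    apply hz _ (bracket_mem F hF (h0 a))
    intro b
    rw [ck_bracket (hF2 D hF) (hF3 D hF) (hFκ D hF) (ck_zero_iff.2 hD), h1]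
    split_ifs
    · exact D.map_one_eq_zero
    · exact map_zero D
  have hk1 : ∀ a k, ck L κ (Dd a) t p k ∈ KM L F t p := by
    intro a k D hF hD
    rw [← ck_bracket (hF2 D hF) (hF3 D hF) (hFκ D hF) (ck_zero_iff.2 hD),
      ck_zero_iff.2 (hbr a D hF hD)]
    rfl
  have hk2 : ∀ a m, dlog (Dd a) (v₁ m) ∈ KM L F t p := by
    intro a m D hF hD
    rw [← dlog_bracket (hv₁ D hF hD m)]
    exact hv₁ _ (bracket_mem F hF (h0 a)) (hbr a D hF hD) m
  have hk3 : ∀ a m, om L (Dd a) (v₂ m) ∈ KM L F t p := by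
    intro a m D hF hD
    rw [← om_bracket (hF2 D hF) (hF3 D hF) (hv₂ D hF hD m)]
    exact hv₂ _ (bracket_mem F hF (h0 a)) (hbr a D hF hD) m
  -- the linear relations
  have hrel : ∀ D ∈ DF F, cm L D t p = 0 →
      (∀ k, ck L κ D w₁ w₂ k = ∑ a, ck L κ (Dd a) t p k * ck L κ D w₁ w₂ (k' a)) ∧
      (∀ m, dlog D (w₁' m) = ∑ a, dlog (Dd a) (v₁ m) * ck L κ D w₁ w₂ (k' a)) ∧
      ∀ m, om L D (w₂' m) = ∑ a, om L (Dd a) (v₂ m) * ck L κ D w₁ w₂ (k' a) := by
    intro D hF hD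
    obtain ⟨D', hF', hD'', hD2, hD3⟩ := hT D hF hD
    have hD' : ck L κ D w₁ w₂ = ck L κ D' t p := by
      rw [← chg_cm, ← chg_cm, hD'']
    let D2 : Derivation ℚ ℂ ℂ := ∑ a, ck L κ D w₁ w₂ (k' a) • Dd a
    have hD2F : D2 ∈ DF F := (DF F).sum_mem (fun a _ => (DF F).smul_mem _ (h0 a))
    have hD2z : ∀ k, ck L κ D2 t p k = ∑ a, ck L κ D w₁ w₂ (k' a) * ck L κ (Dd a) t p k :=
      fun k => ck_sum_der _ _ t p k
    have g4 : D' + (-1 : ℂ) • D2 ∈ DF F := (DF F).add_mem hF' ((DF F).smul_mem _ hD2F)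
    have g3 : cm L (D' + (-1 : ℂ) • D2) t p = 0 := by
      apply hz _ g4
      intro b
      rw [ck_lin, ck_smul_der, Pi.add_apply, Pi.smul_apply, hD2z, ← hD', smul_eq_mul]
      have : ∑ a, ck L κ D w₁ w₂ (k' a) * ck L κ (Dd a) t p (k' b) = ck L κ D w₁ w₂ (k' b) := by
        rw [sum_eq_single b]
        · rw [h1, if_pos rfl, mul_one]
        · intro a _ hab
          rw [h1, if_neg hab, mul_zero]
        · intro h; exact absurd (mem_univ b) h
      rw [this]; ring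
    have g5 : ck L κ (D' + (-1 : ℂ) • D2) t p = 0 := ck_zero_iff.2 g3
    refine ⟨fun k => ?_, fun m => ?_, fun m => ?_⟩
    · have := congrFun g5 k
      rw [ck_lin, ck_smul_der, Pi.add_apply, Pi.smul_apply, hD2z, smul_eq_mul] at this
      rw [hD']
      simp only [mul_comm (ck L κ (Dd _) t p k), Pi.zero_apply] at this ⊢
      rw [hD'] at this
      linear_combination this
    · have h3 := hv₁ _ g4 g3 m
      rw [dlog_add_der, dlog_smul_der, dlog_sum] at h3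
      rw [hD2]
      simp only [mul_comm (dlog (Dd _) (v₁ m))]
      linear_combination h3
    · have h3 := hv₂ _ g4 g3 m
      rw [om_add_der, om_smul_der, om_sum_der] at h3
      rw [hD3]
      simp only [mul_comm (om L (Dd _) (v₂ m))]
      linear_combination h3
  -- Rosenlicht
  have hros : ∀ (k : Ix s n),
      (∀ ψ : ℂ →ₗ[ℚ] ℚ, ∀ D ∈ DF F, cm L D t p = 0 →
        (ψ 1 : ℂ) * LG D w₁ k = ∑ a, (ψ (ck L κ (Dd a) t p k) : ℂ) * LG D w₁ (k' a)) ∧
      ∀ ψ : ℂ →ₗ[kL L] kL L, ∀ D ∈ DF F, cm L D t p = 0 →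
      (ψ 1 : ℂ) * OM L D w₂ k = ∑ a, (ψ (ck L κ (Dd a) t p k) : ℂ) * OM L D w₂ (k' a) ∧
      conj (ψ 1 : ℂ) * ET L D w₂ k =
        ∑ a, conj (ψ (ck L κ (Dd a) t p k) : ℂ) * ET L D w₂ (k' a) := by
    intro k
    have := ros_relK (L := L) (F := F) hE h2 h3 (t := t) (p := p) (w₁ := w₁) (w₂ := w₂)
      (k' := k')
      (fun a => ck L κ (Dd a) t p k) (fun a => hk1 a k) (linK L κ w₁ w₂ k) (uuM w₁ k) (vvM w₂ k)
      (uuM_ne w₁ k) (bbM k) (ccM k) (by
        intro D' hF' hD'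
        rw [← ck_split D' (hFκ D' hF')]
        exact (hrel D' hF' hD').1 k)
    simp only [LG_eq, OM_eq, ET_eq] at this
    exact this
  -- the vector with rational coordinates
  have hlog : ∀ D ∈ DF F, cm L D t p = 0 → ∀ i, dlog D (w₁ i) = 0 := by
    intro D hF hD i
    apply (forall_dual_apply_eq_zero_iff ℚ _).1
    intro θ
    have hvec : ck L κ (∑ a, (θ (LG D w₁ (k' a)) : ℂ) • Dd a) t p =
        fun k => (θ (LG D w₁ k) : ℂ) := by
      funext k
      rw [← sub_eq_zero]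
      apply (forall_dual_apply_eq_zero_iff ℚ _).1
      intro ψ
      have h4 := congrArg θ ((hros k).1 ψ D hF hD)
      rw [map_sum, psi_rat] at h4
      rw [map_sub, ck_sum_der, map_sum]
      have e1 : ψ ((θ (LG D w₁ k) : ℚ) : ℂ) = θ (LG D w₁ k) * ψ 1 := by
        have := psi_rat ψ (θ (LG D w₁ k)) 1
        rwa [mul_one] at this
      have e2 : ∑ a, ψ ((θ (LG D w₁ (k' a)) : ℂ) * ck L κ (Dd a) t p k) =
          ∑ a, θ ((ψ (ck L κ (Dd a) t p k) : ℂ) * LG D w₁ (k' a)) := by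
        refine sum_congr rfl (fun a _ => ?_)
        rw [psi_rat, psi_rat, mul_comm]
      rw [e1, e2, ← h4]
      ring
    have := hB1 _ ((DF F).sum_mem (fun a _ => (DF F).smul_mem _ (h0 a)))
      (fun i => θ (dlog D (w₁ i))) (by
      rw [hvec]
      funext k
      rcases k with (j | j) | k
      · change ((θ (0 : ℂ) : ℚ) : ℂ) = 0
        rw [map_zero, Rat.cast_zero]
      · rfl
      · change ((θ (0 : ℂ) : ℚ) : ℂ) = 0
        rw [map_zero, Rat.cast_zero])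
    exact congrFun this i
  have hom : ∀ D ∈ DF F, cm L D t p = 0 → ∀ i, om L D (w₂ i) = 0 := by
    intro D hF hD i
    apply (forall_dual_apply_eq_zero_iff (kL L) _).1
    intro θ
    have hvec3 : ck L κ (∑ a, (θ (OM L D w₂ (k' a)) : ℂ) • Dd a) t p =
        fun k => (θ (OM L D w₂ k) : ℂ) := by
      funext k
      rw [← sub_eq_zero]
      apply (forall_dual_apply_eq_zero_iff (kL L) _).1
      intro ψ
      have h4 := congrArg (fun z => (θ z : ℂ)) ((hros k).2 ψ D hF hD).1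
      simp only [map_sum, AddSubmonoidClass.coe_finsetSum] at h4
      rw [psi_mul θ (ψ 1).2] at h4
      apply Subtype.ext
      rw [map_sub, ck_sum_der, map_sum, AddSubgroupClass.coe_sub,
        AddSubmonoidClass.coe_finsetSum]
      have e1 : (ψ (θ (OM L D w₂ k) : ℂ) : ℂ) = θ (OM L D w₂ k) * ψ 1 := by
        have := psi_mul ψ (θ (OM L D w₂ k)).2 1
        rwa [mul_one] at this
      have e2 : ∑ a, (ψ ((θ (OM L D w₂ (k' a)) : ℂ) * ck L κ (Dd a) t p k) : ℂ) =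
          ∑ a, (θ ((ψ (ck L κ (Dd a) t p k) : ℂ) * OM L D w₂ (k' a)) : ℂ) := by
        refine sum_congr rfl (fun a _ => ?_)
        rw [psi_mul ψ (θ _).2, psi_mul θ (ψ _).2, mul_comm]
      rw [e1, e2, ← h4, mul_comm, sub_self]
      rfl
    have hvec4 : ck L κ (∑ a, conj (θ (ET L D w₂ (k' a)) : ℂ) • Dd a) t p =
        fun k => conj (θ (ET L D w₂ k) : ℂ) := by
      funext k
      rw [← sub_eq_zero]
      apply (forall_dual_apply_eq_zero_iff (kL L) _).1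
      intro ψ
      have h4 := congrArg (fun z => conj (θ z : ℂ)) ((hros k).2 ψ D hF hD).2
      simp only [map_sum, AddSubmonoidClass.coe_finsetSum] at h4
      rw [psi_mul θ (conj_mem_kL (ψ 1).2), map_mul, Complex.conj_conj] at h4
      apply Subtype.ext
      rw [map_sub, ck_sum_der, map_sum, AddSubgroupClass.coe_sub,
        AddSubmonoidClass.coe_finsetSum]
      have e1 : (ψ (conj (θ (ET L D w₂ k) : ℂ)) : ℂ) = conj (θ (ET L D w₂ k) : ℂ) * ψ 1 := by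
        have := psi_mul ψ (conj_mem_kL (θ (ET L D w₂ k)).2) 1
        rwa [mul_one] at this
      have e2 : ∑ a, (ψ (conj (θ (ET L D w₂ (k' a)) : ℂ) * ck L κ (Dd a) t p k) : ℂ) =
          ∑ a, conj (θ (conj (ψ (ck L κ (Dd a) t p k) : ℂ) * ET L D w₂ (k' a)) : ℂ) := by
        refine sum_congr rfl (fun a _ => ?_)
        rw [psi_mul ψ (conj_mem_kL (θ _).2), psi_mul θ (conj_mem_kL (ψ _).2), map_mul,
          Complex.conj_conj, mul_comm]
      rw [e1, e2, ← h4, mul_comm, sub_self]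
      rfl
    have := hB2 _ ((DF F).sum_mem (fun a _ => (DF F).smul_mem _ (h0 a))) _
      ((DF F).sum_mem (fun a _ => (DF F).smul_mem _ (h0 a))) (fun i => θ (om L D (w₂ i))) (by
      rw [hvec3]
      funext k
      rcases k with k | j | j | j
      · change ((θ (0 : ℂ) : kL L) : ℂ) = 0
        rw [map_zero]; rfl
      · change ((θ (0 : ℂ) : kL L) : ℂ) = 0
        rw [map_zero]; rfl
      · rfl
      · change ((θ (0 : ℂ) : kL L) : ℂ) = 0
        rw [map_zero]; rfl) (by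
      rw [hvec4]
      funext k
      rcases k with k | j | j | j
      · change conj ((θ (0 : ℂ) : kL L) : ℂ) = 0
        rw [map_zero]; exact map_zero _
      · change conj ((θ (0 : ℂ) : kL L) : ℂ) = 0
        rw [map_zero]; exact map_zero _
      · change conj ((θ (0 : ℂ) : kL L) : ℂ) = 0
        rw [map_zero]; exact map_zero _
      · rfl)
    exact congrFun this i
  have hLG : ∀ D ∈ DF F, cm L D t p = 0 → ∀ k : Ix s n, LG D w₁ k = 0 := by
    intro D hF hD k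
    rcases k with (i | i) | k
    · rfl
    · exact hlog D hF hD i
    · rfl
  have hOM : ∀ D ∈ DF F, cm L D t p = 0 → ∀ k : Ix s n, OM L D w₂ k = 0 := by
    intro D hF hD k
    rcases k with k | i | i | i
    · rfl
    · rfl
    · exact hom D hF hD i
    · rfl
  obtain ⟨ψ, hψ⟩ : ∃ ψ : ℂ →ₗ[ℚ] ℚ, ψ 1 ≠ 0 := by
    by_contra hcon
    push Not at hcon
    exact one_ne_zero ((forall_dual_apply_eq_zero_iff ℚ (1 : ℂ)).1 hcon)
  have hψ' : (ψ 1 : ℂ) ≠ 0 := by exact_mod_cast hψ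
  obtain ⟨φ, hφ⟩ : ∃ φ : ℂ →ₗ[kL L] kL L, φ 1 ≠ 0 := by
    by_contra hcon
    push Not at hcon
    exact one_ne_zero ((forall_dual_apply_eq_zero_iff (kL L) (1 : ℂ)).1 hcon)
  have hφ' : (φ 1 : ℂ) ≠ 0 := fun h => hφ (Subtype.ext h)
  intro D hF hD
  refine ⟨fun m => ?_, fun m => ?_⟩
  · have h4 := (ros_relK (L := L) (F := F) hE h2 h3 (t := t) (p := p) (w₁ := w₁) (w₂ := w₂)
      (k' := k') (fun a => dlog (Dd a) (v₁ m)) (fun a => hk2 a m) 0 (Complex.exp (w₁' m)) 0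
      (Complex.exp_ne_zero _) 0 0 (by
        intro D' hF' hD'
        rw [map_zero, Rat.cast_zero, zero_mul, zero_mul, add_zero, add_zero, zero_add]
        exact (hrel D' hF' hD').2.1 m)).1 ψ D hF hD
    rw [sum_eq_zero (fun a _ => by rw [hLG D hF hD, mul_zero])] at h4
    exact (mul_eq_zero.1 h4).resolve_left hψ'
  · have h4 := ((ros_relK (L := L) (F := F) hE h2 h3 (t := t) (p := p) (w₁ := w₁) (w₂ := w₂)
      (k' := k') (fun a => om L (Dd a) (v₂ m)) (fun a => hk3 a m) 0 1 (w₂' m)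
      one_ne_zero 1 0 (by
        intro D' hF' hD'
        rw [map_zero, D'.map_one_eq_zero, Rat.cast_zero, Rat.cast_one, zero_div, zero_mul,
          add_zero, add_zero, zero_add, one_mul]
        exact (hrel D' hF' hD').2.2 m)).2 φ D hF hD).1
    rw [sum_eq_zero (fun a _ => by rw [hOM D hF hD, mul_zero]), Rat.cast_one, one_mul] at h4
    exact (mul_eq_zero.1 h4).resolve_left hφ'

end Pool.Agent.TH813.Ell
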