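import Mathlib
import Pool.Agent.TH813.Uni2
import Pool.Agent.TH813.EllRank

/-!
# The pairs of subspaces attached to the failures: a uniform bound for their number
-/

set_option autoImplicit false

open Finset Module
open scoped PeriodPair

noncomputable section

namespace Pool.Agent.TH813.Ell

open H667R3 Pool.Agent.W245.EB
open Pool.Agent.W252 Pool.Agent.W669.Gel
open Pool.Agent.TH813.Core Pool.Agent.TH813.Rank
open Pool.Agent.TH813.Rel (DF)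
open Pool.Agent.TH813.Uni (unif EE' EE'_apply repr_EE')

variable (L : PeriodPair) (F : IntermediateField ℚ ℂ) (V₁ V₂ : Submodule ℚ ℂ)

/-- the values of the derivations over `F` at a pair of tuples and at additional points -/
def PhiM (h2 : L.g₂ ∈ F) (h3 : L.g₃ ∈ F) (s u₁ n u₂ : ℕ) :
    (((Fin s ⊕ Fin u₁) → V₁) × ((Fin n ⊕ Fin u₂) → V₂)) →ₗ[ℚ]
      (DF F →ₗ[ℂ] ((Ix s n ⊕ (Fin u₁ ⊕ Fin u₂)) → ℂ)) where
  toFun y :=
    { toFun := fun D => Sum.elim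
        (cm L (D : Derivation ℚ ℂ ℂ) (fun i => (y.1 (Sum.inl i) : ℂ))
          (fun i => (y.2 (Sum.inl i) : ℂ)))
        (Sum.elim (fun m => dlog (D : Derivation ℚ ℂ ℂ) (y.1 (Sum.inr m) : ℂ))
          (fun m => om L (D : Derivation ℚ ℂ ℂ) (y.2 (Sum.inr m) : ℂ)))
      map_add' := fun D D' => by
        funext k
        rcases k with k | m | m
        · exact congrFun (cm_add_der (D : Derivation ℚ ℂ ℂ) D' _ _) k
        · exact dlog_add_der (D : Derivation ℚ ℂ ℂ) D' _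
        · exact om_add_der (D : Derivation ℚ ℂ ℂ) D' _
      map_smul' := fun c D => by
        funext k
        rcases k with k | m | m
        · exact congrFun (cm_smul_der c (D : Derivation ℚ ℂ ℂ) _ _) k
        · exact dlog_smul_der c (D : Derivation ℚ ℂ ℂ) _
        · exact om_smul_der c (D : Derivation ℚ ℂ ℂ) _ }
  map_add' y y' := by
    ext D k
    rcases k with ((i | i) | i | i | i) | m | m
    · exact map_add (D : Derivation ℚ ℂ ℂ) _ _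
    · exact dlog_add (D : Derivation ℚ ℂ ℂ) _ _
    · exact map_add (D : Derivation ℚ ℂ ℂ) _ _
    · exact om_add L (D : Derivation ℚ ℂ ℂ) (D.2 _ h2) (D.2 _ h3) _ _
    · exact et_add L (D : Derivation ℚ ℂ ℂ) (D.2 _ h2) (D.2 _ h3) _ _
    · exact dlog_add (D : Derivation ℚ ℂ ℂ) _ _
    · exact om_add L (D : Derivation ℚ ℂ ℂ) (D.2 _ h2) (D.2 _ h3) _ _
  map_smul' q y := by
    ext D k
    rcases k with ((i | i) | i | i | i) | m | m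
    · exact ((D : Derivation ℚ ℂ ℂ) : ℂ →ₗ[ℚ] ℂ).map_smul q _
    · exact (dl (D : Derivation ℚ ℂ ℂ)).map_smul q _
    · exact ((D : Derivation ℚ ℂ ℂ) : ℂ →ₗ[ℚ] ℂ).map_smul q _
    · exact (omL L (D : Derivation ℚ ℂ ℂ) (D.2 _ h2) (D.2 _ h3)).map_smul q _
    · exact (etL L (D : Derivation ℚ ℂ ℂ) (D.2 _ h2) (D.2 _ h3)).map_smul q _
    · exact (dl (D : Derivation ℚ ℂ ℂ)).map_smul q _
    · exact (omL L (D : Derivation ℚ ℂ ℂ) (D.2 _ h2) (D.2 _ h3)).map_smul q _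

theorem PhiM_apply (h2 : L.g₂ ∈ F) (h3 : L.g₃ ∈ F) {s u₁ n u₂ : ℕ}
    (y : ((Fin s ⊕ Fin u₁) → V₁) × ((Fin n ⊕ Fin u₂) → V₂)) (D : DF F) :
    PhiM L F V₁ V₂ h2 h3 s u₁ n u₂ y D = Sum.elim
        (cm L (D : Derivation ℚ ℂ ℂ) (fun i => (y.1 (Sum.inl i) : ℂ))
          (fun i => (y.2 (Sum.inl i) : ℂ)))
        (Sum.elim (fun m => dlog (D : Derivation ℚ ℂ ℂ) (y.1 (Sum.inr m) : ℂ))
          (fun m => om L (D : Derivation ℚ ℂ ℂ) (y.2 (Sum.inr m) : ℂ))) := rfl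

variable {s n : ℕ}

/-- The points of `V₁` whose exponential lies in the field attached to a point. -/
def UM₁ (t : Fin s → ℂ) (p : Fin n → ℂ) : Submodule ℚ ℂ where
  carrier := {v | v ∈ V₁ ∧ ∀ D ∈ DF F, cm L D t p = 0 → dlog D v = 0}
  add_mem' := by
    rintro a b ⟨ha, ha'⟩ ⟨hb, hb'⟩
    exact ⟨V₁.add_mem ha hb, fun D hF hD => by
      rw [dlog_add, ha' D hF hD, hb' D hF hD, add_zero]⟩
  zero_mem' := ⟨V₁.zero_mem, fun D _ _ => (dl D).map_zero⟩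
  smul_mem' := by
    rintro c a ⟨ha, ha'⟩
    refine ⟨V₁.smul_mem c ha, fun D hF hD => ?_⟩
    have h := (dl D).map_smul c a
    change dlog D (c • a) = c • dlog D a at h
    rw [h, ha' D hF hD, smul_zero]

/-- The points of `V₂` whose image on the elliptic curve is rational over the field attached to a
point. -/
def UM₂ (h2 : L.g₂ ∈ F) (h3 : L.g₃ ∈ F) (t : Fin s → ℂ) (p : Fin n → ℂ) : Submodule ℚ ℂ where
  carrier := {v | v ∈ V₂ ∧ ∀ D ∈ DF F, cm L D t p = 0 → om L D v = 0}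
  add_mem' := by
    rintro a b ⟨ha, ha'⟩ ⟨hb, hb'⟩
    exact ⟨V₂.add_mem ha hb, fun D hF hD => by
      rw [om_add L D (hF _ h2) (hF _ h3), ha' D hF hD, hb' D hF hD, add_zero]⟩
  zero_mem' := ⟨V₂.zero_mem, fun D _ _ => om_zero D⟩
  smul_mem' := by
    rintro c a ⟨ha, ha'⟩
    refine ⟨V₂.smul_mem c ha, fun D hF hD => ?_⟩
    have h := (omL L D (hF _ h2) (hF _ h3)).map_smul c a
    change om L D (c • a) = c • om L D a at h
    rw [h, ha' D hF hD, smul_zero]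

/-- the condition on the tangent vectors -/
def TP (t : Fin s → ℂ) (p : Fin n → ℂ) : Prop :=
  ∀ (u₁ u₂ : ℕ) (w₁ : Fin s → ℂ) (w₂ : Fin n → ℂ) (v₁ w₁' : Fin u₁ → ℂ) (v₂ w₂' : Fin u₂ → ℂ),
    (∀ D ∈ DF F, cm L D t p = 0 → ∀ m, dlog D (v₁ m) = 0) →
    (∀ D ∈ DF F, cm L D t p = 0 → ∀ m, om L D (v₂ m) = 0) →
    (∀ D ∈ DF F, cm L D t p = 0 → ∃ D' ∈ DF F, cm L D w₁ w₂ = cm L D' t p ∧
      (∀ m, dlog D (w₁' m) = dlog D' (v₁ m)) ∧ ∀ m, om L D (w₂' m) = om L D' (v₂ m)) →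
    ∀ D ∈ DF F, cm L D t p = 0 → (∀ m, dlog D (w₁' m) = 0) ∧ ∀ m, om L D (w₂' m) = 0

/-- the tuples considered -/
structure GoodM (ρ : ℕ) (t : Fin s → ℂ) (p : Fin n → ℂ) : Prop where
  mem₁ : ∀ i, t i ∈ V₁
  mem₂ : ∀ i, p i ∈ V₂
  tp : TP L F t p
  hr : finrank ℂ (LinearMap.range (evM L F t p)) = ρ

/-- The pairs of spaces with prescribed pivots. -/
def clsM (h2 : L.g₂ ∈ F) (h3 : L.g₃ ∈ F) (s n ρ : ℕ) {r₁ r₂ : ℕ} (b₁ : Basis (Fin r₁) ℚ V₁)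
    (b₂ : Basis (Fin r₂) ℚ V₂) (u₁ : ℕ) (C₁ : Fin u₁ → Fin r₁) (u₂ : ℕ) (C₂ : Fin u₂ → Fin r₂) :
    Set (Submodule ℚ ℂ × Submodule ℚ ℂ) :=
  {U | ∃ (t : Fin s → ℂ) (p : Fin n → ℂ), GoodM L F V₁ V₂ ρ t p ∧
    U = (UM₁ L F V₁ t p, UM₂ L F V₂ h2 h3 t p) ∧
    (∃ v : Fin u₁ → V₁,
      (∀ i j, b₁.repr (v i) (C₁ j) = if i = j then 1 else 0) ∧ (∀ i, (v i : ℂ) ∈ U.1) ∧
        ∀ y : V₁, (y : ℂ) ∈ U.1 → y = ∑ a, b₁.repr y (C₁ a) • v a) ∧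
    ∃ v : Fin u₂ → V₂,
      (∀ i j, b₂.repr (v i) (C₂ j) = if i = j then 1 else 0) ∧ (∀ i, (v i : ℂ) ∈ U.2) ∧
        ∀ y : V₂, (y : ℂ) ∈ U.2 → y = ∑ a, b₂.repr y (C₂ a) • v a}

theorem rank_PhiM (h2 : L.g₂ ∈ F) (h3 : L.g₃ ∈ F) {s u₁ n u₂ : ℕ}
    {y : ((Fin s ⊕ Fin u₁) → V₁) × ((Fin n ⊕ Fin u₂) → V₂)}
    (hy : ∀ D ∈ DF F, cm L D (fun i => (y.1 (Sum.inl i) : ℂ)) (fun i => (y.2 (Sum.inl i) : ℂ)) = 0 →
      (∀ m, dlog D (y.1 (Sum.inr m) : ℂ) = 0) ∧ ∀ m, om L D (y.2 (Sum.inr m) : ℂ) = 0) :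
    finrank ℂ (LinearMap.range (PhiM L F V₁ V₂ h2 h3 s u₁ n u₂ y)) =
      finrank ℂ (LinearMap.range (evM L F (fun i => (y.1 (Sum.inl i) : ℂ))
        (fun i => (y.2 (Sum.inl i) : ℂ)))) := by
  apply finrank_range_eq
  ext D
  rw [LinearMap.mem_ker, LinearMap.mem_ker, PhiM_apply, evM_apply]
  constructor
  · intro h
    funext k
    exact congrFun h (Sum.inl k)
  · intro h
    obtain ⟨h4, h5⟩ := hy D D.2 h
    funext k
    rcases k with k | m | m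
    · exact congrFun h k
    · exact h4 m
    · exact h5 m

variable {V₁ V₂}

/-- coordinates -/
def EM' (s u₁ n u₂ : ℕ) {r₁ r₂ : ℕ} (b₁ : Basis (Fin r₁) ℚ V₁) (b₂ : Basis (Fin r₂) ℚ V₂) :
    (((Fin s ⊕ Fin u₁) → (Fin r₁ → ℚ)) × ((Fin n ⊕ Fin u₂) → (Fin r₂ → ℚ))) →ₗ[ℚ]
      (((Fin s ⊕ Fin u₁) → V₁) × ((Fin n ⊕ Fin u₂) → V₂)) :=
  LinearMap.prodMap (EE' s u₁ b₁) (EE' n u₂ b₂)

/-- **Uniform bound for the number of the pairs of subspaces with prescribed pivots.** -/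
theorem bound_clsM (s n ρ r₁ r₂ u₁ u₂ : ℕ) (C₁ : Fin u₁ → Fin r₁) (C₂ : Fin u₂ → Fin r₂) :
    ∃ B : ℕ, ∀ (L : PeriodPair) (F : IntermediateField ℚ ℂ) (h2 : L.g₂ ∈ F) (h3 : L.g₃ ∈ F)
      (V₁ V₂ : Submodule ℚ ℂ) (b₁ : Basis (Fin r₁) ℚ V₁) (b₂ : Basis (Fin r₂) ℚ V₂),
      (clsM L F V₁ V₂ h2 h3 s n ρ b₁ b₂ u₁ C₁ u₂ C₂).encard ≤ B := by
  classical
  obtain ⟨B, hB⟩ := unif (n := ρ)
    (M := ((Fin s ⊕ Fin u₁) → (Fin r₁ → ℚ)) × ((Fin n ⊕ Fin u₂) → (Fin r₂ → ℚ)))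
    (ι := (Fin u₁ × Fin r₁) ⊕ (Fin u₂ × Fin r₂)) (κ := (Fin u₁ × Fin u₁) ⊕ (Fin u₂ × Fin u₂))
    (Sum.elim
      (fun a => LinearMap.proj a.2 ∘ₗ LinearMap.proj (Sum.inr a.1) ∘ₗ LinearMap.fst ℚ _ _)
      (fun a => LinearMap.proj a.2 ∘ₗ LinearMap.proj (Sum.inr a.1) ∘ₗ LinearMap.snd ℚ _ _))
    (Sum.elim
      (fun a => LinearMap.proj (C₁ a.2) ∘ₗ LinearMap.proj (Sum.inr a.1) ∘ₗ LinearMap.fst ℚ _ _)
      (fun a => LinearMap.proj (C₂ a.2) ∘ₗ LinearMap.proj (Sum.inr a.1) ∘ₗ LinearMap.snd ℚ _ _))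
    (Sum.elim (fun a => if a.1 = a.2 then 1 else 0) (fun a => if a.1 = a.2 then 1 else 0))
  refine ⟨B, fun L F h2 h3 V₁ V₂ b₁ b₂ => ?_⟩
  let Y : Set (((Fin s ⊕ Fin u₁) → (Fin r₁ → ℚ)) × ((Fin n ⊕ Fin u₂) → (Fin r₂ → ℚ))) :=
    {y | ∃ (t : Fin s → ℂ) (p : Fin n → ℂ) (v₁ : Fin u₁ → V₁) (v₂ : Fin u₂ → V₂),
    ((∀ i, (EE' s u₁ b₁ y.1 (Sum.inl i) : ℂ) = t i) ∧ (∀ m, EE' s u₁ b₁ y.1 (Sum.inr m) = v₁ m)) ∧
    ((∀ i, (EE' n u₂ b₂ y.2 (Sum.inl i) : ℂ) = p i) ∧ (∀ m, EE' n u₂ b₂ y.2 (Sum.inr m) = v₂ m)) ∧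
    GoodM L F V₁ V₂ ρ t p ∧
    ((∀ i j, b₁.repr (v₁ i) (C₁ j) = if i = j then 1 else 0) ∧
      (∀ i, (v₁ i : ℂ) ∈ UM₁ L F V₁ t p) ∧
      ∀ y : V₁, (y : ℂ) ∈ UM₁ L F V₁ t p → y = ∑ a, b₁.repr y (C₁ a) • v₁ a) ∧
    ((∀ i j, b₂.repr (v₂ i) (C₂ j) = if i = j then 1 else 0) ∧
      (∀ i, (v₂ i : ℂ) ∈ UM₂ L F V₂ h2 h3 t p) ∧
      ∀ y : V₂, (y : ℂ) ∈ UM₂ L F V₂ h2 h3 t p → y = ∑ a, b₂.repr y (C₂ a) • v₂ a)}
  have h1 := hB _ (GForms.F (PhiM L F V₁ V₂ h2 h3 s u₁ n u₂ ∘ₗ EM' s u₁ n u₂ b₁ b₂)) Y (by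
    rintro y ⟨t, p, v₁, v₂, ⟨hyt, hyv₁⟩, ⟨hyp, hyv₂⟩, hz, ⟨hv1, hv2, hv3⟩, ⟨hv1', hv2', hv3'⟩⟩
    have hyt' : (fun i => (EE' s u₁ b₁ y.1 (Sum.inl i) : ℂ)) = t := funext hyt
    have hyp' : (fun i => (EE' n u₂ b₂ y.2 (Sum.inl i) : ℂ)) = p := funext hyp
    have hEM1 : (EM' s u₁ n u₂ b₁ b₂ y).1 = EE' s u₁ b₁ y.1 := rfl
    have hEM2 : (EM' s u₁ n u₂ b₁ b₂ y).2 = EE' n u₂ b₂ y.2 := rfl
    have hker₁ : ∀ D ∈ DF F, cm L D t p = 0 → ∀ m, dlog D (v₁ m : ℂ) = 0 :=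
      fun D hF hD m => (hv2 m).2 D hF hD
    have hker₂ : ∀ D ∈ DF F, cm L D t p = 0 → ∀ m, om L D (v₂ m : ℂ) = 0 :=
      fun D hF hD m => (hv2' m).2 D hF hD
    have hrank : finrank ℂ (LinearMap.range
        ((PhiM L F V₁ V₂ h2 h3 s u₁ n u₂ ∘ₗ EM' s u₁ n u₂ b₁ b₂) y)) = ρ := by
      rw [LinearMap.comp_apply, rank_PhiM L F V₁ V₂ h2 h3 (fun D hF hD => by
        rw [hEM1, hEM2, hyt', hyp'] at hD
        rw [hEM1, hEM2]
        exact ⟨fun m => by rw [hyv₁]; exact hker₁ D hF hD m,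
          fun m => by rw [hyv₂]; exact hker₂ D hF hD m⟩), hEM1, hEM2, hyt', hyp']
      exact hz.hr
    refine ⟨fun a => GForms.forms_zero _ _ hrank.le a, ?_, fun w hw hQ => ?_⟩
    · rintro (a | a)
      · change y.1 (Sum.inr a.1) (C₁ a.2) = _
        rw [← repr_EE' s u₁ b₁ y.1, hyv₁, hv1]
        rfl
      · change y.2 (Sum.inr a.1) (C₂ a.2) = _
        rw [← repr_EE' n u₂ b₂ y.2, hyv₂, hv1']
        rfl
    · have g1 := GForms.tangent _ hrank hw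
      have g2 := hz.tp u₁ u₂ (fun i => (EE' s u₁ b₁ w.1 (Sum.inl i) : ℂ))
        (fun i => (EE' n u₂ b₂ w.2 (Sum.inl i) : ℂ))
        (fun m => (v₁ m : ℂ)) (fun m => (EE' s u₁ b₁ w.1 (Sum.inr m) : ℂ))
        (fun m => (v₂ m : ℂ)) (fun m => (EE' n u₂ b₂ w.2 (Sum.inr m) : ℂ))
        (fun D hF hD m => hker₁ D hF hD m) (fun D hF hD m => hker₂ D hF hD m) (by
          intro D hF hD
          obtain ⟨D', hD'⟩ := g1 ⟨D, hF⟩ (by
            rw [LinearMap.comp_apply, PhiM_apply, hEM1, hEM2, hyt', hyp']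
            funext k'
            rcases k' with k' | m | m
            · exact congrFun hD k'
            · change dlog D (EE' s u₁ b₁ y.1 (Sum.inr m) : ℂ) = 0
              rw [hyv₁]
              exact hker₁ D hF hD m
            · change om L D (EE' n u₂ b₂ y.2 (Sum.inr m) : ℂ) = 0
              rw [hyv₂]
              exact hker₂ D hF hD m)
          rw [LinearMap.comp_apply, LinearMap.comp_apply, PhiM_apply, PhiM_apply, hEM1, hEM2,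
            hyt', hyp'] at hD'
          refine ⟨D', D'.2, ?_, fun m => ?_, fun m => ?_⟩
          · funext k'
            exact congrFun hD' (Sum.inl k')
          · have := congrFun hD' (Sum.inr (Sum.inl m))
            change dlog D (EE' s u₁ b₁ w.1 (Sum.inr m) : ℂ) =
              dlog D' (EE' s u₁ b₁ y.1 (Sum.inr m) : ℂ) at this
            rw [hyv₁] at this
            exact this
          · have := congrFun hD' (Sum.inr (Sum.inr m))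
            change om L D (EE' n u₂ b₂ w.2 (Sum.inr m) : ℂ) =
              om L D' (EE' n u₂ b₂ y.2 (Sum.inr m) : ℂ) at this
            rw [hyv₂] at this
            exact this)
      rintro (a | a)
      · have g3 : ((EE' s u₁ b₁ w.1 (Sum.inr a.1) : V₁) : ℂ) ∈ UM₁ L F V₁ t p :=
          ⟨(EE' s u₁ b₁ w.1 (Sum.inr a.1)).2, fun D hF hD => (g2 D hF hD).1 a.1⟩
        have g4 := hv3 _ g3
        have g5 : EE' s u₁ b₁ w.1 (Sum.inr a.1) = 0 := by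
          rw [g4]
          refine sum_eq_zero (fun c _ => ?_)
          have h6 : w.1 (Sum.inr a.1) (C₁ c) = 0 := hQ (Sum.inl (a.1, c))
          rw [repr_EE', h6, zero_smul]
        change w.1 (Sum.inr a.1) a.2 = 0
        rw [← repr_EE' s u₁ b₁ w.1, g5, map_zero]
        rfl
      · have g3 : ((EE' n u₂ b₂ w.2 (Sum.inr a.1) : V₂) : ℂ) ∈ UM₂ L F V₂ h2 h3 t p :=
          ⟨(EE' n u₂ b₂ w.2 (Sum.inr a.1)).2, fun D hF hD => (g2 D hF hD).2 a.1⟩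
        have g4 := hv3' _ g3
        have g5 : EE' n u₂ b₂ w.2 (Sum.inr a.1) = 0 := by
          rw [g4]
          refine sum_eq_zero (fun c _ => ?_)
          have h6 : w.2 (Sum.inr a.1) (C₂ c) = 0 := hQ (Sum.inr (a.1, c))
          rw [repr_EE', h6, zero_smul]
        change w.2 (Sum.inr a.1) a.2 = 0
        rw [← repr_EE' n u₂ b₂ w.2, g5, map_zero]
        rfl)
  let g : ((Fin u₁ × Fin r₁) ⊕ (Fin u₂ × Fin r₂) → ℚ) → Submodule ℚ ℂ × Submodule ℚ ℂ := fun x =>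
    (Submodule.span ℚ (Set.range (fun i : Fin u₁ =>
        ((b₁.equivFun.symm (fun l => x (Sum.inl (i, l))) : V₁) : ℂ))),
      Submodule.span ℚ (Set.range (fun i : Fin u₂ =>
        ((b₂.equivFun.symm (fun l => x (Sum.inr (i, l))) : V₂) : ℂ))))
  refine le_trans (Set.encard_le_encard (t := g '' ((fun y i => (Sum.elim
      (fun a => LinearMap.proj a.2 ∘ₗ LinearMap.proj (Sum.inr a.1) ∘ₗ LinearMap.fst ℚ _ _)
      (fun a => LinearMap.proj a.2 ∘ₗ LinearMap.proj (Sum.inr a.1) ∘ₗ LinearMap.snd ℚ _ _) :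
      (Fin u₁ × Fin r₁) ⊕ (Fin u₂ × Fin r₂) → Dual ℚ
        (((Fin s ⊕ Fin u₁) → (Fin r₁ → ℚ)) × ((Fin n ⊕ Fin u₂) → (Fin r₂ → ℚ)))) i y) '' Y)) ?_)
    ((Set.encard_image_le _ _).trans h1)
  rintro U ⟨t, p, hz, rfl, ⟨v₁, hv1, hv2, hv3⟩, ⟨v₂, hv1', hv2', hv3'⟩⟩
  let y : ((Fin s ⊕ Fin u₁) → (Fin r₁ → ℚ)) × ((Fin n ⊕ Fin u₂) → (Fin r₂ → ℚ)) :=
    (Sum.elim (fun i => b₁.equivFun ⟨t i, hz.mem₁ i⟩) (fun m => b₁.equivFun (v₁ m)),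
      Sum.elim (fun i => b₂.equivFun ⟨p i, hz.mem₂ i⟩) (fun m => b₂.equivFun (v₂ m)))
  have hy : y ∈ Y := by
    refine ⟨t, p, v₁, v₂, ⟨fun i => ?_, fun m => ?_⟩, ⟨fun i => ?_, fun m => ?_⟩, hz,
      ⟨hv1, hv2, hv3⟩, ⟨hv1', hv2', hv3'⟩⟩
    · rw [EE'_apply]
      change ((b₁.equivFun.symm (b₁.equivFun ⟨t i, hz.mem₁ i⟩) : V₁) : ℂ) = t i
      rw [LinearEquiv.symm_apply_apply]
    · rw [EE'_apply]
      change b₁.equivFun.symm (b₁.equivFun (v₁ m)) = v₁ m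
      rw [LinearEquiv.symm_apply_apply]
    · rw [EE'_apply]
      change ((b₂.equivFun.symm (b₂.equivFun ⟨p i, hz.mem₂ i⟩) : V₂) : ℂ) = p i
      rw [LinearEquiv.symm_apply_apply]
    · rw [EE'_apply]
      change b₂.equivFun.symm (b₂.equivFun (v₂ m)) = v₂ m
      rw [LinearEquiv.symm_apply_apply]
  have hspan : ∀ {V : Submodule ℚ ℂ} {r u : ℕ} (b : Basis (Fin r) ℚ V) (C : Fin u → Fin r)
      (v : Fin u → V) (U : Submodule ℚ ℂ) (_ : ∀ x ∈ U, x ∈ V) (_ : ∀ i, (v i : ℂ) ∈ U)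
      (_ : ∀ y : V, (y : ℂ) ∈ U → y = ∑ a, b.repr y (C a) • v a),
      Submodule.span ℚ (Set.range (fun i : Fin u =>
        ((b.equivFun.symm (fun l => b.equivFun (v i) l) : V) : ℂ))) = U := by
    intro V r u b C v U hUV hvU hvs
    have e1 : ∀ i : Fin u, ((b.equivFun.symm (fun l => b.equivFun (v i) l) : V) : ℂ) = v i := by
      intro i
      have : (fun l => b.equivFun (v i) l) = b.equivFun (v i) := rfl
      rw [this, LinearEquiv.symm_apply_apply]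
    simp only [e1]
    apply le_antisymm
    · rw [Submodule.span_le]
      rintro _ ⟨i, rfl⟩
      exact hvU i
    · intro x hx
      have h3 := congrArg (fun t : V => (t : ℂ)) (hvs ⟨x, hUV x hx⟩ hx)
      simp only [Submodule.coe_sum, Submodule.coe_smul] at h3
      rw [h3]
      exact Submodule.sum_mem _ (fun a _ => Submodule.smul_mem _ _ (Submodule.subset_span ⟨a, rfl⟩))
  refine ⟨_, ⟨y, hy, rfl⟩, ?_⟩
  exact Prod.ext (hspan b₁ C₁ v₁ _ (fun x hx => hx.1) hv2 hv3)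
    (hspan b₂ C₂ v₂ _ (fun x hx => hx.1) hv2' hv3')

/-- pivots of a subspace -/
theorem exists_pivots {V U : Submodule ℚ ℂ} [FiniteDimensional ℚ V] {r : ℕ}
    (b : Basis (Fin r) ℚ V) (hr : finrank ℚ V = r) :
    ∃ (u : Fin (r + 1)) (C : Fin u → Fin r) (v : Fin u → V),
      (∀ i j, b.repr (v i) (C j) = if i = j then 1 else 0) ∧ (∀ i, (v i : ℂ) ∈ U) ∧
        ∀ y : V, (y : ℂ) ∈ U → y = ∑ a, b.repr y (C a) • v a := by
  classical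
  let U' : Submodule ℚ V := U.comap V.subtype
  obtain ⟨J, x, hx1, hx2⟩ := GForms.exists_dual (k := ℚ) (V := U')
    (fun l : Fin r => b.coord l ∘ₗ U'.subtype) (by
      intro x hx
      apply Subtype.ext
      apply b.repr.injective
      ext l
      exact (hx l).trans (by simp))
  have hle : finrank ℚ U' < r + 1 := by
    have := Submodule.finrank_le U'
    omega
  refine ⟨⟨finrank ℚ U', hle⟩, J, fun i => (x i : V), fun i j => hx1 i j,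
    fun i => (x i).2, ?_⟩
  intro y hy
  have h1 := congrArg (fun t : U' => (t : V)) (hx2 ⟨y, hy⟩)
  simp only [Submodule.coe_sum, Submodule.coe_smul] at h1
  exact h1

/-- **Uniform bound for the number of the pairs of subspaces.** -/
theorem bound_UM (s n ρ r₁ r₂ : ℕ) : ∃ B : ℕ, ∀ (L : PeriodPair) (F : IntermediateField ℚ ℂ)
    (h2 : L.g₂ ∈ F) (h3 : L.g₃ ∈ F) (V₁ V₂ : Submodule ℚ ℂ), FiniteDimensional ℚ V₁ →
    FiniteDimensional ℚ V₂ → finrank ℚ V₁ = r₁ → finrank ℚ V₂ = r₂ →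
      {U : Submodule ℚ ℂ × Submodule ℚ ℂ | ∃ (t : Fin s → ℂ) (p : Fin n → ℂ),
        GoodM L F V₁ V₂ ρ t p ∧ U = (UM₁ L F V₁ t p, UM₂ L F V₂ h2 h3 t p)}.encard ≤ B := by
  classical
  choose B hB using fun (q : (Σ u : Fin (r₁ + 1), (Fin u → Fin r₁)) ×
    (Σ u : Fin (r₂ + 1), (Fin u → Fin r₂))) => bound_clsM s n ρ r₁ r₂ q.1.1 q.2.1 q.1.2 q.2.2
  refine ⟨∑ q, B q, fun L F h2 h3 V₁ V₂ _ _ hV₁ hV₂ => ?_⟩
  let b₁ : Basis (Fin r₁) ℚ V₁ := finBasisOfFinrankEq ℚ V₁ hV₁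
  let b₂ : Basis (Fin r₂) ℚ V₂ := finBasisOfFinrankEq ℚ V₂ hV₂
  have h1 : {U : Submodule ℚ ℂ × Submodule ℚ ℂ | ∃ (t : Fin s → ℂ) (p : Fin n → ℂ),
        GoodM L F V₁ V₂ ρ t p ∧ U = (UM₁ L F V₁ t p, UM₂ L F V₂ h2 h3 t p)} ⊆
      ⋃ q : (Σ u : Fin (r₁ + 1), (Fin u → Fin r₁)) × (Σ u : Fin (r₂ + 1), (Fin u → Fin r₂)),
        clsM L F V₁ V₂ h2 h3 s n ρ b₁ b₂ q.1.1 q.1.2 q.2.1 q.2.2 := by
    rintro U ⟨t, p, hz, rfl⟩
    obtain ⟨u₁, C₁, v₁, hv₁⟩ := exists_pivots (U := UM₁ L F V₁ t p) b₁ hV₁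
    obtain ⟨u₂, C₂, v₂, hv₂⟩ := exists_pivots (U := UM₂ L F V₂ h2 h3 t p) b₂ hV₂
    rw [Set.mem_iUnion]
    exact ⟨(⟨u₁, C₁⟩, ⟨u₂, C₂⟩), t, p, hz, rfl, ⟨v₁, hv₁⟩, ⟨v₂, hv₂⟩⟩
  have h2' : ∀ S : Finset ((Σ u : Fin (r₁ + 1), (Fin u → Fin r₁)) ×
      (Σ u : Fin (r₂ + 1), (Fin u → Fin r₂))),
      (⋃ q ∈ S, clsM L F V₁ V₂ h2 h3 s n ρ b₁ b₂ q.1.1 q.1.2 q.2.1 q.2.2).encard ≤
        ((∑ q ∈ S, B q : ℕ) : ℕ∞) := by
    intro S
    induction S using Finset.induction_on with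
    | empty => simp
    | insert p S hp ih =>
      rw [Finset.set_biUnion_insert, Finset.sum_insert hp, Nat.cast_add]
      exact (Set.encard_union_le _ _).trans (add_le_add (hB p L F h2 h3 V₁ V₂ b₁ b₂) ih)
  refine (Set.encard_le_encard h1).trans ?_
  have h4 := h2' Finset.univ
  simp only [Finset.mem_univ, Set.iUnion_true] at h4
  exact h4

end Pool.Agent.TH813.Ell
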