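import Mathlib
import Pool.Agent.TH813.EllUni
import Pool.Agent.TH813.EKCore

/-!
# Ranks and combinations with coefficients in the field of multiplications
-/

set_option autoImplicit false

open Finset Module
open scoped PeriodPair ComplexConjugate

noncomputable section

namespace Pool.Agent.TH813.Ell

open H667R3 Pool.Agent.W245.EB
open Pool.Agent.W252 Pool.Agent.W669.Gel
open Pool.Agent.TH813.Core Pool.Agent.TH813.Rank
open Pool.Agent.TH813.Rel (DF MK mem_cl subset_cl kills_clF)

variable {L : PeriodPair} {κ : ℂ} {s n : ℕ} {F : IntermediateField ℚ ℂ}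

theorem finrank_evK (t : Fin s → ℂ) (p : Fin n → ℂ) :
    finrank ℂ (LinearMap.range (evK L κ F t p)) = finrank ℂ (LinearMap.range (evM L F t p)) := by
  apply finrank_range_eq
  ext D
  rw [LinearMap.mem_ker, LinearMap.mem_ker, evK_apply, evM_apply, ck_zero_iff]

theorem chg_inj {w w' : Ix s n → ℂ} (h : chg κ w = chg κ w') : w = w' := by
  have h1 : chg κ (w - w') = 0 := by rw [map_sub, h, sub_self]
  exact sub_eq_zero.1 (chg_eq_zero.1 h1)

theorem chg_LGv (q : Fin s → ℂ) : chg κ (LGv q : Ix s n → ℂ) = LGv q := by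
  funext k
  rcases k with k | i | i | i
  · rfl
  · rfl
  · rfl
  · change (0 : ℂ) + κ * (0 - 0) = 0
    ring

/-- combinations with coefficients in the field of multiplications -/
def combK {m : ℕ} (A : Matrix (Fin m) (Fin n) (kL L)) (z : Fin n → ℂ) : Fin m → ℂ :=
  fun i => ∑ j, (A i j : ℂ) * z j

/-- vectors orthogonal to a nonzero vector -/
theorem exists_orthoK {k : Type*} [Field k] (q : Fin (n + 1) → k) :
    ∃ A : Matrix (Fin n) (Fin (n + 1)) k,
      LinearIndependent k (fun i => A i) ∧ ∀ i, ∑ j, A i j * q j = 0 := by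
  classical
  let φ : (Fin (n + 1) → k) →ₗ[k] k :=
    { toFun := fun x => ∑ j, x j * q j
      map_add' := fun x y => by simp [add_mul, sum_add_distrib]
      map_smul' := fun c x => by simp [mul_sum, mul_assoc] }
  have h1 := φ.finrank_range_add_finrank_ker
  rw [finrank_fintype_fun_eq_card, Fintype.card_fin] at h1
  have h2 : finrank k (LinearMap.range φ) ≤ 1 := by
    have := Submodule.finrank_le (LinearMap.range φ)
    rwa [finrank_self] at this
  have h3 : n ≤ finrank k (LinearMap.ker φ) := by omega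
  let b := finBasis k (LinearMap.ker φ)
  refine ⟨fun i => (b (Fin.castLE h3 i) : Fin (n + 1) → k), ?_, fun i => (b (Fin.castLE h3 i)).2⟩
  exact (b.linearIndependent.map' (LinearMap.ker φ).subtype
    (Submodule.ker_subtype _)).comp _ (Fin.castLE_injective h3)

/-- the linear map on the coordinates which belongs to a matrix -/
def lmK {n' : ℕ} (A : Matrix (Fin n') (Fin n) (kL L)) :
    (Ix s n → ℂ) →ₗ[ℂ] (Ix s n' → ℂ) where
  toFun := fun w => Sum.elim (fun k => w (Sum.inl k))
    (Sum.elim (fun i => ∑ j, (A i j : ℂ) * w (Sum.inr (Sum.inl j)))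
      (Sum.elim (fun i => ∑ j, (A i j : ℂ) * w (Sum.inr (Sum.inr (Sum.inl j))))
        (fun i => ∑ j, conj (A i j : ℂ) * w (Sum.inr (Sum.inr (Sum.inr j))))))
  map_add' := fun w w' => by
    funext k
    rcases k with k | i | i | i <;> simp [mul_add, sum_add_distrib]
  map_smul' := fun c w => by
    funext k
    rcases k with k | i | i | i <;> simp [mul_sum, mul_left_comm]

theorem lmK_evK (hE : Eig L κ) (h2 : L.g₂ ∈ F) (h3 : L.g₃ ∈ F) {n' : ℕ}
    (A : Matrix (Fin n') (Fin n) (kL L)) (t : Fin s → ℂ) (p : Fin n → ℂ) :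
    lmK A ∘ₗ evK L κ F t p = evK L κ F t (combK A p) := by
  ext D k
  have hF := D.2
  rw [LinearMap.comp_apply, evK_apply, evK_apply]
  rcases k with k | i | i | i
  · rfl
  · change ∑ j, (A i j : ℂ) * (D : Derivation ℚ ℂ ℂ) (p j) =
      (D : Derivation ℚ ℂ ℂ) (∑ j, (A i j : ℂ) * p j)
    rw [map_sum]
    refine sum_congr rfl (fun j _ => ?_)
    rw [Derivation.leibniz, der_kL _ (A i j).2, smul_zero, add_zero, smul_eq_mul]
  · change ∑ j, (A i j : ℂ) * om L (D : Derivation ℚ ℂ ℂ) (p j) =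
      om L (D : Derivation ℚ ℂ ℂ) (∑ j, (A i j : ℂ) * p j)
    rw [om_linK hE _ (hF _ h2) (hF _ h3) _ _ (fun j => (A i j).2)]
  · change ∑ j, conj (A i j : ℂ) * xi L κ (D : Derivation ℚ ℂ ℂ) (p j) =
      xi L κ (D : Derivation ℚ ℂ ℂ) (∑ j, (A i j : ℂ) * p j)
    rw [xi_linK hE _ (hF _ h2) (hF _ h3) _ _ (fun j => (A i j).2)]

theorem indep_twoK {q q' : Fin n → ℂ} (hq : q ≠ 0) (hq' : q' ≠ 0) :
    LinearIndependent ℂ (![OMv q, ETv q'] : Fin 2 → (Ix s n → ℂ)) := by
  obtain ⟨i, hi⟩ := Function.ne_iff.1 hq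
  obtain ⟨i', hi'⟩ := Function.ne_iff.1 hq'
  rw [LinearIndependent.pair_iff]
  intro a b hab
  have h1 := congrFun hab (Sum.inr (Sum.inr (Sum.inl i)))
  have h2 := congrFun hab (Sum.inr (Sum.inr (Sum.inr i')))
  have e1 : a * q i + b * 0 = 0 := h1
  have e2 : a * 0 + b * q' i' = 0 := h2
  rw [mul_zero, add_zero] at e1
  rw [mul_zero, zero_add] at e2
  exact ⟨(mul_eq_zero.1 e1).resolve_right hi, (mul_eq_zero.1 e2).resolve_right hi'⟩

/-- the loss of rank at a point of the elliptic curve -/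
theorem loss_twoK (hE : Eig L κ) (h2 : L.g₂ ∈ F) (h3 : L.g₃ ∈ F) {t : Fin s → ℂ}
    {p : Fin (n + 1) → ℂ} {D D' : Derivation ℚ ℂ ℂ} (hF : D ∈ DF F) (hF' : D' ∈ DF F)
    {q : Fin (n + 1) → kL L} (hq : q ≠ 0)
    (hD : ck L κ D t p = OMv (fun i => (q i : ℂ)))
    (hD' : ck L κ D' t p = ETv (fun i => conj (q i : ℂ)))
    {A : Matrix (Fin n) (Fin (n + 1)) (kL L)} (hA : ∀ i, ∑ j, A i j * q j = 0) :
    finrank ℂ (LinearMap.range (evM L F t (combK A p))) + 2 ≤
      finrank ℂ (LinearMap.range (evM L F t p)) := by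
  have hq1 : (fun i => (q i : ℂ)) ≠ 0 := by
    intro h0
    apply hq
    funext i
    exact Subtype.ext (congrFun h0 i)
  have hq2 : (fun i => conj (q i : ℂ)) ≠ 0 := by
    intro h0
    apply hq
    funext i
    have h4 : conj (q i : ℂ) = 0 := congrFun h0 i
    exact Subtype.ext ((map_eq_zero (starRingEnd ℂ)).1 h4)
  have hAC : ∀ i, ∑ j, (A i j : ℂ) * (q j : ℂ) = 0 := by
    intro i
    have := congrArg (fun z : kL L => (z : ℂ)) (hA i)
    simp only [AddSubmonoidClass.coe_finsetSum] at this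
    exact this
  have hAC' : ∀ i, ∑ j, conj (A i j : ℂ) * conj (q j : ℂ) = 0 := by
    intro i
    have := congrArg conj (hAC i)
    rw [map_sum, map_zero] at this
    simp only [map_mul] at this
    exact this
  have hzero : ∀ i, ∑ j, (A i j : ℂ) * (0 : ℂ) = 0 := fun i => by simp
  have hzero' : ∀ i, ∑ j, conj (A i j : ℂ) * (0 : ℂ) = 0 := fun i => by simp
  have h := rank_loss_gen (lmK A) (evK L κ F t p)
    (k := 2) _ (indep_twoK (s := s) hq1 hq2) (fun i => by
      refine Fin.cases ?_ (fun j => ?_) i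
      · exact ⟨⟨D, hF⟩, by rw [evK_apply]; exact hD⟩
      · have : j = 0 := Subsingleton.elim _ _
        rw [this]
        exact ⟨⟨D', hF'⟩, by rw [evK_apply]; exact hD'⟩) (fun i => by
      refine Fin.cases ?_ (fun j => ?_) i
      · change lmK A (OMv (fun i => (q i : ℂ)) : Ix s (n + 1) → ℂ) = 0
        funext k
        rcases k with k | i | i | i
        · rfl
        · exact hzero i
        · exact hAC i
        · exact hzero' i
      · have : j = 0 := Subsingleton.elim _ _
        rw [this]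
        change lmK A (ETv (fun i => conj (q i : ℂ)) : Ix s (n + 1) → ℂ) = 0
        funext k
        rcases k with k | i | i | i
        · rfl
        · exact hzero i
        · exact hzero i
        · exact hAC' i)
  rw [lmK_evK hE h2 h3, finrank_evK, finrank_evK] at h
  exact h

theorem comb_indepK {A₂ : Submodule (kL L) ℂ} {m : ℕ} {A : Matrix (Fin m) (Fin n) (kL L)}
    (hA : LinearIndependent (kL L) (fun i => A i)) {z : Fin n → ℂ}
    (hz : LinearIndependent (kL L) (fun i => A₂.mkQ (z i))) :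
    LinearIndependent (kL L) (fun i => A₂.mkQ (combK A z i)) := by
  let f : (Fin n → kL L) →ₗ[kL L] (ℂ ⧸ A₂) :=
    Fintype.linearCombination (kL L) (fun i => A₂.mkQ (z i))
  have hf : LinearMap.ker f = ⊥ := by
    rw [LinearMap.ker_eq_bot']
    intro c hc
    funext i
    exact Fintype.linearIndependent_iff.1 hz c (by rwa [Fintype.linearCombination_apply] at hc) i
  have h1 := hA.map' f hf
  have h2 : f ∘ (fun i => A i) = fun i => A₂.mkQ (combK A z i) := by
    funext i
    rw [Function.comp_apply, Fintype.linearCombination_apply]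
    unfold combK
    rw [map_sum]
    refine sum_congr rfl (fun j _ => ?_)
    rw [← map_smul]
    rfl
  rwa [h2] at h1

theorem combK_mem {U : Submodule (kL L) ℂ} {z : Fin n → ℂ} (hz : ∀ i, z i ∈ U) {m : ℕ}
    (A : Matrix (Fin m) (Fin n) (kL L)) (i : Fin m) : combK A z i ∈ U :=
  U.sum_mem (fun j _ => U.smul_mem (A i j) (hz j))

/-- the tangent condition holds if there are no vectors with coordinates in the field of
multiplications -/
theorem tp_of (hE : Eig L κ) (h2 : L.g₂ ∈ F) (h3 : L.g₃ ∈ F) {t : Fin s → ℂ} {p : Fin n → ℂ}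
    (hB1 : ∀ D ∈ DF F, ∀ q : Fin s → ℚ, cm L D t p = LGv (fun i => (q i : ℂ)) → q = 0)
    (hB2 : ∀ D ∈ DF F, ∀ D' ∈ DF F, ∀ q : Fin n → kL L,
      ck L κ D t p = OMv (fun i => (q i : ℂ)) →
      ck L κ D' t p = ETv (fun i => conj (q i : ℂ)) → q = 0) : TP L F t p := by
  intro u₁ u₂ w₁ w₂ v₁ w₁' v₂ w₂'
  refine coreK hE h2 h3 (fun D hF q hD => hB1 D hF q ?_) hB2
  rw [← chg_cm, ← chg_LGv (κ := κ)] at hD
  exact chg_inj hD

/-- the degree of the field of multiplications -/
theorem finrank_kL (L : PeriodPair) : FiniteDimensional ℚ (kL L) ∧ finrank ℚ (kL L) ≤ 2 := by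
  classical
  let S := Submodule.span ℚ (Set.range ![L.ω₁, L.ω₂])
  have hfd : FiniteDimensional ℚ S := FiniteDimensional.span_of_finite ℚ (Set.finite_range _)
  have hS : finrank ℚ S ≤ 2 := by
    have := finrank_range_le_card (R := ℚ) ![L.ω₁, L.ω₂]
    rwa [Fintype.card_fin] at this
  have hmem : ∀ c ∈ kL L, c * L.ω₁ ∈ S := by
    intro c hc
    obtain ⟨m, hm, h⟩ := mem_kL.1 hc
    obtain ⟨a, b, hab⟩ := PeriodPair.mem_lattice.1 (h _ L.ω₁_mem_lattice)
    have hm0 : (m : ℂ) ≠ 0 := by exact_mod_cast hm.ne'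
    have h1 : c * L.ω₁ = ((a : ℚ) / m) • L.ω₁ + ((b : ℚ) / m) • L.ω₂ := by
      rw [Rat.smul_def, Rat.smul_def]
      push_cast
      field_simp
      linear_combination -hab
    rw [h1]
    exact S.add_mem (S.smul_mem _ (Submodule.subset_span ⟨0, rfl⟩))
      (S.smul_mem _ (Submodule.subset_span ⟨1, rfl⟩))
  let f : kL L →ₗ[ℚ] S :=
    { toFun := fun c => ⟨(c : ℂ) * L.ω₁, hmem c c.2⟩
      map_add' := fun a b => Subtype.ext (add_mul _ _ _)
      map_smul' := fun q a => Subtype.ext (by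
        change ((q • a : kL L) : ℂ) * L.ω₁ = q • ((a : ℂ) * L.ω₁)
        rw [Rat.smul_def, Rat.smul_def]
        push_cast
        ring) }
  have hf : Function.Injective f := by
    intro a b hab
    have h1 : (a : ℂ) * L.ω₁ = b * L.ω₁ := congrArg Subtype.val hab
    exact Subtype.ext (mul_right_cancel₀ (ω₁_ne_zero L) h1)
  have : FiniteDimensional ℚ (kL L) := Module.Finite.of_injective f hf
  exact ⟨this, (LinearMap.finrank_le_finrank_of_injective hf).trans hS⟩

theorem finrank_restrict (V : Submodule (kL L) ℂ) [FiniteDimensional (kL L) V] :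
    FiniteDimensional ℚ (V.restrictScalars ℚ) ∧
      finrank ℚ (V.restrictScalars ℚ) ≤ 2 * finrank (kL L) V := by
  obtain ⟨h1, h2⟩ := finrank_kL L
  have h3 : Module.Finite ℚ V := Module.Finite.trans (kL L) V
  have h4 : finrank ℚ (kL L) * finrank (kL L) V = finrank ℚ V := Module.finrank_mul_finrank _ _ _
  have h5 : FiniteDimensional ℚ (V.restrictScalars ℚ) := h3
  refine ⟨h5, ?_⟩
  have h6 : finrank ℚ (V.restrictScalars ℚ) = finrank ℚ V := rfl
  rw [h6, ← h4]
  exact Nat.mul_le_mul_right _ h2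

end Pool.Agent.TH813.Ell
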