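import Mathlib
import Pool.Agent.TH813.Rel4
import Pool.Agent.TH813.Uni2

/-!
# The failures of the relative Schanuel inequality: all defects, uniform bounds
-/

set_option autoImplicit false

namespace Pool.Agent.TH813.Uni

open Pool.Agent.W252 Pool.Agent.W669.Gel Module Finset
open Pool.Agent.TH813.Core Pool.Agent.TH813.Rank Pool.Agent.TH813.Rel

variable (F : IntermediateField ℚ ℂ)

theorem trF_le_iff (S : Set ℂ) (m : ℕ) : trF F S ≤ m ↔ (MK F).eRk S ≤ m := by
  unfold trF
  rw [← toENat_trdeg, Cardinal.toENat_le_natCast]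

theorem tz_eq {n : ℕ} (z : Fin n → ℂ) :
    tz F z = ((finrank ℂ (LinearMap.range (evF F z)) : ℕ) : Cardinal) := by
  apply le_antisymm
  · unfold tz
    rw [trF_le_iff, rank_evF, ← Pool.Agent.H327R2.SC.EE_eq]
  · rw [le_tz_iff]

/-- The inequality fails by `m` at `z`. -/
def Def (L U : Submodule ℚ ℂ) (m : ℕ) {n : ℕ} (z : Fin n → ℂ) : Prop :=
  LinearIndependent ℚ (fun i => L.mkQ (z i)) ∧ (∀ i, z i ∈ U) ∧ tz F z + m ≤ n

theorem def_iff {L U : Submodule ℚ ℂ} {m n : ℕ} {z : Fin n → ℂ} :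
    Def F L U m z ↔ LinearIndependent ℚ (fun i => L.mkQ (z i)) ∧ (∀ i, z i ∈ U) ∧
      finrank ℂ (LinearMap.range (evF F z)) + m ≤ n := by
  unfold Def
  rw [tz_eq]
  norm_cast

variable {F}

/-- minimal failures are good -/
theorem good_of {L V U : Submodule ℚ ℂ} (hUV : U ≤ V) {m n : ℕ} {z : Fin (n + 1) → ℂ}
    (hz : Def F L U m z) (h2 : ∀ x : Fin n → ℂ, ¬ Def F L U m x) :
    GoodN F V (n + 1) (n + 1 - m) z := by
  classical
  obtain ⟨hli, hzU, hle⟩ := (def_iff F).1 hz
  have hcU : ∀ A : Matrix (Fin n) (Fin (n + 1)) ℚ, ∀ i, comb A z i ∈ U := by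
    intro A i
    refine U.sum_mem (fun j _ => ?_)
    rw [← Rat.smul_def]
    exact U.smul_mem _ (hzU j)
  have hge : ∀ A : Matrix (Fin n) (Fin (n + 1)) ℚ, LinearIndependent ℚ (fun i => A i) →
      n + 1 ≤ finrank ℂ (LinearMap.range (evF F (comb A z))) + m := by
    intro A hA
    by_contra hcon
    exact h2 _ ((def_iff F).2 ⟨comb_indepL hA hli, hcU A, by omega⟩)
  refine ⟨fun i => hUV (hzU i), ?_, ?_⟩
  · intro D hF q hD hq
    by_contra hne
    obtain ⟨A, hA, hA2⟩ := exists_ortho q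
    have h4 := hge A hA
    have h5 := rank_lossF F A z hF (by
      intro h0
      apply hne
      funext i
      have h6 := (cc_eq_zero.1 h0).2 i
      rw [hq i] at h6
      exact_mod_cast h6) (by
      funext k
      rcases k with i | i
      · change ∑ j, (A i j : ℂ) * D (z j) = 0
        exact sum_eq_zero (fun j _ => by rw [hD j, mul_zero])
      · change ∑ j, (A i j : ℂ) * dlog D (z j) = 0
        have h7 : ∑ j, (A i j : ℂ) * dlog D (z j) = ((∑ j, A i j * q j : ℚ) : ℂ) := by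
          push_cast
          exact sum_congr rfl (fun j _ => by rw [hq j])
        rw [h7, hA2 i, Rat.cast_zero])
    omega
  · obtain ⟨A, hA, -⟩ := exists_ortho (0 : Fin (n + 1) → ℚ)
    have h4 := hge A hA
    have h5 : finrank ℂ (LinearMap.range (evF F (comb A z))) ≤
        finrank ℂ (LinearMap.range (evF F z)) := by
      rw [← lm_evF, LinearMap.range_comp]
      exact Submodule.finrank_map_le _ _
    omega

variable (F)

/-- the subspaces -/
def TN (L V : Submodule ℚ ℂ) : Set (Submodule ℚ ℂ) :=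
  {W | ∃ (N n : ℕ) (z : Fin N → ℂ), n < N ∧ LinearIndependent ℚ (fun i => L.mkQ (z i)) ∧
    GoodN F V N n z ∧ W = UF F V z}

variable {F}

theorem encard_biUnion_le {ι α : Type*} (s : Finset ι) (f : ι → Set α) (B : ι → ℕ)
    (h : ∀ i ∈ s, (f i).encard ≤ B i) : (⋃ i ∈ s, f i).encard ≤ ((∑ i ∈ s, B i : ℕ) : ℕ∞) := by
  classical
  induction s using Finset.induction_on with
  | empty => simp
  | insert p s hp ih =>
    rw [Finset.set_biUnion_insert, Finset.sum_insert hp, Nat.cast_add]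
    exact (Set.encard_union_le _ _).trans (add_le_add (h p (Finset.mem_insert_self _ _))
      (ih (fun i hi => h i (Finset.mem_insert_of_mem hi))))

/-- the uniform bound -/
theorem bound_TN (r : ℕ) : ∃ B : ℕ, ∀ (F : IntermediateField ℚ ℂ) (L V : Submodule ℚ ℂ),
    FiniteDimensional ℚ V → finrank ℚ V ≤ r → (TN F L V).encard ≤ B := by
  classical
  choose B hB using fun (p : ℕ × ℕ × ℕ) => bound_UF p.1 p.2.1 p.2.2
  refine ⟨∑ p ∈ (range (r + 1)) ×ˢ (range (r + 1)) ×ˢ (range (r + 1)), B p,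
    fun F L V _ hV => ?_⟩
  have h1 : TN F L V ⊆ ⋃ p ∈ (range (r + 1)) ×ˢ (range (r + 1)) ×ˢ ({finrank ℚ V} : Finset ℕ),
      {U | ∃ z : Fin p.1 → ℂ, GoodN F V p.1 p.2.1 z ∧ U = UF F V z} := by
    rintro W ⟨N, n, z, hn, h0, hg, rfl⟩
    have h1 : LinearIndependent ℚ (fun i => (⟨z i, hg.mem i⟩ : V)) := by
      apply LinearIndependent.of_comp V.subtype
      exact LinearIndependent.of_comp L.mkQ h0
    have h2 := h1.fintype_card_le_finrank
    rw [Fintype.card_fin] at h2
    refine Set.mem_iUnion₂.2 ⟨(N, n, finrank ℚ V), ?_, z, hg, rfl⟩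
    rw [Finset.mem_product, Finset.mem_product, Finset.mem_range, Finset.mem_range,
      Finset.mem_singleton]
    exact ⟨by dsimp only; omega, by dsimp only; omega, rfl⟩
  refine (Set.encard_le_encard h1).trans ((encard_biUnion_le _ _ B ?_).trans ?_)
  · intro p hp
    rw [Finset.mem_product, Finset.mem_product, Finset.mem_singleton] at hp
    exact hB p F V inferInstance hp.2.2.symm
  · rw [Nat.cast_le]
    apply Finset.sum_le_sum_of_subset
    apply Finset.product_subset_product_right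
    apply Finset.product_subset_product_right
    intro x hx
    rw [Finset.mem_singleton] at hx
    rw [Finset.mem_range]
    omega

/-- the space spanned by a failure -/
theorem span_props {L V : Submodule ℚ ℂ} {N n : ℕ} {z : Fin N → ℂ}
    (hz : LinearIndependent ℚ (fun i => L.mkQ (z i))) (hg : GoodN F V N n z) :
    Submodule.span ℚ (Set.range z) ⊓ L = ⊥ ∧ finrank ℚ (Submodule.span ℚ (Set.range z)) = N ∧
      trF F ((Submodule.span ℚ (Set.range z) : Set ℂ) ∪ Complex.exp '' (UF F V z : Set ℂ)) ≤ n ∧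
      Submodule.span ℚ (Set.range z) ≤ UF F V z ∧
      ∀ x ∈ V, IsAlgebraic (IntermediateField.adjoin F ((Submodule.span ℚ (Set.range z) : Set ℂ) ∪
        Complex.exp '' (UF F V z : Set ℂ))) (Complex.exp x) → x ∈ UF F V z := by
  have h0 : LinearIndependent ℚ z := LinearIndependent.of_comp L.mkQ hz
  have hcl : ((Submodule.span ℚ (Set.range z) : Set ℂ) ∪ Complex.exp '' (UF F V z : Set ℂ)) ⊆
      (KF F z : Set ℂ) := by
    rintro x (hx | ⟨w, hw, rfl⟩)
    · intro D hF hD
      have h2 : Submodule.span ℚ (Set.range z) ≤ LinearMap.ker (D : ℂ →ₗ[ℚ] ℂ) := by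
        rw [Submodule.span_le]
        rintro _ ⟨i, rfl⟩
        exact (cc_eq_zero.1 hD).1 i
      exact h2 hx
    · exact fun D hF hD => dlog_eq_zero.1 (hw.2 D hF hD)
  refine ⟨?_, ?_, ?_, ?_, ?_⟩
  · rw [eq_bot_iff]
    rintro x ⟨hx, hxL⟩
    obtain ⟨c, rfl⟩ := (Submodule.mem_span_range_iff_exists_fun ℚ).1 hx
    have h1 : ∑ i, c i • L.mkQ (z i) = 0 := by
      have h2 : L.mkQ (∑ i, c i • z i) = 0 := by
        rw [Submodule.mkQ_apply, Submodule.Quotient.mk_eq_zero]
        exact hxL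
      rw [map_sum] at h2
      simpa only [map_smul] using h2
    have h3 := Fintype.linearIndependent_iff.1 hz c h1
    simp only [h3, zero_smul, sum_const_zero]
    exact Submodule.zero_mem _
  · rw [finrank_span_eq_card h0, Fintype.card_fin]
  · rw [trF_le_iff]
    refine le_trans (rk_le_of_subset_cl (hcl.trans (subset_cl (k := F) _))) ?_
    refine (rk_KF F z).trans ?_
    rw [hg.hr]
  · rw [Submodule.span_le]
    rintro _ ⟨i, rfl⟩
    exact ⟨hg.mem i, fun D _ hD => (cc_eq_zero.1 hD).2 i⟩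
  · intro x hx hal
    refine ⟨hx, fun D hF hD => dlog_eq_zero.2 ?_⟩
    refine kills_clF F hF (S := ((Submodule.span ℚ (Set.range z) : Set ℂ) ∪
        Complex.exp '' (UF F V z : Set ℂ))) (fun s hs => hcl hs D hF hD) ?_
    rw [mem_cl, ← IntermediateField.isAlgebraic_adjoin_iff]
    exact hal

/-- **Main theorem**: the failures of the relative Schanuel inequality, with their defects, are
governed by boundedly many subspaces. -/
theorem main (r : ℕ) : ∃ B : ℕ, ∀ (F : IntermediateField ℚ ℂ) (L V : Submodule ℚ ℂ),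
    FiniteDimensional ℚ V → finrank ℚ V ≤ r →
    ∃ T : Finset (Submodule ℚ ℂ), T.card ≤ B ∧
      (∀ W ∈ T, W ≤ V ∧ ∃ X ≤ W, X ⊓ L = ⊥ ∧
        trF F ((X : Set ℂ) ∪ Complex.exp '' (W : Set ℂ)) < finrank ℚ X ∧
        ∀ x ∈ V, IsAlgebraic (IntermediateField.adjoin F ((X : Set ℂ) ∪
          Complex.exp '' (W : Set ℂ))) (Complex.exp x) → x ∈ W) ∧
      ∀ U : Submodule ℚ ℂ, U ≤ V → ∀ m : ℕ, 0 < m →
        ((∃ (n : ℕ) (z : Fin n → ℂ), Def F L U m z) ↔
          ∃ W ∈ T, ∃ X ≤ U ⊓ W, X ⊓ L = ⊥ ∧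
            trF F ((X : Set ℂ) ∪ Complex.exp '' (W : Set ℂ)) + m ≤ finrank ℚ X) := by
  classical
  obtain ⟨B, hB⟩ := bound_TN r
  refine ⟨B, fun F L V _ hV => ?_⟩
  have hcard := hB F L V inferInstance hV
  have hfin : (TN F L V).Finite := by
    rw [← Set.encard_lt_top_iff]
    exact lt_of_le_of_lt hcard (ENat.natCast_lt_top B)
  set T := hfin.toFinset with hTdef
  have hTm : ∀ W, W ∈ T ↔ W ∈ TN F L V := fun W => by rw [hTdef, Set.Finite.mem_toFinset]
  refine ⟨T, ?_, fun W hW => ?_, fun U hUV m hm => ⟨?_, ?_⟩⟩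
  · have h1 : (T : Set (Submodule ℚ ℂ)).encard ≤ B := by
      rw [hTdef, Set.Finite.coe_toFinset]
      exact hcard
    rw [Set.encard_coe_eq_coe_finsetCard] at h1
    exact_mod_cast h1
  · obtain ⟨N, n, z, hn, hz, hg, rfl⟩ := (hTm W).1 hW
    obtain ⟨h1, h2, h3, h4, h5⟩ := span_props hz hg
    refine ⟨fun x hx => hx.1, _, h4, h1, ?_, h5⟩
    rw [h2]
    exact lt_of_le_of_lt h3 (by exact_mod_cast hn)
  · intro hfail
    have hP : ∃ n, ∃ z : Fin n → ℂ, Def F L U m z := hfail
    obtain ⟨n, hn⟩ : ∃ n, Nat.find hP = n + 1 := by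
      apply Nat.exists_eq_succ_of_ne_zero
      intro h0
      have h1 : ∃ z : Fin 0 → ℂ, Def F L U m z := by rw [← h0]; exact Nat.find_spec hP
      obtain ⟨z, hz⟩ := h1
      have h2 := ((def_iff F).1 hz).2.2
      omega
    have hspec := Nat.find_spec hP
    rw [hn] at hspec
    obtain ⟨z, hz⟩ := hspec
    have hg := good_of hUV hz (by
      intro x hx
      have h6 := Nat.find_min' hP ⟨x, hx⟩
      omega)
    have hle := ((def_iff F).1 hz).2.2
    obtain ⟨h1, h2, h3, h4, -⟩ := span_props hz.1 hg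
    refine ⟨UF F V z, (hTm _).2 ⟨n + 1, n + 1 - m, z, by omega, hz.1, hg, rfl⟩,
      Submodule.span ℚ (Set.range z), le_inf ?_ h4, h1, ?_⟩
    · rw [Submodule.span_le]
      rintro _ ⟨i, rfl⟩
      exact hz.2.1 i
    · rw [h2]
      refine (add_le_add_left h3 _).trans ?_
      norm_cast
      omega
  · rintro ⟨W, hW, X, hX, hL, h⟩
    have : FiniteDimensional ℚ X :=
      Submodule.finiteDimensional_of_le (hX.trans (inf_le_left.trans hUV))
    let b := finBasis ℚ X
    refine ⟨finrank ℚ X, fun i => (b i : ℂ), ?_, fun i => (hX (b i).2).1, ?_⟩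
    · have h1 : LinearMap.ker (L.mkQ ∘ₗ X.subtype) = ⊥ := by
        rw [eq_bot_iff]
        intro x hx
        rw [LinearMap.mem_ker, LinearMap.comp_apply, Submodule.mkQ_apply,
          Submodule.Quotient.mk_eq_zero] at hx
        have h2 : (x : ℂ) ∈ X ⊓ L := ⟨x.2, hx⟩
        rw [hL, Submodule.mem_bot] at h2
        rw [Submodule.mem_bot]
        exact Subtype.ext h2
      exact b.linearIndependent.map' _ h1
    · refine le_trans (add_le_add_left ?_ _) h
      obtain ⟨t, ht⟩ : ∃ t : ℕ, trF F ((X : Set ℂ) ∪ Complex.exp '' (W : Set ℂ)) = t := by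
        apply Cardinal.lt_aleph0.1
        exact lt_of_le_of_lt (le_self_add.trans h) (Cardinal.natCast_lt_aleph0)
      have h3 := (trF_le_iff F _ t).1 ht.le
      rw [ht]
      unfold tz
      rw [trF_le_iff]
      refine le_trans ((MK F).eRk_mono ?_) h3
      rintro x (⟨i, rfl⟩ | ⟨_, ⟨i, rfl⟩, rfl⟩)
      · exact Or.inl (b i).2
      · exact Or.inr ⟨_, (hX (b i).2).2, rfl⟩

end Pool.Agent.TH813.Uni
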