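import Mathlib
import Pool.Agent.TH813.Uni3
import Pool.Agent.TH813.EllUni

/-!
# Exponentials and elliptic functions: all failures in rational spaces
-/

set_option autoImplicit false

open Finset Module
open scoped PeriodPair

noncomputable section

namespace Pool.Agent.TH813.Ell

open H667R3 Pool.Agent.W245.EB
open Pool.Agent.W252 Pool.Agent.W669.Gel
open Pool.Agent.TH813.Core Pool.Agent.TH813.Rank
open Pool.Agent.TH813.Rel (DF MK mem_cl subset_cl kills_clF rk_le_of_subset_cl trF comb_indepL)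
open Pool.Agent.TH813.Uni (trF_le_iff encard_biUnion_le)

variable {L : PeriodPair} {F : IntermediateField ℚ ℂ} {s n : ℕ}

theorem trF_EM (h2 : L.g₂ ∈ F) (h3 : L.g₃ ∈ F) (t : Fin s → ℂ) (p : Fin n → ℂ) :
    trF F (EM L t p) = ((finrank ℂ (LinearMap.range (evM L F t p)) : ℕ) : Cardinal) := by
  apply le_antisymm
  · rw [trF_le_iff, rank_evM h2 h3]
  · unfold trF
    rw [Pool.Agent.TH813.Rel.le_iff, ← rank_evM h2 h3]

variable (L F) in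
/-- The inequality fails by `m` at a point. -/
def DefM (A₁ A₂ U₁ U₂ : Submodule ℚ ℂ) (m : ℕ) (t : Fin s → ℂ) (p : Fin n → ℂ) : Prop :=
  LinearIndependent ℚ (fun i => A₁.mkQ (t i)) ∧ LinearIndependent ℚ (fun i => A₂.mkQ (p i)) ∧
    (∀ i, t i ∈ U₁) ∧ (∀ i, p i ∈ U₂) ∧ trF F (EM L t p) + m ≤ ((s + 2 * n : ℕ) : Cardinal)

theorem defM_iff (h2 : L.g₂ ∈ F) (h3 : L.g₃ ∈ F) {A₁ A₂ U₁ U₂ : Submodule ℚ ℂ} {m : ℕ}
    {t : Fin s → ℂ} {p : Fin n → ℂ} :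
    DefM L F A₁ A₂ U₁ U₂ m t p ↔ LinearIndependent ℚ (fun i => A₁.mkQ (t i)) ∧
      LinearIndependent ℚ (fun i => A₂.mkQ (p i)) ∧ (∀ i, t i ∈ U₁) ∧ (∀ i, p i ∈ U₂) ∧
      finrank ℂ (LinearMap.range (evM L F t p)) + m ≤ s + 2 * n := by
  unfold DefM
  rw [trF_EM h2 h3]
  norm_cast

theorem comb_mem {U : Submodule ℚ ℂ} {z : Fin n → ℂ} (hz : ∀ i, z i ∈ U) {m : ℕ}
    (A : Matrix (Fin m) (Fin n) ℚ) (i : Fin m) : comb A z i ∈ U := by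
  refine U.sum_mem (fun j _ => ?_)
  rw [← Rat.smul_def]
  exact U.smul_mem _ (hz j)

/-- minimal failures are good -/
theorem good_of (hcm : NoCM L) (h2 : L.g₂ ∈ F) (h3 : L.g₃ ∈ F)
    {A₁ A₂ V₁ V₂ U₁ U₂ : Submodule ℚ ℂ} (hUV₁ : U₁ ≤ V₁) (hUV₂ : U₂ ≤ V₂) {m : ℕ} {t : Fin s → ℂ}
    {p : Fin n → ℂ} (hz : DefM L F A₁ A₂ U₁ U₂ m t p)
    (hmin : ∀ (s' n' : ℕ) (t' : Fin s' → ℂ) (p' : Fin n' → ℂ), s' + 2 * n' < s + 2 * n →
      ¬ DefM L F A₁ A₂ U₁ U₂ m t' p') :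
    GoodM L F V₁ V₂ (finrank ℂ (LinearMap.range (evM L F t p))) t p := by
  classical
  obtain ⟨hli₁, hli₂, ht, hp, hle⟩ := (defM_iff h2 h3).1 hz
  refine ⟨fun i => hUV₁ (ht i), fun i => hUV₂ (hp i), ?_, rfl⟩
  intro u₁ u₂ w₁ w₂ v₁ w₁' v₂ w₂'
  refine coreM hcm h2 h3 ?_ ?_
  · intro D hF q hD
    rcases s with _ | s
    · exact Subsingleton.elim _ _
    by_contra hne
    obtain ⟨A, hA, hA2⟩ := exists_ortho q
    have h4 := loss_one h2 h3 hF hne hD hA2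
    refine hmin s n (comb A t) p (by omega) ((defM_iff h2 h3).2
      ⟨comb_indepL hA hli₁, hli₂, comb_mem ht A, hp, by omega⟩)
  · intro D hF D' hF' q hD hD'
    rcases n with _ | n
    · exact Subsingleton.elim _ _
    by_contra hne
    obtain ⟨A, hA, hA2⟩ := exists_ortho q
    have h4 := loss_two h2 h3 hF hF' hne hD hD' hA2
    refine hmin s n t (comb A p) (by omega) ((defM_iff h2 h3).2
      ⟨hli₁, comb_indepL hA hli₂, ht, comb_mem hp A, by omega⟩)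

variable (L F) in
/-- the pairs of subspaces -/
def TM (h2 : L.g₂ ∈ F) (h3 : L.g₃ ∈ F) (A₁ A₂ V₁ V₂ : Submodule ℚ ℂ) :
    Set (Submodule ℚ ℂ × Submodule ℚ ℂ) :=
  {W | ∃ (s n ρ : ℕ) (t : Fin s → ℂ) (p : Fin n → ℂ), ρ < s + 2 * n ∧
    LinearIndependent ℚ (fun i => A₁.mkQ (t i)) ∧ LinearIndependent ℚ (fun i => A₂.mkQ (p i)) ∧
    GoodM L F V₁ V₂ ρ t p ∧ W = (UM₁ L F V₁ t p, UM₂ L F V₂ h2 h3 t p)}

theorem card_le_of_indep {A V : Submodule ℚ ℂ} [FiniteDimensional ℚ V] {z : Fin n → ℂ}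
    (hz : LinearIndependent ℚ (fun i => A.mkQ (z i))) (h : ∀ i, z i ∈ V) : n ≤ finrank ℚ V := by
  have h1 : LinearIndependent ℚ (fun i => (⟨z i, h i⟩ : V)) := by
    apply LinearIndependent.of_comp V.subtype
    exact LinearIndependent.of_comp A.mkQ hz
  have h2 := h1.fintype_card_le_finrank
  rwa [Fintype.card_fin] at h2

/-- the uniform bound -/
theorem bound_TM (r : ℕ) : ∃ B : ℕ, ∀ (L : PeriodPair) (F : IntermediateField ℚ ℂ)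
    (h2 : L.g₂ ∈ F) (h3 : L.g₃ ∈ F) (A₁ A₂ V₁ V₂ : Submodule ℚ ℂ), FiniteDimensional ℚ V₁ →
    FiniteDimensional ℚ V₂ → finrank ℚ V₁ ≤ r → finrank ℚ V₂ ≤ r →
    (TM L F h2 h3 A₁ A₂ V₁ V₂).encard ≤ B := by
  classical
  choose B hB using fun (q : ℕ × ℕ × ℕ × ℕ × ℕ) =>
    bound_UM q.1 q.2.1 q.2.2.1 q.2.2.2.1 q.2.2.2.2
  refine ⟨∑ q ∈ (range (r + 1)) ×ˢ (range (r + 1)) ×ˢ (range (3 * r + 1)) ×ˢ (range (r + 1)) ×ˢ
    (range (r + 1)), B q, fun L F h2 h3 A₁ A₂ V₁ V₂ _ _ hV₁ hV₂ => ?_⟩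
  have h1 : TM L F h2 h3 A₁ A₂ V₁ V₂ ⊆ ⋃ q ∈ (range (r + 1)) ×ˢ (range (r + 1)) ×ˢ
      (range (3 * r + 1)) ×ˢ ({finrank ℚ V₁} : Finset ℕ) ×ˢ ({finrank ℚ V₂} : Finset ℕ),
      {U : Submodule ℚ ℂ × Submodule ℚ ℂ | ∃ (t : Fin q.1 → ℂ) (p : Fin q.2.1 → ℂ),
        GoodM L F V₁ V₂ q.2.2.1 t p ∧ U = (UM₁ L F V₁ t p, UM₂ L F V₂ h2 h3 t p)} := by
    rintro W ⟨s, n, ρ, t, p, hρ, hli₁, hli₂, hg, rfl⟩
    have e1 := card_le_of_indep hli₁ hg.mem₁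
    have e2 := card_le_of_indep hli₂ hg.mem₂
    refine Set.mem_iUnion₂.2 ⟨(s, n, ρ, finrank ℚ V₁, finrank ℚ V₂), ?_, t, p, hg, rfl⟩
    simp only [Finset.mem_product, Finset.mem_range, Finset.mem_singleton]
    refine ⟨?_, ?_, ?_, trivial, trivial⟩ <;> omega
  refine (Set.encard_le_encard h1).trans ((encard_biUnion_le _ _ B ?_).trans ?_)
  · intro q hq
    simp only [Finset.mem_product, Finset.mem_singleton] at hq
    exact hB q L F h2 h3 V₁ V₂ inferInstance inferInstance hq.2.2.2.1.symm hq.2.2.2.2.symm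
  · rw [Nat.cast_le]
    apply Finset.sum_le_sum_of_subset
    intro q hq
    simp only [Finset.mem_product, Finset.mem_range, Finset.mem_singleton] at hq ⊢
    refine ⟨hq.1, hq.2.1, hq.2.2.1, ?_, ?_⟩ <;> omega

theorem inf_bot_of_indep {A : Submodule ℚ ℂ} {z : Fin n → ℂ}
    (hz : LinearIndependent ℚ (fun i => A.mkQ (z i))) :
    Submodule.span ℚ (Set.range z) ⊓ A = ⊥ := by
  rw [eq_bot_iff]
  rintro x ⟨hx, hxL⟩
  obtain ⟨c, rfl⟩ := (Submodule.mem_span_range_iff_exists_fun ℚ).1 hx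
  have h1 : ∑ i, c i • A.mkQ (z i) = 0 := by
    have h2 : A.mkQ (∑ i, c i • z i) = 0 := by
      rw [Submodule.mkQ_apply, Submodule.Quotient.mk_eq_zero]
      exact hxL
    rw [map_sum] at h2
    simpa only [map_smul] using h2
  have h3 := Fintype.linearIndependent_iff.1 hz c h1
  simp only [h3, zero_smul, sum_const_zero]
  exact Submodule.zero_mem _

/-- the numbers attached to a pair of spaces -/
abbrev SS (L : PeriodPair) (X₁ W₁ X₂ W₂ : Submodule ℚ ℂ) : Set ℂ :=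
  SM L (X₁ : Set ℂ) (W₁ : Set ℂ) (X₂ : Set ℂ) (W₂ : Set ℂ)

theorem SS_sub (h2 : L.g₂ ∈ F) (h3 : L.g₃ ∈ F) {V₁ V₂ : Submodule ℚ ℂ} (t : Fin s → ℂ)
    (p : Fin n → ℂ) : SS L (Submodule.span ℚ (Set.range t)) (UM₁ L F V₁ t p)
      (Submodule.span ℚ (Set.range p)) (UM₂ L F V₂ h2 h3 t p) ⊆ (KM L F t p : Set ℂ) := by
  rintro x ((hx | ⟨w, hw, rfl⟩) | (hx | (⟨w, hw, rfl⟩ | ⟨w, ⟨hw, hwl⟩, rfl⟩))) D hF hD
  · have h4 : Submodule.span ℚ (Set.range t) ≤ LinearMap.ker (D : ℂ →ₗ[ℚ] ℂ) := by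
      rw [Submodule.span_le]
      rintro _ ⟨i, rfl⟩
      exact (cc_eq_zero.1 (cm_eq_zero.1 hD).1).1 i
    exact h4 hx
  · exact dlog_eq_zero.1 (hw.2 D hF hD)
  · have h4 : Submodule.span ℚ (Set.range p) ≤ LinearMap.ker (D : ℂ →ₗ[ℚ] ℂ) := by
      rw [Submodule.span_le]
      rintro _ ⟨i, rfl⟩
      exact ((cm_eq_zero.1 hD).2 i).1
    exact h4 hx
  · have h4 : Submodule.span ℚ (Set.range p) ≤
        LinearMap.ker (omL L D (hF _ h2) (hF _ h3)) ⊓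
          LinearMap.ker (etL L D (hF _ h2) (hF _ h3)) := by
      rw [Submodule.span_le]
      rintro _ ⟨i, rfl⟩
      exact ⟨((cm_eq_zero.1 hD).2 i).2.1, ((cm_eq_zero.1 hD).2 i).2.2⟩
    obtain ⟨h5, h6⟩ := h4 hw
    exact zt_killed h5 h6
  · exact (wp_killed (hF _ h2) (hF _ h3) (hw.2 D hF hD) hwl).1

theorem kills_alg {S : Set ℂ} {D : Derivation ℚ ℂ ℂ} (hF : D ∈ DF F) (h : ∀ y ∈ S, D y = 0)
    {x : ℂ} (hx : IsAlgebraic (IntermediateField.adjoin F S) x) : D x = 0 := by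
  refine kills_clF F hF h ?_
  rw [mem_cl, ← IntermediateField.isAlgebraic_adjoin_iff]
  exact hx

/-- the spaces spanned by a failure -/
theorem span_propsM (h2 : L.g₂ ∈ F) (h3 : L.g₃ ∈ F) {A₁ A₂ V₁ V₂ : Submodule ℚ ℂ} {ρ : ℕ}
    {t : Fin s → ℂ} {p : Fin n → ℂ} (hli₁ : LinearIndependent ℚ (fun i => A₁.mkQ (t i)))
    (hli₂ : LinearIndependent ℚ (fun i => A₂.mkQ (p i))) (hg : GoodM L F V₁ V₂ ρ t p) :
    ∃ X₁ X₂ : Submodule ℚ ℂ, X₁ = Submodule.span ℚ (Set.range t) ∧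
      X₂ = Submodule.span ℚ (Set.range p) ∧
      X₁ ≤ UM₁ L F V₁ t p ∧ X₂ ≤ UM₂ L F V₂ h2 h3 t p ∧ X₁ ⊓ A₁ = ⊥ ∧ X₂ ⊓ A₂ = ⊥ ∧
      finrank ℚ X₁ = s ∧ finrank ℚ X₂ = n ∧
      trF F (SS L X₁ (UM₁ L F V₁ t p) X₂ (UM₂ L F V₂ h2 h3 t p)) ≤ ρ ∧
      (∀ x ∈ V₁, IsAlgebraic (IntermediateField.adjoin F (SS L X₁ (UM₁ L F V₁ t p) X₂
        (UM₂ L F V₂ h2 h3 t p))) (Complex.exp x) → x ∈ UM₁ L F V₁ t p) ∧
      ∀ x ∈ V₂, (x ∉ L.lattice → IsAlgebraic (IntermediateField.adjoin F (SS L X₁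
        (UM₁ L F V₁ t p) X₂ (UM₂ L F V₂ h2 h3 t p))) (℘[L] x)) → x ∈ UM₂ L F V₂ h2 h3 t p := by
  have hcl := SS_sub h2 h3 (V₁ := V₁) (V₂ := V₂) t p
  refine ⟨_, _, rfl, rfl, ?_, ?_, inf_bot_of_indep hli₁, inf_bot_of_indep hli₂, ?_, ?_, ?_, ?_,
    ?_⟩
  · rw [Submodule.span_le]
    rintro _ ⟨i, rfl⟩
    exact ⟨hg.mem₁ i, fun D _ hD => (cc_eq_zero.1 (cm_eq_zero.1 hD).1).2 i⟩
  · rw [Submodule.span_le]
    rintro _ ⟨i, rfl⟩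
    exact ⟨hg.mem₂ i, fun D _ hD => ((cm_eq_zero.1 hD).2 i).2.1⟩
  · rw [finrank_span_eq_card (LinearIndependent.of_comp A₁.mkQ hli₁), Fintype.card_fin]
  · rw [finrank_span_eq_card (LinearIndependent.of_comp A₂.mkQ hli₂), Fintype.card_fin]
  · rw [trF_le_iff]
    refine le_trans ((MK F).eRk_mono hcl) ?_
    rw [rk_KM h2 h3, hg.hr]
  · intro x hx hal
    exact ⟨hx, fun D hF hD => dlog_eq_zero.2
      (kills_alg hF (fun y hy => hcl hy D hF hD) hal)⟩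
  · intro x hx hal
    refine ⟨hx, fun D hF hD => ?_⟩
    by_cases hxl : x ∈ L.lattice
    · exact om_of_mem L D hxl
    · unfold om
      rw [kills_alg hF (fun y hy => hcl hy D hF hD) (hal hxl), zero_div]

theorem indep_of_inf_bot {A X : Submodule ℚ ℂ} (hX : X ⊓ A = ⊥) {ι : Type*} (b : Basis ι ℚ X) :
    LinearIndependent ℚ (fun i => A.mkQ ((b i : X) : ℂ)) := by
  have h1 : LinearMap.ker (A.mkQ ∘ₗ X.subtype) = ⊥ := by
    rw [eq_bot_iff]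
    intro x hx
    rw [LinearMap.mem_ker, LinearMap.comp_apply, Submodule.mkQ_apply,
      Submodule.Quotient.mk_eq_zero] at hx
    have h2 : (x : ℂ) ∈ X ⊓ A := ⟨x.2, hx⟩
    rw [hX, Submodule.mem_bot] at h2
    rw [Submodule.mem_bot]
    exact Subtype.ext h2
  exact b.linearIndependent.map' _ h1

theorem trF_mono_add {S S' : Set ℂ} (h : S ⊆ S') {m k : ℕ}
    (hk : trF F S' + m ≤ (k : Cardinal)) : trF F S + m ≤ (k : Cardinal) := by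
  refine le_trans (add_le_add_left ?_ _) hk
  obtain ⟨t, ht⟩ : ∃ t : ℕ, trF F S' = t := by
    apply Cardinal.lt_aleph0.1
    exact lt_of_le_of_lt (le_self_add.trans hk) (Cardinal.natCast_lt_aleph0)
  rw [ht, trF_le_iff]
  exact le_trans ((MK F).eRk_mono h) ((trF_le_iff F S' t).1 ht.le)

/-- **Main theorem**: the failures of the relative inequality for exponentials and elliptic
functions, with their defects, are governed by boundedly many pairs of subspaces. -/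
theorem mainM (r : ℕ) : ∃ B : ℕ, ∀ (L : PeriodPair), NoCM L → ∀ (F : IntermediateField ℚ ℂ),
    L.g₂ ∈ F → L.g₃ ∈ F → ∀ (A₁ A₂ V₁ V₂ : Submodule ℚ ℂ),
    FiniteDimensional ℚ V₁ → FiniteDimensional ℚ V₂ → finrank ℚ V₁ ≤ r → finrank ℚ V₂ ≤ r →
    ∃ T : Finset (Submodule ℚ ℂ × Submodule ℚ ℂ), T.card ≤ B ∧
      (∀ W ∈ T, W.1 ≤ V₁ ∧ W.2 ≤ V₂ ∧ ∃ X₁ ≤ W.1, ∃ X₂ ≤ W.2, X₁ ⊓ A₁ = ⊥ ∧ X₂ ⊓ A₂ = ⊥ ∧
        trF F (SS L X₁ W.1 X₂ W.2) < ((finrank ℚ X₁ + 2 * finrank ℚ X₂ : ℕ) : Cardinal) ∧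
        (∀ x ∈ V₁, IsAlgebraic (IntermediateField.adjoin F (SS L X₁ W.1 X₂ W.2))
          (Complex.exp x) → x ∈ W.1) ∧
        ∀ x ∈ V₂, (x ∉ L.lattice → IsAlgebraic (IntermediateField.adjoin F
          (SS L X₁ W.1 X₂ W.2)) (℘[L] x)) → x ∈ W.2) ∧
      ∀ U₁ ≤ V₁, ∀ U₂ ≤ V₂, ∀ m : ℕ, 0 < m →
        ((∃ (s n : ℕ) (t : Fin s → ℂ) (p : Fin n → ℂ), DefM L F A₁ A₂ U₁ U₂ m t p) ↔
          ∃ W ∈ T, ∃ X₁ ≤ U₁ ⊓ W.1, ∃ X₂ ≤ U₂ ⊓ W.2, X₁ ⊓ A₁ = ⊥ ∧ X₂ ⊓ A₂ = ⊥ ∧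
            trF F (SS L X₁ W.1 X₂ W.2) + m ≤
              ((finrank ℚ X₁ + 2 * finrank ℚ X₂ : ℕ) : Cardinal)) := by
  classical
  obtain ⟨B, hB⟩ := bound_TM r
  refine ⟨B, fun L hcm F h2 h3 A₁ A₂ V₁ V₂ _ _ hV₁ hV₂ => ?_⟩
  have hcard := hB L F h2 h3 A₁ A₂ V₁ V₂ inferInstance inferInstance hV₁ hV₂
  have hfin : (TM L F h2 h3 A₁ A₂ V₁ V₂).Finite := by
    rw [← Set.encard_lt_top_iff]
    exact lt_of_le_of_lt hcard (ENat.natCast_lt_top B)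
  set T := hfin.toFinset with hTdef
  have hTm : ∀ W, W ∈ T ↔ W ∈ TM L F h2 h3 A₁ A₂ V₁ V₂ := fun W => by
    rw [hTdef, Set.Finite.mem_toFinset]
  refine ⟨T, ?_, fun W hW => ?_, fun U₁ hU₁ U₂ hU₂ m hm => ⟨?_, ?_⟩⟩
  · have h1 : (T : Set (Submodule ℚ ℂ × Submodule ℚ ℂ)).encard ≤ B := by
      rw [hTdef, Set.Finite.coe_toFinset]
      exact hcard
    rw [Set.encard_coe_eq_coe_finsetCard] at h1
    exact_mod_cast h1
  · obtain ⟨s, n, ρ, t, p, hρ, hli₁, hli₂, hg, rfl⟩ := (hTm W).1 hW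
    obtain ⟨X₁, X₂, -, -, hX₁, hX₂, hA₁, hA₂, hd₁, hd₂, htr, hs₁, hs₂⟩ :=
      span_propsM h2 h3 hli₁ hli₂ hg
    refine ⟨fun x hx => hx.1, fun x hx => hx.1, X₁, hX₁, X₂, hX₂, hA₁, hA₂, ?_, hs₁, hs₂⟩
    rw [hd₁, hd₂]
    exact lt_of_le_of_lt htr (by exact_mod_cast hρ)
  · intro hfail
    have hP : ∃ k : ℕ, ∃ (s n : ℕ) (t : Fin s → ℂ) (p : Fin n → ℂ), s + 2 * n = k ∧
        DefM L F A₁ A₂ U₁ U₂ m t p := by
      obtain ⟨s, n, t, p, h⟩ := hfail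
      exact ⟨_, s, n, t, p, rfl, h⟩
    obtain ⟨s, n, t, p, hk, hz⟩ := Nat.find_spec hP
    have hg := good_of hcm h2 h3 hU₁ hU₂ hz (by
      intro s' n' t' p' hlt hx
      have h6 := Nat.find_min' hP ⟨s', n', t', p', rfl, hx⟩
      omega)
    obtain ⟨hli₁, hli₂, ht, hp, hle⟩ := (defM_iff h2 h3).1 hz
    obtain ⟨X₁, X₂, hX₁e, hX₂e, hX₁, hX₂, hA₁, hA₂, hd₁, hd₂, htr, -, -⟩ :=
      span_propsM h2 h3 hli₁ hli₂ hg
    refine ⟨(UM₁ L F V₁ t p, UM₂ L F V₂ h2 h3 t p),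
      (hTm _).2 ⟨s, n, _, t, p, by omega, hli₁, hli₂, hg, rfl⟩, X₁, le_inf ?_ hX₁, X₂,
      le_inf ?_ hX₂, hA₁, hA₂, ?_⟩
    · rw [hX₁e, Submodule.span_le]
      rintro _ ⟨i, rfl⟩
      exact ht i
    · rw [hX₂e, Submodule.span_le]
      rintro _ ⟨i, rfl⟩
      exact hp i
    · rw [hd₁, hd₂]
      refine (add_le_add_left htr _).trans ?_
      exact_mod_cast hle
  · rintro ⟨W, hW, X₁, hX₁, X₂, hX₂, hA₁, hA₂, h⟩
    have : FiniteDimensional ℚ X₁ :=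
      Submodule.finiteDimensional_of_le (hX₁.trans (inf_le_left.trans hU₁))
    have : FiniteDimensional ℚ X₂ :=
      Submodule.finiteDimensional_of_le (hX₂.trans (inf_le_left.trans hU₂))
    let b₁ := finBasis ℚ X₁
    let b₂ := finBasis ℚ X₂
    refine ⟨finrank ℚ X₁, finrank ℚ X₂, fun i => (b₁ i : ℂ), fun i => (b₂ i : ℂ),
      indep_of_inf_bot hA₁ b₁, indep_of_inf_bot hA₂ b₂, fun i => (hX₁ (b₁ i).2).1,
      fun i => (hX₂ (b₂ i).2).1, trF_mono_add (SM_mono ?_ ?_ ?_ ?_) h⟩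
    · rintro _ ⟨i, rfl⟩
      exact (b₁ i).2
    · rintro _ ⟨i, rfl⟩
      exact (hX₁ (b₁ i).2).2
    · rintro _ ⟨i, rfl⟩
      exact (b₂ i).2
    · rintro _ ⟨i, rfl⟩
      exact (hX₂ (b₂ i).2).2

end Pool.Agent.TH813.Ell
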