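import Mathlib
import Pool.Agent.TH813.EllMain
import Pool.Agent.TH813.EKRank

/-!
# Exponentials and elliptic functions: all failures, for all lattices
-/

set_option autoImplicit false

open Finset Module
open scoped PeriodPair ComplexConjugate

noncomputable section

namespace Pool.Agent.TH813.Ell

open H667R3 Pool.Agent.W245.EB
open Pool.Agent.W252 Pool.Agent.W669.Gel
open Pool.Agent.TH813.Core Pool.Agent.TH813.Rank
open Pool.Agent.TH813.Rel (DF MK mem_cl subset_cl kills_clF rk_le_of_subset_cl trF comb_indepL)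
open Pool.Agent.TH813.Uni (trF_le_iff encard_biUnion_le)

variable {L : PeriodPair} {κ : ℂ} {F : IntermediateField ℚ ℂ} {s n : ℕ}

variable (L F) in
/-- The inequality fails by `m` at a point. -/
def DefK (A₁ U₁ : Submodule ℚ ℂ) (A₂ U₂ : Submodule (kL L) ℂ) (m : ℕ) (t : Fin s → ℂ)
    (p : Fin n → ℂ) : Prop :=
  LinearIndependent ℚ (fun i => A₁.mkQ (t i)) ∧
    LinearIndependent (kL L) (fun i => A₂.mkQ (p i)) ∧
    (∀ i, t i ∈ U₁) ∧ (∀ i, p i ∈ U₂) ∧ trF F (EM L t p) + m ≤ ((s + 2 * n : ℕ) : Cardinal)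

theorem defK_iff (h2 : L.g₂ ∈ F) (h3 : L.g₃ ∈ F) {A₁ U₁ : Submodule ℚ ℂ}
    {A₂ U₂ : Submodule (kL L) ℂ} {m : ℕ} {t : Fin s → ℂ} {p : Fin n → ℂ} :
    DefK L F A₁ U₁ A₂ U₂ m t p ↔ LinearIndependent ℚ (fun i => A₁.mkQ (t i)) ∧
      LinearIndependent (kL L) (fun i => A₂.mkQ (p i)) ∧ (∀ i, t i ∈ U₁) ∧ (∀ i, p i ∈ U₂) ∧
      finrank ℂ (LinearMap.range (evM L F t p)) + m ≤ s + 2 * n := by
  unfold DefK
  rw [trF_EM h2 h3]
  norm_cast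

/-- minimal failures are good -/
theorem good_ofK (hE : Eig L κ) (h2 : L.g₂ ∈ F) (h3 : L.g₃ ∈ F)
    {A₁ V₁ U₁ : Submodule ℚ ℂ} {A₂ V₂ U₂ : Submodule (kL L) ℂ} (hUV₁ : U₁ ≤ V₁)
    (hUV₂ : U₂ ≤ V₂) {m : ℕ} {t : Fin s → ℂ} {p : Fin n → ℂ} (hz : DefK L F A₁ U₁ A₂ U₂ m t p)
    (hmin : ∀ (s' n' : ℕ) (t' : Fin s' → ℂ) (p' : Fin n' → ℂ), s' + 2 * n' < s + 2 * n →
      ¬ DefK L F A₁ U₁ A₂ U₂ m t' p') :
    GoodM L F V₁ (V₂.restrictScalars ℚ) (finrank ℂ (LinearMap.range (evM L F t p))) t p := by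
  classical
  obtain ⟨hli₁, hli₂, ht, hp, hle⟩ := (defK_iff h2 h3).1 hz
  refine ⟨fun i => hUV₁ (ht i), fun i => hUV₂ (hp i), tp_of hE h2 h3 ?_ ?_, rfl⟩
  · intro D hF q hD
    rcases s with _ | s
    · exact Subsingleton.elim _ _
    by_contra hne
    obtain ⟨A, hA, hA2⟩ := exists_ortho q
    have h4 := loss_one h2 h3 hF hne hD hA2
    refine hmin s n (comb A t) p (by omega) ((defK_iff h2 h3).2
      ⟨comb_indepL hA hli₁, hli₂, comb_mem ht A, hp, by omega⟩)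
  · intro D hF D' hF' q hD hD'
    rcases n with _ | n
    · exact Subsingleton.elim _ _
    by_contra hne
    obtain ⟨A, hA, hA2⟩ := exists_orthoK q
    have h4 := loss_twoK hE h2 h3 hF hF' hne hD hD' hA2
    refine hmin s n t (combK A p) (by omega) ((defK_iff h2 h3).2
      ⟨hli₁, comb_indepK hA hli₂, ht, combK_mem hp A, by omega⟩)

/-- The points of `V₂` whose image on the elliptic curve is rational over the field attached to a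
point. -/
def UK₂ (hE : Eig L κ) (h2 : L.g₂ ∈ F) (h3 : L.g₃ ∈ F) (V₂ : Submodule (kL L) ℂ)
    (t : Fin s → ℂ) (p : Fin n → ℂ) : Submodule (kL L) ℂ where
  carrier := {v | v ∈ V₂ ∧ ∀ D ∈ DF F, cm L D t p = 0 → om L D v = 0}
  add_mem' := by
    rintro a b ⟨ha, ha'⟩ ⟨hb, hb'⟩
    exact ⟨V₂.add_mem ha hb, fun D hF hD => by
      rw [om_add L D (hF _ h2) (hF _ h3), ha' D hF hD, hb' D hF hD, add_zero]⟩
  zero_mem' := ⟨V₂.zero_mem, fun D _ _ => om_zero D⟩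
  smul_mem' := by
    rintro c a ⟨ha, ha'⟩
    refine ⟨V₂.smul_mem c ha, fun D hF hD => ?_⟩
    have h := hE.om_mul D (hF _ h2) (hF _ h3) c c.2 a
    change om L D ((c : ℂ) * a) = 0
    rw [h, ha' D hF hD, mul_zero]

theorem UK₂_restrict (hE : Eig L κ) (h2 : L.g₂ ∈ F) (h3 : L.g₃ ∈ F) (V₂ : Submodule (kL L) ℂ)
    (t : Fin s → ℂ) (p : Fin n → ℂ) : (UK₂ hE h2 h3 V₂ t p).restrictScalars ℚ =
      UM₂ L F (V₂.restrictScalars ℚ) h2 h3 t p := rfl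

/-- the pairs of subspaces -/
def TK (hE : Eig L κ) (h2 : L.g₂ ∈ F) (h3 : L.g₃ ∈ F) (A₁ V₁ : Submodule ℚ ℂ)
    (A₂ V₂ : Submodule (kL L) ℂ) : Set (Submodule ℚ ℂ × Submodule (kL L) ℂ) :=
  {W | ∃ (s n ρ : ℕ) (t : Fin s → ℂ) (p : Fin n → ℂ), ρ < s + 2 * n ∧
    LinearIndependent ℚ (fun i => A₁.mkQ (t i)) ∧
    LinearIndependent (kL L) (fun i => A₂.mkQ (p i)) ∧
    GoodM L F V₁ (V₂.restrictScalars ℚ) ρ t p ∧ W = (UM₁ L F V₁ t p, UK₂ hE h2 h3 V₂ t p)}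

theorem card_le_of_indepK {A V : Submodule (kL L) ℂ} [FiniteDimensional (kL L) V] {z : Fin n → ℂ}
    (hz : LinearIndependent (kL L) (fun i => A.mkQ (z i))) (h : ∀ i, z i ∈ V) :
    n ≤ finrank (kL L) V := by
  have h1 : LinearIndependent (kL L) (fun i => (⟨z i, h i⟩ : V)) := by
    apply LinearIndependent.of_comp V.subtype
    exact LinearIndependent.of_comp A.mkQ hz
  have h2 := h1.fintype_card_le_finrank
  rwa [Fintype.card_fin] at h2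

/-- the uniform bound -/
theorem bound_TK (r : ℕ) : ∃ B : ℕ, ∀ (L : PeriodPair) (κ : ℂ) (hE : Eig L κ)
    (F : IntermediateField ℚ ℂ) (h2 : L.g₂ ∈ F) (h3 : L.g₃ ∈ F) (A₁ V₁ : Submodule ℚ ℂ)
    (A₂ V₂ : Submodule (kL L) ℂ), FiniteDimensional ℚ V₁ →
    FiniteDimensional (kL L) V₂ → finrank ℚ V₁ ≤ r → finrank (kL L) V₂ ≤ r →
    (TK hE h2 h3 A₁ V₁ A₂ V₂).encard ≤ B := by
  classical
  choose B hB using fun (q : ℕ × ℕ × ℕ × ℕ × ℕ) =>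
    bound_UM q.1 q.2.1 q.2.2.1 q.2.2.2.1 q.2.2.2.2
  refine ⟨∑ q ∈ (range (r + 1)) ×ˢ (range (r + 1)) ×ˢ (range (3 * r + 1)) ×ˢ (range (r + 1)) ×ˢ
    (range (2 * r + 1)), B q, fun L κ hE F h2 h3 A₁ V₁ A₂ V₂ _ _ hV₁ hV₂ => ?_⟩
  obtain ⟨hfd, hd⟩ := finrank_restrict V₂
  let g : Submodule ℚ ℂ × Submodule (kL L) ℂ → Submodule ℚ ℂ × Submodule ℚ ℂ :=
    fun W => (W.1, W.2.restrictScalars ℚ)
  have hg : Function.Injective g := by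
    intro W W' h
    have e1 : (g W).1 = (g W').1 := by rw [h]
    have e2 : (g W).2 = (g W').2 := by rw [h]
    exact Prod.ext e1 (Submodule.restrictScalars_injective ℚ _ _ e2)
  have h1 : g '' (TK hE h2 h3 A₁ V₁ A₂ V₂) ⊆ ⋃ q ∈ (range (r + 1)) ×ˢ (range (r + 1)) ×ˢ
      (range (3 * r + 1)) ×ˢ ({finrank ℚ V₁} : Finset ℕ) ×ˢ
        ({finrank ℚ (V₂.restrictScalars ℚ)} : Finset ℕ),
      {U : Submodule ℚ ℂ × Submodule ℚ ℂ | ∃ (t : Fin q.1 → ℂ) (p : Fin q.2.1 → ℂ),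
        GoodM L F V₁ (V₂.restrictScalars ℚ) q.2.2.1 t p ∧
          U = (UM₁ L F V₁ t p, UM₂ L F (V₂.restrictScalars ℚ) h2 h3 t p)} := by
    rintro _ ⟨W, ⟨s, n, ρ, t, p, hρ, hli₁, hli₂, hg, rfl⟩, rfl⟩
    have e1 := card_le_of_indep hli₁ hg.mem₁
    have e2 := card_le_of_indepK hli₂ hg.mem₂
    refine Set.mem_iUnion₂.2
      ⟨(s, n, ρ, finrank ℚ V₁, finrank ℚ (V₂.restrictScalars ℚ)), ?_, t, p, hg, rfl⟩
    simp only [Finset.mem_product, Finset.mem_range, Finset.mem_singleton]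
    refine ⟨?_, ?_, ?_, trivial, trivial⟩ <;> omega
  rw [← hg.encard_image]
  refine (Set.encard_le_encard h1).trans ((encard_biUnion_le _ _ B ?_).trans ?_)
  · intro q hq
    simp only [Finset.mem_product, Finset.mem_singleton] at hq
    exact hB q L F h2 h3 V₁ (V₂.restrictScalars ℚ) inferInstance hfd hq.2.2.2.1.symm
      hq.2.2.2.2.symm
  · rw [Nat.cast_le]
    apply Finset.sum_le_sum_of_subset
    intro q hq
    simp only [Finset.mem_product, Finset.mem_range, Finset.mem_singleton] at hq ⊢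
    refine ⟨hq.1, hq.2.1, hq.2.2.1, ?_, ?_⟩ <;> omega

theorem inf_bot_of_indepK {A : Submodule (kL L) ℂ} {z : Fin n → ℂ}
    (hz : LinearIndependent (kL L) (fun i => A.mkQ (z i))) :
    Submodule.span (kL L) (Set.range z) ⊓ A = ⊥ := by
  rw [eq_bot_iff]
  rintro x ⟨hx, hxL⟩
  obtain ⟨c, rfl⟩ := (Submodule.mem_span_range_iff_exists_fun (kL L)).1 hx
  have h1 : ∑ i, c i • A.mkQ (z i) = 0 := by
    have h2 : A.mkQ (∑ i, c i • z i) = 0 := by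
      rw [Submodule.mkQ_apply, Submodule.Quotient.mk_eq_zero]
      exact hxL
    rw [map_sum] at h2
    simpa only [map_smul] using h2
  have h3 := Fintype.linearIndependent_iff.1 hz c h1
  simp only [h3, zero_smul, sum_const_zero]
  exact Submodule.zero_mem _

/-- the numbers attached to spaces -/
abbrev SK (L : PeriodPair) (X₁ W₁ : Submodule ℚ ℂ) (X₂ W₂ : Submodule (kL L) ℂ) : Set ℂ :=
  SM L (X₁ : Set ℂ) (W₁ : Set ℂ) (X₂ : Set ℂ) (W₂ : Set ℂ)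

theorem span_killed (hE : Eig L κ) (h2 : L.g₂ ∈ F) (h3 : L.g₃ ∈ F) {D : Derivation ℚ ℂ ℂ}
    (hF : D ∈ DF F) {t : Fin s → ℂ} {p : Fin n → ℂ} (hD : cm L D t p = 0) {x : ℂ}
    (hx : x ∈ Submodule.span (kL L) (Set.range p)) :
    D x = 0 ∧ om L D x = 0 ∧ et L D x = 0 := by
  obtain ⟨c, rfl⟩ := (Submodule.mem_span_range_iff_exists_fun (kL L)).1 hx
  have hp := (cm_eq_zero.1 hD).2
  have e0 : ∑ i, c i • p i = ∑ i, (c i : ℂ) * p i := rfl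
  have h4 : D (∑ i, c i • p i) = 0 := by
    rw [map_sum]
    refine sum_eq_zero (fun i _ => ?_)
    change D ((c i : ℂ) * p i) = 0
    rw [Derivation.leibniz, (hp i).1, der_kL D (c i).2, smul_zero, smul_zero, add_zero]
  have h5 : om L D (∑ i, c i • p i) = 0 := by
    rw [e0, om_linK hE D (hF _ h2) (hF _ h3) _ _ (fun j => (c j).2)]
    exact sum_eq_zero (fun i _ => by rw [(hp i).2.1, mul_zero])
  refine ⟨h4, h5, ?_⟩
  have h6 : xi L κ D (∑ i, c i • p i) = 0 := by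
    rw [e0, xi_linK hE D (hF _ h2) (hF _ h3) _ _ (fun j => (c j).2)]
    refine sum_eq_zero (fun i _ => ?_)
    unfold xi
    rw [(hp i).2.2, (hp i).2.1, (hp i).1, sub_zero, mul_zero, add_zero, mul_zero]
  unfold xi at h6
  rw [h5, h4, sub_zero, mul_zero, add_zero] at h6
  exact h6

theorem SK_sub (hE : Eig L κ) (h2 : L.g₂ ∈ F) (h3 : L.g₃ ∈ F) {V₁ : Submodule ℚ ℂ}
    {V₂ : Submodule (kL L) ℂ} (t : Fin s → ℂ)
    (p : Fin n → ℂ) : SK L (Submodule.span ℚ (Set.range t)) (UM₁ L F V₁ t p)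
      (Submodule.span (kL L) (Set.range p)) (UK₂ hE h2 h3 V₂ t p) ⊆ (KM L F t p : Set ℂ) := by
  rintro x ((hx | ⟨w, hw, rfl⟩) | (hx | (⟨w, hw, rfl⟩ | ⟨w, ⟨hw, hwl⟩, rfl⟩))) D hF hD
  · have h4 : Submodule.span ℚ (Set.range t) ≤ LinearMap.ker (D : ℂ →ₗ[ℚ] ℂ) := by
      rw [Submodule.span_le]
      rintro _ ⟨i, rfl⟩
      exact (cc_eq_zero.1 (cm_eq_zero.1 hD).1).1 i
    exact h4 hx
  · exact dlog_eq_zero.1 (hw.2 D hF hD)
  · exact (span_killed hE h2 h3 hF hD hx).1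
  · obtain ⟨-, h5, h6⟩ := span_killed hE h2 h3 hF hD hw
    exact zt_killed h5 h6
  · exact (wp_killed (hF _ h2) (hF _ h3) (hw.2 D hF hD) hwl).1

/-- the spaces spanned by a failure -/
theorem span_propsK (hE : Eig L κ) (h2 : L.g₂ ∈ F) (h3 : L.g₃ ∈ F) {A₁ V₁ : Submodule ℚ ℂ}
    {A₂ V₂ : Submodule (kL L) ℂ} {ρ : ℕ}
    {t : Fin s → ℂ} {p : Fin n → ℂ} (hli₁ : LinearIndependent ℚ (fun i => A₁.mkQ (t i)))
    (hli₂ : LinearIndependent (kL L) (fun i => A₂.mkQ (p i)))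
    (hg : GoodM L F V₁ (V₂.restrictScalars ℚ) ρ t p) :
    ∃ (X₁ : Submodule ℚ ℂ) (X₂ : Submodule (kL L) ℂ), X₁ = Submodule.span ℚ (Set.range t) ∧
      X₂ = Submodule.span (kL L) (Set.range p) ∧
      X₁ ≤ UM₁ L F V₁ t p ∧ X₂ ≤ UK₂ hE h2 h3 V₂ t p ∧ X₁ ⊓ A₁ = ⊥ ∧ X₂ ⊓ A₂ = ⊥ ∧
      finrank ℚ X₁ = s ∧ finrank (kL L) X₂ = n ∧
      trF F (SK L X₁ (UM₁ L F V₁ t p) X₂ (UK₂ hE h2 h3 V₂ t p)) ≤ ρ ∧
      (∀ x ∈ V₁, IsAlgebraic (IntermediateField.adjoin F (SK L X₁ (UM₁ L F V₁ t p) X₂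
        (UK₂ hE h2 h3 V₂ t p))) (Complex.exp x) → x ∈ UM₁ L F V₁ t p) ∧
      ∀ x ∈ V₂, (x ∉ L.lattice → IsAlgebraic (IntermediateField.adjoin F (SK L X₁
        (UM₁ L F V₁ t p) X₂ (UK₂ hE h2 h3 V₂ t p))) (℘[L] x)) → x ∈ UK₂ hE h2 h3 V₂ t p := by
  have hcl := SK_sub hE h2 h3 (V₁ := V₁) (V₂ := V₂) t p
  refine ⟨_, _, rfl, rfl, ?_, ?_, inf_bot_of_indep hli₁, inf_bot_of_indepK hli₂, ?_, ?_, ?_, ?_,
    ?_⟩
  · rw [Submodule.span_le]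
    rintro _ ⟨i, rfl⟩
    exact ⟨hg.mem₁ i, fun D _ hD => (cc_eq_zero.1 (cm_eq_zero.1 hD).1).2 i⟩
  · rw [Submodule.span_le]
    rintro _ ⟨i, rfl⟩
    exact ⟨hg.mem₂ i, fun D _ hD => ((cm_eq_zero.1 hD).2 i).2.1⟩
  · rw [finrank_span_eq_card (LinearIndependent.of_comp A₁.mkQ hli₁), Fintype.card_fin]
  · rw [finrank_span_eq_card (LinearIndependent.of_comp A₂.mkQ hli₂), Fintype.card_fin]
  · rw [trF_le_iff]
    refine le_trans ((MK F).eRk_mono hcl) ?_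
    rw [rk_KM h2 h3, hg.hr]
  · intro x hx hal
    exact ⟨hx, fun D hF hD => dlog_eq_zero.2
      (kills_alg hF (fun y hy => hcl hy D hF hD) hal)⟩
  · intro x hx hal
    refine ⟨hx, fun D hF hD => ?_⟩
    by_cases hxl : x ∈ L.lattice
    · exact om_of_mem L D hxl
    · unfold om
      rw [kills_alg hF (fun y hy => hcl hy D hF hD) (hal hxl), zero_div]

theorem indep_of_inf_botK {A X : Submodule (kL L) ℂ} (hX : X ⊓ A = ⊥) {ι : Type*}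
    (b : Basis ι (kL L) X) : LinearIndependent (kL L) (fun i => A.mkQ ((b i : X) : ℂ)) := by
  have h1 : LinearMap.ker (A.mkQ ∘ₗ X.subtype) = ⊥ := by
    rw [eq_bot_iff]
    intro x hx
    rw [LinearMap.mem_ker, LinearMap.comp_apply, Submodule.mkQ_apply,
      Submodule.Quotient.mk_eq_zero] at hx
    have h2 : (x : ℂ) ∈ X ⊓ A := ⟨x.2, hx⟩
    rw [hX, Submodule.mem_bot] at h2
    rw [Submodule.mem_bot]
    exact Subtype.ext h2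
  exact b.linearIndependent.map' _ h1

/-- **Main theorem**: the failures of the relative inequality for exponentials and elliptic
functions, with their defects, are governed by boundedly many pairs of subspaces. -/
theorem mainK (r : ℕ) : ∃ B : ℕ, ∀ (L : PeriodPair) (κ : ℂ), Eig L κ →
    ∀ (F : IntermediateField ℚ ℂ), L.g₂ ∈ F → L.g₃ ∈ F →
    ∀ (A₁ V₁ : Submodule ℚ ℂ) (A₂ V₂ : Submodule (kL L) ℂ),
    FiniteDimensional ℚ V₁ → FiniteDimensional (kL L) V₂ → finrank ℚ V₁ ≤ r →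
    finrank (kL L) V₂ ≤ r →
    ∃ T : Finset (Submodule ℚ ℂ × Submodule (kL L) ℂ), T.card ≤ B ∧
      (∀ W ∈ T, W.1 ≤ V₁ ∧ W.2 ≤ V₂ ∧ ∃ X₁ ≤ W.1, ∃ X₂ ≤ W.2, X₁ ⊓ A₁ = ⊥ ∧ X₂ ⊓ A₂ = ⊥ ∧
        trF F (SK L X₁ W.1 X₂ W.2) < ((finrank ℚ X₁ + 2 * finrank (kL L) X₂ : ℕ) : Cardinal) ∧
        (∀ x ∈ V₁, IsAlgebraic (IntermediateField.adjoin F (SK L X₁ W.1 X₂ W.2))
          (Complex.exp x) → x ∈ W.1) ∧
        ∀ x ∈ V₂, (x ∉ L.lattice → IsAlgebraic (IntermediateField.adjoin F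
          (SK L X₁ W.1 X₂ W.2)) (℘[L] x)) → x ∈ W.2) ∧
      ∀ U₁ ≤ V₁, ∀ U₂ ≤ V₂, ∀ m : ℕ, 0 < m →
        ((∃ (s n : ℕ) (t : Fin s → ℂ) (p : Fin n → ℂ), DefK L F A₁ U₁ A₂ U₂ m t p) ↔
          ∃ W ∈ T, ∃ X₁ ≤ U₁ ⊓ W.1, ∃ X₂ ≤ U₂ ⊓ W.2, X₁ ⊓ A₁ = ⊥ ∧ X₂ ⊓ A₂ = ⊥ ∧
            trF F (SK L X₁ W.1 X₂ W.2) + m ≤
              ((finrank ℚ X₁ + 2 * finrank (kL L) X₂ : ℕ) : Cardinal)) := by
  classical
  obtain ⟨B, hB⟩ := bound_TK r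
  refine ⟨B, fun L κ hE F h2 h3 A₁ V₁ A₂ V₂ _ _ hV₁ hV₂ => ?_⟩
  have hcard := hB L κ hE F h2 h3 A₁ V₁ A₂ V₂ inferInstance inferInstance hV₁ hV₂
  have hfin : (TK hE h2 h3 A₁ V₁ A₂ V₂).Finite := by
    rw [← Set.encard_lt_top_iff]
    exact lt_of_le_of_lt hcard (ENat.natCast_lt_top B)
  set T := hfin.toFinset with hTdef
  have hTm : ∀ W, W ∈ T ↔ W ∈ TK hE h2 h3 A₁ V₁ A₂ V₂ := fun W => by
    rw [hTdef, Set.Finite.mem_toFinset]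
  refine ⟨T, ?_, fun W hW => ?_, fun U₁ hU₁ U₂ hU₂ m hm => ⟨?_, ?_⟩⟩
  · have h1 : (T : Set (Submodule ℚ ℂ × Submodule (kL L) ℂ)).encard ≤ B := by
      rw [hTdef, Set.Finite.coe_toFinset]
      exact hcard
    rw [Set.encard_coe_eq_coe_finsetCard] at h1
    exact_mod_cast h1
  · obtain ⟨s, n, ρ, t, p, hρ, hli₁, hli₂, hg, rfl⟩ := (hTm W).1 hW
    obtain ⟨X₁, X₂, -, -, hX₁, hX₂, hA₁, hA₂, hd₁, hd₂, htr, hs₁, hs₂⟩ :=
      span_propsK hE h2 h3 hli₁ hli₂ hg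
    refine ⟨fun x hx => hx.1, fun x hx => hx.1, X₁, hX₁, X₂, hX₂, hA₁, hA₂, ?_, hs₁, hs₂⟩
    rw [hd₁, hd₂]
    exact lt_of_le_of_lt htr (by exact_mod_cast hρ)
  · intro hfail
    have hP : ∃ k : ℕ, ∃ (s n : ℕ) (t : Fin s → ℂ) (p : Fin n → ℂ), s + 2 * n = k ∧
        DefK L F A₁ U₁ A₂ U₂ m t p := by
      obtain ⟨s, n, t, p, h⟩ := hfail
      exact ⟨_, s, n, t, p, rfl, h⟩
    obtain ⟨s, n, t, p, hk, hz⟩ := Nat.find_spec hP
    have hg := good_ofK hE h2 h3 hU₁ hU₂ hz (by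
      intro s' n' t' p' hlt hx
      have h6 := Nat.find_min' hP ⟨s', n', t', p', rfl, hx⟩
      omega)
    obtain ⟨hli₁, hli₂, ht, hp, hle⟩ := (defK_iff h2 h3).1 hz
    obtain ⟨X₁, X₂, hX₁e, hX₂e, hX₁, hX₂, hA₁, hA₂, hd₁, hd₂, htr, -, -⟩ :=
      span_propsK hE h2 h3 hli₁ hli₂ hg
    refine ⟨(UM₁ L F V₁ t p, UK₂ hE h2 h3 V₂ t p),
      (hTm _).2 ⟨s, n, _, t, p, by omega, hli₁, hli₂, hg, rfl⟩, X₁, le_inf ?_ hX₁, X₂,
      le_inf ?_ hX₂, hA₁, hA₂, ?_⟩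
    · rw [hX₁e, Submodule.span_le]
      rintro _ ⟨i, rfl⟩
      exact ht i
    · rw [hX₂e, Submodule.span_le]
      rintro _ ⟨i, rfl⟩
      exact hp i
    · rw [hd₁, hd₂]
      refine (add_le_add_left htr _).trans ?_
      exact_mod_cast hle
  · rintro ⟨W, hW, X₁, hX₁, X₂, hX₂, hA₁, hA₂, h⟩
    have : FiniteDimensional ℚ X₁ :=
      Submodule.finiteDimensional_of_le (hX₁.trans (inf_le_left.trans hU₁))
    have : FiniteDimensional (kL L) X₂ :=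
      Submodule.finiteDimensional_of_le (hX₂.trans (inf_le_left.trans hU₂))
    let b₁ := finBasis ℚ X₁
    let b₂ := finBasis (kL L) X₂
    refine ⟨finrank ℚ X₁, finrank (kL L) X₂, fun i => (b₁ i : ℂ), fun i => (b₂ i : ℂ),
      indep_of_inf_bot hA₁ b₁, indep_of_inf_botK hA₂ b₂, fun i => (hX₁ (b₁ i).2).1,
      fun i => (hX₂ (b₂ i).2).1, trF_mono_add (SM_mono ?_ ?_ ?_ ?_) h⟩
    · rintro _ ⟨i, rfl⟩
      exact (b₁ i).2
    · rintro _ ⟨i, rfl⟩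
      exact (hX₁ (b₁ i).2).2
    · rintro _ ⟨i, rfl⟩
      exact (b₂ i).2
    · rintro _ ⟨i, rfl⟩
      exact (hX₂ (b₂ i).2).2

end Pool.Agent.TH813.Ell
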