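import Mathlib
import Pool.Agent.TH541.Ell.OmMul
import Pool.Agent.TH626.J2167
import Pool.Agent.TH89.J2168
import Pool.Agent.TH813.EKMain

/-!
# Exponentials and elliptic functions: the theorem for all lattices
-/

set_option autoImplicit false

open Finset Module
open scoped PeriodPair ComplexConjugate

noncomputable section

namespace Pool.Agent.TH813.Ell

open H667R3 Pool.Agent.W245.EB
open Pool.Agent.TH813.Rel (trF)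

/-- the eigenvector among the differentials of the second kind -/
theorem exists_eig (L : PeriodPair) : ∃ κ : ℂ, Eig L κ := by
  obtain ⟨κ, h1, h2⟩ := exists_kappa_of
    (fun {L} D h2 h3 {α} hα hm {c} hc => om_mult_const (L := L) D h2 h3 hα hm hc)
    (fun {L} {α} hα hm => card_ker (L := L) hα hm)
    (fun {L} {α} hm h => mult_real (L := L) hm h)
    (fun {L} {α} hm h {c} hc => kL_eq (L := L) hm h hc) L
  exact ⟨κ, h1, fun D d2 d3 c hc z => (h2 D d2 d3 c hc z).1,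
    fun D d2 d3 c hc z => (h2 D d2 d3 c hc z).2⟩

theorem mainA (r : ℕ) : ∃ B : ℕ, ∀ (L : PeriodPair) (F : IntermediateField ℚ ℂ),
    L.g₂ ∈ F → L.g₃ ∈ F →
    ∀ (A₁ V₁ : Submodule ℚ ℂ) (A₂ V₂ : Submodule (kL L) ℂ),
    FiniteDimensional ℚ V₁ → FiniteDimensional (kL L) V₂ → finrank ℚ V₁ ≤ r →
    finrank (kL L) V₂ ≤ r →
    ∃ T : Finset (Submodule ℚ ℂ × Submodule (kL L) ℂ), T.card ≤ B ∧
      (∀ W ∈ T, W.1 ≤ V₁ ∧ W.2 ≤ V₂ ∧ ∃ X₁ ≤ W.1, ∃ X₂ ≤ W.2, X₁ ⊓ A₁ = ⊥ ∧ X₂ ⊓ A₂ = ⊥ ∧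
        trF F (SK L X₁ W.1 X₂ W.2) < ((finrank ℚ X₁ + 2 * finrank (kL L) X₂ : ℕ) : Cardinal) ∧
        (∀ x ∈ V₁, IsAlgebraic (IntermediateField.adjoin F (SK L X₁ W.1 X₂ W.2))
          (Complex.exp x) → x ∈ W.1) ∧
        ∀ x ∈ V₂, (x ∉ L.lattice → IsAlgebraic (IntermediateField.adjoin F
          (SK L X₁ W.1 X₂ W.2)) (℘[L] x)) → x ∈ W.2) ∧
      ∀ U₁ ≤ V₁, ∀ U₂ ≤ V₂, ∀ m : ℕ, 0 < m →
        ((∃ (s n : ℕ) (t : Fin s → ℂ) (p : Fin n → ℂ), DefK L F A₁ U₁ A₂ U₂ m t p) ↔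
          ∃ W ∈ T, ∃ X₁ ≤ U₁ ⊓ W.1, ∃ X₂ ≤ U₂ ⊓ W.2, X₁ ⊓ A₁ = ⊥ ∧ X₂ ⊓ A₂ = ⊥ ∧
            trF F (SK L X₁ W.1 X₂ W.2) + m ≤
              ((finrank ℚ X₁ + 2 * finrank (kL L) X₂ : ℕ) : Cardinal)) := by
  obtain ⟨B, hB⟩ := mainK r
  refine ⟨B, fun L F => ?_⟩
  obtain ⟨κ, hE⟩ := exists_eig L
  exact hB L κ hE F

end Pool.Agent.TH813.Ell
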