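import Mathlib
import Pool.Agent.TH813.Uni3

/-!
# Transcendence degrees over the rational numbers, and the predimension
-/

set_option autoImplicit false

namespace Pool.Agent.TH813.Uni

open Pool.Agent.W252 Pool.Agent.W669.Gel Module Finset
open Pool.Agent.TH813.Core Pool.Agent.TH813.Rank Pool.Agent.TH813.Rel

/-- the transcendence degree over `ℚ` of the field generated by a set -/
noncomputable def tr (S : Set ℂ) : Cardinal := Algebra.trdeg ℚ (IntermediateField.adjoin ℚ S)

theorem mem_adjoin_iff (G S : Set ℂ) (x : ℂ) : x ∈ IntermediateField.adjoin ℚ (G ∪ S) ↔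
    x ∈ IntermediateField.adjoin (IntermediateField.adjoin ℚ G) S := by
  constructor
  · intro hx
    induction hx using IntermediateField.adjoin_induction with
    | mem x hx =>
      rcases hx with hx | hx
      · exact (IntermediateField.adjoin (IntermediateField.adjoin ℚ G) S).algebraMap_mem
          (⟨x, IntermediateField.subset_adjoin ℚ G hx⟩ : IntermediateField.adjoin ℚ G)
      · exact IntermediateField.subset_adjoin _ _ hx
    | algebraMap c =>
      exact (IntermediateField.adjoin (IntermediateField.adjoin ℚ G) S).algebraMap_mem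
          (algebraMap ℚ (IntermediateField.adjoin ℚ G) c)
    | add x y _ _ hx hy => exact add_mem hx hy
    | inv x _ hx => exact inv_mem hx
    | mul x y _ _ hx hy => exact mul_mem hx hy
  · intro hx
    induction hx using IntermediateField.adjoin_induction with
    | mem x hx => exact IntermediateField.subset_adjoin ℚ _ (Or.inr hx)
    | algebraMap c => exact IntermediateField.adjoin.mono ℚ _ _ Set.subset_union_left c.2
    | add x y _ _ hx hy => exact add_mem hx hy
    | inv x _ hx => exact inv_mem hx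
    | mul x y _ _ hx hy => exact mul_mem hx hy

/-- the two presentations of the field generated by a union -/
noncomputable def eqv (G S : Set ℂ) : IntermediateField.adjoin ℚ (G ∪ S) ≃+*
    IntermediateField.adjoin (IntermediateField.adjoin ℚ G) S where
  toFun x := ⟨x, (mem_adjoin_iff G S x).1 x.2⟩
  invFun x := ⟨x, (mem_adjoin_iff G S x).2 x.2⟩
  left_inv _ := rfl
  right_inv _ := rfl
  map_mul' _ _ := rfl
  map_add' _ _ := rfl

theorem trdeg_congr {A B : Type} [Field A] [Field B] [CharZero A] [CharZero B] (e : A ≃+* B) :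
    Algebra.trdeg ℚ A = Algebra.trdeg ℚ B :=
  (AlgEquiv.ofRingEquiv (f := e) (fun q => by
    rw [eq_ratCast, eq_ratCast, map_ratCast])).trdeg_eq

theorem tr_add (G S : Set ℂ) : tr (G ∪ S) = tr G + trF (IntermediateField.adjoin ℚ G) S := by
  unfold tr trF
  have h1 : FaithfulSMul (IntermediateField.adjoin ℚ G)
      (IntermediateField.adjoin (IntermediateField.adjoin ℚ G) S) :=
    (faithfulSMul_iff_algebraMap_injective _ _).2
      (fun a b h => by
        apply Subtype.ext
        have h1 := congrArg (fun t : IntermediateField.adjoin (IntermediateField.adjoin ℚ G) S =>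
          (t : ℂ)) h
        exact h1)
  rw [trdeg_add_eq ℚ (IntermediateField.adjoin ℚ G)
    (A := IntermediateField.adjoin (IntermediateField.adjoin ℚ G) S), trdeg_congr (eqv G S)]

theorem tr_empty : tr ∅ = 0 := by
  unfold tr
  have : Algebra.IsAlgebraic ℚ (IntermediateField.adjoin ℚ (∅ : Set ℂ)) := by
    refine ⟨fun x => ?_⟩
    have hx : (x : ℂ) ∈ (⊥ : IntermediateField ℚ ℂ) := by
      rw [← IntermediateField.adjoin_empty]
      exact x.2
    obtain ⟨q, hq⟩ := IntermediateField.mem_bot.1 hx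
    have h1 : x = (q : IntermediateField.adjoin ℚ (∅ : Set ℂ)) := by
      apply Subtype.ext
      rw [← hq]
      simp
    rw [h1, ← eq_ratCast (algebraMap ℚ (IntermediateField.adjoin ℚ (∅ : Set ℂ)))]
    exact isAlgebraic_algebraMap q
  exact trdeg_eq_zero

theorem tr_eq (S : Set ℂ) : tr S = trF (IntermediateField.adjoin ℚ ∅) S := by
  have h1 := tr_add ∅ S
  rwa [Set.empty_union, tr_empty, zero_add] at h1

theorem tr_mono {S T : Set ℂ} (h : S ⊆ T) : tr S ≤ tr T := by
  rw [← Set.union_eq_self_of_subset_left h, tr_add]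
  exact le_self_add

theorem trF_lt_aleph0 (F : IntermediateField ℚ ℂ) (X W : Submodule ℚ ℂ) [FiniteDimensional ℚ X]
    [FiniteDimensional ℚ W] : trF F ((X : Set ℂ) ∪ Complex.exp '' (W : Set ℂ)) <
      Cardinal.aleph0 := by
  let Y := X ⊔ W
  let b := finBasis ℚ Y
  let z : Fin (finrank ℚ Y) → ℂ := fun i => (b i : ℂ)
  have hspan : ∀ y ∈ Y, ∃ c : Fin (finrank ℚ Y) → ℚ, y = ∑ i, c i • z i := by
    intro y hy
    refine ⟨fun i => b.repr ⟨y, hy⟩ i, ?_⟩
    have h1 := congrArg (fun t : Y => (t : ℂ)) (b.sum_repr ⟨y, hy⟩)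
    simp only [Submodule.coe_sum, Submodule.coe_smul] at h1
    exact h1.symm
  have hcl : ((X : Set ℂ) ∪ Complex.exp '' (W : Set ℂ)) ⊆ (KF F z : Set ℂ) := by
    rintro x (hx | ⟨w, hw, rfl⟩)
    · intro D hF hD
      obtain ⟨c, rfl⟩ := hspan x (Submodule.mem_sup_left hx)
      have h3 : ∀ i, D (z i) = 0 := (cc_eq_zero.1 hD).1
      have h2 : (D : ℂ →ₗ[ℚ] ℂ) (∑ i, c i • z i) = ∑ i, c i • D (z i) := by
        rw [map_sum]
        exact sum_congr rfl (fun i _ => by rw [map_smul]; rfl)
      exact h2.trans (sum_eq_zero (fun i _ => by rw [h3, smul_zero]))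
    · intro D hF hD
      obtain ⟨c, rfl⟩ := hspan w (Submodule.mem_sup_right hw)
      have h3 : ∀ i, dl D (z i) = 0 := (cc_eq_zero.1 hD).2
      have h2 : dl D (∑ i, c i • z i) = ∑ i, c i • dl D (z i) := by
        rw [map_sum]
        exact sum_congr rfl (fun i _ => by rw [map_smul])
      exact dlog_eq_zero.1 (h2.trans (sum_eq_zero (fun i _ => by rw [h3, smul_zero])))
  have h1 : trF F ((X : Set ℂ) ∪ Complex.exp '' (W : Set ℂ)) ≤
      ((finrank ℂ (LinearMap.range (evF F z)) : ℕ) : Cardinal) := by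
    rw [trF_le_iff]
    exact le_trans (rk_le_of_subset_cl (hcl.trans (subset_cl (k := F) _))) (rk_KF F z)
  exact lt_of_le_of_lt h1 Cardinal.natCast_lt_aleph0

/-- enlarging a space by independent elements -/
theorem ext {F : IntermediateField ℚ ℂ} {A X X' : Submodule ℚ ℂ} [FiniteDimensional ℚ X']
    (hA : ∀ a ∈ A, a ∈ F) (hAX : A ≤ X') (hX : X ≤ X') (hXA : X ⊓ A = ⊥) (S : Set ℂ) {t : ℕ}
    (ht : trF F ((X : Set ℂ) ∪ S) = t) :
    trF F ((X' : Set ℂ) ∪ S) + ((finrank ℚ X + finrank ℚ A : ℕ) : Cardinal) ≤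
      ((t + finrank ℚ X' : ℕ) : Cardinal) := by
  classical
  have : FiniteDimensional ℚ X := Submodule.finiteDimensional_of_le hX
  have : FiniteDimensional ℚ A := Submodule.finiteDimensional_of_le hAX
  -- a complement of X ⊔ A in X'
  obtain ⟨Y, hY⟩ := ((X ⊔ A).comap X'.subtype).exists_isCompl
  let b := finBasis ℚ Y
  let y : Fin (finrank ℚ Y) → ℂ := fun i => ((b i : X') : ℂ)
  have hfin : finrank ℚ ((X ⊔ A).comap X'.subtype) + finrank ℚ Y = finrank ℚ X' :=
    Submodule.finrank_add_eq_of_isCompl hY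
  have hle : X ⊔ A ≤ X' := sup_le hX hAX
  have h1 : finrank ℚ ((X ⊔ A).comap X'.subtype) = finrank ℚ ↥(X ⊔ A) :=
    (Submodule.comapSubtypeEquivOfLe hle).finrank_eq
  have h2 : finrank ℚ ↥(X ⊔ A) = finrank ℚ X + finrank ℚ A := by
    have := Submodule.finrank_sup_add_finrank_inf_eq X A
    rw [hXA, finrank_bot, add_zero] at this
    exact this
  have hsub : ((X' : Set ℂ) ∪ S) ⊆
      (MK F).closure (((X : Set ℂ) ∪ S) ∪ Set.range y) := by
    rintro x (hx | hx)
    · have h3 : (⟨x, hx⟩ : X') ∈ (X ⊔ A).comap X'.subtype ⊔ Y := by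
        rw [hY.sup_eq_top]
        exact Submodule.mem_top
      obtain ⟨p, hp, q, hq, hpq⟩ := Submodule.mem_sup.1 h3
      have h4 : (p : ℂ) ∈ X ⊔ A := hp
      obtain ⟨p1, hp1, p2, hp2, hp12⟩ := Submodule.mem_sup.1 h4
      have h5 : x = p1 + p2 + (q : ℂ) := by
        have h6 := congrArg Subtype.val hpq
        rw [hp12]
        exact h6.symm
      rw [h5]
      refine cl_add (cl_add (subset_cl (k := F) _ (Or.inl (Or.inl hp1))) ?_) ?_
      · exact cl_of_base (k := F) _ ⟨p2, hA p2 hp2⟩
      · have h7 : Submodule.span ℚ (Set.range y) ≤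
            clF F (((X : Set ℂ) ∪ S) ∪ Set.range y) := by
          rw [Submodule.span_le]
          rintro _ ⟨i, rfl⟩
          exact subset_cl (k := F) _ (Or.inr ⟨i, rfl⟩)
        apply h7
        have h8 := congrArg (fun s : Y => ((s : X') : ℂ)) (b.sum_repr ⟨q, hq⟩)
        simp only [Submodule.coe_sum, Submodule.coe_smul] at h8
        rw [← h8]
        exact Submodule.sum_mem _ (fun i _ => Submodule.smul_mem _ _
          (Submodule.subset_span ⟨i, rfl⟩))
    · exact subset_cl (k := F) _ (Or.inl (Or.inr hx))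
  have h3 : (MK F).eRk ((X' : Set ℂ) ∪ S) ≤ ((t + finrank ℚ Y : ℕ) : ℕ∞) := by
    refine (rk_le_of_subset_cl hsub).trans ?_
    refine ((MK F).eRk_union_le_eRk_add_eRk _ _).trans ?_
    rw [Nat.cast_add]
    refine add_le_add ((trF_le_iff F _ t).1 ht.le) ?_
    refine ((MK F).eRk_le_encard _).trans ?_
    rw [← Set.image_univ]
    refine (Set.encard_image_le y Set.univ).trans ?_
    rw [Set.encard_univ, ENat.card_eq_coe_fintype_card, Fintype.card_fin]
  have h4 := (trF_le_iff F _ _).2 h3
  refine (add_le_add_left h4 _).trans ?_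
  norm_cast
  omega

end Pool.Agent.TH813.Uni
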