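import Mathlib
import Pool.Agent.TH813.Uni4

/-!
# The minima of the predimension
-/

set_option autoImplicit false

namespace Pool.Agent.TH813.Uni

open Pool.Agent.W252 Pool.Agent.W669.Gel Module Finset
open Pool.Agent.TH813.Core Pool.Agent.TH813.Rank Pool.Agent.TH813.Rel

/-- `trdeg (X, e^W) - dim X` -/
noncomputable def dl' (X W : Submodule ℚ ℂ) : ℤ :=
  (Cardinal.toNat (tr ((X : Set ℂ) ∪ Complex.exp '' (W : Set ℂ))) : ℤ) - (finrank ℚ X : ℤ)

theorem tr_cast (X W : Submodule ℚ ℂ) [FiniteDimensional ℚ X] [FiniteDimensional ℚ W] :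
    tr ((X : Set ℂ) ∪ Complex.exp '' (W : Set ℂ)) =
      (Cardinal.toNat (tr ((X : Set ℂ) ∪ Complex.exp '' (W : Set ℂ))) : ℕ) := by
  rw [Cardinal.cast_toNat_of_lt_aleph0]
  rw [tr_eq]
  exact trF_lt_aleph0 _ X W

/-- the field generated by `A` and `e^A` -/
noncomputable def fld (A : Submodule ℚ ℂ) : IntermediateField ℚ ℂ :=
  IntermediateField.adjoin ℚ ((A : Set ℂ) ∪ Complex.exp '' (A : Set ℂ))

theorem tr_rel {A X W : Submodule ℚ ℂ} (hX : A ≤ X) (hW : A ≤ W) :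
    tr ((X : Set ℂ) ∪ Complex.exp '' (W : Set ℂ)) =
      tr ((A : Set ℂ) ∪ Complex.exp '' (A : Set ℂ)) +
        trF (fld A) ((X : Set ℂ) ∪ Complex.exp '' (W : Set ℂ)) := by
  unfold fld
  rw [← tr_add]
  congr 1
  refine (Set.union_eq_self_of_subset_left (Set.union_subset_union hX ?_)).symm
  exact Set.image_mono hW

theorem rel (r : ℕ) : ∃ B : ℕ, ∀ A V : Submodule ℚ ℂ, FiniteDimensional ℚ V →
    finrank ℚ V ≤ r → A ≤ V →
    ∃ T : Finset (Submodule ℚ ℂ), T.card ≤ B ∧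
      (∀ W ∈ T, A ≤ W ∧ W ≤ V ∧ dl' W W < dl' A A) ∧
      ∀ U : Submodule ℚ ℂ, A ≤ U → U ≤ V → ∀ d : ℤ, d < dl' A A →
        ((∃ X, A ≤ X ∧ X ≤ U ∧ dl' X X ≤ d) ↔ ∃ W ∈ T, dl' (U ⊓ W) W ≤ d) := by
  classical
  obtain ⟨B, hB⟩ := main r
  refine ⟨B, fun A V _ hr hAV => ?_⟩
  obtain ⟨T, hT1, hT2, hT3⟩ := hB (fld A) A V inferInstance hr
  have hAF : ∀ a ∈ A, a ∈ fld A := fun a ha => IntermediateField.subset_adjoin ℚ _ (Or.inl ha)
  have heF : ∀ a ∈ A, Complex.exp a ∈ fld A := fun a ha =>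
    IntermediateField.subset_adjoin ℚ _ (Or.inr ⟨a, ha, rfl⟩)
  have hAW : ∀ W ∈ T, A ≤ W := by
    intro W hW a ha
    obtain ⟨X, -, -, -, h⟩ := (hT2 W hW).2
    refine h a (hAV ha) ?_
    exact isAlgebraic_algebraMap (A := ℂ) ((⟨Complex.exp a, (IntermediateField.adjoin (fld A)
      ((X : Set ℂ) ∪ Complex.exp '' (W : Set ℂ))).algebraMap_mem
        (⟨Complex.exp a, heF a ha⟩ : fld A)⟩ : IntermediateField.adjoin (fld A)
      ((X : Set ℂ) ∪ Complex.exp '' (W : Set ℂ))))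
  have hfd : ∀ X : Submodule ℚ ℂ, X ≤ V → FiniteDimensional ℚ X :=
    fun X hX => Submodule.finiteDimensional_of_le hX
  have hcast : ∀ X W : Submodule ℚ ℂ, X ≤ V → W ≤ V →
      ∃ t : ℕ, trF (fld A) ((X : Set ℂ) ∪ Complex.exp '' (W : Set ℂ)) = t := by
    intro X W hX hW
    have := hfd X hX
    have := hfd W hW
    exact Cardinal.lt_aleph0.1 (trF_lt_aleph0 _ X W)
  -- the predimension over `A`
  have hdl : ∀ X W : Submodule ℚ ℂ, A ≤ X → A ≤ W → X ≤ V → W ≤ V → ∀ t : ℕ,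
      trF (fld A) ((X : Set ℂ) ∪ Complex.exp '' (W : Set ℂ)) = t →
        dl' X W = dl' A A + t + finrank ℚ A - finrank ℚ X := by
    intro X W h1 h2 h3 h4 t ht
    have := hfd X h3
    have := hfd W h4
    have := hfd A hAV
    have h5 := tr_rel h1 h2
    rw [ht, tr_cast X W, tr_cast A A] at h5
    unfold dl'
    have h6 : Cardinal.toNat (tr ((X : Set ℂ) ∪ Complex.exp '' (W : Set ℂ))) =
        Cardinal.toNat (tr ((A : Set ℂ) ∪ Complex.exp '' (A : Set ℂ))) + t := by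
      exact_mod_cast h5
    rw [h6]
    push_cast
    ring
  refine ⟨T, hT1, fun W hW => ⟨hAW W hW, (hT2 W hW).1, ?_⟩, fun U hAU hUV d hd => ⟨?_, ?_⟩⟩
  · obtain ⟨hWV, X, hXW, hXA, hlt, -⟩ := hT2 W hW
    have := hfd W hWV
    obtain ⟨t, ht⟩ := hcast X W (hXW.trans hWV) hWV
    obtain ⟨s, hs⟩ := hcast W W hWV hWV
    have h1 := ext (F := fld A) (A := A) (X := X) (X' := W) hAF (hAW W hW) hXW hXA
      (Complex.exp '' (W : Set ℂ)) ht
    rw [hs] at h1
    rw [ht] at hlt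
    rw [hdl W W (hAW W hW) (hAW W hW) hWV hWV s hs]
    have h2 : s + (finrank ℚ X + finrank ℚ A) ≤ t + finrank ℚ W := by exact_mod_cast h1
    have h3 : t < finrank ℚ X := by exact_mod_cast hlt
    omega
  · rintro ⟨X, hAX, hXU, hd1⟩
    have hXV := hXU.trans hUV
    have := hfd X hXV
    have := hfd A hAV
    obtain ⟨s, hs⟩ := hcast X X hXV hXV
    have h1 := hdl X X hAX hAX hXV hXV s hs
    -- a complement of `A`
    obtain ⟨Y, hY⟩ := (A.comap X.subtype).exists_isCompl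
    let b := finBasis ℚ Y
    let z : Fin (finrank ℚ Y) → ℂ := fun i => ((b i : X) : ℂ)
    have hfin : finrank ℚ (A.comap X.subtype) + finrank ℚ Y = finrank ℚ X :=
      Submodule.finrank_add_eq_of_isCompl hY
    have h2 : finrank ℚ (A.comap X.subtype) = finrank ℚ A :=
      (Submodule.comapSubtypeEquivOfLe hAX).finrank_eq
    have hz : LinearIndependent ℚ (fun i => A.mkQ (z i)) := by
      have h3 : LinearMap.ker (A.mkQ ∘ₗ X.subtype ∘ₗ Y.subtype) = ⊥ := by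
        rw [eq_bot_iff]
        intro y hy
        rw [LinearMap.mem_ker, LinearMap.comp_apply, Submodule.mkQ_apply,
          Submodule.Quotient.mk_eq_zero] at hy
        have h4 : (y : X) ∈ (A.comap X.subtype) ⊓ Y := ⟨hy, y.2⟩
        rw [hY.inf_eq_bot, Submodule.mem_bot] at h4
        rw [Submodule.mem_bot]
        exact Subtype.ext h4
      exact b.linearIndependent.map' _ h3
    obtain ⟨m, hm⟩ : ∃ m : ℕ, dl' A A = d + m := by
      obtain ⟨m, hm⟩ := Int.eq_ofNat_of_zero_le (sub_nonneg.2 hd.le)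
      exact ⟨m, by omega⟩
    have hm0 : 0 < m := by omega
    obtain ⟨W, hW, Y', hY', hYA, h5⟩ := (hT3 U hUV m hm0).1 ⟨finrank ℚ Y, z, hz, fun i =>
      hXU (b i : X).2, by
        have h6 : tz (fld A) z ≤ (s : Cardinal) := by
          rw [← hs]
          unfold tz
          rw [hs, trF_le_iff]
          refine le_trans ((MK (fld A)).eRk_mono ?_) ((trF_le_iff _ _ s).1 hs.le)
          rintro x (⟨i, rfl⟩ | ⟨_, ⟨i, rfl⟩, rfl⟩)
          · exact Or.inl (b i : X).2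
          · exact Or.inr ⟨_, (b i : X).2, rfl⟩
        refine (add_le_add_left h6 _).trans ?_
        norm_cast
        omega⟩
    refine ⟨W, hW, ?_⟩
    have hWV := (hT2 W hW).1
    have hUW : U ⊓ W ≤ V := inf_le_left.trans hUV
    have := hfd _ hUW
    obtain ⟨t, ht⟩ := hcast Y' W (hY'.trans hUW) hWV
    obtain ⟨t', ht'⟩ := hcast (U ⊓ W) W hUW hWV
    have h7 := ext (F := fld A) (A := A) (X := Y') (X' := U ⊓ W) hAF (le_inf hAU (hAW W hW)) hY'
      hYA (Complex.exp '' (W : Set ℂ)) ht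
    rw [ht'] at h7
    rw [ht] at h5
    rw [hdl (U ⊓ W) W (le_inf hAU (hAW W hW)) (hAW W hW) hUW hWV t' ht']
    have h8 : t' + (finrank ℚ Y' + finrank ℚ A) ≤ t + finrank ℚ ↥(U ⊓ W) := by exact_mod_cast h7
    have h9 : t + m ≤ finrank ℚ Y' := by exact_mod_cast h5
    omega
  · rintro ⟨W, hW, h⟩
    have hWV := (hT2 W hW).1
    have hUW : U ⊓ W ≤ V := inf_le_left.trans hUV
    refine ⟨U ⊓ W, le_inf hAU (hAW W hW), inf_le_left, le_trans ?_ h⟩
    have := hfd _ hUW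
    have := hfd W hWV
    unfold dl'
    have h1 : Cardinal.toNat (tr (((U ⊓ W : Submodule ℚ ℂ) : Set ℂ) ∪
        Complex.exp '' ((U ⊓ W : Submodule ℚ ℂ) : Set ℂ))) ≤
        Cardinal.toNat (tr (((U ⊓ W : Submodule ℚ ℂ) : Set ℂ) ∪ Complex.exp '' (W : Set ℂ))) := by
      apply Cardinal.toNat_le_toNat
      · exact tr_mono (Set.union_subset_union_right _ (Set.image_mono inf_le_right))
      · rw [tr_eq]
        exact trF_lt_aleph0 _ _ _
    omega

end Pool.Agent.TH813.Uni
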