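import Mathlib
import Pool.Agent.TH813.Uni5
import Pool.Agent.TH813.EKFin

/-!
# The numbers attached to spaces, and their transcendence degree
-/

set_option autoImplicit false

open Finset Module
open scoped PeriodPair ComplexConjugate

noncomputable section

namespace Pool.Agent.TH813.Ell

open H667R3 Pool.Agent.W245.EB
open Pool.Agent.W252 Pool.Agent.W669.Gel
open Pool.Agent.TH813.Core Pool.Agent.TH813.Rank
open Pool.Agent.TH813.Rel (DF MK mem_cl subset_cl kills_clF rk_le_of_subset_cl trF clF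
  cl_of_base)
open Pool.Agent.TH813.Uni (trF_le_iff tr tr_add tr_eq tr_mono tr_empty)

variable {L : PeriodPair} {κ : ℂ} {F : IntermediateField ℚ ℂ} {s n : ℕ}

/-- Legendre's relation, up to a rational factor -/
theorem legendre (L : PeriodPair) : ∃ n : ℤ, n ≠ 0 ∧
    L.ω₁ * eta L L.ω₂ - L.ω₂ * eta L L.ω₁ = n * (2 * Real.pi * Complex.I) := by
  obtain ⟨C₁, hC₁, h₁⟩ := sigma_add_coe L L.ω₁_mem_lattice
  obtain ⟨C₂, hC₂, h₂⟩ := sigma_add_coe L L.ω₂_mem_lattice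
  obtain ⟨z, hz⟩ : ∃ z, z ∉ L.lattice := by
    obtain ⟨z, hz, -⟩ := exists_wp_eq L 0
    exact ⟨z, hz⟩
  have hs := sigma_ne_zero L hz
  have e1 := h₁ (z + L.ω₂)
  rw [h₂ z] at e1
  have e2 := h₂ (z + L.ω₁)
  rw [h₁ z] at e2
  have e3 : z + L.ω₂ + L.ω₁ = z + L.ω₁ + L.ω₂ := by ring
  rw [e3, e2] at e1
  have e4 : Complex.exp (eta L L.ω₂ * (z + L.ω₁)) * Complex.exp (eta L L.ω₁ * z) =
      Complex.exp (eta L L.ω₁ * (z + L.ω₂)) * Complex.exp (eta L L.ω₂ * z) := by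
    apply mul_left_cancel₀ (mul_ne_zero (mul_ne_zero hC₁ hC₂) hs)
    linear_combination e1
  rw [← Complex.exp_add, ← Complex.exp_add, Complex.exp_eq_exp_iff_exists_int] at e4
  obtain ⟨n, hn⟩ := e4
  have e5 : L.ω₁ * eta L L.ω₂ - L.ω₂ * eta L L.ω₁ = n * (2 * Real.pi * Complex.I) := by
    linear_combination hn
  refine ⟨n, ?_, e5⟩
  rintro rfl
  apply leg_ne L
  rw [e5, Int.cast_zero, zero_mul]

/-- the numbers attached to four sets -/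
def NS (L : PeriodPair) (X₁ W₁ X₂ W₂ : Set ℂ) : Set ℂ :=
  (X₁ ∪ Complex.exp '' W₁) ∪ (X₂ ∪ (zeta L '' (X₂ \ (L.lattice : Set ℂ)) ∪
    ℘[L] '' (W₂ \ (L.lattice : Set ℂ))))

theorem exists_div_notMem {x : ℂ} (hx : x ≠ 0) :
    ∃ N : ℕ, 0 < N ∧ ((N : ℚ)⁻¹ : ℚ) • x ∉ L.lattice := by
  by_cases h : x ∈ L.lattice
  · obtain ⟨a, b, hab⟩ := PeriodPair.mem_lattice.1 h
    refine ⟨a.natAbs + b.natAbs + 1, by omega, fun hN => ?_⟩
    obtain ⟨c, d, hcd⟩ := PeriodPair.mem_lattice.1 hN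
    set N : ℕ := a.natAbs + b.natAbs + 1 with hNdef
    have hN0 : (N : ℂ) ≠ 0 := by exact_mod_cast (by omega : N ≠ 0)
    rw [Rat.smul_def] at hcd
    have h1 : ((N * c - a : ℤ) : ℂ) * L.ω₁ + ((N * d - b : ℤ) : ℂ) * L.ω₂ = 0 := by
      push_cast at hcd ⊢
      have h2 : (N : ℂ) * ((c : ℂ) * L.ω₁ + d * L.ω₂) = x := by
        rw [hcd]
        field_simp
      rw [← hab] at h2
      linear_combination h2
    obtain ⟨h3, h4⟩ := ω_indep L h1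
    have h5 : (N : ℤ) ∣ a := ⟨c, by omega⟩
    have h6 : (N : ℤ) ∣ b := ⟨d, by omega⟩
    have h7 : a = 0 := Int.eq_zero_of_abs_lt_dvd h5 (by
      rw [Int.abs_eq_natAbs]
      omega)
    have h8 : b = 0 := Int.eq_zero_of_abs_lt_dvd h6 (by
      rw [Int.abs_eq_natAbs]
      omega)
    apply hx
    rw [← hab, h7, h8]
    simp
  · exact ⟨1, one_pos, by simpa using h⟩

theorem om_of_killed {D : Derivation ℚ ℂ ℂ} {z : ℂ} (h : z ∉ L.lattice → D (℘[L] z) = 0) :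
    om L D z = 0 := by
  by_cases hz : z ∈ L.lattice
  · exact om_of_mem L D hz
  · unfold om
    rw [h hz, zero_div]

theorem NS_iff {D : Derivation ℚ ℂ ℂ} (h2 : D L.g₂ = 0) (h3 : D L.g₃ = 0) (X₁ W₁ : Set ℂ)
    (X₂ : Submodule ℚ ℂ) (W₂ : Set ℂ) (h : (X₂ : Set ℂ) ⊆ W₂) :
    (∀ x ∈ NS L X₁ W₁ (X₂ : Set ℂ) W₂, D x = 0) ↔ ∀ x ∈ SM L X₁ W₁ (X₂ : Set ℂ) W₂, D x = 0 := by
  constructor
  · intro hD
    have hom : ∀ z ∈ W₂, om L D z = 0 := fun z hz => om_of_killed (fun hz' =>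
      hD _ (Or.inr (Or.inr (Or.inr ⟨z, ⟨hz, hz'⟩, rfl⟩))))
    have het : ∀ z ∈ X₂, z ∉ L.lattice → et L D z = 0 := by
      intro z hz hz'
      unfold et
      rw [hom z (h hz), mul_zero, add_zero, zt_of_notMem hz']
      exact hD _ (Or.inr (Or.inr (Or.inl ⟨z, ⟨hz, hz'⟩, rfl⟩)))
    rintro x (hx | (hx | (⟨w, hw, rfl⟩ | hx)))
    · exact hD x (Or.inl hx)
    · exact hD x (Or.inr (Or.inl hx))
    · by_cases hw0 : w = 0
      · rw [hw0, zt_zero, map_zero]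
      obtain ⟨N, hN, hN'⟩ := exists_div_notMem (L := L) hw0
      have h5 : et L D (((N : ℚ)⁻¹ : ℚ) • w) = 0 := het _ (X₂.smul_mem _ hw) hN'
      rw [← etL_apply D h2 h3, map_smul, etL_apply, smul_eq_zero] at h5
      refine zt_killed (hom w (h hw)) (h5.resolve_left ?_)
      exact inv_ne_zero (by exact_mod_cast hN.ne')
    · exact hD x (Or.inr (Or.inr (Or.inr hx)))
  · intro hD
    rintro x (hx | (hx | (⟨w, ⟨hw, hw'⟩, rfl⟩ | hx)))
    · exact hD x (Or.inl hx)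
    · exact hD x (Or.inr (Or.inl hx))
    · rw [← zt_of_notMem hw']
      exact hD _ (Or.inr (Or.inr (Or.inl ⟨w, hw, rfl⟩)))
    · exact hD x (Or.inr (Or.inr (Or.inr hx)))

/-- the invariants and the numbers attached to two pairs of spaces -/
def NK (L : PeriodPair) (X₁ W₁ : Submodule ℚ ℂ) (X₂ W₂ : Submodule (kL L) ℂ) : Set ℂ :=
  {L.g₂, L.g₃} ∪ NS L (X₁ : Set ℂ) (W₁ : Set ℂ) (X₂ : Set ℂ) (W₂ : Set ℂ)

theorem NK_iff {D : Derivation ℚ ℂ ℂ} (h2 : D L.g₂ = 0) (h3 : D L.g₃ = 0)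
    (X₁ W₁ : Submodule ℚ ℂ) {X₂ W₂ : Submodule (kL L) ℂ} (h : X₂ ≤ W₂) :
    (∀ x ∈ NK L X₁ W₁ X₂ W₂, D x = 0) ↔ ∀ x ∈ SK L X₁ W₁ X₂ W₂, D x = 0 := by
  have h1 := NS_iff h2 h3 (X₁ : Set ℂ) (W₁ : Set ℂ) (X₂.restrictScalars ℚ) (W₂ : Set ℂ) h
  constructor
  · intro hD
    exact h1.1 (fun x hx => hD x (Or.inr hx))
  · rintro hD x ((rfl | rfl) | hx)
    · exact h2
    · exact h3
    · exact h1.2 hD x hx

theorem cl_NK (h2 : L.g₂ ∈ F) (h3 : L.g₃ ∈ F) (X₁ W₁ : Submodule ℚ ℂ)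
    {X₂ W₂ : Submodule (kL L) ℂ} (h : X₂ ≤ W₂) :
    (MK F).closure (NK L X₁ W₁ X₂ W₂) = (MK F).closure (SK L X₁ W₁ X₂ W₂) := by
  ext x
  rw [mem_cl_iff, mem_cl_iff]
  refine forall_congr' (fun D => forall_congr' (fun hF => ?_))
  rw [NK_iff (hF _ h2) (hF _ h3) X₁ W₁ h]

theorem trF_congr {S T : Set ℂ} (h : (MK F).closure S = (MK F).closure T)
    (hT : trF F T < Cardinal.aleph0) : trF F S = trF F T := by
  obtain ⟨t, ht⟩ := Cardinal.lt_aleph0.1 hT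
  have hrk : (MK F).eRk S = (MK F).eRk T := by
    rw [← (MK F).eRk_closure_eq, h, (MK F).eRk_closure_eq]
  apply le_antisymm
  · rw [ht, trF_le_iff, hrk, ← trF_le_iff, ht]
  · have h1 : trF F S ≤ (t : Cardinal) := by
      rw [trF_le_iff, hrk, ← trF_le_iff, ht]
    obtain ⟨s, hs⟩ := Cardinal.lt_aleph0.1 (lt_of_le_of_lt h1 Cardinal.natCast_lt_aleph0)
    rw [hs, trF_le_iff, ← hrk, ← trF_le_iff, hs]

/-- the numbers killed by a derivation, for the elliptic part -/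
def ZK (hE : Eig L κ) (D : Derivation ℚ ℂ ℂ) (h2 : D L.g₂ = 0) (h3 : D L.g₃ = 0) :
    Submodule (kL L) ℂ where
  carrier := {x | D x = 0 ∧ om L D x = 0 ∧ et L D x = 0}
  add_mem' := by
    rintro a b ⟨ha, ha', ha''⟩ ⟨hb, hb', hb''⟩
    refine ⟨by rw [map_add, ha, hb, add_zero], by rw [om_add L D h2 h3, ha', hb', add_zero], ?_⟩
    rw [et_add L D h2 h3, ha'', hb'', add_zero]
  zero_mem' := ⟨map_zero D, om_zero D, et_zero D⟩
  smul_mem' := by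
    rintro c x ⟨hx, hx', hx''⟩
    have e1 : D ((c : ℂ) * x) = 0 := by
      rw [Derivation.leibniz, hx, der_kL D c.2, smul_zero, smul_zero, add_zero]
    have e2 : om L D ((c : ℂ) * x) = 0 := by
      rw [hE.om_mul D h2 h3 c c.2 x, hx', mul_zero]
    have e3 : xi L κ D ((c : ℂ) * x) = 0 := by
      rw [hE.xi_mul D h2 h3 c c.2 x]
      unfold xi
      rw [hx, hx', hx'', sub_zero, mul_zero, add_zero, mul_zero]
    unfold xi at e3
    rw [e1, e2, sub_zero, mul_zero, add_zero] at e3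
    exact ⟨e1, e2, e3⟩

theorem SK_lt (h2 : L.g₂ ∈ F) (h3 : L.g₃ ∈ F) (X₁ W₁ : Submodule ℚ ℂ)
    (X₂ W₂ : Submodule (kL L) ℂ) [FiniteDimensional ℚ X₁] [FiniteDimensional ℚ W₁]
    [FiniteDimensional (kL L) X₂] [FiniteDimensional (kL L) W₂] :
    trF F (SK L X₁ W₁ X₂ W₂) < Cardinal.aleph0 := by
  obtain ⟨κ, hE⟩ := exists_eig L
  let b₁ := finBasis ℚ ↥(X₁ ⊔ W₁)
  let b₂ := finBasis (kL L) ↥(X₂ ⊔ W₂)
  let t : Fin (finrank ℚ ↥(X₁ ⊔ W₁)) → ℂ := fun i => (b₁ i : ℂ)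
  let p : Fin (finrank (kL L) ↥(X₂ ⊔ W₂)) → ℂ := fun i => (b₂ i : ℂ)
  have hs₁ : ∀ x ∈ X₁ ⊔ W₁, x ∈ Submodule.span ℚ (Set.range t) := by
    intro x hx
    have h8 := congrArg (fun s : ↥(X₁ ⊔ W₁) => (s : ℂ)) (b₁.sum_repr ⟨x, hx⟩)
    simp only [Submodule.coe_sum, Submodule.coe_smul] at h8
    rw [← h8]
    exact Submodule.sum_mem _ (fun i _ => Submodule.smul_mem _ _ (Submodule.subset_span ⟨i, rfl⟩))
  have hs₂ : ∀ x ∈ X₂ ⊔ W₂, x ∈ Submodule.span (kL L) (Set.range p) := by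
    intro x hx
    have h8 := congrArg (fun s : ↥(X₂ ⊔ W₂) => (s : ℂ)) (b₂.sum_repr ⟨x, hx⟩)
    simp only [Submodule.coe_sum, Submodule.coe_smul] at h8
    rw [← h8]
    exact Submodule.sum_mem _ (fun i _ => Submodule.smul_mem _ _ (Submodule.subset_span ⟨i, rfl⟩))
  have hcl : SK L X₁ W₁ X₂ W₂ ⊆ (KM L F t p : Set ℂ) := by
    rintro x ((hx | ⟨w, hw, rfl⟩) | (hx | (⟨w, hw, rfl⟩ | ⟨w, ⟨hw, hwl⟩, rfl⟩))) D hF hD
    · have h4 : Submodule.span ℚ (Set.range t) ≤ LinearMap.ker (D : ℂ →ₗ[ℚ] ℂ) := by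
        rw [Submodule.span_le]
        rintro _ ⟨i, rfl⟩
        exact (cc_eq_zero.1 (cm_eq_zero.1 hD).1).1 i
      exact h4 (hs₁ x (Submodule.mem_sup_left hx))
    · have h4 : Submodule.span ℚ (Set.range t) ≤ LinearMap.ker (dl D) := by
        rw [Submodule.span_le]
        rintro _ ⟨i, rfl⟩
        exact (cc_eq_zero.1 (cm_eq_zero.1 hD).1).2 i
      exact dlog_eq_zero.1 (h4 (hs₁ w (Submodule.mem_sup_right hw)))
    · exact (span_killed hE h2 h3 hF hD (hs₂ x (Submodule.mem_sup_left hx))).1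
    · obtain ⟨-, h5, h6⟩ := span_killed hE h2 h3 hF hD (hs₂ w (Submodule.mem_sup_left hw))
      exact zt_killed h5 h6
    · exact (wp_killed (hF _ h2) (hF _ h3)
        (span_killed hE h2 h3 hF hD (hs₂ w (Submodule.mem_sup_right hw))).2.1 hwl).1
  have h1 : trF F (SK L X₁ W₁ X₂ W₂) ≤
      ((finrank ℂ (LinearMap.range (evM L F t p)) : ℕ) : Cardinal) := by
    rw [trF_le_iff]
    refine le_trans ((MK F).eRk_mono hcl) ?_
    rw [rk_KM h2 h3]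
  exact lt_of_le_of_lt h1 Cardinal.natCast_lt_aleph0

end Pool.Agent.TH813.Ell
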