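import Mathlib
import Pool.Agent.TH813.EKBase

/-!
# The predimension of exponentials and elliptic functions over a base
-/

set_option autoImplicit false

open Finset Module
open scoped PeriodPair ComplexConjugate

noncomputable section

namespace Pool.Agent.TH813.Ell

open H667R3 Pool.Agent.W245.EB
open Pool.Agent.W252 Pool.Agent.W669.Gel
open Pool.Agent.TH813.Core Pool.Agent.TH813.Rank
open Pool.Agent.TH813.Rel (DF MK mem_cl subset_cl kills_clF rk_le_of_subset_cl trF clF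
  cl_of_base)
open Pool.Agent.TH813.Uni (trF_le_iff tr tr_add tr_eq tr_mono tr_empty)

variable {L : PeriodPair} {κ : ℂ} {F : IntermediateField ℚ ℂ} {s n : ℕ}

theorem exists_rel_compl {k : Type*} [Field k] [Module k ℂ] {A X : Submodule k ℂ}
    [FiniteDimensional k X] (hA : A ≤ X) :
    ∃ Y ≤ X, Y ⊓ A = ⊥ ∧ finrank k Y + finrank k A = finrank k X := by
  obtain ⟨Y, hY⟩ := (A.comap X.subtype).exists_isCompl
  refine ⟨Y.map X.subtype, ?_, ?_, ?_⟩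
  · rintro _ ⟨y, -, rfl⟩
    exact y.2
  · rw [eq_bot_iff]
    rintro _ ⟨⟨y, hy, rfl⟩, hyA⟩
    have h4 : y ∈ (A.comap X.subtype) ⊓ Y := ⟨hyA, hy⟩
    rw [hY.inf_eq_bot, Submodule.mem_bot] at h4
    rw [h4, map_zero]
    exact Submodule.zero_mem _
  · have hfin : finrank k (A.comap X.subtype) + finrank k Y = finrank k X :=
      Submodule.finrank_add_eq_of_isCompl hY
    have h2 : finrank k (A.comap X.subtype) = finrank k A :=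
      (Submodule.comapSubtypeEquivOfLe hA).finrank_eq
    have h3 : finrank k (Y.map X.subtype) = finrank k Y :=
      (Submodule.equivMapOfInjective X.subtype X.injective_subtype Y).finrank_eq.symm
    omega

/-- a complement with a basis -/
theorem exists_compl {k : Type*} [Field k] [Module k ℂ] {A X X' : Submodule k ℂ}
    [FiniteDimensional k X'] (hA : A ≤ X') (hX : X ≤ X') (hXA : X ⊓ A = ⊥) :
    ∃ (d : ℕ) (y : Fin d → ℂ), (∀ i, y i ∈ X') ∧ finrank k X + finrank k A + d = finrank k X' ∧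
      X' ≤ X ⊔ A ⊔ Submodule.span k (Set.range y) := by
  classical
  have : FiniteDimensional k X := Submodule.finiteDimensional_of_le hX
  have : FiniteDimensional k A := Submodule.finiteDimensional_of_le hA
  obtain ⟨Y, hY⟩ := ((X ⊔ A).comap X'.subtype).exists_isCompl
  let b := finBasis k Y
  have hfin : finrank k ((X ⊔ A).comap X'.subtype) + finrank k Y = finrank k X' :=
    Submodule.finrank_add_eq_of_isCompl hY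
  have hle : X ⊔ A ≤ X' := sup_le hX hA
  have h1 : finrank k ((X ⊔ A).comap X'.subtype) = finrank k ↥(X ⊔ A) :=
    (Submodule.comapSubtypeEquivOfLe hle).finrank_eq
  have h2 : finrank k ↥(X ⊔ A) = finrank k X + finrank k A := by
    have := Submodule.finrank_sup_add_finrank_inf_eq X A
    rw [hXA, finrank_bot, add_zero] at this
    exact this
  refine ⟨finrank k Y, fun i => ((b i : X') : ℂ), fun i => (b i : X').2, by omega, ?_⟩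
  intro x hx
  have h3 : (⟨x, hx⟩ : X') ∈ (X ⊔ A).comap X'.subtype ⊔ Y := by
    rw [hY.sup_eq_top]
    exact Submodule.mem_top
  obtain ⟨p, hp, q, hq, hpq⟩ := Submodule.mem_sup.1 h3
  have h4 : x = (p : ℂ) + (q : ℂ) := (congrArg Subtype.val hpq).symm
  rw [h4]
  refine Submodule.add_mem_sup hp ?_
  have h8 := congrArg (fun s : Y => ((s : X') : ℂ)) (b.sum_repr ⟨q, hq⟩)
  simp only [Submodule.coe_sum, Submodule.coe_smul] at h8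
  rw [← h8]
  exact Submodule.sum_mem _ (fun i _ => Submodule.smul_mem _ _ (Submodule.subset_span ⟨i, rfl⟩))

theorem encard_range_le {d : ℕ} (y : Fin d → ℂ) : (Set.range y).encard ≤ (d : ℕ∞) := by
  rw [← Set.image_univ]
  refine (Set.encard_image_le y Set.univ).trans ?_
  rw [Set.encard_univ, ENat.card_eq_coe_fintype_card, Fintype.card_fin]

/-- enlarging spaces by independent elements -/
theorem extK (h2 : L.g₂ ∈ F) (h3 : L.g₃ ∈ F) {A₁ X₁ X₁' W₁ : Submodule ℚ ℂ}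
    {A₂ X₂ X₂' W₂ : Submodule (kL L) ℂ} [FiniteDimensional ℚ X₁'] [FiniteDimensional (kL L) X₂']
    (hA₁ : ∀ D ∈ DF F, ∀ a ∈ A₁, D a = 0)
    (hA₂ : ∀ D ∈ DF F, ∀ a ∈ A₂, D a = 0 ∧ om L D a = 0 ∧ et L D a = 0)
    (hAX₁ : A₁ ≤ X₁') (hX₁ : X₁ ≤ X₁') (hXA₁ : X₁ ⊓ A₁ = ⊥)
    (hAX₂ : A₂ ≤ X₂') (hX₂ : X₂ ≤ X₂') (hXA₂ : X₂ ⊓ A₂ = ⊥) (hW : X₂' ≤ W₂) {t : ℕ}
    (ht : trF F (SK L X₁ W₁ X₂ W₂) = t) :
    trF F (SK L X₁' W₁ X₂' W₂) + ((finrank ℚ X₁ + finrank ℚ A₁ +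
      2 * (finrank (kL L) X₂ + finrank (kL L) A₂) : ℕ) : Cardinal) ≤
      ((t + finrank ℚ X₁' + 2 * finrank (kL L) X₂' : ℕ) : Cardinal) := by
  classical
  obtain ⟨κ, hE⟩ := exists_eig L
  obtain ⟨d₁, y₁, hy₁, hd₁, hs₁⟩ := exists_compl hAX₁ hX₁ hXA₁
  obtain ⟨d₂, y₂, hy₂, hd₂, hs₂⟩ := exists_compl hAX₂ hX₂ hXA₂
  have hsub : SK L X₁' W₁ X₂' W₂ ⊆ (MK F).closure (SK L X₁ W₁ X₂ W₂ ∪
      (Set.range y₁ ∪ (Set.range y₂ ∪ Set.range (fun i => zt L (y₂ i))))) := by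
    intro x hx
    rw [mem_cl_iff]
    intro D hF hD
    have e2 := hF _ h2
    have e3 := hF _ h3
    have hD' : ∀ x ∈ SK L X₁ W₁ X₂ W₂, D x = 0 := fun x hx => hD x (Or.inl hx)
    have hom : ∀ z ∈ W₂, om L D z = 0 := fun z hz => om_of_killed (fun hz' =>
      hD' _ (Or.inr (Or.inr (Or.inr ⟨z, ⟨hz, hz'⟩, rfl⟩))))
    have h4 : X₁' ≤ LinearMap.ker (D : ℂ →ₗ[ℚ] ℂ) := by
      refine hs₁.trans (sup_le (sup_le ?_ ?_) ?_)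
      · exact fun z hz => hD' z (Or.inl (Or.inl hz))
      · exact fun z hz => hA₁ D hF z hz
      · rw [Submodule.span_le]
        rintro _ ⟨i, rfl⟩
        exact hD _ (Or.inr (Or.inl ⟨i, rfl⟩))
    have h5 : X₂' ≤ ZK hE D e2 e3 := by
      refine hs₂.trans (sup_le (sup_le ?_ ?_) ?_)
      · intro z hz
        have h6 := hom z (hW (hX₂ hz))
        refine ⟨hD' z (Or.inr (Or.inl hz)), h6, ?_⟩
        unfold et
        rw [h6, mul_zero, add_zero]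
        exact hD' _ (Or.inr (Or.inr (Or.inl ⟨z, hz, rfl⟩)))
      · exact fun z hz => hA₂ D hF z hz
      · rw [Submodule.span_le]
        rintro _ ⟨i, rfl⟩
        have h6 := hom (y₂ i) (hW (hy₂ i))
        refine ⟨hD _ (Or.inr (Or.inr (Or.inl ⟨i, rfl⟩))), h6, ?_⟩
        unfold et
        rw [h6, mul_zero, add_zero]
        exact hD _ (Or.inr (Or.inr (Or.inr ⟨i, rfl⟩)))
    rcases hx with (hx | ⟨w, hw, rfl⟩) | (hx | (⟨w, hw, rfl⟩ | ⟨w, ⟨hw, hwl⟩, rfl⟩))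
    · exact h4 hx
    · exact hD' _ (Or.inl (Or.inr ⟨w, hw, rfl⟩))
    · exact (h5 hx).1
    · exact zt_killed (h5 hw).2.1 (h5 hw).2.2
    · exact hD' _ (Or.inr (Or.inr (Or.inr ⟨w, ⟨hw, hwl⟩, rfl⟩)))
  have h6 : (MK F).eRk (SK L X₁' W₁ X₂' W₂) ≤ ((t + (d₁ + (d₂ + d₂)) : ℕ) : ℕ∞) := by
    refine (rk_le_of_subset_cl hsub).trans ?_
    refine ((MK F).eRk_union_le_eRk_add_eRk _ _).trans ?_
    rw [Nat.cast_add]
    refine add_le_add ((trF_le_iff F _ t).1 ht.le) ?_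
    refine ((MK F).eRk_le_encard _).trans ?_
    refine (Set.encard_union_le _ _).trans ?_
    rw [Nat.cast_add]
    refine add_le_add (encard_range_le y₁) ?_
    refine (Set.encard_union_le _ _).trans ?_
    rw [Nat.cast_add]
    exact add_le_add (encard_range_le y₂) (encard_range_le _)
  have h7 := (trF_le_iff F _ _).2 h6
  refine (add_le_add_left h7 _).trans ?_
  norm_cast
  omega

theorem tr_lt_of_finite {S : Set ℂ} (hS : S.Finite) : tr S < Cardinal.aleph0 := by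
  rw [tr_eq]
  have h1 : trF (IntermediateField.adjoin ℚ (∅ : Set ℂ)) S ≤ (S.encard.toNat : Cardinal) := by
    rw [trF_le_iff]
    refine ((MK _).eRk_le_encard _).trans ?_
    rw [ENat.natCast_toNat]
    exact (Set.encard_lt_top_iff.2 hS).ne
  exact lt_of_le_of_lt h1 Cardinal.natCast_lt_aleph0

/-- the field of the invariants -/
def inv0 (L : PeriodPair) : IntermediateField ℚ ℂ := IntermediateField.adjoin ℚ {L.g₂, L.g₃}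

theorem g2_mem (L : PeriodPair) : L.g₂ ∈ inv0 L :=
  IntermediateField.subset_adjoin ℚ _ (Or.inl rfl)

theorem g3_mem (L : PeriodPair) : L.g₃ ∈ inv0 L :=
  IntermediateField.subset_adjoin ℚ _ (Or.inr rfl)

theorem tr_NK (X₁ W₁ : Submodule ℚ ℂ) {X₂ W₂ : Submodule (kL L) ℂ} (h : X₂ ≤ W₂)
    [FiniteDimensional ℚ X₁] [FiniteDimensional ℚ W₁] [FiniteDimensional (kL L) W₂] :
    tr (NK L X₁ W₁ X₂ W₂) = tr {L.g₂, L.g₃} + trF (inv0 L) (SK L X₁ W₁ X₂ W₂) := by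
  have : FiniteDimensional (kL L) X₂ := Submodule.finiteDimensional_of_le h
  have h1 := tr_add {L.g₂, L.g₃} (NK L X₁ W₁ X₂ W₂)
  rw [Set.union_eq_self_of_subset_left (show ({L.g₂, L.g₃} : Set ℂ) ⊆ NK L X₁ W₁ X₂ W₂ from
    Set.subset_union_left)] at h1
  rw [h1]
  congr 1
  exact trF_congr (cl_NK (g2_mem L) (g3_mem L) X₁ W₁ h)
    (SK_lt (g2_mem L) (g3_mem L) X₁ W₁ X₂ W₂)

theorem tr_NK_lt (X₁ W₁ : Submodule ℚ ℂ) {X₂ W₂ : Submodule (kL L) ℂ} (h : X₂ ≤ W₂)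
    [FiniteDimensional ℚ X₁] [FiniteDimensional ℚ W₁] [FiniteDimensional (kL L) W₂] :
    tr (NK L X₁ W₁ X₂ W₂) < Cardinal.aleph0 := by
  have : FiniteDimensional (kL L) X₂ := Submodule.finiteDimensional_of_le h
  rw [tr_NK X₁ W₁ h]
  exact Cardinal.add_lt_aleph0 (tr_lt_of_finite (Set.toFinite _))
    (SK_lt (g2_mem L) (g3_mem L) X₁ W₁ X₂ W₂)

/-- the field generated by the numbers of a pair of spaces -/
def fldK (L : PeriodPair) (A₁ : Submodule ℚ ℂ) (A₂ : Submodule (kL L) ℂ) :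
    IntermediateField ℚ ℂ := IntermediateField.adjoin ℚ (NK L A₁ A₁ A₂ A₂)

theorem NK_mono {X₁ W₁ X₁' W₁' : Submodule ℚ ℂ} {X₂ W₂ X₂' W₂' : Submodule (kL L) ℂ}
    (h1 : X₁ ≤ X₁') (h2 : W₁ ≤ W₁') (h3 : X₂ ≤ X₂') (h4 : W₂ ≤ W₂') :
    NK L X₁ W₁ X₂ W₂ ⊆ NK L X₁' W₁' X₂' W₂' :=
  Set.union_subset_union_right _ (Set.union_subset_union (Set.union_subset_union h1
    (Set.image_mono h2)) (Set.union_subset_union h3 (Set.union_subset_union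
      (Set.image_mono (Set.sdiff_subset_sdiff_left h3))
      (Set.image_mono (Set.sdiff_subset_sdiff_left h4)))))

theorem g2_memA (A₁ : Submodule ℚ ℂ) (A₂ : Submodule (kL L) ℂ) : L.g₂ ∈ fldK L A₁ A₂ :=
  IntermediateField.subset_adjoin ℚ _ (Or.inl (Or.inl rfl))

theorem g3_memA (A₁ : Submodule ℚ ℂ) (A₂ : Submodule (kL L) ℂ) : L.g₃ ∈ fldK L A₁ A₂ :=
  IntermediateField.subset_adjoin ℚ _ (Or.inl (Or.inr rfl))

theorem tr_relK {A₁ X₁ W₁ : Submodule ℚ ℂ} {A₂ X₂ W₂ : Submodule (kL L) ℂ}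
    (h1 : A₁ ≤ X₁) (h2 : A₁ ≤ W₁) (h3 : A₂ ≤ X₂) (h4 : A₂ ≤ W₂) (h : X₂ ≤ W₂)
    [FiniteDimensional ℚ X₁] [FiniteDimensional ℚ W₁] [FiniteDimensional (kL L) W₂] :
    tr (NK L X₁ W₁ X₂ W₂) = tr (NK L A₁ A₁ A₂ A₂) +
      trF (fldK L A₁ A₂) (SK L X₁ W₁ X₂ W₂) := by
  have : FiniteDimensional (kL L) X₂ := Submodule.finiteDimensional_of_le h
  have h5 := tr_add (NK L A₁ A₁ A₂ A₂) (NK L X₁ W₁ X₂ W₂)
  rw [Set.union_eq_self_of_subset_left (NK_mono h1 h2 h3 h4)] at h5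
  rw [h5]
  congr 1
  exact trF_congr (cl_NK (g2_memA A₁ A₂) (g3_memA A₁ A₂) X₁ W₁ h)
    (SK_lt (g2_memA A₁ A₂) (g3_memA A₁ A₂) X₁ W₁ X₂ W₂)

/-- the predimension -/
def dK (L : PeriodPair) (X₁ W₁ : Submodule ℚ ℂ) (X₂ W₂ : Submodule (kL L) ℂ) : ℤ :=
  (Cardinal.toNat (tr (NK L X₁ W₁ X₂ W₂)) : ℤ) - (finrank ℚ X₁ : ℤ) -
    2 * (finrank (kL L) X₂ : ℤ)

/-- the numbers of the base are killed -/
theorem base_killed {A₁ : Submodule ℚ ℂ} {A₂ : Submodule (kL L) ℂ} {D : Derivation ℚ ℂ ℂ}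
    (hD : D ∈ DF (fldK L A₁ A₂)) :
    (∀ a ∈ A₁, D a = 0) ∧ ∀ a ∈ A₂, D a = 0 ∧ om L D a = 0 ∧ et L D a = 0 := by
  have e2 := hD _ (g2_memA A₁ A₂)
  have e3 := hD _ (g3_memA A₁ A₂)
  have h1 : ∀ x ∈ NK L A₁ A₁ A₂ A₂, D x = 0 := fun x hx =>
    hD x (IntermediateField.subset_adjoin ℚ _ hx)
  have h2 := (NK_iff e2 e3 A₁ A₁ (le_refl A₂)).1 h1
  refine ⟨fun a ha => h2 a (Or.inl (Or.inl ha)), fun a ha => ?_⟩
  have hom : om L D a = 0 := om_of_killed (fun hz' =>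
      h2 _ (Or.inr (Or.inr (Or.inr ⟨a, ⟨ha, hz'⟩, rfl⟩))))
  refine ⟨h2 a (Or.inr (Or.inl ha)), hom, ?_⟩
  unfold et
  rw [hom, mul_zero, add_zero]
  exact h2 _ (Or.inr (Or.inr (Or.inl ⟨a, ha, rfl⟩)))

/-- the predimension decreases when the first spaces grow inside the second ones -/
theorem dK_anti {X₁ X₁' W₁ : Submodule ℚ ℂ} {X₂ X₂' W₂ : Submodule (kL L) ℂ}
    [FiniteDimensional ℚ X₁'] [FiniteDimensional ℚ W₁] [FiniteDimensional (kL L) W₂]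
    (h1 : X₁ ≤ X₁') (h2 : X₂ ≤ X₂') (h3 : X₂' ≤ W₂) :
    dK L X₁' W₁ X₂' W₂ ≤ dK L X₁ W₁ X₂ W₂ := by
  have f1 : FiniteDimensional ℚ X₁ := Submodule.finiteDimensional_of_le h1
  have f2 : FiniteDimensional (kL L) X₂' := Submodule.finiteDimensional_of_le h3
  have f3 : FiniteDimensional (kL L) X₂ := Submodule.finiteDimensional_of_le h2
  obtain ⟨t, ht⟩ := Cardinal.lt_aleph0.1 (SK_lt (g2_mem L) (g3_mem L) X₁ W₁ X₂ W₂)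
  obtain ⟨t', ht'⟩ := Cardinal.lt_aleph0.1 (SK_lt (g2_mem L) (g3_mem L) X₁' W₁ X₂' W₂)
  obtain ⟨b, hb⟩ := Cardinal.lt_aleph0.1 (tr_lt_of_finite (S := {L.g₂, L.g₃}) (Set.toFinite _))
  have h4 := extK (F := inv0 L) (g2_mem L) (g3_mem L) (A₁ := ⊥) (A₂ := ⊥) (X₁ := X₁)
    (X₁' := X₁') (W₁ := W₁) (X₂ := X₂) (X₂' := X₂') (W₂ := W₂)
    (fun D _ a ha => by rw [(Submodule.mem_bot ℚ).1 ha, map_zero])
    (fun D _ a ha => by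
      rw [(Submodule.mem_bot _).1 ha]
      exact ⟨map_zero D, om_zero D, et_zero D⟩) bot_le h1 (inf_bot_eq _) bot_le h2 (inf_bot_eq _)
      h3 ht
  rw [ht'] at h4
  have e1 := tr_NK X₁ W₁ (h2.trans h3)
  have e2 := tr_NK X₁' W₁ h3
  rw [ht, hb] at e1
  rw [ht', hb] at e2
  unfold dK
  rw [e1, e2, ← Nat.cast_add, ← Nat.cast_add, Cardinal.toNat_natCast, Cardinal.toNat_natCast]
  rw [finrank_bot, finrank_bot] at h4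
  have h5 : t' + (finrank ℚ X₁ + 0 + 2 * (finrank (kL L) X₂ + 0)) ≤
      t + finrank ℚ X₁' + 2 * finrank (kL L) X₂' := by exact_mod_cast h4
  push_cast
  omega

theorem dK_mono {X₁ W₁ W₁' : Submodule ℚ ℂ} {X₂ W₂ W₂' : Submodule (kL L) ℂ}
    [FiniteDimensional ℚ X₁] [FiniteDimensional ℚ W₁'] [FiniteDimensional (kL L) W₂']
    (h1 : W₁ ≤ W₁') (h2 : W₂ ≤ W₂') (h3 : X₂ ≤ W₂) :
    dK L X₁ W₁ X₂ W₂ ≤ dK L X₁ W₁' X₂ W₂' := by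
  unfold dK
  have h4 : Cardinal.toNat (tr (NK L X₁ W₁ X₂ W₂)) ≤ Cardinal.toNat (tr (NK L X₁ W₁' X₂ W₂')) :=
    Cardinal.toNat_le_toNat (tr_mono (NK_mono le_rfl h1 le_rfl h2))
      (tr_NK_lt X₁ W₁' (h3.trans h2))
  omega

/-- The minima of the predimension over a base. -/
theorem relK (r : ℕ) : ∃ B : ℕ, ∀ (L : PeriodPair)
    (A₁ V₁ : Submodule ℚ ℂ) (A₂ V₂ : Submodule (kL L) ℂ),
    FiniteDimensional ℚ V₁ → FiniteDimensional (kL L) V₂ → finrank ℚ V₁ ≤ r →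
    finrank (kL L) V₂ ≤ r → A₁ ≤ V₁ → A₂ ≤ V₂ →
    ∃ T : Finset (Submodule ℚ ℂ × Submodule (kL L) ℂ), T.card ≤ B ∧
      (∀ W ∈ T, A₁ ≤ W.1 ∧ W.1 ≤ V₁ ∧ A₂ ≤ W.2 ∧ W.2 ≤ V₂ ∧
        dK L W.1 W.1 W.2 W.2 < dK L A₁ A₁ A₂ A₂) ∧
      ∀ U₁ U₂, A₁ ≤ U₁ → U₁ ≤ V₁ → A₂ ≤ U₂ → U₂ ≤ V₂ → ∀ d : ℤ, d < dK L A₁ A₁ A₂ A₂ →
        ((∃ X₁ X₂, A₁ ≤ X₁ ∧ X₁ ≤ U₁ ∧ A₂ ≤ X₂ ∧ X₂ ≤ U₂ ∧ dK L X₁ X₁ X₂ X₂ ≤ d) ↔
          ∃ W ∈ T, dK L (U₁ ⊓ W.1) W.1 (U₂ ⊓ W.2) W.2 ≤ d) := by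
  classical
  obtain ⟨B, hB⟩ := mainA r
  refine ⟨B, fun L A₁ V₁ A₂ V₂ _ _ hr₁ hr₂ hAV₁ hAV₂ => ?_⟩
  set F := fldK L A₁ A₂ with hFdef
  obtain ⟨T, hT1, hT2, hT3⟩ := hB L F (g2_memA A₁ A₂) (g3_memA A₁ A₂) A₁ V₁ A₂ V₂ inferInstance
    inferInstance hr₁ hr₂
  have hfd₁ : ∀ X : Submodule ℚ ℂ, X ≤ V₁ → FiniteDimensional ℚ X :=
    fun X hX => Submodule.finiteDimensional_of_le hX
  have hfd₂ : ∀ X : Submodule (kL L) ℂ, X ≤ V₂ → FiniteDimensional (kL L) X :=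
    fun X hX => Submodule.finiteDimensional_of_le hX
  have hNA : ∀ x ∈ NK L A₁ A₁ A₂ A₂, ∀ E : IntermediateField F ℂ, IsAlgebraic E x := by
    intro x hx E
    exact isAlgebraic_algebraMap (A := ℂ) ((⟨x, E.algebraMap_mem
      (⟨x, IntermediateField.subset_adjoin ℚ _ hx⟩ : F)⟩ : E))
  have hAW₁ : ∀ W ∈ T, A₁ ≤ W.1 := by
    intro W hW a ha
    obtain ⟨X₁, -, X₂, -, -, -, -, h, -⟩ := (hT2 W hW).2.2
    exact h a (hAV₁ ha) (hNA _ (Or.inr (Or.inl (Or.inr ⟨a, ha, rfl⟩))) _)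
  have hAW₂ : ∀ W ∈ T, A₂ ≤ W.2 := by
    intro W hW a ha
    obtain ⟨X₁, -, X₂, -, -, -, -, -, h⟩ := (hT2 W hW).2.2
    exact h a (hAV₂ ha) (fun hal =>
      hNA _ (Or.inr (Or.inr (Or.inr (Or.inr ⟨a, ⟨ha, hal⟩, rfl⟩)))) _)
  have hcast : ∀ (X₁ W₁ : Submodule ℚ ℂ) (X₂ W₂ : Submodule (kL L) ℂ), X₁ ≤ V₁ → W₁ ≤ V₁ →
      X₂ ≤ V₂ → W₂ ≤ V₂ → ∃ t : ℕ, trF F (SK L X₁ W₁ X₂ W₂) = t := by
    intro X₁ W₁ X₂ W₂ h1 h2 h3 h4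
    have := hfd₁ X₁ h1
    have := hfd₁ W₁ h2
    have := hfd₂ X₂ h3
    have := hfd₂ W₂ h4
    exact Cardinal.lt_aleph0.1 (SK_lt (g2_memA A₁ A₂) (g3_memA A₁ A₂) X₁ W₁ X₂ W₂)
  have f₁ := hfd₁ A₁ hAV₁
  have f₂ := hfd₂ A₂ hAV₂
  -- the predimension over the base
  have hdl : ∀ (X₁ W₁ : Submodule ℚ ℂ) (X₂ W₂ : Submodule (kL L) ℂ), A₁ ≤ X₁ → A₁ ≤ W₁ →
      A₂ ≤ X₂ → A₂ ≤ W₂ → X₁ ≤ V₁ → W₁ ≤ V₁ → X₂ ≤ W₂ → W₂ ≤ V₂ → ∀ t : ℕ,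
      trF F (SK L X₁ W₁ X₂ W₂) = t →
        dK L X₁ W₁ X₂ W₂ = dK L A₁ A₁ A₂ A₂ + t + finrank ℚ A₁ + 2 * finrank (kL L) A₂ -
          finrank ℚ X₁ - 2 * finrank (kL L) X₂ := by
    intro X₁ W₁ X₂ W₂ h1 h2 h3 h4 h5 h6 h7 h8 t ht
    have := hfd₁ X₁ h5
    have := hfd₁ W₁ h6
    have := hfd₂ W₂ h8
    have e1 := tr_relK h1 h2 h3 h4 h7
    obtain ⟨a, ha⟩ := Cardinal.lt_aleph0.1 (tr_NK_lt A₁ A₁ (le_refl A₂))
    rw [← hFdef, ht, ha, ← Nat.cast_add] at e1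
    unfold dK
    rw [e1, ha, Cardinal.toNat_natCast, Cardinal.toNat_natCast]
    push_cast
    ring
  have hA₁ : ∀ D ∈ DF F, ∀ a ∈ A₁, D a = 0 := fun D hD => (base_killed hD).1
  have hA₂ : ∀ D ∈ DF F, ∀ a ∈ A₂, D a = 0 ∧ om L D a = 0 ∧ et L D a = 0 :=
    fun D hD => (base_killed hD).2
  refine ⟨T, hT1, fun W hW => ⟨hAW₁ W hW, (hT2 W hW).1, hAW₂ W hW, (hT2 W hW).2.1, ?_⟩,
    fun U₁ U₂ hAU₁ hUV₁ hAU₂ hUV₂ d hd => ⟨?_, ?_⟩⟩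
  · obtain ⟨hWV₁, hWV₂, X₁, hXW₁, X₂, hXW₂, hXA₁, hXA₂, hlt, -⟩ := hT2 W hW
    have := hfd₁ W.1 hWV₁
    have := hfd₂ W.2 hWV₂
    obtain ⟨t, ht⟩ := hcast X₁ W.1 X₂ W.2 (hXW₁.trans hWV₁) hWV₁ (hXW₂.trans hWV₂) hWV₂
    obtain ⟨s, hs⟩ := hcast W.1 W.1 W.2 W.2 hWV₁ hWV₁ hWV₂ hWV₂
    have h1 := extK (F := F) (g2_memA A₁ A₂) (g3_memA A₁ A₂) hA₁ hA₂ (hAW₁ W hW) hXW₁ hXA₁
      (hAW₂ W hW) hXW₂ hXA₂ le_rfl ht
    rw [hs] at h1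
    rw [ht] at hlt
    rw [hdl W.1 W.1 W.2 W.2 (hAW₁ W hW) (hAW₁ W hW) (hAW₂ W hW) (hAW₂ W hW) hWV₁ hWV₁ le_rfl
      hWV₂ s hs]
    have h2 : s + (finrank ℚ X₁ + finrank ℚ A₁ + 2 * (finrank (kL L) X₂ + finrank (kL L) A₂)) ≤
      t + finrank ℚ W.1 + 2 * finrank (kL L) W.2 := by exact_mod_cast h1
    have h3 : t < finrank ℚ X₁ + 2 * finrank (kL L) X₂ := by exact_mod_cast hlt
    omega
  · rintro ⟨X₁, X₂, hAX₁, hXU₁, hAX₂, hXU₂, hd1⟩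
    have hXV₁ := hXU₁.trans hUV₁
    have hXV₂ := hXU₂.trans hUV₂
    have := hfd₁ X₁ hXV₁
    have := hfd₂ X₂ hXV₂
    obtain ⟨s, hs⟩ := hcast X₁ X₁ X₂ X₂ hXV₁ hXV₁ hXV₂ hXV₂
    have h1 := hdl X₁ X₁ X₂ X₂ hAX₁ hAX₁ hAX₂ hAX₂ hXV₁ hXV₁ le_rfl hXV₂ s hs
    -- complements of the base
    obtain ⟨Y₁, hYX₁, hYA₁, hYd₁⟩ : ∃ Y₁ ≤ X₁, Y₁ ⊓ A₁ = ⊥ ∧
        finrank ℚ Y₁ + finrank ℚ A₁ = finrank ℚ X₁ := by
      obtain ⟨Y, hY1, hY2⟩ := exists_rel_compl hAX₁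
      exact ⟨Y, hY1, hY2⟩
    obtain ⟨Y₂, hYX₂, hYA₂, hYd₂⟩ : ∃ Y₂ ≤ X₂, Y₂ ⊓ A₂ = ⊥ ∧
        finrank (kL L) Y₂ + finrank (kL L) A₂ = finrank (kL L) X₂ := by
      obtain ⟨Y, hY1, hY2⟩ := exists_rel_compl hAX₂
      exact ⟨Y, hY1, hY2⟩
    have := hfd₁ Y₁ (hYX₁.trans hXV₁)
    have := hfd₂ Y₂ (hYX₂.trans hXV₂)
    let b₁ := finBasis ℚ Y₁
    let b₂ := finBasis (kL L) Y₂
    obtain ⟨m, hm⟩ : ∃ m : ℕ, dK L A₁ A₁ A₂ A₂ = d + m := by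
      obtain ⟨m, hm⟩ := Int.eq_ofNat_of_zero_le (sub_nonneg.2 hd.le)
      exact ⟨m, by omega⟩
    have hm0 : 0 < m := by omega
    obtain ⟨W, hW, Z₁, hZ₁, Z₂, hZ₂, hZA₁, hZA₂, h5⟩ := (hT3 U₁ hUV₁ U₂ hUV₂ m hm0).1
      ⟨finrank ℚ Y₁, finrank (kL L) Y₂, fun i => (b₁ i : ℂ), fun i => (b₂ i : ℂ),
      indep_of_inf_bot hYA₁ b₁, indep_of_inf_botK hYA₂ b₂, fun i => hXU₁ (hYX₁ (b₁ i).2),
      fun i => hXU₂ (hYX₂ (b₂ i).2), by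
        have h6 : trF F (EM L (fun i => (b₁ i : ℂ)) (fun i => (b₂ i : ℂ))) ≤ (s : Cardinal) := by
          rw [trF_le_iff]
          refine le_trans ((MK F).eRk_mono ?_) ((trF_le_iff _ _ s).1 hs.le)
          refine SM_mono ?_ ?_ ?_ ?_
          · rintro _ ⟨i, rfl⟩
            exact hYX₁ (b₁ i).2
          · rintro _ ⟨i, rfl⟩
            exact hYX₁ (b₁ i).2
          · rintro _ ⟨i, rfl⟩
            exact hYX₂ (b₂ i).2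
          · rintro _ ⟨i, rfl⟩
            exact hYX₂ (b₂ i).2
        refine (add_le_add_left h6 _).trans ?_
        norm_cast
        omega⟩
    refine ⟨W, hW, ?_⟩
    have hWV₁ := (hT2 W hW).1
    have hWV₂ := (hT2 W hW).2.1
    have hUW₁ : U₁ ⊓ W.1 ≤ V₁ := inf_le_left.trans hUV₁
    have hUW₂ : U₂ ⊓ W.2 ≤ V₂ := inf_le_left.trans hUV₂
    have := hfd₁ _ hUW₁
    have := hfd₂ _ hUW₂
    obtain ⟨t, ht⟩ := hcast Z₁ W.1 Z₂ W.2 (hZ₁.trans hUW₁) hWV₁ (hZ₂.trans hUW₂) hWV₂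
    obtain ⟨t', ht'⟩ := hcast (U₁ ⊓ W.1) W.1 (U₂ ⊓ W.2) W.2 hUW₁ hWV₁ hUW₂ hWV₂
    have h7 := extK (F := F) (g2_memA A₁ A₂) (g3_memA A₁ A₂) hA₁ hA₂
      (le_inf hAU₁ (hAW₁ W hW)) hZ₁ hZA₁ (le_inf hAU₂ (hAW₂ W hW)) hZ₂ hZA₂ inf_le_right ht
    rw [ht'] at h7
    rw [ht] at h5
    rw [hdl (U₁ ⊓ W.1) W.1 (U₂ ⊓ W.2) W.2 (le_inf hAU₁ (hAW₁ W hW)) (hAW₁ W hW)
      (le_inf hAU₂ (hAW₂ W hW)) (hAW₂ W hW) hUW₁ hWV₁ inf_le_right hWV₂ t' ht']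
    have h8 : t' + (finrank ℚ Z₁ + finrank ℚ A₁ + 2 * (finrank (kL L) Z₂ +
        finrank (kL L) A₂)) ≤ t + finrank ℚ ↥(U₁ ⊓ W.1) + 2 * finrank (kL L) ↥(U₂ ⊓ W.2) := by
      exact_mod_cast h7
    have h9 : t + m ≤ finrank ℚ Z₁ + 2 * finrank (kL L) Z₂ := by exact_mod_cast h5
    omega
  · rintro ⟨W, hW, h⟩
    have hWV₁ := (hT2 W hW).1
    have hWV₂ := (hT2 W hW).2.1
    have hUW₁ : U₁ ⊓ W.1 ≤ V₁ := inf_le_left.trans hUV₁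
    have := hfd₁ _ hUW₁
    have := hfd₁ _ hWV₁
    have := hfd₂ _ hWV₂
    exact ⟨U₁ ⊓ W.1, U₂ ⊓ W.2, le_inf hAU₁ (hAW₁ W hW), inf_le_left, le_inf hAU₂ (hAW₂ W hW),
      inf_le_left, le_trans (dK_mono inf_le_right inf_le_right le_rfl) h⟩

end Pool.Agent.TH813.Ell
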