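import Mathlib
import Pool.Agent.TH813.GCore

/-!
# Ranks and transcendence degrees for families of group types
-/

set_option autoImplicit false

open Finset Module

noncomputable section

namespace Pool.Agent.TH813.G

open Pool.Agent.W252 Pool.Agent.W669.Gel
open Pool.Agent.TH813.Rel (DF MK mem_cl subset_cl kills_clF rk_le_of_subset_cl trF bracket_mem)
open Pool.Agent.TH813.Ell (mem_cl_iff rank_of_ker rank_loss_gen)

variable {F : IntermediateField ℚ ℂ} {q : ℕ} {e : Fin q → ℕ} (T : Fam F e) {n : Fin q → ℕ}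

/-- families of spaces -/
abbrev Sp := ∀ c : Fin q, Submodule (T c).k ℂ

/-- the numbers attached to a tuple -/
def NT (z : Tu n) : Set ℂ := ⋃ c, ⋃ i, (T c).N (z c i)

/-- the numbers attached to two families of spaces -/
def NX (X W : Sp T) : Set ℂ := ⋃ c, ((⋃ x ∈ X c, (T c).N x) ∪ ⋃ w ∈ W c, (T c).W w)

theorem NT_fin (z : Tu n) : (NT T z).Finite :=
  Set.finite_iUnion (fun c => Set.finite_iUnion (fun _ => (T c).N_fin _))

theorem NX_mono {X W X' W' : Sp T} (h1 : X ≤ X') (h2 : W ≤ W') : NX T X W ⊆ NX T X' W' :=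
  Set.iUnion_mono (fun c => Set.union_subset_union
    (Set.biUnion_subset_biUnion_left (h1 c)) (Set.biUnion_subset_biUnion_left (h2 c)))

theorem vec_zero_iff {D : Derivation ℚ ℂ ℂ} (hF : D ∈ DF F) {z : Tu n} :
    vec T D z = 0 ↔ ∀ x ∈ NT T z, D x = 0 := by
  rw [vec_eq_zero]
  constructor
  · intro h x hx
    obtain ⟨c, hx⟩ := Set.mem_iUnion.1 hx
    obtain ⟨i, hx⟩ := Set.mem_iUnion.1 hx
    exact ((T c).N_iff' hF _).2 (h c i) x hx
  · intro h c i
    exact ((T c).N_iff' hF _).1 (fun x hx => h x (Set.mem_iUnion.2 ⟨c, Set.mem_iUnion.2 ⟨i, hx⟩⟩))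

theorem NX_iff {D : Derivation ℚ ℂ ℂ} (hF : D ∈ DF F) {X W : Sp T} :
    (∀ x ∈ NX T X W, D x = 0) ↔
      ∀ c, (∀ x ∈ X c, ∀ o, (T c).frm o D x = 0) ∧ ∀ w ∈ W c, (T c).lam 0 D w = 0 := by
  constructor
  · intro h c
    refine ⟨fun x hx => ((T c).N_iff' hF _).1 (fun y hy => h y ?_),
      fun w hw => ((T c).W_iff D hF _).1 (fun y hy => h y ?_)⟩
    · exact Set.mem_iUnion.2 ⟨c, Or.inl (Set.mem_biUnion hx hy)⟩
    · exact Set.mem_iUnion.2 ⟨c, Or.inr (Set.mem_biUnion hw hy)⟩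
  · intro h y hy
    obtain ⟨c, hy⟩ := Set.mem_iUnion.1 hy
    rcases hy with hy | hy
    · obtain ⟨x, hx, hy⟩ := Set.mem_iUnion₂.1 hy
      exact ((T c).N_iff' hF _).2 ((h c).1 x hx) y hy
    · obtain ⟨w, hw, hy⟩ := Set.mem_iUnion₂.1 hy
      exact ((T c).W_iff D hF _).2 ((h c).2 w hw) y hy

theorem rank_ev (z : Tu n) :
    ((finrank ℂ (LinearMap.range (ev T z)) : ℕ) : ℕ∞) = (MK F).eRk (NT T z) :=
  rank_of_ker _ (NT_fin T z) _ (fun D => vec_zero_iff T D.2)

theorem KG_eq (z : Tu n) : (KG T z : Set ℂ) = (MK F).closure (NT T z) := by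
  ext x
  rw [mem_cl_iff]
  constructor
  · intro h D hF hD
    exact h D hF ((vec_zero_iff T hF).2 hD)
  · intro h D hF hD
    exact h D hF ((vec_zero_iff T hF).1 hD)

theorem rk_KG (z : Tu n) :
    (MK F).eRk (KG T z : Set ℂ) = (finrank ℂ (LinearMap.range (ev T z)) : ℕ) := by
  rw [rank_ev, KG_eq, (MK F).eRk_closure_eq]

/-- the numbers killed by a derivation -/
def kil {D : Derivation ℚ ℂ ℂ} (hF : D ∈ DF F) (c : Fin q) : Submodule (T c).k ℂ where
  carrier := {x | ∀ o, (T c).frm o D x = 0}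
  add_mem' := by
    intro a b ha hb o
    rw [(T c).frm_add o hF, ha, hb, add_zero]
  zero_mem' := fun o => (T c).frm_zero o hF
  smul_mem' := by
    intro a x hx o
    rw [(T c).frm_smul o hF, hx, mul_zero]

/-- the points killed by a derivation -/
def omk {D : Derivation ℚ ℂ ℂ} (hF : D ∈ DF F) (c : Fin q) : Submodule (T c).k ℂ where
  carrier := {x | (T c).lam 0 D x = 0}
  add_mem' := by
    intro a b ha hb
    have h := (T c).frm_add (some 0) hF a b
    change (T c).lam 0 D (a + b) = (T c).lam 0 D a + (T c).lam 0 D b at h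
    change (T c).lam 0 D (a + b) = 0
    rw [h, ha, hb, add_zero]
  zero_mem' := (T c).frm_zero (some 0) hF
  smul_mem' := by
    intro a x hx
    have h := (T c).frm_smul (some 0) hF a x
    change (T c).lam 0 D (a • x) = _ * (T c).lam 0 D x at h
    change (T c).lam 0 D (a • x) = 0
    rw [h, hx, mul_zero]

theorem mem_kil {D : Derivation ℚ ℂ ℂ} {hF : D ∈ DF F} {c : Fin q} {x : ℂ} :
    x ∈ kil T hF c ↔ ∀ o, (T c).frm o D x = 0 := Iff.rfl

theorem mem_omk {D : Derivation ℚ ℂ ℂ} {hF : D ∈ DF F} {c : Fin q} {x : ℂ} :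
    x ∈ omk T hF c ↔ (T c).lam 0 D x = 0 := Iff.rfl

theorem span_le_kil {D : Derivation ℚ ℂ ℂ} (hF : D ∈ DF F) {z : Tu n} (h : vec T D z = 0)
    (c : Fin q) : Submodule.span (T c).k (Set.range (z c)) ≤ kil T hF c := by
  rw [Submodule.span_le]
  rintro _ ⟨i, rfl⟩
  exact (vec_eq_zero T).1 h c i

/-- the spans of a tuple -/
def spn (z : Tu n) : Sp T := fun c => Submodule.span (T c).k (Set.range (z c))

theorem NT_sub (z : Tu n) (X W : Sp T) (h : ∀ c i, z c i ∈ X c) : NT T z ⊆ NX T X W := by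
  intro x hx
  obtain ⟨c, hx⟩ := Set.mem_iUnion.1 hx
  obtain ⟨i, hx⟩ := Set.mem_iUnion.1 hx
  exact Set.mem_iUnion.2 ⟨c, Or.inl (Set.mem_biUnion (h c i) hx)⟩

/-- combinations of coordinates -/
def lmB {n' : Fin q → ℕ} (B : ∀ c, Matrix (Fin (n' c)) (Fin (n c)) (T c).k) :
    (Ix e n → ℂ) →ₗ[ℂ] (Ix e n' → ℂ) where
  toFun w := fun κ => ∑ l, algebraMap (T κ.1).k ℂ ((T κ.1).twf κ.2.2 (B κ.1 κ.2.1 l)) *
    w ⟨κ.1, l, κ.2.2⟩
  map_add' w w' := by
    funext κ
    simp [mul_add, sum_add_distrib]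
  map_smul' a w := by
    funext κ
    simp [mul_sum, mul_left_comm]

theorem lmB_ev {n' : Fin q → ℕ} (B : ∀ c, Matrix (Fin (n' c)) (Fin (n c)) (T c).k) (z : Tu n) :
    lmB T B ∘ₗ ev T z = ev T (fun c i => ∑ l, B c i l • z c l) := by
  ext D κ
  change ∑ l, algebraMap (T κ.1).k ℂ ((T κ.1).twf κ.2.2 (B κ.1 κ.2.1 l)) *
    (T κ.1).frm κ.2.2 D (z κ.1 l) = (T κ.1).frm κ.2.2 D (∑ l, B κ.1 κ.2.1 l • z κ.1 l)
  rw [(T κ.1).frm_sum κ.2.2 D.2]

theorem exists_mat {n' : Fin q → ℕ} (z : Tu n) (z' : Tu n')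
    (h : ∀ c i, z' c i ∈ Submodule.span (T c).k (Set.range (z c))) :
    ∃ B : ∀ c, Matrix (Fin (n' c)) (Fin (n c)) (T c).k,
      z' = fun c i => ∑ l, B c i l • z c l := by
  choose B hB using fun c i => (Submodule.mem_span_range_iff_exists_fun (T c).k).1 (h c i)
  exact ⟨fun c => Matrix.of (B c), funext (fun c => funext (fun i => (hB c i).symm))⟩

/-- the loss of rank -/
theorem loss {n' : Fin q → ℕ} {z : Tu n} {z' : Tu n'} (c₀ : Fin q)
    (Dj : Fin (e c₀ + 1) → Derivation ℚ ℂ ℂ) (hD : ∀ j, Dj j ∈ DF F)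
    {r : Fin (n c₀) → (T c₀).k} (hS : ∀ j, Sup T (Dj j) z c₀ j r) (hr : r ≠ 0)
    (h : ∀ c i, z' c i ∈ Submodule.span (T c).k (Set.range (z c)))
    (h₀ : ∀ i, ∃ a : Fin (n c₀) → (T c₀).k, ∑ l, a l * r l = 0 ∧ z' c₀ i = ∑ l, a l • z c₀ l) :
    finrank ℂ (LinearMap.range (ev T z')) + (e c₀ + 1) ≤
      finrank ℂ (LinearMap.range (ev T z)) := by
  classical
  obtain ⟨B, rfl⟩ := exists_mat T z z' h
  rw [← lmB_ev]
  refine rank_loss_gen (lmB T B) (ev T z) (k := e c₀ + 1) (fun j => vec T (Dj j) z) ?_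
    (fun j => ⟨⟨Dj j, hD j⟩, rfl⟩) (fun j => ?_)
  · rw [Fintype.linearIndependent_iff]
    intro a ha j
    obtain ⟨i, hi⟩ := Function.ne_iff.1 hr
    have h1 := congrFun ha ⟨c₀, i, some j⟩
    rw [Finset.sum_apply, sum_eq_single j] at h1
    · have h2 : vec T (Dj j) z ⟨c₀, i, some j⟩ =
          algebraMap (T c₀).k ℂ ((T c₀).tw j (r i)) := (hS j).1 i
      rw [Pi.smul_apply, h2, smul_eq_mul, Pi.zero_apply] at h1
      refine (mul_eq_zero.1 h1).resolve_right (fun h3 => hi ?_)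
      exact (map_eq_zero _).1 ((map_eq_zero _).1 h3)
    · intro j' _ hj'
      rw [Pi.smul_apply, (hS j').2 ⟨c₀, i, some j⟩ (fun h4 => hj' ?_), smul_zero]
      obtain ⟨-, h5⟩ := Sigma.mk.inj_iff.1 h4
      exact (Option.some.inj (eq_of_heq h5)).symm
    · intro h4; exact absurd (mem_univ j) h4
  · have h1 : lmB T B (vec T (Dj j) z) =
        vec T (Dj j) (fun c i => ∑ l, B c i l • z c l) :=
      LinearMap.congr_fun (lmB_ev T B z) ⟨Dj j, hD j⟩
    rw [h1]
    funext κ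
    obtain ⟨c, i, o⟩ := κ
    by_cases hκ : (⟨c, o⟩ : Σ c : Fin q, Option (Fin (e c + 1))) = ⟨c₀, some j⟩
    · obtain ⟨h5, h6⟩ := Sigma.mk.inj_iff.1 hκ
      subst h5
      have h7 : o = some j := eq_of_heq h6
      subst h7
      obtain ⟨a, ha, ha'⟩ := h₀ i
      change (T c).frm (some j) (Dj j) (∑ l, B c i l • z c l) = 0
      have h8 : (∑ l, B c i l • z c l) = ∑ l, a l • z c l := ha'
      rw [h8, (T c).frm_sum (some j) (hD j)]
      have h9 : ∑ l, algebraMap (T c).k ℂ ((T c).twf (some j) (a l)) *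
          (T c).frm (some j) (Dj j) (z c l) =
          algebraMap (T c).k ℂ ((T c).tw j (∑ l, a l * r l)) := by
        rw [map_sum, map_sum]
        refine sum_congr rfl (fun l _ => ?_)
        rw [map_mul, map_mul]
        congr 1
        exact (hS j).1 l
      rw [h9, ha, map_zero, map_zero]
    · change (T c).frm o (Dj j) (∑ l, B c i l • z c l) = 0
      rw [(T c).frm_sum o (hD j)]
      refine sum_eq_zero (fun l _ => ?_)
      have h9 : (T c).frm o (Dj j) (z c l) = 0 := (hS j).2 ⟨c, l, o⟩ hκ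
      rw [h9, mul_zero]

end Pool.Agent.TH813.G
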