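import Mathlib
import Pool.Agent.TH813.EllUni
import Pool.Agent.TH813.GRank

/-!
# Families of group types: a uniform bound for the number of the spaces attached to the failures
-/

set_option autoImplicit false

open Finset Module

noncomputable section

namespace Pool.Agent.TH813.G

open Pool.Agent.W252 Pool.Agent.W669.Gel
open Pool.Agent.TH813.Core Pool.Agent.TH813.Rank
open Pool.Agent.TH813.Rel (DF)
open Pool.Agent.TH813.Uni (unif EE' EE'_apply repr_EE')
open Pool.Agent.TH813.Ell (exists_pivots)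

variable {F : IntermediateField ℚ ℂ} {q : ℕ} {e : Fin q → ℕ} (T : Fam F e)
  (V : Fin q → Submodule ℚ ℂ)

/-- the values of the derivations over `F` at a tuple and at additional points -/
def Phi (n u : Fin q → ℕ) :
    (∀ c, (Fin (n c) ⊕ Fin (u c)) → V c) →ₗ[ℚ]
      (DF F →ₗ[ℂ] ((Ix e n ⊕ (Σ c, Fin (u c))) → ℂ)) where
  toFun y :=
    { toFun := fun D => Sum.elim
        (vec T (D : Derivation ℚ ℂ ℂ) (fun c i => (y c (Sum.inl i) : ℂ)))
        (fun κ => (T κ.1).lam 0 (D : Derivation ℚ ℂ ℂ) (y κ.1 (Sum.inr κ.2) : ℂ))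
      map_add' := fun D D' => by
        funext κ
        rcases κ with ⟨c, i, o⟩ | ⟨c, m⟩
        · exact (T c).frm_add_der o (D : Derivation ℚ ℂ ℂ) D' _
        · exact (T c).lam_add_der 0 (D : Derivation ℚ ℂ ℂ) D' _
      map_smul' := fun a D => by
        funext κ
        rcases κ with ⟨c, i, o⟩ | ⟨c, m⟩
        · exact (T c).frm_smul_der o a (D : Derivation ℚ ℂ ℂ) _
        · exact (T c).lam_smul_der 0 a (D : Derivation ℚ ℂ ℂ) _ }
  map_add' y y' := by
    ext D κ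
    rcases κ with ⟨c, i, o⟩ | ⟨c, m⟩
    · exact (T c).frm_add o D.2 _ _
    · exact (T c).frm_add (some 0) D.2 _ _
  map_smul' a y := by
    ext D κ
    rcases κ with ⟨c, i, o⟩ | ⟨c, m⟩
    · exact ((T c).frmL o D.2).map_smul a _
    · exact ((T c).frmL (some 0) D.2).map_smul a _

theorem Phi_apply {n u : Fin q → ℕ} (y : ∀ c, (Fin (n c) ⊕ Fin (u c)) → V c) (D : DF F) :
    Phi T V n u y D = Sum.elim
        (vec T (D : Derivation ℚ ℂ ℂ) (fun c i => (y c (Sum.inl i) : ℂ)))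
        (fun κ => (T κ.1).lam 0 (D : Derivation ℚ ℂ ℂ) (y κ.1 (Sum.inr κ.2) : ℂ)) := rfl

variable {n : Fin q → ℕ}

/-- The points of `V` whose image on the group is rational over the field attached to a
point. -/
def UG (z : Tu n) (c : Fin q) : Submodule ℚ ℂ where
  carrier := {v | v ∈ V c ∧ ∀ D ∈ DF F, vec T D z = 0 → (T c).lam 0 D v = 0}
  add_mem' := by
    rintro a b ⟨ha, ha'⟩ ⟨hb, hb'⟩
    exact ⟨(V c).add_mem ha hb, fun D hF hD => by
      rw [(T c).lam_add 0 D hF, ha' D hF hD, hb' D hF hD, add_zero]⟩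
  zero_mem' := ⟨(V c).zero_mem, fun D hF _ => (T c).frm_zero (some 0) hF⟩
  smul_mem' := by
    rintro a x ⟨hx, hx'⟩
    refine ⟨(V c).smul_mem a hx, fun D hF hD => ?_⟩
    have h := ((T c).frmL (some 0) hF).map_smul a x
    change (T c).lam 0 D (a • x) = a • (T c).lam 0 D x at h
    rw [h, hx' D hF hD, smul_zero]

/-- the condition on the tangent vectors -/
def TP (z : Tu n) : Prop :=
  ∀ (u : Fin q → ℕ) (w : Tu n) (v w' : Tu u),
    (∀ D ∈ DF F, vec T D z = 0 → ∀ c m, (T c).lam 0 D (v c m) = 0) →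
    (∀ D ∈ DF F, vec T D z = 0 → ∃ D' ∈ DF F, vec T D w = vec T D' z ∧
      ∀ c m, (T c).lam 0 D (w' c m) = (T c).lam 0 D' (v c m)) →
    ∀ D ∈ DF F, vec T D z = 0 → ∀ c m, (T c).lam 0 D (w' c m) = 0

/-- the tuples considered -/
structure Good (ρ : ℕ) (z : Tu n) : Prop where
  mem : ∀ c i, z c i ∈ V c
  tp : TP T z
  hr : finrank ℂ (LinearMap.range (ev T z)) = ρ

/-- The families of spaces with prescribed pivots. -/
def cls (n : Fin q → ℕ) (ρ : ℕ) {r : Fin q → ℕ} (b : ∀ c, Basis (Fin (r c)) ℚ (V c))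
    (u : Fin q → ℕ) (C : ∀ c, Fin (u c) → Fin (r c)) : Set (Fin q → Submodule ℚ ℂ) :=
  {U | ∃ z : Tu n, Good T V ρ z ∧ U = UG T V z ∧
    ∀ c, ∃ v : Fin (u c) → V c,
      (∀ i j, (b c).repr (v i) (C c j) = if i = j then 1 else 0) ∧ (∀ i, (v i : ℂ) ∈ U c) ∧
        ∀ y : V c, (y : ℂ) ∈ U c → y = ∑ a, (b c).repr y (C c a) • v a}

theorem rank_Phi {n u : Fin q → ℕ} {y : ∀ c, (Fin (n c) ⊕ Fin (u c)) → V c}
    (hy : ∀ D ∈ DF F, vec T D (fun c i => (y c (Sum.inl i) : ℂ)) = 0 →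
      ∀ c m, (T c).lam 0 D (y c (Sum.inr m) : ℂ) = 0) :
    finrank ℂ (LinearMap.range (Phi T V n u y)) =
      finrank ℂ (LinearMap.range (ev T (fun c i => (y c (Sum.inl i) : ℂ)))) := by
  apply finrank_range_eq
  ext D
  rw [LinearMap.mem_ker, LinearMap.mem_ker, Phi_apply, ev_apply]
  constructor
  · intro h
    funext κ
    exact congrFun h (Sum.inl κ)
  · intro h
    have h4 := hy D D.2 h
    funext κ
    rcases κ with κ | ⟨c, m⟩
    · exact congrFun h κ
    · exact h4 c m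

variable {V}

/-- coordinates -/
def EG {q : ℕ} {V : Fin q → Submodule ℚ ℂ} (n u : Fin q → ℕ) {r : Fin q → ℕ}
    (b : ∀ c, Basis (Fin (r c)) ℚ (V c)) :
    (∀ c, (Fin (n c) ⊕ Fin (u c)) → (Fin (r c) → ℚ)) →ₗ[ℚ]
      (∀ c, (Fin (n c) ⊕ Fin (u c)) → V c) :=
  LinearMap.pi (fun c => EE' (n c) (u c) (b c) ∘ₗ LinearMap.proj c)

/-- **Uniform bound for the number of the families of subspaces with prescribed pivots.** -/
theorem bound_cls (q : ℕ) (e n : Fin q → ℕ) (ρ : ℕ) (r u : Fin q → ℕ)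
    (C : ∀ c, Fin (u c) → Fin (r c)) :
    ∃ B : ℕ, ∀ (F : IntermediateField ℚ ℂ) (T : Fam F e)
      (V : Fin q → Submodule ℚ ℂ) (b : ∀ c, Basis (Fin (r c)) ℚ (V c)),
      (cls T V n ρ b u C).encard ≤ B := by
  classical
  let P : (Σ c, Fin (u c) × Fin (r c)) →
      Dual ℚ (∀ c, (Fin (n c) ⊕ Fin (u c)) → (Fin (r c) → ℚ)) := fun a =>
    LinearMap.proj a.2.2 ∘ₗ LinearMap.proj (Sum.inr a.2.1) ∘ₗ LinearMap.proj a.1
  let Q : (Σ c, Fin (u c) × Fin (u c)) →
      Dual ℚ (∀ c, (Fin (n c) ⊕ Fin (u c)) → (Fin (r c) → ℚ)) := fun a =>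
    LinearMap.proj (C a.1 a.2.2) ∘ₗ LinearMap.proj (Sum.inr a.2.1) ∘ₗ LinearMap.proj a.1
  obtain ⟨B, hB⟩ := unif (n := ρ)
    (M := ∀ c, (Fin (n c) ⊕ Fin (u c)) → (Fin (r c) → ℚ)) P Q
    (fun a => if a.2.1 = a.2.2 then 1 else 0)
  refine ⟨B, fun F T V b => ?_⟩
  let Y : Set (∀ c, (Fin (n c) ⊕ Fin (u c)) → (Fin (r c) → ℚ)) :=
    {y | ∃ (z : Tu n) (v : ∀ c, Fin (u c) → V c),
    (∀ c, (∀ i, (EE' (n c) (u c) (b c) (y c) (Sum.inl i) : ℂ) = z c i) ∧
      (∀ m, EE' (n c) (u c) (b c) (y c) (Sum.inr m) = v c m)) ∧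
    Good T V ρ z ∧
    ∀ c, ((∀ i j, (b c).repr (v c i) (C c j) = if i = j then 1 else 0) ∧
      (∀ i, (v c i : ℂ) ∈ UG T V z c) ∧
      ∀ y : V c, (y : ℂ) ∈ UG T V z c → y = ∑ a, (b c).repr y (C c a) • v c a)}
  have h1 := hB _ (GForms.F (Phi T V n u ∘ₗ EG n u b)) Y (by
    rintro y ⟨z, v, hyz, hz, hv⟩
    have hyz' : (fun c i => (EE' (n c) (u c) (b c) (y c) (Sum.inl i) : ℂ)) = z :=
      funext (fun c => funext (hyz c).1)
    have hEG : ∀ y c, EG n u b y c = EE' (n c) (u c) (b c) (y c) := fun y c => rfl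
    have hker : ∀ D ∈ DF F, vec T D z = 0 → ∀ c m, (T c).lam 0 D (v c m : ℂ) = 0 :=
      fun D hF hD c m => ((hv c).2.1 m).2 D hF hD
    have hrank : finrank ℂ (LinearMap.range ((Phi T V n u ∘ₗ EG n u b) y)) = ρ := by
      rw [LinearMap.comp_apply, rank_Phi T V (fun D hF hD => by
        simp only [hEG] at hD ⊢
        rw [hyz'] at hD
        intro c m
        rw [(hyz c).2]
        exact hker D hF hD c m)]
      change finrank ℂ (LinearMap.range (ev T
        (fun c i => (EE' (n c) (u c) (b c) (y c) (Sum.inl i) : ℂ)))) = ρ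
      rw [hyz']
      exact hz.hr
    refine ⟨fun a => GForms.forms_zero _ _ hrank.le a, ?_, fun w hw hQ => ?_⟩
    · intro a
      change y a.1 (Sum.inr a.2.1) (C a.1 a.2.2) = _
      rw [← repr_EE' (n a.1) (u a.1) (b a.1) (y a.1), (hyz a.1).2, (hv a.1).1]
    · have g1 := GForms.tangent _ hrank hw
      have g2 := hz.tp u (fun c i => (EE' (n c) (u c) (b c) (w c) (Sum.inl i) : ℂ))
        (fun c m => (v c m : ℂ)) (fun c m => (EE' (n c) (u c) (b c) (w c) (Sum.inr m) : ℂ))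
        (fun D hF hD c m => hker D hF hD c m) (by
          intro D hF hD
          obtain ⟨D', hD'⟩ := g1 ⟨D, hF⟩ (by
            rw [LinearMap.comp_apply, Phi_apply]
            simp only [hEG]
            rw [hyz']
            funext κ
            rcases κ with κ | ⟨c, m⟩
            · exact congrFun hD κ
            · change (T c).lam 0 D (EE' (n c) (u c) (b c) (y c) (Sum.inr m) : ℂ) = 0
              rw [(hyz c).2]
              exact hker D hF hD c m)
          rw [LinearMap.comp_apply, LinearMap.comp_apply, Phi_apply, Phi_apply] at hD'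
          simp only [hEG] at hD'
          rw [hyz'] at hD'
          refine ⟨D', D'.2, ?_, fun c m => ?_⟩
          · funext κ
            exact congrFun hD' (Sum.inl κ)
          · have := congrFun hD' (Sum.inr ⟨c, m⟩)
            change (T c).lam 0 D (EE' (n c) (u c) (b c) (w c) (Sum.inr m) : ℂ) =
              (T c).lam 0 D' (EE' (n c) (u c) (b c) (y c) (Sum.inr m) : ℂ) at this
            rw [(hyz c).2] at this
            exact this)
      rintro ⟨c, a⟩
      have g3 : ((EE' (n c) (u c) (b c) (w c) (Sum.inr a.1) : V c) : ℂ) ∈ UG T V z c :=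
        ⟨(EE' (n c) (u c) (b c) (w c) (Sum.inr a.1)).2, fun D hF hD => g2 D hF hD c a.1⟩
      have g4 := (hv c).2.2 _ g3
      have g5 : EE' (n c) (u c) (b c) (w c) (Sum.inr a.1) = 0 := by
        rw [g4]
        refine sum_eq_zero (fun l _ => ?_)
        have h6 : w c (Sum.inr a.1) (C c l) = 0 := hQ ⟨c, a.1, l⟩
        rw [repr_EE', h6, zero_smul]
      change w c (Sum.inr a.1) a.2 = 0
      rw [← repr_EE' (n c) (u c) (b c) (w c), g5, map_zero]
      rfl)
  let g : ((Σ c, Fin (u c) × Fin (r c)) → ℚ) → (Fin q → Submodule ℚ ℂ) := fun x c =>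
    Submodule.span ℚ (Set.range (fun i : Fin (u c) =>
        (((b c).equivFun.symm (fun l => x ⟨c, i, l⟩) : V c) : ℂ)))
  refine le_trans (Set.encard_le_encard (t := g '' ((fun y i => P i y) '' Y)) ?_)
    ((Set.encard_image_le _ _).trans h1)
  rintro U ⟨z, hz, rfl, hv⟩
  choose v hv1 hv2 hv3 using hv
  let y : ∀ c, (Fin (n c) ⊕ Fin (u c)) → (Fin (r c) → ℚ) := fun c =>
    Sum.elim (fun i => (b c).equivFun ⟨z c i, hz.mem c i⟩) (fun m => (b c).equivFun (v c m))
  have hy : y ∈ Y := by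
    refine ⟨z, v, fun c => ⟨fun i => ?_, fun m => ?_⟩, hz, fun c => ⟨hv1 c, hv2 c, hv3 c⟩⟩
    · rw [EE'_apply]
      change (((b c).equivFun.symm ((b c).equivFun ⟨z c i, hz.mem c i⟩) : V c) : ℂ) = z c i
      rw [LinearEquiv.symm_apply_apply]
    · rw [EE'_apply]
      change (b c).equivFun.symm ((b c).equivFun (v c m)) = v c m
      rw [LinearEquiv.symm_apply_apply]
  refine ⟨_, ⟨y, hy, rfl⟩, funext (fun c => ?_)⟩
  have e1 : ∀ i : Fin (u c), (((b c).equivFun.symm (fun l => (b c).equivFun (v c i) l) : V c) : ℂ)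
      = v c i := by
    intro i
    have : (fun l => (b c).equivFun (v c i) l) = (b c).equivFun (v c i) := rfl
    rw [this, LinearEquiv.symm_apply_apply]
  change Submodule.span ℚ (Set.range (fun i : Fin (u c) =>
        (((b c).equivFun.symm (fun l => (b c).equivFun (v c i) l) : V c) : ℂ))) = UG T V z c
  simp only [e1]
  apply le_antisymm
  · rw [Submodule.span_le]
    rintro _ ⟨i, rfl⟩
    exact hv2 c i
  · intro x hx
    have h3 := congrArg (fun t : V c => (t : ℂ)) (hv3 c ⟨x, hx.1⟩ hx)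
    simp only [Submodule.coe_sum, Submodule.coe_smul] at h3
    rw [h3]
    exact Submodule.sum_mem _ (fun a _ => Submodule.smul_mem _ _ (Submodule.subset_span ⟨a, rfl⟩))

/-- **Uniform bound for the number of the families of subspaces.** -/
theorem bound_UG (q : ℕ) (e n : Fin q → ℕ) (ρ : ℕ) (r : Fin q → ℕ) : ∃ B : ℕ,
    ∀ (F : IntermediateField ℚ ℂ) (T : Fam F e) (V : Fin q → Submodule ℚ ℂ),
      (∀ c, FiniteDimensional ℚ (V c)) → (∀ c, finrank ℚ (V c) = r c) →
      {U : Fin q → Submodule ℚ ℂ | ∃ z : Tu n, Good T V ρ z ∧ U = UG T V z}.encard ≤ B := by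
  classical
  choose B hB using fun (p : ∀ c : Fin q, Σ u : Fin (r c + 1), (Fin u → Fin (r c))) =>
    bound_cls q e n ρ r (fun c => (p c).1) (fun c => (p c).2)
  refine ⟨∑ p, B p, fun F T V hfd hV => ?_⟩
  let b : ∀ c, Basis (Fin (r c)) ℚ (V c) := fun c => finBasisOfFinrankEq ℚ (V c) (hV c)
  have h1 : {U : Fin q → Submodule ℚ ℂ | ∃ z : Tu n, Good T V ρ z ∧ U = UG T V z} ⊆
      ⋃ p : ∀ c : Fin q, Σ u : Fin (r c + 1), (Fin u → Fin (r c)),
        cls T V n ρ b (fun c => (p c).1) (fun c => (p c).2) := by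
    rintro U ⟨z, hz, rfl⟩
    choose u C v hv using fun c => exists_pivots (U := UG T V z c) (b c) (hV c)
    rw [Set.mem_iUnion]
    exact ⟨fun c => ⟨u c, C c⟩, z, hz, rfl, fun c => ⟨v c, hv c⟩⟩
  have h2' : ∀ S : Finset (∀ c : Fin q, Σ u : Fin (r c + 1), (Fin u → Fin (r c))),
      (⋃ p ∈ S, cls T V n ρ b (fun c => (p c).1) (fun c => (p c).2)).encard ≤
        ((∑ p ∈ S, B p : ℕ) : ℕ∞) := by
    intro S
    induction S using Finset.induction_on with
    | empty => simp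
    | insert p S hp ih =>
      rw [Finset.set_biUnion_insert, Finset.sum_insert hp, Nat.cast_add]
      exact (Set.encard_union_le _ _).trans (add_le_add (hB p F T V b) ih)
  refine (Set.encard_le_encard h1).trans ?_
  have h4 := h2' Finset.univ
  simp only [Finset.mem_univ, Set.iUnion_true] at h4
  exact h4

end Pool.Agent.TH813.G
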