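import Mathlib
import Pool.Agent.TH813.EKMain
import Pool.Agent.TH813.GUni

/-!
# Families of group types: all failures
-/

set_option autoImplicit false

open Finset Module

noncomputable section

namespace Pool.Agent.TH813.G

open Pool.Agent.W252 Pool.Agent.W669.Gel
open Pool.Agent.TH813.Rel (DF MK mem_cl subset_cl kills_clF rk_le_of_subset_cl trF bracket_mem)
open Pool.Agent.TH813.Ell (mem_cl_iff)

variable {F : IntermediateField ℚ ℂ} {q : ℕ} {e : Fin q → ℕ} (T : Fam F e) {n : Fin q → ℕ}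

/-- the weighted dimension of a family of spaces -/
def wtd (X : Sp T) : ℕ := ∑ c, (e c + 1) * finrank (T c).k (X c)

/-- a family of spaces is finite-dimensional -/
def Fd (X : Sp T) : Prop := ∀ c, FiniteDimensional (T c).k (X c)

variable {T}

theorem Fd.mono {X Y : Sp T} (hY : Fd T Y) (h : X ≤ Y) : Fd T X := fun c => by
  have := hY c
  exact Submodule.finiteDimensional_of_le (h c)

theorem exists_bas {X : Sp T} (hX : Fd T X) :
    ∃ z : Tu (fun c => finrank (T c).k (X c)),
      (∀ c, LinearIndependent (T c).k (z c)) ∧ spn T z = X := by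
  have := hX
  refine ⟨fun c i => ((@finBasis (T c).k (X c) _ _ _ _ _ (this c)) i : ℂ), fun c => ?_,
    funext (fun c => ?_)⟩
  · have := hX c
    exact (finBasis (T c).k (X c)).linearIndependent.map' (X c).subtype (Submodule.ker_subtype _)
  · have := hX c
    change Submodule.span (T c).k (Set.range (fun i => ((finBasis (T c).k (X c)) i : ℂ))) = X c
    have h1 : Set.range (fun i => ((finBasis (T c).k (X c)) i : ℂ)) =
        (X c).subtype '' Set.range (finBasis (T c).k (X c)) := by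
      rw [← Set.range_comp]
      rfl
    rw [h1, Submodule.span_image, Basis.span_eq, Submodule.map_top, Submodule.range_subtype]

theorem wtd_spn {z : Tu n} (hz : ∀ c, LinearIndependent (T c).k (z c)) :
    wtd T (spn T z) = ∑ c, (e c + 1) * n c := by
  unfold wtd
  refine sum_congr rfl (fun c _ => ?_)
  change (e c + 1) * finrank (T c).k (Submodule.span (T c).k (Set.range (z c))) = _
  rw [finrank_span_eq_card (hz c), Fintype.card_fin]

theorem spn_killed {D : Derivation ℚ ℂ ℂ} (hF : D ∈ DF F) {z : Tu n} (h : vec T D z = 0)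
    {X : Sp T} (hX : X ≤ spn T z) (c : Fin q) {x : ℂ} (hx : x ∈ X c)
    (o : Option (Fin (e c + 1))) : (T c).frm o D x = 0 :=
  span_le_kil T hF h c (hX c hx) o

/-- the numbers of a family of spaces -/
theorem NX_sub_KG {z : Tu n} {X W : Sp T} (hX : X ≤ spn T z)
    (hW : ∀ D ∈ DF F, vec T D z = 0 → ∀ c, ∀ w ∈ W c, (T c).lam 0 D w = 0) :
    NX T X W ⊆ (KG T z : Set ℂ) := by
  intro x hx D hF hD
  exact (NX_iff T hF).2 (fun c => ⟨fun y hy o => spn_killed hF hD hX c hy o,
    hW D hF hD c⟩) x hx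

theorem rk_NX_le {z : Tu n} {X W : Sp T} (hX : X ≤ spn T z)
    (hW : ∀ D ∈ DF F, vec T D z = 0 → ∀ c, ∀ w ∈ W c, (T c).lam 0 D w = 0) :
    (MK F).eRk (NX T X W) ≤ (finrank ℂ (LinearMap.range (ev T z)) : ℕ) := by
  rw [← rk_KG]
  exact (MK F).eRk_mono (NX_sub_KG hX hW)

theorem rk_NX_self {z : Tu n} :
    (MK F).eRk (NX T (spn T z) (spn T z)) = (finrank ℂ (LinearMap.range (ev T z)) : ℕ) := by
  apply le_antisymm
  · exact rk_NX_le le_rfl (fun D hF hD c w hw => spn_killed hF hD le_rfl c hw (some 0))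
  · rw [rank_ev]
    exact (MK F).eRk_mono (NT_sub T z _ _ (fun c i => Submodule.subset_span ⟨i, rfl⟩))

/-- a hyperplane of a space with a basis -/
theorem exists_hyper {k : Type*} [Field k] [Module k ℂ] {n : ℕ} {z : Fin n → ℂ}
    (hz : LinearIndependent k z) {r : Fin n → k} (hr : r ≠ 0) :
    ∃ Y ≤ Submodule.span k (Set.range z), finrank k Y + 1 = n ∧
      ∀ y ∈ Y, ∃ a : Fin n → k, ∑ l, a l * r l = 0 ∧ y = ∑ l, a l • z l := by
  classical
  let f : (Fin n → k) →ₗ[k] k := ∑ l, r l • LinearMap.proj l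
  have hf : ∀ a, f a = ∑ l, a l * r l := by
    intro a
    simp [f, mul_comm]
  let g : (Fin n → k) →ₗ[k] ℂ := Fintype.linearCombination k z
  have hg : ∀ a, g a = ∑ l, a l • z l := fun a => rfl
  have hginj : Function.Injective g := linearIndependent_iff_injective_fintypeLinearCombination.1 hz
  refine ⟨(LinearMap.ker f).map g, ?_, ?_, ?_⟩
  · rintro _ ⟨a, -, rfl⟩
    rw [hg]
    exact Submodule.sum_mem _ (fun l _ => Submodule.smul_mem _ _ (Submodule.subset_span ⟨l, rfl⟩))
  · have h1 : finrank k ((LinearMap.ker f).map g) = finrank k (LinearMap.ker f) :=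
      (Submodule.equivMapOfInjective g hginj (LinearMap.ker f)).finrank_eq.symm
    have h2 := LinearMap.finrank_range_add_finrank_ker f
    have h3 : LinearMap.range f = ⊤ := by
      obtain ⟨i, hi⟩ := Function.ne_iff.1 hr
      rw [LinearMap.range_eq_top]
      intro x
      refine ⟨Pi.single i (x / r i), ?_⟩
      rw [hf, sum_eq_single i]
      · rw [Pi.single_eq_same]
        exact div_mul_cancel₀ _ hi
      · intro j _ hj
        rw [Pi.single_eq_of_ne hj, zero_mul]
      · intro h; exact absurd (mem_univ i) h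
    rw [h3, finrank_top, finrank_self, finrank_fin_fun] at h2
    omega
  · rintro _ ⟨a, ha, rfl⟩
    exact ⟨a, by rw [← hf]; exact ha, hg a⟩

variable (T) in
/-- the condition for a failure by `m` -/
def Fl (A : Sp T) (m : ℕ) (X : Sp T) : Prop :=
  X ⊓ A = ⊥ ∧ (MK F).eRk (NX T X X) + m ≤ ((wtd T X : ℕ) : ℕ∞)

/-- minimal failures have few tangent vectors -/
theorem tp_of_min (hR : Ros T) {A X : Sp T} {m : ℕ} {z : Tu n}
    (hz : ∀ c, LinearIndependent (T c).k (z c)) (hX : spn T z = X) (hfl : Fl T A m X)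
    (hmin : ∀ X' ≤ X, Fl T A m X' → ∑ c, finrank (T c).k (X c) ≤ ∑ c, finrank (T c).k (X' c)) :
    TP T z := by
  classical
  subst hX
  intro u w v w' hv hT
  refine core T hR (ι := fun c => Fin (u c)) (fun c₀ Dj hD r hS => ?_) hv hT
  by_contra hne
  obtain ⟨Y, hY, hYd, hYa⟩ := exists_hyper (hz c₀) hne
  let X' : Sp T := Function.update (spn T z) c₀ Y
  have hX'0 : X' c₀ = Y := Function.update_self _ _ _
  have hX'n : ∀ c, c ≠ c₀ → X' c = spn T z c := fun c hc => Function.update_of_ne hc _ _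
  have hX' : X' ≤ spn T z := by
    intro c
    by_cases hc : c = c₀
    · subst hc
      rw [hX'0]
      exact hY
    · rw [hX'n c hc]
  have hfd0 : Fd T (spn T z) := fun c => FiniteDimensional.span_of_finite _ (Set.finite_range _)
  have hfd : Fd T X' := hfd0.mono hX'
  obtain ⟨z', hz', hsp'⟩ := exists_bas hfd
  have hmem' : ∀ c i, z' c i ∈ X' c := by
    intro c i
    rw [← hsp']
    exact Submodule.subset_span ⟨i, rfl⟩
  have hloss := loss T c₀ Dj hD hS hne (z' := z') (fun c i => hX' c (hmem' c i)) (fun i => by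
    have h1 := hmem' c₀ i
    rw [hX'0] at h1
    exact hYa _ h1)
  have hdim0 : finrank (T c₀).k (X' c₀) + 1 = finrank (T c₀).k (spn T z c₀) := by
    have h1 : finrank (T c₀).k (spn T z c₀) = n c₀ := by
      change finrank (T c₀).k (Submodule.span (T c₀).k (Set.range (z c₀))) = _
      rw [finrank_span_eq_card (hz c₀), Fintype.card_fin]
    rw [h1, hX'0, hYd]
  have hdimn : ∀ c, c ≠ c₀ → finrank (T c).k (X' c) = finrank (T c).k (spn T z c) := by
    intro c hc
    rw [hX'n c hc]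
  have hwt : wtd T X' + (e c₀ + 1) = wtd T (spn T z) := by
    unfold wtd
    rw [← add_sum_erase _ _ (mem_univ c₀), ← add_sum_erase univ
      (fun c => (e c + 1) * finrank (T c).k (spn T z c)) (mem_univ c₀), ← hdim0,
      sum_congr rfl (fun c hc => by rw [hdimn c (ne_of_mem_erase hc)])]
    ring
  have hmu : ∑ c, finrank (T c).k (X' c) + 1 = ∑ c, finrank (T c).k (spn T z c) := by
    rw [← add_sum_erase _ _ (mem_univ c₀), ← add_sum_erase univ
      (fun c => finrank (T c).k (spn T z c)) (mem_univ c₀), ← hdim0,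
      sum_congr rfl (fun c hc => by rw [hdimn c (ne_of_mem_erase hc)])]
    ring
  have hfl' : Fl T A m X' := by
    refine ⟨eq_bot_iff.2 (le_trans (inf_le_inf_right A hX') hfl.1.le), ?_⟩
    have h1 := hfl.2
    rw [rk_NX_self] at h1
    have h2 : (MK F).eRk (NX T X' X') = (finrank ℂ (LinearMap.range (ev T z')) : ℕ) := by
      conv_lhs => rw [← hsp']
      exact rk_NX_self
    rw [h2]
    have h3 : finrank ℂ (LinearMap.range (ev T z)) + m ≤ wtd T (spn T z) := by exact_mod_cast h1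
    have h4 : finrank ℂ (LinearMap.range (ev T z')) + m ≤ wtd T X' := by omega
    exact_mod_cast h4
  have := hmin X' hX' hfl'
  omega

variable (T) in
/-- The points of `V` whose image on the group is rational over the field attached to a
point. -/
def UK (V : Sp T) (z : Tu n) : Sp T := fun c =>
  { carrier := {v | v ∈ V c ∧ ∀ D ∈ DF F, vec T D z = 0 → (T c).lam 0 D v = 0}
    add_mem' := by
      rintro a b ⟨ha, ha'⟩ ⟨hb, hb'⟩
      exact ⟨(V c).add_mem ha hb, fun D hF hD => by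
        rw [(T c).lam_add 0 D hF, ha' D hF hD, hb' D hF hD, add_zero]⟩
    zero_mem' := ⟨(V c).zero_mem, fun D hF _ => (T c).frm_zero (some 0) hF⟩
    smul_mem' := by
      rintro a x ⟨hx, hx'⟩
      refine ⟨(V c).smul_mem a hx, fun D hF hD => ?_⟩
      have h := (T c).frm_smul (some 0) hF a x
      change (T c).lam 0 D (a • x) = _ * (T c).lam 0 D x at h
      rw [h, hx' D hF hD, mul_zero] }

/-- restriction of scalars -/
def rs (W : Sp T) : Fin q → Submodule ℚ ℂ := fun c =>
  { carrier := W c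
    add_mem' := (W c).add_mem
    zero_mem' := (W c).zero_mem
    smul_mem' := by
      intro a x hx
      have h1 : a • x = (a : (T c).k) • x := by
        rw [Rat.smul_def, Algebra.smul_def (a : (T c).k) x, map_ratCast]
      rw [h1]
      exact (W c).smul_mem _ hx }

theorem rs_inj : Function.Injective (rs : Sp T → Fin q → Submodule ℚ ℂ) := by
  intro W W' h
  funext c
  apply SetLike.coe_injective
  have h1 := congrArg (fun U : Submodule ℚ ℂ => (U : Set ℂ)) (congrFun h c)
  exact h1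

theorem rs_UK (V : Sp T) (z : Tu n) : rs (UK T V z) = UG T (rs V) z := rfl

theorem rs_finrank (V : Sp T) (hV : Fd T V) (c : Fin q) :
    FiniteDimensional ℚ (rs V c) ∧ finrank ℚ (rs V c) ≤ 2 * finrank (T c).k (V c) := by
  have := (T c).fin
  have := hV c
  let b := finBasis (T c).k (V c)
  let a := finBasis ℚ (T c).k
  have h1 : rs V c = Submodule.span ℚ (Set.range
      (fun p : Fin (finrank ℚ (T c).k) × Fin (finrank (T c).k (V c)) =>
        ((a p.1 • b p.2 : V c) : ℂ))) := by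
    apply le_antisymm
    · intro x hx
      have h2 := congrArg (fun t : V c => (t : ℂ)) (b.sum_repr ⟨x, hx⟩)
      simp only [Submodule.coe_sum] at h2
      rw [← h2]
      refine Submodule.sum_mem _ (fun i _ => ?_)
      have h3 := a.sum_repr (b.repr ⟨x, hx⟩ i)
      rw [← h3, sum_smul]
      simp only [Submodule.coe_sum]
      refine Submodule.sum_mem _ (fun j _ => ?_)
      have h4 : (((a.repr (b.repr ⟨x, hx⟩ i) j • a j) • b i : V c) : ℂ) =
          (a.repr (b.repr ⟨x, hx⟩ i) j) • ((a j • b i : V c) : ℂ) := by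
        rw [Submodule.coe_smul, Submodule.coe_smul, Algebra.smul_def, Algebra.smul_def (a j),
          Rat.smul_def, Rat.smul_def, map_mul, map_ratCast]
        ring
      rw [h4]
      exact Submodule.smul_mem _ _ (Submodule.subset_span ⟨(j, i), rfl⟩)
    · rw [Submodule.span_le]
      rintro _ ⟨p, rfl⟩
      exact (a p.1 • b p.2 : V c).2
  rw [h1]
  refine ⟨FiniteDimensional.span_of_finite _ (Set.finite_range _), ?_⟩
  refine (finrank_range_le_card _).trans ?_
  rw [Fintype.card_prod, Fintype.card_fin, Fintype.card_fin]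
  exact Nat.mul_le_mul_right _ (T c).deg

variable (T) in
/-- the families of spaces attached to the minimal failures -/
def TK (A V : Sp T) : Set (Sp T) :=
  {W | ∃ (n : Fin q → ℕ) (z : Tu n), (∀ c, LinearIndependent (T c).k (z c)) ∧
    (∀ c i, z c i ∈ V c) ∧ spn T z ⊓ A = ⊥ ∧
    finrank ℂ (LinearMap.range (ev T z)) < ∑ c, (e c + 1) * n c ∧ TP T z ∧ W = UK T V z}

theorem card_le {V : Sp T} (hV : Fd T V) {z : Tu n}
    (hz : ∀ c, LinearIndependent (T c).k (z c)) (h : ∀ c i, z c i ∈ V c) (c : Fin q) :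
    n c ≤ finrank (T c).k (V c) := by
  have := hV c
  have h1 : LinearIndependent (T c).k (fun i => (⟨z c i, h c i⟩ : V c)) :=
    LinearIndependent.of_comp (V c).subtype (hz c)
  have h2 := h1.fintype_card_le_finrank
  rwa [Fintype.card_fin] at h2

/-- the uniform bound -/
theorem bound_TK (q : ℕ) (e : Fin q → ℕ) (r : ℕ) : ∃ B : ℕ, ∀ (F : IntermediateField ℚ ℂ)
    (T : Fam F e) (A V : Sp T), Fd T V → (∀ c, finrank (T c).k (V c) ≤ r) →
    (TK T A V).encard ≤ B := by
  classical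
  choose B hB using fun (p : (Fin q → Fin (r + 1)) × Fin (∑ c, (e c + 1) * r + 1) ×
      (Fin q → Fin (2 * r + 1))) =>
    bound_UG (n := fun c => (p.1 c : ℕ)) q e (p.2.1 : ℕ) (fun c => (p.2.2 c : ℕ))
  refine ⟨∑ p, B p, fun F T A V hV hr => ?_⟩
  have hVr : ∀ c, finrank ℚ (rs V c) < 2 * r + 1 := fun c => by
    have h1 := (rs_finrank V hV c).2
    have h2 := hr c
    omega
  rw [← rs_inj.encard_image]
  have h1 : rs '' (TK T A V) ⊆ ⋃ p : (Fin q → Fin (r + 1)) × Fin (∑ c, (e c + 1) * r + 1) ×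
      (Fin q → Fin (2 * r + 1)), {U | p.2.2 = (fun c => ⟨finrank ℚ (rs V c), hVr c⟩) ∧
        ∃ z : Tu (fun c => (p.1 c : ℕ)), Good T (rs V) (p.2.1 : ℕ) z ∧
          U = UG T (rs V) z} := by
    rintro _ ⟨W, ⟨n, z, hz, hzV, hA, hlt, htp, rfl⟩, rfl⟩
    have hn : ∀ c, n c < r + 1 := fun c => by
      have := card_le hV hz hzV c
      have := hr c
      omega
    have hρ : finrank ℂ (LinearMap.range (ev T z)) < ∑ c, (e c + 1) * r + 1 := by
      refine lt_of_lt_of_le hlt (le_trans (sum_le_sum (fun c _ => ?_)) (Nat.le_succ _))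
      exact Nat.mul_le_mul_left _ (Nat.lt_succ_iff.1 (hn c))
    refine Set.mem_iUnion.2 ⟨⟨fun c => ⟨n c, hn c⟩, ⟨_, hρ⟩,
      fun c => ⟨finrank ℚ (rs V c), hVr c⟩⟩, rfl, z, ⟨hzV, htp, rfl⟩, rs_UK V z⟩
  have h2 : ∀ p : (Fin q → Fin (r + 1)) × Fin (∑ c, (e c + 1) * r + 1) ×
      (Fin q → Fin (2 * r + 1)), {U | p.2.2 = (fun c => ⟨finrank ℚ (rs V c), hVr c⟩) ∧
        ∃ z : Tu (fun c => (p.1 c : ℕ)), Good T (rs V) (p.2.1 : ℕ) z ∧
          U = UG T (rs V) z}.encard ≤ B p := by
    intro p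
    by_cases hp : p.2.2 = (fun c => ⟨finrank ℚ (rs V c), hVr c⟩)
    · refine le_trans (Set.encard_le_encard (fun U hU => hU.2)) (hB p F T (rs V)
        (fun c => (rs_finrank V hV c).1) (fun c => ?_))
      rw [hp]
    · have h3 : {U | p.2.2 = (fun c => ⟨finrank ℚ (rs V c), hVr c⟩) ∧
        ∃ z : Tu (fun c => (p.1 c : ℕ)), Good T (rs V) (p.2.1 : ℕ) z ∧
          U = UG T (rs V) z} = ∅ := by
        ext U
        simp [hp]
      rw [h3, Set.encard_empty]
      exact bot_le
  refine (Set.encard_le_encard h1).trans ?_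
  have h3 : ∀ S : Finset ((Fin q → Fin (r + 1)) × Fin (∑ c, (e c + 1) * r + 1) ×
      (Fin q → Fin (2 * r + 1))), (⋃ p ∈ S, {U | p.2.2 = (fun c => ⟨finrank ℚ (rs V c), hVr c⟩) ∧
        ∃ z : Tu (fun c => (p.1 c : ℕ)), Good T (rs V) (p.2.1 : ℕ) z ∧
          U = UG T (rs V) z}).encard ≤ ((∑ p ∈ S, B p : ℕ) : ℕ∞) := by
    intro S
    induction S using Finset.induction_on with
    | empty => simp
    | insert p S hp ih =>
      rw [Finset.set_biUnion_insert, Finset.sum_insert hp, Nat.cast_add]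
      exact (Set.encard_union_le _ _).trans (add_le_add (h2 p) ih)
  have h4 := h3 Finset.univ
  simp only [Finset.mem_univ, Set.iUnion_true] at h4
  exact h4

/-- **Main theorem** for families of group types. -/
theorem mainG (q : ℕ) (e : Fin q → ℕ) (r : ℕ) : ∃ B : ℕ, ∀ (F : IntermediateField ℚ ℂ)
    (T : Fam F e), Ros T → ∀ A V : Sp T, Fd T V → (∀ c, finrank (T c).k (V c) ≤ r) →
    ∃ 𝒯 : Finset (Sp T), 𝒯.card ≤ B ∧
      (∀ W ∈ 𝒯, W ≤ V ∧ ∃ X ≤ W, X ⊓ A = ⊥ ∧ (MK F).eRk (NX T X W) < ((wtd T X : ℕ) : ℕ∞) ∧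
        ∀ c, ∀ x ∈ V c, (∀ y ∈ (T c).W x, y ∈ (MK F).closure (NX T X W)) → x ∈ W c) ∧
      ∀ U ≤ V, ∀ m : ℕ, 0 < m → ((∃ X ≤ U, Fl T A m X) ↔
        ∃ W ∈ 𝒯, ∃ X ≤ U ⊓ W, X ⊓ A = ⊥ ∧
          (MK F).eRk (NX T X W) + m ≤ ((wtd T X : ℕ) : ℕ∞)) := by
  classical
  obtain ⟨B, hB⟩ := bound_TK q e r
  refine ⟨B, fun F T hR A V hV hr => ?_⟩
  have hcard := hB F T A V hV hr
  have hfin : (TK T A V).Finite := by
    rw [← Set.encard_lt_top_iff]
    exact lt_of_le_of_lt hcard (ENat.natCast_lt_top B)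
  have hTm : ∀ W, W ∈ hfin.toFinset ↔ W ∈ TK T A V := fun W => by
    rw [Set.Finite.mem_toFinset]
  -- the properties of the spaces attached to a point
  have hsub : ∀ (n : Fin q → ℕ) (z : Tu n), (∀ c i, z c i ∈ V c) → spn T z ≤ UK T V z := by
    intro n z hzV c
    change Submodule.span (T c).k (Set.range (z c)) ≤ _
    rw [Submodule.span_le]
    rintro _ ⟨i, rfl⟩
    exact ⟨hzV c i, fun D _ hD => (vec_eq_zero T).1 hD c i (some 0)⟩
  have hrk : ∀ (n : Fin q → ℕ) (z : Tu n), (MK F).eRk (NX T (spn T z) (UK T V z)) ≤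
      (finrank ℂ (LinearMap.range (ev T z)) : ℕ) := fun n z =>
    rk_NX_le le_rfl (fun D hF hD c w hw => hw.2 D hF hD)
  refine ⟨hfin.toFinset, ?_, fun W hW => ?_, fun U hU m hm => ⟨?_, ?_⟩⟩
  · have h1 : (hfin.toFinset : Set (Sp T)).encard ≤ B := by
      rw [Set.Finite.coe_toFinset]
      exact hcard
    rw [Set.encard_coe_eq_coe_finsetCard] at h1
    exact_mod_cast h1
  · obtain ⟨n, z, hz, hzV, hA, hlt, htp, rfl⟩ := (hTm W).1 hW
    refine ⟨fun c x hx => hx.1, spn T z, hsub n z hzV, hA, ?_, fun c x hx hal => ?_⟩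
    · refine lt_of_le_of_lt (hrk n z) ?_
      rw [wtd_spn hz]
      exact_mod_cast hlt
    · refine ⟨hx, fun D hF hD => ((T c).W_iff D hF x).1 (fun y hy => ?_)⟩
      refine (mem_cl_iff _ _).1 (hal y hy) D hF (fun t ht => ?_)
      exact NX_sub_KG (W := UK T V z) le_rfl (fun D hF hD c w hw => hw.2 D hF hD) ht D hF hD
  · rintro ⟨X₀, hX₀, hfl₀⟩
    have hP : ∃ k : ℕ, ∃ X ≤ U, Fl T A m X ∧ ∑ c, finrank (T c).k (X c) = k :=
      ⟨_, X₀, hX₀, hfl₀, rfl⟩
    obtain ⟨X, hXU, hfl, hk⟩ := Nat.find_spec hP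
    obtain ⟨z, hz, hsp⟩ := exists_bas (hV.mono (hXU.trans hU))
    have htp : TP T z := tp_of_min hR hz hsp hfl (fun X' hX' hfl' => by
      rw [hk]
      exact Nat.find_min' hP ⟨X', hX'.trans hXU, hfl', rfl⟩)
    have hzX : ∀ c i, z c i ∈ X c := by
      intro c i
      rw [← hsp]
      exact Submodule.subset_span ⟨i, rfl⟩
    have hzV : ∀ c i, z c i ∈ V c := fun c i => (hXU.trans hU) c (hzX c i)
    have h1 : finrank ℂ (LinearMap.range (ev T z)) + m ≤ wtd T X := by
      have h2 := hfl.2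
      rw [← hsp, rk_NX_self, hsp] at h2
      exact_mod_cast h2
    have h3 : wtd T X = ∑ c, (e c + 1) * finrank (T c).k (X c) := rfl
    refine ⟨UK T V z, (hTm _).2 ⟨_, z, hz, hzV, by rw [hsp]; exact hfl.1, by omega, htp, rfl⟩,
      X, le_inf hXU ?_, hfl.1, ?_⟩
    · conv_lhs => rw [← hsp]
      exact hsub _ z hzV
    · have h2 := hrk _ z
      rw [hsp] at h2
      refine (add_le_add_left h2 _).trans ?_
      exact_mod_cast h1
  · rintro ⟨W, hW, X, hX, hXA, hle⟩
    refine ⟨X, hX.trans inf_le_left, hXA, ?_⟩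
    exact (add_le_add_left ((MK F).eRk_mono (NX_mono T le_rfl (hX.trans inf_le_right))) _).trans
      hle

end Pool.Agent.TH813.G
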