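import Mathlib
import Pool.Agent.TH813.Uni5
import Pool.Agent.TH813.EKRel
import Pool.Agent.TH813.GMain

/-!
# Families of group types: the predimension over a base
-/

set_option autoImplicit false

open Finset Module

noncomputable section

namespace Pool.Agent.TH813.G

open Pool.Agent.W252 Pool.Agent.W669.Gel
open Pool.Agent.TH813.Rel (DF MK mem_cl subset_cl kills_clF exists_derF rk_le_of_subset_cl trF
  bracket_mem)
open Pool.Agent.TH813.Ell (mem_cl_iff exists_rel_compl exists_compl tr_lt_of_finite)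
open Pool.Agent.TH813.Rank (finrank_range_eq)
open Pool.Agent.TH813.Uni (trF_le_iff tr tr_add tr_eq tr_mono)

/-- ranks and kernels -/
theorem rk_le_of_ker {F : IntermediateField ℚ ℂ} {M : Type*} [AddCommGroup M] [Module ℂ M]
    [FiniteDimensional ℂ M] (f : DF F →ₗ[ℂ] M) (S : Set ℂ)
    (h : ∀ D : DF F, f D = 0 → ∀ x ∈ S, (D : Derivation ℚ ℂ ℂ) x = 0) :
    (MK F).eRk S ≤ (finrank ℂ (LinearMap.range f) : ℕ) := by
  classical
  obtain ⟨I, hI⟩ := (MK F).exists_isBasis S (Set.subset_univ _)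
  rw [← hI.encard_eq_eRk]
  by_contra hcon
  have h1 : ((finrank ℂ (LinearMap.range f) + 1 : ℕ) : ℕ∞) ≤ I.encard := by
    rw [Nat.cast_add, Nat.cast_one]
    exact Order.add_one_le_of_lt (not_le.1 hcon)
  obtain ⟨J, hJI, hJ⟩ := Set.exists_subset_encard_eq h1
  have hJfin : J.Finite := Set.finite_of_encard_eq_coe hJ
  have : Fintype J := hJfin.fintype
  let ρ : DF F →ₗ[ℂ] (J → ℂ) :=
    { toFun := fun D i => (D : Derivation ℚ ℂ ℂ) i
      map_add' := fun D D' => rfl
      map_smul' := fun c D => rfl }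
  have hind : AlgebraicIndependent F (fun i : J => (i : ℂ)) := (hI.indep.subset hJI)
  have hsurj : Function.Surjective ρ := by
    intro v
    obtain ⟨D, hF, hD⟩ := exists_derF F hind v
    exact ⟨⟨D, hF⟩, funext hD⟩
  have hker : LinearMap.ker f ≤ LinearMap.ker ρ := by
    intro D hD
    rw [LinearMap.mem_ker] at hD ⊢
    funext i
    exact h D hD i (hI.subset (hJI i.2))
  obtain ⟨g, hg⟩ : ∃ g : LinearMap.range f →ₗ[ℂ] (J → ℂ), g ∘ₗ f.rangeRestrict = ρ := by
    refine ⟨((LinearMap.ker f).liftQ ρ hker) ∘ₗ f.quotKerEquivRange.symm.toLinearMap, ?_⟩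
    ext D i
    have e1 : f.quotKerEquivRange.symm (f.rangeRestrict D) = Submodule.Quotient.mk D := by
      rw [LinearEquiv.symm_apply_eq]
      rfl
    change ((LinearMap.ker f).liftQ ρ hker) (f.quotKerEquivRange.symm (f.rangeRestrict D)) i = _
    rw [e1]
    rfl
  have h2 : Function.Surjective g := by
    intro v
    obtain ⟨D, hD⟩ := hsurj v
    exact ⟨f.rangeRestrict D, by rw [← hD, ← hg]; rfl⟩
  have h3 := LinearMap.finrank_le_finrank_of_surjective h2
  rw [finrank_fintype_fun_eq_card] at h3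
  have h4 : (Fintype.card J : ℕ∞) = J.encard := Set.coe_fintypeCard _
  rw [hJ] at h4
  have h5 : Fintype.card J = finrank ℂ (LinearMap.range f) + 1 := by exact_mod_cast h4
  omega

theorem rk_eq_of_ker {F : IntermediateField ℚ ℂ} {M : Type*} [AddCommGroup M] [Module ℂ M]
    [FiniteDimensional ℂ M] (f : DF F →ₗ[ℂ] M) (S : Set ℂ)
    (h : ∀ D : DF F, f D = 0 ↔ ∀ x ∈ S, (D : Derivation ℚ ℂ ℂ) x = 0) :
    (MK F).eRk S = (finrank ℂ (LinearMap.range f) : ℕ) := by
  classical
  refine le_antisymm (rk_le_of_ker f S (fun D hD => (h D).1 hD)) ?_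
  have hle := rk_le_of_ker f S (fun D hD => (h D).1 hD)
  obtain ⟨I, hI⟩ := (MK F).exists_isBasis S (Set.subset_univ _)
  rw [← hI.encard_eq_eRk] at hle ⊢
  have hIfin : I.Finite := Set.encard_lt_top_iff.1 (lt_of_le_of_lt hle (ENat.natCast_lt_top _))
  have : Fintype I := hIfin.fintype
  let ρ : DF F →ₗ[ℂ] (I → ℂ) :=
    { toFun := fun D i => (D : Derivation ℚ ℂ ℂ) i
      map_add' := fun D D' => rfl
      map_smul' := fun c D => rfl }
  have hker : LinearMap.ker ρ ≤ LinearMap.ker f := by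
    intro D hD
    rw [LinearMap.mem_ker] at hD ⊢
    refine (h D).2 (fun w hw => ?_)
    have h0 : ∀ i ∈ I, (D : Derivation ℚ ℂ ℂ) i = 0 := fun i hi => congrFun hD ⟨i, hi⟩
    exact kills_clF F D.2 h0 (by rw [hI.closure_eq_closure]; exact subset_cl _ hw)
  obtain ⟨g, hg⟩ : ∃ g : LinearMap.range ρ →ₗ[ℂ] LinearMap.range f,
      g ∘ₗ ρ.rangeRestrict = f.rangeRestrict := by
    have hker' : LinearMap.ker ρ ≤ LinearMap.ker f.rangeRestrict := by
      rw [LinearMap.ker_rangeRestrict]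
      exact hker
    refine ⟨((LinearMap.ker ρ).liftQ f.rangeRestrict hker') ∘ₗ
      ρ.quotKerEquivRange.symm.toLinearMap, ?_⟩
    ext D
    have e1 : ρ.quotKerEquivRange.symm (ρ.rangeRestrict D) = Submodule.Quotient.mk D := by
      rw [LinearEquiv.symm_apply_eq]
      rfl
    change ((((LinearMap.ker ρ).liftQ f.rangeRestrict hker')
      (ρ.quotKerEquivRange.symm (ρ.rangeRestrict D)) : LinearMap.range f) : M) = _
    rw [e1]
    rfl
  have h2 : Function.Surjective g := by
    rintro ⟨_, D, rfl⟩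
    exact ⟨ρ.rangeRestrict D, by
      have := LinearMap.congr_fun hg D
      exact this⟩
  have h3 := LinearMap.finrank_le_finrank_of_surjective h2
  have h4 := Submodule.finrank_le (LinearMap.range ρ)
  rw [finrank_fintype_fun_eq_card] at h4
  have h5 : (Fintype.card I : ℕ∞) = I.encard := Set.coe_fintypeCard _
  rw [← h5]
  exact_mod_cast h3.trans h4

theorem finrank_range_prod_le {V M N : Type*} [AddCommGroup V] [Module ℂ V] [AddCommGroup M]
    [Module ℂ M] [AddCommGroup N] [Module ℂ N] [FiniteDimensional ℂ M] [FiniteDimensional ℂ N]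
    (f : V →ₗ[ℂ] M) (g : V →ₗ[ℂ] N) :
    finrank ℂ (LinearMap.range (f.prod g)) ≤ finrank ℂ (LinearMap.range f) + finrank ℂ N := by
  let φ : LinearMap.range (f.prod g) →ₗ[ℂ] (LinearMap.range f × N) :=
    (((LinearMap.fst ℂ M N).domRestrict (LinearMap.range (f.prod g))).codRestrict
      (LinearMap.range f) (by
        rintro ⟨_, D, rfl⟩
        exact ⟨D, rfl⟩)).prod ((LinearMap.snd ℂ M N).domRestrict (LinearMap.range (f.prod g)))
  have hφ : Function.Injective φ := by
    intro x y h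
    apply Subtype.ext
    refine Prod.ext ?_ ?_
    · exact congrArg (fun t : LinearMap.range f × N => (t.1 : M)) h
    · exact congrArg (fun t : LinearMap.range f × N => t.2) h
  have h1 := LinearMap.finrank_le_finrank_of_injective hφ
  rwa [finrank_prod] at h1

theorem trF_eq_of_rk {F : IntermediateField ℚ ℂ} {S : Set ℂ} {k : ℕ}
    (h : (MK F).eRk S = (k : ℕ)) : trF F S = k := by
  apply le_antisymm
  · rw [trF_le_iff, h]
  · have h1 : trF F S ≤ (k : Cardinal) := by
      rw [trF_le_iff, h]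
    obtain ⟨t, ht⟩ := Cardinal.lt_aleph0.1 (lt_of_le_of_lt h1 Cardinal.natCast_lt_aleph0)
    rw [ht]
    have h2 : (MK F).eRk S ≤ (t : ℕ) := (trF_le_iff F S t).1 ht.le
    rw [h] at h2
    exact_mod_cast h2

variable {F : IntermediateField ℚ ℂ} {q : ℕ} {e : Fin q → ℕ} (T : Fam F e) {n : Fin q → ℕ}

/-- evaluation at a tuple and at additional points -/
def ev2 {n u : Fin q → ℕ} (z : Tu n) (w : Tu u) :
    DF F →ₗ[ℂ] ((Ix e n → ℂ) × ((Σ c, Fin (u c)) → ℂ)) :=
  (ev T z).prod
    { toFun := fun D κ => (T κ.1).lam 0 (D : Derivation ℚ ℂ ℂ) (w κ.1 κ.2)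
      map_add' := fun D D' => funext (fun κ => (T κ.1).lam_add_der 0 _ _ _)
      map_smul' := fun a D => funext (fun κ => (T κ.1).lam_smul_der 0 _ _ _) }

variable {T}

theorem mem_of_spn {z : Tu n} {X : Sp T} (h : spn T z = X) (c : Fin q) (i : Fin (n c)) :
    z c i ∈ X c := by
  rw [← h]
  exact Submodule.subset_span ⟨i, rfl⟩

theorem ev2_ker {u : Fin q → ℕ} {z : Tu n} {w : Tu u} {X W : Sp T} (hX : spn T z = X)
    (hW : spn T w = W) (D : DF F) :
    ev2 T z w D = 0 ↔ ∀ x ∈ NX T X W, (D : Derivation ℚ ℂ ℂ) x = 0 := by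
  rw [NX_iff T D.2]
  constructor
  · intro h c
    have h1 : vec T (D : Derivation ℚ ℂ ℂ) z = 0 := congrArg Prod.fst h
    have h2 : ∀ c i, (T c).lam 0 (D : Derivation ℚ ℂ ℂ) (w c i) = 0 := fun c i =>
      congrFun (congrArg Prod.snd h) ⟨c, i⟩
    refine ⟨fun x hx o => spn_killed D.2 h1 hX.ge c hx o, ?_⟩
    have h3 : W c ≤ omk T D.2 c := by
      rw [← hW]
      change Submodule.span (T c).k (Set.range (w c)) ≤ _
      rw [Submodule.span_le]
      rintro _ ⟨i, rfl⟩
      exact h2 c i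
    exact fun x hx => h3 hx
  · intro h
    refine Prod.ext ?_ ?_
    · change vec T (D : Derivation ℚ ℂ ℂ) z = 0
      rw [vec_eq_zero]
      exact fun c i o => (h c).1 _ (mem_of_spn hX c i) o
    · funext κ
      exact (h κ.1).2 _ (mem_of_spn hW κ.1 κ.2)

theorem rk_lt {X W : Sp T} (hX : Fd T X) (hW : Fd T W) :
    ∃ t : ℕ, (MK F).eRk (NX T X W) = t := by
  obtain ⟨z, -, hz⟩ := exists_bas hX
  obtain ⟨w, -, hw⟩ := exists_bas hW
  exact ⟨_, rk_eq_of_ker (ev2 T z w) _ (ev2_ker hz hw)⟩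

/-- the form with the given number, where `0` stands for `D z` -/
def op (m : ℕ) (j : Fin (m + 1)) : Option (Fin (m + 1)) := if j = 0 then none else some j

theorem op_surj {m : ℕ} (o : Option (Fin (m + 1))) (h : o ≠ some 0) : ∃ j, op m j = o := by
  rcases o with _ | j
  · exact ⟨0, if_pos rfl⟩
  · exact ⟨j, if_neg (fun h0 => h (by rw [h0]))⟩

/-- enlarging spaces by independent elements -/
theorem extG {A X X' W : Sp T} (hW : Fd T W)
    (hA : ∀ D ∈ DF F, ∀ c, ∀ a ∈ A c, ∀ o, (T c).frm o D a = 0)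
    (hAX : A ≤ X') (hX : X ≤ X') (hXA : X ⊓ A = ⊥) (hXW : X' ≤ W) :
    (MK F).eRk (NX T X' W) + ((wtd T X + wtd T A : ℕ) : ℕ∞) ≤
      (MK F).eRk (NX T X W) + ((wtd T X' : ℕ) : ℕ∞) := by
  classical
  have hX'f := hW.mono hXW
  choose d y hy hd hs using fun c => by
    have := hX'f c
    exact exists_compl (hAX c) (hX c) (congrFun hXA c)
  obtain ⟨z, -, hz⟩ := exists_bas (hX'f.mono hX)
  obtain ⟨w, -, hw⟩ := exists_bas hW
  let h : DF F →ₗ[ℂ] ((Σ c, Fin (d c) × Fin (e c + 1)) → ℂ) :=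
    { toFun := fun D κ => (T κ.1).frm (op (e κ.1) κ.2.2) (D : Derivation ℚ ℂ ℂ) (y κ.1 κ.2.1)
      map_add' := fun D D' => funext (fun κ => (T κ.1).frm_add_der _ _ _ _)
      map_smul' := fun a D => funext (fun κ => (T κ.1).frm_smul_der _ _ _ _) }
  have h1 := rk_eq_of_ker (ev2 T z w) _ (ev2_ker hz hw)
  have h2 : (MK F).eRk (NX T X' W) ≤
      (finrank ℂ (LinearMap.range ((ev2 T z w).prod h)) : ℕ) := by
    refine rk_le_of_ker _ _ (fun D hD => ?_)
    have h3 : ev2 T z w D = 0 := congrArg Prod.fst hD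
    have h4 : h D = 0 := congrArg Prod.snd hD
    have h5 := (NX_iff T D.2).1 ((ev2_ker hz hw D).1 h3)
    rw [NX_iff T D.2]
    intro c
    refine ⟨?_, (h5 c).2⟩
    have h6 : X' c ≤ kil T D.2 c := by
      refine (hs c).trans (sup_le (sup_le (fun x hx => (h5 c).1 x hx)
        (fun x hx => hA D D.2 c x hx)) ?_)
      rw [Submodule.span_le]
      rintro _ ⟨i, rfl⟩ o
      by_cases ho : o = some 0
      · subst ho
        exact (h5 c).2 _ (hXW c (hy c i))
      · obtain ⟨j, rfl⟩ := op_surj o ho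
        exact congrFun h4 ⟨c, i, j⟩
    exact fun x hx => h6 hx
  have h3 : finrank ℂ (LinearMap.range ((ev2 T z w).prod h)) ≤
      finrank ℂ (LinearMap.range (ev2 T z w)) + ∑ c, (e c + 1) * d c := by
    refine (finrank_range_prod_le _ _).trans ?_
    rw [finrank_fintype_fun_eq_card, Fintype.card_sigma]
    refine Nat.add_le_add_left (sum_le_sum (fun c _ => ?_)) _
    rw [Fintype.card_prod, Fintype.card_fin, Fintype.card_fin, mul_comm]
  have h4 : wtd T X' = wtd T X + wtd T A + ∑ c, (e c + 1) * d c := by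
    unfold wtd
    rw [← sum_add_distrib, ← sum_add_distrib]
    refine sum_congr rfl (fun c _ => ?_)
    rw [← hd c]
    ring
  rw [h1, h4]
  refine (add_le_add_left h2 _).trans ?_
  norm_cast
  omega

end Pool.Agent.TH813.G
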