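import Mathlib
import Pool.Agent.TH813.Rank
import Pool.Agent.TH813.CountN

/-!
# Points of a rational space where Schanuel's inequality fails, `n + 1` exponentials
-/

set_option autoImplicit false

namespace Pool.Agent.TH813.Sch

open Pool.Agent.W252 Pool.Agent.W669.Gel Module Finset
open Pool.Agent.TH813.Core Pool.Agent.TH813.Rank

/-- independent vectors have a nonzero minor -/
theorem exists_minor {K' : Type*} {m : ℕ} (x : Fin m → K' → ℂ)
    (hx : LinearIndependent ℂ x) : ∃ κ : Fin m → K',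
      (Matrix.of fun i j => x i (κ j)).det ≠ 0 := by
  classical
  let V' := Submodule.span ℂ (Set.range x)
  let e : Basis (Fin m) ℂ V' := Basis.span hx
  have : FiniteDimensional ℂ V' := Module.Finite.of_basis e
  obtain ⟨κ, hκ⟩ := Pool.Agent.TH813.Count.exists_sel e
    (fun k : K' => (LinearMap.proj k).comp V'.subtype) (by
    intro y hy
    apply Subtype.ext
    funext k
    exact hy k)
  refine ⟨κ, ?_⟩
  rw [← Matrix.det_transpose]
  convert! hκ using 2
  ext i l
  simp only [Matrix.transpose_apply, Matrix.of_apply, LinearMap.comp_apply,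
    Submodule.subtype_apply, LinearMap.proj_apply]
  have h1 : ((e l : V') : K' → ℂ) = x l := congrArg Subtype.val (Basis.span_apply hx l)
  rw [h1]

variable {n : ℕ} (V : Submodule ℚ (Fin (n + 1) → ℂ))

/-- the index set of the forms -/
abbrev Idx (n : ℕ) := (Fin (n + 1) → Derivation ℚ ℂ ℂ) ×
  (Fin (n + 1) → Fin (n + 1) ⊕ Fin (n + 1)) × Dual ℚ ℂ

/-- the determinants as multilinear forms -/
noncomputable def F (a : Idx n) : MultilinearMap ℚ (fun _ : Fin (n + 1) => V) ℚ :=
  a.2.2.compMultilinearMap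
    (((Matrix.detRowAlternating (n := Fin (n + 1)) (R := ℂ)).toMultilinearMap.restrictScalars
      ℚ).compLinearMap
      (fun i => (LinearMap.funLeft ℚ ℂ a.2.1) ∘ₗ (ccl (a.1 i)) ∘ₗ V.subtype))

theorem F_apply (a : Idx n) (v : Fin (n + 1) → V) :
    F V a v = a.2.2 (Matrix.of fun i j => cc (a.1 i) (v i : Fin (n + 1) → ℂ) (a.2.1 j)).det := rfl

theorem forms_zero (v : V) : (∀ a, F V a (fun _ => v) = 0) ↔
    finrank ℂ (LinearMap.range (ev (v : Fin (n + 1) → ℂ))) ≤ n := by
  classical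
  constructor
  · intro h
    by_contra hcon
    push Not at hcon
    let b := finBasis ℂ (LinearMap.range (ev (v : Fin (n + 1) → ℂ)))
    let x : Fin (n + 1) → (Fin (n + 1) ⊕ Fin (n + 1) → ℂ) := fun i => b (Fin.castLE hcon i)
    have hx : LinearIndependent ℂ x := (b.linearIndependent.map'
      (LinearMap.range (ev (v : Fin (n + 1) → ℂ))).subtype
      (Submodule.ker_subtype _)).comp _ (Fin.castLE_injective hcon)
    obtain ⟨κ, hκ⟩ := exists_minor x hx
    have hch : ∀ i, ∃ D, cc D (v : Fin (n + 1) → ℂ) = x i := fun i =>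
      (b (Fin.castLE hcon i)).2
    choose D hD using hch
    apply hκ
    apply (forall_dual_apply_eq_zero_iff ℚ _).1
    intro φ
    have := h (D, κ, φ)
    rw [F_apply] at this
    simp only [hD] at this
    exact this
  · intro h a
    rw [F_apply]
    have h1 : ¬ LinearIndependent ℂ (fun i => cc (a.1 i) (v : Fin (n + 1) → ℂ)) := by
      intro hli
      have h2 : LinearIndependent ℂ (fun i => (⟨cc (a.1 i) (v : Fin (n + 1) → ℂ), ⟨a.1 i, rfl⟩⟩ :
          LinearMap.range (ev (v : Fin (n + 1) → ℂ)))) := by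
        apply LinearIndependent.of_comp (LinearMap.range (ev (v : Fin (n + 1) → ℂ))).subtype
        exact hli
      have h3 := h2.fintype_card_le_finrank
      rw [Fintype.card_fin] at h3
      omega
    have h4 : (Matrix.of fun i j => cc (a.1 i) (v : Fin (n + 1) → ℂ) (a.2.1 j)).det = 0 := by
      by_contra hne
      apply h1
      have h5 : LinearIndependent ℂ (Matrix.of fun i j => cc (a.1 i) (v : Fin (n + 1) → ℂ)
          (a.2.1 j)).row := Matrix.linearIndependent_rows_of_det_ne_zero hne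
      have h6 : (Matrix.of fun i j => cc (a.1 i) (v : Fin (n + 1) → ℂ) (a.2.1 j)).row =
          (LinearMap.funLeft ℂ ℂ a.2.1) ∘ (fun i => cc (a.1 i) (v : Fin (n + 1) → ℂ)) := by
        funext i j
        rfl
      rw [h6] at h5
      exact LinearIndependent.of_comp _ h5
    rw [h4, map_zero]

/-- the tangent condition -/
theorem tangent {z v : V}
    (hz : finrank ℂ (LinearMap.range (ev (z : Fin (n + 1) → ℂ))) = n)
    (h : ∀ a, CountN.G (F V a) z z v = 0) :
    ∀ D : Derivation ℚ ℂ ℂ, cc D (z : Fin (n + 1) → ℂ) = 0 →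
      ∃ D', cc D (v : Fin (n + 1) → ℂ) = cc D' (z : Fin (n + 1) → ℂ) := by
  classical
  intro D hD
  let b := finBasisOfFinrankEq ℂ (LinearMap.range (ev (z : Fin (n + 1) → ℂ))) hz
  have hch : ∀ i, ∃ D, cc D (z : Fin (n + 1) → ℂ) = b i := fun i => (b i).2
  choose Dd hDd using hch
  by_contra hcon
  push Not at hcon
  -- independence
  have hb : LinearIndependent ℂ (fun i => (b i : Fin (n + 1) ⊕ Fin (n + 1) → ℂ)) :=
    b.linearIndependent.map' (LinearMap.range (ev (z : Fin (n + 1) → ℂ))).subtype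
      (Submodule.ker_subtype _)
  have hspan : cc D (v : Fin (n + 1) → ℂ) ∉
      Submodule.span ℂ (Set.range (fun i => (b i : Fin (n + 1) ⊕ Fin (n + 1) → ℂ))) := by
    intro hmem
    have hle : Submodule.span ℂ (Set.range (fun i => (b i : Fin (n + 1) ⊕ Fin (n + 1) → ℂ))) ≤
        LinearMap.range (ev (z : Fin (n + 1) → ℂ)) := by
      rw [Submodule.span_le]
      rintro _ ⟨i, rfl⟩
      exact (b i).2
    obtain ⟨D', hD'⟩ := hle hmem
    exact hcon D' hD'.symm
  have hli : LinearIndependent ℂ (Fin.snoc (fun i => (b i : Fin (n + 1) ⊕ Fin (n + 1) → ℂ))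
      (cc D (v : Fin (n + 1) → ℂ)) : Fin (n + 1) → (Fin (n + 1) ⊕ Fin (n + 1) → ℂ)) :=
    linearIndependent_finSnoc.2 ⟨hb, hspan⟩
  obtain ⟨κ, hκ⟩ := exists_minor _ hli
  apply hκ
  apply (forall_dual_apply_eq_zero_iff ℚ _).1
  intro φ
  have h1 := h (Fin.snoc Dd D, κ, φ)
  rw [CountN.G_self, Fin.sum_univ_castSucc, sum_eq_zero, zero_add] at h1
  · rw [F_apply] at h1
    rw [← h1]
    congr 2
    ext i j
    refine Fin.lastCases ?_ (fun i' => ?_) i
    · simp only [Matrix.of_apply, Fin.snoc_last]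
      congr 1
      congr 1
      rw [Fin.insertNth_apply_same]
    · simp only [Matrix.of_apply, Fin.snoc_castSucc]
      rw [← hDd i']
      congr 2
      rw [← Fin.succAbove_last_apply i', Fin.insertNth_apply_succAbove]
  · intro j _
    rw [F_apply]
    have h2 : (Matrix.of fun i j' => cc ((Fin.snoc Dd D : Fin (n + 1) → Derivation ℚ ℂ ℂ) i)
        ((j.castSucc.insertNth v (fun _ => z) : Fin (n + 1) → V) i : Fin (n + 1) → ℂ)
        (κ j')).det = 0 := by
      apply Matrix.det_eq_zero_of_row_eq_zero (Fin.last n)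
      intro j'
      rw [Matrix.of_apply, Fin.snoc_last]
      have h3 : (j.castSucc.insertNth v (fun _ => z) : Fin (n + 1) → V) (Fin.last n) = z := by
        have h4 : Fin.last n ≠ j.castSucc := (Fin.castSucc_lt_last j).ne'
        obtain ⟨i', hi'⟩ := Fin.exists_succAbove_eq h4
        rw [← hi', Fin.insertNth_apply_succAbove]
      rw [h3, hD]
      rfl
    change φ _ = 0
    rw [h2, map_zero]

/-- all the points of `V` attached to the field of `z` -/
def Wz (z : Fin (n + 1) → ℂ) : Submodule ℚ (Fin (n + 1) → ℂ) where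
  carrier := {v | v ∈ V ∧ ∀ D, cc D z = 0 → cc D v = 0}
  add_mem' := by
    rintro a b ⟨ha, ha'⟩ ⟨hb, hb'⟩
    refine ⟨V.add_mem ha hb, fun D hD => ?_⟩
    rw [← ccl_apply, map_add, ccl_apply, ccl_apply, ha' D hD, hb' D hD, add_zero]
  zero_mem' := ⟨V.zero_mem, fun D _ => by rw [← ccl_apply, map_zero]⟩
  smul_mem' := by
    rintro c a ⟨ha, ha'⟩
    refine ⟨V.smul_mem c ha, fun D hD => ?_⟩
    rw [← ccl_apply, map_smul, ccl_apply, ha' D hD, smul_zero]

/-- the points considered -/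
structure Good (z : Fin (n + 1) → ℂ) : Prop where
  mem : z ∈ V
  hA : ∀ D : Derivation ℚ ℂ ℂ, (∀ i, dlog D (z i) = 0) → ∀ i, D (z i) = 0
  hB : ∀ (D : Derivation ℚ ℂ ℂ) (q : Fin (n + 1) → ℚ), (∀ i, D (z i) = 0) →
      (∀ i, dlog D (z i) = q i) → q = 0
  hr : finrank ℂ (LinearMap.range (ev z)) = n

variable {V}

theorem Good.tan {z : Fin (n + 1) → ℂ} (hz : Good V z) {v : V}
    (h : ∀ a, CountN.G (F V a) ⟨z, hz.mem⟩ ⟨z, hz.mem⟩ v = 0) :
    ∀ D : Derivation ℚ ℂ ℂ, cc D z = 0 → cc D (v : Fin (n + 1) → ℂ) = 0 :=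
  core hz.hA hz.hB (tangent V (z := ⟨z, hz.mem⟩) hz.hr h)

theorem Wz_eq {z z' : Fin (n + 1) → ℂ} (hz : Good V z) (hz' : Good V z')
    (h : ∀ D : Derivation ℚ ℂ ℂ, cc D z = 0 → cc D z' = 0) : Wz V z = Wz V z' := by
  have h1 : LinearMap.ker (ev z) = LinearMap.ker (ev z') :=
    ker_eq_of_finrank (ev z) (ev z') (fun D hD => h D hD) (by rw [hz.hr, hz'.hr])
  have h2 : ∀ D : Derivation ℚ ℂ ℂ, cc D z = 0 ↔ cc D z' = 0 := fun D => by
    have := SetLike.ext_iff.1 h1 D
    rwa [LinearMap.mem_ker, LinearMap.mem_ker] at this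
  ext v
  constructor
  · rintro ⟨h3, h4⟩
    exact ⟨h3, fun D hD => h4 D ((h2 D).2 hD)⟩
  · rintro ⟨h3, h4⟩
    exact ⟨h3, fun D hD => h4 D ((h2 D).1 hD)⟩

theorem rank_Wz {z v : Fin (n + 1) → ℂ} (hz : Good V z) (hv : v ∈ Wz V z) :
    finrank ℂ (LinearMap.range (ev v)) ≤ n := by
  exact (finrank_range_le (ev z) (ev v) (fun D hD => hv.2 D hD)).trans hz.hr.le

variable (V)

theorem card_le [FiniteDimensional ℚ V] (S : Finset (Submodule ℚ (Fin (n + 1) → ℂ)))
    (hS : ∀ W ∈ S, ∃ z, Good V z ∧ W = Wz V z) :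
    S.card ≤ ((n + 1) * finrank ℚ V).choose (finrank ℚ V) := by
  classical
  choose! z hz hW using hS
  let f : S → V := fun W => ⟨z W, (hz W W.2).mem⟩
  have hinj : Function.Injective f := by
    intro W W' h
    have h1 : z W = z W' := congrArg (fun v : V => (v : Fin (n + 1) → ℂ)) h
    apply Subtype.ext
    rw [hW W W.2, hW W' W'.2, h1]
  have hcard : S.card = (Finset.univ.image f).card := by
    rw [Finset.card_image_of_injective _ hinj, Finset.card_univ, Fintype.card_coe]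
  rw [hcard]
  apply CountN.count (F V)
  · intro t ht
    obtain ⟨W, _, rfl⟩ := Finset.mem_image.1 ht
    exact (forms_zero V _).2 (hz W W.2).hr.le
  · intro t ht τ hτ
    obtain ⟨W, _, rfl⟩ := Finset.mem_image.1 ht
    have h1 := (hz W W.2).tan hτ
    exact (forms_zero V _).2 (rank_Wz (hz W W.2) ⟨τ.2, h1⟩)
  · intro t ht t' ht' hne
    obtain ⟨W, _, rfl⟩ := Finset.mem_image.1 ht
    obtain ⟨W', _, rfl⟩ := Finset.mem_image.1 ht'
    by_contra hcon
    push Not at hcon
    apply hne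
    have h1 := (hz W W.2).tan hcon
    have h2 := Wz_eq (hz W W.2) (hz W' W'.2) h1
    congr 1
    apply Subtype.ext
    rw [hW W W.2, hW W' W'.2, h2]

theorem finite_classes [FiniteDimensional ℚ V] :
    {W | ∃ z, Good V z ∧ W = Wz V z}.Finite := by
  by_contra hinf
  obtain ⟨S, hS, hcard⟩ := (Set.not_finite.1 hinf : Set.Infinite _).exists_subset_card_eq
    (((n + 1) * finrank ℚ V).choose (finrank ℚ V) + 1)
  have := card_le V S (fun W hW => hS hW)
  omega

variable {V}

/-- the points of the theorem are good -/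
theorem good_of {z : Fin (n + 1) → ℂ} (hz : z ∈ V)
    (h1 : ∀ i, IsAlgebraic (IntermediateField.adjoin ℚ (Set.range fun j => Complex.exp (z j))) (z i))
    (h2 : ∀ A : Matrix (Fin n) (Fin (n + 1)) ℚ, LinearIndependent ℚ (fun i => A i) →
      (n : Cardinal) ≤ td (comb A z))
    (h3 : ¬ ((n + 1 : ℕ) : Cardinal) ≤ td z) : Good V z := by
  classical
  have hle : finrank ℂ (LinearMap.range (ev z)) ≤ n := by
    rw [le_td_iff] at h3
    omega
  refine ⟨hz, ?_, ?_, ?_⟩
  · intro D hD i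
    refine Pool.Agent.H327R2.SC.der_alg _ D (Pool.Agent.H327R2.SC.kills_adjoin D ?_) (h1 i)
    rintro _ ⟨j, rfl⟩
    exact dlog_eq_zero.1 (hD j)
  · intro D q hD hq
    by_contra hne
    obtain ⟨A, hA, hA2⟩ := exists_ortho q
    have h4 := (le_td_iff n _).1 (h2 A hA)
    have h5 := rank_loss A z D (by
      intro h0
      apply hne
      funext i
      have h6 := (cc_eq_zero.1 h0).2 i
      rw [hq i] at h6
      exact_mod_cast h6) (by
      funext k
      rcases k with i | i
      · change ∑ j, (A i j : ℂ) * D (z j) = 0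
        exact sum_eq_zero (fun j _ => by rw [hD j, mul_zero])
      · change ∑ j, (A i j : ℂ) * dlog D (z j) = 0
        have h7 : ∑ j, (A i j : ℂ) * dlog D (z j) = ((∑ j, A i j * q j : ℚ) : ℂ) := by
          push_cast
          exact sum_congr rfl (fun j _ => by rw [hq j])
        rw [h7, hA2 i, Rat.cast_zero])
    omega
  · apply le_antisymm hle
    obtain ⟨A, hA, -⟩ := exists_ortho (0 : Fin (n + 1) → ℚ)
    have h4 := (le_td_iff n _).1 (h2 A hA)
    refine h4.trans ?_
    rw [← lm_ev, LinearMap.range_comp]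
    exact Submodule.finrank_map_le _ _

/-- **Main theorem.** -/
theorem main (V : Submodule ℚ (Fin (n + 1) → ℂ)) [FiniteDimensional ℚ V] :
    ∃ S : Finset (Submodule ℚ (Fin (n + 1) → ℂ)),
      S.card ≤ ((n + 1) * finrank ℚ V).choose (finrank ℚ V) ∧
      (∀ W ∈ S, W ≤ V ∧ ∀ w ∈ W, ¬ ((n + 1 : ℕ) : Cardinal) ≤ td w) ∧
      ∀ z ∈ V, (∀ i, IsAlgebraic
          (IntermediateField.adjoin ℚ (Set.range fun j => Complex.exp (z j))) (z i)) →
        (∀ A : Matrix (Fin n) (Fin (n + 1)) ℚ, LinearIndependent ℚ (fun i => A i) →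
          (n : Cardinal) ≤ td (comb A z)) →
        (¬ ((n + 1 : ℕ) : Cardinal) ≤ td z ↔ ∃ W ∈ S, z ∈ W) := by
  classical
  set S := (finite_classes V).toFinset with hS
  have hSm : ∀ W, W ∈ S ↔ ∃ z, Good V z ∧ W = Wz V z := fun W => by
    rw [hS, Set.Finite.mem_toFinset]; rfl
  have h5 : ∀ W ∈ S, W ≤ V ∧ ∀ w ∈ W, ¬ ((n + 1 : ℕ) : Cardinal) ≤ td w := by
    intro W hW
    obtain ⟨z, hz, rfl⟩ := (hSm W).1 hW
    refine ⟨fun x hx => hx.1, fun w hw => ?_⟩
    rw [le_td_iff]
    have := rank_Wz hz hw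
    omega
  refine ⟨S, card_le V S (fun W hW => (hSm W).1 hW), h5, fun z hz h1 h2 => ⟨fun h3 => ?_, ?_⟩⟩
  · exact ⟨Wz V z, (hSm _).2 ⟨z, good_of hz h1 h2 h3, rfl⟩, hz, fun D hD => hD⟩
  · rintro ⟨W, hW, hzW⟩
    exact (h5 W hW).2 z hzW

end Pool.Agent.TH813.Sch
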