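import Mathlib
import Pool.Agent.TH813.Sch
import Pool.Agent.TH813.GCore
import Pool.Agent.TH813.GRel

/-!
# Points of any transcendence degree in a rational space, families of group types
-/

set_option autoImplicit false

open Finset Module

noncomputable section

namespace Pool.Agent.TH813.GAny

open Pool.Agent.W252 Pool.Agent.W669.Gel
open Pool.Agent.TH813.G
open Pool.Agent.TH813.Rel (DF MK trF)
open Pool.Agent.TH813.Rank (ker_eq_of_finrank finrank_range_le)

variable {K : IntermediateField ℚ ℂ} {q : ℕ} {e : Fin q → ℕ} (T : Fam K e) {n : Fin q → ℕ}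
  {m : ℕ} (V : Submodule ℚ (Tu n))

/-- the coordinates as a rational linear map -/
def vecL (D : DF K) : Tu n →ₗ[ℚ] (Ix e n → ℂ) where
  toFun z := vec T D z
  map_add' z w := funext (fun κ => (T κ.1).frm_add κ.2.2 D.2 (z κ.1 κ.2.1) (w κ.1 κ.2.1))
  map_smul' a z := funext (fun κ => by
    rw [RingHom.id_apply, Pi.smul_apply, Rat.smul_def]
    exact (T κ.1).frm_rat κ.2.2 D.2 a (z κ.1 κ.2.1))

theorem vecL_apply (D : DF K) (z : Tu n) : vecL T D z = vec T D z := rfl

/-- the index set of the forms -/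
abbrev Idx (K : IntermediateField ℚ ℂ) (e n : Fin q → ℕ) (m : ℕ) := (Fin (m + 1) → DF K) ×
  (Fin (m + 1) → Ix e n) × Dual ℚ ℂ

/-- the determinants as multilinear forms -/
def F (a : Idx K e n m) : MultilinearMap ℚ (fun _ : Fin (m + 1) => V) ℚ :=
  a.2.2.compMultilinearMap
    (((Matrix.detRowAlternating (n := Fin (m + 1)) (R := ℂ)).toMultilinearMap.restrictScalars
      ℚ).compLinearMap
      (fun i => (LinearMap.funLeft ℚ ℂ a.2.1) ∘ₗ (vecL T (a.1 i)) ∘ₗ V.subtype))

theorem F_apply (a : Idx K e n m) (v : Fin (m + 1) → V) :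
    F T V a v = a.2.2 (Matrix.of fun i j =>
      vec T (a.1 i : Derivation ℚ ℂ ℂ) (v i : Tu n) (a.2.1 j)).det := rfl

theorem forms_zero (v : V) : (∀ a : Idx K e n m, F T V a (fun _ => v) = 0) ↔
    finrank ℂ (LinearMap.range (ev T (v : Tu n))) ≤ m := by
  classical
  constructor
  · intro h
    by_contra hcon
    push Not at hcon
    let b := finBasis ℂ (LinearMap.range (ev T (v : Tu n)))
    let x : Fin (m + 1) → (Ix e n → ℂ) := fun i => b (Fin.castLE hcon i)
    have hx : LinearIndependent ℂ x := (b.linearIndependent.map'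
      (LinearMap.range (ev T (v : Tu n))).subtype
      (Submodule.ker_subtype _)).comp _ (Fin.castLE_injective hcon)
    obtain ⟨κ, hκ⟩ := Sch.exists_minor x hx
    have hch : ∀ i, ∃ D : DF K, vec T (D : Derivation ℚ ℂ ℂ) (v : Tu n) = x i := fun i =>
      (b (Fin.castLE hcon i)).2
    choose D hD using hch
    apply hκ
    apply (forall_dual_apply_eq_zero_iff ℚ _).1
    intro φ
    have := h (D, κ, φ)
    rw [F_apply] at this
    simp only [hD] at this
    exact this
  · intro h a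
    rw [F_apply]
    have h1 : ¬ LinearIndependent ℂ
        (fun i => vec T (a.1 i : Derivation ℚ ℂ ℂ) (v : Tu n)) := by
      intro hli
      have h2 : LinearIndependent ℂ (fun i =>
          (⟨vec T (a.1 i : Derivation ℚ ℂ ℂ) (v : Tu n), ⟨a.1 i, rfl⟩⟩ :
          LinearMap.range (ev T (v : Tu n)))) := by
        apply LinearIndependent.of_comp (LinearMap.range (ev T (v : Tu n))).subtype
        exact hli
      have h3 := h2.fintype_card_le_finrank
      rw [Fintype.card_fin] at h3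
      omega
    have h4 : (Matrix.of fun i j =>
        vec T (a.1 i : Derivation ℚ ℂ ℂ) (v : Tu n) (a.2.1 j)).det = 0 := by
      by_contra hne
      apply h1
      have h5 : LinearIndependent ℂ (Matrix.of fun i j =>
          vec T (a.1 i : Derivation ℚ ℂ ℂ) (v : Tu n) (a.2.1 j)).row :=
        Matrix.linearIndependent_rows_of_det_ne_zero hne
      have h6 : (Matrix.of fun i j =>
          vec T (a.1 i : Derivation ℚ ℂ ℂ) (v : Tu n) (a.2.1 j)).row =
          (LinearMap.funLeft ℂ ℂ a.2.1) ∘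
            (fun i => vec T (a.1 i : Derivation ℚ ℂ ℂ) (v : Tu n)) := by
        funext i j
        rfl
      rw [h6] at h5
      exact LinearIndependent.of_comp _ h5
    rw [h4, map_zero]

/-- the tangent condition -/
theorem tangent {z v : V}
    (hz : finrank ℂ (LinearMap.range (ev T (z : Tu n))) = m)
    (h : ∀ a : Idx K e n m, CountN.G (F T V a) z z v = 0) :
    ∀ D ∈ DF K, vec T D (z : Tu n) = 0 →
      ∃ D' ∈ DF K, vec T D (v : Tu n) = vec T D' (z : Tu n) := by
  classical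
  intro D hDK hD
  let b := finBasisOfFinrankEq ℂ (LinearMap.range (ev T (z : Tu n))) hz
  have hch : ∀ i, ∃ D : DF K, vec T (D : Derivation ℚ ℂ ℂ) (z : Tu n) = b i := fun i => (b i).2
  choose Dd hDd using hch
  by_contra hcon
  push Not at hcon
  -- independence
  have hb : LinearIndependent ℂ (fun i => (b i : Ix e n → ℂ)) :=
    b.linearIndependent.map' (LinearMap.range (ev T (z : Tu n))).subtype
      (Submodule.ker_subtype _)
  have hspan : vec T D (v : Tu n) ∉
      Submodule.span ℂ (Set.range (fun i => (b i : Ix e n → ℂ))) := by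
    intro hmem
    have hle : Submodule.span ℂ (Set.range (fun i => (b i : Ix e n → ℂ))) ≤
        LinearMap.range (ev T (z : Tu n)) := by
      rw [Submodule.span_le]
      rintro _ ⟨i, rfl⟩
      exact (b i).2
    obtain ⟨D', hD'⟩ := hle hmem
    exact hcon D' D'.2 hD'.symm
  have hli : LinearIndependent ℂ (Fin.snoc (fun i => (b i : Ix e n → ℂ))
      (vec T D (v : Tu n)) : Fin (m + 1) → (Ix e n → ℂ)) :=
    linearIndependent_finSnoc.2 ⟨hb, hspan⟩
  obtain ⟨κ, hκ⟩ := Sch.exists_minor _ hli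
  apply hκ
  apply (forall_dual_apply_eq_zero_iff ℚ _).1
  intro φ
  have h1 := h (Fin.snoc Dd ⟨D, hDK⟩, κ, φ)
  rw [CountN.G_self, Fin.sum_univ_castSucc, sum_eq_zero, zero_add] at h1
  · rw [F_apply] at h1
    rw [← h1]
    congr 2
    ext i j
    refine Fin.lastCases ?_ (fun i' => ?_) i
    · simp only [Matrix.of_apply, Fin.snoc_last]
      congr 1
      congr 1
      rw [Fin.insertNth_apply_same]
    · simp only [Matrix.of_apply, Fin.snoc_castSucc]
      rw [← hDd i']
      congr 2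
      rw [← Fin.succAbove_last_apply i', Fin.insertNth_apply_succAbove]
  · intro j _
    rw [F_apply]
    have h2 : (Matrix.of fun i j' =>
        vec T ((Fin.snoc Dd ⟨D, hDK⟩ : Fin (m + 1) → DF K) i : Derivation ℚ ℂ ℂ)
        ((j.castSucc.insertNth v (fun _ => z) : Fin (m + 1) → V) i : Tu n)
        (κ j')).det = 0 := by
      apply Matrix.det_eq_zero_of_row_eq_zero (Fin.last m)
      intro j'
      rw [Matrix.of_apply, Fin.snoc_last]
      have h3 : (j.castSucc.insertNth v (fun _ => z) : Fin (m + 1) → V) (Fin.last m) = z := by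
        have h4 : Fin.last m ≠ j.castSucc := (Fin.castSucc_lt_last j).ne'
        obtain ⟨i', hi'⟩ := Fin.exists_succAbove_eq h4
        rw [← hi', Fin.insertNth_apply_succAbove]
      rw [h3, hD]
      rfl
    change φ _ = 0
    rw [h2, map_zero]

/-- all the points of `V` attached to the field of `z` -/
def Wz (z : Tu n) : Submodule ℚ (Tu n) where
  carrier := {v | v ∈ V ∧ ∀ D ∈ DF K, vec T D z = 0 → vec T D v = 0}
  add_mem' := by
    rintro a b ⟨ha, ha'⟩ ⟨hb, hb'⟩
    refine ⟨V.add_mem ha hb, fun D hK hD => ?_⟩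
    have := map_add (vecL T ⟨D, hK⟩) a b
    rw [vecL_apply, vecL_apply, vecL_apply] at this
    rw [this, ha' D hK hD, hb' D hK hD, add_zero]
  zero_mem' := ⟨V.zero_mem, fun D hK _ => map_zero (vecL (n := n) T ⟨D, hK⟩)⟩
  smul_mem' := by
    rintro c a ⟨ha, ha'⟩
    refine ⟨V.smul_mem c ha, fun D hK hD => ?_⟩
    have := map_smul (vecL T ⟨D, hK⟩) c a
    rw [vecL_apply, vecL_apply] at this
    rw [this, ha' D hK hD, smul_zero]

/-- the points considered -/
structure Good (m : ℕ) (z : Tu n) : Prop where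
  hA : ∀ D ∈ DF K, (∀ c i, (T c).lam 0 D (z c i) = 0) → vec T D z = 0
  hB : ∀ (c : Fin q) (Dj : Fin (e c + 1) → Derivation ℚ ℂ ℂ), (∀ j, Dj j ∈ DF K) →
      ∀ r : Fin (n c) → (T c).k, (∀ j, Sup T (Dj j) z c j r) → r = 0
  hr : finrank ℂ (LinearMap.range (ev T z)) = m

variable {V} {T}

theorem Good.tan (hR : Ros T) {z : V} (hz : Good T m (z : Tu n)) {v : V}
    (h : ∀ a : Idx K e n m, CountN.G (F T V a) z z v = 0) :
    ∀ D ∈ DF K, vec T D (z : Tu n) = 0 → vec T D (v : Tu n) = 0 := by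
  have ht := tangent T V hz.hr h
  intro D hDK hD
  have h1 := core T hR (ι := fun c => Fin (n c)) (z := (z : Tu n)) (w := (v : Tu n))
    (v := (z : Tu n)) (w' := (v : Tu n)) hz.hB
    (fun D _ hD c i => (vec_eq_zero T).1 hD c i (some 0))
    (fun D hDK hD => by
      obtain ⟨D', hD', he⟩ := ht D hDK hD
      exact ⟨D', hD', he, fun c i => congrFun he ⟨c, i, some 0⟩⟩) D hDK hD
  obtain ⟨D', hD', he⟩ := ht D hDK hD
  rw [he]
  exact hz.hA D' hD' (fun c i => (congrFun he ⟨c, i, some 0⟩).symm.trans (h1 c i))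

theorem mem_ker_ev {z : Tu n} {D : DF K} :
    D ∈ LinearMap.ker (ev T z) ↔ vec T (D : Derivation ℚ ℂ ℂ) z = 0 := by
  rw [LinearMap.mem_ker, ev_apply]

theorem Wz_eq {z z' : Tu n} (hz : finrank ℂ (LinearMap.range (ev T z)) = m)
    (hz' : finrank ℂ (LinearMap.range (ev T z')) = m)
    (h : ∀ D ∈ DF K, vec T D z = 0 → vec T D z' = 0) : Wz T V z = Wz T V z' := by
  have h1 : LinearMap.ker (ev T z) = LinearMap.ker (ev T z') :=
    ker_eq_of_finrank (ev T z) (ev T z')
      (fun D hD => mem_ker_ev.2 (h D D.2 (mem_ker_ev.1 hD))) (by rw [hz, hz'])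
  have h2 : ∀ D ∈ DF K, vec T D z = 0 ↔ vec T D z' = 0 := fun D hD => by
    have := SetLike.ext_iff.1 h1 ⟨D, hD⟩
    rwa [mem_ker_ev, mem_ker_ev] at this
  ext v
  constructor
  · rintro ⟨h3, h4⟩
    exact ⟨h3, fun D hK hD => h4 D hK ((h2 D hK).2 hD)⟩
  · rintro ⟨h3, h4⟩
    exact ⟨h3, fun D hK hD => h4 D hK ((h2 D hK).1 hD)⟩

theorem rank_Wz {z v : Tu n} (hz : finrank ℂ (LinearMap.range (ev T z)) = m)
    (hv : v ∈ Wz T V z) : finrank ℂ (LinearMap.range (ev T v)) ≤ m :=
  (finrank_range_le (ev T z) (ev T v)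
    (fun D hD => mem_ker_ev.2 (hv.2 D D.2 (mem_ker_ev.1 hD)))).trans hz.le

variable (V)

theorem card_le (hR : Ros T) [FiniteDimensional ℚ V] (S : Finset (Submodule ℚ (Tu n)))
    (hS : ∀ W ∈ S, ∃ z, z ∈ V ∧ Good T m z ∧ W = Wz T V z) :
    S.card ≤ ((m + 1) * finrank ℚ V).choose (finrank ℚ V) := by
  classical
  choose! z hzV hz hW using hS
  let f : S → V := fun W => ⟨z W, hzV W W.2⟩
  have hinj : Function.Injective f := by
    intro W W' h
    have h1 : z W = z W' := congrArg (fun v : V => (v : Tu n)) h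
    apply Subtype.ext
    rw [hW W W.2, hW W' W'.2, h1]
  have hcard : S.card = (Finset.univ.image f).card := by
    rw [Finset.card_image_of_injective _ hinj, Finset.card_univ, Fintype.card_coe]
  rw [hcard]
  apply CountN.count (F (m := m) T V)
  · intro t ht
    obtain ⟨W, _, rfl⟩ := Finset.mem_image.1 ht
    exact (forms_zero T V _).2 (hz W W.2).hr.le
  · intro t ht τ hτ
    obtain ⟨W, _, rfl⟩ := Finset.mem_image.1 ht
    have h1 := Good.tan hR (z := f W) (hz W W.2) hτ
    exact (forms_zero T V _).2 (rank_Wz (V := V) (hz W W.2).hr ⟨τ.2, h1⟩)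
  · intro t ht t' ht' hne
    obtain ⟨W, _, rfl⟩ := Finset.mem_image.1 ht
    obtain ⟨W', _, rfl⟩ := Finset.mem_image.1 ht'
    by_contra hcon
    push Not at hcon
    apply hne
    have h1 := Good.tan hR (z := f W) (hz W W.2) hcon
    have h2 := Wz_eq (V := V) (hz W W.2).hr (hz W' W'.2).hr h1
    have h3 : W = W' := Subtype.ext ((hW W W.2).trans (h2.trans (hW W' W'.2).symm))
    rw [h3]

variable (T)

/-- the numbers of a point -/
def numT (z : Tu n) : Set ℂ := {x | ∃ c i, x ∈ (T c).N (z c i)}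

/-- the coordinates of a point of the group -/
def valT (z : Tu n) : Set ℂ := {x | ∃ c i, x ∈ (T c).W (z c i)}

/-- the numbers of a space -/
def numS (W : Submodule ℚ (Tu n)) : Set ℂ := {x | ∃ z ∈ W, x ∈ numT T z}

variable {T}

theorem numT_iff {D : Derivation ℚ ℂ ℂ} (hD : D ∈ DF K) {z : Tu n} :
    (∀ x ∈ numT T z, D x = 0) ↔ vec T D z = 0 := by
  rw [vec_eq_zero]
  constructor
  · intro h c i
    exact ((T c).N_iff' hD (z c i)).1 (fun x hx => h x ⟨c, i, hx⟩)
  · rintro h x ⟨c, i, hx⟩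
    exact ((T c).N_iff' hD (z c i)).2 (h c i) x hx

theorem valT_iff {D : Derivation ℚ ℂ ℂ} (hD : D ∈ DF K) {z : Tu n} :
    (∀ x ∈ valT T z, D x = 0) ↔ ∀ c i, (T c).lam 0 D (z c i) = 0 := by
  constructor
  · intro h c i
    exact ((T c).W_iff D hD (z c i)).1 (fun x hx => h x ⟨c, i, hx⟩)
  · rintro h x ⟨c, i, hx⟩
    exact ((T c).W_iff D hD (z c i)).2 (h c i) x hx

theorem tr_num (z : Tu n) : trF K (numT T z) = (finrank ℂ (LinearMap.range (ev T z)) : ℕ) :=
  trF_eq_of_rk (rk_eq_of_ker (ev T z) _ (fun D => by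
    rw [ev_apply]
    exact (numT_iff D.2).symm))

theorem tr_val {z : Tu n}
    (hA : ∀ D ∈ DF K, (∀ c i, (T c).lam 0 D (z c i) = 0) → vec T D z = 0) :
    trF K (valT T z) = (finrank ℂ (LinearMap.range (ev T z)) : ℕ) :=
  trF_eq_of_rk (rk_eq_of_ker (ev T z) _ (fun D => by
    rw [ev_apply, valT_iff D.2]
    exact ⟨fun h c i => (vec_eq_zero T).1 h c i (some 0), hA D D.2⟩))

theorem tr_numS {z : Tu n} (hz : z ∈ V) :
    trF K (numS T (Wz T V z)) = (finrank ℂ (LinearMap.range (ev T z)) : ℕ) :=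
  trF_eq_of_rk (rk_eq_of_ker (ev T z) _ (fun D => by
    rw [ev_apply]
    constructor
    · rintro h x ⟨w, hw, hx⟩
      exact (numT_iff D.2).2 (hw.2 D D.2 h) x hx
    · intro h
      exact (numT_iff D.2).1 (fun x hx => h x ⟨z, ⟨hz, fun _ _ h => h⟩, hx⟩)))

/-- **Main theorem.** -/
theorem main (hR : Ros T) (m : ℕ) (V : Submodule ℚ (Tu n)) [FiniteDimensional ℚ V] :
    ∃ S : Finset (Submodule ℚ (Tu n)),
      S.card ≤ ((m + 1) * finrank ℚ V).choose (finrank ℚ V) ∧
      (∀ W ∈ S, W ≤ V ∧ trF K (numS T W) = m ∧ ∃ z ∈ W, trF K (valT T z) = m) ∧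
      (∀ W ∈ S, ∀ W' ∈ S, W ≠ W' → ∀ z ∈ W, z ∈ W' → trF K (numT T z) < m) ∧
      ∀ z ∈ V, Good T m z → ∃ W ∈ S, z ∈ W := by
  classical
  have hfin : {W | ∃ z, z ∈ V ∧ Good T m z ∧ W = Wz T V z}.Finite := by
    by_contra hinf
    obtain ⟨S, hS, hcard⟩ := (Set.not_finite.1 hinf : Set.Infinite _).exists_subset_card_eq
      (((m + 1) * finrank ℚ V).choose (finrank ℚ V) + 1)
    have := card_le V hR S (fun W hW => hS hW)
    omega
  have hm : ∀ W, W ∈ hfin.toFinset ↔ ∃ z, z ∈ V ∧ Good T m z ∧ W = Wz T V z := fun W =>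
    Set.Finite.mem_toFinset hfin
  refine ⟨hfin.toFinset, card_le V hR _ (fun W hW => (hm W).1 hW), fun W hW => ?_,
    fun W hW W' hW' hne v hv hv' => ?_, fun z hz hg => ?_⟩
  · obtain ⟨z, hzV, hz, rfl⟩ := (hm W).1 hW
    refine ⟨fun x hx => hx.1, ?_, z, ⟨hzV, fun _ _ h => h⟩, ?_⟩
    · rw [tr_numS V hzV, hz.hr]
    · rw [tr_val hz.hA, hz.hr]
  · obtain ⟨z, hzV, hz, rfl⟩ := (hm W).1 hW
    obtain ⟨z', hzV', hz', rfl⟩ := (hm W').1 hW'
    rw [tr_num]
    have h1 := rank_Wz hz.hr hv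
    rcases lt_or_eq_of_le h1 with h2 | h2
    · exact_mod_cast h2
    · exfalso
      apply hne
      rw [Wz_eq hz.hr h2 hv.2, Wz_eq hz'.hr h2 hv'.2]
  · exact ⟨Wz T V z, (hm _).2 ⟨z, hz, hg, rfl⟩, hz, fun _ _ h => h⟩

end Pool.Agent.TH813.GAny
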