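import Mathlib
import Pool.Agent.TH813.EKRel

/-!
# Points outside the lattice
-/

set_option autoImplicit false

open Finset Module
open scoped PeriodPair ComplexConjugate

noncomputable section

namespace Pool.Agent.TH813.Ell

open H667R3 Pool.Agent.W245.EB
open Pool.Agent.W252 Pool.Agent.W669.Gel
open Pool.Agent.TH813.Core Pool.Agent.TH813.Rank
open Pool.Agent.TH813.Rel (DF MK mem_cl subset_cl kills_clF rk_le_of_subset_cl trF clF
  cl_of_base)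
open Pool.Agent.TH813.Uni (trF_le_iff tr tr_add tr_eq tr_mono tr_empty)

variable {L : PeriodPair} {κ : ℂ} {F : IntermediateField ℚ ℂ} {s n : ℕ}

/-- a basis outside the lattice -/
theorem exists_basis_off (X : Submodule (kL L) ℂ) [FiniteDimensional (kL L) X] :
    ∃ p : Fin (finrank (kL L) X) → ℂ, LinearIndependent (kL L) p ∧ (∀ i, p i ∈ X) ∧
      ∀ i, p i ∉ L.lattice := by
  classical
  let b := finBasis (kL L) X
  have hb : LinearIndependent (kL L) (fun i => (b i : ℂ)) :=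
    b.linearIndependent.map' X.subtype (Submodule.ker_subtype _)
  choose N hN hN' using fun i => exists_div_notMem (L := L) (hb.ne_zero i)
  have hq : ∀ i (x : ℂ), ((N i : ℚ)⁻¹ : ℚ) • x =
      (((N i : ℚ)⁻¹ : ℚ) : kL L) • x := by
    intro i x
    rw [Rat.smul_def]
    change _ = ((((N i : ℚ)⁻¹ : ℚ) : kL L) : ℂ) * x
    congr 1
  have hu : ∀ i, (((N i : ℚ)⁻¹ : ℚ) : kL L) ≠ 0 := by
    intro i
    have h1 : ((N i : ℚ)⁻¹ : ℚ) ≠ 0 := inv_ne_zero (by exact_mod_cast (hN i).ne')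
    exact_mod_cast h1
  refine ⟨fun i => ((N i : ℚ)⁻¹ : ℚ) • (b i : ℂ), ?_, fun i => ?_, fun i => hN' i⟩
  · have h3 := hb.units_smul (fun i => Units.mk0 _ (hu i))
    convert h3 using 1
    funext i
    exact hq i _
  · change ((N i : ℚ)⁻¹ : ℚ) • (b i : ℂ) ∈ X
    rw [hq]
    exact X.smul_mem _ (b i).2

/-- the field generated by points outside the lattice -/
theorem tr_points_ge (P : Set ℂ) (t : Fin s → ℂ) (p : Fin n → ℂ) (hp : ∀ i, p i ∉ L.lattice)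
    (hS : ∀ i, t i ∈ P ∧ Complex.exp (t i) ∈ P)
    (hS' : ∀ i, p i ∈ P ∧ ℘[L] (p i) ∈ P ∧ zeta L (p i) ∈ P) (h2 : L.g₂ ∈ P) (h3 : L.g₃ ∈ P)
    {A₁ X₁ : Submodule ℚ ℂ} {A₂ X₂ : Submodule (kL L) ℂ}
    (hA₁ : ∀ D : Derivation ℚ ℂ ℂ, (∀ x ∈ P, D x = 0) → ∀ a ∈ A₁, D a = 0 ∧ dl D a = 0)
    (hA₂ : ∀ D : Derivation ℚ ℂ ℂ, (∀ x ∈ P, D x = 0) →
      ∀ a ∈ A₂, D a = 0 ∧ om L D a = 0 ∧ et L D a = 0)
    (hX₁ : X₁ ≤ A₁ ⊔ Submodule.span ℚ (Set.range t))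
    (hX₂ : X₂ ≤ A₂ ⊔ Submodule.span (kL L) (Set.range p))
    {m : ℕ} (hm : tr P ≤ m) : tr (NK L X₁ X₁ X₂ X₂) ≤ m := by
  obtain ⟨κ, hE⟩ := exists_eig L
  rw [tr_eq, trF_le_iff] at hm ⊢
  refine le_trans (rk_le_of_subset_cl ?_) hm
  intro x hx
  rw [mem_cl_iff]
  intro D hF hD
  have e2 := hD _ h2
  have e3 := hD _ h3
  have h4 : ∀ a ∈ X₁, D a = 0 ∧ dl D a = 0 := by
    have h5 : X₁ ≤ LinearMap.ker (D : ℂ →ₗ[ℚ] ℂ) := by
      refine hX₁.trans (sup_le (fun a ha => (hA₁ D hD a ha).1) ?_)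
      rw [Submodule.span_le]
      rintro _ ⟨i, rfl⟩
      exact hD _ (hS i).1
    have h6 : X₁ ≤ LinearMap.ker (dl D) := by
      refine hX₁.trans (sup_le (fun a ha => (hA₁ D hD a ha).2) ?_)
      rw [Submodule.span_le]
      rintro _ ⟨i, rfl⟩
      exact dlog_eq_zero.2 (hD _ (hS i).2)
    exact fun a ha => ⟨h5 ha, h6 ha⟩
  have h7 : X₂ ≤ ZK hE D e2 e3 := by
    refine hX₂.trans (sup_le (fun a ha => hA₂ D hD a ha) ?_)
    rw [Submodule.span_le]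
    rintro _ ⟨i, rfl⟩
    have hom : om L D (p i) = 0 := om_of_killed (fun _ => hD _ (hS' i).2.1)
    refine ⟨hD _ (hS' i).1, hom, ?_⟩
    unfold et
    rw [hom, mul_zero, add_zero, zt_of_notMem (hp i)]
    exact hD _ (hS' i).2.2
  refine (NK_iff e2 e3 X₁ X₁ (le_refl X₂)).2 ?_ x hx
  rintro x ((hx | ⟨w, hw, rfl⟩) | (hx | (⟨w, hw, rfl⟩ | ⟨w, ⟨hw, hwl⟩, rfl⟩)))
  · exact (h4 x hx).1
  · exact dlog_eq_zero.1 (h4 w hw).2
  · exact (h7 hx).1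
  · exact zt_killed (h7 hw).2.1 (h7 hw).2.2
  · exact (wp_killed e2 e3 (h7 hw).2.1 hwl).1

end Pool.Agent.TH813.Ell
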