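import Mathlib
import Pool.Agent.TH813.EKPts

/-!
# The periods
-/

set_option autoImplicit false

open Finset Module
open scoped PeriodPair ComplexConjugate

noncomputable section

namespace Pool.Agent.TH813.Ell

open H667R3 Pool.Agent.W245.EB
open Pool.Agent.W252 Pool.Agent.W669.Gel
open Pool.Agent.TH813.Core Pool.Agent.TH813.Rank
open Pool.Agent.TH813.Rel (DF MK mem_cl subset_cl kills_clF rk_le_of_subset_cl trF clF
  cl_of_base)
open Pool.Agent.TH813.Uni (trF_le_iff tr tr_add tr_eq tr_mono tr_empty)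

variable {L : PeriodPair} {κ : ℂ} {F : IntermediateField ℚ ℂ} {s n : ℕ}

/-- comparison of transcendence degrees by derivations -/
theorem tr_le_of_killed {S T : Set ℂ}
    (h : ∀ D : Derivation ℚ ℂ ℂ, (∀ x ∈ T, D x = 0) → ∀ x ∈ S, D x = 0) {m : ℕ}
    (hm : tr T ≤ m) : tr S ≤ m := by
  rw [tr_eq, trF_le_iff] at hm ⊢
  refine le_trans (rk_le_of_subset_cl ?_) hm
  intro x hx
  rw [mem_cl_iff]
  exact fun D _ hD => h D hD x hx

/-- `2 π i` -/
def per : ℂ := 2 * Real.pi * Complex.I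

theorem per_ne : per ≠ 0 := Complex.two_pi_I_ne_zero

/-- the rational multiples of `2 π i` -/
def P₁ : Submodule ℚ ℂ := Submodule.span ℚ {per}

/-- the rational multiples of the periods, as a space over the field of multiplications -/
def P₂ (L : PeriodPair) : Submodule (kL L) ℂ where
  carrier := {x | ∃ n : ℕ, 0 < n ∧ (n : ℂ) * x ∈ L.lattice}
  add_mem' := by
    rintro a b ⟨n, hn, ha⟩ ⟨m, hm, hb⟩
    refine ⟨n * m, Nat.mul_pos hn hm, ?_⟩
    have h1 := add_mem (mult_nat (L := L) m _ ha) (mult_nat (L := L) n _ hb)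
    convert h1 using 1
    push_cast; ring
  zero_mem' := ⟨1, one_pos, by rw [mul_zero]; exact zero_mem _⟩
  smul_mem' := by
    rintro ⟨c, m, hm, hc⟩ x ⟨n, hn, hx⟩
    refine ⟨m * n, Nat.mul_pos hm hn, ?_⟩
    have h1 := hc _ hx
    convert h1 using 1
    change ((m * n : ℕ) : ℂ) * (c * x) = m * c * (n * x)
    push_cast; ring

theorem mem_P₂ {x : ℂ} : x ∈ P₂ L ↔ ∃ n : ℕ, 0 < n ∧ (n : ℂ) * x ∈ L.lattice := Iff.rfl

theorem lattice_le_P₂ {x : ℂ} (h : x ∈ L.lattice) : x ∈ P₂ L :=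
  ⟨1, one_pos, by rwa [Nat.cast_one, one_mul]⟩

theorem P₂_restrict (L : PeriodPair) :
    (P₂ L).restrictScalars ℚ = Submodule.span ℚ (Set.range ![L.ω₁, L.ω₂]) := by
  apply le_antisymm
  · rintro x ⟨n, hn, hx⟩
    obtain ⟨a, b, hab⟩ := PeriodPair.mem_lattice.1 hx
    have hn0 : (n : ℂ) ≠ 0 := by exact_mod_cast hn.ne'
    have h1 : x = ((a : ℚ) / n) • L.ω₁ + ((b : ℚ) / n) • L.ω₂ := by
      rw [Rat.smul_def, Rat.smul_def]
      push_cast
      field_simp
      linear_combination -hab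
    rw [h1]
    exact Submodule.add_mem _ (Submodule.smul_mem _ _ (Submodule.subset_span ⟨0, rfl⟩))
      (Submodule.smul_mem _ _ (Submodule.subset_span ⟨1, rfl⟩))
  · rw [Submodule.span_le]
    rintro _ ⟨i, rfl⟩
    fin_cases i
    · exact lattice_le_P₂ L.ω₁_mem_lattice
    · exact lattice_le_P₂ L.ω₂_mem_lattice

instance fd_P₂ (L : PeriodPair) : FiniteDimensional (kL L) (P₂ L) := by
  have h1 : FiniteDimensional ℚ ((P₂ L).restrictScalars ℚ) := by
    rw [P₂_restrict]
    exact FiniteDimensional.span_of_finite ℚ (Set.finite_range _)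
  have h2 : Module.Finite ℚ (P₂ L) := h1
  exact Module.Finite.of_restrictScalars_finite ℚ (kL L) (P₂ L)

theorem finrank_P₂ (L : PeriodPair) :
    finrank ℚ (kL L) * finrank (kL L) (P₂ L) = 2 := by
  have h1 : finrank ℚ (kL L) * finrank (kL L) (P₂ L) = finrank ℚ (P₂ L) :=
    Module.finrank_mul_finrank _ _ _
  have h2 : finrank ℚ (P₂ L) = finrank ℚ ((P₂ L).restrictScalars ℚ) := rfl
  rw [h1, h2, P₂_restrict, finrank_span_eq_card, Fintype.card_fin]
  exact L.indep.restrict_scalars (by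
    intro a b hab
    have h3 : (a : ℝ) = (b : ℝ) := by simpa [Rat.smul_def] using hab
    exact_mod_cast h3)

theorem four_div (L : PeriodPair) : 4 / finrank ℚ (kL L) = 2 * finrank (kL L) (P₂ L) := by
  have h := finrank_P₂ L
  have h1 : 0 < finrank ℚ (kL L) := Nat.pos_of_ne_zero (fun h0 => by rw [h0, zero_mul] at h; omega)
  rw [Nat.div_eq_iff_eq_mul_left h1]
  · linarith [mul_comm (finrank ℚ (kL L)) (finrank (kL L) (P₂ L))]
  · exact ⟨2 * finrank (kL L) (P₂ L), by linarith⟩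

theorem finrank_P₁ : finrank ℚ P₁ = 1 := finrank_span_singleton per_ne

instance fd_P₁ : FiniteDimensional ℚ P₁ :=
  FiniteDimensional.span_of_finite ℚ (Set.finite_singleton _)

/-- the quasi-period as a value of `ζ` -/
theorem eta_half {w : ℂ} (hw : w ∈ L.lattice) (hw' : w / 2 ∉ L.lattice) :
    eta L w = 2 * zeta L (w / 2) := by
  have h1 : -(w / 2) ∉ L.lattice := fun h => hw' (by simpa using neg_mem h)
  have h2 := zeta_add_coe L h1 hw
  rw [zeta_neg, show -(w / 2) + w = w / 2 by ring] at h2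
  linear_combination -h2

theorem half₁ (L : PeriodPair) : L.ω₁ / 2 ∉ L.lattice := by
  intro h
  obtain ⟨a, b, hab⟩ := PeriodPair.mem_lattice.1 h
  have := ω_indep L (a := 2 * a - 1) (b := 2 * b) (by push_cast; linear_combination 2 * hab)
  omega

theorem half₂ (L : PeriodPair) : L.ω₂ / 2 ∉ L.lattice := by
  intro h
  obtain ⟨a, b, hab⟩ := PeriodPair.mem_lattice.1 h
  have := ω_indep L (a := 2 * a) (b := 2 * b - 1) (by push_cast; linear_combination 2 * hab)
  omega

/-- derivations which kill the periods -/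
theorem per_killed {D : Derivation ℚ ℂ ℂ} (h2 : D L.g₂ = 0) (h3 : D L.g₃ = 0)
    (h4 : D L.ω₁ = 0) (h5 : D L.ω₂ = 0) (h6 : D (2 * zeta L (L.ω₁ / 2)) = 0)
    (h7 : D (2 * zeta L (L.ω₂ / 2)) = 0) :
    (∀ a ∈ P₁, D a = 0 ∧ dl D a = 0) ∧ ∀ a ∈ P₂ L, D a = 0 ∧ om L D a = 0 ∧ et L D a = 0 := by
  obtain ⟨κ, hE⟩ := exists_eig L
  rw [← eta_half L.ω₁_mem_lattice (half₁ L)] at h6
  rw [← eta_half L.ω₂_mem_lattice (half₂ L)] at h7
  constructor
  · have e1 : D per = 0 := by
      obtain ⟨n, hn, h⟩ := legendre L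
      have h8 := congrArg D h
      rw [map_sub, Derivation.leibniz, Derivation.leibniz, h4, h5, h6, h7] at h8
      simp only [smul_zero, add_zero, sub_zero] at h8
      have h9 : D ((n : ℂ) * per) = 0 := h8.symm
      rw [Derivation.leibniz, D.map_intCast, smul_zero, add_zero, smul_eq_mul] at h9
      exact (mul_eq_zero.1 h9).resolve_left (by exact_mod_cast hn)
    have e2 : dl D per = 0 := by
      refine dlog_eq_zero.2 ?_
      have : Complex.exp per = 1 := Complex.exp_two_pi_mul_I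
      rw [this, D.map_one_eq_zero]
    have e3 : P₁ ≤ LinearMap.ker (D : ℂ →ₗ[ℚ] ℂ) := by
      unfold P₁
      rw [Submodule.span_le]
      rintro _ rfl
      exact e1
    have e4 : P₁ ≤ LinearMap.ker (dl D) := by
      unfold P₁
      rw [Submodule.span_le]
      rintro _ rfl
      exact e2
    exact fun a ha => ⟨e3 ha, e4 ha⟩
  · rintro a ⟨n, hn, ha⟩
    obtain ⟨u, v, huv⟩ := PeriodPair.mem_lattice.1 ha
    have hn0 : (n : ℂ) ≠ 0 := by exact_mod_cast hn.ne'
    have m1 : L.ω₁ ∈ ZK hE D h2 h3 := by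
      have h8 := om_of_mem L D L.ω₁_mem_lattice
      refine ⟨h4, h8, ?_⟩
      unfold et
      rw [h8, mul_zero, add_zero, zt_of_mem L.ω₁_mem_lattice]
      exact h6
    have m2 : L.ω₂ ∈ ZK hE D h2 h3 := by
      have h8 := om_of_mem L D L.ω₂_mem_lattice
      refine ⟨h5, h8, ?_⟩
      unfold et
      rw [h8, mul_zero, add_zero, zt_of_mem L.ω₂_mem_lattice]
      exact h7
    have h8 : a = ((((u : ℚ) / n : ℚ) : kL L)) • L.ω₁ + ((((v : ℚ) / n : ℚ) : kL L)) • L.ω₂ := by
      change a = ((((u : ℚ) / n : ℚ) : kL L) : ℂ) * L.ω₁ + ((((v : ℚ) / n : ℚ) : kL L) : ℂ) * L.ω₂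
      push_cast
      field_simp
      linear_combination -huv
    rw [h8]
    exact (ZK hE D h2 h3).add_mem ((ZK hE D h2 h3).smul_mem _ m1)
      ((ZK hE D h2 h3).smul_mem _ m2)

end Pool.Agent.TH813.Ell
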