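import Mathlib
import Pool.Agent.TH813.EKPer

/-!
# The relative theorem for tuples of points outside the lattice
-/

set_option autoImplicit false

open Finset Module
open scoped PeriodPair ComplexConjugate

noncomputable section

namespace Pool.Agent.TH813.Ell

open H667R3 Pool.Agent.W245.EB
open Pool.Agent.W252 Pool.Agent.W669.Gel
open Pool.Agent.TH813.Core Pool.Agent.TH813.Rank
open Pool.Agent.TH813.Rel (DF MK mem_cl subset_cl kills_clF rk_le_of_subset_cl trF clF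
  cl_of_base)
open Pool.Agent.TH813.Uni (trF_le_iff tr tr_add tr_eq tr_mono tr_empty)

variable {L : PeriodPair} {κ : ℂ} {F : IntermediateField ℚ ℂ} {s n : ℕ}

/-- the numbers attached to a tuple; `ζ` and `℘` are only taken outside the lattice -/
def PT (L : PeriodPair) (t : Fin s → ℂ) (p : Fin n → ℂ) : Set ℂ :=
  (Set.range t ∪ Complex.exp '' Set.range t) ∪
    (Set.range p ∪ (zeta L '' (Set.range p \ (L.lattice : Set ℂ)) ∪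
      ℘[L] '' (Set.range p \ (L.lattice : Set ℂ))))

/-- the numbers attached to two pairs of spaces, without the invariants -/
abbrev NN (L : PeriodPair) (X₁ W₁ : Submodule ℚ ℂ) (X₂ W₂ : Submodule (kL L) ℂ) : Set ℂ :=
  NS L (X₁ : Set ℂ) (W₁ : Set ℂ) (X₂ : Set ℂ) (W₂ : Set ℂ)

theorem cl_NN (h2 : L.g₂ ∈ F) (h3 : L.g₃ ∈ F) (X₁ W₁ : Submodule ℚ ℂ)
    {X₂ W₂ : Submodule (kL L) ℂ} (h : X₂ ≤ W₂) :
    (MK F).closure (NN L X₁ W₁ X₂ W₂) = (MK F).closure (SK L X₁ W₁ X₂ W₂) := by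
  ext x
  rw [mem_cl_iff, mem_cl_iff]
  refine forall_congr' (fun D => forall_congr' (fun hF => ?_))
  have h1 : (∀ y ∈ NN L X₁ W₁ X₂ W₂, D y = 0) ↔ ∀ y ∈ SK L X₁ W₁ X₂ W₂, D y = 0 :=
    NS_iff (hF _ h2) (hF _ h3) (X₁ : Set ℂ) (W₁ : Set ℂ) (X₂.restrictScalars ℚ) (W₂ : Set ℂ) h
  rw [h1]

theorem trF_NN (h2 : L.g₂ ∈ F) (h3 : L.g₃ ∈ F) (X₁ W₁ : Submodule ℚ ℂ)
    {X₂ W₂ : Submodule (kL L) ℂ} (h : X₂ ≤ W₂) [FiniteDimensional ℚ X₁] [FiniteDimensional ℚ W₁]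
    [FiniteDimensional (kL L) W₂] :
    trF F (NN L X₁ W₁ X₂ W₂) = trF F (SK L X₁ W₁ X₂ W₂) := by
  have : FiniteDimensional (kL L) X₂ := Submodule.finiteDimensional_of_le h
  exact trF_congr (cl_NN h2 h3 X₁ W₁ h) (SK_lt h2 h3 X₁ W₁ X₂ W₂)

theorem SM_alg (X₁ W₁ : Submodule ℚ ℂ) {X₂ W₂ : Submodule (kL L) ℂ} (h : X₂ ≤ W₂)
    (h2 : L.g₂ ∈ F) (h3 : L.g₃ ∈ F) {x : ℂ}
    (hx : IsAlgebraic (IntermediateField.adjoin F (NN L X₁ W₁ X₂ W₂)) x) :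
    IsAlgebraic (IntermediateField.adjoin F (SK L X₁ W₁ X₂ W₂)) x := by
  rw [IntermediateField.isAlgebraic_adjoin_iff, ← mem_cl] at hx ⊢
  rwa [cl_NN h2 h3 X₁ W₁ h] at hx

/-- the inequality fails by `m` at an independent tuple of points outside the lattice -/
def DefO (L : PeriodPair) (F : IntermediateField ℚ ℂ) (A₁ : Submodule ℚ ℂ)
    (A₂ : Submodule (kL L) ℂ) (m : ℕ) (t : Fin s → ℂ) (p : Fin n → ℂ) : Prop :=
  LinearIndependent ℚ (fun i => A₁.mkQ (t i)) ∧ LinearIndependent (kL L) (fun i => A₂.mkQ (p i)) ∧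
    (∀ i, p i ∉ L.lattice) ∧ trF F (PT L t p) + m ≤ ((s + 2 * n : ℕ) : Cardinal)

theorem smul_eq_kL (q : ℚ) (x : ℂ) : q • x = ((q : ℚ) : kL L) • x := by
  rw [Rat.smul_def]
  change _ = ((q : kL L) : ℂ) * x
  congr 1

theorem defO_iff (h2 : L.g₂ ∈ F) (h3 : L.g₃ ∈ F) {A₁ U₁ : Submodule ℚ ℂ}
    {A₂ U₂ : Submodule (kL L) ℂ} {m : ℕ} :
    (∃ (s n : ℕ) (t : Fin s → ℂ) (p : Fin n → ℂ), DefO L F A₁ A₂ m t p ∧ (∀ i, t i ∈ U₁) ∧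
      ∀ i, p i ∈ U₂) ↔
    ∃ (s n : ℕ) (t : Fin s → ℂ) (p : Fin n → ℂ), DefK L F A₁ U₁ A₂ U₂ m t p := by
  constructor
  · rintro ⟨s, n, t, p, ⟨hl₁, hl₂, hp, hle⟩, hU₁, hU₂⟩
    refine ⟨s, n, t, p, hl₁, hl₂, hU₁, hU₂, ?_⟩
    have h : EM L t p = PT L t p := by
      have e : Set.range p \ (L.lattice : Set ℂ) = Set.range p := by
        ext x
        constructor
        · exact fun h => h.1
        · rintro ⟨i, rfl⟩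
          exact ⟨⟨i, rfl⟩, hp i⟩
      unfold EM SM PT
      rw [e]
      have e2 : zt L '' Set.range p = zeta L '' Set.range p := by
        ext x
        constructor
        · rintro ⟨_, ⟨i, rfl⟩, rfl⟩
          exact ⟨_, ⟨i, rfl⟩, (zt_of_notMem (hp i)).symm⟩
        · rintro ⟨_, ⟨i, rfl⟩, rfl⟩
          exact ⟨_, ⟨i, rfl⟩, zt_of_notMem (hp i)⟩
      rw [e2]
    rw [h]
    exact hle
  · rintro ⟨s, n, t, p, hl₁, hl₂, hU₁, hU₂, hle⟩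
    have hne : ∀ i, p i ≠ 0 := by
      intro i hi
      apply hl₂.ne_zero i
      rw [hi, map_zero]
    choose N hN hN' using fun i => exists_div_notMem (L := L) (hne i)
    have hu : ∀ i, (((N i : ℚ)⁻¹ : ℚ) : kL L) ≠ 0 := by
      intro i
      have h1 : ((N i : ℚ)⁻¹ : ℚ) ≠ 0 := inv_ne_zero (by exact_mod_cast (hN i).ne')
      exact_mod_cast h1
    refine ⟨s, n, t, fun i => ((N i : ℚ)⁻¹ : ℚ) • p i, ⟨hl₁, ?_, fun i => hN' i, ?_⟩, hU₁,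
      fun i => ?_⟩
    · have h3 := hl₂.units_smul (fun i => Units.mk0 _ (hu i))
      convert h3 using 1
      funext i
      change A₂.mkQ (((N i : ℚ)⁻¹ : ℚ) • p i) = (((N i : ℚ)⁻¹ : ℚ) : kL L) • A₂.mkQ (p i)
      rw [smul_eq_kL, map_smul]
    · obtain ⟨τ, hτ⟩ := Cardinal.lt_aleph0.1
        (lt_of_le_of_lt (le_self_add.trans hle) Cardinal.natCast_lt_aleph0)
      rw [hτ] at hle
      refine le_trans (add_le_add_left ?_ _) hle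
      rw [trF_le_iff]
      refine le_trans (rk_le_of_subset_cl ?_) ((trF_le_iff _ _ _).1 hτ.le)
      intro x hx
      rw [mem_cl_iff]
      intro D hF hD
      have e2 := hF _ h2
      have e3 := hF _ h3
      obtain ⟨h4, h5⟩ := cm_eq_zero.1 ((cm_zero_iff h2 h3 hF).2 hD)
      have hk : ∀ i, D (((N i : ℚ)⁻¹ : ℚ) • p i) = 0 ∧ om L D (((N i : ℚ)⁻¹ : ℚ) • p i) = 0 ∧
          et L D (((N i : ℚ)⁻¹ : ℚ) • p i) = 0 := by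
        intro i
        refine ⟨?_, ?_, ?_⟩
        · change (D : ℂ →ₗ[ℚ] ℂ) (((N i : ℚ)⁻¹ : ℚ) • p i) = 0
          rw [map_smul]
          change ((N i : ℚ)⁻¹ : ℚ) • D (p i) = 0
          rw [(h5 i).1, smul_zero]
        · rw [← omL_apply D e2 e3, map_smul, omL_apply, (h5 i).2.1, smul_zero]
        · rw [← etL_apply D e2 e3, map_smul, etL_apply, (h5 i).2.2, smul_zero]
      rcases hx with (hx | hx) | (⟨i, rfl⟩ | (⟨_, ⟨⟨i, rfl⟩, hz⟩, rfl⟩ | ⟨_, ⟨⟨i, rfl⟩, hz⟩, rfl⟩))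
      · exact hD x (Or.inl (Or.inl hx))
      · exact hD x (Or.inl (Or.inr hx))
      · exact (hk i).1
      · change D (zeta L (((N i : ℚ)⁻¹ : ℚ) • p i)) = 0
        rw [← zt_of_notMem hz]
        exact zt_killed (hk i).2.1 (hk i).2.2
      · exact (wp_killed e2 e3 (hk i).2.1 hz).1
    · change ((N i : ℚ)⁻¹ : ℚ) • p i ∈ U₂
      rw [smul_eq_kL (L := L)]
      exact U₂.smul_mem _ (hU₂ i)

/-- **The relative theorem** for tuples of points outside the lattice. -/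
theorem mainO (r : ℕ) : ∃ B : ℕ, ∀ (L : PeriodPair) (F : IntermediateField ℚ ℂ),
    L.g₂ ∈ F → L.g₃ ∈ F →
    ∀ (A₁ V₁ : Submodule ℚ ℂ) (A₂ V₂ : Submodule (kL L) ℂ),
    FiniteDimensional ℚ V₁ → FiniteDimensional (kL L) V₂ → finrank ℚ V₁ ≤ r →
    finrank (kL L) V₂ ≤ r →
    ∃ T : Finset (Submodule ℚ ℂ × Submodule (kL L) ℂ), T.card ≤ B ∧
      (∀ W ∈ T, W.1 ≤ V₁ ∧ W.2 ≤ V₂ ∧ ∃ X₁ ≤ W.1, ∃ X₂ ≤ W.2, X₁ ⊓ A₁ = ⊥ ∧ X₂ ⊓ A₂ = ⊥ ∧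
        trF F (NN L X₁ W.1 X₂ W.2) < ((finrank ℚ X₁ + 2 * finrank (kL L) X₂ : ℕ) : Cardinal) ∧
        (∀ x ∈ V₁, IsAlgebraic (IntermediateField.adjoin F (NN L X₁ W.1 X₂ W.2))
          (Complex.exp x) → x ∈ W.1) ∧
        ∀ x ∈ V₂, (x ∉ L.lattice → IsAlgebraic (IntermediateField.adjoin F
          (NN L X₁ W.1 X₂ W.2)) (℘[L] x)) → x ∈ W.2) ∧
      ∀ U₁ ≤ V₁, ∀ U₂ ≤ V₂, ∀ m : ℕ, 0 < m →
        ((∃ (s n : ℕ) (t : Fin s → ℂ) (p : Fin n → ℂ), DefO L F A₁ A₂ m t p ∧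
            (∀ i, t i ∈ U₁) ∧ ∀ i, p i ∈ U₂) ↔
          ∃ W ∈ T, ∃ X₁ ≤ U₁ ⊓ W.1, ∃ X₂ ≤ U₂ ⊓ W.2, X₁ ⊓ A₁ = ⊥ ∧ X₂ ⊓ A₂ = ⊥ ∧
            trF F (NN L X₁ W.1 X₂ W.2) + m ≤
              ((finrank ℚ X₁ + 2 * finrank (kL L) X₂ : ℕ) : Cardinal)) := by
  obtain ⟨B, hB⟩ := mainA r
  refine ⟨B, fun L F h2 h3 A₁ V₁ A₂ V₂ hf₁ hf₂ hr₁ hr₂ => ?_⟩
  obtain ⟨T, hT1, hT2, hT3⟩ := hB L F h2 h3 A₁ V₁ A₂ V₂ hf₁ hf₂ hr₁ hr₂
  have hN : ∀ W ∈ T, ∀ X₁ ≤ W.1, ∀ X₂ ≤ W.2, trF F (NN L X₁ W.1 X₂ W.2) =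
      trF F (SK L X₁ W.1 X₂ W.2) := by
    intro W hW X₁ hX₁ X₂ hX₂
    have := Submodule.finiteDimensional_of_le (hT2 W hW).1
    have := Submodule.finiteDimensional_of_le (hT2 W hW).2.1
    have := Submodule.finiteDimensional_of_le hX₁
    exact trF_NN h2 h3 X₁ W.1 hX₂
  refine ⟨T, hT1, fun W hW => ?_, fun U₁ hU₁ U₂ hU₂ m hm => ?_⟩
  · obtain ⟨hW₁, hW₂, X₁, hX₁, X₂, hX₂, hA₁, hA₂, hlt, hs₁, hs₂⟩ := hT2 W hW
    refine ⟨hW₁, hW₂, X₁, hX₁, X₂, hX₂, hA₁, hA₂, ?_, fun x hx hal => ?_, fun x hx hal => ?_⟩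
    · rw [hN W hW X₁ hX₁ X₂ hX₂]
      exact hlt
    · exact hs₁ x hx (SM_alg X₁ W.1 hX₂ h2 h3 hal)
    · exact hs₂ x hx (fun hx' => SM_alg X₁ W.1 hX₂ h2 h3 (hal hx'))
  · rw [defO_iff h2 h3, hT3 U₁ hU₁ U₂ hU₂ m hm]
    constructor
    · rintro ⟨W, hW, X₁, hX₁, X₂, hX₂, hA₁, hA₂, h⟩
      refine ⟨W, hW, X₁, hX₁, X₂, hX₂, hA₁, hA₂, ?_⟩
      rw [hN W hW X₁ (hX₁.trans inf_le_right) X₂ (hX₂.trans inf_le_right)]
      exact h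
    · rintro ⟨W, hW, X₁, hX₁, X₂, hX₂, hA₁, hA₂, h⟩
      refine ⟨W, hW, X₁, hX₁, X₂, hX₂, hA₁, hA₂, ?_⟩
      rw [hN W hW X₁ (hX₁.trans inf_le_right) X₂ (hX₂.trans inf_le_right)] at h
      exact h

end Pool.Agent.TH813.Ell
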