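import Mathlib
import Pool.Agent.TH813.GRel

/-!
# Families of group types: the minima of the predimension over a base
-/

set_option autoImplicit false

open Finset Module

noncomputable section

namespace Pool.Agent.TH813.G

open Pool.Agent.W252 Pool.Agent.W669.Gel
open Pool.Agent.TH813.Rel (DF MK mem_cl subset_cl kills_clF exists_derF rk_le_of_subset_cl trF
  bracket_mem)
open Pool.Agent.TH813.Ell (mem_cl_iff exists_rel_compl exists_compl tr_lt_of_finite)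
open Pool.Agent.TH813.Uni (trF_le_iff tr tr_add tr_eq tr_mono)

variable {F F' : IntermediateField ℚ ℂ} {q : ℕ} {e : Fin q → ℕ}

/-- group types over a larger field -/
@[reducible] def Ty.ext {m : ℕ} (T : Ty F m) (h : DF F' ≤ DF F) : Ty F' m where
  k := T.k
  fk := T.fk
  ck := T.ck
  ak := T.ak
  fin := T.fin
  deg := T.deg
  tw := T.tw
  tw_tw := T.tw_tw
  tw_zero := T.tw_zero
  lam := T.lam
  lam_add_der := T.lam_add_der
  lam_smul_der := T.lam_smul_der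
  lam_add := fun j D hD => T.lam_add j D (h hD)
  lam_mul := fun j D hD => T.lam_mul j D (h hD)
  om_bracket := fun D hD => T.om_bracket D (h hD)
  lam_bracket := fun D hD => T.lam_bracket D (h hD)
  N := T.N
  N_fin := T.N_fin
  N_iff := fun D hD => T.N_iff D (h hD)
  W := T.W
  W_iff := fun D hD => T.W_iff D (h hD)

/-- families over a larger field -/
@[reducible] def Fam.ext (T : Fam F e) (h : DF F' ≤ DF F) : Fam F' e := fun c => (T c).ext h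

theorem Ros.ext {T : Fam F e} (hR : Ros T) (hF : ∀ x ∈ F, x ∈ F') (h : DF F' ≤ DF F) :
    Ros (Fam.ext T h) :=
  fun K hK hK2 m idx b v x hb hx c j ψ D hD =>
    hR K (fun x hx => hK x (hF x hx)) hK2 m idx b v x hb hx c j ψ D hD

theorem rk_lt' (T : Fam F e) (h : DF F' ≤ DF F) {X W : Sp T} (hX : Fd T X) (hW : Fd T W) :
    ∃ t : ℕ, (MK F').eRk (NX T X W) = t :=
  rk_lt (T := Fam.ext T h) hX hW

theorem extG' (T : Fam F e) (h : DF F' ≤ DF F) {A X X' W : Sp T} (hW : Fd T W)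
    (hA : ∀ D ∈ DF F', ∀ c, ∀ a ∈ A c, ∀ o, (T c).frm o D a = 0)
    (hAX : A ≤ X') (hX : X ≤ X') (hXA : X ⊓ A = ⊥) (hXW : X' ≤ W) :
    (MK F').eRk (NX T X' W) + ((wtd T X + wtd T A : ℕ) : ℕ∞) ≤
      (MK F').eRk (NX T X W) + ((wtd T X' : ℕ) : ℕ∞) :=
  extG (T := Fam.ext T h) hW hA hAX hX hXA hXW

/-- the main theorem with a larger field -/
theorem mainExt (q : ℕ) (e : Fin q → ℕ) (r : ℕ) : ∃ B : ℕ, ∀ (F F' : IntermediateField ℚ ℂ)
    (T : Fam F e), (∀ x ∈ F, x ∈ F') → DF F' ≤ DF F → Ros T → ∀ A V : Sp T, Fd T V →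
    (∀ c, finrank (T c).k (V c) ≤ r) →
    ∃ 𝒯 : Finset (Sp T), 𝒯.card ≤ B ∧
      (∀ W ∈ 𝒯, W ≤ V ∧ ∃ X ≤ W, X ⊓ A = ⊥ ∧ (MK F').eRk (NX T X W) < ((wtd T X : ℕ) : ℕ∞) ∧
        ∀ c, ∀ x ∈ V c, (∀ y ∈ (T c).W x, y ∈ (MK F').closure (NX T X W)) → x ∈ W c) ∧
      ∀ U ≤ V, ∀ m : ℕ, 0 < m →
        ((∃ X ≤ U, X ⊓ A = ⊥ ∧ (MK F').eRk (NX T X X) + m ≤ ((wtd T X : ℕ) : ℕ∞)) ↔
        ∃ W ∈ 𝒯, ∃ X ≤ U ⊓ W, X ⊓ A = ⊥ ∧
          (MK F').eRk (NX T X W) + m ≤ ((wtd T X : ℕ) : ℕ∞)) := by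
  obtain ⟨B, hB⟩ := mainG q e r
  exact ⟨B, fun F F' T hF h hR A V hV hr => hB F' (Fam.ext T h) (hR.ext hF h) A V hV hr⟩

variable (T : Fam F e)

/-- the predimension -/
def dG (I : Set ℂ) (X W : Sp T) : ℤ :=
  (Cardinal.toNat (tr (I ∪ NX T X W)) : ℤ) - (wtd T X : ℤ)

variable {T}

theorem tr_of_rk {I S₀ S : Set ℂ} (h : S₀ ⊆ S) {a t : ℕ} (ha : tr (I ∪ S₀) = a)
    (ht : (MK (IntermediateField.adjoin ℚ (I ∪ S₀))).eRk S = (t : ℕ)) :
    tr (I ∪ S) = ((a + t : ℕ) : Cardinal) := by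
  have h1 : I ∪ S = (I ∪ S₀) ∪ S := by
    rw [Set.union_assoc, Set.union_eq_self_of_subset_left h]
  rw [h1, tr_add, ha, trF_eq_of_rk ht, Nat.cast_add]

theorem tr_lt {I : Set ℂ} (hI : I.Finite) {T : Fam (IntermediateField.adjoin ℚ I) e}
    {X W : Sp T} (hX : Fd T X) (hW : Fd T W) : ∃ t : ℕ, tr (I ∪ NX T X W) = t := by
  obtain ⟨a, ha⟩ := Cardinal.lt_aleph0.1 (tr_lt_of_finite hI)
  obtain ⟨t, ht⟩ := rk_lt hX hW
  refine ⟨a + t, tr_of_rk (Set.empty_subset _) (by rw [Set.union_empty]; exact ha) ?_⟩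
  rw [Set.union_empty]
  exact ht

theorem dG_mono {I : Set ℂ} (hI : I.Finite) {T : Fam (IntermediateField.adjoin ℚ I) e}
    {X W W' : Sp T} (hX : Fd T X) (hW' : Fd T W') (h : W ≤ W') : dG T I X W ≤ dG T I X W' := by
  unfold dG
  obtain ⟨t, ht⟩ := tr_lt hI hX hW'
  have h4 : Cardinal.toNat (tr (I ∪ NX T X W)) ≤ Cardinal.toNat (tr (I ∪ NX T X W')) :=
    Cardinal.toNat_le_toNat (tr_mono (Set.union_subset_union_right _ (NX_mono T le_rfl h)))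
      (by rw [ht]; exact Cardinal.natCast_lt_aleph0)
  omega

/-- The minima of the predimension over a base. -/
theorem relG (q : ℕ) (e : Fin q → ℕ) (r : ℕ) : ∃ B : ℕ, ∀ (I : Set ℂ), I.Finite →
    ∀ T : Fam (IntermediateField.adjoin ℚ I) e, Ros T → ∀ A V : Sp T, Fd T V →
    (∀ c, finrank (T c).k (V c) ≤ r) → A ≤ V →
    ∃ 𝒯 : Finset (Sp T), 𝒯.card ≤ B ∧
      (∀ W ∈ 𝒯, A ≤ W ∧ W ≤ V ∧ dG T I W W < dG T I A A) ∧
      ∀ U, A ≤ U → U ≤ V → ∀ d : ℤ, d < dG T I A A →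
        ((∃ X, A ≤ X ∧ X ≤ U ∧ dG T I X X ≤ d) ↔ ∃ W ∈ 𝒯, dG T I (U ⊓ W) W ≤ d) := by
  classical
  obtain ⟨B, hB⟩ := mainExt q e r
  refine ⟨B, fun I hI T hR A V hV hr hAV => ?_⟩
  set F₁ := IntermediateField.adjoin ℚ (I ∪ NX T A A) with hF₁
  have hle : ∀ x ∈ IntermediateField.adjoin ℚ I, x ∈ F₁ := fun x hx =>
    IntermediateField.adjoin.mono ℚ _ _ Set.subset_union_left hx
  have hDF : DF F₁ ≤ DF (IntermediateField.adjoin ℚ I) := fun D hD x hx => hD x (hle x hx)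
  obtain ⟨𝒯, hT1, hT2, hT3⟩ := hB _ F₁ T hle hDF hR A V hV hr
  have hNA : ∀ x ∈ NX T A A, x ∈ F₁ := fun x hx =>
    IntermediateField.subset_adjoin ℚ _ (Or.inr hx)
  have hA : ∀ D ∈ DF F₁, ∀ c, ∀ a ∈ A c, ∀ o, (T c).frm o D a = 0 := fun D hD c =>
    ((NX_iff T (hDF hD)).1 (fun x hx => hD x (hNA x hx)) c).1
  have hAW : ∀ W ∈ 𝒯, A ≤ W := by
    intro W hW c a ha
    obtain ⟨-, X, -, -, -, hs⟩ := hT2 W hW
    refine hs c a (hAV c ha) (fun y hy => ?_)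
    rw [mem_cl_iff]
    intro D hD _
    exact hD y (hNA y (Set.mem_iUnion.2 ⟨c, Or.inr (Set.mem_biUnion ha hy)⟩))
  obtain ⟨a, ha⟩ := tr_lt (T := T) hI (hV.mono hAV) (hV.mono hAV)
  have hcast : ∀ (X W : Sp T), X ≤ V → W ≤ V → ∃ t : ℕ, (MK F₁).eRk (NX T X W) = t :=
    fun X W hX hW => rk_lt' T hDF (hV.mono hX) (hV.mono hW)
  -- the predimension over the base
  have hdl : ∀ (X W : Sp T), A ≤ X → A ≤ W → ∀ t : ℕ, (MK F₁).eRk (NX T X W) = t →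
      dG T I X W = dG T I A A + t + wtd T A - wtd T X := by
    intro X W h1 h2 t ht
    unfold dG
    rw [tr_of_rk (NX_mono T h1 h2) ha ht, ha, Cardinal.toNat_natCast, Cardinal.toNat_natCast]
    push_cast
    ring
  have hext : ∀ {X X' W : Sp T}, W ≤ V → A ≤ X' → X ≤ X' → X ⊓ A = ⊥ → X' ≤ W →
      (MK F₁).eRk (NX T X' W) + ((wtd T X + wtd T A : ℕ) : ℕ∞) ≤
        (MK F₁).eRk (NX T X W) + ((wtd T X' : ℕ) : ℕ∞) := fun hW h1 h2 h3 h4 =>
    extG' T hDF (hV.mono hW) hA h1 h2 h3 h4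
  refine ⟨𝒯, hT1, fun W hW => ⟨hAW W hW, (hT2 W hW).1, ?_⟩, fun U hAU hUV d hd => ⟨?_, ?_⟩⟩
  · obtain ⟨hWV, X, hXW, hXA, hlt, -⟩ := hT2 W hW
    obtain ⟨t, ht⟩ := hcast X W (hXW.trans hWV) hWV
    obtain ⟨s, hs⟩ := hcast W W hWV hWV
    have h1 := hext hWV (hAW W hW) hXW hXA le_rfl
    rw [hs, ht] at h1
    rw [hdl W W (hAW W hW) (hAW W hW) s hs]
    have h2 : s + (wtd T X + wtd T A) ≤ t + wtd T W := by exact_mod_cast h1
    have h3 : t < wtd T X := by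
      have h4 : (MK F₁).eRk (NX T X W) < ((wtd T X : ℕ) : ℕ∞) := hlt
      rw [ht] at h4
      exact_mod_cast h4
    omega
  · rintro ⟨X, hAX, hXU, hd1⟩
    have hXV := hXU.trans hUV
    obtain ⟨s, hs⟩ := hcast X X hXV hXV
    have h1 := hdl X X hAX hAX s hs
    -- complements of the base
    choose Y hYX hYA hYd using fun c => by
      have := hV.mono hXV c
      exact exists_rel_compl (hAX c)
    have hwt : wtd T Y + wtd T A = wtd T X := by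
      unfold wtd
      rw [← sum_add_distrib]
      exact sum_congr rfl (fun c _ => by rw [← mul_add, hYd])
    obtain ⟨m, hm⟩ : ∃ m : ℕ, dG T I A A = d + m := by
      obtain ⟨m, hm⟩ := Int.eq_ofNat_of_zero_le (sub_nonneg.2 hd.le)
      exact ⟨m, by omega⟩
    have hm0 : 0 < m := by omega
    obtain ⟨W, hW, Z, hZ, hZA, h5⟩ := (hT3 U hUV m hm0).1
      ⟨Y, fun c => (hYX c).trans (hXU c), funext hYA, by
        have h6 : (MK F₁).eRk (NX T Y Y) ≤ (s : ℕ) := by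
          rw [← hs]
          exact (MK F₁).eRk_mono (NX_mono T hYX hYX)
        refine (add_le_add_left h6 _).trans ?_
        change ((s : ℕ) : ℕ∞) + m ≤ ((wtd T Y : ℕ) : ℕ∞)
        norm_cast
        omega⟩
    refine ⟨W, hW, ?_⟩
    have hWV := (hT2 W hW).1
    have hUW : U ⊓ W ≤ V := inf_le_left.trans hUV
    obtain ⟨t, ht⟩ := hcast Z W (hZ.trans hUW) hWV
    obtain ⟨t', ht'⟩ := hcast (U ⊓ W) W hUW hWV
    have h7 := hext hWV (le_inf hAU (hAW W hW)) hZ hZA inf_le_right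
    rw [ht', ht] at h7
    rw [hdl (U ⊓ W) W (le_inf hAU (hAW W hW)) (hAW W hW) t' ht']
    have h8 : t' + (wtd T Z + wtd T A) ≤ t + wtd T (U ⊓ W) := by exact_mod_cast h7
    have h9 : t + m ≤ wtd T Z := by
      have h10 : (MK F₁).eRk (NX T Z W) + m ≤ ((wtd T Z : ℕ) : ℕ∞) := h5
      rw [ht] at h10
      exact_mod_cast h10
    omega
  · rintro ⟨W, hW, h⟩
    have hWV := (hT2 W hW).1
    exact ⟨U ⊓ W, le_inf hAU (hAW W hW), inf_le_left,
      le_trans (dG_mono hI (hV.mono (inf_le_left.trans hUV)) (hV.mono hWV) inf_le_right) h⟩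

end Pool.Agent.TH813.G
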