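import Mathlib
import Pool.Agent.TH822.Ell.Cj

/-!
# Sums over the conjugates of points of several elliptic curves
-/

set_option autoImplicit false

open Filter
open scoped Topology PeriodPair

noncomputable section

namespace Pool.Agent.TH813.G

open H667R3 Pool.Agent.W245.EB
open Pool.Agent.TH813.Ell

/-- **Sums over the conjugates**: `E` is a field of complex numbers over which `ℂ` is algebraic. For
finitely many numbers `x`, nonzero numbers `u` and logarithms of points `v` there is a finite family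
of automorphisms of `ℂ` over `E` for which the sums of the conjugates of `x`, the products of the
conjugates of `u` and the sums of (logarithms of) the conjugates of the points belong to `E`. -/
theorem conj_familyM {E : Type*} [Field E] [Algebra E ℂ] [CharZero E] [Algebra.IsAlgebraic E ℂ]
    {a b c : ℕ} (Λ : Fin c → PeriodPair)
    (h2 : ∀ j, (Λ j).g₂ ∈ (algebraMap E ℂ).range) (h3 : ∀ j, (Λ j).g₃ ∈ (algebraMap E ℂ).range)
    (x : Fin a → ℂ) (u : Fin b → ℂ) (v : Fin c → ℂ) :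
    ∃ (ι : Type) (_ : Fintype ι) (_ : Nonempty ι) (τ : ι → (ℂ ≃ₐ[E] ℂ)) (v' : ι → Fin c → ℂ),
      (∀ j, ∑ i, τ i (x j) ∈ (algebraMap E ℂ).range) ∧
      (∀ j, ∏ i, τ i (u j) ∈ (algebraMap E ℂ).range) ∧
      (∀ i j, Cj (Λ j) ((τ i : ℂ ≃ₐ[E] ℂ) : ℂ →+* ℂ) (v j) (v' i j)) ∧
      ∀ j, ∑ i, v' i j ∈ (Λ j).lattice ∨ (℘[Λ j] (∑ i, v' i j) ∈ (algebraMap E ℂ).range ∧
        ℘'[Λ j] (∑ i, v' i j) ∈ (algebraMap E ℂ).range) := by
  classical
  have : IsAlgClosure E ℂ := ⟨inferInstance, inferInstance⟩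
  have hN : Normal E ℂ := IsAlgClosure.normal E ℂ
  have hGC : IsGalois E ℂ := ⟨⟩
  let S : Set ℂ := Set.range x ∪ Set.range u ∪ (Set.range (fun j => ℘[Λ j] (v j)) ∪
    Set.range (fun j => ℘'[Λ j] (v j)))
  have hSfin : S.Finite := by
    refine Set.Finite.union (Set.Finite.union ?_ ?_) (Set.Finite.union ?_ ?_) <;>
      exact Set.finite_range _
  let M := IntermediateField.adjoin E S
  have hM : FiniteDimensional E M := by
    have : Finite S := hSfin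
    apply IntermediateField.finiteDimensional_adjoin
    intro y _
    exact (Algebra.IsAlgebraic.isAlgebraic y).isIntegral
  let F := IntermediateField.normalClosure E M ℂ
  have hF1 : FiniteDimensional E F := inferInstance
  have hF2 : Normal E F := inferInstance
  have hG : IsGalois E F := ⟨⟩
  have hMF : M ≤ F := by
    intro y hy
    exact M.val.fieldRange_le_normalClosure ⟨⟨y, hy⟩, rfl⟩
  have hSF : ∀ y ∈ S, y ∈ F := fun y hy => hMF (IntermediateField.subset_adjoin _ _ hy)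
  have hx : ∀ j, x j ∈ F := fun j => hSF _ (Or.inl (Or.inl ⟨j, rfl⟩))
  have hu : ∀ j, u j ∈ F := fun j => hSF _ (Or.inl (Or.inr ⟨j, rfl⟩))
  have hv : ∀ j, ℘[Λ j] (v j) ∈ F := fun j => hSF _ (Or.inr (Or.inl ⟨j, rfl⟩))
  have hv' : ∀ j, ℘'[Λ j] (v j) ∈ F := fun j => hSF _ (Or.inr (Or.inr ⟨j, rfl⟩))
  let τ : (F ≃ₐ[E] F) → (ℂ ≃ₐ[E] ℂ) := fun σ => AlgEquiv.liftNormal σ ℂ
  have hτ : ∀ (σ : F ≃ₐ[E] F) (y : F), τ σ (y : ℂ) = ((σ y : F) : ℂ) := fun σ y =>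
    AlgEquiv.liftNormal_commutes σ ℂ y
  have hfix : ∀ (σ : ℂ ≃ₐ[E] ℂ) (y : ℂ), y ∈ (algebraMap E ℂ).range →
      (σ : ℂ →+* ℂ) y = y := by
    rintro σ y ⟨e, rfl⟩
    exact σ.commutes e
  have hex : ∀ (g : F ≃ₐ[E] F) (j : Fin c), ∃ w, Cj (Λ j) ((τ g : ℂ ≃ₐ[E] ℂ) : ℂ →+* ℂ) (v j) w ∧
      (v j ∈ (Λ j).lattice → w = 0) := by
    intro g j
    by_cases hj : v j ∈ (Λ j).lattice
    · exact ⟨0, Or.inl ⟨hj, zero_mem _⟩, fun _ => rfl⟩
    · obtain ⟨w, hw⟩ := Cj.exists (hfix (τ g) _ (h2 j)) (hfix (τ g) _ (h3 j)) (v j)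
      exact ⟨w, hw, fun h => absurd h hj⟩
  choose v' hv'1 hv'2 using hex
  refine ⟨F ≃ₐ[E] F, inferInstance, ⟨AlgEquiv.refl⟩, τ, v', ?_, ?_, hv'1, ?_⟩
  · intro j
    refine ⟨Algebra.trace E F ⟨x j, hx j⟩, ?_⟩
    have h1 := trace_eq_sum_automorphisms (K := E) (L := F) ⟨x j, hx j⟩
    have h4 := congrArg (algebraMap F ℂ) h1
    rw [map_sum, ← IsScalarTower.algebraMap_apply] at h4
    rw [h4]
    exact Finset.sum_congr rfl fun σ _ => (hτ σ ⟨x j, hx j⟩).symm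
  · intro j
    refine ⟨Algebra.norm E (⟨u j, hu j⟩ : F), ?_⟩
    have h1 := Algebra.norm_eq_prod_automorphisms E (⟨u j, hu j⟩ : F)
    have h4 := congrArg (algebraMap F ℂ) h1
    rw [map_prod, ← IsScalarTower.algebraMap_apply] at h4
    rw [h4]
    exact Finset.prod_congr rfl fun σ _ => (hτ σ ⟨u j, hu j⟩).symm
  · intro j
    by_cases hj : v j ∈ (Λ j).lattice
    · left
      rw [Finset.sum_congr rfl fun g _ => hv'2 g j hj, Finset.sum_const_zero]
      exact zero_mem _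
    have hpt : ∀ g : F ≃ₐ[E] F, v' g j ∉ (Λ j).lattice ∧
        ℘[Λ j] (v' g j) = ((g ⟨℘[Λ j] (v j), hv j⟩ : F) : ℂ) ∧
        ℘'[Λ j] (v' g j) = ((g ⟨℘'[Λ j] (v j), hv' j⟩ : F) : ℂ) := by
      intro g
      obtain ⟨-, k2, k3, k4⟩ := (hv'1 g j).resolve_left (fun h => hj h.1)
      refine ⟨k2, ?_, ?_⟩
      · rw [k3]; exact hτ g ⟨_, hv j⟩
      · rw [k4]; exact hτ g ⟨_, hv' j⟩
    have hR : ∀ ρ : ℂ ≃ₐ[E] ℂ, Cj (Λ j) (ρ : ℂ →+* ℂ) (∑ g, v' g j) (∑ g, v' g j) := by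
      intro ρ
      set h : F ≃ₐ[E] F := AlgEquiv.restrictNormal ρ F with hh
      have hρ : ∀ y : F, ρ (y : ℂ) = ((h y : F) : ℂ) := fun y =>
        (AlgEquiv.restrictNormal_commutes ρ F y).symm
      have h1 : ∀ g ∈ Finset.univ, Cj (Λ j) (ρ : ℂ →+* ℂ) (v' g j) (v' (h * g) j) := by
        intro g _
        obtain ⟨a1, a2, a3⟩ := hpt g
        obtain ⟨b1, b2, b3⟩ := hpt (h * g)
        refine Or.inr ⟨a1, b1, ?_, ?_⟩
        · rw [b2, a2]
          exact (hρ _).symm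
        · rw [b3, a3]
          exact (hρ _).symm
      have h4 := Cj.sum (hfix ρ _ (h2 j)) Finset.univ h1
      have h5 : ∑ g : F ≃ₐ[E] F, v' (h * g) j = ∑ g, v' g j :=
        Fintype.sum_equiv (Equiv.mulLeft h) _ _ fun g => rfl
      rwa [h5] at h4
    by_cases hR0 : ∑ g, v' g j ∈ (Λ j).lattice
    · exact Or.inl hR0
    right
    have hR' : ∀ ρ : ℂ ≃ₐ[E] ℂ, ρ (℘[Λ j] (∑ g, v' g j)) = ℘[Λ j] (∑ g, v' g j) ∧
        ρ (℘'[Λ j] (∑ g, v' g j)) = ℘'[Λ j] (∑ g, v' g j) := by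
      intro ρ
      obtain ⟨-, -, k3, k4⟩ := (hR ρ).resolve_left (fun h => hR0 h.1)
      exact ⟨k3.symm, k4.symm⟩
    constructor
    · have := (InfiniteGalois.mem_bot_iff_fixed (k := E) (K := ℂ) (℘[Λ j] (∑ g, v' g j))).2
        fun ρ => (hR' ρ).1
      exact IntermediateField.mem_bot.1 this
    · have := (InfiniteGalois.mem_bot_iff_fixed (k := E) (K := ℂ) (℘'[Λ j] (∑ g, v' g j))).2
        fun ρ => (hR' ρ).2
      exact IntermediateField.mem_bot.1 this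

end Pool.Agent.TH813.G
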