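import Mathlib
import Pool.Agent.TH813.GKey

/-!
# The theorem of Rosenlicht for the multiplicative group and several elliptic curves
-/

set_option autoImplicit false

open Finset Module
open scoped PeriodPair ComplexConjugate

noncomputable section

namespace Pool.Agent.TH813.G

open H667R3 Pool.Agent.W245.EB
open Pool.Agent.TH813.Ell

/-- the case of a vector of multiplications -/
theorem ros_linM {q : ℕ} {Λ : Fin q → PeriodPair} {κ : Fin q → ℂ} (hE : ∀ c, Eig (Λ c) (κ c))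
    (hni : ∀ c c', c ≠ c' → NoHom (Λ c) (Λ c')) (K : IntermediateField ℚ ℂ)
    (h2 : ∀ c, (Λ c).g₂ ∈ K) (h3 : ∀ c, (Λ c).g₃ ∈ K)
    (hkL : ∀ c, ∀ x ∈ kL (Λ c), x ∈ K) (hκ : ∀ c, κ c ∈ K)
    {m n : ℕ} (β u : Fin m → ℂ) (hβ : ∀ l, β l ∈ K) (hu : ∀ l, u l ≠ 0)
    (ty : Fin n → Fin q) (b c v : Fin n → ℂ) (hb : ∀ j, b j ∈ K) (hc : ∀ j, c j ∈ K) (x : ℂ)
    (h : ∀ D : Derivation ℚ ℂ ℂ, (∀ w ∈ K, D w = 0) → D x = ∑ l, β l * (D (u l) / u l) +
      ∑ j, (b j * om (Λ (ty j)) D (v j) +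
        c j * ((℘[Λ (ty j)] (v j) + κ (ty j)) * om (Λ (ty j)) D (v j))))
    (c₀ : Fin q) (a : Fin n → ℂ) (haL : ∀ j, a j ∈ kL (Λ c₀)) (hat : ∀ j, ty j ≠ c₀ → a j = 0)
    (ha : ∀ N : Fin n → ℂ, (∀ j, N j ∈ kL (Λ c₀)) → (∀ j, ty j ≠ c₀ → N j = 0) →
      ∑ j, b j * N j = 0 → ∑ j, c j * conj (N j) = 0 → ∑ j, a j * N j = 0) :
    ∀ D : Derivation ℚ ℂ ℂ, (∀ w ∈ K, D w = 0) → ∑ j, a j * om (Λ (ty j)) D (v j) = 0 := by
  intro D₀ hD₀
  by_contra hne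
  set w : ℂ := ∑ j, a j * v j with hw
  have homw : om (Λ c₀) D₀ w = ∑ j, a j * om (Λ (ty j)) D₀ (v j) := by
    rw [hw, om_sum D₀ (hD₀ _ (h2 _)) (hD₀ _ (h3 _))]
    refine sum_congr rfl (fun j _ => ?_)
    by_cases hj : ty j = c₀
    · rw [hj]
      exact (hE c₀).om_mul D₀ (hD₀ _ (h2 _)) (hD₀ _ (h3 _)) _ (haL j) _
    · rw [hat j hj, zero_mul, zero_mul, om_zero]
  rw [← homw] at hne
  have hw2 : 2 * w ∉ (Λ c₀).lattice := fun h => hne (om_of_two_mul_mem (Λ c₀) D₀ h)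
  have hwl : w ∉ (Λ c₀).lattice := fun h => hne (om_of_mem (Λ c₀) D₀ h)
  have hDy : D₀ (℘[Λ c₀] w) ≠ 0 := by
    intro h0
    apply hne
    unfold om
    rw [h0, zero_div]
  obtain ⟨K₁, D₁, h1, h4, h5⟩ := Ros.exists_setup K (Ros.trans_of_der K D₀ hD₀ hDy)
  have : CharZero K := charZero_of_injective_algebraMap (algebraMap ℚ K).injective
  have : CharZero K₁ := charZero_of_injective_algebraMap (algebraMap K K₁).injective
  let D : Derivation K₁ ℂ ℂ := ℘'[Λ c₀] w • D₁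
  have hD : D (℘[Λ c₀] w) = ℘'[Λ c₀] w := by
    change ℘'[Λ c₀] w • D₁ (℘[Λ c₀] w) = _
    rw [h5, smul_eq_mul, mul_one]
  let Dq : Derivation ℚ ℂ ℂ := (D.restrictScalars K).restrictScalars ℚ
  have hkill : ∀ w ∈ K, Dq w = 0 := fun w hw =>
    (D.restrictScalars K).map_algebraMap (⟨w, hw⟩ : K)
  obtain ⟨d, N, hd, hNt, hNm, hN1, hN2, hN3⟩ := key_M (K₁ := K₁) hE hni c₀ hw2 h1 h4
    (fun c => ⟨algebraMap K K₁ ⟨_, h2 c⟩, rfl⟩) (fun c => ⟨algebraMap K K₁ ⟨_, h3 c⟩, rfl⟩)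
    (fun x hx => ⟨algebraMap K K₁ ⟨x, hkL c₀ x hx⟩, rfl⟩)
    (fun c => ⟨algebraMap K K₁ ⟨κ c, hκ c⟩, rfl⟩)
    D hD Dq (fun z => rfl)
    (fun l => algebraMap K K₁ ⟨β l, hβ l⟩) u hu ty (fun j => algebraMap K K₁ ⟨b j, hb j⟩)
    (fun j => algebraMap K K₁ ⟨c j, hc j⟩) v x (h Dq hkill)
  have h6 := ha N (fun j => mult_mem_kL (hNm j)) hNt hN1 hN2
  have h7 := hN3 a haL hat hw
  rw [h6] at h7
  have h8 : (d : ℂ) ≠ 0 := by exact_mod_cast hd.ne'
  exact h8 h7.symm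

/-- exactness of the elliptic part -/
theorem exact_part {L : PeriodPair} {κ : ℂ} (hE : Eig L κ) (K : IntermediateField ℚ ℂ)
    (h2 : L.g₂ ∈ K) (h3 : L.g₃ ∈ K) (hkL : ∀ c ∈ kL L, c ∈ K) (hκ : κ ∈ K) {n : ℕ}
    (b c v : Fin n → ℂ) (hb : ∀ j, b j ∈ K) (hc : ∀ j, c j ∈ K)
    (hB : ∀ (ψ : ℂ →ₗ[kL L] kL L) (D : Derivation ℚ ℂ ℂ), (∀ w ∈ K, D w = 0) →
      ∑ j, (ψ (b j) : ℂ) * om L D (v j) = 0)
    (hC : ∀ (ψ : ℂ →ₗ[kL L] kL L) (D : Derivation ℚ ℂ ℂ), (∀ w ∈ K, D w = 0) →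
      ∑ j, conj (ψ (c j) : ℂ) * om L D (v j) = 0) :
    ∃ y : ℂ, ∀ D : Derivation ℚ ℂ ℂ, (∀ w ∈ K, D w = 0) →
      ∑ j, (b j * om L D (v j) + c j * ((℘[L] (v j) + κ) * om L D (v j))) = D y := by
  classical
  obtain ⟨d1, e1, ψ1, he1, hψ1⟩ := exists_coordK hkL b hb
  obtain ⟨d2, e2, ψ2, he2, hψ2⟩ := exists_coordK hkL c hc
  have hb0 : ∀ D : Derivation ℚ ℂ ℂ, (∀ w ∈ K, D w = 0) → ∑ j, b j * om L D (v j) = 0 := by
    intro D hD
    have h4 : ∀ j, b j * om L D (v j) = ∑ k, e1 k * ((ψ1 k (b j) : ℂ) * om L D (v j)) := by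
      intro j
      conv_lhs => rw [hψ1 j]
      rw [sum_mul]
      exact sum_congr rfl (fun k _ => by ring)
    rw [sum_congr rfl (fun j _ => h4 j), sum_comm]
    refine sum_eq_zero (fun k _ => ?_)
    rw [← mul_sum, hB _ D hD, mul_zero]
  set y : ℂ := ∑ k, e2 k * (zk L κ (∑ j, conj (ψ2 k (c j) : ℂ) * v j) -
    ∑ j, (ψ2 k (c j) : ℂ) * zk L κ (v j)) with hy
  have hc0 : ∀ D : Derivation ℚ ℂ ℂ, (∀ w ∈ K, D w = 0) →
      ∑ j, c j * ((℘[L] (v j) + κ) * om L D (v j)) = D y := by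
    intro D hD
    have hd2 := hD _ h2
    have hd3 := hD _ h3
    have hdκ := hD _ hκ
    have h4 : ∀ j, c j * ((℘[L] (v j) + κ) * om L D (v j)) =
        ∑ k, e2 k * ((ψ2 k (c j) : ℂ) * (xi L κ D (v j) - D (zk L κ (v j)))) := by
      intro j
      have h5 : (℘[L] (v j) + κ) * om L D (v j) = xi L κ D (v j) - D (zk L κ (v j)) := by
        rw [xi_eq D hdκ]; ring
      rw [h5]
      conv_lhs => rw [hψ2 j]
      rw [sum_mul]
      exact sum_congr rfl (fun k _ => by ring)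
    have h6 : ∀ k, om L D (∑ j, conj (ψ2 k (c j) : ℂ) * v j) = 0 := by
      intro k
      rw [om_linK hE D hd2 hd3 _ _ (fun j => conj_mem_kL (ψ2 k (c j)).2)]
      exact hC _ D hD
    have h7 : ∀ k, ∑ j, (ψ2 k (c j) : ℂ) * xi L κ D (v j) =
        D (zk L κ (∑ j, conj (ψ2 k (c j) : ℂ) * v j)) := by
      intro k
      have h8 := xi_linK hE D hd2 hd3 (fun j => conj (ψ2 k (c j) : ℂ)) v
        (fun j => conj_mem_kL (ψ2 k (c j)).2)
      simp only [Complex.conj_conj] at h8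
      rw [← h8, xi_eq D hdκ, h6, mul_zero, add_zero]
    rw [sum_congr rfl (fun j _ => h4 j), sum_comm, hy, map_sum]
    refine sum_congr rfl (fun k _ => ?_)
    rw [Derivation.leibniz, hD _ (he2 k), smul_zero, add_zero, smul_eq_mul, map_sub, ← h7,
      map_sum, ← mul_sum, ← sum_sub_distrib]
    congr 1
    refine sum_congr rfl (fun j _ => ?_)
    rw [Derivation.leibniz, der_kL D (ψ2 k (c j)).2, smul_zero, add_zero, smul_eq_mul, mul_sub]
  refine ⟨y, fun D hD => ?_⟩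
  rw [sum_add_distrib, hb0 D hD, hc0 D hD, zero_add]

/-- **Rosenlicht's theorem** for logarithmic differentials and differentials of the first and of
the second kind on several elliptic curves. -/
theorem rosM {q : ℕ} {Λ : Fin q → PeriodPair} {κ : Fin q → ℂ} (hE : ∀ c, Eig (Λ c) (κ c))
    (hni : ∀ c c', c ≠ c' → NoHom (Λ c) (Λ c')) (K : IntermediateField ℚ ℂ)
    (h2 : ∀ c, (Λ c).g₂ ∈ K) (h3 : ∀ c, (Λ c).g₃ ∈ K)
    (hkL : ∀ c, ∀ x ∈ kL (Λ c), x ∈ K) (hκ : ∀ c, κ c ∈ K)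
    {m n : ℕ} (β u : Fin m → ℂ) (hβ : ∀ l, β l ∈ K) (hu : ∀ l, u l ≠ 0)
    (ty : Fin n → Fin q) (b c v : Fin n → ℂ) (hb : ∀ j, b j ∈ K) (hc : ∀ j, c j ∈ K) (x : ℂ)
    (h : ∀ D : Derivation ℚ ℂ ℂ, (∀ w ∈ K, D w = 0) → D x = ∑ l, β l * (D (u l) / u l) +
      ∑ j, (b j * om (Λ (ty j)) D (v j) +
        c j * ((℘[Λ (ty j)] (v j) + κ (ty j)) * om (Λ (ty j)) D (v j)))) :
    (∀ (ψ : ℂ →ₗ[ℚ] ℚ) (D : Derivation ℚ ℂ ℂ), (∀ w ∈ K, D w = 0) →
      ∑ l, (ψ (β l) : ℂ) * (D (u l) / u l) = 0) ∧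
    ∀ (c₀ : Fin q) (ψ : ℂ →ₗ[kL (Λ c₀)] kL (Λ c₀)) (D : Derivation ℚ ℂ ℂ),
      (∀ w ∈ K, D w = 0) →
      ∑ j, (if ty j = c₀ then (ψ (b j) : ℂ) * om (Λ (ty j)) D (v j) else 0) = 0 ∧
      ∑ j, (if ty j = c₀ then conj (ψ (c j) : ℂ) * om (Λ (ty j)) D (v j) else 0) = 0 := by
  classical
  have hB : ∀ (c₀ : Fin q) (ψ : ℂ →ₗ[kL (Λ c₀)] kL (Λ c₀)) (D : Derivation ℚ ℂ ℂ),
      (∀ w ∈ K, D w = 0) →
      ∑ j, (if ty j = c₀ then (ψ (b j) : ℂ) * om (Λ (ty j)) D (v j) else 0) = 0 := by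
    intro c₀ ψ D hD
    have h4 := ros_linM hE hni K h2 h3 hkL hκ β u hβ hu ty b c v hb hc x h c₀
      (fun j => if ty j = c₀ then (ψ (b j) : ℂ) else 0) (fun j => by
        split_ifs
        · exact (ψ (b j)).2
        · exact zero_mem _) (fun j hj => if_neg hj) (fun N hNm hNt hN _ => by
        have h5 := psi_sumK ψ b N hNm
        rw [hN, map_zero] at h5
        refine Eq.trans (sum_congr rfl (fun j _ => ?_)) h5.symm
        by_cases hj : ty j = c₀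
        · rw [if_pos hj]
        · rw [if_neg hj, hNt j hj, mul_zero, mul_zero]) D hD
    refine Eq.trans (sum_congr rfl (fun j _ => ?_)) h4
    split_ifs
    · rfl
    · rw [zero_mul]
  have hC : ∀ (c₀ : Fin q) (ψ : ℂ →ₗ[kL (Λ c₀)] kL (Λ c₀)) (D : Derivation ℚ ℂ ℂ),
      (∀ w ∈ K, D w = 0) →
      ∑ j, (if ty j = c₀ then conj (ψ (c j) : ℂ) * om (Λ (ty j)) D (v j) else 0) = 0 := by
    intro c₀ ψ D hD
    have h4 := ros_linM hE hni K h2 h3 hkL hκ β u hβ hu ty b c v hb hc x h c₀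
      (fun j => if ty j = c₀ then conj (ψ (c j) : ℂ) else 0) (fun j => by
        split_ifs
        · exact conj_mem_kL (ψ (c j)).2
        · exact zero_mem _) (fun j hj => if_neg hj) (fun N hNm hNt _ hN => by
        have h5 := psi_sumK ψ c (fun j => conj (N j)) (fun j => conj_mem_kL (hNm j))
        rw [hN, map_zero] at h5
        have h6 := congrArg conj h5
        rw [map_sum] at h6
        simp only [map_mul, Complex.conj_conj] at h6
        have h7 : conj ((0 : kL (Λ c₀)) : ℂ) = 0 := by simp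
        rw [h7] at h6
        refine Eq.trans (sum_congr rfl (fun j _ => ?_)) h6.symm
        by_cases hj : ty j = c₀
        · rw [if_pos hj]
        · rw [if_neg hj, hNt j hj, mul_zero, mul_zero]) D hD
    refine Eq.trans (sum_congr rfl (fun j _ => ?_)) h4
    split_ifs
    · rfl
    · rw [zero_mul]
  have hy : ∀ c₀ : Fin q, ∃ y : ℂ, ∀ D : Derivation ℚ ℂ ℂ, (∀ w ∈ K, D w = 0) →
      ∑ j, (if ty j = c₀ then (b j * om (Λ (ty j)) D (v j) +
        c j * ((℘[Λ (ty j)] (v j) + κ (ty j)) * om (Λ (ty j)) D (v j))) else 0) = D y := by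
    intro c₀
    have hsum : ∀ (f : Fin n → ℂ) (D : Derivation ℚ ℂ ℂ),
        ∑ j, (if ty j = c₀ then f j else 0) * om (Λ c₀) D (v j) =
          ∑ j, (if ty j = c₀ then f j * om (Λ (ty j)) D (v j) else 0) := by
      intro f D
      refine sum_congr rfl (fun j _ => ?_)
      split_ifs with hj
      · rw [hj]
      · rw [zero_mul]
    obtain ⟨y, hy⟩ := exact_part (hE c₀) K (h2 c₀) (h3 c₀) (hkL c₀) (hκ c₀)
      (fun j => if ty j = c₀ then b j else 0) (fun j => if ty j = c₀ then c j else 0) v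
      (fun j => by
        split_ifs
        · exact hb j
        · exact zero_mem _) (fun j => by
        split_ifs
        · exact hc j
        · exact zero_mem _) (fun ψ D hD => by
        refine Eq.trans ?_ ((hsum (fun j => (ψ (b j) : ℂ)) D).trans (hB c₀ ψ D hD))
        refine sum_congr rfl (fun j _ => ?_)
        congr 1
        split_ifs
        · rfl
        · rw [map_zero]; rfl) (fun ψ D hD => by
        refine Eq.trans ?_ ((hsum (fun j => conj (ψ (c j) : ℂ)) D).trans (hC c₀ ψ D hD))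
        refine sum_congr rfl (fun j _ => ?_)
        congr 1
        split_ifs
        · rfl
        · rw [map_zero]
          simp)
    refine ⟨y, fun D hD => ?_⟩
    rw [← hy D hD]
    refine sum_congr rfl (fun j _ => ?_)
    split_ifs with hj
    · rw [hj]
    · rw [zero_mul, zero_mul, add_zero]
  choose y hy using hy
  have h9 : ∀ D : Derivation ℚ ℂ ℂ, (∀ w ∈ K, D w = 0) →
      D (x - ∑ c₀, y c₀) = ∑ l, β l * (D (u l) / u l) := by
    intro D hD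
    rw [map_sub, h D hD, map_sum, ← sum_congr rfl (fun c₀ _ => hy c₀ D hD), sum_comm]
    have h10 : ∀ j, ∑ c₀, (if ty j = c₀ then (b j * om (Λ (ty j)) D (v j) +
        c j * ((℘[Λ (ty j)] (v j) + κ (ty j)) * om (Λ (ty j)) D (v j))) else 0) =
        b j * om (Λ (ty j)) D (v j) +
        c j * ((℘[Λ (ty j)] (v j) + κ (ty j)) * om (Λ (ty j)) D (v j)) := fun j => by
      rw [sum_ite_eq, if_pos (mem_univ _)]
    rw [sum_congr rfl (fun j _ => h10 j)]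
    ring
  have h10 := Ros.exact K β u hβ hu _ h9
  exact ⟨fun ψ => Ros.rational K β u hβ hu (fun D hD => by rw [← h9 D hD, h10 D hD]) ψ,
    fun c₀ ψ D hD => ⟨hB c₀ ψ D hD, hC c₀ ψ D hD⟩⟩

end Pool.Agent.TH813.G
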