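import Mathlib
import Pool.Agent.TH813.EKFin
import Pool.Agent.TH813.Core2
import Pool.Agent.TH813.GTy

/-!
# The multiplicative group and elliptic curves as group types
-/

set_option autoImplicit false

open Finset Module
open scoped PeriodPair ComplexConjugate

noncomputable section

namespace Pool.Agent.TH813.G

open H667R3 Pool.Agent.W245.EB
open Pool.Agent.W252 Pool.Agent.W669.Gel
open Pool.Agent.TH813.Core Pool.Agent.TH813.Ell Pool.Agent.TH813.Core2
open Pool.Agent.TH813.Rel (DF MK)

variable {F : IntermediateField ℚ ℂ}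

/-- the multiplicative group -/
def TM (F : IntermediateField ℚ ℂ) : Ty F 0 where
  k := ℚ
  fin := inferInstance
  deg := by rw [finrank_self]; omega
  tw := fun _ => RingHom.id ℚ
  tw_tw := fun _ _ => rfl
  tw_zero := fun _ => rfl
  lam := fun _ D z => dlog D z
  lam_add_der := fun _ D D' z => dlog_add_der D D' z
  lam_smul_der := fun _ c D z => dlog_smul_der c D z
  lam_add := fun _ D _ u v => dlog_add D u v
  lam_mul := fun _ D _ a u => by
    rw [eq_ratCast, eq_ratCast, dlog_rat]
    rfl
  om_bracket := fun D _ D' z h => dlog_bracket h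
  lam_bracket := fun D _ D' z _ h _ => dlog_bracket (h 0)
  N := fun z => {z, Complex.exp z}
  N_fin := fun z => Set.toFinite _
  N_iff := fun D _ z => by
    constructor
    · intro h
      exact ⟨h z (Or.inl rfl), fun _ => dlog_eq_zero.2 (h _ (Or.inr rfl))⟩
    · rintro ⟨h1, h2⟩ x (rfl | rfl)
      · exact h1
      · exact dlog_eq_zero.1 (h2 0)
  W := fun z => {Complex.exp z}
  W_iff := fun D _ z => by
    constructor
    · intro h
      exact dlog_eq_zero.2 (h _ rfl)
    · rintro h x rfl
      exact dlog_eq_zero.1 h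

/-- conjugation on the field of multiplications -/
def cjk (L : PeriodPair) : kL L →+* kL L where
  toFun a := ⟨conj (a : ℂ), conj_mem_kL a.2⟩
  map_one' := Subtype.ext (map_one _)
  map_mul' a b := Subtype.ext (map_mul _ _ _)
  map_zero' := Subtype.ext (map_zero _)
  map_add' a b := Subtype.ext (map_add _ _ _)

/-- the values of `℘` at a point -/
def Wp (L : PeriodPair) (z : ℂ) : Set ℂ := ℘[L] '' ({z} \ (L.lattice : Set ℂ))

theorem om_of_killed0 {L : PeriodPair} {D : Derivation ℚ ℂ ℂ} {z : ℂ}
    (h : z ∉ L.lattice → D (℘[L] z) = 0) : om L D z = 0 := by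
  by_cases hz : z ∈ L.lattice
  · exact om_of_mem L D hz
  · unfold om
    rw [h hz, zero_div]

theorem Wp_iff {L : PeriodPair} {D : Derivation ℚ ℂ ℂ} (h2 : D L.g₂ = 0) (h3 : D L.g₃ = 0)
    (z : ℂ) : (∀ x ∈ Wp L z, D x = 0) ↔ om L D z = 0 := by
  constructor
  · intro h
    exact om_of_killed0 (fun hz => h _ ⟨z, ⟨rfl, hz⟩, rfl⟩)
  · rintro h _ ⟨w, ⟨rfl, hw⟩, rfl⟩
    exact (wp_killed h2 h3 h hw).1

/-- an elliptic curve, with differentials of the first kind -/
def TF (L : PeriodPair) (h2 : L.g₂ ∈ F) (h3 : L.g₃ ∈ F) : Ty F 0 where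
  k := kL L
  fin := (finrank_kL L).1
  deg := (finrank_kL L).2
  tw := fun _ => RingHom.id _
  tw_tw := fun _ _ => rfl
  tw_zero := fun _ => rfl
  lam := fun _ D z => om L D z
  lam_add_der := fun _ D D' z => om_add_der D D' z
  lam_smul_der := fun _ c D z => om_smul_der c D z
  lam_add := fun _ D hD u v => om_add L D (hD _ h2) (hD _ h3) u v
  lam_mul := fun _ D hD a u => by
    obtain ⟨κ, hE⟩ := exists_eig L
    exact hE.om_mul D (hD _ h2) (hD _ h3) a a.2 u
  om_bracket := fun D hD D' z h => om_bracket (hD _ h2) (hD _ h3) h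
  lam_bracket := fun D hD D' z _ h _ => om_bracket (hD _ h2) (hD _ h3) (h 0)
  N := fun z => {z} ∪ Wp L z
  N_fin := fun z => (Set.finite_singleton _).union
    (((Set.finite_singleton _).subset Set.sdiff_subset).image _)
  N_iff := fun D hD z => by
    have h := Wp_iff (hD _ h2) (hD _ h3) z
    constructor
    · intro hx
      exact ⟨hx z (Or.inl rfl), fun _ => h.1 (fun x hx' => hx x (Or.inr hx'))⟩
    · rintro ⟨h4, h5⟩ x (rfl | hx)
      · exact h4
      · exact h.2 (h5 0) x hx
  W := Wp L
  W_iff := fun D hD z => Wp_iff (hD _ h2) (hD _ h3) z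

/-- the value of `ζ` at a point (`0` on the lattice) -/
def Nz (L : PeriodPair) (z : ℂ) : Set ℂ := {z} ∪ ({zt L z} ∪ Wp L z)

/-- an elliptic curve, with differentials of the first and of the second kind -/
def TE {L : PeriodPair} {κ : ℂ} (hE : Eig L κ) (h2 : L.g₂ ∈ F) (h3 : L.g₃ ∈ F) : Ty F 1 where
  k := kL L
  fin := (finrank_kL L).1
  deg := (finrank_kL L).2
  tw := ![RingHom.id _, cjk L]
  tw_tw := fun j a => by
    fin_cases j
    · rfl
    · exact Subtype.ext (Complex.conj_conj _)
  tw_zero := fun _ => rfl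
  lam := ![fun D z => om L D z, fun D z => xi L κ D z]
  lam_add_der := fun j D D' z => by
    fin_cases j
    · exact om_add_der D D' z
    · change xi L κ (D + D') z = xi L κ D z + xi L κ D' z
      unfold xi
      rw [et_add_der, om_add_der, Derivation.add_apply]
      ring
  lam_smul_der := fun j c D z => by
    fin_cases j
    · exact om_smul_der c D z
    · change xi L κ (c • D) z = c * xi L κ D z
      unfold xi
      rw [et_smul_der, om_smul_der, Derivation.smul_apply, smul_eq_mul]
      ring
  lam_add := fun j D hD u v => by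
    fin_cases j
    · exact om_add L D (hD _ h2) (hD _ h3) u v
    · exact xi_add D (hD _ h2) (hD _ h3) u v
  lam_mul := fun j D hD a u => by
    fin_cases j
    · exact hE.om_mul D (hD _ h2) (hD _ h3) a a.2 u
    · exact hE.xi_mul D (hD _ h2) (hD _ h3) a a.2 u
  om_bracket := fun D hD D' z h => om_bracket (hD _ h2) (hD _ h3) h
  lam_bracket := fun D hD D' z h0 h j => by
    have h4 : om L D z = 0 := h 0
    have h5 : xi L κ D z = 0 := h 1
    have h6 : et L D z = 0 := by
      unfold xi at h5
      rwa [h4, h0, sub_zero, mul_zero, add_zero] at h5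
    fin_cases j
    · exact om_bracket (hD _ h2) (hD _ h3) h4
    · change et L ⁅D, D'⁆ z + κ * (om L ⁅D, D'⁆ z - ⁅D, D'⁆ z) =
        D (et L D' z + κ * (om L D' z - D' z))
      have h7 : ⁅D, D'⁆ z = D (D' z) := by
        rw [Derivation.commutator_apply, h0, map_zero, sub_zero]
      rw [et_bracket (hD _ h2) (hD _ h3) h4 h6, om_bracket (hD _ h2) (hD _ h3) h4, h7, map_add,
        Derivation.leibniz, hE.kill D (hD _ h2) (hD _ h3), smul_zero, add_zero, smul_eq_mul,
        map_sub]
  N := Nz L
  N_fin := fun z => (Set.finite_singleton _).union ((Set.finite_singleton _).union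
    (((Set.finite_singleton _).subset Set.sdiff_subset).image _))
  N_iff := fun D hD z => by
    have h := Wp_iff (hD _ h2) (hD _ h3) z
    constructor
    · intro hx
      have h0 : D z = 0 := hx z (Or.inl rfl)
      have h4 : om L D z = 0 := h.1 (fun x hx' => hx x (Or.inr (Or.inr hx')))
      refine ⟨h0, fun j => ?_⟩
      fin_cases j
      · exact h4
      · change et L D z + κ * (om L D z - D z) = 0
        unfold et
        rw [h4, h0, hx _ (Or.inr (Or.inl rfl))]
        ring
    · rintro ⟨h0, h5⟩
      have h4 : om L D z = 0 := h5 0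
      have h6 : et L D z = 0 := by
        have h7 : xi L κ D z = 0 := h5 1
        unfold xi at h7
        rwa [h4, h0, sub_zero, mul_zero, add_zero] at h7
      rintro x (rfl | (rfl | hx))
      · exact h0
      · exact zt_killed h4 h6
      · exact h.2 h4 x hx
  W := Wp L
  W_iff := fun D hD z => Wp_iff (hD _ h2) (hD _ h3) z

end Pool.Agent.TH813.G
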