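import Mathlib
import Pool.Agent.TH813.GTypes
import Pool.Agent.TH813.GRos

/-!
# The family of the multiplicative group and several elliptic curves
-/

set_option autoImplicit false

open Finset Module
open scoped PeriodPair ComplexConjugate

noncomputable section

namespace Pool.Agent.TH813.G

open H667R3 Pool.Agent.W245.EB
open Pool.Agent.W252 Pool.Agent.W669.Gel
open Pool.Agent.TH813.Core Pool.Agent.TH813.Ell
open Pool.Agent.TH813.Rel (DF MK)

variable {F : IntermediateField ℚ ℂ} {q : ℕ} {Λ : Fin q → PeriodPair} {κ : Fin q → ℂ}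

/-- the numbers of forms: the multiplicative group and `q` elliptic curves -/
def eE (q : ℕ) : Fin (q + 1) → ℕ := Fin.cons 0 (fun _ => 1)

/-- the multiplicative group and `q` elliptic curves -/
def TA (F : IntermediateField ℚ ℂ) (hE : ∀ c, Eig (Λ c) (κ c)) (h2 : ∀ c, (Λ c).g₂ ∈ F)
    (h3 : ∀ c, (Λ c).g₃ ∈ F) : Fam F (eE q) :=
  Fin.cases (motive := fun c => Ty F (eE q c)) (TM F) (fun c => TE (hE c) (h2 c) (h3 c))

/-- the indices of forms -/
abbrev Ip (q : ℕ) := Σ c : Fin (q + 1), Fin (eE q c + 1)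

/-- the kinds of forms -/
def cl (p : Ip q) : Option (Fin q × Fin 2) :=
  Fin.cases (motive := fun c => Fin (eE q c + 1) → Option (Fin q × Fin 2)) (fun _ => none)
    (fun c j => some (c, j)) p.1 p.2

theorem cl_none (p : Ip q) (j : Fin (eE q 0 + 1)) : cl p = none ↔ p = ⟨0, j⟩ := by
  obtain ⟨c, i⟩ := p
  revert i
  refine Fin.cases ?_ (fun c => ?_) c
  · intro i
    have : i = j := @Subsingleton.elim (Fin 1) _ i j
    rw [this]
    exact ⟨fun _ => rfl, fun _ => rfl⟩
  · intro i
    constructor
    · intro h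
      exact absurd h (by
        change ¬ (some (c, i) = none)
        simp)
    · intro h
      exact absurd (Sigma.mk.inj_iff.1 h).1 (Fin.succ_ne_zero c)

theorem cl_some (p : Ip q) (c' : Fin q) (s : Fin (eE q c'.succ + 1)) :
    cl p = some (c', s) ↔ p = ⟨c'.succ, s⟩ := by
  obtain ⟨c, i⟩ := p
  revert i
  refine Fin.cases ?_ (fun c => ?_) c
  · intro i
    constructor
    · intro h
      exact absurd h (by
        change ¬ (none = some (c', s))
        simp)
    · intro h
      exact absurd (Sigma.mk.inj_iff.1 h).1.symm (Fin.succ_ne_zero c')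
  · intro i
    constructor
    · intro h
      have h1 : (c, i) = (c', s) := Option.some.inj h
      obtain ⟨h2, h3⟩ := Prod.ext_iff.1 h1
      dsimp only at h2 h3
      subst h2
      rw [show i = s from h3]
    · intro h
      obtain ⟨h1, h2⟩ := Sigma.mk.inj_iff.1 h
      have h3 := Fin.succ_injective q h1
      subst h3
      rw [eq_of_heq h2]
      rfl

/-- the form with a given kind -/
def lamK (Λ : Fin q → PeriodPair) (κ : Fin q → ℂ) (o : Option (Fin q × Fin 2))
    (D : Derivation ℚ ℂ ℂ) (z : ℂ) : ℂ :=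
  match o with
  | none => dlog D z
  | some (c, s) => if s = 0 then om (Λ c) D z else xi (Λ c) (κ c) D z

/-- the first form with a given kind -/
def lam0 (Λ : Fin q → PeriodPair) (o : Option (Fin q × Fin 2))
    (D : Derivation ℚ ℂ ℂ) (z : ℂ) : ℂ :=
  match o with
  | none => dlog D z
  | some (c, _) => om (Λ c) D z

theorem lam_cl (hE : ∀ c, Eig (Λ c) (κ c)) (h2 : ∀ c, (Λ c).g₂ ∈ F)
    (h3 : ∀ c, (Λ c).g₃ ∈ F) (p : Ip q) (D : Derivation ℚ ℂ ℂ) (z : ℂ) :
    (TA F hE h2 h3 p.1).lam p.2 D z = lamK Λ κ (cl p) D z := by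
  obtain ⟨c, i⟩ := p
  revert i
  refine Fin.cases ?_ (fun c => ?_) c
  · intro i
    rfl
  · intro i
    have h : i = (0 : Fin 2) ∨ i = (1 : Fin 2) := by
      have : ∀ i : Fin 2, i = 0 ∨ i = 1 := by decide
      exact this i
    rcases h with h | h
    · rw [h]; rfl
    · rw [h]; rfl

theorem lam0_cl (hE : ∀ c, Eig (Λ c) (κ c)) (h2 : ∀ c, (Λ c).g₂ ∈ F)
    (h3 : ∀ c, (Λ c).g₃ ∈ F) (p : Ip q) (D : Derivation ℚ ℂ ℂ) (z : ℂ) :
    (TA F hE h2 h3 p.1).lam 0 D z = lam0 Λ (cl p) D z := by
  obtain ⟨c, i⟩ := p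
  revert i
  refine Fin.cases ?_ (fun c => ?_) c
  · intro i
    rfl
  · intro i
    rfl

theorem exists_enum {m : ℕ} (P : Fin m → Prop) [DecidablePred P] :
    ∃ (n : ℕ) (g : Fin n → Fin m), (∀ j, P (g j)) ∧
      ∀ G : Fin m → ℂ, ∑ j, G (g j) = ∑ a, if P a then G a else 0 := by
  classical
  let ε := Fintype.equivFin {a // P a}
  refine ⟨Fintype.card {a // P a}, fun j => (ε.symm j : Fin m), fun j => (ε.symm j).2,
    fun G => ?_⟩
  rw [Equiv.sum_comp ε.symm (fun a : {a // P a} => G a), ← sum_filter]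
  exact (sum_subtype (univ.filter P) (fun x => by simp) G).symm

/-- **Rosenlicht's property** of the family. -/
theorem ros_TA (hE : ∀ c, Eig (Λ c) (κ c)) (h2 : ∀ c, (Λ c).g₂ ∈ F)
    (h3 : ∀ c, (Λ c).g₃ ∈ F) (hni : ∀ c c', c ≠ c' → NoHom (Λ c) (Λ c')) :
    Ros (TA F hE h2 h3) := by
  classical
  intro K hFK hcl m idx b v x hb hrel c j ψ D hD
  have h2K : ∀ c, (Λ c).g₂ ∈ K := fun c => hFK _ (h2 c)
  have h3K : ∀ c, (Λ c).g₃ ∈ K := fun c => hFK _ (h3 c)
  have hkL : ∀ c, ∀ x ∈ kL (Λ c), x ∈ K := fun c x hx => hcl x (fun D _ => der_kL D hx)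
  have hκ : ∀ c, κ c ∈ K := fun c => hcl _ (fun D hD =>
    (hE c).kill D (hD _ (h2K c)) (hD _ (h3K c)))
  -- the elliptic terms
  obtain ⟨n, g, hgP, hg⟩ := exists_enum (fun a => cl (idx a) ≠ none)
  have hsome : ∀ j, ∃ p : Fin q × Fin 2, cl (idx (g j)) = some p := fun j =>
    Option.ne_none_iff_exists'.1 (hgP j)
  choose p hp using hsome
  let El : Derivation ℚ ℂ ℂ → Option (Fin q × Fin 2) → Fin m → ℂ := fun D o a =>
    match o with
    | none => 0
    | some (c, s) => if s = 0 then b a * om (Λ c) D (v a) else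
        b a * ((℘[Λ c] (v a) + κ c) * om (Λ c) D (v a))
  let ex : Option (Fin q × Fin 2) → Fin m → ℂ := fun o a =>
    match o with
    | none => 0
    | some (c, s) => if s = 0 then 0 else b a * zk (Λ c) (κ c) (v a)
  have hterm : ∀ D : Derivation ℚ ℂ ℂ, (∀ w ∈ K, D w = 0) → ∀ (o : Option (Fin q × Fin 2))
      (a : Fin m), b a * lamK Λ κ o D (v a) - D (ex o a) =
        (if o = none then b a else 0) * dlog D (v a) + El D o a := by
    intro D hD o a
    rcases o with _ | ⟨c, s⟩
    · change b a * dlog D (v a) - D 0 = (if (none : Option (Fin q × Fin 2)) = none then b a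
        else 0) * dlog D (v a) + 0
      rw [map_zero, if_pos rfl, sub_zero, add_zero]
    · change b a * (if s = 0 then om (Λ c) D (v a) else xi (Λ c) (κ c) D (v a)) -
        D (if s = 0 then 0 else b a * zk (Λ c) (κ c) (v a)) =
        (if some (c, s) = none then b a else 0) * dlog D (v a) +
          (if s = 0 then b a * om (Λ c) D (v a) else
            b a * ((℘[Λ c] (v a) + κ c) * om (Λ c) D (v a)))
      have e0 : (if (some (c, s) : Option (Fin q × Fin 2)) = none then b a else 0) = 0 :=
        if_neg (by simp)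
      rw [e0, zero_mul, zero_add]
      split_ifs
      · rw [map_zero, sub_zero]
      · rw [xi_eq D (hD _ (hκ c)), Derivation.leibniz, hD _ (hb a), smul_zero, add_zero,
          smul_eq_mul]
        ring
  have hrel' : ∀ D : Derivation ℚ ℂ ℂ, (∀ w ∈ K, D w = 0) →
      D (x - ∑ a, ex (cl (idx a)) a) =
      ∑ a, (if cl (idx a) = none then b a else 0) * (D (Complex.exp (v a)) / Complex.exp (v a)) +
      ∑ j, ((if (p j).2 = 0 then b (g j) else 0) * om (Λ (p j).1) D (v (g j)) +
        (if (p j).2 = 0 then 0 else b (g j)) *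
          ((℘[Λ (p j).1] (v (g j)) + κ (p j).1) * om (Λ (p j).1) D (v (g j)))) := by
    intro D hD
    have e1 : ∀ j, ((if (p j).2 = 0 then b (g j) else 0) * om (Λ (p j).1) D (v (g j)) +
        (if (p j).2 = 0 then 0 else b (g j)) *
          ((℘[Λ (p j).1] (v (g j)) + κ (p j).1) * om (Λ (p j).1) D (v (g j)))) =
        El D (cl (idx (g j))) (g j) := by
      intro j
      rw [hp j]
      change _ = if (p j).2 = 0 then b (g j) * om (Λ (p j).1) D (v (g j)) else
        b (g j) * ((℘[Λ (p j).1] (v (g j)) + κ (p j).1) * om (Λ (p j).1) D (v (g j)))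
      split_ifs
      · rw [zero_mul, add_zero]
      · rw [zero_mul, zero_add]
    rw [sum_congr rfl (fun j _ => e1 j), hg (fun a => El D (cl (idx a)) a), map_sub, hrel D hD,
      map_sum, ← sum_sub_distrib, ← sum_add_distrib]
    refine sum_congr rfl (fun a _ => ?_)
    rw [lam_cl, hterm D hD]
    congr 1
    split_ifs with h
    · rfl
    · rw [not_not.1 h]
  obtain ⟨r1, r2⟩ := rosM hE hni K h2K h3K hkL hκ
    (fun a => if cl (idx a) = none then b a else 0) (fun a => Complex.exp (v a))
    (fun a => by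
      split_ifs
      · exact hb a
      · exact zero_mem _) (fun a => Complex.exp_ne_zero _) (fun j => (p j).1)
    (fun j => if (p j).2 = 0 then b (g j) else 0) (fun j => if (p j).2 = 0 then 0 else b (g j))
    (fun j => v (g j)) (fun j => by
      split_ifs
      · exact hb _
      · exact zero_mem _) (fun j => by
      split_ifs
      · exact zero_mem _
      · exact hb _) _ hrel'
  simp only [lam0_cl]
  revert j ψ
  refine Fin.cases ?_ (fun c => ?_) c
  · intro j ψ
    let ψ' : ℂ →ₗ[ℚ] ℚ := ψ
    refine Eq.trans (sum_congr rfl (fun a _ => ?_)) (r1 ψ' D hD)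
    by_cases h : cl (idx a) = none
    · rw [if_pos ((cl_none _ j).1 h), if_pos h, h]
      have e1 : algebraMap (TA F hE h2 h3 0).k ℂ ((TA F hE h2 h3 0).tw j (ψ (b a))) =
          ((ψ' (b a) : ℚ) : ℂ) := eq_ratCast (algebraMap ℚ ℂ) (ψ' (b a))
      rw [e1]
      rfl
    · rw [if_neg (fun h' => h ((cl_none _ j).2 h')), if_neg h, map_zero, Rat.cast_zero, zero_mul]
  · intro j ψ
    let ψ' : ℂ →ₗ[kL (Λ c)] kL (Λ c) := ψ
    obtain ⟨s1, s2⟩ := r2 c ψ' D hD
    -- the sums over the elliptic terms
    have key : ∀ f : Option (Fin q × Fin 2) → Fin m → ℂ, (∀ a, f none a = 0) →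
        ∑ j, f (some (p j)) (g j) = ∑ a, f (cl (idx a)) a := by
      intro f hf
      have e1 : ∀ j, f (some (p j)) (g j) = (fun a => f (cl (idx a)) a) (g j) := fun j => by
        change _ = f (cl (idx (g j))) (g j)
        rw [hp j]
      refine (sum_congr rfl (fun j _ => e1 j)).trans ((hg (fun a => f (cl (idx a)) a)).trans ?_)
      refine sum_congr rfl (fun a _ => ?_)
      split_ifs with h
      · rfl
      · rw [not_not.1 h, hf]
    have hj : j = (0 : Fin 2) ∨ j = (1 : Fin 2) := by
      have : ∀ i : Fin 2, i = 0 ∨ i = 1 := by decide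
      exact this j
    rcases hj with hj | hj
    · subst hj
      have e1 := key (fun o a => match o with
        | none => 0
        | some (c', s) => if c' = c then
            ((ψ' (if s = 0 then b a else 0) : kL (Λ c)) : ℂ) * om (Λ c') D (v a) else 0)
        (fun a => rfl)
      refine Eq.trans (sum_congr rfl (fun a _ => ?_)) (e1.symm.trans s1)
      by_cases h : cl (idx a) = some (c, (0 : Fin 2))
      · rw [if_pos ((cl_some _ c _).1 h), h]
        change _ = if c = c then ((ψ' (if (0 : Fin 2) = 0 then b a else 0) : kL (Λ c)) : ℂ) *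
          om (Λ c) D (v a) else 0
        rw [if_pos rfl, if_pos rfl]
        rfl
      · rw [if_neg (fun h' => h ((cl_some _ c _).2 h'))]
        rcases hcl' : cl (idx a) with _ | ⟨c', s⟩
        · rfl
        · change 0 = if c' = c then ((ψ' (if s = 0 then b a else 0) : kL (Λ c)) : ℂ) *
            om (Λ c') D (v a) else 0
          by_cases hc : c' = c
          · have hs : s ≠ 0 := fun hs => h (by rw [hcl', hs, hc])
            rw [if_pos hc, if_neg hs, map_zero, ZeroMemClass.coe_zero, zero_mul]
          · rw [if_neg hc]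
    · subst hj
      have e1 := key (fun o a => match o with
        | none => 0
        | some (c', s) => if c' = c then
            conj ((ψ' (if s = 0 then 0 else b a) : kL (Λ c)) : ℂ) * om (Λ c') D (v a) else 0)
        (fun a => rfl)
      refine Eq.trans (sum_congr rfl (fun a _ => ?_)) (e1.symm.trans s2)
      by_cases h : cl (idx a) = some (c, (1 : Fin 2))
      · rw [if_pos ((cl_some _ c _).1 h), h]
        change _ = if c = c then conj ((ψ' (if (1 : Fin 2) = 0 then 0 else b a) : kL (Λ c)) : ℂ) *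
          om (Λ c) D (v a) else 0
        rw [if_pos rfl, if_neg (show ¬ ((1 : Fin 2) = 0) by decide)]
        rfl
      · rw [if_neg (fun h' => h ((cl_some _ c _).2 h'))]
        rcases hcl' : cl (idx a) with _ | ⟨c', s⟩
        · rfl
        · change 0 = if c' = c then conj ((ψ' (if s = 0 then 0 else b a) : kL (Λ c)) : ℂ) *
            om (Λ c') D (v a) else 0
          by_cases hc : c' = c
          · have hs : s = 0 := by
              have : ∀ i : Fin 2, i = 0 ∨ i = 1 := by decide
              exact (this s).resolve_right (fun hs => h (by rw [hcl', hs, hc]))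
            rw [if_pos hc, if_pos hs, map_zero, ZeroMemClass.coe_zero, map_zero, zero_mul]
          · rw [if_neg hc]

end Pool.Agent.TH813.G
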