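import Mathlib
import Pool.Agent.TH813.GFam
import Pool.Agent.TH813.GBase
import Pool.Agent.TH813.EKTup

/-!
# The multiplicative group and several elliptic curves: concrete spaces and numbers
-/

set_option autoImplicit false

open Finset Module
open scoped PeriodPair ComplexConjugate

noncomputable section

namespace Pool.Agent.TH813.G

open H667R3 Pool.Agent.W245.EB
open Pool.Agent.W252 Pool.Agent.W669.Gel
open Pool.Agent.TH813.Core Pool.Agent.TH813.Ell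
open Pool.Agent.TH813.Rel (DF MK trF)
open Pool.Agent.TH813.Uni (trF_le_iff tr tr_add tr_eq tr_mono)

variable {F : IntermediateField ℚ ℂ} {q : ℕ} {Λ : Fin q → PeriodPair} {κ : Fin q → ℂ}

/-- families of spaces -/
abbrev SpL (Λ : Fin q → PeriodPair) : Type :=
  Submodule ℚ ℂ × (∀ c, Submodule (kL (Λ c)) ℂ)

section conv

variable (hE : ∀ c, Eig (Λ c) (κ c)) (h2 : ∀ c, (Λ c).g₂ ∈ F) (h3 : ∀ c, (Λ c).g₃ ∈ F)

/-- spaces for the family -/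
def toS (X : SpL Λ) : Sp (TA F hE h2 h3) :=
  Fin.cases (motive := fun c => Submodule (TA F hE h2 h3 c).k ℂ) X.1 X.2

/-- spaces for the family -/
def ofS (Y : Sp (TA F hE h2 h3)) : SpL Λ := (Y 0, fun c => Y c.succ)

theorem of_to (X : SpL Λ) : ofS hE h2 h3 (toS hE h2 h3 X) = X := rfl

theorem to_of (Y : Sp (TA F hE h2 h3)) : toS hE h2 h3 (ofS hE h2 h3 Y) = Y := by
  funext c
  refine Fin.cases ?_ (fun c => ?_) c
  · rfl
  · rfl

theorem to_le {X Y : SpL Λ} : toS hE h2 h3 X ≤ toS hE h2 h3 Y ↔ X ≤ Y := by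
  constructor
  · intro h
    exact ⟨h 0, fun c => h c.succ⟩
  · intro h c
    refine Fin.cases ?_ (fun c => ?_) c
    · exact h.1
    · exact h.2 c

theorem to_inf (X Y : SpL Λ) : toS hE h2 h3 (X ⊓ Y) = toS hE h2 h3 X ⊓ toS hE h2 h3 Y := by
  funext c
  refine Fin.cases ?_ (fun c => ?_) c
  · rfl
  · rfl

theorem to_bot : toS hE h2 h3 ⊥ = ⊥ := by
  funext c
  refine Fin.cases ?_ (fun c => ?_) c
  · rfl
  · rfl

theorem to_inj {X Y : SpL Λ} (h : toS hE h2 h3 X = toS hE h2 h3 Y) : X = Y := by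
  rw [← of_to hE h2 h3 X, h, of_to]

end conv

/-- finite-dimensional families -/
def FdL (X : SpL Λ) : Prop :=
  FiniteDimensional ℚ X.1 ∧ ∀ c, FiniteDimensional (kL (Λ c)) (X.2 c)

theorem FdL.mono {X Y : SpL Λ} (hY : FdL Y) (h : X ≤ Y) : FdL X := by
  have := hY.1
  refine ⟨Submodule.finiteDimensional_of_le h.1, fun c => ?_⟩
  have := hY.2 c
  exact Submodule.finiteDimensional_of_le (h.2 c)

/-- the weight of a family -/
def wtL (X : SpL Λ) : ℕ := finrank ℚ X.1 + 2 * ∑ c, finrank (kL (Λ c)) (X.2 c)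

section conv

variable (hE : ∀ c, Eig (Λ c) (κ c)) (h2 : ∀ c, (Λ c).g₂ ∈ F) (h3 : ∀ c, (Λ c).g₃ ∈ F)

theorem to_fd {X : SpL Λ} (h : FdL X) : Fd (TA F hE h2 h3) (toS hE h2 h3 X) := by
  intro c
  refine Fin.cases ?_ (fun c => ?_) c
  · exact h.1
  · exact h.2 c

theorem wtd_to (X : SpL Λ) : wtd (TA F hE h2 h3) (toS hE h2 h3 X) = wtL X := by
  unfold wtd wtL
  rw [Fin.sum_univ_succ]
  have h0 : (eE q 0 + 1) * finrank (TA F hE h2 h3 0).k (toS hE h2 h3 X 0) =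
      finrank ℚ X.1 := one_mul _
  have h1 : ∀ c : Fin q, (eE q c.succ + 1) *
      finrank (TA F hE h2 h3 c.succ).k (toS hE h2 h3 X c.succ) =
      2 * finrank (kL (Λ c)) (X.2 c) := fun c => rfl
  rw [h0, sum_congr rfl (fun c _ => h1 c), ← mul_sum]

end conv

/-- the numbers attached to two families of spaces -/
def NL (Λ : Fin q → PeriodPair) (X W : SpL Λ) : Set ℂ :=
  ((X.1 : Set ℂ) ∪ Complex.exp '' (W.1 : Set ℂ)) ∪
    ⋃ c, ((X.2 c : Set ℂ) ∪ (zeta (Λ c) '' ((X.2 c : Set ℂ) \ ((Λ c).lattice : Set ℂ)) ∪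
      ℘[Λ c] '' ((W.2 c : Set ℂ) \ ((Λ c).lattice : Set ℂ))))

theorem NL_mono {X X' W W' : SpL Λ} (h1 : X ≤ X') (h2 : W ≤ W') : NL Λ X W ⊆ NL Λ X' W' :=
  Set.union_subset_union (Set.union_subset_union h1.1 (Set.image_mono h2.1))
    (Set.iUnion_mono (fun c => Set.union_subset_union (h1.2 c)
      (Set.union_subset_union (Set.image_mono (Set.sdiff_subset_sdiff_left (h1.2 c)))
        (Set.image_mono (Set.sdiff_subset_sdiff_left (h2.2 c))))))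

/-- one elliptic curve -/
theorem ell_iff {L : PeriodPair} {D : Derivation ℚ ℂ ℂ} (h2 : D L.g₂ = 0)
    (h3 : D L.g₃ = 0) {X W : Submodule (kL L) ℂ} (h : X ≤ W) :
    (∀ x ∈ (X : Set ℂ) ∪ (zeta L '' ((X : Set ℂ) \ (L.lattice : Set ℂ)) ∪
      ℘[L] '' ((W : Set ℂ) \ (L.lattice : Set ℂ))), D x = 0) ↔
    (∀ x ∈ X, D x = 0 ∧ om L D x = 0 ∧ et L D x = 0) ∧ ∀ w ∈ W, om L D w = 0 := by
  have h1 := NS_iff h2 h3 (∅ : Set ℂ) (∅ : Set ℂ) (X.restrictScalars ℚ) (W : Set ℂ) h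
  have hS : ∀ S : Set ℂ, ((∅ : Set ℂ) ∪ Complex.exp '' (∅ : Set ℂ)) ∪ S = S := fun S => by
    rw [Set.image_empty, Set.union_empty, Set.empty_union]
  unfold NS SM at h1
  rw [hS, hS] at h1
  constructor
  · intro hD
    have hD' := h1.1 hD
    have hom : ∀ w ∈ W, om L D w = 0 := fun w hw =>
      om_of_killed (fun hw' => hD _ (Or.inr (Or.inr ⟨w, ⟨hw, hw'⟩, rfl⟩)))
    refine ⟨fun x hx => ⟨hD x (Or.inl hx), hom x (h hx), ?_⟩, hom⟩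
    unfold et
    rw [hom x (h hx), mul_zero, add_zero]
    exact hD' _ (Or.inr (Or.inl ⟨x, hx, rfl⟩))
  · rintro ⟨hX, hW⟩
    refine h1.2 ?_
    rintro x (hx | (⟨w, hw, rfl⟩ | ⟨w, ⟨hw, hw'⟩, rfl⟩))
    · exact (hX x hx).1
    · exact zt_killed (hX w hw).2.1 (hX w hw).2.2
    · exact (wp_killed h2 h3 (hW w hw) hw').1

theorem xi_iff {L : PeriodPair} {κ : ℂ} {D : Derivation ℚ ℂ ℂ} {x : ℂ} (h0 : D x = 0)
    (h : om L D x = 0) : xi L κ D x = 0 ↔ et L D x = 0 := by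
  unfold xi
  rw [h0, h, sub_zero, mul_zero, add_zero]

/-- the conditions on a derivation -/
def KilL (D : Derivation ℚ ℂ ℂ) (X W : SpL Λ) : Prop :=
  ((∀ x ∈ X.1, D x = 0 ∧ dlog D x = 0) ∧ ∀ w ∈ W.1, dlog D w = 0) ∧
    ∀ c, (∀ x ∈ X.2 c, D x = 0 ∧ om (Λ c) D x = 0 ∧ et (Λ c) D x = 0) ∧
      ∀ w ∈ W.2 c, om (Λ c) D w = 0

theorem NL_iff {D : Derivation ℚ ℂ ℂ} (h2 : ∀ c, D (Λ c).g₂ = 0) (h3 : ∀ c, D (Λ c).g₃ = 0)
    {X W : SpL Λ} (h : X ≤ W) : (∀ x ∈ NL Λ X W, D x = 0) ↔ KilL D X W := by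
  constructor
  · intro hD
    refine ⟨⟨fun x hx => ⟨hD x (Or.inl (Or.inl hx)), dlog_eq_zero.2
      (hD _ (Or.inl (Or.inr ⟨x, h.1 hx, rfl⟩)))⟩, fun w hw => dlog_eq_zero.2
      (hD _ (Or.inl (Or.inr ⟨w, hw, rfl⟩)))⟩, fun c => ?_⟩
    exact (ell_iff (h2 c) (h3 c) (h.2 c)).1 (fun x hx => hD x (Or.inr (Set.mem_iUnion.2 ⟨c, hx⟩)))
  · rintro ⟨⟨h4, h5⟩, h6⟩ x ((hx | ⟨w, hw, rfl⟩) | hx)
    · exact (h4 x hx).1
    · exact dlog_eq_zero.1 (h5 w hw)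
    · obtain ⟨c, hx⟩ := Set.mem_iUnion.1 hx
      exact (ell_iff (h2 c) (h3 c) (h.2 c)).2 (h6 c) x hx

theorem NX_iffL (hE : ∀ c, Eig (Λ c) (κ c)) (h2 : ∀ c, (Λ c).g₂ ∈ F) (h3 : ∀ c, (Λ c).g₃ ∈ F)
    {D : Derivation ℚ ℂ ℂ} (hF : D ∈ DF F) (X W : SpL Λ) :
    (∀ x ∈ NX (TA F hE h2 h3) (toS hE h2 h3 X) (toS hE h2 h3 W), D x = 0) ↔ KilL D X W := by
  rw [NX_iff _ hF]
  constructor
  · intro h
    refine ⟨⟨fun x hx => ⟨(h 0).1 x hx none, (h 0).1 x hx (some 0)⟩, (h 0).2⟩, fun c =>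
      ⟨fun x hx => ?_, (h c.succ).2⟩⟩
    have h4 : D x = 0 := (h c.succ).1 x hx none
    have h5 : om (Λ c) D x = 0 := (h c.succ).1 x hx (some 0)
    have h6 : xi (Λ c) (κ c) D x = 0 := (h c.succ).1 x hx (some 1)
    exact ⟨h4, h5, (xi_iff h4 h5).1 h6⟩
  · rintro ⟨h4, h5⟩ c
    refine Fin.cases ?_ (fun c => ?_) c
    · refine ⟨fun x hx o => ?_, h4.2⟩
      rcases o with _ | j
      · exact (h4.1 x hx).1
      · exact (h4.1 x hx).2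
    · refine ⟨fun x hx o => ?_, (h5 c).2⟩
      obtain ⟨h6, h7, h8⟩ := (h5 c).1 x hx
      rcases o with _ | j
      · exact h6
      · have hj : j = (0 : Fin 2) ∨ j = (1 : Fin 2) := by
          have : ∀ i : Fin 2, i = 0 ∨ i = 1 := by decide
          exact this j
        rcases hj with rfl | rfl
        · exact h7
        · exact (xi_iff h6 h7).2 h8

/-- the invariants -/
def IL (Λ : Fin q → PeriodPair) : Set ℂ := ⋃ c, {(Λ c).g₂, (Λ c).g₃}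

theorem IL_fin (Λ : Fin q → PeriodPair) : (IL Λ).Finite :=
  Set.finite_iUnion (fun _ => Set.toFinite _)

theorem g2_IL (Λ : Fin q → PeriodPair) (c : Fin q) : (Λ c).g₂ ∈ IL Λ :=
  Set.mem_iUnion.2 ⟨c, Or.inl rfl⟩

theorem g3_IL (Λ : Fin q → PeriodPair) (c : Fin q) : (Λ c).g₃ ∈ IL Λ :=
  Set.mem_iUnion.2 ⟨c, Or.inr rfl⟩

/-- eigenvectors for all curves -/
theorem exists_eigs (Λ : Fin q → PeriodPair) : ∃ κ : Fin q → ℂ, ∀ c, Eig (Λ c) (κ c) := by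
  choose κ h using fun c => exists_eig (Λ c)
  exact ⟨κ, h⟩

theorem mem_F (Λ : Fin q → PeriodPair) :
    (∀ c, (Λ c).g₂ ∈ IntermediateField.adjoin ℚ (IL Λ)) ∧
      ∀ c, (Λ c).g₃ ∈ IntermediateField.adjoin ℚ (IL Λ) :=
  ⟨fun c => IntermediateField.subset_adjoin ℚ _ (g2_IL Λ c),
    fun c => IntermediateField.subset_adjoin ℚ _ (g3_IL Λ c)⟩

theorem mem_DF {I : Set ℂ} {D : Derivation ℚ ℂ ℂ} (h : ∀ x ∈ I, D x = 0) :
    D ∈ DF (IntermediateField.adjoin ℚ I) := by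
  intro x hx
  exact Pool.Agent.H327R2.SC.der_alg (IntermediateField.adjoin ℚ I) D (fun y hy => by
    induction hy using IntermediateField.adjoin_induction with
    | mem z hz => exact h z hz
    | algebraMap r => exact D.map_algebraMap r
    | add a b _ _ ha hb => rw [map_add, ha, hb, add_zero]
    | inv a _ ha => rw [Derivation.leibniz_inv, ha, smul_zero]
    | mul a b _ _ ha hb => rw [Derivation.leibniz, ha, hb, smul_zero, smul_zero, add_zero])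
    (isAlgebraic_algebraMap (A := ℂ) (⟨x, hx⟩ : IntermediateField.adjoin ℚ I))

theorem tr_congr_killed {S S' : Set ℂ} (h : ∀ D : Derivation ℚ ℂ ℂ,
    (∀ x ∈ S, D x = 0) ↔ ∀ x ∈ S', D x = 0) {k : ℕ} (hk : tr S = k) : tr S' = k := by
  apply le_antisymm
  · exact tr_le_of_killed (fun D hD => (h D).1 hD) hk.le
  · have h1 := tr_le_of_killed (T := S) (S := S') (fun D hD => (h D).1 hD) hk.le
    obtain ⟨t, ht⟩ := Cardinal.lt_aleph0.1 (lt_of_le_of_lt h1 Cardinal.natCast_lt_aleph0)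
    rw [ht, ← hk]
    exact tr_le_of_killed (fun D hD => (h D).2 hD) ht.le

theorem tr_NL (hE : ∀ c, Eig (Λ c) (κ c)) {X W : SpL Λ} (h : X ≤ W) (hW : FdL W) :
    ∃ t : ℕ, tr (IL Λ ∪ NL Λ X W) = t ∧
      tr (IL Λ ∪ NX (TA _ hE (mem_F Λ).1 (mem_F Λ).2) (toS hE _ _ X) (toS hE _ _ W)) = t := by
  obtain ⟨t, ht⟩ := tr_lt (I := IL Λ) (T := TA _ hE (mem_F Λ).1 (mem_F Λ).2) (IL_fin Λ)
    (to_fd hE _ _ (hW.mono h)) (to_fd hE _ _ hW)
  refine ⟨t, tr_congr_killed (fun D => ?_) ht, ht⟩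
  constructor
  · intro hD
    have hI : ∀ x ∈ IL Λ, D x = 0 := fun x hx => hD x (Or.inl hx)
    have h4 := (NX_iffL hE (mem_F Λ).1 (mem_F Λ).2 (mem_DF hI) X W).1
      (fun x hx => hD x (Or.inr hx))
    rintro x (hx | hx)
    · exact hI x hx
    · exact (NL_iff (fun c => hI _ (g2_IL Λ c)) (fun c => hI _ (g3_IL Λ c)) h).2 h4 x hx
  · intro hD
    have hI : ∀ x ∈ IL Λ, D x = 0 := fun x hx => hD x (Or.inl hx)
    have h4 := (NL_iff (fun c => hI _ (g2_IL Λ c)) (fun c => hI _ (g3_IL Λ c)) h).1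
      (fun x hx => hD x (Or.inr hx))
    rintro x (hx | hx)
    · exact hI x hx
    · exact (NX_iffL hE (mem_F Λ).1 (mem_F Λ).2 (mem_DF hI) X W).2 h4 x hx

/-- the predimension -/
def dC (Λ : Fin q → PeriodPair) (X W : SpL Λ) : ℤ :=
  (Cardinal.toNat (tr (IL Λ ∪ NL Λ X W)) : ℤ) - (wtL X : ℤ)

theorem dC_eq (hE : ∀ c, Eig (Λ c) (κ c)) {X W : SpL Λ} (h : X ≤ W) (hW : FdL W) :
    dC Λ X W = dG (TA _ hE (mem_F Λ).1 (mem_F Λ).2) (IL Λ) (toS hE _ _ X) (toS hE _ _ W) := by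
  obtain ⟨t, h1, h2⟩ := tr_NL hE h hW
  unfold dC dG
  rw [h1, h2, wtd_to]

/-- pairwise non-isogenous curves -/
def NI (Λ : Fin q → PeriodPair) : Prop := ∀ c c', c ≠ c' → NoHom (Λ c) (Λ c')

theorem dC_mono {X W W' : SpL Λ} (h : X ≤ W) (hW' : FdL W') (h' : W ≤ W') :
    dC Λ X W ≤ dC Λ X W' := by
  obtain ⟨κ, hE⟩ := exists_eigs Λ
  rw [dC_eq hE h (hW'.mono h'), dC_eq hE (h.trans h') hW']
  exact dG_mono (IL_fin Λ) (to_fd hE _ _ (hW'.mono (h.trans h'))) (to_fd hE _ _ hW')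
    ((to_le hE _ _).2 h')

/-- The minima of the predimension over a base, for the multiplicative group and several elliptic
curves. -/
theorem relC (q r : ℕ) : ∃ B : ℕ, ∀ (Λ : Fin q → PeriodPair), NI Λ → ∀ A V : SpL Λ, FdL V →
    finrank ℚ V.1 ≤ r → (∀ c, finrank (kL (Λ c)) (V.2 c) ≤ r) → A ≤ V →
    ∃ 𝒯 : Finset (SpL Λ), 𝒯.card ≤ B ∧
      (∀ W ∈ 𝒯, A ≤ W ∧ W ≤ V ∧ dC Λ W W < dC Λ A A) ∧
      ∀ U, A ≤ U → U ≤ V → ∀ d : ℤ, d < dC Λ A A →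
        ((∃ X, A ≤ X ∧ X ≤ U ∧ dC Λ X X ≤ d) ↔ ∃ W ∈ 𝒯, dC Λ (U ⊓ W) W ≤ d) := by
  classical
  obtain ⟨B, hB⟩ := relG (q + 1) (eE q) r
  refine ⟨B, fun Λ hni A V hV hr1 hr2 hAV => ?_⟩
  obtain ⟨κ, hE⟩ := exists_eigs Λ
  have hR := ros_TA hE (mem_F Λ).1 (mem_F Λ).2 hni
  obtain ⟨𝒯, hT1, hT2, hT3⟩ := hB (IL Λ) (IL_fin Λ) _ hR (toS hE _ _ A) (toS hE _ _ V)
    (to_fd hE _ _ hV) (fun c => by
      refine Fin.cases ?_ (fun c => ?_) c
      · exact hr1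
      · exact hr2 c) ((to_le hE _ _).2 hAV)
  have hdA := dC_eq hE (le_refl A) (hV.mono hAV)
  refine ⟨𝒯.image (ofS hE _ _), Finset.card_image_le.trans hT1, fun W hW => ?_,
    fun U hAU hUV d hd => ?_⟩
  · obtain ⟨Y, hY, rfl⟩ := Finset.mem_image.1 hW
    obtain ⟨h1, h4, h5⟩ := hT2 Y hY
    have h6 : ofS hE _ _ Y ≤ V := (to_le hE (mem_F Λ).1 (mem_F Λ).2).1 (by rw [to_of]; exact h4)
    refine ⟨(to_le hE (mem_F Λ).1 (mem_F Λ).2).1 (by rw [to_of]; exact h1), h6, ?_⟩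
    rw [dC_eq hE le_rfl (hV.mono h6), hdA, to_of]
    exact h5
  · rw [hdA] at hd
    have key := hT3 (toS hE _ _ U) ((to_le hE _ _).2 hAU) ((to_le hE _ _).2 hUV) d hd
    constructor
    · rintro ⟨X, hAX, hXU, h⟩
      rw [dC_eq hE le_rfl (hV.mono (hXU.trans hUV))] at h
      obtain ⟨Y, hY, h'⟩ := key.1 ⟨toS hE _ _ X, (to_le hE _ _).2 hAX, (to_le hE _ _).2 hXU, h⟩
      refine ⟨ofS hE _ _ Y, Finset.mem_image_of_mem _ hY, ?_⟩
      have h6 : ofS hE _ _ Y ≤ V := (to_le hE (mem_F Λ).1 (mem_F Λ).2).1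
        (by rw [to_of]; exact (hT2 Y hY).2.1)
      rw [dC_eq hE inf_le_right (hV.mono h6), to_inf, to_of]
      exact h'
    · rintro ⟨W, hW, h⟩
      obtain ⟨Y, hY, rfl⟩ := Finset.mem_image.1 hW
      have h6 : ofS hE _ _ Y ≤ V := (to_le hE (mem_F Λ).1 (mem_F Λ).2).1
        (by rw [to_of]; exact (hT2 Y hY).2.1)
      rw [dC_eq hE inf_le_right (hV.mono h6), to_inf, to_of] at h
      obtain ⟨X, hAX, hXU, h'⟩ := key.2 ⟨Y, hY, h⟩
      have h7 : ofS hE _ _ X ≤ U := (to_le hE (mem_F Λ).1 (mem_F Λ).2).1 (by rw [to_of]; exact hXU)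
      refine ⟨ofS hE _ _ X, (to_le hE (mem_F Λ).1 (mem_F Λ).2).1 (by rw [to_of]; exact hAX),
        h7, ?_⟩
      rw [dC_eq hE le_rfl (hV.mono (h7.trans hUV)), to_of]
      exact h'

end Pool.Agent.TH813.G
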