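import Mathlib
import Pool.Agent.TH813.GAny
import Pool.Agent.TH813.GConc

/-!
# Points of any transcendence degree: the multiplicative group and several elliptic curves
-/

set_option autoImplicit false

open Finset Module
open scoped PeriodPair

noncomputable section

namespace Pool.Agent.TH813.GAnyC

open H667R3 Pool.Agent.W245.EB
open Pool.Agent.W252 Pool.Agent.W669.Gel
open Pool.Agent.TH813.G Pool.Agent.TH813.GAny Pool.Agent.TH813.Ell
open Pool.Agent.TH813.Core (dlog_eq_zero)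
open Pool.Agent.TH813.Rel (DF MK trF kills_clF mem_cl)
open Pool.Agent.TH813.Uni (trF_le_iff)

variable {q : ℕ} {n : Fin (q + 1) → ℕ}

/-- the numbers `t`, `p` -/
def lin (r : Tu n) : Set ℂ := {x | ∃ c i, x = r c i}

/-- the numbers `e^t` -/
def ex (r : Tu n) : Set ℂ := {x | ∃ i, x = Complex.exp (r 0 i)}

/-- the numbers `℘(p)` -/
def wp (Λ : Fin q → PeriodPair) (r : Tu n) : Set ℂ :=
  {x | ∃ (c : Fin q) (i : Fin (n c.succ)), r c.succ i ∉ (Λ c).lattice ∧ x = ℘[Λ c] (r c.succ i)}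

/-- the numbers `ζ(p)` -/
def ze (Λ : Fin q → PeriodPair) (r : Tu n) : Set ℂ :=
  {x | ∃ (c : Fin q) (i : Fin (n c.succ)), r c.succ i ∉ (Λ c).lattice ∧
    x = H667R3.zeta (Λ c) (r c.succ i)}

/-- all numbers -/
def pts (Λ : Fin q → PeriodPair) (r : Tu n) : Set ℂ := lin r ∪ (ex r ∪ (wp Λ r ∪ ze Λ r))

/-- the regular points of degree `m` -/
structure Reg (Λ : Fin q → PeriodPair) (F : IntermediateField ℚ ℂ) (m : ℕ) (r : Tu n) :
    Prop where
  out : ∀ (c : Fin q) (i : Fin (n c.succ)), r c.succ i ∉ (Λ c).lattice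
  deg : trF F (ex r ∪ wp Λ r) = m
  alg : ∀ x ∈ lin r ∪ ze Λ r, IsAlgebraic (IntermediateField.adjoin F (ex r ∪ wp Λ r)) x
  tor : ∀ a : Fin (n 0) → ℚ, a ≠ 0 → ∀ i, IsAlgebraic (IntermediateField.adjoin F
    ((lin r ∪ (wp Λ r ∪ ze Λ r)) ∪
      {x | ∃ b : Fin (n 0) → ℚ, ∑ j, a j * b j = 0 ∧ x = Complex.exp (∑ j, (b j : ℂ) * r 0 j)}))
    (Complex.exp (r 0 i))

variable {F : IntermediateField ℚ ℂ} {Λ : Fin q → PeriodPair} {κ : Fin q → ℂ}

theorem kills_alg {S : Set ℂ} {D : Derivation ℚ ℂ ℂ} (hD : D ∈ DF F) (h : ∀ s ∈ S, D s = 0)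
    {x : ℂ} (hx : IsAlgebraic (IntermediateField.adjoin F S) x) : D x = 0 :=
  kills_clF F hD h (mem_cl.2 (IntermediateField.isAlgebraic_adjoin_iff.1 hx))

theorem tr_le {S S' : Set ℂ} (h : S ⊆ S') {m : ℕ} (h1 : trF F S' ≤ m) : trF F S ≤ m := by
  rw [trF_le_iff] at h1 ⊢
  exact ((MK F).eRk_mono h).trans h1

theorem tr_lt {S S' : Set ℂ} (h : S ⊆ S') {m : ℕ} (h1 : trF F S' < m) : trF F S < m := by
  have e1 := Pool.Agent.TH813.Rel.lt_iff (k := F) S' m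
  have e2 := Pool.Agent.TH813.Rel.lt_iff (k := F) S m
  exact e2.2 (lt_of_le_of_lt ((MK F).eRk_mono h) (e1.1 h1))

theorem le_tr {S S' : Set ℂ} (h : S ⊆ S') {m : ℕ} (h1 : trF F S = m) :
    (m : Cardinal) ≤ trF F S' := by
  have e1 := Pool.Agent.TH813.Rel.le_iff (k := F) S m
  have e2 := Pool.Agent.TH813.Rel.le_iff (k := F) S' m
  exact e2.2 ((e1.1 h1.ge).trans ((MK F).eRk_mono h))

variable (hE : ∀ c, Eig (Λ c) (κ c)) (h2 : ∀ c, (Λ c).g₂ ∈ F) (h3 : ∀ c, (Λ c).g₃ ∈ F)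

theorem val_eq (r : Tu n) : valT (TA F hE h2 h3) r = ex r ∪ wp Λ r := by
  ext x
  constructor
  · rintro ⟨c, i, hx⟩
    revert i
    refine Fin.cases ?_ (fun c => ?_) c
    · intro i hx
      exact Or.inl ⟨i, hx⟩
    · rintro i ⟨u, ⟨hu, hl⟩, rfl⟩
      rw [Set.mem_singleton_iff] at hu
      subst hu
      exact Or.inr ⟨c, i, hl, rfl⟩
  · rintro (⟨i, rfl⟩ | ⟨c, i, hl, rfl⟩)
    · exact ⟨0, i, rfl⟩
    · exact ⟨c.succ, i, ⟨_, ⟨rfl, hl⟩, rfl⟩⟩

theorem pts_sub (r : Tu n) : pts Λ r ⊆ numT (TA F hE h2 h3) r := by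
  rintro x (⟨c, i, rfl⟩ | ⟨i, rfl⟩ | ⟨c, i, hl, rfl⟩ | ⟨c, i, hl, rfl⟩)
  · revert i
    refine Fin.cases ?_ (fun c => ?_) c
    · exact fun i => ⟨0, i, Or.inl rfl⟩
    · exact fun i => ⟨c.succ, i, Or.inl rfl⟩
  · exact ⟨0, i, Or.inr rfl⟩
  · exact ⟨c.succ, i, Or.inr (Or.inr ⟨_, ⟨rfl, hl⟩, rfl⟩)⟩
  · exact ⟨c.succ, i, Or.inr (Or.inl (zt_of_notMem hl).symm)⟩

theorem sub_pts {r : Tu n} (hr : ∀ (c : Fin q) (i : Fin (n c.succ)),
    r c.succ i ∉ (Λ c).lattice) : numT (TA F hE h2 h3) r ⊆ pts Λ r := by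
  rintro x ⟨c, i, hx⟩
  revert i
  refine Fin.cases ?_ (fun c => ?_) c
  · rintro i (hx | hx)
    · exact Or.inl ⟨0, i, hx⟩
    · exact Or.inr (Or.inl ⟨i, hx⟩)
  · rintro i (hx | hx | ⟨u, ⟨hu, hl⟩, rfl⟩)
    · exact Or.inl ⟨c.succ, i, hx⟩
    · exact Or.inr (Or.inr (Or.inr ⟨c, i, hr c i,
        (Set.mem_singleton_iff.1 hx).trans (zt_of_notMem (hr c i))⟩))
    · rw [Set.mem_singleton_iff] at hu
      subst hu
      exact Or.inr (Or.inr (Or.inl ⟨c, i, hl, rfl⟩))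

/-- regular points are good -/
theorem good_of {m : ℕ} {r : Tu n} (hr : Reg Λ F m r) : Good (TA F hE h2 h3) m r := by
  have hA : ∀ D ∈ DF F, (∀ c i, (TA F hE h2 h3 c).lam 0 D (r c i) = 0) →
      vec (TA F hE h2 h3) D r = 0 := by
    intro D hD h
    have h4 : ∀ x ∈ ex r ∪ wp Λ r, D x = 0 := by
      rw [← val_eq hE h2 h3]
      exact (valT_iff hD).2 h
    have h5 : ∀ x ∈ lin r ∪ ze Λ r, D x = 0 := fun x hx => kills_alg hD h4 (hr.alg x hx)
    refine (numT_iff hD).1 (fun x hx => ?_)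
    rcases sub_pts hE h2 h3 hr.out hx with h6 | h6 | h6 | h6
    · exact h5 x (Or.inl h6)
    · exact h4 x (Or.inl h6)
    · exact h4 x (Or.inr h6)
    · exact h5 x (Or.inr h6)
  refine ⟨hA, ?_, ?_⟩
  · intro c
    refine Fin.cases ?_ (fun c => ?_) c
    · -- the torus
      intro Dj hDj a hS
      change Fin (n 0) → ℚ at a
      by_contra hne
      have hD : Dj 0 ∈ DF F := hDj 0
      obtain ⟨h4, h5⟩ := hS 0
      have h5' : ∀ κ' : Ix (eE q) n, κ'.1 ≠ 0 → vec (TA F hE h2 h3) (Dj 0) r κ' = 0 :=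
        fun κ' hκ => h5 κ' (fun h => hκ (Sigma.mk.inj_iff.1 h).1)
      have hN : ∀ (c : Fin q) (i : Fin (n c.succ)),
          ∀ x ∈ (TA F hE h2 h3 c.succ).N (r c.succ i), Dj 0 x = 0 := fun c i =>
        ((TA F hE h2 h3 c.succ).N_iff' hD _).2
          (fun o => h5' ⟨c.succ, i, o⟩ (Fin.succ_ne_zero c))
      have hlin : ∀ x ∈ lin r, Dj 0 x = 0 := by
        rintro x ⟨c, i, rfl⟩
        exact h5 ⟨c, i, none⟩ (fun h => by
          obtain ⟨e1, e2⟩ := Sigma.mk.inj_iff.1 h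
          dsimp only at e1
          subst e1
          exact absurd (eq_of_heq e2) (by simp))
      have hlog : ∀ i, dlog (Dj 0) (r 0 i) = ((a i : ℚ) : ℂ) := h4
      apply hne
      funext i
      have h6 : Dj 0 (Complex.exp (r 0 i)) = 0 := by
        refine kills_alg hD ?_ (hr.tor a hne i)
        rintro x ((hx | ⟨c, i, hl, rfl⟩ | ⟨c, i, hl, rfl⟩) | ⟨b, hb, rfl⟩)
        · exact hlin x hx
        · exact hN c i _ (Or.inr (Or.inr ⟨_, ⟨rfl, hl⟩, rfl⟩))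
        · exact hN c i _ (Or.inr (Or.inl (zt_of_notMem hl).symm))
        · apply dlog_eq_zero.1
          have h7 : dlog (Dj 0) (∑ j, (b j : ℂ) * r 0 j) = ∑ j, (b j : ℂ) * (a j : ℚ) := by
            rw [← dl_apply, map_sum]
            refine sum_congr rfl (fun j _ => ?_)
            rw [dl_apply, dlog_rat, hlog]
          rw [h7]
          have h8 : ∑ j, (b j : ℂ) * (a j : ℚ) = ((∑ j, a j * b j : ℚ) : ℂ) := by
            push_cast
            exact sum_congr rfl (fun j _ => mul_comm _ _)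
          rw [h8, hb, Rat.cast_zero]
      have h9 := dlog_eq_zero.2 h6
      rw [hlog] at h9
      exact_mod_cast h9
    · -- the elliptic curves
      intro Dj hDj a hS
      have h01 : (1 : Fin 2) ≠ 0 := by decide
      have hD : Dj (1 : Fin 2) ∈ DF F := hDj (1 : Fin 2)
      obtain ⟨h4, h5⟩ := hS (1 : Fin 2)
      have h6 : vec (TA F hE h2 h3) (Dj (1 : Fin 2)) r = 0 := by
        refine hA _ hD (fun c' i => ?_)
        exact h5 ⟨c', i, some 0⟩ (fun h => by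
          obtain ⟨e1, e2⟩ := Sigma.mk.inj_iff.1 h
          dsimp only at e1
          subst e1
          have e3 : (0 : Fin 2) = 1 := Option.some.inj (eq_of_heq e2)
          exact h01 e3.symm)
      funext i
      have h7 := h4 i
      have h8 : (TA F hE h2 h3 c.succ).lam (1 : Fin 2) (Dj (1 : Fin 2)) (r c.succ i) = 0 :=
        (vec_eq_zero _).1 h6 c.succ i (some (1 : Fin 2))
      rw [h8] at h7
      have h9 := (map_eq_zero _).1 h7.symm
      exact (map_eq_zero _).1 h9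
  · have h4 := tr_val hA
    rw [val_eq hE h2 h3, hr.deg] at h4
    exact_mod_cast h4.symm

/-- **The main theorem.** -/
theorem main (Λ : Fin q → PeriodPair) (hni : NI Λ) (F : IntermediateField ℚ ℂ)
    (h2 : ∀ c, (Λ c).g₂ ∈ F) (h3 : ∀ c, (Λ c).g₃ ∈ F) (V : Submodule ℚ (Tu n))
    [FiniteDimensional ℚ V] (m : ℕ) :
    ∃ S : Finset (Submodule ℚ (Tu n)),
      S.card ≤ ((m + 1) * finrank ℚ V).choose (finrank ℚ V) ∧
      (∀ W ∈ S, W ≤ V ∧ trF F {x | ∃ r ∈ W, x ∈ pts Λ r} = m ∧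
        ∃ r ∈ W, trF F (ex r ∪ wp Λ r) = m) ∧
      (∀ W ∈ S, ∀ W' ∈ S, W ≠ W' → ∀ r ∈ W, r ∈ W' → trF F (pts Λ r) < m) ∧
      ∀ r ∈ V, Reg Λ F m r → ∃ W ∈ S, r ∈ W := by
  obtain ⟨κ, hE⟩ := exists_eigs Λ
  obtain ⟨S, h4, h5, h6, h7⟩ := GAny.main (T := TA F hE h2 h3) (ros_TA hE h2 h3 hni) m V
  refine ⟨S, h4, fun W hW => ?_, fun W hW W' hW' hne r hr hr' => ?_, fun r hr hreg =>
    h7 r hr (good_of hE h2 h3 hreg)⟩
  · obtain ⟨h8, h9, z, hz, h10⟩ := h5 W hW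
    rw [val_eq hE h2 h3] at h10
    refine ⟨h8, le_antisymm (tr_le ?_ h9.le) (le_tr ?_ h10), z, hz, h10⟩
    · rintro x ⟨r, hr, hx⟩
      exact ⟨r, hr, pts_sub hE h2 h3 r hx⟩
    · rintro x (hx | hx)
      · exact ⟨z, hz, Or.inr (Or.inl hx)⟩
      · exact ⟨z, hz, Or.inr (Or.inr (Or.inl hx))⟩
  · exact tr_lt (pts_sub hE h2 h3 r) (h6 W hW W' hW' hne r hr hr')

end Pool.Agent.TH813.GAnyC
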