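import Mathlib
import Pool.Agent.TH813.GConc

/-!
# The multiplicative group and several elliptic curves: tuples of points and periods
-/

set_option autoImplicit false

open Finset Module
open scoped PeriodPair ComplexConjugate

noncomputable section

namespace Pool.Agent.TH813.G

open H667R3 Pool.Agent.W245.EB
open Pool.Agent.W252 Pool.Agent.W669.Gel
open Pool.Agent.TH813.Core Pool.Agent.TH813.Ell
open Pool.Agent.TH813.Rel (DF MK trF)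
open Pool.Agent.TH813.Uni (trF_le_iff tr tr_add tr_eq tr_mono)

variable {F : IntermediateField ℚ ℂ} {q : ℕ}

/-- the predimension decreases when the first spaces grow inside the second ones -/
theorem dG_anti {e : Fin q → ℕ} {I : Set ℂ} (hI : I.Finite)
    {T : Fam (IntermediateField.adjoin ℚ I) e} {X X' W : Sp T} (hW : Fd T W) (h : X ≤ X')
    (h' : X' ≤ W) : dG T I X' W ≤ dG T I X W := by
  obtain ⟨a, ha⟩ := Cardinal.lt_aleph0.1 (tr_lt_of_finite hI)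
  have h0 : tr (I ∪ ∅) = a := by rw [Set.union_empty]; exact ha
  obtain ⟨t, ht⟩ := rk_lt (hW.mono (h.trans h')) hW
  obtain ⟨t', ht'⟩ := rk_lt (hW.mono h') hW
  have h1 := extG (T := T) (A := ⊥) (X := X) (X' := X') (W := W) hW
    (fun D hD c x hx o => by
      have hx0 : x = 0 := (Submodule.mem_bot _).1 hx
      rw [hx0]
      exact (T c).frm_zero o hD) bot_le h (inf_bot_eq X) h'
  have hb : wtd T (⊥ : Sp T) = 0 := by
    unfold wtd
    refine sum_eq_zero (fun c _ => ?_)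
    change (e c + 1) * finrank (T c).k (⊥ : Submodule (T c).k ℂ) = 0
    rw [finrank_bot, mul_zero]
  rw [ht, ht', hb] at h1
  have h4 : t' + (wtd T X + 0) ≤ t + wtd T X' := by exact_mod_cast h1
  have e1 := tr_of_rk (Set.empty_subset (NX T X W)) h0 (by rw [Set.union_empty]; exact ht)
  have e2 := tr_of_rk (Set.empty_subset (NX T X' W)) h0 (by rw [Set.union_empty]; exact ht')
  unfold dG
  rw [e1, e2, Cardinal.toNat_natCast, Cardinal.toNat_natCast]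
  push_cast
  omega

variable {Λ : Fin q → PeriodPair} {κ : Fin q → ℂ}

theorem dC_anti {X X' W : SpL Λ} (hW : FdL W) (h : X ≤ X') (h' : X' ≤ W) :
    dC Λ X' W ≤ dC Λ X W := by
  obtain ⟨κ, hE⟩ := exists_eigs Λ
  rw [dC_eq hE h' hW, dC_eq hE (h.trans h') hW]
  exact dG_anti (IL_fin Λ) (to_fd hE _ _ hW) ((to_le hE _ _).2 h) ((to_le hE _ _).2 h')

/-- the spaces killed by a derivation -/
def ZL (hE : ∀ c, Eig (Λ c) (κ c)) (D : Derivation ℚ ℂ ℂ) (h2 : ∀ c, D (Λ c).g₂ = 0)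
    (h3 : ∀ c, D (Λ c).g₃ = 0) : SpL Λ :=
  (LinearMap.ker (D : ℂ →ₗ[ℚ] ℂ) ⊓ LinearMap.ker (dl D),
    fun c => ZK (hE c) D (h2 c) (h3 c))

theorem kill_iff_le (hE : ∀ c, Eig (Λ c) (κ c)) {D : Derivation ℚ ℂ ℂ}
    (h2 : ∀ c, D (Λ c).g₂ = 0) (h3 : ∀ c, D (Λ c).g₃ = 0) {X : SpL Λ} :
    (∀ x ∈ NL Λ X X, D x = 0) ↔ X ≤ ZL hE D h2 h3 := by
  rw [NL_iff h2 h3 le_rfl]
  constructor
  · rintro ⟨⟨h4, -⟩, h5⟩
    exact ⟨fun x hx => ⟨(h4 x hx).1, (h4 x hx).2⟩, fun c x hx => (h5 c).1 x hx⟩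
  · intro h
    exact ⟨⟨fun x hx => ⟨(h.1 hx).1, (h.1 hx).2⟩, fun x hx => (h.1 hx).2⟩,
      fun c => ⟨fun x hx => h.2 c hx, fun x hx => (h.2 c hx).2.1⟩⟩

/-- the numbers attached to tuples -/
def PP (Λ : Fin q → PeriodPair) {s : ℕ} {n : Fin q → ℕ} (t : Fin s → ℂ)
    (p : ∀ c, Fin (n c) → ℂ) : Set ℂ :=
  (Set.range t ∪ Complex.exp '' Set.range t) ∪
    ⋃ c, (Set.range (p c) ∪ (℘[Λ c] '' Set.range (p c) ∪ zeta (Λ c) '' Set.range (p c)))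

/-- the span of tuples -/
def spL (Λ : Fin q → PeriodPair) {s : ℕ} {n : Fin q → ℕ} (t : Fin s → ℂ)
    (p : ∀ c, Fin (n c) → ℂ) : SpL Λ :=
  (Submodule.span ℚ (Set.range t), fun c => Submodule.span (kL (Λ c)) (Set.range (p c)))

theorem spL_le {s : ℕ} {n : Fin q → ℕ} {t : Fin s → ℂ} {p : ∀ c, Fin (n c) → ℂ} {X : SpL Λ} :
    spL Λ t p ≤ X ↔ (∀ i, t i ∈ X.1) ∧ ∀ c i, p c i ∈ X.2 c := by
  constructor
  · intro h
    exact ⟨fun i => h.1 (Submodule.subset_span ⟨i, rfl⟩),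
      fun c i => h.2 c (Submodule.subset_span ⟨i, rfl⟩)⟩
  · rintro ⟨h1, h2⟩
    refine ⟨?_, fun c => ?_⟩
    · change Submodule.span ℚ (Set.range t) ≤ _
      rw [Submodule.span_le]
      rintro _ ⟨i, rfl⟩
      exact h1 i
    · change Submodule.span (kL (Λ c)) (Set.range (p c)) ≤ _
      rw [Submodule.span_le]
      rintro _ ⟨i, rfl⟩
      exact h2 c i

theorem PP_kill (hE : ∀ c, Eig (Λ c) (κ c)) {D : Derivation ℚ ℂ ℂ}
    (h2 : ∀ c, D (Λ c).g₂ = 0) (h3 : ∀ c, D (Λ c).g₃ = 0) {s : ℕ} {n : Fin q → ℕ}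
    {t : Fin s → ℂ} {p : ∀ c, Fin (n c) → ℂ} (hp : ∀ c i, p c i ∉ (Λ c).lattice) :
    (∀ x ∈ PP Λ t p, D x = 0) ↔ spL Λ t p ≤ ZL hE D h2 h3 := by
  rw [spL_le]
  constructor
  · intro hD
    refine ⟨fun i => ⟨hD _ (Or.inl (Or.inl ⟨i, rfl⟩)), dlog_eq_zero.2
      (hD _ (Or.inl (Or.inr ⟨_, ⟨i, rfl⟩, rfl⟩)))⟩, fun c i => ?_⟩
    have hom : om (Λ c) D (p c i) = 0 := om_of_killed (fun _ =>
      hD _ (Or.inr (Set.mem_iUnion.2 ⟨c, Or.inr (Or.inl ⟨_, ⟨i, rfl⟩, rfl⟩)⟩)))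
    refine ⟨hD _ (Or.inr (Set.mem_iUnion.2 ⟨c, Or.inl ⟨i, rfl⟩⟩)), hom, ?_⟩
    unfold et
    rw [hom, mul_zero, add_zero, zt_of_notMem (hp c i)]
    exact hD _ (Or.inr (Set.mem_iUnion.2 ⟨c, Or.inr (Or.inr ⟨_, ⟨i, rfl⟩, rfl⟩)⟩))
  · rintro ⟨h4, h5⟩ x ((⟨i, rfl⟩ | ⟨_, ⟨i, rfl⟩, rfl⟩) | hx)
    · exact (h4 i).1
    · exact dlog_eq_zero.1 (h4 i).2
    · obtain ⟨c, hx⟩ := Set.mem_iUnion.1 hx
      rcases hx with ⟨i, rfl⟩ | ⟨_, ⟨i, rfl⟩, rfl⟩ | ⟨_, ⟨i, rfl⟩, rfl⟩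
      · exact (h5 c i).1
      · exact (wp_killed (h2 c) (h3 c) (h5 c i).2.1 (hp c i)).1
      · rw [← zt_of_notMem (hp c i)]
        exact zt_killed (h5 c i).2.1 (h5 c i).2.2

/-- the periods -/
def Per (Λ : Fin q → PeriodPair) : Set ℂ :=
  {per} ∪ ⋃ c, {(Λ c).g₂, (Λ c).g₃, (Λ c).ω₁, (Λ c).ω₂, 2 * zeta (Λ c) ((Λ c).ω₁ / 2),
    2 * zeta (Λ c) ((Λ c).ω₂ / 2)}

/-- the rational multiples of the periods -/
def bs (Λ : Fin q → PeriodPair) : SpL Λ := (P₁, fun c => P₂ (Λ c))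

theorem Per_kill (hE : ∀ c, Eig (Λ c) (κ c)) {D : Derivation ℚ ℂ ℂ}
    (h2 : ∀ c, D (Λ c).g₂ = 0) (h3 : ∀ c, D (Λ c).g₃ = 0) :
    (∀ x ∈ Per Λ, D x = 0) ↔ bs Λ ≤ ZL hE D h2 h3 := by
  have hP₁ : D per = 0 → P₁ ≤ (ZL hE D h2 h3).1 := by
    intro h
    unfold P₁
    rw [Submodule.span_le]
    rintro _ rfl
    refine ⟨h, dlog_eq_zero.2 ?_⟩
    have : Complex.exp per = 1 := Complex.exp_two_pi_mul_I
    rw [this, D.map_one_eq_zero]
  constructor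
  · intro hD
    have hc : ∀ c, ∀ x ∈ ({(Λ c).g₂, (Λ c).g₃, (Λ c).ω₁, (Λ c).ω₂,
        2 * zeta (Λ c) ((Λ c).ω₁ / 2), 2 * zeta (Λ c) ((Λ c).ω₂ / 2)} : Set ℂ), D x = 0 :=
      fun c x hx => hD x (Or.inr (Set.mem_iUnion.2 ⟨c, hx⟩))
    refine ⟨hP₁ (hD _ (Or.inl rfl)), fun c => ?_⟩
    exact (per_killed (h2 c) (h3 c) (hc c _ (Or.inr (Or.inr (Or.inl rfl))))
      (hc c _ (Or.inr (Or.inr (Or.inr (Or.inl rfl)))))
      (hc c _ (Or.inr (Or.inr (Or.inr (Or.inr (Or.inl rfl))))))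
      (hc c _ (Or.inr (Or.inr (Or.inr (Or.inr (Or.inr rfl))))))).2
  · intro h x hx
    rcases hx with rfl | hx
    · exact (h.1 (Submodule.mem_span_singleton_self per)).1
    · obtain ⟨c, hx⟩ := Set.mem_iUnion.1 hx
      have h4 : ∀ w ∈ (Λ c).lattice, w / 2 ∉ (Λ c).lattice → D w = 0 ∧
          D (2 * zeta (Λ c) (w / 2)) = 0 := by
        intro w hw hw'
        have h5 := h.2 c (lattice_le_P₂ hw)
        have h6 : w / 2 ∈ P₂ (Λ c) := ⟨2, two_pos, by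
          have : ((2 : ℕ) : ℂ) * (w / 2) = w := by push_cast; ring
          rwa [this]⟩
        obtain ⟨-, h7, h8⟩ := h.2 c h6
        have h9 := zt_killed h7 h8
        rw [zt_of_notMem hw'] at h9
        refine ⟨h5.1, ?_⟩
        rw [Derivation.leibniz, h9, smul_zero, zero_add]
        have : D (2 : ℂ) = 0 := D.map_natCast 2
        rw [this, smul_zero]
      rcases hx with rfl | rfl | rfl | rfl | rfl | rfl
      · exact h2 c
      · exact h3 c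
      · exact (h4 _ (Λ c).ω₁_mem_lattice (half₁ _)).1
      · exact (h4 _ (Λ c).ω₂_mem_lattice (half₂ _)).1
      · exact (h4 _ (Λ c).ω₁_mem_lattice (half₁ _)).2
      · exact (h4 _ (Λ c).ω₂_mem_lattice (half₂ _)).2

theorem IL_sub_Per (Λ : Fin q → PeriodPair) : IL Λ ⊆ Per Λ := by
  intro x hx
  obtain ⟨c, hx⟩ := Set.mem_iUnion.1 hx
  refine Or.inr (Set.mem_iUnion.2 ⟨c, ?_⟩)
  rcases hx with rfl | rfl
  · exact Or.inl rfl
  · exact Or.inr (Or.inl rfl)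

/-- the numbers of tuples together with the periods, and the numbers of spaces -/
theorem gen_kill {s : ℕ} {n : Fin q → ℕ} {t : Fin s → ℂ} {p : ∀ c, Fin (n c) → ℂ}
    (hp : ∀ c i, p c i ∉ (Λ c).lattice) (D : Derivation ℚ ℂ ℂ) :
    (∀ x ∈ Per Λ ∪ PP Λ t p, D x = 0) ↔
      ∀ x ∈ IL Λ ∪ NL Λ (bs Λ ⊔ spL Λ t p) (bs Λ ⊔ spL Λ t p), D x = 0 := by
  obtain ⟨κ, hE⟩ := exists_eigs Λ
  constructor
  · intro hD
    have hI : ∀ x ∈ IL Λ, D x = 0 := fun x hx => hD x (Or.inl (IL_sub_Per Λ hx))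
    have h2 : ∀ c, D (Λ c).g₂ = 0 := fun c => hI _ (g2_IL Λ c)
    have h3 : ∀ c, D (Λ c).g₃ = 0 := fun c => hI _ (g3_IL Λ c)
    have h4 := (Per_kill hE h2 h3).1 (fun x hx => hD x (Or.inl hx))
    have h5 := (PP_kill hE h2 h3 hp).1 (fun x hx => hD x (Or.inr hx))
    rintro x (hx | hx)
    · exact hI x hx
    · exact (kill_iff_le hE h2 h3).2 (sup_le h4 h5) x hx
  · intro hD
    have hI : ∀ x ∈ IL Λ, D x = 0 := fun x hx => hD x (Or.inl hx)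
    have h2 : ∀ c, D (Λ c).g₂ = 0 := fun c => hI _ (g2_IL Λ c)
    have h3 : ∀ c, D (Λ c).g₃ = 0 := fun c => hI _ (g3_IL Λ c)
    have h4 := (kill_iff_le hE h2 h3).1 (fun x hx => hD x (Or.inr hx))
    rintro x (hx | hx)
    · exact (Per_kill hE h2 h3).2 (le_sup_left.trans h4) x hx
    · exact (PP_kill hE h2 h3 hp).2 (le_sup_right.trans h4) x hx

/-- the dimension of the span of the classes of a tuple -/
def dmod {K : Type} [Field K] [Module K ℂ] (A : Submodule K ℂ) {n : ℕ} (z : Fin n → ℂ) : ℕ :=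
  finrank K (Submodule.span K (Set.range (fun i => A.mkQ (z i))))

/-- the span modulo a subspace -/
theorem finrank_mod {K : Type} [Field K] [Module K ℂ] (A : Submodule K ℂ)
    [FiniteDimensional K A] {n : ℕ} (z : Fin n → ℂ) :
    dmod A z + finrank K A = finrank K (A ⊔ Submodule.span K (Set.range z) : Submodule K ℂ) := by
  have h0 : FiniteDimensional K (Submodule.span K (Set.range z)) :=
    FiniteDimensional.span_of_finite K (Set.finite_range z)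
  unfold dmod
  set X := A ⊔ Submodule.span K (Set.range z) with hX
  have h1 := (A.mkQ ∘ₗ X.subtype).finrank_range_add_finrank_ker
  have h2 : LinearMap.range (A.mkQ ∘ₗ X.subtype) =
      Submodule.span K (Set.range (fun i => A.mkQ (z i))) := by
    rw [LinearMap.range_comp, Submodule.range_subtype, hX, Submodule.map_sup,
      Submodule.mkQ_map_self, bot_sup_eq, Submodule.map_span, ← Set.range_comp]
    rfl
  have h3 : LinearMap.ker (A.mkQ ∘ₗ X.subtype) = A.comap X.subtype := by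
    rw [LinearMap.ker_comp, Submodule.ker_mkQ]
  have h4 : finrank K (A.comap X.subtype) = finrank K A :=
    (Submodule.comapSubtypeEquivOfLe le_sup_left).finrank_eq
  rw [h2, h3, h4] at h1
  exact h1

theorem fd_bs (Λ : Fin q → PeriodPair) : FdL (bs Λ) := ⟨fd_P₁, fun c => fd_P₂ (Λ c)⟩

/-- the dimension of the Galois group -/
def gal (Λ : Fin q → PeriodPair) {s : ℕ} {n : Fin q → ℕ} (t : Fin s → ℂ)
    (p : ∀ c, Fin (n c) → ℂ) : ℕ :=
  1 + ∑ c, (4 / finrank ℚ (kL (Λ c)) - 1) + dmod P₁ t + 2 * ∑ c, dmod (P₂ (Λ c)) (p c)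

theorem gal_eq {s : ℕ} {n : Fin q → ℕ} (t : Fin s → ℂ) (p : ∀ c, Fin (n c) → ℂ) :
    gal Λ t p + q = wtL (bs Λ ⊔ spL Λ t p) := by
  have e1 := finrank_mod P₁ t
  have e2 := fun c => finrank_mod (P₂ (Λ c)) (p c)
  have h1 : wtL (bs Λ ⊔ spL Λ t p) = (dmod P₁ t + 1) +
      2 * ∑ c, (dmod (P₂ (Λ c)) (p c) + finrank (kL (Λ c)) (P₂ (Λ c))) := by
    unfold wtL
    rw [← finrank_P₁, e1]
    congr 2
    exact sum_congr rfl (fun c _ => (e2 c).symm)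
  have h3 : ∑ c, (4 / finrank ℚ (kL (Λ c)) - 1) + q = ∑ c, 2 * finrank (kL (Λ c)) (P₂ (Λ c)) := by
    have h4 : ∑ _c : Fin q, 1 = q := by simp
    refine Eq.trans (congrArg (∑ c, (4 / finrank ℚ (kL (Λ c)) - 1) + ·) h4.symm) ?_
    refine Eq.trans sum_add_distrib.symm (sum_congr rfl (fun c _ => ?_))
    have h5 := four_div (Λ c)
    have h6 : finrank (kL (Λ c)) (P₂ (Λ c)) ≠ 0 := by
      intro h0
      have := finrank_P₂ (Λ c)
      rw [h0, mul_zero] at this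
      omega
    omega
  rw [h1, sum_add_distrib, mul_add]
  unfold gal
  rw [mul_sum univ (fun c => finrank (kL (Λ c)) (P₂ (Λ c))), ← h3]
  omega

/-- tuples which span a family of spaces over the base -/
theorem exists_tup {X : SpL Λ} (hX : FdL X) (hb : bs Λ ≤ X) :
    ∃ (s : ℕ) (n : Fin q → ℕ) (t : Fin s → ℂ) (p : ∀ c, Fin (n c) → ℂ),
      (∀ c i, p c i ∉ (Λ c).lattice) ∧ bs Λ ⊔ spL Λ t p = X := by
  have hf1 := hX.1
  have hf2 := hX.2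
  obtain ⟨Y₁, hYX₁, hYA₁, hYd₁⟩ := exists_rel_compl hb.1
  choose Y₂ hYX₂ hYA₂ hYd₂ using fun c => exists_rel_compl (hb.2 c)
  have g1 : FiniteDimensional ℚ Y₁ := Submodule.finiteDimensional_of_le hYX₁
  have g2 : ∀ c, FiniteDimensional (kL (Λ c)) (Y₂ c) := fun c =>
    Submodule.finiteDimensional_of_le (hYX₂ c)
  let b₁ := finBasis ℚ Y₁
  let b₂ := fun c => finBasis (kL (Λ c)) (Y₂ c)
  have hoff : ∀ c i, (b₂ c i : ℂ) ∉ (Λ c).lattice := by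
    intro c i hi
    have h1 : (b₂ c i : ℂ) ∈ Y₂ c ⊓ P₂ (Λ c) := ⟨(b₂ c i).2, lattice_le_P₂ hi⟩
    have h2 : Y₂ c ⊓ P₂ (Λ c) = ⊥ := hYA₂ c
    rw [h2, Submodule.mem_bot] at h1
    exact (b₂ c).ne_zero i (Subtype.ext h1)
  refine ⟨_, _, fun i => (b₁ i : ℂ), fun c i => (b₂ c i : ℂ), hoff, ?_⟩
  have hfin : ∀ {K : Type} [Field K] [Module K ℂ] (A Y X : Submodule K ℂ)
      [FiniteDimensional K X], A ≤ X → Y ≤ X → Y ⊓ A = ⊥ →
      finrank K Y + finrank K A = finrank K X → A ⊔ Y = X := by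
    intro K _ _ A Y X _ h1 h2 h3 h4
    have : FiniteDimensional K A := Submodule.finiteDimensional_of_le h1
    have : FiniteDimensional K Y := Submodule.finiteDimensional_of_le h2
    refine Submodule.eq_of_le_of_finrank_le (sup_le h1 h2) ?_
    have h5 := Submodule.finrank_sup_add_finrank_inf_eq Y A
    rw [h3, finrank_bot, add_zero, h4, sup_comm] at h5
    exact h5.ge
  have hsp : ∀ {K : Type} [Field K] [Module K ℂ] (Y : Submodule K ℂ) {n : ℕ}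
      (b : Basis (Fin n) K Y), Submodule.span K (Set.range (fun i => (b i : ℂ))) = Y := by
    intro K _ _ Y n b
    have h1 : Set.range (fun i => (b i : ℂ)) = Y.subtype '' Set.range b := by
      rw [← Set.range_comp]
      rfl
    rw [h1, Submodule.span_image, Basis.span_eq, Submodule.map_top, Submodule.range_subtype]
  refine Prod.ext ?_ (funext (fun c => ?_))
  · change P₁ ⊔ Submodule.span ℚ (Set.range (fun i => (b₁ i : ℂ))) = X.1
    rw [hsp]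
    exact hfin _ _ _ hb.1 hYX₁ hYA₁ hYd₁
  · change P₂ (Λ c) ⊔ Submodule.span (kL (Λ c)) (Set.range (fun i => (b₂ c i : ℂ))) = X.2 c
    rw [hsp]
    have := hf2 c
    exact hfin _ _ _ (hb.2 c) (hYX₂ c) (hYA₂ c) (hYd₂ c)

/-- failures for tuples and the predimension -/
theorem fails_iffL {U : SpL Λ} (hU : FdL U) (hb : bs Λ ≤ U) (m : ℕ) :
    (∃ (s : ℕ) (n : Fin q → ℕ) (t : Fin s → ℂ) (p : ∀ c, Fin (n c) → ℂ),
      (∀ c i, p c i ∉ (Λ c).lattice) ∧ tr (Per Λ ∪ PP Λ t p) + m ≤ ((gal Λ t p : ℕ) : Cardinal) ∧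
        (∀ i, t i ∈ U.1) ∧ ∀ c i, p c i ∈ U.2 c) ↔
    ∃ X, bs Λ ≤ X ∧ X ≤ U ∧ dC Λ X X ≤ -q - m := by
  constructor
  · rintro ⟨s, n, t, p, hp, hle, ht, hpU⟩
    have hsU : bs Λ ⊔ spL Λ t p ≤ U := sup_le hb (spL_le.2 ⟨ht, hpU⟩)
    refine ⟨bs Λ ⊔ spL Λ t p, le_sup_left, hsU, ?_⟩
    obtain ⟨τ, hτ⟩ := Cardinal.lt_aleph0.1
      (lt_of_le_of_lt (le_self_add.trans hle) Cardinal.natCast_lt_aleph0)
    have h1 := tr_congr_killed (gen_kill hp) hτ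
    have h2 := gal_eq (Λ := Λ) t p
    rw [hτ] at hle
    have h3 : τ + m ≤ gal Λ t p := by exact_mod_cast hle
    unfold dC
    rw [h1, Cardinal.toNat_natCast]
    omega
  · rintro ⟨X, hbX, hXU, h⟩
    obtain ⟨s, n, t, p, hp, rfl⟩ := exists_tup (hU.mono hXU) hbX
    have h0 := spL_le.1 (le_sup_right.trans hXU)
    obtain ⟨κ, hE⟩ := exists_eigs Λ
    obtain ⟨τ, hτ, -⟩ := tr_NL hE (le_refl (bs Λ ⊔ spL Λ t p)) (hU.mono hXU)
    have h1 := tr_congr_killed (fun D => (gen_kill hp D).symm) hτ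
    have h2 := gal_eq (Λ := Λ) t p
    refine ⟨s, n, t, p, hp, ?_, h0.1, h0.2⟩
    unfold dC at h
    rw [hτ, Cardinal.toNat_natCast] at h
    rw [h1]
    have h3 : τ + m ≤ gal Λ t p := by omega
    exact_mod_cast h3

/-- the inequality for spaces -/
theorem dC_le_iff {X W : SpL Λ} (h : X ≤ W) (hW : FdL W) (m : ℕ) :
    dC Λ X W ≤ -q - m ↔ tr (IL Λ ∪ NL Λ X W) + q + m ≤ ((wtL X : ℕ) : Cardinal) := by
  obtain ⟨κ, hE⟩ := exists_eigs Λ
  obtain ⟨t, ht, -⟩ := tr_NL hE h hW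
  unfold dC
  rw [ht, Cardinal.toNat_natCast]
  have h4 : ((t : Cardinal) + q + m ≤ ((wtL X : ℕ) : Cardinal)) ↔ t + q + m ≤ wtL X := by
    norm_cast
  rw [h4]
  omega

/-- **Failures of the period conjecture** for the multiplicative group and several elliptic
curves. -/
theorem perG (q r : ℕ) : ∃ N : ℕ, ∀ (Λ : Fin q → PeriodPair), NI Λ → ∀ V : SpL Λ, FdL V →
    finrank ℚ V.1 ≤ r → (∀ c, finrank (kL (Λ c)) (V.2 c) ≤ r) → bs Λ ≤ V →
    ∃ 𝒯 : Finset (SpL Λ), 𝒯.card ≤ N ∧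
      (∀ W ∈ 𝒯, bs Λ ≤ W ∧ W ≤ V ∧ tr (IL Λ ∪ NL Λ W W) + q + 1 ≤ ((wtL W : ℕ) : Cardinal)) ∧
      ∀ U, bs Λ ≤ U → U ≤ V → ∀ m : ℕ, 0 < m →
        ((∃ (s : ℕ) (n : Fin q → ℕ) (t : Fin s → ℂ) (p : ∀ c, Fin (n c) → ℂ),
          (∀ c i, p c i ∉ (Λ c).lattice) ∧
          tr (Per Λ ∪ PP Λ t p) + m ≤ ((gal Λ t p : ℕ) : Cardinal) ∧
          (∀ i, t i ∈ U.1) ∧ ∀ c i, p c i ∈ U.2 c) ↔
        ∃ W ∈ 𝒯, tr (IL Λ ∪ NL Λ (U ⊓ W) W) + q + m ≤ ((wtL (U ⊓ W) : ℕ) : Cardinal)) := by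
  classical
  obtain ⟨N, hN⟩ := relC q r
  refine ⟨N + 1, fun Λ hni V hV hr1 hr2 hb => ?_⟩
  obtain ⟨𝒯, hT1, hT2, hT3⟩ := hN Λ hni (bs Λ) V hV hr1 hr2 hb
  set 𝒯' := insert (bs Λ) 𝒯 with hT'
  have hmem : ∀ W ∈ 𝒯', bs Λ ≤ W ∧ W ≤ V := by
    intro W hW
    rcases Finset.mem_insert.1 hW with rfl | hW
    · exact ⟨le_rfl, hb⟩
    · exact ⟨(hT2 W hW).1, (hT2 W hW).2.1⟩
  refine ⟨𝒯'.filter (fun W => dC Λ W W ≤ -q - (1 : ℕ)),
    (Finset.card_filter_le _ _).trans ((Finset.card_insert_le _ _).trans (by omega)), ?_, ?_⟩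
  · intro W hW
    obtain ⟨hW1, hW2⟩ := Finset.mem_filter.1 hW
    obtain ⟨h1, h2⟩ := hmem W hW1
    refine ⟨h1, h2, ?_⟩
    have := (dC_le_iff le_rfl (hV.mono h2) 1).1 hW2
    rwa [Nat.cast_one] at this
  · intro U hbU hUV m hm
    rw [fails_iffL (hV.mono hUV) hbU m]
    constructor
    · rintro ⟨X, hbX, hXU, h⟩
      obtain ⟨W, hW, h4⟩ : ∃ W ∈ 𝒯', dC Λ (U ⊓ W) W ≤ -q - m := by
        by_cases hd : -(q : ℤ) - (m : ℤ) < dC Λ (bs Λ) (bs Λ)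
        · obtain ⟨W, hW, h4⟩ := (hT3 U hbU hUV _ hd).1 ⟨X, hbX, hXU, h⟩
          exact ⟨W, Finset.mem_insert_of_mem hW, h4⟩
        · refine ⟨bs Λ, Finset.mem_insert_self _ _, ?_⟩
          rw [inf_eq_right.2 hbU]
          omega
      obtain ⟨h1, h2⟩ := hmem W hW
      have h6 := dC_anti (X := U ⊓ W) (X' := W) (W := W) (hV.mono h2) inf_le_right le_rfl
      refine ⟨W, Finset.mem_filter.2 ⟨hW, ?_⟩, (dC_le_iff inf_le_right (hV.mono h2) m).1 h4⟩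
      push_cast
      omega
    · rintro ⟨W, hW, h⟩
      obtain ⟨hW1, hW2⟩ := Finset.mem_filter.1 hW
      obtain ⟨h1, h2⟩ := hmem W hW1
      have h5 := (dC_le_iff (X := U ⊓ W) inf_le_right (hV.mono h2) m).2 h
      exact ⟨U ⊓ W, le_inf hbU h1, inf_le_left,
        (dC_mono le_rfl (hV.mono h2) inf_le_right).trans h5⟩

end Pool.Agent.TH813.G
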