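import Mathlib
import Pool.Agent.TH813.Count

/-!
# Isolated points over a field of systems of equations of bounded degree: a counting lemma
-/

set_option autoImplicit false

namespace Pool.Agent.TH813.CountF

open Module Finset

variable {K : Type} [Field K] {ι : Type} [Fintype ι]

/-- the affine coordinates -/
def X (x : ι → K) : Option ι → K
  | none => 1
  | some l => x l

/-- monomials -/
noncomputable def mon (A : Type) [Field A] [Algebra K A] {m : ℕ} (s : Sym (Option ι) m) :
    (ι → K) → A := fun x => algebraMap K A (s.1.map (X x)).prod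

/-- polynomial functions of degree at most `m` with values in `A` -/
noncomputable def PF (K : Type) [Field K] (A : Type) [Field A] [Algebra K A] (ι : Type) (m : ℕ) :
    Submodule A ((ι → K) → A) :=
  Submodule.span A (Set.range (mon (K := K) (ι := ι) A (m := m)))

section

variable {A : Type} [Field A] [Algebra K A]

omit [Fintype ι] in
theorem mon_mem {m : ℕ} (s : Sym (Option ι) m) : mon (K := K) A s ∈ PF K A ι m :=
  Submodule.subset_span ⟨s, rfl⟩

omit [Fintype ι] in
theorem PF_mul {a b : ℕ} {p q : (ι → K) → A} (hp : p ∈ PF K A ι a) (hq : q ∈ PF K A ι b) :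
    p * q ∈ PF K A ι (a + b) := by
  have h1 : p * q ∈ PF K A ι a * PF K A ι b := Submodule.mul_mem_mul hp hq
  unfold PF at h1
  rw [Submodule.span_mul_span] at h1
  refine Submodule.span_mono ?_ h1
  rintro _ ⟨_, ⟨s, rfl⟩, _, ⟨t, rfl⟩, rfl⟩
  refine ⟨s.append t, ?_⟩
  funext x
  change algebraMap K A (((s.append t : Sym (Option ι) (a + b)) :
    Multiset (Option ι)).map (X x)).prod =
    algebraMap K A (s.1.map (X x)).prod * algebraMap K A (t.1.map (X x)).prod
  rw [Sym.coe_append, Multiset.map_add, Multiset.prod_add, map_mul]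
  rfl

omit [Fintype ι] in
theorem PF_const (m : ℕ) (c : A) : (fun _ => c) ∈ PF K A ι m := by
  have h : (fun _ => c : (ι → K) → A) = c • mon A (Sym.replicate m none) := by
    funext x
    change c = c * algebraMap K A ((Multiset.replicate m none).map (X x)).prod
    rw [Multiset.map_replicate, Multiset.prod_replicate]
    change c = c * algebraMap K A ((1 : K) ^ m)
    rw [one_pow, map_one, mul_one]
  rw [h]
  exact Submodule.smul_mem _ _ (mon_mem _)

omit [Fintype ι] in
theorem PF_mono {a b : ℕ} (h : a ≤ b) {p : (ι → K) → A} (hp : p ∈ PF K A ι a) :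
    p ∈ PF K A ι b := by
  obtain ⟨c, rfl⟩ := Nat.exists_eq_add_of_le h
  have h1 := PF_mul hp (PF_const (K := K) (ι := ι) c (1 : A))
  have h2 : p * (fun _ => (1 : A)) = p := by
    funext x
    exact mul_one _
  rwa [h2] at h1

theorem PF_lin (f : (ι → K) →ₗ[K] A) : (fun x => f x) ∈ PF K A ι 1 := by
  classical
  have h : (fun x => f x) = ∑ l, f (Pi.single l 1) • mon A (Sym.cons (some l) Sym.nil) := by
    funext x
    have h1 : x = ∑ l, x l • (Pi.single l (1 : K) : ι → K) := by
      funext j
      rw [Finset.sum_apply]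
      simp [Pi.single_apply]
    conv_lhs => rw [h1]
    rw [map_sum, Finset.sum_apply]
    refine sum_congr rfl (fun l _ => ?_)
    rw [map_smul]
    change x l • f (Pi.single l 1) = f (Pi.single l 1) * algebraMap K A
      (((some l ::ₘ (0 : Multiset (Option ι))).map (X x)).prod)
    rw [Multiset.map_cons, Multiset.prod_cons, Multiset.map_zero, Multiset.prod_zero, mul_one]
    change x l • f (Pi.single l 1) = f (Pi.single l 1) * algebraMap K A (x l)
    rw [Algebra.smul_def, mul_comm]
  rw [h]
  exact Submodule.sum_mem _ (fun l _ => Submodule.smul_mem _ _ (mon_mem _))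

omit [Fintype ι] in
theorem PF_pow {a : ℕ} {p : (ι → K) → A} (hp : p ∈ PF K A ι a) (n : ℕ) :
    p ^ n ∈ PF K A ι (n * a) := by
  induction n with
  | zero =>
    rw [pow_zero]
    exact PF_const _ _
  | succ n ih =>
    rw [pow_succ, Nat.succ_mul]
    exact PF_mul ih hp

omit [Fintype ι] in
theorem PF_prod {a n : ℕ} {p : Fin n → (ι → K) → A} (hp : ∀ i, p i ∈ PF K A ι a) :
    (∏ i, p i) ∈ PF K A ι (n * a) := by
  induction n with
  | zero =>
    rw [Fin.prod_univ_zero]
    exact PF_const _ _
  | succ n ih =>
    rw [Fin.prod_univ_castSucc, Nat.succ_mul]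
    exact PF_mul (ih (fun i => hp _)) (hp _)

omit [Fintype ι] in
theorem PF_det {a n : ℕ} (M : (ι → K) → Matrix (Fin n) (Fin n) A)
    (h : ∀ i l, (fun x => M x i l) ∈ PF K A ι a) : (fun x => (M x).det) ∈ PF K A ι (n * a) := by
  classical
  have h1 : (fun x => (M x).det) = ∑ σ : Equiv.Perm (Fin n), ((Equiv.Perm.sign σ : ℤ) : A) •
      ∏ i, (fun x => M x (σ i) i) := by
    funext x
    rw [Matrix.det_apply', Finset.sum_apply]
    refine sum_congr rfl (fun σ _ => ?_)
    rw [Pi.smul_apply, Finset.prod_apply, smul_eq_mul]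
  rw [h1]
  exact Submodule.sum_mem _ (fun σ _ => Submodule.smul_mem _ _ (PF_prod (fun i => h _ _)))

end

theorem finrank_PF (m : ℕ) :
    finrank K (PF K K ι m) ≤ (Fintype.card ι + m).choose (Fintype.card ι) := by
  classical
  have h := finrank_range_le_card (R := K) (mon (K := K) (ι := ι) K (m := m))
  unfold Set.finrank at h
  refine h.trans ?_
  rw [Sym.card_sym_eq_choose, Fintype.card_option]
  have h1 : Fintype.card ι + 1 + m - 1 = Fintype.card ι + m := by omega
  rw [h1]
  have h2 := Nat.choose_symm_add (a := Fintype.card ι) (b := m)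
  rw [h2]

instance (m : ℕ) : Module.Finite K (PF K K ι m) := by
  unfold PF
  exact FiniteDimensional.span_of_finite K (Set.finite_range _)

omit [Fintype ι] in
theorem PF_dual {A : Type} [Field A] [Algebra K A] {m : ℕ} (θ : A →ₗ[K] K) {p : (ι → K) → A}
    (hp : p ∈ PF K A ι m) : (fun x => θ (p x)) ∈ PF K K ι m := by
  have h : ∀ c : A, (fun x => θ (c * p x)) ∈ PF K K ι m := by
    unfold PF at hp
    induction hp using Submodule.span_induction with
    | mem q hq =>
      intro c
      obtain ⟨s, rfl⟩ := hq
      have h1 : (fun x => θ (c * mon A s x)) = θ c • mon (K := K) (ι := ι) K s := by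
        funext x
        change θ (c * algebraMap K A (s.1.map (X x)).prod) = θ c * (s.1.map (X x)).prod
        rw [mul_comm c, ← Algebra.smul_def, map_smul, smul_eq_mul, mul_comm]
      rw [h1]
      exact Submodule.smul_mem _ _ (mon_mem _)
    | zero =>
      intro c
      have h1 : (fun x : ι → K => θ (c * (0 : (ι → K) → A) x)) = 0 := by
        funext x
        simp
      rw [h1]
      exact Submodule.zero_mem _
    | add q q' _ _ h1 h2 =>
      intro c
      have h3 : (fun x => θ (c * (q + q') x)) = (fun x => θ (c * q x)) + (fun x => θ (c * q' x)) := by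
        funext x
        change θ (c * (q x + q' x)) = θ (c * q x) + θ (c * q' x)
        rw [mul_add, map_add]
      rw [h3]
      exact Submodule.add_mem _ (h1 c) (h2 c)
    | smul a q _ h1 =>
      intro c
      have h3 : (fun x => θ (c * (a • q) x)) = (fun x => θ (c * a * q x)) := by
        funext x
        change θ (c * (a * q x)) = θ (c * a * q x)
        rw [mul_assoc]
      rw [h3]
      exact h1 _
  have := h 1
  simpa using this

/-- **The counting lemma.** -/
theorem count {A : Type} [Field A] [Algebra K A] {d : ℕ} {J : Type*}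
    (H : J → (ι → K) → (ι → K) → (ι → K) →ₗ[K] A)
    (hpoly : ∀ a y z, (fun x => H a y x z) ∈ PF K A ι d) (S : Finset (ι → K))
    (h0 : ∀ a, ∀ y ∈ S, ∀ x ∈ S, H a y x (x - y) = 0)
    (hT : ∀ y ∈ S, ∀ z, (∀ a, H a y y z = 0) → z = 0) :
    S.card ≤ (Fintype.card ι + Fintype.card ι * d).choose (Fintype.card ι) := by
  classical
  let e : Basis (Fin (Fintype.card ι)) K (ι → K) := (Pi.basisFun K ι).reindex (Fintype.equivFin ι)
  have hG : ∀ y : S, ∃ G ∈ PF K K ι (Fintype.card ι * d), G y ≠ 0 ∧ ∀ x ∈ S, x ≠ y → G x = 0 := by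
    intro y
    obtain ⟨j, hj⟩ := Pool.Agent.TH813.Count.exists_sel e
      (fun p : J × Dual K A => p.2 ∘ₗ H p.1 y y) (by
      intro z hz
      refine hT y y.2 z (fun a => ?_)
      exact (forall_dual_apply_eq_zero_iff K _).1 (fun θ => hz (a, θ)))
    refine ⟨fun x => (Matrix.of fun i l => (j i).2 (H (j i).1 y x (e l))).det,
      PF_det (fun x => Matrix.of fun i l => (j i).2 (H (j i).1 y x (e l)))
        (fun i l => PF_dual _ (hpoly _ _ _)), hj, fun x hx hxy => ?_⟩
    apply Matrix.exists_mulVec_eq_zero_iff.1
    refine ⟨fun l => e.repr (x - (y : ι → K)) l, ?_, ?_⟩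
    · intro h
      apply hxy
      have h1 : e.repr (x - (y : ι → K)) = 0 := by
        ext l
        exact congrFun h l
      exact sub_eq_zero.1 ((LinearEquiv.map_eq_zero_iff _).1 h1)
    · funext i
      simp only [Matrix.mulVec, dotProduct, Matrix.of_apply, Pi.zero_apply]
      have h1 := h0 (j i).1 y y.2 x hx
      have h2 : ∑ l, e.repr (x - (y : ι → K)) l • e l = x - (y : ι → K) := e.sum_repr _
      have h3 : (j i).2 (H (j i).1 y x (x - (y : ι → K))) = 0 := by rw [h1, map_zero]
      rw [← h3]
      conv_rhs => rw [← h2]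
      rw [map_sum, map_sum]
      refine sum_congr rfl (fun l _ => ?_)
      rw [map_smul, map_smul, smul_eq_mul, mul_comm]
  choose G hG1 hG2 hG3 using hG
  let Q : S → PF K K ι (Fintype.card ι * d) := fun t => ⟨G t, hG1 t⟩
  have hli : LinearIndependent K Q := by
    rw [Fintype.linearIndependent_iff]
    intro c hc t
    have h3 : (∑ s, c s • Q s : PF K K ι (Fintype.card ι * d)).1 (t : ι → K) = 0 := by rw [hc]; rfl
    have h4 : (∑ s, c s • Q s : PF K K ι (Fintype.card ι * d)).1 (t : ι → K) =
        ∑ s, c s * G s t := by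
      rw [Submodule.coe_sum, Finset.sum_apply]
      rfl
    rw [h4, sum_eq_single t] at h3
    · exact (mul_eq_zero.1 h3).resolve_right (hG2 t)
    · intro s _ hst
      rw [hG3 s t t.2 (fun h => hst (Subtype.ext h.symm)), mul_zero]
    · intro h
      exact absurd (mem_univ t) h
  have h5 := hli.fintype_card_le_finrank
  rw [Fintype.card_coe] at h5
  exact h5.trans (finrank_PF (Fintype.card ι * d))

end Pool.Agent.TH813.CountF
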