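import Mathlib
import Pool.Agent.TH813.CountF

/-!
# Difference quotients of polynomial functions
-/

set_option autoImplicit false

open Finset Module

noncomputable section

namespace Pool.Agent.TH813.DQ

open Pool.Agent.TH813.CountF

variable {K : Type} [Field K] {A : Type} [Field A] [Algebra K A] {ι : Type} [Fintype ι]

/-- `p` is a polynomial function of degree at most `m` with derivative `p'`, with a difference
quotient -/
def IsDQ (m : ℕ) (p : (ι → K) → A) (p' : (ι → K) → (ι → K) → A) : Prop :=
  p ∈ PF K A ι m ∧ ∃ H : (ι → K) → (ι → K) → (ι → K) →ₗ[K] A,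
    (∀ y z, (fun x => H y x z) ∈ PF K A ι (m - 1)) ∧ (m = 0 → H = 0) ∧
      (∀ x y, p x - p y = H y x (x - y)) ∧ ∀ y z, H y y z = p' y z

omit [Fintype ι] in
theorem IsDQ.congr {m : ℕ} {p q : (ι → K) → A} {p' q' : (ι → K) → (ι → K) → A}
    (hp : IsDQ m p p') (h : ∀ x, q x = p x) (h' : ∀ y z, q' y z = p' y z) : IsDQ m q q' := by
  have e1 : q = p := funext h
  have e2 : q' = p' := funext (fun y => funext (h' y))
  rw [e1, e2]
  exact hp

omit [Fintype ι] in
theorem IsDQ.const (m : ℕ) (c : A) : IsDQ (K := K) (ι := ι) m (fun _ => c) (fun _ _ => 0) :=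
  ⟨PF_const m c, 0, fun _ _ => PF_const _ _, fun _ => rfl, fun _ _ => by
    rw [sub_self]
    rfl, fun _ _ => rfl⟩

theorem IsDQ.lin (f : (ι → K) →ₗ[K] A) : IsDQ 1 (fun x => f x) (fun _ z => f z) :=
  ⟨PF_lin f, fun _ _ => f, fun _ _ => PF_const _ _, fun h => absurd h one_ne_zero,
    fun x y => (map_sub f x y).symm, fun _ _ => rfl⟩

omit [Fintype ι] in
theorem IsDQ.add {m : ℕ} {p q : (ι → K) → A} {p' q' : (ι → K) → (ι → K) → A}
    (hp : IsDQ m p p') (hq : IsDQ m q q') :
    IsDQ m (fun x => p x + q x) (fun y z => p' y z + q' y z) := by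
  obtain ⟨hp0, H, h1, h2, h3, h4⟩ := hp
  obtain ⟨hq0, G, g1, g2, g3, g4⟩ := hq
  refine ⟨Submodule.add_mem _ hp0 hq0, fun y x => H y x + G y x,
    fun y z => Submodule.add_mem _ (h1 y z) (g1 y z), fun h => ?_, fun x y => ?_, fun y z => ?_⟩
  · rw [h2 h, g2 h]
    funext y x
    exact add_zero _
  · rw [LinearMap.add_apply, ← h3, ← g3]
    ring
  · rw [LinearMap.add_apply, h4, g4]

omit [Fintype ι] in
theorem IsDQ.smul {m : ℕ} (c : A) {p : (ι → K) → A} {p' : (ι → K) → (ι → K) → A}
    (hp : IsDQ m p p') : IsDQ m (fun x => c * p x) (fun y z => c * p' y z) := by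
  obtain ⟨hp0, H, h1, h2, h3, h4⟩ := hp
  refine ⟨Submodule.smul_mem _ c hp0, fun y x => c • H y x,
    fun y z => Submodule.smul_mem _ c (h1 y z), fun h => ?_, fun x y => ?_, fun y z => ?_⟩
  · rw [h2 h]
    funext y x
    exact smul_zero _
  · rw [LinearMap.smul_apply, ← h3, smul_eq_mul]
    ring
  · rw [LinearMap.smul_apply, h4, smul_eq_mul]

omit [Fintype ι] in
theorem IsDQ.sub {m : ℕ} {p q : (ι → K) → A} {p' q' : (ι → K) → (ι → K) → A}
    (hp : IsDQ m p p') (hq : IsDQ m q q') :
    IsDQ m (fun x => p x - q x) (fun y z => p' y z - q' y z) := by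
  exact (hp.add (hq.smul (-1))).congr (fun x => by ring) (fun y z => by ring)

omit [Fintype ι] in
theorem IsDQ.mono {m m' : ℕ} (hm : m ≤ m') {p : (ι → K) → A} {p' : (ι → K) → (ι → K) → A}
    (hp : IsDQ m p p') : IsDQ m' p p' := by
  obtain ⟨hp0, H, h1, h2, h3, h4⟩ := hp
  exact ⟨PF_mono hm hp0, H, fun y z => PF_mono (by omega) (h1 y z), fun h => h2 (by omega), h3, h4⟩

omit [Fintype ι] in
theorem IsDQ.mul {a b : ℕ} {p q : (ι → K) → A} {p' q' : (ι → K) → (ι → K) → A}
    (hp : IsDQ a p p') (hq : IsDQ b q q') :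
    IsDQ (a + b) (fun x => p x * q x) (fun y z => q y * p' y z + p y * q' y z) := by
  obtain ⟨hp0, H, h1, h2, h3, h4⟩ := hp
  obtain ⟨hq0, G, g1, g2, g3, g4⟩ := hq
  refine ⟨PF_mul hp0 hq0, fun y x => q x • H y x + p y • G y x, fun y z => ?_, fun h => ?_,
    fun x y => ?_, fun y z => ?_⟩
  · refine Submodule.add_mem _ ?_ ?_
    · rcases Nat.eq_zero_or_pos a with h | h
      · have h5 := h2 h
        have h6 : (fun x => (q x • H y x) z) = fun _ => (0 : A) := by
          funext x
          rw [h5]
          exact mul_zero _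
        change (fun x => (q x • H y x) z) ∈ _
        rw [h6]
        exact PF_const _ _
      · exact PF_mono (by omega) (PF_mul hq0 (h1 y z))
    · rcases Nat.eq_zero_or_pos b with h | h
      · have h5 := g2 h
        have h6 : (fun x => (p y • G y x) z) = fun _ => (0 : A) := by
          funext x
          rw [h5]
          exact mul_zero _
        change (fun x => (p y • G y x) z) ∈ _
        rw [h6]
        exact PF_const _ _
      · exact PF_mono (by omega) (Submodule.smul_mem _ (p y) (g1 y z))
  · rw [h2 (by omega), g2 (by omega)]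
    funext y x
    ext z
    change q x * 0 + p y * 0 = 0
    rw [mul_zero, mul_zero, add_zero]
  · rw [LinearMap.add_apply, LinearMap.smul_apply, LinearMap.smul_apply, ← h3, ← g3, smul_eq_mul,
      smul_eq_mul]
    ring
  · rw [LinearMap.add_apply, LinearMap.smul_apply, LinearMap.smul_apply, h4, g4, smul_eq_mul,
      smul_eq_mul]

omit [Fintype ι] in
theorem IsDQ.sum {κ : Type*} (s : Finset κ) {m : ℕ} {p : κ → (ι → K) → A}
    {p' : κ → (ι → K) → (ι → K) → A} (hp : ∀ k ∈ s, IsDQ m (p k) (p' k)) :
    IsDQ m (fun x => ∑ k ∈ s, p k x) (fun y z => ∑ k ∈ s, p' k y z) := by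
  classical
  induction s using Finset.induction_on with
  | empty =>
    simp only [sum_empty]
    exact IsDQ.const m 0
  | insert k s hk ih =>
    simp only [sum_insert hk]
    exact (hp k (mem_insert_self _ _)).add (ih (fun j hj => hp j (mem_insert_of_mem hj)))

section poly

variable {n : ℕ} {B : Type} [Field B] [Algebra B A] (μ : Fin n → (ι → K) →ₗ[K] A)

/-- the value of a polynomial -/
def ev (P : MvPolynomial (Fin n) B) (x : ι → K) : A := MvPolynomial.aeval (fun j => μ j x) P

/-- the derivative of a polynomial -/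
def dv (P : MvPolynomial (Fin n) B) (y z : ι → K) : A :=
  ∑ j, ev μ (MvPolynomial.pderiv j P) y * μ j z

omit [Fintype ι] in
theorem ev_mul (P Q : MvPolynomial (Fin n) B) (x : ι → K) : ev μ (P * Q) x = ev μ P x * ev μ Q x :=
  map_mul _ _ _

omit [Fintype ι] in
theorem ev_add (P Q : MvPolynomial (Fin n) B) (x : ι → K) : ev μ (P + Q) x = ev μ P x + ev μ Q x :=
  map_add _ _ _

omit [Fintype ι] in
theorem dv_mul (P Q : MvPolynomial (Fin n) B) (y z : ι → K) :
    dv μ (P * Q) y z = ev μ Q y * dv μ P y z + ev μ P y * dv μ Q y z := by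
  unfold dv
  rw [mul_sum, mul_sum, ← sum_add_distrib]
  refine sum_congr rfl (fun j _ => ?_)
  rw [MvPolynomial.pderiv_mul, ev_add, ev_mul, ev_mul]
  ring

omit [Fintype ι] in
theorem dv_add (P Q : MvPolynomial (Fin n) B) (y z : ι → K) :
    dv μ (P + Q) y z = dv μ P y z + dv μ Q y z := by
  unfold dv
  rw [← sum_add_distrib]
  refine sum_congr rfl (fun j _ => ?_)
  rw [map_add, ev_add]
  ring

theorem dq_monomial (s : Fin n →₀ ℕ) (c : B) :
    IsDQ (s.sum fun _ e => e) (ev μ (MvPolynomial.monomial s c))
      (dv μ (MvPolynomial.monomial s c)) := by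
  classical
  induction s using Finsupp.induction_linear generalizing c with
  | zero =>
    have h1 : ev μ (MvPolynomial.monomial 0 c) = fun _ : ι → K => algebraMap B A c := by
      funext x
      exact MvPolynomial.aeval_C _ _
    have h2 : dv μ (MvPolynomial.monomial 0 c) = fun _ _ : ι → K => (0 : A) := by
      funext y z
      unfold dv
      refine sum_eq_zero (fun j _ => ?_)
      have h3 : MvPolynomial.pderiv j (MvPolynomial.monomial 0 c : MvPolynomial (Fin n) B) = 0 :=
        MvPolynomial.pderiv_C
      rw [h3]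
      unfold ev
      rw [map_zero, zero_mul]
    rw [h1, h2]
    exact IsDQ.const _ _
  | add f g hf hg =>
    have h := (hf c).mul (hg 1)
    have e1 : MvPolynomial.monomial (f + g) c = MvPolynomial.monomial f c *
        (MvPolynomial.monomial g 1 : MvPolynomial (Fin n) B) := by
      rw [MvPolynomial.monomial_mul, mul_one]
    have e2 : ((f + g).sum fun _ e => e) = (f.sum fun _ e => e) + g.sum fun _ e => e :=
      Finsupp.sum_add_index' (fun _ => rfl) (fun _ _ _ => rfl)
    rw [e1, e2]
    exact h.congr (fun x => ev_mul μ _ _ x) (fun y z => dv_mul μ _ _ y z)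
  | single a b =>
    rw [Finsupp.sum_single_index rfl]
    induction b generalizing c with
    | zero =>
      rw [Finsupp.single_zero]
      have h1 : ev μ (MvPolynomial.monomial 0 c) = fun _ : ι → K => algebraMap B A c := by
        funext x
        exact MvPolynomial.aeval_C _ _
      have h2 : dv μ (MvPolynomial.monomial 0 c) = fun _ _ : ι → K => (0 : A) := by
        funext y z
        unfold dv
        refine sum_eq_zero (fun j _ => ?_)
        have h3 : MvPolynomial.pderiv j (MvPolynomial.monomial 0 c : MvPolynomial (Fin n) B) = 0 :=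
          MvPolynomial.pderiv_C
        rw [h3]
        unfold ev
        rw [map_zero, zero_mul]
      rw [h1, h2]
      exact IsDQ.const _ _
    | succ b ih =>
      have h3 : IsDQ 1 (ev μ (MvPolynomial.X a : MvPolynomial (Fin n) B))
          (dv μ (MvPolynomial.X a : MvPolynomial (Fin n) B)) := by
        refine (IsDQ.lin (μ a)).congr (fun x => MvPolynomial.aeval_X _ _) (fun y z => ?_)
        · unfold dv
          rw [sum_eq_single a]
          · rw [MvPolynomial.pderiv_X_self]
            unfold ev
            rw [map_one, one_mul]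
          · intro j _ hj
            rw [MvPolynomial.pderiv_X_of_ne hj.symm]
            unfold ev
            rw [map_zero, zero_mul]
          · intro h
            exact absurd (mem_univ a) h
      have h := (ih c).mul h3
      have e1 : MvPolynomial.monomial (Finsupp.single a (b + 1)) c =
          MvPolynomial.monomial (Finsupp.single a b) c *
          (MvPolynomial.X a : MvPolynomial (Fin n) B) := by
        rw [MvPolynomial.X, MvPolynomial.monomial_mul, mul_one, ← Finsupp.single_add]
      rw [e1]
      exact h.congr (fun x => ev_mul μ _ _ x) (fun y z => dv_mul μ _ _ y z)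

theorem dq_poly {P : MvPolynomial (Fin n) B} {m : ℕ} (h : P.totalDegree ≤ m) :
    IsDQ m (ev μ P) (dv μ P) := by
  classical
  have h1 := IsDQ.sum (K := K) P.support (m := m)
    (p := fun s => ev μ (MvPolynomial.monomial s (P.coeff s)))
    (p' := fun s => dv μ (MvPolynomial.monomial s (P.coeff s))) (fun s hs =>
      (dq_monomial μ s (P.coeff s)).mono ((MvPolynomial.le_totalDegree hs).trans h))
  have e1 : ev μ P = fun x => ∑ s ∈ P.support, ev μ (MvPolynomial.monomial s (P.coeff s)) x := by
    funext x
    unfold ev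
    rw [← map_sum, ← MvPolynomial.as_sum]
  have e2 : dv μ P = fun y z => ∑ s ∈ P.support, dv μ (MvPolynomial.monomial s (P.coeff s)) y z := by
    funext y z
    unfold dv
    rw [sum_comm]
    refine sum_congr rfl (fun j _ => ?_)
    rw [← sum_mul]
    congr 1
    unfold ev
    rw [← map_sum, ← map_sum, ← MvPolynomial.as_sum]
  rw [e1, e2]
  exact h1

theorem totalDegree_pderiv (j : Fin n) (P : MvPolynomial (Fin n) B) :
    (MvPolynomial.pderiv j P).totalDegree ≤ P.totalDegree := by
  classical
  have h1 : MvPolynomial.pderiv j P = ∑ s ∈ P.support,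
      MvPolynomial.pderiv j (MvPolynomial.monomial s (P.coeff s)) := by
    rw [← map_sum, ← MvPolynomial.as_sum]
  rw [h1]
  refine MvPolynomial.totalDegree_finsetSum_le (fun s hs => ?_)
  rw [MvPolynomial.pderiv_monomial]
  refine (MvPolynomial.totalDegree_monomial_le _ _).trans ?_
  refine le_trans ?_ (MvPolynomial.le_totalDegree hs)
  rw [Finsupp.sum_fintype _ _ (fun _ => rfl), Finsupp.sum_fintype _ _ (fun _ => rfl)]
  refine sum_le_sum (fun i _ => ?_)
  exact (tsub_le_self : s - Finsupp.single j 1 ≤ s) i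

theorem pderiv_comm (j k : Fin n) (P : MvPolynomial (Fin n) B) :
    MvPolynomial.pderiv j (MvPolynomial.pderiv k P) =
      MvPolynomial.pderiv k (MvPolynomial.pderiv j P) := by
  classical
  let D₁ : Derivation B (MvPolynomial (Fin n) B) (MvPolynomial (Fin n) B) := MvPolynomial.pderiv j
  let D₂ : Derivation B (MvPolynomial (Fin n) B) (MvPolynomial (Fin n) B) := MvPolynomial.pderiv k
  have h : ⁅D₁, D₂⁆ = 0 := by
    apply MvPolynomial.derivation_ext
    intro i
    rw [Derivation.commutator_apply]
    change MvPolynomial.pderiv j (MvPolynomial.pderiv k (MvPolynomial.X i)) -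
      MvPolynomial.pderiv k (MvPolynomial.pderiv j (MvPolynomial.X i)) = 0
    rw [MvPolynomial.pderiv_X, MvPolynomial.pderiv_X]
    simp only [Pi.single_apply]
    split_ifs <;> simp
  have h2 : ⁅D₁, D₂⁆ P = 0 := by rw [h]; rfl
  rw [Derivation.commutator_apply] at h2
  exact sub_eq_zero.1 h2

end poly

end Pool.Agent.TH813.DQ
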