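import Mathlib
import Pool.Agent.TH813.Count

/-!
# Isolated rational points of systems of equations of bounded degree: a counting lemma
-/

set_option autoImplicit false

namespace Pool.Agent.TH813.CountD

open Module Finset

variable {r : ℕ}

/-- the affine coordinates -/
def X (x : Fin r → ℚ) : Option (Fin r) → ℚ
  | none => 1
  | some l => x l

/-- monomials -/
noncomputable def mon (A : Type) [Field A] [Algebra ℚ A] {m : ℕ} (s : Sym (Option (Fin r)) m) :
    (Fin r → ℚ) → A := fun x => algebraMap ℚ A (s.1.map (X x)).prod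

/-- polynomial functions of degree at most `m` with values in `A` -/
noncomputable def PF (A : Type) [Field A] [Algebra ℚ A] (r m : ℕ) :
    Submodule A ((Fin r → ℚ) → A) :=
  Submodule.span A (Set.range (mon A (r := r) (m := m)))

section

variable {A : Type} [Field A] [Algebra ℚ A]

theorem mon_mem {m : ℕ} (s : Sym (Option (Fin r)) m) : mon A s ∈ PF A r m :=
  Submodule.subset_span ⟨s, rfl⟩

theorem PF_mul {a b : ℕ} {p q : (Fin r → ℚ) → A} (hp : p ∈ PF A r a) (hq : q ∈ PF A r b) :
    p * q ∈ PF A r (a + b) := by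
  have h1 : p * q ∈ PF A r a * PF A r b := Submodule.mul_mem_mul hp hq
  unfold PF at h1
  rw [Submodule.span_mul_span] at h1
  refine Submodule.span_mono ?_ h1
  rintro _ ⟨_, ⟨s, rfl⟩, _, ⟨t, rfl⟩, rfl⟩
  refine ⟨s.append t, ?_⟩
  funext x
  change algebraMap ℚ A (((s.append t : Sym (Option (Fin r)) (a + b)) :
    Multiset (Option (Fin r))).map (X x)).prod =
    algebraMap ℚ A (s.1.map (X x)).prod * algebraMap ℚ A (t.1.map (X x)).prod
  rw [Sym.coe_append, Multiset.map_add, Multiset.prod_add, map_mul]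
  rfl

theorem PF_const (m : ℕ) (c : A) : (fun _ => c) ∈ PF A r m := by
  have h : (fun _ => c : (Fin r → ℚ) → A) = c • mon A (Sym.replicate m none) := by
    funext x
    change c = c * algebraMap ℚ A ((Multiset.replicate m none).map (X x)).prod
    rw [Multiset.map_replicate, Multiset.prod_replicate]
    change c = c * algebraMap ℚ A ((1 : ℚ) ^ m)
    rw [one_pow, map_one, mul_one]
  rw [h]
  exact Submodule.smul_mem _ _ (mon_mem _)

theorem PF_mono {a b : ℕ} (h : a ≤ b) {p : (Fin r → ℚ) → A} (hp : p ∈ PF A r a) :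
    p ∈ PF A r b := by
  obtain ⟨c, rfl⟩ := Nat.exists_eq_add_of_le h
  have h1 := PF_mul hp (PF_const (r := r) c (1 : A))
  have h2 : p * (fun _ => (1 : A)) = p := by
    funext x
    exact mul_one _
  rwa [h2] at h1

theorem PF_lin (f : (Fin r → ℚ) →ₗ[ℚ] A) : (fun x => f x) ∈ PF A r 1 := by
  classical
  have h : (fun x => f x) = ∑ l, f (Pi.single l 1) • mon A (Sym.cons (some l) Sym.nil) := by
    funext x
    have h1 : x = ∑ l, x l • (Pi.single l (1 : ℚ) : Fin r → ℚ) := by
      funext j
      rw [Finset.sum_apply]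
      simp [Pi.single_apply]
    conv_lhs => rw [h1]
    rw [map_sum, Finset.sum_apply]
    refine sum_congr rfl (fun l _ => ?_)
    rw [map_smul]
    change x l • f (Pi.single l 1) = f (Pi.single l 1) * algebraMap ℚ A
      (((some l ::ₘ (0 : Multiset (Option (Fin r)))).map (X x)).prod)
    rw [Multiset.map_cons, Multiset.prod_cons, Multiset.map_zero, Multiset.prod_zero, mul_one]
    change x l • f (Pi.single l 1) = f (Pi.single l 1) * algebraMap ℚ A (x l)
    rw [Algebra.smul_def, mul_comm]
  rw [h]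
  exact Submodule.sum_mem _ (fun l _ => Submodule.smul_mem _ _ (mon_mem _))

theorem PF_pow {a : ℕ} {p : (Fin r → ℚ) → A} (hp : p ∈ PF A r a) (n : ℕ) :
    p ^ n ∈ PF A r (n * a) := by
  induction n with
  | zero =>
    rw [pow_zero]
    exact PF_const _ _
  | succ n ih =>
    rw [pow_succ, Nat.succ_mul]
    exact PF_mul ih hp

theorem PF_prod {a n : ℕ} {p : Fin n → (Fin r → ℚ) → A} (hp : ∀ i, p i ∈ PF A r a) :
    (∏ i, p i) ∈ PF A r (n * a) := by
  induction n with
  | zero =>
    rw [Fin.prod_univ_zero]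
    exact PF_const _ _
  | succ n ih =>
    rw [Fin.prod_univ_castSucc, Nat.succ_mul]
    exact PF_mul (ih (fun i => hp _)) (hp _)

theorem PF_det {a n : ℕ} (M : (Fin r → ℚ) → Matrix (Fin n) (Fin n) A)
    (h : ∀ i l, (fun x => M x i l) ∈ PF A r a) : (fun x => (M x).det) ∈ PF A r (n * a) := by
  classical
  have h1 : (fun x => (M x).det) = ∑ σ : Equiv.Perm (Fin n), ((Equiv.Perm.sign σ : ℤ) : A) •
      ∏ i, (fun x => M x (σ i) i) := by
    funext x
    rw [Matrix.det_apply', Finset.sum_apply]
    refine sum_congr rfl (fun σ _ => ?_)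
    rw [Pi.smul_apply, Finset.prod_apply, smul_eq_mul]
  rw [h1]
  exact Submodule.sum_mem _ (fun σ _ => Submodule.smul_mem _ _ (PF_prod (fun i => h _ _)))

end

theorem finrank_PF (r m : ℕ) : finrank ℚ (PF ℚ r m) ≤ (r + m).choose r := by
  classical
  have h := finrank_range_le_card (R := ℚ) (mon ℚ (r := r) (m := m))
  unfold Set.finrank at h
  refine h.trans ?_
  rw [Sym.card_sym_eq_choose, Fintype.card_option, Fintype.card_fin]
  have h1 : r + 1 + m - 1 = r + m := by omega
  rw [h1]
  have h2 := Nat.choose_symm_add (a := r) (b := m)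
  rw [h2]

instance (r m : ℕ) : Module.Finite ℚ (PF ℚ r m) := by
  unfold PF
  exact FiniteDimensional.span_of_finite ℚ (Set.finite_range _)

theorem PF_dual {m : ℕ} (θ : ℂ →ₗ[ℚ] ℚ) {p : (Fin r → ℚ) → ℂ} (hp : p ∈ PF ℂ r m) :
    (fun x => θ (p x)) ∈ PF ℚ r m := by
  have h : ∀ c : ℂ, (fun x => θ (c * p x)) ∈ PF ℚ r m := by
    unfold PF at hp
    induction hp using Submodule.span_induction with
    | mem q hq =>
      intro c
      obtain ⟨s, rfl⟩ := hq
      have h1 : (fun x => θ (c * mon ℂ s x)) = θ c • mon ℚ s := by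
        funext x
        change θ (c * algebraMap ℚ ℂ (s.1.map (X x)).prod) = θ c * (s.1.map (X x)).prod
        rw [mul_comm c, ← Algebra.smul_def, map_smul, smul_eq_mul, mul_comm]
      rw [h1]
      exact Submodule.smul_mem _ _ (mon_mem _)
    | zero =>
      intro c
      have h1 : (fun x : Fin r → ℚ => θ (c * (0 : (Fin r → ℚ) → ℂ) x)) = 0 := by
        funext x
        simp
      rw [h1]
      exact Submodule.zero_mem _
    | add q q' _ _ h1 h2 =>
      intro c
      have h3 : (fun x => θ (c * (q + q') x)) = (fun x => θ (c * q x)) + (fun x => θ (c * q' x)) := by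
        funext x
        change θ (c * (q x + q' x)) = θ (c * q x) + θ (c * q' x)
        rw [mul_add, map_add]
      rw [h3]
      exact Submodule.add_mem _ (h1 c) (h2 c)
    | smul a q _ h1 =>
      intro c
      have h3 : (fun x => θ (c * (a • q) x)) = (fun x => θ (c * a * q x)) := by
        funext x
        change θ (c * (a * q x)) = θ (c * a * q x)
        rw [mul_assoc]
      rw [h3]
      exact h1 _
  have := h 1
  simpa using this

/-- **The counting lemma.** -/
theorem count {d : ℕ} {J : Type*} (H : J → (Fin r → ℚ) → (Fin r → ℚ) → (Fin r → ℚ) →ₗ[ℚ] ℂ)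
    (hpoly : ∀ a y z, (fun x => H a y x z) ∈ PF ℂ r d) (S : Finset (Fin r → ℚ))
    (h0 : ∀ a, ∀ y ∈ S, ∀ x ∈ S, H a y x (x - y) = 0)
    (hT : ∀ y ∈ S, ∀ z, (∀ a, H a y y z = 0) → z = 0) :
    S.card ≤ (r + r * d).choose r := by
  classical
  let e : Basis (Fin r) ℚ (Fin r → ℚ) := Pi.basisFun ℚ (Fin r)
  have hG : ∀ y : S, ∃ G ∈ PF ℚ r (r * d), G y ≠ 0 ∧ ∀ x ∈ S, x ≠ y → G x = 0 := by
    intro y
    obtain ⟨j, hj⟩ := Pool.Agent.TH813.Count.exists_sel e
      (fun p : J × Dual ℚ ℂ => p.2 ∘ₗ H p.1 y y) (by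
      intro z hz
      refine hT y y.2 z (fun a => ?_)
      exact (forall_dual_apply_eq_zero_iff ℚ _).1 (fun θ => hz (a, θ)))
    refine ⟨fun x => (Matrix.of fun i l => (j i).2 (H (j i).1 y x (e l))).det,
      PF_det (fun x => Matrix.of fun i l => (j i).2 (H (j i).1 y x (e l)))
        (fun i l => PF_dual _ (hpoly _ _ _)), hj, fun x hx hxy => ?_⟩
    apply Matrix.exists_mulVec_eq_zero_iff.1
    refine ⟨fun l => (x - (y : Fin r → ℚ)) l, ?_, ?_⟩
    · intro h
      exact hxy (sub_eq_zero.1 h)
    · funext i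
      simp only [Matrix.mulVec, dotProduct, Matrix.of_apply, Pi.zero_apply]
      have h1 := h0 (j i).1 y y.2 x hx
      have h2 : x - (y : Fin r → ℚ) = ∑ l, (x - (y : Fin r → ℚ)) l • e l := by
        conv_lhs => rw [← e.sum_repr (x - (y : Fin r → ℚ))]
        rfl
      have h3 : (j i).2 (H (j i).1 y x (x - (y : Fin r → ℚ))) = 0 := by rw [h1, map_zero]
      rw [← h3]
      conv_rhs => rw [h2]
      rw [map_sum, map_sum]
      refine sum_congr rfl (fun l _ => ?_)
      rw [map_smul, map_smul, smul_eq_mul, mul_comm]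
  choose G hG1 hG2 hG3 using hG
  let Q : S → PF ℚ r (r * d) := fun t => ⟨G t, hG1 t⟩
  have hli : LinearIndependent ℚ Q := by
    rw [Fintype.linearIndependent_iff]
    intro c hc t
    have h3 : (∑ s, c s • Q s : PF ℚ r (r * d)).1 (t : Fin r → ℚ) = 0 := by rw [hc]; rfl
    have h4 : (∑ s, c s • Q s : PF ℚ r (r * d)).1 (t : Fin r → ℚ) = ∑ s, c s * G s t := by
      rw [Submodule.coe_sum, Finset.sum_apply]
      rfl
    rw [h4, sum_eq_single t] at h3
    · exact (mul_eq_zero.1 h3).resolve_right (hG2 t)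
    · intro s _ hst
      rw [hG3 s t t.2 (fun h => hst (Subtype.ext h.symm)), mul_zero]
    · intro h
      exact absurd (mem_univ t) h
  have h5 := hli.fintype_card_le_finrank
  rw [Fintype.card_coe] at h5
  exact h5.trans (finrank_PF r (r * d))

end Pool.Agent.TH813.CountD
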