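import Mathlib
import Pool.Agent.TH813.CountD
import Pool.Agent.TH813.GTypes

/-!
# Points of a rational space at which `ζ` plus an additive function is algebraic
-/

set_option autoImplicit false

open Finset Module
open scoped PeriodPair ComplexConjugate

noncomputable section

namespace Pool.Agent.TH813.ZtFin

open H667R3 Pool.Agent.W245.EB
open Pool.Agent.TH813.Ell Pool.Agent.TH813.CountD
open Pool.Agent.TH813.Rel (DF)

section base

variable (F : IntermediateField ℚ ℂ)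

/-- the field of the numbers killed by the derivations over `F` -/
def Kc : IntermediateField ℚ ℂ where
  carrier := {w | ∀ D ∈ DF F, D w = 0}
  mul_mem' := by
    intro a b ha hb D hF
    rw [Derivation.leibniz, ha D hF, hb D hF, smul_zero, smul_zero, add_zero]
  add_mem' := by
    intro a b ha hb D hF
    rw [map_add, ha D hF, hb D hF, add_zero]
  algebraMap_mem' := fun r D _ => D.map_algebraMap r
  inv_mem' := by
    intro a ha D hF
    rw [Derivation.leibniz_inv, ha D hF, smul_zero]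

variable {F}

theorem alg_of_killed {x : ℂ} (h : ∀ D ∈ DF F, D x = 0) : IsAlgebraic F x := by
  by_contra hx
  have h2 : AlgebraicIndependent F (fun _ : Unit => x) :=
    (algebraicIndependent_unique_type_iff).2 hx
  obtain ⟨D, hD, h3⟩ := Pool.Agent.TH813.Rel.exists_derF F h2 (fun _ => (1 : ℂ))
  have h4 := h3 ()
  rw [h D hD] at h4
  exact zero_ne_one h4

theorem killed_of_alg {x : ℂ} (h : IsAlgebraic F x) : ∀ D ∈ DF F, D x = 0 := fun D hD =>
  Pool.Agent.H327R2.SC.der_alg F D hD h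

variable {L : PeriodPair}

/-- a differential of the first kind is not exact -/
theorem om_exact (h2 : L.g₂ ∈ F) (h3 : L.g₃ ∈ F) (τ f : ℂ) (h : ∀ D ∈ DF F, D f = om L D τ) :
    ∀ D ∈ DF F, om L D τ = 0 := by
  obtain ⟨κ, hE⟩ := exists_eig L
  have hFK : ∀ x ∈ F, x ∈ Kc F := fun x hx D hD => hD x hx
  have hDK : ∀ D : Derivation ℚ ℂ ℂ, (∀ w ∈ Kc F, D w = 0) → D ∈ DF F := fun D hD x hx =>
    hD x (hFK x hx)
  have key := ros_linK hE (Kc F) (hFK _ h2) (hFK _ h3) (fun c hc D _ => der_kL D hc)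
    (fun D hD => hE.kill D (hD _ h2) (hD _ h3)) (m := 0) (n := 1) Fin.elim0 Fin.elim0
    (fun l => l.elim0) (fun l => l.elim0) (fun _ => 1) (fun _ => 0) (fun _ => τ)
    (fun _ => one_mem _) (fun _ => zero_mem _) f (fun D hD => by
      rw [h D (hDK D hD)]
      simp) (fun _ => 1) (fun _ => one_mem _) (fun N _ h5 _ => h5)
  intro D hD
  have h4 := key D (fun w hw => hw D hD)
  simpa using h4

end base

section poly

variable {r : ℕ}

theorem mulm {a b m : ℕ} {p q : (Fin r → ℚ) → ℂ} (hp : p ∈ PF ℂ r a) (hq : q ∈ PF ℂ r b)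
    (h : a + b ≤ m) : (fun x => p x * q x) ∈ PF ℂ r m := PF_mono h (PF_mul hp hq)

theorem addm {m : ℕ} {p q : (Fin r → ℚ) → ℂ} (hp : p ∈ PF ℂ r m) (hq : q ∈ PF ℂ r m) :
    (fun x => p x + q x) ∈ PF ℂ r m := Submodule.add_mem _ hp hq

theorem subm {m : ℕ} {p q : (Fin r → ℚ) → ℂ} (hp : p ∈ PF ℂ r m) (hq : q ∈ PF ℂ r m) :
    (fun x => p x - q x) ∈ PF ℂ r m := Submodule.sub_mem _ hp hq

theorem cmulm {m : ℕ} (c : ℂ) {p : (Fin r → ℚ) → ℂ} (hp : p ∈ PF ℂ r m) :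
    (fun x => c * p x) ∈ PF ℂ r m := Submodule.smul_mem _ c hp

theorem mulcm {m : ℕ} (c : ℂ) {p : (Fin r → ℚ) → ℂ} (hp : p ∈ PF ℂ r m) :
    (fun x => p x * c) ∈ PF ℂ r m := by
  have h : (fun x => p x * c) = fun x => c * p x := by
    funext x
    ring
  rw [h]
  exact cmulm c hp

theorem powm {a m : ℕ} {p : (Fin r → ℚ) → ℂ} (n : ℕ) (hp : p ∈ PF ℂ r a) (h : n * a ≤ m) :
    (fun x => p x ^ n) ∈ PF ℂ r m := PF_mono h (PF_pow hp n)

theorem constm (m : ℕ) (c : ℂ) : (fun _ : Fin r → ℚ => c) ∈ PF ℂ r m := PF_const m c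

theorem linm (f : (Fin r → ℚ) →ₗ[ℚ] ℂ) : (fun x => f x) ∈ PF ℂ r 1 := PF_lin f

/-- the first family of equations -/
def HQ (e o e₂ o₂ : (Fin r → ℚ) →ₗ[ℚ] ℂ) (y x : Fin r → ℚ) : (Fin r → ℚ) →ₗ[ℚ] ℂ :=
  (o₂ x) • e + (e y) • o₂ - (o x) • e₂ - (e₂ y) • o

theorem HQ_apply (e o e₂ o₂ : (Fin r → ℚ) →ₗ[ℚ] ℂ) (y x z : Fin r → ℚ) :
    HQ e o e₂ o₂ y x z = o₂ x * e z + e y * o₂ z - o x * e₂ z - e₂ y * o z := rfl

theorem HQ_poly (e o e₂ o₂ : (Fin r → ℚ) →ₗ[ℚ] ℂ) (y z : Fin r → ℚ) :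
    (fun x => HQ e o e₂ o₂ y x z) ∈ PF ℂ r 5 := by
  simp only [HQ_apply]
  refine PF_mono (a := 1) (by omega) ?_
  exact subm (subm (addm (mulcm _ (linm o₂)) (constm 1 _)) (mulcm _ (linm o))) (constm 1 _)

/-- the second family of equations -/
def HP (g2 g3 : ℂ) (e o e' o' : (Fin r → ℚ) →ₗ[ℚ] ℂ) (y x : Fin r → ℚ) :
    (Fin r → ℚ) →ₗ[ℚ] ℂ :=
  ((e' x * o x - e x * o' x) + (e' y * o y - e y * o' y)) •
      ((o x) • e' + (e' y) • o - (o' x) • e - (e y) • o') -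
    (4 * ((e x ^ 2 + e x * e y + e y ^ 2) * o x ^ 3) - g2 * o x ^ 5) • e -
    (4 * (e y ^ 3 * (o x ^ 2 + o x * o y + o y ^ 2)) -
      g2 * (e y * (o x ^ 4 + o x ^ 3 * o y + o x ^ 2 * o y ^ 2 + o x * o y ^ 3 + o y ^ 4)) -
      g3 * (o x ^ 5 + o x ^ 4 * o y + o x ^ 3 * o y ^ 2 + o x ^ 2 * o y ^ 3 + o x * o y ^ 4 +
        o y ^ 5)) • o

theorem HP_apply (g2 g3 : ℂ) (e o e' o' : (Fin r → ℚ) →ₗ[ℚ] ℂ) (y x z : Fin r → ℚ) :
    HP g2 g3 e o e' o' y x z =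
  ((e' x * o x - e x * o' x) + (e' y * o y - e y * o' y)) *
      (o x * e' z + e' y * o z - o' x * e z - e y * o' z) -
    (4 * ((e x ^ 2 + e x * e y + e y ^ 2) * o x ^ 3) - g2 * o x ^ 5) * e z -
    (4 * (e y ^ 3 * (o x ^ 2 + o x * o y + o y ^ 2)) -
      g2 * (e y * (o x ^ 4 + o x ^ 3 * o y + o x ^ 2 * o y ^ 2 + o x * o y ^ 3 + o y ^ 4)) -
      g3 * (o x ^ 5 + o x ^ 4 * o y + o x ^ 3 * o y ^ 2 + o x ^ 2 * o y ^ 3 + o x * o y ^ 4 +
        o y ^ 5)) * o z := rfl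

theorem HP_poly (g2 g3 : ℂ) (e o e' o' : (Fin r → ℚ) →ₗ[ℚ] ℂ) (y z : Fin r → ℚ) :
    (fun x => HP g2 g3 e o e' o' y x z) ∈ PF ℂ r 5 := by
  simp only [HP_apply]
  have he := linm e
  have ho := linm o
  have he' := linm e'
  have ho' := linm o'
  have p1 : ∀ n : ℕ, (fun x => o x ^ n) ∈ PF ℂ r (n * 1) := fun n => powm n ho le_rfl
  have h1 : (fun x => (e' x * o x - e x * o' x) + (e' y * o y - e y * o' y)) ∈ PF ℂ r 2 :=
    addm (subm (mulm he' ho le_rfl) (mulm he ho' le_rfl)) (constm 2 _)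
  have h2 : (fun x => o x * e' z + e' y * o z - o' x * e z - e y * o' z) ∈ PF ℂ r 1 :=
    subm (subm (addm (mulcm _ ho) (constm 1 _)) (mulcm _ ho')) (constm 1 _)
  have h3 : (fun x => e x ^ 2 + e x * e y + e y ^ 2) ∈ PF ℂ r 2 :=
    addm (addm (powm 2 he (by norm_num)) (PF_mono (by norm_num) (mulcm (e y) he))) (constm 2 _)
  have h4 : (fun x => 4 * ((e x ^ 2 + e x * e y + e y ^ 2) * o x ^ 3) - g2 * o x ^ 5) ∈
      PF ℂ r 5 := subm (cmulm 4 (mulm h3 (p1 3) (by norm_num))) (cmulm g2 (powm 5 ho (by norm_num)))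
  have q : ∀ n : ℕ, n ≤ 5 → (fun x => o x ^ n) ∈ PF ℂ r 5 := fun n hn =>
    powm n ho (by omega)
  have h5 : (fun x => 4 * (e y ^ 3 * (o x ^ 2 + o x * o y + o y ^ 2))) ∈ PF ℂ r 5 :=
    cmulm 4 (cmulm _ (addm (addm (q 2 (by norm_num)) (PF_mono (by norm_num) (mulcm (o y) ho)))
      (constm 5 _)))
  have h6 : (fun x => g2 * (e y * (o x ^ 4 + o x ^ 3 * o y + o x ^ 2 * o y ^ 2 +
      o x * o y ^ 3 + o y ^ 4))) ∈ PF ℂ r 5 :=
    cmulm g2 (cmulm _ (addm (addm (addm (addm (q 4 (by norm_num)) (mulcm _ (q 3 (by norm_num))))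
      (mulcm _ (q 2 (by norm_num)))) (PF_mono (by norm_num) (mulcm (o y ^ 3) ho))) (constm 5 _)))
  have h7 : (fun x => g3 * (o x ^ 5 + o x ^ 4 * o y + o x ^ 3 * o y ^ 2 + o x ^ 2 * o y ^ 3 +
      o x * o y ^ 4 + o y ^ 5)) ∈ PF ℂ r 5 :=
    cmulm g3 (addm (addm (addm (addm (addm (q 5 le_rfl) (mulcm _ (q 4 (by norm_num))))
      (mulcm _ (q 3 (by norm_num)))) (mulcm _ (q 2 (by norm_num))))
      (PF_mono (by norm_num) (mulcm (o y ^ 4) ho))) (constm 5 _))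
  exact subm (subm (mulm h1 h2 (by norm_num)) (mulcm _ h4))
    (mulcm _ (subm (subm h5 h6) h7))

end poly

section main

variable {F : IntermediateField ℚ ℂ} {L : PeriodPair} {r : ℕ}

/-- linear combinations -/
def lc (v : Fin r → ℂ) : (Fin r → ℚ) →ₗ[ℚ] ℂ := Fintype.linearCombination ℚ v

theorem lc_apply (v : Fin r → ℂ) (c : Fin r → ℚ) : lc v c = ∑ i, c i • v i := rfl

theorem der_lc (D : Derivation ℚ ℂ ℂ) (v : Fin r → ℂ) (c : Fin r → ℚ) :
    D (lc v c) = lc (fun i => D (v i)) c := by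
  rw [lc_apply, lc_apply, map_sum]
  exact sum_congr rfl (fun i _ => D.map_smul _ _)

/-- the forms of the second kind -/
def eD (L : PeriodPair) (v l : Fin r → ℂ) (D : Derivation ℚ ℂ ℂ) : (Fin r → ℚ) →ₗ[ℚ] ℂ :=
  lc (fun i => et L D (v i) + D (l i))

/-- the forms of the first kind -/
def oD (L : PeriodPair) (v : Fin r → ℂ) (D : Derivation ℚ ℂ ℂ) : (Fin r → ℚ) →ₗ[ℚ] ℂ :=
  lc (fun i => om L D (v i))

/-- the derivatives of the forms of the second kind -/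
def eD' (L : PeriodPair) (v l : Fin r → ℂ) (D : Derivation ℚ ℂ ℂ) : (Fin r → ℚ) →ₗ[ℚ] ℂ :=
  lc (fun i => D (et L D (v i) + D (l i)))

/-- the derivatives of the forms of the first kind -/
def oD' (L : PeriodPair) (v : Fin r → ℂ) (D : Derivation ℚ ℂ ℂ) : (Fin r → ℚ) →ₗ[ℚ] ℂ :=
  lc (fun i => D (om L D (v i)))

theorem der_eD (v l : Fin r → ℂ) (D : Derivation ℚ ℂ ℂ) (c : Fin r → ℚ) :
    D (eD L v l D c) = eD' L v l D c := der_lc D _ c

theorem der_oD (v : Fin r → ℂ) (D : Derivation ℚ ℂ ℂ) (c : Fin r → ℚ) :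
    D (oD L v D c) = oD' L v D c := der_lc D _ c

theorem oD_eq (v : Fin r → ℂ) {D : Derivation ℚ ℂ ℂ} (h2 : D L.g₂ = 0) (h3 : D L.g₃ = 0)
    (c : Fin r → ℚ) : oD L v D c = om L D (lc v c) := by
  unfold oD
  rw [lc_apply, lc_apply, om_lin D h2 h3]
  exact sum_congr rfl (fun i _ => Rat.smul_def _ _)

theorem eD_eq (v l : Fin r → ℂ) {D : Derivation ℚ ℂ ℂ} (h2 : D L.g₂ = 0) (h3 : D L.g₃ = 0)
    (c : Fin r → ℚ) : eD L v l D c = et L D (lc v c) + D (lc l c) := by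
  unfold eD
  rw [der_lc, lc_apply, lc_apply, lc_apply, et_lin D h2 h3, ← sum_add_distrib]
  refine sum_congr rfl (fun i _ => ?_)
  rw [smul_add, Rat.smul_def]

/-- the index set of the equations -/
abbrev Jd (F : IntermediateField ℚ ℂ) := (DF F) ⊕ (DF F × DF F)

/-- the equations -/
def HH (L : PeriodPair) (v l : Fin r → ℂ) (a : Jd F) (y x : Fin r → ℚ) :
    (Fin r → ℚ) →ₗ[ℚ] ℂ :=
  match a with
  | Sum.inl D => HP L.g₂ L.g₃ (eD L v l D) (oD L v D) (eD' L v l D) (oD' L v D) y x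
  | Sum.inr (D, D') => HQ (eD L v l D) (oD L v D) (eD L v l D') (oD L v D') y x

/-- the facts about a point at which `ζ` plus the additive function is algebraic -/
theorem point (h2 : L.g₂ ∈ F) (h3 : L.g₃ ∈ F) (v l : Fin r → ℂ) {c : Fin r → ℚ}
    (hl : lc v c ∉ L.lattice) (hna : ¬ IsAlgebraic F (℘[L] (lc v c)))
    (ha : IsAlgebraic F (zt L (lc v c) + lc l c)) :
    ∃ X Y : ℂ, Y ^ 2 = 4 * X ^ 3 - L.g₂ * X - L.g₃ ∧ Y ≠ 0 ∧ (∃ D ∈ DF F, D X ≠ 0) ∧
      ∀ D ∈ DF F, eD L v l D c = X * oD L v D c ∧ D X = Y * oD L v D c := by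
  set y := lc v c with hy
  have hcurve := L.derivWeierstrassP_sq y hl
  have hex : ∃ D ∈ DF F, D (℘[L] y) ≠ 0 := by
    by_contra hcon
    push Not at hcon
    exact hna (alg_of_killed hcon)
  have hY : ℘'[L] y ≠ 0 := by
    intro h0
    obtain ⟨D, hD, hne⟩ := hex
    rw [h0] at hcurve
    have h4 := congrArg D hcurve
    have e2 : D L.g₂ = 0 := hD _ h2
    have e3 : D L.g₃ = 0 := hD _ h3
    have e4 : D (4 * ℘[L] y ^ 3 - L.g₂ * ℘[L] y - L.g₃) =
        (12 * ℘[L] y ^ 2 - L.g₂) * D (℘[L] y) := by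
      have h5 : D (4 : ℂ) = 0 := by
        have := D.map_natCast 4
        exact_mod_cast this
      rw [map_sub, map_sub, Derivation.leibniz, Derivation.leibniz, Derivation.leibniz_pow, e2,
        e3, h5]
      simp only [smul_eq_mul, nsmul_eq_mul]
      push_cast
      ring
    rw [e4, zero_pow two_ne_zero, map_zero] at h4
    have h6 : 12 * ℘[L] y ^ 2 - L.g₂ = 0 := (mul_eq_zero.1 h4.symm).resolve_right hne
    have h7 := congrArg D h6
    have e5 : D (12 * ℘[L] y ^ 2 - L.g₂) = 24 * ℘[L] y * D (℘[L] y) := by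
      have h5 : D (12 : ℂ) = 0 := by
        have := D.map_natCast 12
        exact_mod_cast this
      rw [map_sub, Derivation.leibniz, Derivation.leibniz_pow, e2, h5]
      simp only [smul_eq_mul, nsmul_eq_mul]
      push_cast
      ring
    rw [e5, map_zero] at h7
    have h8 : ℘[L] y = 0 := by
      rcases mul_eq_zero.1 h7 with h9 | h9
      · rcases mul_eq_zero.1 h9 with h10 | h10
        · norm_num at h10
        · exact h10
      · exact absurd h9 hne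
    rw [h8, map_zero] at hne
    exact hne rfl
  refine ⟨℘[L] y, ℘'[L] y, hcurve, hY, hex, fun D hD => ?_⟩
  have e2 : D L.g₂ = 0 := hD _ h2
  have e3 : D L.g₃ = 0 := hD _ h3
  rw [oD_eq v e2 e3, eD_eq v l e2 e3, ← hy]
  constructor
  · have h4 : D (zt L y + lc l c) = 0 := killed_of_alg ha D hD
    rw [map_add] at h4
    unfold et
    linear_combination h4
  · unfold om
    rw [mul_div_cancel₀ _ hY]

theorem HH_zero (h2 : L.g₂ ∈ F) (h3 : L.g₃ ∈ F) (v l : Fin r → ℂ) (a : Jd F)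
    {y x : Fin r → ℚ}
    (hy : ∃ X Y : ℂ, Y ^ 2 = 4 * X ^ 3 - L.g₂ * X - L.g₃ ∧ Y ≠ 0 ∧ (∃ D ∈ DF F, D X ≠ 0) ∧
      ∀ D ∈ DF F, eD L v l D y = X * oD L v D y ∧ D X = Y * oD L v D y)
    (hx : ∃ X Y : ℂ, Y ^ 2 = 4 * X ^ 3 - L.g₂ * X - L.g₃ ∧ Y ≠ 0 ∧ (∃ D ∈ DF F, D X ≠ 0) ∧
      ∀ D ∈ DF F, eD L v l D x = X * oD L v D x ∧ D X = Y * oD L v D x) :
    HH L v l a y x (x - y) = 0 := by
  obtain ⟨X, Y, hc, -, -, hp⟩ := hy
  obtain ⟨X', Y', hc', -, -, hp'⟩ := hx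
  rcases a with D | ⟨D, D'⟩
  · change HP L.g₂ L.g₃ (eD L v l D) (oD L v D) (eD' L v l D) (oD' L v D) y x (x - y) = 0
    obtain ⟨h4, h5⟩ := hp D D.2
    obtain ⟨h4', h5'⟩ := hp' D D.2
    have h6 : eD' L v l D y = Y * oD L v D y * oD L v D y + X * oD' L v D y := by
      rw [← der_eD, h4, Derivation.leibniz, h5, der_oD, smul_eq_mul, smul_eq_mul]
      ring
    have h6' : eD' L v l D x = Y' * oD L v D x * oD L v D x + X' * oD' L v D x := by
      rw [← der_eD, h4', Derivation.leibniz, h5', der_oD, smul_eq_mul, smul_eq_mul]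
      ring
    rw [HP_apply]
    simp only [map_sub]
    rw [h4, h4', h6, h6']
    linear_combination (oD L v D x) ^ 6 * hc' - (oD L v D y) ^ 6 * hc
  · change HQ (eD L v l D) (oD L v D) (eD L v l D') (oD L v D') y x (x - y) = 0
    rw [HQ_apply]
    simp only [map_sub]
    rw [(hp D D.2).1, (hp D' D'.2).1, (hp' D D.2).1, (hp' D' D'.2).1]
    ring

theorem HH_tan (h2 : L.g₂ ∈ F) (h3 : L.g₃ ∈ F) (v l : Fin r → ℂ) {y z : Fin r → ℚ}
    (hy : ∃ X Y : ℂ, Y ^ 2 = 4 * X ^ 3 - L.g₂ * X - L.g₃ ∧ Y ≠ 0 ∧ (∃ D ∈ DF F, D X ≠ 0) ∧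
      ∀ D ∈ DF F, eD L v l D y = X * oD L v D y ∧ D X = Y * oD L v D y)
    (hz : ∀ a : Jd F, HH L v l a y y z = 0) : ∀ D ∈ DF F, om L D (lc v z) = 0 := by
  obtain ⟨X, Y, hc, hY, ⟨D₀, hD₀, hne⟩, hp⟩ := hy
  have ho₀ : oD L v D₀ y ≠ 0 := by
    intro h
    rw [(hp D₀ hD₀).2, h, mul_zero] at hne
    exact hne rfl
  -- the number `f`
  obtain ⟨f, hf⟩ : ∃ f : ℂ, eD L v l D₀ z = X * oD L v D₀ z + f * Y * oD L v D₀ y :=
    ⟨(eD L v l D₀ z - X * oD L v D₀ z) / (Y * oD L v D₀ y), by field_simp; ring⟩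
  have hall : ∀ D ∈ DF F, eD L v l D z = X * oD L v D z + f * Y * oD L v D y := by
    intro D hD
    have h4 := hz (Sum.inr (⟨D, hD⟩, ⟨D₀, hD₀⟩))
    change HQ (eD L v l D) (oD L v D) (eD L v l D₀) (oD L v D₀) y y z = 0 at h4
    rw [HQ_apply, (hp D hD).1, (hp D₀ hD₀).1, hf] at h4
    have h5 : oD L v D₀ y * (eD L v l D z - (X * oD L v D z + f * Y * oD L v D y)) = 0 := by
      linear_combination h4
    exact sub_eq_zero.1 ((mul_eq_zero.1 h5).resolve_left ho₀)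
  have hDY : ∀ D ∈ DF F, 2 * D Y = (12 * X ^ 2 - L.g₂) * oD L v D y := by
    intro D hD
    have h4 := congrArg D hc
    have e2 : D L.g₂ = 0 := hD _ h2
    have e3 : D L.g₃ = 0 := hD _ h3
    have h5 : D (4 : ℂ) = 0 := by
      have := D.map_natCast 4
      exact_mod_cast this
    rw [map_sub, map_sub, Derivation.leibniz, Derivation.leibniz, Derivation.leibniz_pow,
      Derivation.leibniz_pow, e2, e3, h5, (hp D hD).2] at h4
    simp only [smul_eq_mul, nsmul_eq_mul] at h4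
    push_cast at h4
    have h6 : Y * (2 * D Y - (12 * X ^ 2 - L.g₂) * oD L v D y) = 0 := by
      linear_combination h4
    exact sub_eq_zero.1 ((mul_eq_zero.1 h6).resolve_left hY)
  have hDf : ∀ D ∈ DF F, oD L v D y ≠ 0 → D f = oD L v D z := by
    intro D hD hne'
    have h4 := hz (Sum.inl ⟨D, hD⟩)
    change HP L.g₂ L.g₃ (eD L v l D) (oD L v D) (eD' L v l D) (oD' L v D) y y z = 0 at h4
    rw [HP_apply] at h4
    have h6 : eD' L v l D y = Y * oD L v D y * oD L v D y + X * oD' L v D y := by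
      rw [← der_eD, (hp D hD).1, Derivation.leibniz, (hp D hD).2, der_oD, smul_eq_mul, smul_eq_mul]
      ring
    have h7 : eD' L v l D z = Y * oD L v D y * oD L v D z + X * oD' L v D z +
        (D f * Y * oD L v D y + f * D Y * oD L v D y + f * Y * oD' L v D y) := by
      rw [← der_eD, hall D hD, map_add, Derivation.leibniz, Derivation.leibniz,
        Derivation.leibniz, (hp D hD).2, der_oD, der_oD]
      simp only [smul_eq_mul]
      ring
    rw [h6, h7, (hp D hD).1, hall D hD] at h4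
    have h8 := hDY D hD
    have h9 : 2 * Y ^ 2 * (oD L v D y) ^ 5 * (D f - oD L v D z) = 0 := by
      linear_combination h4 - f * Y * (oD L v D y) ^ 5 * h8 -
        6 * (oD L v D y) ^ 5 * oD L v D z * hc
    have h10 : 2 * Y ^ 2 * (oD L v D y) ^ 5 ≠ 0 :=
      mul_ne_zero (mul_ne_zero two_ne_zero (pow_ne_zero _ hY)) (pow_ne_zero _ hne')
    exact sub_eq_zero.1 ((mul_eq_zero.1 h9).resolve_left h10)
  have hDf' : ∀ D ∈ DF F, D f = om L D (lc v z) := by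
    intro D hD
    rw [← oD_eq v (hD _ h2) (hD _ h3)]
    by_cases h0 : oD L v D y = 0
    · have h4 : D + D₀ ∈ DF F := (DF F).add_mem hD hD₀
      have h5 : ∀ w, oD L v (D + D₀) w = oD L v D w + oD L v D₀ w := by
        intro w
        rw [oD_eq v (h4 _ h2) (h4 _ h3), oD_eq v (hD _ h2) (hD _ h3), oD_eq v (hD₀ _ h2) (hD₀ _ h3),
          om_add_der]
      have h6 := hDf (D + D₀) h4 (by rw [h5, h0, zero_add]; exact ho₀)
      rw [h5, Derivation.add_apply, hDf D₀ hD₀ ho₀] at h6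
      exact add_right_cancel h6
    · exact hDf D hD h0
  exact om_exact h2 h3 _ f hDf'

/-- **The finiteness theorem**, for vectors. -/
theorem main (h2 : L.g₂ ∈ F) (h3 : L.g₃ ∈ F) (v l : Fin r → ℂ)
    (hV : ∀ z : Fin r → ℚ, z ≠ 0 → lc v z ∉ L.lattice ∧ ¬ IsAlgebraic F (℘[L] (lc v z)))
    (S : Finset (Fin r → ℚ)) (hS : ∀ c ∈ S, c ≠ 0 ∧ IsAlgebraic F (zt L (lc v c) + lc l c)) :
    S.card ≤ (6 * r).choose r := by
  classical
  have hpt := fun c (hc : c ∈ S) => point h2 h3 v l (hV c (hS c hc).1).1 (hV c (hS c hc).1).2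
    (hS c hc).2
  have h := count (d := 5) (HH (F := F) L v l) (by
    rintro (D | ⟨D, D'⟩) y z
    · exact HP_poly _ _ _ _ _ _ y z
    · exact HQ_poly _ _ _ _ y z) S
    (fun a y hy x hx => HH_zero h2 h3 v l a (hpt y hy) (hpt x hx))
    (fun y hy z hz => by
      by_contra hz0
      obtain ⟨h4, h5⟩ := hV z hz0
      apply h5
      have h6 := HH_tan h2 h3 v l (hpt y hy) hz
      exact alg_of_killed (fun D hD => (wp_killed (hD _ h2) (hD _ h3) (h6 D hD) h4).1))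
  have h7 : r + r * 5 = 6 * r := by omega
  rwa [h7] at h

end main

end Pool.Agent.TH813.ZtFin
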