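import Mathlib
import Pool.Agent.TH813.DQ
import Pool.Agent.TH813.ZtFin

/-!
# Solutions of systems `P_i(z) e^(z_i) = Q_i(z)` in rational spaces
-/

set_option autoImplicit false

open Finset Module

noncomputable section

namespace Pool.Agent.TH813.ExpSys

open Pool.Agent.W252 Pool.Agent.W669.Gel
open Pool.Agent.TH813.Core (dlog_eq_zero)
open Pool.Agent.TH813.DQ Pool.Agent.TH813.ZtFin
open Pool.Agent.TH813.Rel (DF)

variable {F : IntermediateField ℚ ℂ} {r n : ℕ}

/-- the coordinates -/
abbrev I (n r : ℕ) := Fin n × Fin r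

/-- the numbers `z_j` -/
def mu (v : Fin r → ℂ) (j : Fin n) : (I n r → ℚ) →ₗ[ℚ] ℂ :=
  lc v ∘ₗ LinearMap.funLeft ℚ ℚ (fun l => (j, l))

theorem mu_apply (v : Fin r → ℂ) (j : Fin n) (x : I n r → ℚ) :
    mu v j x = lc v (fun l => x (j, l)) := rfl

/-- the derivatives of the numbers `z_j` -/
def de (v : Fin r → ℂ) (D : Derivation ℚ ℂ ℂ) (j : Fin n) : (I n r → ℚ) →ₗ[ℚ] ℂ :=
  D.toLinearMap ∘ₗ mu v j

/-- the logarithmic derivatives of the numbers `e^(z_j)` -/
def el (v : Fin r → ℂ) (D : Derivation ℚ ℂ ℂ) (j : Fin n) : (I n r → ℚ) →ₗ[ℚ] ℂ :=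
  dl D ∘ₗ mu v j

theorem de_apply (v : Fin r → ℂ) (D : Derivation ℚ ℂ ℂ) (j : Fin n) (x : I n r → ℚ) :
    de v D j x = D (mu v j x) := rfl

theorem el_apply (v : Fin r → ℂ) (D : Derivation ℚ ℂ ℂ) (j : Fin n) (x : I n r → ℚ) :
    el v D j x = dlog D (mu v j x) := rfl

/-- a derivation on the value of a polynomial -/
theorem der_ev (v : Fin r → ℂ) {D : Derivation ℚ ℂ ℂ} (hD : D ∈ DF F)
    (P : MvPolynomial (Fin n) F) (x : I n r → ℚ) :
    D (ev (mu v) P x) = ∑ j, ev (mu v) (MvPolynomial.pderiv j P) x * D (mu v j x) := by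
  induction P using MvPolynomial.induction_on with
  | C a =>
    have h1 : ev (mu v) (MvPolynomial.C a) x = (a : ℂ) := MvPolynomial.aeval_C _ _
    rw [h1, hD _ a.2, eq_comm]
    refine sum_eq_zero (fun j _ => ?_)
    rw [MvPolynomial.pderiv_C]
    unfold ev
    rw [map_zero, zero_mul]
  | add p q hp hq =>
    rw [ev_add, map_add, hp, hq, ← sum_add_distrib]
    refine sum_congr rfl (fun j _ => ?_)
    rw [map_add, ev_add]
    ring
  | mul_X p i hp =>
    have h1 : ev (mu v) (MvPolynomial.X i : MvPolynomial (Fin n) F) x = mu v i x :=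
      MvPolynomial.aeval_X _ _
    rw [ev_mul, h1, Derivation.leibniz, hp, smul_eq_mul, smul_eq_mul]
    have h2 : ∑ j, ev (mu v) (MvPolynomial.pderiv j (p * MvPolynomial.X i)) x * D (mu v j x) =
        ∑ j, (ev (mu v) (MvPolynomial.pderiv j p) x * mu v i x * D (mu v j x) +
          ev (mu v) p x * (ev (mu v) (MvPolynomial.pderiv j
            (MvPolynomial.X i : MvPolynomial (Fin n) F)) x * D (mu v j x))) := by
      refine sum_congr rfl (fun j _ => ?_)
      rw [MvPolynomial.pderiv_mul, ev_add, ev_mul, ev_mul, h1]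
      ring
    rw [h2, sum_add_distrib, ← mul_sum]
    have h3 : ∑ j, ev (mu v) (MvPolynomial.pderiv j (MvPolynomial.X i : MvPolynomial (Fin n) F)) x *
        D (mu v j x) = D (mu v i x) := by
      rw [sum_eq_single i]
      · rw [MvPolynomial.pderiv_X_self]
        unfold ev
        rw [map_one, one_mul]
      · intro j _ hj
        rw [MvPolynomial.pderiv_X_of_ne hj.symm]
        unfold ev
        rw [map_zero, zero_mul]
      · intro h
        exact absurd (mem_univ i) h
    rw [h3, mul_sum]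
    have h4 : ∑ j, ev (mu v) (MvPolynomial.pderiv j p) x * mu v i x * D (mu v j x) =
        ∑ j, mu v i x * (ev (mu v) (MvPolynomial.pderiv j p) x * D (mu v j x)) :=
      sum_congr rfl (fun j _ => by ring)
    rw [h4]
    ring

/-- the coefficient of `D z_j` in the equation -/
def cf (P Q : Fin n → MvPolynomial (Fin n) F) (i j : Fin n) : MvPolynomial (Fin n) F :=
  P i * MvPolynomial.pderiv j (Q i) - Q i * MvPolynomial.pderiv j (P i)

/-- the equations -/
def eqn (v : Fin r → ℂ) (P Q : Fin n → MvPolynomial (Fin n) F) (D : Derivation ℚ ℂ ℂ) (i : Fin n)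
    (x : I n r → ℚ) : ℂ :=
  ev (mu v) (P i * Q i) x * el v D i x - ∑ j, ev (mu v) (cf P Q i j) x * de v D j x

/-- the derivatives of the equations -/
def eqn' (v : Fin r → ℂ) (P Q : Fin n → MvPolynomial (Fin n) F) (D : Derivation ℚ ℂ ℂ) (i : Fin n)
    (y z : I n r → ℚ) : ℂ :=
  (el v D i y * dv (mu v) (P i * Q i) y z + ev (mu v) (P i * Q i) y * el v D i z) -
    ∑ j, (de v D j y * dv (mu v) (cf P Q i j) y z + ev (mu v) (cf P Q i j) y * de v D j z)

theorem eqn_dq (v : Fin r → ℂ) {P Q : Fin n → MvPolynomial (Fin n) F} {a b : ℕ}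
    (hP : ∀ i, (P i).totalDegree ≤ a) (hQ : ∀ i, (Q i).totalDegree ≤ b)
    (D : Derivation ℚ ℂ ℂ) (i : Fin n) : IsDQ (a + b + 1) (eqn v P Q D i) (eqn' v P Q D i) := by
  refine IsDQ.sub ?_ (IsDQ.sum _ (fun j _ => ?_))
  · exact (dq_poly (mu v) ((MvPolynomial.totalDegree_mul _ _).trans
      (add_le_add (hP i) (hQ i)))).mul (IsDQ.lin (el v D i))
  · refine (dq_poly (mu v) ?_).mul (IsDQ.lin (de v D j))
    refine (MvPolynomial.totalDegree_sub _ _).trans (max_le ?_ ?_)
    · exact (MvPolynomial.totalDegree_mul _ _).trans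
        (add_le_add (hP i) ((totalDegree_pderiv j (Q i)).trans (hQ i)))
    · refine ((MvPolynomial.totalDegree_mul _ _).trans
        (add_le_add (hQ i) ((totalDegree_pderiv j (P i)).trans (hP i)))).trans ?_
      omega

/-- the solutions satisfy the equations -/
theorem eqn_zero (v : Fin r → ℂ) {P Q : Fin n → MvPolynomial (Fin n) F} {x : I n r → ℚ}
    {i : Fin n} (hP : ev (mu v) (P i) x ≠ 0) (hQ : ev (mu v) (Q i) x ≠ 0)
    (h : IsAlgebraic F (ev (mu v) (P i) x * Complex.exp (mu v i x) / ev (mu v) (Q i) x))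
    {D : Derivation ℚ ℂ ℂ} (hD : D ∈ DF F) : eqn v P Q D i x = 0 := by
  have hq := der_ev v hD (Q i) x
  have hp := der_ev v hD (P i) x
  have he := Complex.exp_ne_zero (mu v i x)
  have h1 : D (Complex.exp (mu v i x)) = Complex.exp (mu v i x) * el v D i x := by
    rw [el_apply]
    unfold dlog
    field_simp
  have h0 := killed_of_alg h D hD
  rw [Derivation.leibniz_div, Derivation.leibniz, h1] at h0
  simp only [smul_eq_mul] at h0
  unfold eqn
  have h3 : ∑ j, ev (mu v) (cf P Q i j) x * de v D j x =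
      ev (mu v) (P i) x * D (ev (mu v) (Q i) x) - ev (mu v) (Q i) x * D (ev (mu v) (P i) x) := by
    rw [hq, hp, mul_sum, mul_sum, ← sum_sub_distrib]
    refine sum_congr rfl (fun j _ => ?_)
    unfold cf
    rw [sub_eq_add_neg, ev_add, ev_mul, de_apply]
    have h4 : ev (mu v) (-(Q i * MvPolynomial.pderiv j (P i))) x =
        -(ev (mu v) (Q i) x * ev (mu v) (MvPolynomial.pderiv j (P i)) x) := by
      rw [← ev_mul]
      exact map_neg _ _
    rw [h4]
    ring
  rw [h3, ev_mul]
  set A := ev (mu v) (P i) x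
  set B := ev (mu v) (Q i) x
  set E := Complex.exp (mu v i x)
  have h5 : E * (A * B * el v D i x - (A * D B - B * D A)) = 0 := by
    have h6 : B⁻¹ ^ 2 * (B * (A * (E * el v D i x) + E * D A) - A * E * D B) = 0 := h0
    have h7 := (mul_eq_zero.1 h6).resolve_left (pow_ne_zero 2 (inv_ne_zero hQ))
    linear_combination h7
  exact (mul_eq_zero.1 h5).resolve_left he

/-- a derivation on the derivative of a polynomial -/
theorem der_dv (v : Fin r → ℂ) {D : Derivation ℚ ℂ ℂ} (hD : D ∈ DF F)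
    (P : MvPolynomial (Fin n) F) (y z : I n r → ℚ) :
    D (dv (mu v) P y z) = ∑ j, D (mu v j y) * dv (mu v) (MvPolynomial.pderiv j P) y z +
      ∑ j, ev (mu v) (MvPolynomial.pderiv j P) y * D (mu v j z) := by
  have h1 : ∑ j, D (mu v j y) * dv (mu v) (MvPolynomial.pderiv j P) y z =
      ∑ j, ∑ k, mu v j z * (ev (mu v) (MvPolynomial.pderiv k (MvPolynomial.pderiv j P)) y *
        D (mu v k y)) := by
    unfold dv
    simp_rw [mul_sum]
    rw [sum_comm]
    refine sum_congr rfl (fun j _ => sum_congr rfl (fun k _ => ?_))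
    rw [pderiv_comm]
    ring
  rw [h1, ← sum_add_distrib]
  conv_lhs => unfold dv
  rw [map_sum]
  refine sum_congr rfl (fun j _ => ?_)
  rw [Derivation.leibniz, der_ev v hD, smul_eq_mul, smul_eq_mul, ← mul_sum]
  ring

/-- the tangent vectors -/
theorem tangent (v : Fin r → ℂ) {P Q : Fin n → MvPolynomial (Fin n) F} {y z : I n r → ℚ}
    {i : Fin n} (hP : ev (mu v) (P i) y ≠ 0) (hB0 : ev (mu v) (Q i) y ≠ 0)
    (h : IsAlgebraic F (ev (mu v) (P i) y * Complex.exp (mu v i y) / ev (mu v) (Q i) y))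
    (hz : ∀ D ∈ DF F, eqn' v P Q D i y z = 0) : ∀ D ∈ DF F, dlog D (mu v i z) = 0 := by
  have hsol := fun D (hD : D ∈ DF F) => eqn_zero v (P := P) (Q := Q) hP hB0 h hD
  set A := ev (mu v) (P i) y with hA
  set B := ev (mu v) (Q i) y with hB
  set Pz := dv (mu v) (P i) y z with hPz
  set Qz := dv (mu v) (Q i) y z with hQz
  have key : ∀ D ∈ DF F, D (Qz / B - Pz / A) = dlog D (mu v i z) := by
    intro D hD
    have h1 := hz D hD
    have h2 := hsol D hD
    have hQD := der_ev v hD (Q i) y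
    have hPD := der_ev v hD (P i) y
    have hQz' := der_dv v hD (Q i) y z
    have hPz' := der_dv v hD (P i) y z
    rw [← hQz] at hQz'
    rw [← hPz] at hPz'
    rw [← hB] at hQD
    rw [← hA] at hPD
    -- names
    set QD := D B with hQDn
    set PD := D A with hPDn
    set S₁ := ∑ j, D (mu v j y) * dv (mu v) (MvPolynomial.pderiv j (Q i)) y z with hS₁
    set S₂ := ∑ j, D (mu v j y) * dv (mu v) (MvPolynomial.pderiv j (P i)) y z with hS₂
    set T₁ := ∑ j, ev (mu v) (MvPolynomial.pderiv j (Q i)) y * D (mu v j z) with hT₁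
    set T₂ := ∑ j, ev (mu v) (MvPolynomial.pderiv j (P i)) y * D (mu v j z) with hT₂
    have hcf : ∀ (j : Fin n) (w : I n r → ℚ), ev (mu v) (cf P Q i j) w =
        ev (mu v) (P i) w * ev (mu v) (MvPolynomial.pderiv j (Q i)) w -
        ev (mu v) (Q i) w * ev (mu v) (MvPolynomial.pderiv j (P i)) w := by
      intro j w
      unfold cf
      rw [← ev_mul, ← ev_mul]
      exact map_sub _ _ _
    have hcf' : ∀ j : Fin n, dv (mu v) (cf P Q i j) y z =
        (ev (mu v) (MvPolynomial.pderiv j (Q i)) y * Pz +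
          A * dv (mu v) (MvPolynomial.pderiv j (Q i)) y z) -
        (ev (mu v) (MvPolynomial.pderiv j (P i)) y * Qz +
          B * dv (mu v) (MvPolynomial.pderiv j (P i)) y z) := by
      intro j
      rw [hPz, hQz, hA, hB, ← dv_mul, ← dv_mul]
      unfold cf
      unfold dv
      rw [← sum_sub_distrib]
      refine sum_congr rfl (fun k _ => ?_)
      rw [map_sub, ← sub_mul]
      congr 1
      exact map_sub _ _ _
    have h3 : el v D i y * (A * B) = A * QD - B * PD := by
      unfold eqn at h2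
      rw [ev_mul] at h2
      have h4 : ∑ j, ev (mu v) (cf P Q i j) y * de v D j y = A * QD - B * PD := by
        rw [hQD, hPD, mul_sum, mul_sum, ← sum_sub_distrib]
        refine sum_congr rfl (fun j _ => ?_)
        rw [hcf, de_apply]
        ring
      rw [h4] at h2
      linear_combination h2
    have h5 : A * B * dlog D (mu v i z) = (QD * Pz + A * S₁ - PD * Qz - B * S₂) +
        (A * T₁ - B * T₂) - el v D i y * (B * Pz + A * Qz) := by
      unfold eqn' at h1
      rw [ev_mul, dv_mul, el_apply v D i z] at h1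
      have h6 : ∑ j, (de v D j y * dv (mu v) (cf P Q i j) y z +
          ev (mu v) (cf P Q i j) y * de v D j z) = (QD * Pz + A * S₁ - PD * Qz - B * S₂) +
          (A * T₁ - B * T₂) := by
        rw [hQD, hPD, hS₁, hS₂, hT₁, hT₂]
        simp only [mul_sum, sum_mul]
        rw [← sum_add_distrib, ← sum_sub_distrib, ← sum_sub_distrib, ← sum_sub_distrib,
          ← sum_add_distrib]
        refine sum_congr rfl (fun j _ => ?_)
        rw [hcf, hcf', de_apply, de_apply]
        ring
      rw [h6] at h1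
      linear_combination h1
    have h7 : D (Qz / B - Pz / A) = (S₁ + T₁) / B - Qz * QD / B ^ 2 - (S₂ + T₂) / A +
        Pz * PD / A ^ 2 := by
      rw [map_sub, Derivation.leibniz_div, Derivation.leibniz_div, hQz', hPz']
      simp only [smul_eq_mul]
      field_simp
      ring
    have h8 : el v D i y = (A * QD - B * PD) / (A * B) := by
      rw [← h3]
      field_simp
    rw [h8] at h5
    rw [h7]
    have h9 : dlog D (mu v i z) = (A * B)⁻¹ * ((QD * Pz + A * S₁ - PD * Qz - B * S₂) +
        (A * T₁ - B * T₂) - (A * QD - B * PD) / (A * B) * (B * Pz + A * Qz)) := by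
      rw [← h5]
      field_simp
    rw [h9]
    field_simp
    ring
  have h1 := Pool.Agent.TH813.Ros.exact F (n := 1) (fun _ => 1)
    (fun _ => Complex.exp (mu v i z)) (fun _ => one_mem _) (fun _ => Complex.exp_ne_zero _)
    (Qz / B - Pz / A) (fun D hD => by
      rw [key D hD]
      unfold dlog
      simp)
  intro D hD
  rw [← key D hD]
  exact h1 D hD

/-- **The count of the solutions.** -/
theorem main (v : Fin r → ℂ) (hV : ∀ c : Fin r → ℚ, c ≠ 0 → ¬ IsAlgebraic F (Complex.exp (lc v c)))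
    (P Q : Fin n → MvPolynomial (Fin n) F) {a b : ℕ} (hP : ∀ i, (P i).totalDegree ≤ a)
    (hQ : ∀ i, (Q i).totalDegree ≤ b) (S : Finset (I n r → ℚ))
    (hS : ∀ x ∈ S, ∀ i, ev (mu v) (P i) x ≠ 0 ∧ ev (mu v) (Q i) x ≠ 0 ∧
      IsAlgebraic F (ev (mu v) (P i) x * Complex.exp (mu v i x) / ev (mu v) (Q i) x)) :
    S.card ≤ ((a + b + 1) * (n * r)).choose (n * r) := by
  classical
  have hdq : ∀ p : DF F × Fin n, IsDQ (a + b + 1) (eqn v P Q p.1 p.2) (eqn' v P Q p.1 p.2) :=
    fun p => eqn_dq v hP hQ p.1 p.2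
  have hdq' := fun p => (hdq p).2
  choose H h1 h2 h3 h4 using hdq'
  have key := CountF.count (K := ℚ) (A := ℂ) (ι := I n r) (d := a + b) H
    (fun p y z => h1 p y z) S (fun p y hy x hx => by
      rw [← h3, eqn_zero v (hS x hx p.2).1 (hS x hx p.2).2.1 (hS x hx p.2).2.2 p.1.2,
        eqn_zero v (hS y hy p.2).1 (hS y hy p.2).2.1 (hS y hy p.2).2.2 p.1.2, sub_zero])
    (fun y hy z hz => by
      funext ⟨i, l⟩
      have h5 := tangent v (hS y hy i).1 (hS y hy i).2.1 (hS y hy i).2.2 (z := z)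
        (fun D hD => by rw [← h4 (⟨D, hD⟩, i)]; exact hz (⟨D, hD⟩, i))
      have h6 : (fun l => z (i, l)) = 0 := by
        by_contra hne
        apply hV _ hne
        refine alg_of_killed (fun D hD => ?_)
        exact dlog_eq_zero.1 (h5 D hD)
      exact congrFun h6 l)
  rw [Fintype.card_prod, Fintype.card_fin, Fintype.card_fin] at key
  have e : n * r + n * r * (a + b) = (a + b + 1) * (n * r) := by ring
  rwa [e] at key

end Pool.Agent.TH813.ExpSys
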