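import Mathlib
import Pool.Agent.TH813.DQ
import Pool.Agent.TH813.ZtFin

/-!
# Points of a rational space on curves in the `(z, dlog e^z / dz)`-plane
-/

set_option autoImplicit false

open Finset Module

noncomputable section

namespace Pool.Agent.TH813.Curve

open Pool.Agent.W252 Pool.Agent.W669.Gel
open Pool.Agent.TH813.Core (dlog_eq_zero)
open Pool.Agent.TH813.DQ Pool.Agent.TH813.ZtFin Pool.Agent.TH813.CountF
open Pool.Agent.TH813.Rel (DF)
open Polynomial (aeval derivative)

section dq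

variable {K : Type} [Field K] {A : Type} [Field A] [Algebra K A] {ι : Type} [Fintype ι]

omit [Fintype ι] in
theorem dq_pow {m : ℕ} {p : (ι → K) → A} {p' : (ι → K) → (ι → K) → A} (hp : IsDQ m p p') (n : ℕ) :
    IsDQ (n * m) (fun x => p x ^ n) (fun y z => n * p y ^ (n - 1) * p' y z) := by
  induction n with
  | zero =>
    refine (IsDQ.const (0 * m) (1 : A)).congr (fun x => pow_zero _) (fun y z => ?_)
    rw [Nat.cast_zero, zero_mul, zero_mul]
  | succ n ih =>
    rw [Nat.succ_mul]
    refine (ih.mul hp).congr (fun x => pow_succ _ _) (fun y z => ?_)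
    rcases Nat.eq_zero_or_pos n with h | h
    · subst h
      simp
    · obtain ⟨k, rfl⟩ := Nat.exists_eq_succ_of_ne_zero h.ne'
      simp only [Nat.succ_eq_add_one, Nat.add_sub_cancel, pow_succ]
      push_cast
      ring

theorem dq_uni {B : Type} [Field B] [Algebra B A] (μ : (ι → K) →ₗ[K] A) {q : Polynomial B} {m : ℕ}
    (hq : q.natDegree ≤ m) :
    IsDQ m (fun x => aeval (μ x) q) (fun y z => aeval (μ y) (derivative q) * μ z) := by
  have h1 : ∀ x : A, aeval x q = ∑ i ∈ range (m + 1), algebraMap B A (q.coeff i) * x ^ i := by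
    intro x
    rw [Polynomial.aeval_eq_sum_range' (Nat.lt_succ_of_le hq)]
    exact sum_congr rfl (fun i _ => Algebra.smul_def _ _)
  have h2 : ∀ x : A, aeval x (derivative q) =
      ∑ i ∈ range (m + 1), algebraMap B A (q.coeff i) * (i * x ^ (i - 1)) := by
    intro x
    conv_lhs => rw [Polynomial.as_sum_range' q (m + 1) (Nat.lt_succ_of_le hq)]
    rw [map_sum, map_sum]
    refine sum_congr rfl (fun i _ => ?_)
    rw [Polynomial.derivative_monomial, Polynomial.aeval_monomial, map_mul, map_natCast]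
    ring
  have h3 := IsDQ.sum (K := K) (A := A) (ι := ι) (range (m + 1)) (m := m)
    (p := fun i x => algebraMap B A (q.coeff i) * (μ x) ^ i)
    (p' := fun i y z => algebraMap B A (q.coeff i) * (i * (μ y) ^ (i - 1) * μ z))
    (fun i hi => ((dq_pow (IsDQ.lin μ) i).mono (by
      rw [mul_one]
      exact Nat.lt_succ_iff.1 (mem_range.1 hi))).smul _)
  refine h3.congr (fun x => h1 _) (fun y z => ?_)
  rw [h2, sum_mul]
  exact sum_congr rfl (fun i _ => by ring)

end dq

variable {F : IntermediateField ℚ ℂ}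

theorem der_aeval {D : Derivation ℚ ℂ ℂ} (hD : D ∈ DF F) (q : Polynomial F) (z : ℂ) :
    D (aeval z q) = aeval z (derivative q) * D z := by
  induction q using Polynomial.induction_on' with
  | add p q hp hq => rw [map_add, map_add, hp, hq, map_add, map_add, add_mul]
  | monomial n a =>
    rw [Polynomial.aeval_monomial, Derivation.leibniz, Polynomial.derivative_monomial,
      Polynomial.aeval_monomial, Derivation.leibniz_pow]
    have h1 : D (algebraMap F ℂ a) = 0 := hD _ a.2
    rw [h1, map_mul, map_natCast]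
    simp only [smul_eq_mul, nsmul_eq_mul]
    ring

/-- the derivative of the equation -/
def G' (q : ℕ → Polynomial F) (t : ℕ) (D : Derivation ℚ ℂ ℂ) (z τ : ℂ) : ℂ :=
  ∑ j ∈ range (t + 1), ((dlog D z ^ j * D z ^ (t - j)) * (aeval z (derivative (q j)) * τ) +
    aeval z (q j) * (D z ^ (t - j) * (j * dlog D z ^ (j - 1) * dlog D τ) +
      dlog D z ^ j * ((t - j : ℕ) * D z ^ (t - j - 1) * D τ)))

theorem G'_eq {q : ℕ → Polynomial F} {t : ℕ} {z h τ : ℂ} {D : Derivation ℚ ℂ ℂ} (hD : D ∈ DF F)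
    (hω : dlog D z = h * D z) (h0 : ∑ j ∈ range (t + 1), aeval z (q j) * h ^ j = 0) :
    D z * G' q t D z τ = D z ^ t * (∑ j ∈ range (t + 1), aeval z (q j) * (j * h ^ (j - 1))) *
      (dlog D τ - D (h * τ)) := by
  have hE2 : ∑ j ∈ range (t + 1), (aeval z (derivative (q j)) * D z * h ^ j +
      aeval z (q j) * (j * h ^ (j - 1)) * D h) = 0 := by
    have h1 := congrArg D h0
    rw [map_sum, map_zero] at h1
    rw [← h1]
    refine sum_congr rfl (fun j _ => ?_)
    rw [Derivation.leibniz, der_aeval hD, Derivation.leibniz_pow]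
    simp only [smul_eq_mul, nsmul_eq_mul]
    ring
  rw [sum_add_distrib, ← sum_mul] at hE2
  have hterm : ∀ j ∈ range (t + 1), D z * ((dlog D z ^ j * D z ^ (t - j)) *
      (aeval z (derivative (q j)) * τ) +
      aeval z (q j) * (D z ^ (t - j) * (j * dlog D z ^ (j - 1) * dlog D τ) +
        dlog D z ^ j * ((t - j : ℕ) * D z ^ (t - j - 1) * D τ))) =
      D z ^ t * (τ * (aeval z (derivative (q j)) * D z * h ^ j) +
        dlog D τ * (aeval z (q j) * (j * h ^ (j - 1))) +
        D τ * (t * (aeval z (q j) * h ^ j) - h * (aeval z (q j) * (j * h ^ (j - 1))))) := by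
    intro j hj
    have hjt : j ≤ t := Nat.lt_succ_iff.1 (mem_range.1 hj)
    rw [hω]
    obtain ⟨k, rfl⟩ := Nat.exists_eq_add_of_le hjt
    rw [Nat.add_sub_cancel_left]
    have e1 : (h * D z) ^ j * D z ^ k = h ^ j * D z ^ (j + k) := by
      rw [mul_pow, mul_assoc, ← pow_add]
    have e2 : D z * (D z ^ k * (j * (h * D z) ^ (j - 1))) = j * h ^ (j - 1) * D z ^ (j + k) := by
      rcases Nat.eq_zero_or_pos j with h5 | h5
      · subst h5
        simp
      · obtain ⟨i, rfl⟩ := Nat.exists_eq_succ_of_ne_zero h5.ne'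
        rw [Nat.succ_sub_one, mul_pow]
        have : D z ^ (i.succ + k) = D z * D z ^ k * D z ^ i := by
          rw [Nat.succ_add, pow_succ, pow_add]
          ring
        rw [this]
        ring
    have e3 : D z * ((h * D z) ^ j * (k * D z ^ (k - 1))) = k * h ^ j * D z ^ (j + k) := by
      rcases Nat.eq_zero_or_pos k with h5 | h5
      · subst h5
        simp
      · obtain ⟨i, rfl⟩ := Nat.exists_eq_succ_of_ne_zero h5.ne'
        rw [Nat.succ_sub_one, mul_pow]
        have : D z ^ (j + i.succ) = D z * D z ^ i * D z ^ j := by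
          rw [Nat.add_succ, pow_succ, pow_add]
          ring
        rw [this]
        ring
    have e4 : (j : ℂ) * h ^ j = h * (j * h ^ (j - 1)) := by
      rcases Nat.eq_zero_or_pos j with h5 | h5
      · subst h5
        simp
      · obtain ⟨i, rfl⟩ := Nat.exists_eq_succ_of_ne_zero h5.ne'
        rw [Nat.succ_sub_one, pow_succ]
        ring
    push_cast
    linear_combination (D z * aeval z (derivative (q j)) * τ) * e1 +
      (aeval z (q j) * dlog D τ) * e2 + (aeval z (q j) * D τ) * e3 -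
      (D z ^ (j + k) * D τ * aeval z (q j)) * e4
  unfold G'
  rw [mul_sum, sum_congr rfl hterm, ← mul_sum, sum_add_distrib, sum_add_distrib, ← mul_sum,
    ← mul_sum, ← mul_sum, sum_sub_distrib, ← mul_sum, ← mul_sum, h0, Derivation.leibniz]
  simp only [smul_eq_mul]
  linear_combination (D z ^ t * τ) * hE2

theorem dlog_add (D D' : Derivation ℚ ℂ ℂ) (z : ℂ) : dlog (D + D') z = dlog D z + dlog D' z := by
  unfold dlog
  rw [Derivation.add_apply, add_div]

/-- the tangent vectors are logarithms -/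
theorem tangent {q : ℕ → Polynomial F} {t : ℕ} {z h τ : ℂ} (hz : ¬ IsAlgebraic F z)
    (hω : ∀ D ∈ DF F, dlog D z = h * D z)
    (h0 : ∑ j ∈ range (t + 1), aeval z (q j) * h ^ j = 0)
    (h1 : ∑ j ∈ range (t + 1), aeval z (q j) * (j * h ^ (j - 1)) ≠ 0)
    (hτ : ∀ D ∈ DF F, G' q t D z τ = 0) : IsAlgebraic F (Complex.exp τ) := by
  have key1 : ∀ D ∈ DF F, D z ≠ 0 → D (h * τ) = dlog D τ := by
    intro D hD hDz
    have h2 := G'_eq hD (hω D hD) h0 (τ := τ)
    rw [hτ D hD, mul_zero, eq_comm] at h2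
    have h3 := (mul_eq_zero.1 h2).resolve_left (mul_ne_zero (pow_ne_zero _ hDz) h1)
    exact (sub_eq_zero.1 h3).symm
  obtain ⟨D₁, hD₁, hD₁z⟩ : ∃ D ∈ DF F, D z ≠ 0 := by
    by_contra hcon
    push Not at hcon
    exact hz (alg_of_killed hcon)
  have key : ∀ D ∈ DF F, D (h * τ) = dlog D τ := by
    intro D hD
    by_cases hDz : D z = 0
    · have h2 := key1 (D + D₁) (Submodule.add_mem _ hD hD₁) (by
        rw [Derivation.add_apply, hDz, zero_add]
        exact hD₁z)
      have h3 := key1 D₁ hD₁ hD₁z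
      rw [Derivation.add_apply, dlog_add, h3] at h2
      exact add_right_cancel h2
    · exact key1 D hD hDz
  have h1 := Pool.Agent.TH813.Ros.exact F (n := 1) (fun _ => 1)
    (fun _ => Complex.exp τ) (fun _ => one_mem _) (fun _ => Complex.exp_ne_zero _)
    (h * τ) (fun D hD => by
      rw [key D hD]
      unfold dlog
      simp)
  refine alg_of_killed (fun D hD => ?_)
  apply dlog_eq_zero.1
  rw [← key D hD]
  exact h1 D hD

/-- the equation -/
def G (q : ℕ → Polynomial F) (t : ℕ) (D : Derivation ℚ ℂ ℂ) (z : ℂ) : ℂ :=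
  ∑ j ∈ range (t + 1), aeval z (q j) * (dlog D z ^ j * D z ^ (t - j))

theorem G_dq {r : ℕ} (v : Fin r → ℂ) {q : ℕ → Polynomial F} {A : ℕ} (hq : ∀ j, (q j).natDegree ≤ A)
    (t : ℕ) (D : Derivation ℚ ℂ ℂ) :
    IsDQ (A + t) (fun x => G q t D (lc v x)) (fun y z => G' q t D (lc v y) (lc v z)) := by
  refine IsDQ.sum _ (fun j hj => ?_)
  have hjt : j ≤ t := Nat.lt_succ_iff.1 (mem_range.1 hj)
  have h1 := dq_uni (K := ℚ) (lc v) (hq j)
  have h2 := (dq_pow (IsDQ.lin (dl D ∘ₗ lc v)) j).mul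
    (dq_pow (IsDQ.lin (D.toLinearMap ∘ₗ lc v)) (t - j))
  exact ((h1.mul h2).mono (by omega)).congr (fun x => rfl) (fun y z => rfl)

/-- the equation is satisfied -/
theorem G_zero {q : ℕ → Polynomial F} {t : ℕ} {z h : ℂ} {D : Derivation ℚ ℂ ℂ}
    (hω : dlog D z = h * D z) (h0 : ∑ j ∈ range (t + 1), aeval z (q j) * h ^ j = 0) :
    G q t D z = 0 := by
  unfold G
  have h1 : ∀ j ∈ range (t + 1), aeval z (q j) * (dlog D z ^ j * D z ^ (t - j)) =
      D z ^ t * (aeval z (q j) * h ^ j) := by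
    intro j hj
    have hjt : j ≤ t := Nat.lt_succ_iff.1 (mem_range.1 hj)
    obtain ⟨k, rfl⟩ := Nat.exists_eq_add_of_le hjt
    rw [Nat.add_sub_cancel_left, hω, mul_pow, pow_add]
    ring
  rw [sum_congr rfl h1, ← mul_sum, h0, mul_zero]

/-- **The count.** -/
theorem count_q {r : ℕ} (v : Fin r → ℂ)
    (hV : ∀ c : Fin r → ℚ, c ≠ 0 → ¬ IsAlgebraic F (Complex.exp (lc v c)))
    {q : ℕ → Polynomial F} {A t : ℕ} (hAt : 0 < A + t) (hq : ∀ j, (q j).natDegree ≤ A)
    (S : Finset (Fin r → ℚ))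
    (hS : ∀ x ∈ S, ¬ IsAlgebraic F (lc v x) ∧ ∃ h : ℂ, (∀ D ∈ DF F, dlog D (lc v x) = h * D (lc v x)) ∧
      ∑ j ∈ range (t + 1), aeval (lc v x) (q j) * h ^ j = 0 ∧
      ∑ j ∈ range (t + 1), aeval (lc v x) (q j) * (j * h ^ (j - 1)) ≠ 0) :
    S.card ≤ ((A + t) * r).choose r := by
  classical
  have hdq : ∀ D : DF F, IsDQ (A + t) (fun x => G q t D (lc v x))
      (fun y z => G' q t D (lc v y) (lc v z)) := fun D => G_dq v hq t D
  have hdq' := fun D => (hdq D).2
  choose H h1 h2 h3 h4 using hdq'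
  have key := CountF.count (K := ℚ) (A := ℂ) (ι := Fin r) (d := A + t - 1) H
    (fun D y z => h1 D y z) S (fun D y hy x hx => by
      obtain ⟨_, h, ha, hb, _⟩ := hS x hx
      obtain ⟨_, h', ha', hb', _⟩ := hS y hy
      have h5 : G q t D (lc v x) - G q t D (lc v y) = H D y x (x - y) := h3 D x y
      rw [← h5, G_zero (ha D D.2) hb, G_zero (ha' D D.2) hb', sub_zero])
    (fun y hy z hz => by
      obtain ⟨hy0, h, ha, hb, hc⟩ := hS y hy
      by_contra hne
      apply hV _ hne
      exact tangent hy0 ha hb hc (fun D hD => by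
        have h5 : H ⟨D, hD⟩ y y z = G' q t D (lc v y) (lc v z) := h4 ⟨D, hD⟩ y z
        rw [← h5]
        exact hz ⟨D, hD⟩))
  rw [Fintype.card_fin] at key
  have e : r + r * (A + t - 1) = (A + t) * r := by
    obtain ⟨k, hk⟩ := Nat.exists_eq_succ_of_ne_zero hAt.ne'
    rw [hk]
    simp only [Nat.succ_eq_add_one, Nat.add_sub_cancel]
    ring
  rwa [e] at key

end Pool.Agent.TH813.Curve
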