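import Mathlib
import Pool.Agent.TH813.Curve1

/-!
# The elimination of `e^z` from `P(z, e^z) = 0`
-/

set_option autoImplicit false

open Finset Module

noncomputable section

namespace Pool.Agent.TH813.Curve

open Polynomial

/-! ## degrees -/

section bd

variable {k : Type} [Field k]

/-- degree at most `t`, coefficients of degree at most `A` -/
def Bd (A t : ℕ) (q : Polynomial (Polynomial k)) : Prop :=
  q.natDegree ≤ t ∧ ∀ j, (q.coeff j).natDegree ≤ A

theorem Bd.mono {A t A' t' : ℕ} {q : Polynomial (Polynomial k)} (h : Bd A t q) (hA : A ≤ A')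
    (ht : t ≤ t') : Bd A' t' q := ⟨h.1.trans ht, fun j => (h.2 j).trans hA⟩

theorem Bd.zero (A t : ℕ) : Bd A t (0 : Polynomial (Polynomial k)) :=
  ⟨by simp, fun j => by simp⟩

theorem Bd.one (A t : ℕ) : Bd A t (1 : Polynomial (Polynomial k)) :=
  ⟨by simp, fun j => by
    rw [coeff_one]
    split_ifs <;> simp⟩

theorem Bd.add {A t : ℕ} {p q : Polynomial (Polynomial k)} (hp : Bd A t p) (hq : Bd A t q) :
    Bd A t (p + q) :=
  ⟨natDegree_add_le_of_degree_le hp.1 hq.1, fun j => by
    rw [coeff_add]
    exact natDegree_add_le_of_degree_le (hp.2 j) (hq.2 j)⟩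

theorem Bd.sum {κ : Type*} (s : Finset κ) {A t : ℕ} {p : κ → Polynomial (Polynomial k)}
    (hp : ∀ i ∈ s, Bd A t (p i)) : Bd A t (∑ i ∈ s, p i) := by
  classical
  induction s using Finset.induction_on with
  | empty =>
    rw [sum_empty]
    exact Bd.zero _ _
  | insert i s hi ih =>
    rw [sum_insert hi]
    exact (hp i (mem_insert_self _ _)).add (ih (fun j hj => hp j (mem_insert_of_mem hj)))

theorem Bd.mul {A t A' t' : ℕ} {p q : Polynomial (Polynomial k)} (hp : Bd A t p) (hq : Bd A' t' q) :
    Bd (A + A') (t + t') (p * q) :=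
  ⟨natDegree_mul_le_of_le hp.1 hq.1, fun j => by
    rw [coeff_mul]
    exact natDegree_sum_le_of_forall_le _ _
      (fun x _ => natDegree_mul_le_of_le (hp.2 _) (hq.2 _))⟩

theorem Bd.prod {κ : Type*} (s : Finset κ) {A t : κ → ℕ} {p : κ → Polynomial (Polynomial k)}
    (hp : ∀ i ∈ s, Bd (A i) (t i) (p i)) : Bd (∑ i ∈ s, A i) (∑ i ∈ s, t i) (∏ i ∈ s, p i) := by
  classical
  induction s using Finset.induction_on with
  | empty =>
    rw [prod_empty]
    exact Bd.one _ _
  | insert i s hi ih =>
    rw [sum_insert hi, sum_insert hi, prod_insert hi]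
    exact (hp i (mem_insert_self _ _)).mul (ih (fun j hj => hp j (mem_insert_of_mem hj)))

theorem Bd.intCast_mul {A t : ℕ} (n : ℤ) {q : Polynomial (Polynomial k)} (h : Bd A t q) :
    Bd A t ((n : Polynomial (Polynomial k)) * q) := by
  have h1 : (n : Polynomial (Polynomial k)) = C (C (n : k)) := by simp
  have h2 : Bd 0 0 (C (C (n : k)) : Polynomial (Polynomial k)) :=
    ⟨by simp, fun j => by
      rw [coeff_C]
      split_ifs <;> simp⟩
  rw [h1]
  exact (h2.mul h).mono (by omega) (by omega)

theorem Bd.derivative {A t : ℕ} {q : Polynomial (Polynomial k)} (h : Bd A t q) :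
    Bd A t (Polynomial.derivative q) :=
  ⟨(natDegree_derivative_le q).trans ((Nat.sub_le _ _).trans h.1), fun j => by
    rw [coeff_derivative]
    refine (natDegree_mul_le_of_le (h.2 (j + 1)) (n := 0) ?_).trans (by omega)
    have h1 : ((j : Polynomial k) + 1) = C ((j : k) + 1) := by simp
    rw [h1]
    exact le_of_eq (natDegree_C _)⟩

theorem Bd.iterate {A t : ℕ} {q : Polynomial (Polynomial k)} (h : Bd A t q) (n : ℕ) :
    Bd A t (Polynomial.derivative^[n] q) := by
  induction n with
  | zero => exact h
  | succ n ih =>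
    rw [Function.iterate_succ_apply']
    exact ih.derivative

/-- degrees of resultants -/
theorem Bd.resultant {f g : Polynomial (Polynomial (Polynomial k))} {a : ℕ} (m n : ℕ)
    (hf : ∀ i, Bd a 0 (f.coeff i)) (hg : ∀ i, Bd a 1 (g.coeff i)) :
    Bd ((m + n) * a) m (Polynomial.resultant f g m n) := by
  classical
  unfold Polynomial.resultant
  rw [Matrix.det_apply']
  refine Bd.sum _ (fun σ _ => ?_)
  refine Bd.intCast_mul _ ?_
  have h1 := Bd.prod (k := k) (univ : Finset (Fin (m + n))) (A := fun _ => a)
    (t := fun i => Fin.addCases (fun _ : Fin m => 1) (fun _ : Fin n => 0) i)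
    (p := fun i => sylvester f g m n (σ i) i) (by
      intro i _
      induction i using Fin.addCases with
      | left i =>
        simp only [sylvester, Matrix.of_apply, Fin.addCases_left]
        split_ifs
        · exact hg _
        · exact Bd.zero _ _
      | right i =>
        simp only [sylvester, Matrix.of_apply, Fin.addCases_right]
        split_ifs
        · exact hf _
        · exact Bd.zero _ _)
  refine h1.mono ?_ ?_
  · simp
  · rw [Fin.sum_univ_add]
    simp

end bd

/-! ## the polynomial for the logarithmic derivative -/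

section elim

variable {k : Type} [Field k] (P : Polynomial (Polynomial k))

/-- the derivative with respect to the inner variable -/
def dX : Polynomial (Polynomial k) :=
  ∑ i ∈ range (P.natDegree + 1), monomial i (Polynomial.derivative (P.coeff i))

theorem dX_coeff (i : ℕ) : (dX P).coeff i = Polynomial.derivative (P.coeff i) := by
  unfold dX
  rw [finsetSum_coeff]
  simp only [coeff_monomial]
  rw [Finset.sum_ite_eq']
  split_ifs with h
  · rfl
  · rw [coeff_eq_zero_of_natDegree_lt (by
      by_contra hcon
      exact h (mem_range.2 (by omega))), map_zero]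

/-- the second polynomial -/
def Sd : Polynomial (Polynomial (Polynomial k)) :=
  C (X : Polynomial (Polynomial k)) * (X * Polynomial.derivative (P.map C)) + (dX P).map C

/-- the resultant -/
def R1 : Polynomial (Polynomial k) :=
  Polynomial.resultant (P.map C) (Sd P) P.natDegree P.natDegree

theorem R1_bd {a : ℕ} (ha : ∀ i, (P.coeff i).natDegree ≤ a) :
    Bd (2 * P.natDegree * a) P.natDegree (R1 P) := by
  have hC : ∀ q : Polynomial k, q.natDegree ≤ a → Bd a 0 (C q) := by
    intro q hq
    refine ⟨by simp, fun j => ?_⟩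
    rw [coeff_C]
    split_ifs
    · exact hq
    · simp
  have h := Bd.resultant (f := P.map C) (g := Sd P) (a := a) P.natDegree P.natDegree
    (fun i => by
      rw [coeff_map]
      exact hC _ (ha i))
    (fun i => by
      unfold Sd
      rw [coeff_add, coeff_C_mul, coeff_map, dX_coeff]
      refine Bd.add ?_ ((hC _ ((natDegree_derivative_le _).trans ((Nat.sub_le _ _).trans
        (ha i)))).mono le_rfl (by omega))
      have hX : Bd 0 1 (X : Polynomial (Polynomial k)) := by
        refine ⟨natDegree_X_le, fun j => ?_⟩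
        rw [coeff_X]
        split_ifs <;> simp
      have h2 : Bd a 0 ((X * Polynomial.derivative (P.map C) :
          Polynomial (Polynomial (Polynomial k))).coeff i) := by
        rcases i with _ | i
        · rw [mul_coeff_zero, coeff_X_zero, zero_mul]
          exact Bd.zero _ _
        · rw [coeff_X_mul, coeff_derivative, coeff_map]
          have h3 : (C (P.coeff (i + 1)) * ((i : Polynomial (Polynomial k)) + 1)) =
              C (P.coeff (i + 1) * C ((i : k) + 1)) := by simp
          rw [h3]
          refine hC _ ?_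
          refine (natDegree_mul_le_of_le (ha (i + 1)) (le_of_eq (natDegree_C _))).trans (by omega)
      exact (hX.mul h2).mono (by omega) (by omega))
  rw [two_mul]
  exact h

variable {E : Type} [Field E] (φ : Polynomial k →+* E)

/-- the specialised second polynomial -/
def Sp (T : E) : Polynomial E :=
  C T * (X * Polynomial.derivative (P.map φ)) + (dX P).map φ

theorem Sp_natDegree (T : E) : (Sp P φ T).natDegree ≤ P.natDegree := by
  have h1 : (dX P).natDegree ≤ P.natDegree := by
    rw [natDegree_le_iff_coeff_eq_zero]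
    intro N hN
    rw [dX_coeff, coeff_eq_zero_of_natDegree_lt hN, map_zero]
  unfold Sp
  refine natDegree_add_le_of_degree_le ?_ (natDegree_map_le.trans h1)
  refine (natDegree_C_mul_le _ _).trans ?_
  rcases Nat.eq_zero_or_pos P.natDegree with h0 | h0
  · have h2 : (P.map φ).natDegree = 0 := Nat.le_zero.1 (natDegree_map_le.trans h0.le)
    rw [derivative_of_natDegree_zero h2]
    simp
  · refine (natDegree_mul_le_of_le natDegree_X_le
      ((natDegree_derivative_le _).trans (Nat.sub_le_sub_right natDegree_map_le 1))).trans ?_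
    omega

theorem spec (T : E) : eval₂ φ T (R1 P) =
    Polynomial.resultant (P.map φ) (Sp P φ T) P.natDegree P.natDegree := by
  have h1 : (eval₂RingHom φ T).comp C = φ := by
    ext x
    · simp
    · simp
  have h2 := resultant_map_map (P.map C) (Sd P) P.natDegree P.natDegree (eval₂RingHom φ T)
  rw [Polynomial.map_map, h1] at h2
  have h3 : (Sd P).map (eval₂RingHom φ T) = Sp P φ T := by
    unfold Sd Sp
    rw [Polynomial.map_add, Polynomial.map_mul, Polynomial.map_mul, map_C, map_X,
      Polynomial.map_map, h1, ← derivative_map, Polynomial.map_map, h1]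
    simp
  rw [h3] at h2
  exact h2.symm

/-- the resultant vanishes if there is a common root -/
theorem spec_zero (hP : 0 < P.natDegree) {T w : E} (h1 : (P.map φ).eval w = 0)
    (h2 : T * (w * (Polynomial.derivative (P.map φ)).eval w) + ((dX P).map φ).eval w = 0) :
    eval₂ φ T (R1 P) = 0 := by
  rw [spec]
  obtain ⟨p, q, _, _, h⟩ := exists_mul_add_mul_eq_C_resultant (P.map φ) (Sp P φ T)
    (m := P.natDegree) (n := P.natDegree) natDegree_map_le (Sp_natDegree P φ T) (Or.inl hP.ne')
  have h3 := congrArg (eval w) h
  rw [eval_add, eval_mul, eval_mul, eval_C, h1] at h3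
  have h4 : (Sp P φ T).eval w = 0 := by
    unfold Sp
    rw [eval_add, eval_mul, eval_mul, eval_C, eval_X]
    exact h2
  rw [h4, zero_mul, zero_mul, add_zero] at h3
  exact h3.symm

/-- the resultant is not zero for some `T` -/
theorem spec_ne [IsAlgClosed E] [CharZero E] (hφ : Function.Injective φ)
    (h : ∀ α : E, (P.map φ).eval α = 0 → α * (Polynomial.derivative (P.map φ)).eval α ≠ 0) :
    ∃ T : E, eval₂ φ T (R1 P) ≠ 0 := by
  classical
  have hdeg : (P.map φ).natDegree = P.natDegree := natDegree_map_eq_of_injective hφ P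
  have hP0 : P.map φ ≠ 0 := by
    intro h0
    have h1 := h 0 (by rw [h0, eval_zero])
    rw [zero_mul] at h1
    exact h1 rfl
  obtain ⟨T, hT⟩ := Infinite.exists_notMem_finset ((P.map φ).roots.toFinset.image (fun α =>
    -((dX P).map φ).eval α / (α * (Polynomial.derivative (P.map φ)).eval α)))
  refine ⟨T, ?_⟩
  rw [spec, ← hdeg, resultant_eq_prod_eval _ _ _ (by rw [hdeg]; exact Sp_natDegree P φ T)
    (IsAlgClosed.splits _)]
  refine mul_ne_zero (pow_ne_zero _ (leadingCoeff_ne_zero.2 hP0)) ?_
  intro h0
  rw [Multiset.prod_eq_zero_iff, Multiset.mem_map] at h0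
  obtain ⟨α, hα, h1⟩ := h0
  apply hT
  rw [Finset.mem_image]
  refine ⟨α, Multiset.mem_toFinset.2 hα, ?_⟩
  have h2 := h α (isRoot_of_mem_roots hα)
  unfold Sp at h1
  rw [eval_add, eval_mul, eval_mul, eval_C, eval_X] at h1
  rw [div_eq_iff h2]
  linear_combination -h1

end elim

end Pool.Agent.TH813.Curve
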