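import Mathlib
import Pool.Agent.TH813.Curve2

/-!
# The polynomial relation between `z` and the logarithmic derivative, uniformly in the solutions
-/

set_option autoImplicit false

open Finset Module

noncomputable section

namespace Pool.Agent.TH813.Curve

open Polynomial

section fld

variable {k : Type} [Field k] {P : Polynomial (Polynomial k)}

theorem irr_map (hP : Irreducible P) (h0 : 0 < P.natDegree) :
    Irreducible (P.map (algebraMap (Polynomial k) (FractionRing (Polynomial k)))) :=
  ((Irreducible.isPrimitive hP h0.ne').irreducible_iff_irreducible_map_fraction_map).1 hP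

variable {E : Type} [Field E]

theorem map_lift {φ : Polynomial k →+* E} (hφ : Function.Injective φ) :
    (P.map (algebraMap (Polynomial k) (FractionRing (Polynomial k)))).map
      (IsFractionRing.lift hφ : FractionRing (Polynomial k) →+* E) = P.map φ := by
  rw [Polynomial.map_map]
  congr 1
  ext x
  · simp
  · simp

/-- roots are simple -/
theorem simple_root [CharZero k] (hP : Irreducible P) (h0 : 0 < P.natDegree)
    {φ : Polynomial k →+* E} (hφ : Function.Injective φ) {α : E} (hα : (P.map φ).eval α = 0) :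
    (Polynomial.derivative (P.map φ)).eval α ≠ 0 := by
  have h1 := (irr_map hP h0).separable
  rw [← map_lift hφ, ← eval₂_eq_eval_map] at hα
  have h2 := h1.eval₂_derivative_ne_zero _ hα
  rw [eval₂_eq_eval_map, ← derivative_map, map_lift hφ] at h2
  exact h2

/-- zero is not a root -/
theorem root_ne_zero (hP : Irreducible P) {φ φ' : Polynomial k →+* E} (hφ : Function.Injective φ)
    {w : E} (hw0 : w ≠ 0) (hw : (P.map φ').eval w = 0) {α : E} (hα : (P.map φ).eval α = 0) :
    α ≠ 0 := by
  rintro rfl
  have h1 : φ (P.coeff 0) = 0 := by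
    rw [← coeff_zero_eq_eval_zero, coeff_map] at hα
    exact hα
  have h2 : P.coeff 0 = 0 := hφ (by rw [h1, map_zero])
  obtain ⟨Q, hQ⟩ := X_dvd_iff.2 h2
  rcases hP.isUnit_or_isUnit hQ with h3 | h3
  · exact not_isUnit_X h3
  · have h4 : IsUnit ((Q.map φ').eval w) := by
      have h5 : IsUnit ((Polynomial.evalRingHom w).comp (Polynomial.mapRingHom φ') Q) := h3.map _
      exact h5
    rw [hQ, Polynomial.map_mul, eval_mul, map_X, eval_X] at hw
    exact mul_ne_zero hw0 h4.ne_zero hw

/-- the field generated by a generic point of the curve -/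
abbrev Lf (P : Polynomial (Polynomial k)) : Type :=
  AdjoinRoot (P.map (algebraMap (Polynomial k) (FractionRing (Polynomial k))))

/-- the embedding of the polynomials in the inner variable -/
def iL (P : Polynomial (Polynomial k)) : Polynomial k →+* Lf P :=
  (AdjoinRoot.of _).comp (algebraMap (Polynomial k) (FractionRing (Polynomial k)))

theorem exists_rho {φ : Polynomial k →+* E} (hφ : Function.Injective φ) {w : E}
    (hw : (P.map φ).eval w = 0) :
    ∃ ρ : Lf P →+* E, ρ.comp (iL P) = φ ∧ ρ (AdjoinRoot.root _) = w := by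
  have h1 : (P.map (algebraMap (Polynomial k) (FractionRing (Polynomial k)))).eval₂
      (IsFractionRing.lift hφ : FractionRing (Polynomial k) →+* E) w = 0 := by
    rw [eval₂_eq_eval_map, map_lift hφ]
    exact hw
  refine ⟨AdjoinRoot.lift _ w h1, ?_, AdjoinRoot.lift_root h1⟩
  ext x
  · simp [iL]
  · simp [iL]

theorem root_eval : (P.map (iL P)).eval (AdjoinRoot.root _ : Lf P) = 0 := by
  have h1 := AdjoinRoot.eval₂_root
    (P.map (algebraMap (Polynomial k) (FractionRing (Polynomial k))))
  rw [eval₂_eq_eval_map, Polynomial.map_map] at h1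
  exact h1

end fld

/-- **The polynomial relation.** -/
theorem exists_Q {k : Type} [Field k] [CharZero k] {E : Type} [Field E] [IsAlgClosed E] [CharZero E]
    {P : Polynomial (Polynomial k)} (hP : Irreducible P) (h0 : 0 < P.natDegree) {a : ℕ}
    (ha : ∀ i, (P.coeff i).natDegree ≤ a) {φ₀ : Polynomial k →+* E} (hφ₀ : Function.Injective φ₀)
    {w₀ : E} (hw₀ : w₀ ≠ 0) (hPw₀ : (P.map φ₀).eval w₀ = 0) :
    ∃ Q : Polynomial (Polynomial k), Bd (2 * P.natDegree * a) P.natDegree Q ∧
      ∀ φ : Polynomial k →+* E, Function.Injective φ → ∀ w, (P.map φ).eval w = 0 → ∀ h : E,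
        h * (w * (Polynomial.derivative (P.map φ)).eval w) + ((dX P).map φ).eval w = 0 →
        eval₂ φ h Q = 0 ∧ eval₂ φ h (Polynomial.derivative Q) ≠ 0 := by
  classical
  have : Fact (Irreducible (P.map (algebraMap (Polynomial k) (FractionRing (Polynomial k))))) :=
    ⟨irr_map hP h0⟩
  obtain ⟨ρ₀, hρ₀, hρ₀w⟩ := exists_rho hφ₀ hPw₀
  have hmul : ∀ (φ : Polynomial k →+* E) (w : E), Function.Injective φ → (P.map φ).eval w = 0 →
      w * (Polynomial.derivative (P.map φ)).eval w ≠ 0 := fun φ w hφ hw =>
    mul_ne_zero (root_ne_zero hP hφ hw₀ hPw₀ hw) (simple_root hP h0 hφ hw)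
  set y : Lf P := AdjoinRoot.root _ with hy
  -- images
  have him : ∀ (φ : Polynomial k →+* E) (w : E) (ρ : Lf P →+* E), ρ.comp (iL P) = φ → ρ y = w →
      ∀ R : Polynomial (Polynomial k), ρ ((R.map (iL P)).eval y) = (R.map φ).eval w := by
    intro φ w ρ h1 h2 R
    rw [← eval₂_eq_eval_map, hom_eval₂, h1, h2, eval₂_eq_eval_map]
  have hder : ∀ (φ : Polynomial k →+* E) (w : E) (ρ : Lf P →+* E), ρ.comp (iL P) = φ → ρ y = w →
      ρ ((Polynomial.derivative (P.map (iL P))).eval y) =
        (Polynomial.derivative (P.map φ)).eval w := by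
    intro φ w ρ h1 h2
    rw [derivative_map, derivative_map]
    exact him φ w ρ h1 h2 _
  have hyP : y * (Polynomial.derivative (P.map (iL P))).eval y ≠ 0 := by
    intro h1
    have h2 := congrArg ρ₀ h1
    rw [map_mul, map_zero, hder φ₀ w₀ ρ₀ hρ₀ hρ₀w, hρ₀w] at h2
    exact hmul φ₀ w₀ hφ₀ hPw₀ h2
  set hL : Lf P := -((dX P).map (iL P)).eval y /
    (y * (Polynomial.derivative (P.map (iL P))).eval y) with hhL
  have hLeq : hL * (y * (Polynomial.derivative (P.map (iL P))).eval y) +
      ((dX P).map (iL P)).eval y = 0 := by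
    rw [hhL, div_mul_cancel₀ _ hyP, neg_add_cancel]
  have hR0 : eval₂ (iL P) hL (R1 P) = 0 := spec_zero P (iL P) h0 root_eval hLeq
  have hRne : (R1 P).map (iL P) ≠ 0 := by
    obtain ⟨T, hT⟩ := spec_ne P φ₀ hφ₀ (fun α hα => hmul φ₀ α hφ₀ hα)
    intro h1
    apply hT
    have h2 : (R1 P).map φ₀ = 0 := by
      rw [← hρ₀, ← Polynomial.map_map, h1, Polynomial.map_zero]
    rw [eval₂_eq_eval_map, h2, eval_zero]
  have : CharZero (Lf P) := by
    constructor
    intro m n hmn
    have h1 := congrArg ρ₀ hmn
    rw [map_natCast, map_natCast] at h1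
    exact Nat.cast_injective h1
  set m := ((R1 P).map (iL P)).rootMultiplicity hL with hm
  have hroot : ((R1 P).map (iL P)).IsRoot hL := by
    rw [IsRoot, ← eval₂_eq_eval_map]
    exact hR0
  have hmpos : 0 < m := (rootMultiplicity_pos hRne).2 hroot
  have h1 : (Polynomial.derivative^[m - 1] ((R1 P).map (iL P))).IsRoot hL :=
    isRoot_iterate_derivative_of_lt_rootMultiplicity (by omega)
  have h2 : ¬ (Polynomial.derivative^[m] ((R1 P).map (iL P))).IsRoot hL := by
    intro h3
    have h4 : m < ((R1 P).map (iL P)).rootMultiplicity hL := by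
      rw [lt_rootMultiplicity_iff_isRoot_iterate_derivative hRne]
      intro j hj
      rcases Nat.lt_or_ge j m with h5 | h5
      · exact isRoot_iterate_derivative_of_lt_rootMultiplicity h5
      · have h6 : j = m := le_antisymm hj h5
        rw [h6]
        exact h3
    exact lt_irrefl _ h4
  rw [iterate_derivative_map] at h1 h2
  refine ⟨Polynomial.derivative^[m - 1] (R1 P), (R1_bd P ha).iterate _, fun φ hφ w hw h hh => ?_⟩
  obtain ⟨ρ, hρ, hρw⟩ := exists_rho hφ hw
  have hρh : ρ hL = h := by
    have h3 := congrArg ρ hLeq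
    rw [map_add, map_mul, map_mul, map_zero, hder φ w ρ hρ hρw, him φ w ρ hρ hρw, hρw] at h3
    have h4 := hmul φ w hφ hw
    have h5 : (ρ hL - h) * (w * (Polynomial.derivative (P.map φ)).eval w) = 0 := by
      linear_combination h3 - hh
    exact sub_eq_zero.1 ((mul_eq_zero.1 h5).resolve_right h4)
  have hev : ∀ R : Polynomial (Polynomial k), eval₂ φ h R = ρ ((R.map (iL P)).eval hL) := by
    intro R
    rw [← eval₂_eq_eval_map, hom_eval₂, hρ, hρh]
  constructor
  · rw [hev, h1, map_zero]
  · rw [hev]
    have h3 : Polynomial.derivative (Polynomial.derivative^[m - 1] (R1 P)) =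
        Polynomial.derivative^[m] (R1 P) := by
      rw [← Function.iterate_succ_apply' (f := ⇑Polynomial.derivative)]
      congr 2
      omega
    rw [h3]
    intro h4
    apply h2
    rw [IsRoot]
    exact ρ.injective (by rw [h4, map_zero])

end Pool.Agent.TH813.Curve
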