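import Mathlib
import Pool.Agent.TH813.Curve3

/-!
# The count of the solutions of `P(z, e^z) = 0` in a rational space
-/

set_option autoImplicit false

open Finset Module

noncomputable section

namespace Pool.Agent.TH813.Curve

open Polynomial
open Pool.Agent.W252 Pool.Agent.W669.Gel
open Pool.Agent.TH813.ZtFin
open Pool.Agent.TH813.Rel (DF)

variable {F : IntermediateField ℚ ℂ}

/-- evaluation of the inner variable -/
def ph (F : IntermediateField ℚ ℂ) (z : ℂ) : Polynomial F →+* ℂ :=
  ((aeval z : Polynomial F →ₐ[F] ℂ) : Polynomial F →+* ℂ)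

theorem ph_apply (z : ℂ) (q : Polynomial F) : ph F z q = aeval z q := rfl

theorem ph_inj {z : ℂ} (hz : ¬ IsAlgebraic F z) : Function.Injective (ph F z) :=
  transcendental_iff_injective.1 hz

theorem eval_sum (R : Polynomial (Polynomial F)) {n : ℕ} (hn : R.natDegree ≤ n) (z w : ℂ) :
    (R.map (ph F z)).eval w = ∑ i ∈ range (n + 1), aeval z (R.coeff i) * w ^ i := by
  rw [← eval₂_eq_eval_map, eval₂_eq_sum_range' _ (Nat.lt_succ_of_le hn)]
  rfl

theorem eval_der_sum (R : Polynomial (Polynomial F)) {n : ℕ} (hn : R.natDegree ≤ n) (z w : ℂ) :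
    (Polynomial.derivative (R.map (ph F z))).eval w =
      ∑ i ∈ range (n + 1), aeval z (R.coeff i) * (i * w ^ (i - 1)) := by
  conv_lhs => rw [Polynomial.as_sum_range' R (n + 1) (Nat.lt_succ_of_le hn)]
  rw [Polynomial.map_sum, map_sum, eval_finsetSum]
  refine sum_congr rfl (fun i _ => ?_)
  rw [map_monomial, derivative_monomial, eval_monomial, ph_apply]
  ring

/-- the derivative of the equation -/
theorem der_eq {P : Polynomial (Polynomial F)} {z c : ℂ} (hc : IsAlgebraic F c)
    (h : (P.map (ph F z)).eval (c * Complex.exp z) = 0) {D : Derivation ℚ ℂ ℂ} (hD : D ∈ DF F) :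
    ((dX P).map (ph F z)).eval (c * Complex.exp z) * D z +
      (c * Complex.exp z * (Polynomial.derivative (P.map (ph F z))).eval (c * Complex.exp z)) *
        dlog D z = 0 := by
  have h1 : (dX P).natDegree ≤ P.natDegree := by
    rw [natDegree_le_iff_coeff_eq_zero]
    intro N hN
    rw [dX_coeff, coeff_eq_zero_of_natDegree_lt hN, map_zero]
  have he : D (c * Complex.exp z) = c * Complex.exp z * dlog D z := by
    unfold dlog
    rw [Derivation.leibniz, killed_of_alg hc D hD, smul_zero, add_zero, smul_eq_mul, mul_assoc,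
      mul_div_cancel₀ _ (Complex.exp_ne_zero z)]
  rw [eval_sum P le_rfl] at h
  have h2 := congrArg D h
  rw [map_sum, map_zero] at h2
  rw [eval_sum _ h1, eval_der_sum P le_rfl, ← h2, mul_sum, sum_mul, sum_mul, ← sum_add_distrib]
  refine sum_congr rfl (fun i _ => ?_)
  rw [dX_coeff, Derivation.leibniz, der_aeval hD, Derivation.leibniz_pow, he]
  simp only [smul_eq_mul, nsmul_eq_mul]
  ring

/-- the case of an irreducible polynomial -/
theorem main_irr {r : ℕ} (v : Fin r → ℂ)
    (hV : ∀ c : Fin r → ℚ, c ≠ 0 → ¬ IsAlgebraic F (Complex.exp (lc v c)))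
    {P : Polynomial (Polynomial F)} (hP : Irreducible P) {a : ℕ}
    (ha : ∀ i, (P.coeff i).natDegree ≤ a) (S : Finset (Fin r → ℚ))
    (hS : ∀ x ∈ S, ¬ IsAlgebraic F (lc v x) ∧ ∃ c : ℂ, c ≠ 0 ∧ IsAlgebraic F c ∧
      (P.map (ph F (lc v x))).eval (c * Complex.exp (lc v x)) = 0) :
    S.card ≤ ((2 * a + 1) * P.natDegree * r).choose r := by
  classical
  rcases S.eq_empty_or_nonempty with h | ⟨x₀, hx₀⟩
  · rw [h, card_empty]
    exact Nat.zero_le _
  obtain ⟨hz₀, c₀, hc₀, _, hPz₀⟩ := hS x₀ hx₀
  rcases Nat.eq_zero_or_pos P.natDegree with h0 | h0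
  · exfalso
    rw [eq_C_of_natDegree_eq_zero h0, map_C, eval_C] at hPz₀
    have h1 : P.coeff 0 = 0 := ph_inj hz₀ (by rw [hPz₀, map_zero])
    apply hP.ne_zero
    rw [eq_C_of_natDegree_eq_zero h0, h1, map_zero]
  obtain ⟨Q, hQ, hQ'⟩ := exists_Q (E := ℂ) hP h0 ha (ph_inj hz₀)
    (mul_ne_zero hc₀ (Complex.exp_ne_zero _)) hPz₀
  have key := count_q v hV (q := fun j => Q.coeff j) (A := 2 * P.natDegree * a)
    (t := P.natDegree) (by omega) (fun j => hQ.2 j) S (fun x hx => by
      obtain ⟨hz, c, hc0, hc, hPz⟩ := hS x hx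
      refine ⟨hz, ?_⟩
      set z := lc v x with hzdef
      have hinj := ph_inj hz
      have hw := mul_ne_zero (mul_ne_zero hc0 (Complex.exp_ne_zero z))
        (simple_root hP h0 hinj hPz)
      set h : ℂ := -((dX P).map (ph F z)).eval (c * Complex.exp z) /
        (c * Complex.exp z * (Polynomial.derivative (P.map (ph F z))).eval (c * Complex.exp z))
        with hh
      have h1 : h * (c * Complex.exp z * (Polynomial.derivative (P.map (ph F z))).eval
          (c * Complex.exp z)) + ((dX P).map (ph F z)).eval (c * Complex.exp z) = 0 := by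
        rw [hh, div_mul_cancel₀ _ hw, neg_add_cancel]
      obtain ⟨h2, h3⟩ := hQ' (ph F z) hinj _ hPz h h1
      refine ⟨h, fun D hD => ?_, ?_, ?_⟩
      · have h4 := der_eq hc hPz hD
        have h5 : (dlog D z - h * D z) * (c * Complex.exp z *
            (Polynomial.derivative (P.map (ph F z))).eval (c * Complex.exp z)) = 0 := by
          linear_combination h4 - D z * h1
        exact sub_eq_zero.1 ((mul_eq_zero.1 h5).resolve_right hw)
      · rw [eval₂_eq_eval_map, eval_sum Q hQ.1] at h2
        exact h2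
      · rw [eval₂_eq_eval_map, ← derivative_map, eval_der_sum Q hQ.1] at h3
        exact h3)
  have e : 2 * P.natDegree * a + P.natDegree = (2 * a + 1) * P.natDegree := by ring
  rwa [e] at key

/-- roots of polynomials with algebraic coefficients -/
theorem alg_of_root {z w : ℂ} (hz : IsAlgebraic F z) {P : Polynomial (Polynomial F)}
    (h0 : P.map (ph F z) ≠ 0) (h : (P.map (ph F z)).eval w = 0) : IsAlgebraic F w := by
  let z' : algebraicClosure F ℂ := ⟨z, mem_algebraicClosure_iff.2 hz⟩
  let φ' : Polynomial F →+* algebraicClosure F ℂ :=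
    ((aeval z' : Polynomial F →ₐ[F] algebraicClosure F ℂ) : Polynomial F →+* _)
  have h1 : (algebraMap (algebraicClosure F ℂ) ℂ).comp φ' = ph F z := by
    ext x
    · simp [φ', ph]
    · simp [φ', ph, z']
  have h2 : (P.map φ').map (algebraMap (algebraicClosure F ℂ) ℂ) = P.map (ph F z) := by
    rw [Polynomial.map_map, h1]
  have h3 : IsAlgebraic (algebraicClosure F ℂ) w := by
    refine ⟨P.map φ', ?_, ?_⟩
    · intro h4
      apply h0
      rw [← h2, h4, Polynomial.map_zero]
    · rw [aeval_def, eval₂_eq_eval_map, h2]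
      exact h
  exact h3.restrictScalars F

theorem coeff_swap (P : Polynomial (Polynomial F)) (i j : ℕ) :
    ((Bivariate.swap P).coeff j).coeff i = (P.coeff i).coeff j := by
  induction P using Polynomial.induction_on' with
  | add p q hp hq => rw [map_add, coeff_add, coeff_add, coeff_add, coeff_add, hp, hq]
  | monomial n p =>
    induction p using Polynomial.induction_on' with
    | add p q hp hq =>
      rw [map_add, map_add, coeff_add, coeff_add, coeff_add, coeff_add, hp, hq]
    | monomial m c =>
      rw [Bivariate.swap_monomial_monomial]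
      simp only [coeff_monomial]
      by_cases h1 : m = j <;> by_cases h2 : n = i <;> simp [h1, h2, coeff_monomial]

theorem coeff_le (P : Polynomial (Polynomial F)) (i : ℕ) :
    (P.coeff i).natDegree ≤ (Bivariate.swap P).natDegree := by
  rw [natDegree_le_iff_coeff_eq_zero]
  intro N hN
  rw [← coeff_swap, coeff_eq_zero_of_natDegree_lt hN, coeff_zero]

theorem swap_le {P : Polynomial (Polynomial F)} {a : ℕ} (ha : ∀ i, (P.coeff i).natDegree ≤ a) :
    (Bivariate.swap P).natDegree ≤ a := by
  rw [natDegree_le_iff_coeff_eq_zero]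
  intro N hN
  refine Polynomial.ext (fun i => ?_)
  rw [coeff_swap, coeff_zero]
  exact coeff_eq_zero_of_natDegree_lt ((ha i).trans_lt hN)

theorem choose_add_le (x y : ℕ) {r : ℕ} (hr : 0 < r) :
    x.choose r + y.choose r ≤ (x + y).choose r := by
  rw [Nat.add_choose_eq]
  have h1 : x.choose r + y.choose r = ∑ ij ∈ ({(r, 0), (0, r)} : Finset (ℕ × ℕ)),
      x.choose ij.1 * y.choose ij.2 := by
    rw [sum_pair (by
      intro h
      have := congrArg Prod.fst h
      simp only at this
      omega)]
    simp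
  rw [h1]
  refine sum_le_sum_of_subset (fun p hp => ?_)
  rw [mem_insert, mem_singleton] at hp
  rw [HasAntidiagonal.mem_antidiagonal]
  rcases hp with rfl | rfl <;> simp

/-- **The count of the solutions.** -/
theorem main {r : ℕ} (v : Fin r → ℂ)
    (hV : ∀ c : Fin r → ℚ, c ≠ 0 → ¬ IsAlgebraic F (Complex.exp (lc v c)))
    (P : Polynomial (Polynomial F)) (hP0 : P ≠ 0) (S : Finset (Fin r → ℚ))
    (hS : ∀ x ∈ S, ¬ IsAlgebraic F (lc v x) ∧ ∃ c : ℂ, c ≠ 0 ∧ IsAlgebraic F c ∧
      (P.map (ph F (lc v x))).eval (c * Complex.exp (lc v x)) = 0) :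
    S.card ≤ ((2 * (Bivariate.swap P).natDegree + 1) * P.natDegree * r).choose r := by
  classical
  rcases Nat.eq_zero_or_pos r with hr | hr
  · subst hr
    have h : S = ∅ := by
      rw [Finset.eq_empty_iff_forall_notMem]
      intro x hx
      apply (hS x hx).1
      have h1 : lc v x = 0 := by
        rw [lc_apply]
        simp
      rw [h1]
      exact isAlgebraic_zero
    rw [h, card_empty]
    exact Nat.zero_le _
  revert hP0 S
  induction P using WfDvdMonoid.induction_on_irreducible with
  | zero => exact fun h => absurd rfl h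
  | unit u hu =>
    intro _ S hS
    have h : S = ∅ := by
      rw [Finset.eq_empty_iff_forall_notMem]
      intro x hx
      obtain ⟨_, c, _, _, h6⟩ := hS x hx
      have h4 : IsUnit ((u.map (ph F (lc v x))).eval (c * Complex.exp (lc v x))) := by
        have h5 : IsUnit ((Polynomial.evalRingHom (c * Complex.exp (lc v x))).comp
          (Polynomial.mapRingHom (ph F (lc v x))) u) := hu.map _
        exact h5
      exact h4.ne_zero h6
    rw [h, card_empty]
    exact Nat.zero_le _
  | mul p i hp hi ih =>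
    intro _ S hS
    have h1 := main_irr v hV hi (a := (Bivariate.swap i).natDegree) (coeff_le i)
      (S.filter (fun x => ∃ c : ℂ, c ≠ 0 ∧ IsAlgebraic F c ∧
        (i.map (ph F (lc v x))).eval (c * Complex.exp (lc v x)) = 0))
      (fun x hx => ⟨(hS x (mem_filter.1 hx).1).1, (mem_filter.1 hx).2⟩)
    have h2 := ih hp
      (S.filter (fun x => ∃ c : ℂ, c ≠ 0 ∧ IsAlgebraic F c ∧
        (p.map (ph F (lc v x))).eval (c * Complex.exp (lc v x)) = 0))
      (fun x hx => ⟨(hS x (mem_filter.1 hx).1).1, (mem_filter.1 hx).2⟩)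
    have h3 : S.card ≤ (S.filter (fun x => ∃ c : ℂ, c ≠ 0 ∧ IsAlgebraic F c ∧
        (i.map (ph F (lc v x))).eval (c * Complex.exp (lc v x)) = 0)).card +
        (S.filter (fun x => ∃ c : ℂ, c ≠ 0 ∧ IsAlgebraic F c ∧
        (p.map (ph F (lc v x))).eval (c * Complex.exp (lc v x)) = 0)).card := by
      refine le_trans (card_le_card ?_) (card_union_le _ _)
      intro x hx
      obtain ⟨_, c, hc0, hc, h4⟩ := hS x hx
      rw [Polynomial.map_mul, eval_mul] at h4
      rw [mem_union, mem_filter, mem_filter]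
      rcases mul_eq_zero.1 h4 with h5 | h5
      · exact Or.inl ⟨hx, c, hc0, hc, h5⟩
      · exact Or.inr ⟨hx, c, hc0, hc, h5⟩
    have hi0 : Bivariate.swap i ≠ 0 := by
      rw [Ne, EmbeddingLike.map_eq_zero_iff]
      exact hi.ne_zero
    have hp0 : Bivariate.swap p ≠ 0 := by
      rw [Ne, EmbeddingLike.map_eq_zero_iff]
      exact hp
    rw [map_mul, natDegree_mul hi0 hp0, natDegree_mul hi.ne_zero hp]
    refine h3.trans ((add_le_add h1 h2).trans ((choose_add_le _ _ hr).trans
      (Nat.choose_le_choose _ ?_)))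
    set d := (Bivariate.swap i).natDegree
    set d' := (Bivariate.swap p).natDegree
    set e := i.natDegree
    set e' := p.natDegree
    have h6 : (2 * d + 1) * e + (2 * d' + 1) * e' ≤ (2 * (d + d') + 1) * (e + e') := by
      have : (2 * (d + d') + 1) * (e + e') = (2 * d + 1) * e + (2 * d' + 1) * e' +
          (2 * d * e' + 2 * d' * e) := by ring
      omega
    calc (2 * d + 1) * e * r + (2 * d' + 1) * e' * r
        = ((2 * d + 1) * e + (2 * d' + 1) * e') * r := by ring
      _ ≤ (2 * (d + d') + 1) * (e + e') * r := Nat.mul_le_mul_right r h6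

end Pool.Agent.TH813.Curve
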