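import Mathlib
import Pool.Agent.TH813.DQ
import Pool.Agent.TH813.ZtFin

/-!
# Solutions of systems for `e^(z_i)` and `℘(z_i)` in rational spaces
-/

set_option autoImplicit false

open Finset Module
open scoped PeriodPair

noncomputable section

namespace Pool.Agent.TH813.MixSys

open Pool.Agent.W252 Pool.Agent.W669.Gel
open Pool.Agent.TH813.Core (dlog_eq_zero)
open Pool.Agent.TH813.DQ Pool.Agent.TH813.ZtFin Pool.Agent.TH813.Ell
open Pool.Agent.TH813.Rel (DF)

variable {F : IntermediateField ℚ ℂ} {ι : Type} [Fintype ι] {n : ℕ}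
  (μ : Fin n → (ι → ℚ) →ₗ[ℚ] ℂ)

omit [Fintype ι] in
theorem ev_sub (P Q : MvPolynomial (Fin n) F) (x : ι → ℚ) : ev μ (P - Q) x = ev μ P x - ev μ Q x :=
  map_sub _ _ _

omit [Fintype ι] in
theorem ev_C (c : F) (x : ι → ℚ) : ev μ (MvPolynomial.C c : MvPolynomial (Fin n) F) x = c :=
  MvPolynomial.aeval_C _ _

omit [Fintype ι] in
theorem dv_sub (P Q : MvPolynomial (Fin n) F) (y z : ι → ℚ) :
    dv μ (P - Q) y z = dv μ P y z - dv μ Q y z := by
  unfold dv
  rw [← sum_sub_distrib]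
  refine sum_congr rfl (fun k _ => ?_)
  rw [map_sub, ← sub_mul]
  congr 1
  exact map_sub _ _ _

omit [Fintype ι] in
theorem dv_C (c : F) (y z : ι → ℚ) : dv μ (MvPolynomial.C c : MvPolynomial (Fin n) F) y z = 0 := by
  unfold dv
  refine sum_eq_zero (fun k _ => ?_)
  rw [MvPolynomial.pderiv_C]
  unfold ev
  rw [map_zero, zero_mul]

omit [Fintype ι] in
/-- a derivation on the value of a polynomial -/
theorem der_ev {D : Derivation ℚ ℂ ℂ} (hD : D ∈ DF F)
    (P : MvPolynomial (Fin n) F) (x : ι → ℚ) :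
    D (ev μ P x) = ∑ j, ev μ (MvPolynomial.pderiv j P) x * D (μ j x) := by
  induction P using MvPolynomial.induction_on with
  | C a =>
    rw [ev_C, hD _ a.2, eq_comm]
    refine sum_eq_zero (fun j _ => ?_)
    rw [MvPolynomial.pderiv_C]
    unfold ev
    rw [map_zero, zero_mul]
  | add p q hp hq =>
    rw [ev_add, map_add, hp, hq, ← sum_add_distrib]
    refine sum_congr rfl (fun j _ => ?_)
    rw [map_add, ev_add]
    ring
  | mul_X p i hp =>
    have h1 : ev μ (MvPolynomial.X i : MvPolynomial (Fin n) F) x = μ i x :=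
      MvPolynomial.aeval_X _ _
    rw [ev_mul, h1, Derivation.leibniz, hp, smul_eq_mul, smul_eq_mul]
    have h2 : ∑ j, ev μ (MvPolynomial.pderiv j (p * MvPolynomial.X i)) x * D (μ j x) =
        ∑ j, (ev μ (MvPolynomial.pderiv j p) x * μ i x * D (μ j x) +
          ev μ p x * (ev μ (MvPolynomial.pderiv j
            (MvPolynomial.X i : MvPolynomial (Fin n) F)) x * D (μ j x))) := by
      refine sum_congr rfl (fun j _ => ?_)
      rw [MvPolynomial.pderiv_mul, ev_add, ev_mul, ev_mul, h1]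
      ring
    rw [h2, sum_add_distrib, ← mul_sum]
    have h3 : ∑ j, ev μ (MvPolynomial.pderiv j (MvPolynomial.X i : MvPolynomial (Fin n) F)) x *
        D (μ j x) = D (μ i x) := by
      rw [sum_eq_single i]
      · rw [MvPolynomial.pderiv_X_self]
        unfold ev
        rw [map_one, one_mul]
      · intro j _ hj
        rw [MvPolynomial.pderiv_X_of_ne hj.symm]
        unfold ev
        rw [map_zero, zero_mul]
      · intro h
        exact absurd (mem_univ i) h
    rw [h3, mul_sum]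
    have h4 : ∑ j, ev μ (MvPolynomial.pderiv j p) x * μ i x * D (μ j x) =
        ∑ j, μ i x * (ev μ (MvPolynomial.pderiv j p) x * D (μ j x)) :=
      sum_congr rfl (fun j _ => by ring)
    rw [h4]
    ring

omit [Fintype ι] in
/-- a derivation on the derivative of a polynomial -/
theorem der_dv {D : Derivation ℚ ℂ ℂ} (hD : D ∈ DF F)
    (P : MvPolynomial (Fin n) F) (y z : ι → ℚ) :
    D (dv μ P y z) = ∑ j, D (μ j y) * dv μ (MvPolynomial.pderiv j P) y z +
      ∑ j, ev μ (MvPolynomial.pderiv j P) y * D (μ j z) := by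
  have h1 : ∑ j, D (μ j y) * dv μ (MvPolynomial.pderiv j P) y z =
      ∑ j, ∑ k, μ j z * (ev μ (MvPolynomial.pderiv k (MvPolynomial.pderiv j P)) y *
        D (μ k y)) := by
    unfold dv
    simp_rw [mul_sum]
    rw [sum_comm]
    refine sum_congr rfl (fun j _ => sum_congr rfl (fun k _ => ?_))
    rw [pderiv_comm]
    ring
  rw [h1, ← sum_add_distrib]
  conv_lhs => unfold dv
  rw [map_sum]
  refine sum_congr rfl (fun j _ => ?_)
  rw [Derivation.leibniz, der_ev μ hD, smul_eq_mul, smul_eq_mul, ← mul_sum]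
  ring

/-- the coefficient of `D z_j` in the equation -/
def cf (P Q : MvPolynomial (Fin n) F) (j : Fin n) : MvPolynomial (Fin n) F :=
  P * MvPolynomial.pderiv j Q - Q * MvPolynomial.pderiv j P

/-- the numerator of the derivative of `Q / P` -/
def sd (P Q : MvPolynomial (Fin n) F) (D : Derivation ℚ ℂ ℂ) (x : ι → ℚ) : ℂ :=
  ∑ j, ev μ (cf P Q j) x * (D.toLinearMap ∘ₗ μ j) x

/-- its derivative -/
def sd' (P Q : MvPolynomial (Fin n) F) (D : Derivation ℚ ℂ ℂ) (y z : ι → ℚ) : ℂ :=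
  ∑ j, ((D.toLinearMap ∘ₗ μ j) y * dv μ (cf P Q j) y z +
    ev μ (cf P Q j) y * (D.toLinearMap ∘ₗ μ j) z)

theorem sd_dq {P Q : MvPolynomial (Fin n) F} {a b : ℕ} (hP : P.totalDegree ≤ a)
    (hQ : Q.totalDegree ≤ b) (D : Derivation ℚ ℂ ℂ) :
    IsDQ (a + b + 1) (sd μ P Q D) (sd' μ P Q D) := by
  refine IsDQ.sum _ (fun j _ => ?_)
  refine (dq_poly μ ?_).mul (IsDQ.lin (D.toLinearMap ∘ₗ μ j))
  refine (MvPolynomial.totalDegree_sub _ _).trans (max_le ?_ ?_)
  · exact (MvPolynomial.totalDegree_mul _ _).trans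
      (add_le_add hP ((totalDegree_pderiv j Q).trans hQ))
  · refine ((MvPolynomial.totalDegree_mul _ _).trans
      (add_le_add hQ ((totalDegree_pderiv j P).trans hP))).trans ?_
    omega

omit [Fintype ι] in
theorem sd_eq {P Q : MvPolynomial (Fin n) F} {D : Derivation ℚ ℂ ℂ} (hD : D ∈ DF F)
    (x : ι → ℚ) : sd μ P Q D x = ev μ P x * D (ev μ Q x) - ev μ Q x * D (ev μ P x) := by
  unfold sd
  rw [der_ev μ hD, der_ev μ hD, mul_sum, mul_sum, ← sum_sub_distrib]
  refine sum_congr rfl (fun j _ => ?_)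
  unfold cf
  rw [ev_sub, ev_mul, ev_mul]
  change _ * D (μ j x) = _
  ring

omit [Fintype ι] in
theorem sd'_eq {P Q : MvPolynomial (Fin n) F} {D : Derivation ℚ ℂ ℂ} (hD : D ∈ DF F)
    (y z : ι → ℚ) : sd' μ P Q D y z = D (ev μ Q y) * dv μ P y z - D (ev μ P y) * dv μ Q y z +
      ev μ P y * D (dv μ Q y z) - ev μ Q y * D (dv μ P y z) := by
  unfold sd'
  rw [der_ev μ hD, der_ev μ hD, der_dv μ hD, der_dv μ hD]
  simp only [mul_sum, sum_mul, mul_add]
  rw [← sum_sub_distrib, ← sum_add_distrib, ← sum_add_distrib, ← sum_add_distrib,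
    ← sum_sub_distrib]
  refine sum_congr rfl (fun j _ => ?_)
  unfold cf
  rw [dv_sub, dv_mul, dv_mul, ev_sub, ev_mul, ev_mul]
  change D (μ j y) * _ + _ * D (μ j z) = _
  ring

/-- the types of the coordinates: `none` for `𝔾ₘ`, `some L` for the elliptic curve of `L` -/
abbrev Typ := Option PeriodPair

/-- the invariants are in the field -/
def InF (F : IntermediateField ℚ ℂ) : Typ → Prop
  | none => True
  | some L => L.g₂ ∈ F ∧ L.g₃ ∈ F

/-- logarithms of algebraic points -/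
def Null (F : IntermediateField ℚ ℂ) : Typ → ℂ → Prop
  | none, u => IsAlgebraic F (Complex.exp u)
  | some L, u => u ∈ L.lattice ∨ IsAlgebraic F (℘[L] u)

/-- the equation of a coordinate, up to an algebraic point: `A e^u / B` is algebraic, resp.
`A ℘(u + c) = B` for some logarithm `c` of an algebraic point -/
def Sol (F : IntermediateField ℚ ℂ) : Typ → ℂ → ℂ → ℂ → Prop
  | none, A, B, u => A ≠ 0 ∧ B ≠ 0 ∧ IsAlgebraic F (A * Complex.exp u / B)
  | some L, A, B, u => A ≠ 0 ∧ ¬ Null F (some L) u ∧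
      ∃ c, Null F (some L) c ∧ u + c ∉ L.lattice ∧ A * ℘[L] (u + c) = B

theorem coord_exp {P Q : MvPolynomial (Fin n) F} {a b : ℕ} (hP : P.totalDegree ≤ a)
    (hQ : Q.totalDegree ≤ b) (i : Fin n) :
    ∃ (e : DF F → (ι → ℚ) → ℂ) (e' : DF F → (ι → ℚ) → (ι → ℚ) → ℂ),
      (∀ D, IsDQ (a + b + 1) (e D) (e' D)) ∧
      (∀ x, Sol F none (ev μ P x) (ev μ Q x) (μ i x) → ∀ D, e D x = 0) ∧
      ∀ y z, Sol F none (ev μ P y) (ev μ Q y) (μ i y) → (∀ D, e' D y z = 0) →
        Null F none (μ i z) := by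
  refine ⟨fun D x => ev μ (P * Q) x * (dl (D : Derivation ℚ ℂ ℂ) ∘ₗ μ i) x - sd μ P Q D x,
    fun D y z => ((dl (D : Derivation ℚ ℂ ℂ) ∘ₗ μ i) y * dv μ (P * Q) y z +
      ev μ (P * Q) y * (dl (D : Derivation ℚ ℂ ℂ) ∘ₗ μ i) z) - sd' μ P Q D y z,
    fun D => ?_, ?_, ?_⟩
  · exact ((dq_poly μ ((MvPolynomial.totalDegree_mul _ _).trans
      (add_le_add hP hQ))).mul (IsDQ.lin (dl (D : Derivation ℚ ℂ ℂ) ∘ₗ μ i))).sub
      (sd_dq μ hP hQ D)
  · rintro x ⟨hA, hB, h⟩ ⟨D, hD⟩
    have he := Complex.exp_ne_zero (μ i x)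
    have h0 := killed_of_alg h D hD
    have h1 : D (Complex.exp (μ i x)) = Complex.exp (μ i x) * dlog D (μ i x) := by
      unfold dlog
      field_simp
    rw [Derivation.leibniz_div, Derivation.leibniz, h1] at h0
    simp only [smul_eq_mul] at h0
    change ev μ (P * Q) x * dlog D (μ i x) - sd μ P Q D x = 0
    rw [sd_eq μ hD, ev_mul]
    set A := ev μ P x
    set B := ev μ Q x
    set E := Complex.exp (μ i x)
    have h5 : E * (A * B * dlog D (μ i x) - (A * D B - B * D A)) = 0 := by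
      have h6 : B⁻¹ ^ 2 * (B * (A * (E * dlog D (μ i x)) + E * D A) - A * E * D B) = 0 := h0
      have h7 := (mul_eq_zero.1 h6).resolve_left (pow_ne_zero 2 (inv_ne_zero hB))
      linear_combination h7
    exact (mul_eq_zero.1 h5).resolve_left he
  · rintro y z ⟨hA, hB, h⟩ hz
    have he := Complex.exp_ne_zero (μ i y)
    set A := ev μ P y with hAn
    set B := ev μ Q y with hBn
    have key : ∀ D ∈ DF F, D (dv μ Q y z / B - dv μ P y z / A) = dlog D (μ i z) := by
      intro D hD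
      have h1 := hz ⟨D, hD⟩
      change (dlog D (μ i y) * dv μ (P * Q) y z + ev μ (P * Q) y * dlog D (μ i z)) -
        sd' μ P Q D y z = 0 at h1
      rw [sd'_eq μ hD, dv_mul, ev_mul, ← hAn, ← hBn] at h1
      have h0 := killed_of_alg h D hD
      have h2 : D (Complex.exp (μ i y)) = Complex.exp (μ i y) * dlog D (μ i y) := by
        unfold dlog
        field_simp
      rw [Derivation.leibniz_div, Derivation.leibniz, h2] at h0
      simp only [smul_eq_mul] at h0
      have h3 : A * B * dlog D (μ i y) = A * D B - B * D A := by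
        have h6 : B⁻¹ ^ 2 * (B * (A * (Complex.exp (μ i y) * dlog D (μ i y)) +
          Complex.exp (μ i y) * D A) - A * Complex.exp (μ i y) * D B) = 0 := h0
        have h7 := (mul_eq_zero.1 h6).resolve_left (pow_ne_zero 2 (inv_ne_zero hB))
        have h5 : Complex.exp (μ i y) * (A * B * dlog D (μ i y) - (A * D B - B * D A)) = 0 := by
          linear_combination h7
        exact sub_eq_zero.1 ((mul_eq_zero.1 h5).resolve_left he)
      have h4 : dlog D (μ i y) = (A * D B - B * D A) / (A * B) := by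
        rw [← h3]
        field_simp
      rw [h4] at h1
      rw [map_sub, Derivation.leibniz_div, Derivation.leibniz_div]
      simp only [smul_eq_mul]
      set Pz := dv μ P y z
      set Qz := dv μ Q y z
      have h8 : dlog D (μ i z) = (A * B)⁻¹ * ((D B * Pz - D A * Qz + A * D Qz - B * D Pz) -
          (A * D B - B * D A) / (A * B) * (B * Pz + A * Qz)) := by
        have h9 : A * B * dlog D (μ i z) = (D B * Pz - D A * Qz + A * D Qz - B * D Pz) -
          (A * D B - B * D A) / (A * B) * (B * Pz + A * Qz) := by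
          linear_combination h1
        rw [← h9]
        field_simp
      rw [h8]
      field_simp
      ring
    have h1 := Pool.Agent.TH813.Ros.exact F (n := 1) (fun _ => 1)
      (fun _ => Complex.exp (μ i z)) (fun _ => one_mem _) (fun _ => Complex.exp_ne_zero _)
      (dv μ Q y z / B - dv μ P y z / A) (fun D hD => by
        rw [key D hD]
        unfold dlog
        simp)
    refine alg_of_killed (fun D hD => dlog_eq_zero.1 ?_)
    rw [← key D hD]
    exact h1 D hD

/-- the polynomial `P (4 Q³ - g₂ Q P² - g₃ P³)` -/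
def cub (g2 g3 : F) (P Q : MvPolynomial (Fin n) F) : MvPolynomial (Fin n) F :=
  P * (MvPolynomial.C 4 * (Q * (Q * Q)) - MvPolynomial.C g2 * (Q * (P * P)) -
    MvPolynomial.C g3 * (P * (P * P)))

omit [Fintype ι] in
theorem ev_cub (g2 g3 : F) (P Q : MvPolynomial (Fin n) F) (x : ι → ℚ) :
    ev μ (cub g2 g3 P Q) x = ev μ P x * (4 * ev μ Q x ^ 3 - g2 * ev μ Q x * ev μ P x ^ 2 -
      g3 * ev μ P x ^ 3) := by
  unfold cub
  simp only [ev_mul, ev_sub, ev_C]
  have h4 : ((4 : F) : ℂ) = 4 := rfl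
  rw [h4]
  ring

omit [Fintype ι] in
theorem dv_cub (g2 g3 : F) (P Q : MvPolynomial (Fin n) F) (y z : ι → ℚ) :
    dv μ (cub g2 g3 P Q) y z = dv μ P y z * (4 * ev μ Q y ^ 3 - g2 * ev μ Q y * ev μ P y ^ 2 -
      g3 * ev μ P y ^ 3) + ev μ P y * (12 * ev μ Q y ^ 2 * dv μ Q y z -
      g2 * (dv μ Q y z * ev μ P y ^ 2 + 2 * ev μ Q y * ev μ P y * dv μ P y z) -
      3 * g3 * ev μ P y ^ 2 * dv μ P y z) := by
  unfold cub
  simp only [dv_mul, dv_sub, dv_C, ev_mul, ev_sub, ev_C]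
  have h4 : ((4 : F) : ℂ) = 4 := rfl
  rw [h4]
  ring

omit [Fintype ι] in
theorem cub_deg (g2 g3 : F) {P Q : MvPolynomial (Fin n) F} {a b : ℕ} (hP : P.totalDegree ≤ a)
    (hQ : Q.totalDegree ≤ b) (hab : a ≤ b) : (cub g2 g3 P Q).totalDegree ≤ a + 3 * b := by
  unfold cub
  have m : ∀ {p q : MvPolynomial (Fin n) F} {k l : ℕ}, p.totalDegree ≤ k → q.totalDegree ≤ l →
      (p * q).totalDegree ≤ k + l := fun hp hq =>
    (MvPolynomial.totalDegree_mul _ _).trans (add_le_add hp hq)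
  have c : ∀ (g : F) {q : MvPolynomial (Fin n) F} {l : ℕ}, q.totalDegree ≤ l →
      (MvPolynomial.C g * q).totalDegree ≤ l := fun g q l hq => by
    have := m (p := MvPolynomial.C g) (k := 0) (by rw [MvPolynomial.totalDegree_C]) hq
    simpa using this
  have s : ∀ {p q : MvPolynomial (Fin n) F} {l : ℕ}, p.totalDegree ≤ l → q.totalDegree ≤ l →
      (p - q).totalDegree ≤ l := fun hp hq =>
    (MvPolynomial.totalDegree_sub _ _).trans (max_le hp hq)
  refine m hP (s (s ?_ ?_) ?_)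
  · exact (c 4 (m hQ (m hQ hQ))).trans (by omega)
  · exact (c g2 (m hQ (m hP hP))).trans (by omega)
  · exact (c g3 (m hP (m hP hP))).trans (by omega)

theorem null_of_om {L : PeriodPair} (h2 : L.g₂ ∈ F) (h3 : L.g₃ ∈ F) {u : ℂ}
    (h : ∀ D ∈ DF F, om L D u = 0) : Null F (some L) u := by
  by_cases hl : u ∈ L.lattice
  · exact Or.inl hl
  · exact Or.inr (alg_of_killed (fun D hD => (wp_killed (hD _ h2) (hD _ h3) (h D hD) hl).1))

theorem om_of_null {L : PeriodPair} {u : ℂ}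
    (h : Null F (some L) u) {D : Derivation ℚ ℂ ℂ} (hD : D ∈ DF F) : om L D u = 0 := by
  rcases h with h | h
  · exact om_of_mem L D h
  · unfold om
    rw [killed_of_alg h D hD, zero_div]

/-- the facts about a solution -/
theorem sol_wp {L : PeriodPair} (h2 : L.g₂ ∈ F) (h3 : L.g₃ ∈ F) {A B u : ℂ}
    (h : Sol F (some L) A B u) : ∃ X Y : ℂ, A ≠ 0 ∧ Y ≠ 0 ∧ B = A * X ∧
      Y ^ 2 = 4 * X ^ 3 - L.g₂ * X - L.g₃ ∧ (∃ D ∈ DF F, om L D u ≠ 0) ∧
      ∀ D ∈ DF F, D X = Y * om L D u := by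
  obtain ⟨hA, hnn, c, hc, hl, he⟩ := h
  have hex : ∃ D ∈ DF F, om L D u ≠ 0 := by
    by_contra hcon
    push Not at hcon
    exact hnn (null_of_om h2 h3 hcon)
  have hadd : ∀ D ∈ DF F, om L D (u + c) = om L D u := fun D hD => by
    rw [om_add L D (hD _ h2) (hD _ h3), om_of_null hc hD, add_zero]
  have hY : ℘'[L] (u + c) ≠ 0 := by
    intro h0
    obtain ⟨D, hD, hne⟩ := hex
    apply hne
    rw [← hadd D hD]
    unfold om
    rw [h0, div_zero]
  refine ⟨℘[L] (u + c), ℘'[L] (u + c), hA, hY, he.symm, L.derivWeierstrassP_sq _ hl, hex,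
    fun D hD => ?_⟩
  rw [← hadd D hD]
  unfold om
  rw [mul_div_cancel₀ _ hY]

theorem coord_wp {L : PeriodPair} (h2 : L.g₂ ∈ F) (h3 : L.g₃ ∈ F)
    {P Q : MvPolynomial (Fin n) F} {a b : ℕ} (hP : P.totalDegree ≤ a)
    (hQ : Q.totalDegree ≤ b) (hab : a ≤ b) (i : Fin n) :
    ∃ (e : DF F → (ι → ℚ) → ℂ) (e' : DF F → (ι → ℚ) → (ι → ℚ) → ℂ),
      (∀ D, IsDQ (a + 3 * b + 2) (e D) (e' D)) ∧
      (∀ x, Sol F (some L) (ev μ P x) (ev μ Q x) (μ i x) → ∀ D, e D x = 0) ∧
      ∀ y z, Sol F (some L) (ev μ P y) (ev μ Q y) (μ i y) → (∀ D, e' D y z = 0) →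
        Null F (some L) (μ i z) := by
  let o : DF F → (ι → ℚ) →ₗ[ℚ] ℂ := fun D =>
    omL L D (D.2 _ h2) (D.2 _ h3) ∘ₗ μ i
  have ho : ∀ (D : DF F) x, o D x = om L D (μ i x) := fun D x => rfl
  let w : MvPolynomial (Fin n) F := cub ⟨L.g₂, h2⟩ ⟨L.g₃, h3⟩ P Q
  refine ⟨fun D x => ev μ w x * (o D x * o D x) - sd μ P Q D x * sd μ P Q D x,
    fun D y z => (o D y * o D y * dv μ w y z +
      ev μ w y * (o D y * o D z + o D y * o D z)) -
      (sd μ P Q D y * sd' μ P Q D y z + sd μ P Q D y * sd' μ P Q D y z),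
    fun D => ?_, ?_, ?_⟩
  · have k1 := (dq_poly μ (cub_deg ⟨L.g₂, h2⟩ ⟨L.g₃, h3⟩ hP hQ hab)).mul
      ((IsDQ.lin (o D)).mul (IsDQ.lin (o D)))
    have k2 := (sd_dq μ hP hQ D).mul (sd_dq μ hP hQ D)
    exact (k1.mono (by omega)).sub (k2.mono (by omega))
  · rintro x hx ⟨D, hD⟩
    obtain ⟨X, Y, hA, hY, hB, hc, -, hX⟩ := sol_wp h2 h3 hx
    change ev μ w x * (om L D (μ i x) * om L D (μ i x)) - sd μ P Q D x * sd μ P Q D x = 0
    rw [sd_eq μ hD, ev_cub, hB, Derivation.leibniz, hX D hD]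
    simp only [smul_eq_mul]
    linear_combination (-(ev μ P x) ^ 4 * (om L D (μ i x)) ^ 2) * hc
  · intro y z hy hz
    obtain ⟨X, Y, hA, hY, hB, hc, ⟨D₀, hD₀, hne₀⟩, hX⟩ := sol_wp h2 h3 hy
    set A := ev μ P y with hAn
    set Pz := dv μ P y z with hPz
    obtain ⟨Xz, hXz⟩ : ∃ Xz : ℂ, dv μ Q y z = X * Pz + A * Xz :=
      ⟨(dv μ Q y z - X * Pz) / A, by field_simp; ring⟩
    have hDY : ∀ D ∈ DF F, 2 * D Y = (12 * X ^ 2 - L.g₂) * om L D (μ i y) := by
      intro D hD
      have h4 := congrArg D hc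
      have e2 : D L.g₂ = 0 := hD _ h2
      have e3 : D L.g₃ = 0 := hD _ h3
      have h5 : D (4 : ℂ) = 0 := by
        have := D.map_natCast 4
        exact_mod_cast this
      rw [map_sub, map_sub, Derivation.leibniz, Derivation.leibniz, Derivation.leibniz_pow,
        Derivation.leibniz_pow, e2, e3, h5, hX D hD] at h4
      simp only [smul_eq_mul, nsmul_eq_mul] at h4
      push_cast at h4
      have h6 : Y * (2 * D Y - (12 * X ^ 2 - L.g₂) * om L D (μ i y)) = 0 := by
        linear_combination h4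
      exact sub_eq_zero.1 ((mul_eq_zero.1 h6).resolve_left hY)
    have key : ∀ D ∈ DF F, om L D (μ i y) ≠ 0 → D (Xz / Y) = om L D (μ i z) := by
      intro D hD hne
      have h1 := hz ⟨D, hD⟩
      change (om L D (μ i y) * om L D (μ i y) * dv μ w y z +
        ev μ w y * (om L D (μ i y) * om L D (μ i z) + om L D (μ i y) * om L D (μ i z))) -
        (sd μ P Q D y * sd' μ P Q D y z + sd μ P Q D y * sd' μ P Q D y z) = 0 at h1
      rw [sd_eq μ hD, sd'_eq μ hD, ev_cub, dv_cub, ← hAn, ← hPz, hB, hXz] at h1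
      rw [Derivation.leibniz, map_add, Derivation.leibniz, Derivation.leibniz, hX D hD] at h1
      simp only [smul_eq_mul] at h1
      have h8 := hDY D hD
      rw [Derivation.leibniz_div]
      simp only [smul_eq_mul]
      set oy := om L D (μ i y)
      set oz := om L D (μ i z)
      have h9 : 2 * A ^ 4 * Y * oy * (Y ^ 2 * oz - (Y * D Xz - Xz * D Y)) = 0 := by
        linear_combination Y * h1 + Y * (4 * A ^ 3 * Pz * oy ^ 2 + 2 * A ^ 4 * oy * oz) * hc +
          A ^ 4 * Y * oy * Xz * h8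
      have h10 : 2 * A ^ 4 * Y * oy ≠ 0 := mul_ne_zero (mul_ne_zero (mul_ne_zero two_ne_zero
        (pow_ne_zero _ hA)) hY) hne
      have h11 := sub_eq_zero.1 ((mul_eq_zero.1 h9).resolve_left h10)
      rw [← h11]
      field_simp
    have key' : ∀ D ∈ DF F, D (Xz / Y) = om L D (μ i z) := by
      intro D hD
      by_cases h0 : om L D (μ i y) = 0
      · have h4 : D + D₀ ∈ DF F := (DF F).add_mem hD hD₀
        have h6 := key (D + D₀) h4 (by rw [om_add_der, h0, zero_add]; exact hne₀)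
        rw [om_add_der, Derivation.add_apply, key D₀ hD₀ hne₀] at h6
        exact add_right_cancel h6
      · exact key D hD h0
    exact null_of_om h2 h3 (om_exact h2 h3 _ _ key')

/-- both types -/
theorem coord {T : Typ} (hT : InF F T) {P Q : MvPolynomial (Fin n) F} {a b : ℕ}
    (hP : P.totalDegree ≤ a) (hQ : Q.totalDegree ≤ b) (hab : a ≤ b) (i : Fin n) :
    ∃ (e : DF F → (ι → ℚ) → ℂ) (e' : DF F → (ι → ℚ) → (ι → ℚ) → ℂ),
      (∀ D, IsDQ (a + 3 * b + 2) (e D) (e' D)) ∧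
      (∀ x, Sol F T (ev μ P x) (ev μ Q x) (μ i x) → ∀ D, e D x = 0) ∧
      ∀ y z, Sol F T (ev μ P y) (ev μ Q y) (μ i y) → (∀ D, e' D y z = 0) →
        Null F T (μ i z) := by
  cases T with
  | none =>
    obtain ⟨e, e', h1, h2, h3⟩ := coord_exp μ hP hQ i
    exact ⟨e, e', fun D => (h1 D).mono (by omega), h2, h3⟩
  | some L => exact coord_wp μ hT.1 hT.2 hP hQ hab i

/-- **The count of the solutions.** -/
theorem main {T : Fin n → Typ} (hT : ∀ i, InF F (T i)) (P Q : Fin n → MvPolynomial (Fin n) F)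
    {a b : ℕ} (hP : ∀ i, (P i).totalDegree ≤ a) (hQ : ∀ i, (Q i).totalDegree ≤ b) (hab : a ≤ b)
    (hμ : ∀ z, (∀ i, Null F (T i) (μ i z)) → z = 0) (S : Finset (ι → ℚ))
    (hS : ∀ x ∈ S, ∀ i, Sol F (T i) (ev μ (P i) x) (ev μ (Q i) x) (μ i x)) :
    S.card ≤ ((a + 3 * b + 2) * Fintype.card ι).choose (Fintype.card ι) := by
  classical
  have hc := fun i => coord μ (hT i) (hP i) (hQ i) hab i
  choose e e' h1 h2 h3 using hc
  have hdq' := fun p : DF F × Fin n => (h1 p.2 p.1).2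
  choose H k1 k2 k3 k4 using hdq'
  have key := CountF.count (K := ℚ) (A := ℂ) (ι := ι) (d := a + 3 * b + 1) H
    (fun p y z => k1 p y z) S (fun p y hy x hx => by
      rw [← k3, h2 p.2 x (hS x hx p.2) p.1, h2 p.2 y (hS y hy p.2) p.1, sub_zero])
    (fun y hy z hz => hμ z (fun i => h3 i y z (hS y hy i) (fun D => by
      rw [← k4 (D, i)]
      exact hz (D, i))))
  have e : Fintype.card ι + Fintype.card ι * (a + 3 * b + 1) =
      (a + 3 * b + 2) * Fintype.card ι := by ring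
  rwa [e] at key

end Pool.Agent.TH813.MixSys
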