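import Mathlib
import Pool.Agent.TH813.Curve1
import Pool.Agent.TH813.MixSys

/-!
# Points of a rational space on plane curves, for the multiplicative group and elliptic curves
-/

set_option autoImplicit false

open Finset Module
open scoped PeriodPair

noncomputable section

namespace Pool.Agent.TH813.CurveG

open Pool.Agent.W252 Pool.Agent.W669.Gel
open Pool.Agent.TH813.Core (dlog_eq_zero)
open Pool.Agent.TH813.DQ Pool.Agent.TH813.ZtFin Pool.Agent.TH813.CountF Pool.Agent.TH813.Ell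
open Pool.Agent.TH813.MixSys Pool.Agent.TH813.Curve
open Pool.Agent.TH813.Rel (DF)
open Polynomial (aeval derivative)

variable {F : IntermediateField ℚ ℂ}

/-- the invariant differential at the point with logarithm `u` -/
def ell (T : Typ) (D : Derivation ℚ ℂ ℂ) (u : ℂ) : ℂ :=
  match T with
  | none => dlog D u
  | some L => om L D u

theorem ell_lin {T : Typ} (hT : InF F T) (D : DF F) : ∃ f : ℂ →ₗ[ℚ] ℂ, ∀ u, f u = ell T D u := by
  cases T with
  | none => exact ⟨dl D, fun u => rfl⟩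
  | some L => exact ⟨omL L D (D.2 _ hT.1) (D.2 _ hT.2), fun u => rfl⟩

theorem ell_add_der (T : Typ) (D D' : Derivation ℚ ℂ ℂ) (u : ℂ) :
    ell T (D + D') u = ell T D u + ell T D' u := by
  cases T with
  | none => exact dlog_add D D' u
  | some L => exact om_add_der D D' u

theorem ell_exact {T : Typ} (hT : InF F T) {f τ : ℂ} (h : ∀ D ∈ DF F, D f = ell T D τ) :
    ∀ D ∈ DF F, ell T D τ = 0 := by
  cases T with
  | none =>
    have h1 := Pool.Agent.TH813.Ros.exact F (n := 1) (fun _ => 1)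
      (fun _ => Complex.exp τ) (fun _ => one_mem _) (fun _ => Complex.exp_ne_zero _) f
      (fun D hD => by
        rw [h D hD]
        simp [ell, dlog])
    intro D hD
    rw [← h D hD]
    exact h1 D hD
  | some L => exact om_exact hT.1 hT.2 τ f h

theorem null_of_ell {T : Typ} (hT : InF F T) {u : ℂ} (h : ∀ D ∈ DF F, ell T D u = 0) :
    Null F T u := by
  cases T with
  | none => exact alg_of_killed (fun D hD => dlog_eq_zero.1 (h D hD))
  | some L => exact null_of_om hT.1 hT.2 h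

theorem ell_of_null {T : Typ} {u : ℂ} (h : Null F T u) {D : Derivation ℚ ℂ ℂ} (hD : D ∈ DF F) :
    ell T D u = 0 := by
  cases T with
  | none => exact dlog_eq_zero.2 (killed_of_alg h D hD)
  | some L => exact om_of_null h hD

/-- the derivative of the equation -/
def G' (T : Typ) (q : ℕ → Polynomial F) (t : ℕ) (D : Derivation ℚ ℂ ℂ) (z τ : ℂ) : ℂ :=
  ∑ j ∈ range (t + 1), ((ell T D z ^ j * D z ^ (t - j)) * (aeval z (derivative (q j)) * τ) +
    aeval z (q j) * (D z ^ (t - j) * (j * ell T D z ^ (j - 1) * ell T D τ) +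
      ell T D z ^ j * ((t - j : ℕ) * D z ^ (t - j - 1) * D τ)))

theorem der_rel {q : ℕ → Polynomial F} {t : ℕ} {z h : ℂ} {D : Derivation ℚ ℂ ℂ} (hD : D ∈ DF F)
    (h0 : ∑ j ∈ range (t + 1), aeval z (q j) * h ^ j = 0) :
    (∑ j ∈ range (t + 1), aeval z (derivative (q j)) * h ^ j) * D z +
      (∑ j ∈ range (t + 1), aeval z (q j) * (j * h ^ (j - 1))) * D h = 0 := by
  have h1 := congrArg D h0
  rw [map_sum, map_zero] at h1
  rw [← h1, sum_mul, sum_mul, ← sum_add_distrib]
  refine sum_congr rfl (fun j _ => ?_)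
  rw [Derivation.leibniz, der_aeval hD, Derivation.leibniz_pow]
  simp only [smul_eq_mul, nsmul_eq_mul]
  ring

theorem G'_eq {T : Typ} {q : ℕ → Polynomial F} {t : ℕ} {z h τ : ℂ} {D : Derivation ℚ ℂ ℂ}
    (hD : D ∈ DF F) (hω : ell T D z = h * D z)
    (h0 : ∑ j ∈ range (t + 1), aeval z (q j) * h ^ j = 0) :
    D z * G' T q t D z τ = D z ^ t * (∑ j ∈ range (t + 1), aeval z (q j) * (j * h ^ (j - 1))) *
      (ell T D τ - D (h * τ)) := by
  have hE2 := der_rel hD h0
  have hterm : ∀ j ∈ range (t + 1), D z * ((ell T D z ^ j * D z ^ (t - j)) *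
      (aeval z (derivative (q j)) * τ) +
      aeval z (q j) * (D z ^ (t - j) * (j * ell T D z ^ (j - 1) * ell T D τ) +
        ell T D z ^ j * ((t - j : ℕ) * D z ^ (t - j - 1) * D τ))) =
      D z ^ t * (τ * D z * (aeval z (derivative (q j)) * h ^ j) +
        ell T D τ * (aeval z (q j) * (j * h ^ (j - 1))) +
        D τ * (t * (aeval z (q j) * h ^ j) - h * (aeval z (q j) * (j * h ^ (j - 1))))) := by
    intro j hj
    have hjt : j ≤ t := Nat.lt_succ_iff.1 (mem_range.1 hj)
    rw [hω]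
    obtain ⟨k, rfl⟩ := Nat.exists_eq_add_of_le hjt
    rw [Nat.add_sub_cancel_left]
    have e1 : (h * D z) ^ j * D z ^ k = h ^ j * D z ^ (j + k) := by
      rw [mul_pow, mul_assoc, ← pow_add]
    have e2 : D z * (D z ^ k * (j * (h * D z) ^ (j - 1))) = j * h ^ (j - 1) * D z ^ (j + k) := by
      rcases Nat.eq_zero_or_pos j with h5 | h5
      · subst h5
        simp
      · obtain ⟨i, rfl⟩ := Nat.exists_eq_succ_of_ne_zero h5.ne'
        rw [Nat.succ_sub_one, mul_pow]
        have : D z ^ (i.succ + k) = D z * D z ^ k * D z ^ i := by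
          rw [Nat.succ_add, pow_succ, pow_add]
          ring
        rw [this]
        ring
    have e3 : D z * ((h * D z) ^ j * (k * D z ^ (k - 1))) = k * h ^ j * D z ^ (j + k) := by
      rcases Nat.eq_zero_or_pos k with h5 | h5
      · subst h5
        simp
      · obtain ⟨i, rfl⟩ := Nat.exists_eq_succ_of_ne_zero h5.ne'
        rw [Nat.succ_sub_one, mul_pow]
        have : D z ^ (j + i.succ) = D z * D z ^ i * D z ^ j := by
          rw [Nat.add_succ, pow_succ, pow_add]
          ring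
        rw [this]
        ring
    have e4 : (j : ℂ) * h ^ j = h * (j * h ^ (j - 1)) := by
      rcases Nat.eq_zero_or_pos j with h5 | h5
      · subst h5
        simp
      · obtain ⟨i, rfl⟩ := Nat.exists_eq_succ_of_ne_zero h5.ne'
        rw [Nat.succ_sub_one, pow_succ]
        ring
    push_cast
    linear_combination (D z * aeval z (derivative (q j)) * τ) * e1 +
      (aeval z (q j) * ell T D τ) * e2 + (aeval z (q j) * D τ) * e3 -
      (D z ^ (j + k) * D τ * aeval z (q j)) * e4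
  unfold G'
  rw [mul_sum, sum_congr rfl hterm, ← mul_sum, sum_add_distrib, sum_add_distrib, ← mul_sum,
    ← mul_sum, ← mul_sum, sum_sub_distrib, ← mul_sum, ← mul_sum, h0, Derivation.leibniz]
  simp only [smul_eq_mul]
  linear_combination (D z ^ t * τ) * hE2

/-- the tangent vectors are zero -/
theorem tangent {T : Typ} (hT : InF F T) {q : ℕ → Polynomial F} {t : ℕ} {z h τ : ℂ}
    (hn : ¬ Null F T z) {D₁ : Derivation ℚ ℂ ℂ} (hD₁ : D₁ ∈ DF F) (hD₁z : D₁ z ≠ 0)
    (hD₁τ : Null F T τ → D₁ τ = 0) (hω : ∀ D ∈ DF F, ell T D z = h * D z)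
    (h0 : ∑ j ∈ range (t + 1), aeval z (q j) * h ^ j = 0)
    (h1 : ∑ j ∈ range (t + 1), aeval z (q j) * (j * h ^ (j - 1)) ≠ 0)
    (hτ : ∀ D ∈ DF F, G' T q t D z τ = 0) : τ = 0 := by
  have key1 : ∀ D ∈ DF F, D z ≠ 0 → D (h * τ) = ell T D τ := by
    intro D hD hDz
    have h2 := G'_eq hD (hω D hD) h0 (τ := τ)
    rw [hτ D hD, mul_zero, eq_comm] at h2
    have h3 := (mul_eq_zero.1 h2).resolve_left (mul_ne_zero (pow_ne_zero _ hDz) h1)
    exact (sub_eq_zero.1 h3).symm
  have key : ∀ D ∈ DF F, D (h * τ) = ell T D τ := by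
    intro D hD
    by_cases hDz : D z = 0
    · have h2 := key1 (D + D₁) (Submodule.add_mem _ hD hD₁) (by
        rw [Derivation.add_apply, hDz, zero_add]
        exact hD₁z)
      have h3 := key1 D₁ hD₁ hD₁z
      rw [Derivation.add_apply, ell_add_der, h3] at h2
      exact add_right_cancel h2
    · exact key1 D hD hDz
  have h2 := ell_exact hT key
  have h3 := null_of_ell hT h2
  by_contra hne
  have h4 : D₁ h = 0 := by
    have h5 := key D₁ hD₁
    rw [h2 D₁ hD₁, Derivation.leibniz, hD₁τ h3, smul_zero, zero_add, smul_eq_mul] at h5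
    exact (mul_eq_zero.1 h5).resolve_left hne
  have h5 : ∑ j ∈ range (t + 1), aeval z (derivative (q j)) * h ^ j = 0 := by
    have h6 := der_rel hD₁ h0
    rw [h4, mul_zero, add_zero] at h6
    exact (mul_eq_zero.1 h6).resolve_right hD₁z
  have h6 : ∀ D ∈ DF F, D h = 0 := by
    intro D hD
    have h7 := der_rel hD h0
    rw [h5, zero_mul, zero_add] at h7
    exact (mul_eq_zero.1 h7).resolve_left h1
  apply hn
  refine null_of_ell hT (ell_exact hT (f := h * z) (fun D hD => ?_))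
  rw [hω D hD, Derivation.leibniz, h6 D hD, smul_zero, add_zero, smul_eq_mul]

/-- the equation -/
def G (T : Typ) (q : ℕ → Polynomial F) (t : ℕ) (D : Derivation ℚ ℂ ℂ) (z : ℂ) : ℂ :=
  ∑ j ∈ range (t + 1), aeval z (q j) * (ell T D z ^ j * D z ^ (t - j))

theorem G_dq {T : Typ} (hT : InF F T) {r : ℕ} (v : Fin r → ℂ) {q : ℕ → Polynomial F} {A : ℕ}
    (hq : ∀ j, (q j).natDegree ≤ A) (t : ℕ) (D : DF F) :
    IsDQ (A + t) (fun x => G T q t D (lc v x)) (fun y z => G' T q t D (lc v y) (lc v z)) := by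
  obtain ⟨f, hf⟩ := ell_lin hT D
  refine IsDQ.sum _ (fun j hj => ?_)
  have hjt : j ≤ t := Nat.lt_succ_iff.1 (mem_range.1 hj)
  have h1 := dq_uni (K := ℚ) (lc v) (hq j)
  have h2 := (dq_pow (IsDQ.lin (f ∘ₗ lc v)) j).mul
    (dq_pow (IsDQ.lin ((D : Derivation ℚ ℂ ℂ).toLinearMap ∘ₗ lc v)) (t - j))
  refine ((h1.mul h2).mono (by omega)).congr (fun x => ?_) (fun y z => ?_)
  · simp only [LinearMap.comp_apply, hf]
    rfl
  · simp only [LinearMap.comp_apply, hf]
    rfl

/-- the equation is satisfied -/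
theorem G_zero {T : Typ} {q : ℕ → Polynomial F} {t : ℕ} {z h : ℂ} {D : Derivation ℚ ℂ ℂ}
    (hω : ell T D z = h * D z) (h0 : ∑ j ∈ range (t + 1), aeval z (q j) * h ^ j = 0) :
    G T q t D z = 0 := by
  unfold G
  have h1 : ∀ j ∈ range (t + 1), aeval z (q j) * (ell T D z ^ j * D z ^ (t - j)) =
      D z ^ t * (aeval z (q j) * h ^ j) := by
    intro j hj
    have hjt : j ≤ t := Nat.lt_succ_iff.1 (mem_range.1 hj)
    obtain ⟨k, rfl⟩ := Nat.exists_eq_add_of_le hjt
    rw [Nat.add_sub_cancel_left, hω, mul_pow, pow_add]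
    ring
  rw [sum_congr rfl h1, ← mul_sum, h0, mul_zero]

/-- **The count.** -/
theorem count_q {T : Typ} (hT : InF F T) {r : ℕ} (v : Fin r → ℂ)
    (hv : ∀ c : Fin r → ℚ, lc v c = 0 → c = 0)
    {q : ℕ → Polynomial F} {A t : ℕ} (hAt : 0 < A + t) (hq : ∀ j, (q j).natDegree ≤ A)
    (S : Finset (Fin r → ℚ))
    (hS : ∀ x ∈ S, ¬ Null F T (lc v x) ∧
      (∃ D ∈ DF F, D (lc v x) ≠ 0 ∧ ∀ c, Null F T (lc v c) → D (lc v c) = 0) ∧
      ∃ h : ℂ, (∀ D ∈ DF F, ell T D (lc v x) = h * D (lc v x)) ∧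
      ∑ j ∈ range (t + 1), aeval (lc v x) (q j) * h ^ j = 0 ∧
      ∑ j ∈ range (t + 1), aeval (lc v x) (q j) * (j * h ^ (j - 1)) ≠ 0) :
    S.card ≤ ((A + t) * r).choose r := by
  classical
  have hdq : ∀ D : DF F, IsDQ (A + t) (fun x => G T q t D (lc v x))
      (fun y z => G' T q t D (lc v y) (lc v z)) := fun D => G_dq hT v hq t D
  have hdq' := fun D => (hdq D).2
  choose H h1 h2 h3 h4 using hdq'
  have key := CountF.count (K := ℚ) (A := ℂ) (ι := Fin r) (d := A + t - 1) H
    (fun D y z => h1 D y z) S (fun D y hy x hx => by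
      obtain ⟨_, _, h, ha, hb, _⟩ := hS x hx
      obtain ⟨_, _, h', ha', hb', _⟩ := hS y hy
      have h5 : G T q t D (lc v x) - G T q t D (lc v y) = H D y x (x - y) := h3 D x y
      rw [← h5, G_zero (ha D D.2) hb, G_zero (ha' D D.2) hb', sub_zero])
    (fun y hy z hz => by
      obtain ⟨hy0, ⟨D₁, hD₁, hD₁y, hD₁n⟩, h, ha, hb, hc⟩ := hS y hy
      refine hv _ (tangent hT hy0 hD₁ hD₁y (hD₁n z) ha hb hc (fun D hD => ?_))
      have h5 : H ⟨D, hD⟩ y y z = G' T q t D (lc v y) (lc v z) := h4 ⟨D, hD⟩ y z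
      rw [← h5]
      exact hz ⟨D, hD⟩)
  rw [Fintype.card_fin] at key
  have e : r + r * (A + t - 1) = (A + t) * r := by
    obtain ⟨k, hk⟩ := Nat.exists_eq_succ_of_ne_zero hAt.ne'
    rw [hk]
    simp only [Nat.succ_eq_add_one, Nat.add_sub_cancel]
    ring
  rwa [e] at key

end Pool.Agent.TH813.CurveG
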