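import Mathlib
import Pool.Agent.TH813.Curve3

/-!
# Elimination for `T κ(y) P_y^s + P_x^s` on the curve `P = 0`
-/

set_option autoImplicit false

open Finset Module

noncomputable section

namespace Pool.Agent.TH813.CurveG

open Polynomial
open Pool.Agent.TH813.Curve

/-! ## degrees -/

section bd

variable {k : Type} [Field k]

/-- degrees of resultants -/
theorem bd_resultant {f g : Polynomial (Polynomial (Polynomial k))} {a a' : ℕ} (m n : ℕ)
    (hf : ∀ i, Bd a 0 (f.coeff i)) (hg : ∀ i, Bd a' 1 (g.coeff i)) :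
    Bd (m * a' + n * a) m (Polynomial.resultant f g m n) := by
  classical
  unfold Polynomial.resultant
  rw [Matrix.det_apply']
  refine Bd.sum _ (fun σ _ => ?_)
  refine Bd.intCast_mul _ ?_
  have h1 := Bd.prod (k := k) (univ : Finset (Fin (m + n)))
    (A := fun i => Fin.addCases (fun _ : Fin m => a') (fun _ : Fin n => a) i)
    (t := fun i => Fin.addCases (fun _ : Fin m => 1) (fun _ : Fin n => 0) i)
    (p := fun i => sylvester f g m n (σ i) i) (by
      intro i _
      induction i using Fin.addCases with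
      | left i =>
        simp only [sylvester, Matrix.of_apply, Fin.addCases_left]
        split_ifs
        · exact hg _
        · exact Bd.zero _ _
      | right i =>
        simp only [sylvester, Matrix.of_apply, Fin.addCases_right]
        split_ifs
        · exact hf _
        · exact Bd.zero _ _)
  refine h1.mono ?_ ?_
  · rw [Fin.sum_univ_add]
    simp
  · rw [Fin.sum_univ_add]
    simp

/-- coefficientwise bounds -/
def CB (a t : ℕ) (f : Polynomial (Polynomial (Polynomial k))) : Prop := ∀ i, Bd a t (f.coeff i)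

theorem CB.mul {a t a' t' : ℕ} {f g : Polynomial (Polynomial (Polynomial k))} (hf : CB a t f)
    (hg : CB a' t' g) : CB (a + a') (t + t') (f * g) := by
  intro i
  rw [coeff_mul]
  exact Bd.sum _ (fun x _ => (hf _).mul (hg _))

theorem CB.pow {a t : ℕ} {f : Polynomial (Polynomial (Polynomial k))} (hf : CB a t f) (s : ℕ) :
    CB (s * a) (s * t) (f ^ s) := by
  induction s with
  | zero =>
    intro i
    rw [pow_zero, coeff_one]
    split_ifs
    · exact Bd.one _ _
    · exact Bd.zero _ _
  | succ s ih =>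
    rw [pow_succ, Nat.succ_mul, Nat.succ_mul]
    exact ih.mul hf

theorem CB.add {a t : ℕ} {f g : Polynomial (Polynomial (Polynomial k))} (hf : CB a t f)
    (hg : CB a t g) : CB a t (f + g) := fun i => by
  rw [coeff_add]
  exact (hf i).add (hg i)

theorem CB.mono {a t a' t' : ℕ} {f : Polynomial (Polynomial (Polynomial k))} (hf : CB a t f)
    (h : a ≤ a') (h' : t ≤ t') : CB a' t' f := fun i => (hf i).mono h h'

theorem bd_C {a : ℕ} {q : Polynomial k} (hq : q.natDegree ≤ a) : Bd a 0 (C q) := by
  refine ⟨by simp, fun j => ?_⟩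
  rw [coeff_C]
  split_ifs
  · exact hq
  · simp

theorem cb_map {a : ℕ} {P : Polynomial (Polynomial k)} (ha : ∀ i, (P.coeff i).natDegree ≤ a) :
    CB a 0 (P.map C) := fun i => by
  rw [coeff_map]
  exact bd_C (ha i)

theorem cb_X : CB 0 1 (C (X : Polynomial (Polynomial k))) := fun i => by
  rw [coeff_C]
  split_ifs
  · refine ⟨natDegree_X_le, fun j => ?_⟩
    rw [coeff_X]
    split_ifs <;> simp
  · exact Bd.zero _ _

/-- composition with `-T²` -/
theorem Bd.comp {A t : ℕ} {q : Polynomial (Polynomial k)} (h : Bd A t q) :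
    Bd A (2 * t) (q.comp (-X ^ 2)) := by
  have hX : Bd 0 2 (-X ^ 2 : Polynomial (Polynomial k)) := by
    refine ⟨by
      rw [natDegree_neg]
      exact natDegree_X_pow_le 2, fun j => ?_⟩
    rw [coeff_neg, coeff_X_pow]
    split_ifs <;> simp
  have hpow : ∀ i : ℕ, Bd 0 (2 * i) ((-X ^ 2 : Polynomial (Polynomial k)) ^ i) := by
    intro i
    induction i with
    | zero =>
      rw [pow_zero]
      exact Bd.one _ _
    | succ i ih =>
      rw [pow_succ]
      exact (ih.mul hX).mono le_rfl (by omega)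
  rw [Polynomial.comp, eval₂_eq_sum_range' C (Nat.lt_succ_of_le h.1)]
  refine Bd.sum _ (fun i hi => ?_)
  have hi' : i ≤ t := Nat.lt_succ_iff.1 (mem_range.1 hi)
  exact ((bd_C (h.2 i)).mul (hpow i)).mono (by omega) (by omega)

end bd

section elim

variable {k : Type} [Field k] (P : Polynomial (Polynomial k)) (κ : Polynomial k) (s : ℕ)

/-- the second polynomial -/
def Sd2 : Polynomial (Polynomial (Polynomial k)) :=
  C (X : Polynomial (Polynomial k)) * ((κ.map C).map C * (Polynomial.derivative P).map C ^ s) +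
    (dX P).map C ^ s

/-- the resultant -/
def R2 (n : ℕ) : Polynomial (Polynomial k) :=
  Polynomial.resultant (P.map C) (Sd2 P κ s) P.natDegree n

theorem R2_bd {a : ℕ} (ha : ∀ i, (P.coeff i).natDegree ≤ a) (n : ℕ) :
    Bd (P.natDegree * (s * a) + n * a) P.natDegree (R2 P κ s n) := by
  refine bd_resultant _ _ (cb_map ha) ?_
  have h1 : ∀ i, ((Polynomial.derivative P).coeff i).natDegree ≤ a := fun i => by
    rw [coeff_derivative]
    have h3 : (P.coeff (i + 1) * ((i : Polynomial k) + 1)) =
        P.coeff (i + 1) * C ((i : k) + 1) := by simp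
    rw [h3]
    exact (natDegree_mul_le_of_le (ha (i + 1)) (le_of_eq (natDegree_C _))).trans (by omega)
  have h2 : ∀ i, ((dX P).coeff i).natDegree ≤ a := fun i => by
    rw [dX_coeff]
    exact (natDegree_derivative_le _).trans ((Nat.sub_le _ _).trans (ha i))
  have h3 : ∀ i, ((κ.map C : Polynomial (Polynomial k)).coeff i).natDegree ≤ 0 := fun i => by
    rw [coeff_map, natDegree_C]
  exact CB.add ((cb_X.mul ((cb_map h3).mul ((cb_map h1).pow s))).mono (by omega) (by omega))
    (((cb_map h2).pow s).mono (by omega) (by omega))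

variable {E : Type} [Field E] (φ : Polynomial k →+* E)

/-- the specialised second polynomial -/
def Sp2 (T : E) : Polynomial E :=
  C T * (κ.map (φ.comp C) * Polynomial.derivative (P.map φ) ^ s) + (dX P).map φ ^ s

theorem Sp2_natDegree {n : ℕ} (hn : κ.natDegree + s * (P.natDegree - 1) ≤ n)
    (hn' : s * P.natDegree ≤ n) (T : E) : (Sp2 P κ s φ T).natDegree ≤ n := by
  have h1 : (dX P).natDegree ≤ P.natDegree := by
    rw [natDegree_le_iff_coeff_eq_zero]
    intro N hN
    rw [dX_coeff, coeff_eq_zero_of_natDegree_lt hN, map_zero]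
  unfold Sp2
  refine natDegree_add_le_of_degree_le ?_ ?_
  · refine (natDegree_C_mul_le _ _).trans (le_trans ?_ hn)
    refine natDegree_mul_le_of_le natDegree_map_le ?_
    exact natDegree_pow_le_of_le s ((natDegree_derivative_le _).trans
      (Nat.sub_le_sub_right natDegree_map_le 1))
  · exact (natDegree_pow_le_of_le s (natDegree_map_le.trans h1)).trans hn'

theorem spec2 (n : ℕ) (T : E) : eval₂ φ T (R2 P κ s n) =
    Polynomial.resultant (P.map φ) (Sp2 P κ s φ T) P.natDegree n := by
  have h1 : (eval₂RingHom φ T).comp C = φ := by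
    ext x
    · simp
    · simp
  have h2 := resultant_map_map (P.map C) (Sd2 P κ s) P.natDegree n (eval₂RingHom φ T)
  rw [Polynomial.map_map, h1] at h2
  have h3 : (Sd2 P κ s).map (eval₂RingHom φ T) = Sp2 P κ s φ T := by
    unfold Sd2 Sp2
    rw [Polynomial.map_add, Polynomial.map_mul, Polynomial.map_mul, Polynomial.map_pow,
      Polynomial.map_pow, map_C]
    simp only [Polynomial.map_map, h1]
    rw [derivative_map]
    have h4 : (eval₂RingHom φ T) X = T := by simp
    have h5 : (eval₂RingHom φ T).comp (C.comp C) = φ.comp C := by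
      rw [← RingHom.comp_assoc, h1]
    rw [h4]
    simp only [h5]
  rw [h3] at h2
  exact h2.symm

/-- the resultant vanishes if there is a common root -/
theorem spec2_zero (hP : 0 < P.natDegree) {n : ℕ} (hn : κ.natDegree + s * (P.natDegree - 1) ≤ n)
    (hn' : s * P.natDegree ≤ n) {T w : E} (h1 : (P.map φ).eval w = 0)
    (h2 : T * ((κ.map (φ.comp C)).eval w * (Polynomial.derivative (P.map φ)).eval w ^ s) +
      ((dX P).map φ).eval w ^ s = 0) : eval₂ φ T (R2 P κ s n) = 0 := by
  rw [spec2]
  obtain ⟨p, q, _, _, h⟩ := exists_mul_add_mul_eq_C_resultant (P.map φ) (Sp2 P κ s φ T)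
    (m := P.natDegree) (n := n) natDegree_map_le (Sp2_natDegree P κ s φ hn hn' T) (Or.inl hP.ne')
  have h3 := congrArg (eval w) h
  rw [eval_add, eval_mul, eval_mul, eval_C, h1] at h3
  have h4 : (Sp2 P κ s φ T).eval w = 0 := by
    unfold Sp2
    rw [eval_add, eval_mul, eval_mul, eval_C, eval_pow, eval_pow]
    exact h2
  rw [h4, zero_mul, zero_mul, add_zero] at h3
  exact h3.symm

/-- the resultant is not zero for some `T` -/
theorem spec2_ne [IsAlgClosed E] [CharZero E] (hφ : Function.Injective φ) (hP : P ≠ 0)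
    {n : ℕ} (hn : κ.natDegree + s * (P.natDegree - 1) ≤ n) (hn' : s * P.natDegree ≤ n)
    (h : ∀ α : E, (P.map φ).eval α = 0 →
      (κ.map (φ.comp C)).eval α * (Polynomial.derivative (P.map φ)).eval α ^ s ≠ 0) :
    ∃ T : E, eval₂ φ T (R2 P κ s n) ≠ 0 := by
  classical
  have hdeg : (P.map φ).natDegree = P.natDegree := natDegree_map_eq_of_injective hφ P
  have hP0 : P.map φ ≠ 0 := (Polynomial.map_ne_zero_iff hφ).2 hP
  obtain ⟨T, hT⟩ := Infinite.exists_notMem_finset ((P.map φ).roots.toFinset.image (fun α =>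
    -((dX P).map φ).eval α ^ s /
      ((κ.map (φ.comp C)).eval α * (Polynomial.derivative (P.map φ)).eval α ^ s)))
  refine ⟨T, ?_⟩
  rw [spec2, ← hdeg, resultant_eq_prod_eval _ _ _
    (Sp2_natDegree P κ s φ hn hn' T) (IsAlgClosed.splits _)]
  refine mul_ne_zero (pow_ne_zero _ (leadingCoeff_ne_zero.2 hP0)) ?_
  intro h0
  rw [Multiset.prod_eq_zero_iff, Multiset.mem_map] at h0
  obtain ⟨α, hα, h1⟩ := h0
  apply hT
  rw [Finset.mem_image]
  refine ⟨α, Multiset.mem_toFinset.2 hα, ?_⟩
  have h2 := h α (isRoot_of_mem_roots hα)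
  unfold Sp2 at h1
  rw [eval_add, eval_mul, eval_mul, eval_C, eval_pow, eval_pow] at h1
  rw [div_eq_iff h2]
  linear_combination -h1

end elim

section fld

variable {k : Type} [Field k] {P : Polynomial (Polynomial k)}

/-- roots of the curve are not roots of `κ` -/
theorem kappa_ne {E : Type} [Field E] (hP : Irreducible P) (h0 : 0 < P.natDegree)
    {φ φ' : Polynomial k →+* E} (hφ : Function.Injective φ) (hφ' : Function.Injective φ')
    {κ : Polynomial k} {w : E} (hw : (P.map φ').eval w = 0)
    (hκ : (κ.map (φ'.comp C)).eval w ≠ 0) {α : E} (hα : (P.map φ).eval α = 0) :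
    (κ.map (φ.comp C)).eval α ≠ 0 := by
  intro h1
  set i := algebraMap (Polynomial k) (FractionRing (Polynomial k)) with hi
  have hirr := irr_map hP h0
  have hmap : ∀ (ψ : Polynomial k →+* E) (hψ : Function.Injective ψ),
      (κ.map (i.comp C)).map (IsFractionRing.lift hψ : FractionRing (Polynomial k) →+* E) =
        κ.map (ψ.comp C) := by
    intro ψ hψ
    rw [Polynomial.map_map]
    congr 1
    ext x
    simp [hi]
  have h2 : P.map i ∣ κ.map (i.comp C) := by
    by_contra hnd
    obtain ⟨a, b, hab⟩ := (hirr.coprime_iff_not_dvd).2 hnd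
    have h3 := congrArg (fun q => (q.map (IsFractionRing.lift hφ :
      FractionRing (Polynomial k) →+* E)).eval α) hab
    simp only [Polynomial.map_add, Polynomial.map_mul, eval_add, eval_mul, map_lift hφ,
      hmap φ hφ, hα, h1, mul_zero, add_zero, Polynomial.map_one, eval_one] at h3
    exact zero_ne_one h3
  obtain ⟨c, hc⟩ := h2
  apply hκ
  rw [← hmap φ' hφ', hc, Polynomial.map_mul, map_lift hφ', eval_mul, hw, zero_mul]

end fld

/-- **The polynomial relation.** -/
theorem exists_Q2 {k : Type} [Field k] [CharZero k] {E : Type} [Field E] [IsAlgClosed E]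
    [CharZero E] {P : Polynomial (Polynomial k)} (hP : Irreducible P) (h0 : 0 < P.natDegree)
    {a : ℕ} (ha : ∀ i, (P.coeff i).natDegree ≤ a) (κ : Polynomial k) (s : ℕ) {n : ℕ}
    (hn : κ.natDegree + s * (P.natDegree - 1) ≤ n) (hn' : s * P.natDegree ≤ n)
    {φ₀ : Polynomial k →+* E} (hφ₀ : Function.Injective φ₀)
    {w₀ : E} (hw₀ : (κ.map (φ₀.comp C)).eval w₀ ≠ 0) (hPw₀ : (P.map φ₀).eval w₀ = 0) :
    ∃ Q : Polynomial (Polynomial k), Bd (P.natDegree * (s * a) + n * a) P.natDegree Q ∧
      ∀ φ : Polynomial k →+* E, Function.Injective φ → ∀ w, (P.map φ).eval w = 0 → ∀ h : E,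
        h * ((κ.map (φ.comp C)).eval w * (Polynomial.derivative (P.map φ)).eval w ^ s) +
          ((dX P).map φ).eval w ^ s = 0 →
        eval₂ φ h Q = 0 ∧ eval₂ φ h (Polynomial.derivative Q) ≠ 0 := by
  classical
  have : Fact (Irreducible (P.map (algebraMap (Polynomial k) (FractionRing (Polynomial k))))) :=
    ⟨irr_map hP h0⟩
  obtain ⟨ρ₀, hρ₀, hρ₀w⟩ := exists_rho hφ₀ hPw₀
  have hmul : ∀ (φ : Polynomial k →+* E) (w : E), Function.Injective φ → (P.map φ).eval w = 0 →
      (κ.map (φ.comp C)).eval w * (Polynomial.derivative (P.map φ)).eval w ^ s ≠ 0 :=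
    fun φ w hφ hw => mul_ne_zero (kappa_ne hP h0 hφ hφ₀ hPw₀ hw₀ hw)
      (pow_ne_zero _ (simple_root hP h0 hφ hw))
  set y : Lf P := AdjoinRoot.root _ with hy
  -- images
  have him : ∀ (φ : Polynomial k →+* E) (w : E) (ρ : Lf P →+* E), ρ.comp (iL P) = φ → ρ y = w →
      ∀ R : Polynomial (Polynomial k), ρ ((R.map (iL P)).eval y) = (R.map φ).eval w := by
    intro φ w ρ h1 h2 R
    rw [← eval₂_eq_eval_map, hom_eval₂, h1, h2, eval₂_eq_eval_map]
  have hder : ∀ (φ : Polynomial k →+* E) (w : E) (ρ : Lf P →+* E), ρ.comp (iL P) = φ → ρ y = w →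
      ρ ((κ.map ((iL P).comp C)).eval y *
        (Polynomial.derivative (P.map (iL P))).eval y ^ s) =
        (κ.map (φ.comp C)).eval w * (Polynomial.derivative (P.map φ)).eval w ^ s := by
    intro φ w ρ h1 h2
    have h3 : κ.map ((iL P).comp C) = (κ.map C).map (iL P) := (Polynomial.map_map _ _ _).symm
    have h4 : κ.map (φ.comp C) = (κ.map C).map φ := (Polynomial.map_map _ _ _).symm
    rw [derivative_map, derivative_map, map_mul, map_pow, h3, h4, him φ w ρ h1 h2,
      him φ w ρ h1 h2]
  have hyP : (κ.map ((iL P).comp C)).eval y *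
      (Polynomial.derivative (P.map (iL P))).eval y ^ s ≠ 0 := by
    intro h1
    have h2 := congrArg ρ₀ h1
    rw [map_zero, hder φ₀ w₀ ρ₀ hρ₀ hρ₀w] at h2
    exact hmul φ₀ w₀ hφ₀ hPw₀ h2
  set hL : Lf P := -((dX P).map (iL P)).eval y ^ s / ((κ.map ((iL P).comp C)).eval y *
      (Polynomial.derivative (P.map (iL P))).eval y ^ s) with hhL
  have hLeq : hL * ((κ.map ((iL P).comp C)).eval y *
      (Polynomial.derivative (P.map (iL P))).eval y ^ s) +
      ((dX P).map (iL P)).eval y ^ s = 0 := by
    rw [hhL, div_mul_cancel₀ _ hyP, neg_add_cancel]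
  have hR0 : eval₂ (iL P) hL (R2 P κ s n) = 0 :=
    spec2_zero P κ s (iL P) h0 hn hn' root_eval hLeq
  have hRne : (R2 P κ s n).map (iL P) ≠ 0 := by
    obtain ⟨T, hT⟩ := spec2_ne P κ s φ₀ hφ₀ hP.ne_zero hn hn' (fun α hα => hmul φ₀ α hφ₀ hα)
    intro h1
    apply hT
    have h2 : (R2 P κ s n).map φ₀ = 0 := by
      rw [← hρ₀, ← Polynomial.map_map, h1, Polynomial.map_zero]
    rw [eval₂_eq_eval_map, h2, eval_zero]
  have : CharZero (Lf P) := by
    constructor
    intro m n hmn
    have h1 := congrArg ρ₀ hmn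
    rw [map_natCast, map_natCast] at h1
    exact Nat.cast_injective h1
  set m := ((R2 P κ s n).map (iL P)).rootMultiplicity hL with hm
  have hroot : ((R2 P κ s n).map (iL P)).IsRoot hL := by
    rw [IsRoot, ← eval₂_eq_eval_map]
    exact hR0
  have hmpos : 0 < m := (rootMultiplicity_pos hRne).2 hroot
  have h1 : (Polynomial.derivative^[m - 1] ((R2 P κ s n).map (iL P))).IsRoot hL :=
    isRoot_iterate_derivative_of_lt_rootMultiplicity (by omega)
  have h2 : ¬ (Polynomial.derivative^[m] ((R2 P κ s n).map (iL P))).IsRoot hL := by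
    intro h3
    have h4 : m < ((R2 P κ s n).map (iL P)).rootMultiplicity hL := by
      rw [lt_rootMultiplicity_iff_isRoot_iterate_derivative hRne]
      intro j hj
      rcases Nat.lt_or_ge j m with h5 | h5
      · exact isRoot_iterate_derivative_of_lt_rootMultiplicity h5
      · have h6 : j = m := le_antisymm hj h5
        rw [h6]
        exact h3
    exact lt_irrefl _ h4
  rw [iterate_derivative_map] at h1 h2
  refine ⟨Polynomial.derivative^[m - 1] (R2 P κ s n), (R2_bd P κ s ha n).iterate _,
    fun φ hφ w hw h hh => ?_⟩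
  obtain ⟨ρ, hρ, hρw⟩ := exists_rho hφ hw
  have hρh : ρ hL = h := by
    have h3 := congrArg ρ hLeq
    rw [map_add, map_mul, map_zero, hder φ w ρ hρ hρw, map_pow, him φ w ρ hρ hρw] at h3
    have h4 := hmul φ w hφ hw
    have h5 : (ρ hL - h) * ((κ.map (φ.comp C)).eval w *
        (Polynomial.derivative (P.map φ)).eval w ^ s) = 0 := by
      linear_combination h3 - hh
    exact sub_eq_zero.1 ((mul_eq_zero.1 h5).resolve_right h4)
  have hev : ∀ R : Polynomial (Polynomial k), eval₂ φ h R = ρ ((R.map (iL P)).eval hL) := by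
    intro R
    rw [← eval₂_eq_eval_map, hom_eval₂, hρ, hρh]
  constructor
  · rw [hev, h1, map_zero]
  · rw [hev]
    have h3 : Polynomial.derivative (Polynomial.derivative^[m - 1] (R2 P κ s n)) =
        Polynomial.derivative^[m] (R2 P κ s n) := by
      rw [← Function.iterate_succ_apply' (f := ⇑Polynomial.derivative)]
      congr 2
      omega
    rw [h3]
    intro h4
    apply h2
    rw [IsRoot]
    exact ρ.injective (by rw [h4, map_zero])

end Pool.Agent.TH813.CurveG
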