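import Mathlib
import Pool.Agent.TH813.CurveA
import Pool.Agent.TH813.CurveB
import Pool.Agent.TH813.Curve4

/-!
# The count of the points on plane curves
-/

set_option autoImplicit false

open Finset Module
open scoped PeriodPair

noncomputable section

namespace Pool.Agent.TH813.CurveG

open Polynomial
open Pool.Agent.W252 Pool.Agent.W669.Gel
open Pool.Agent.TH813.ZtFin Pool.Agent.TH813.Ell Pool.Agent.TH813.MixSys
open Pool.Agent.TH813.Curve (dX dX_coeff ph ph_apply ph_inj eval_sum eval_der_sum der_aeval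
  simple_root coeff_le swap_le choose_add_le Bd)
open Pool.Agent.TH813.Rel (DF)

variable {F : IntermediateField ℚ ℂ}

/-- the coordinate of a point which differs from `exp_T z` by an algebraic point: `c e^z` with an
algebraic `c ≠ 0`, resp. `℘(z + c)` with a logarithm `c` of an algebraic point -/
def IsPt (F : IntermediateField ℚ ℂ) : Typ → ℂ → ℂ → Prop
  | none, z, w => ∃ c : ℂ, c ≠ 0 ∧ IsAlgebraic F c ∧ w = c * Complex.exp z
  | some L, z, w => ∃ c : ℂ, Null F (some L) c ∧ z + c ∉ L.lattice ∧ w = ℘[L] (z + c)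

/-- the cubic polynomial of the curve -/
def kap (L : PeriodPair) (h2 : L.g₂ ∈ F) (h3 : L.g₃ ∈ F) : Polynomial F :=
  4 * X ^ 3 - C ⟨L.g₂, h2⟩ * X - C ⟨L.g₃, h3⟩

theorem wp_facts {L : PeriodPair} (h2 : L.g₂ ∈ F) (h3 : L.g₃ ∈ F) {z w : ℂ}
    (hn : ¬ Null F (some L) z) (h : IsPt F (some L) z w) :
    ∃ Y : ℂ, Y ≠ 0 ∧ aeval w (kap L h2 h3) = Y ^ 2 ∧
      ∀ D ∈ DF F, D w = Y * ell (some L) D z := by
  obtain ⟨c, hc, hl, rfl⟩ := h
  obtain ⟨X', Y, -, hY, hX', hcu, -, hD⟩ := sol_wp h2 h3 (A := 1) (B := ℘[L] (z + c))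
    (u := z) ⟨one_ne_zero, hn, c, hc, hl, one_mul _⟩
  rw [one_mul] at hX'
  refine ⟨Y, hY, ?_, fun D hDF => ?_⟩
  · unfold kap
    rw [map_sub, map_sub, map_mul, map_mul, map_pow, aeval_X, aeval_C, aeval_C]
    change aeval _ 4 * ℘[L] (z + c) ^ 3 - L.g₂ * ℘[L] (z + c) - L.g₃ = Y ^ 2
    rw [hcu, hX']
    have h4 : aeval X' (4 : Polynomial F) = 4 := by
      rw [show (4 : Polynomial F) = ((4 : ℕ) : Polynomial F) by norm_num, map_natCast]
      norm_num
    rw [h4]
  · rw [hX']
    exact hD D hDF

/-- the derivative of the equation -/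
theorem der_eq {T : Typ} {P : Polynomial (Polynomial F)} {z w Y : ℂ}
    (h : (P.map (ph F z)).eval w = 0) {D : Derivation ℚ ℂ ℂ} (hD : D ∈ DF F)
    (hw : D w = Y * ell T D z) :
    ((dX P).map (ph F z)).eval w * D z +
      (Y * (Polynomial.derivative (P.map (ph F z))).eval w) * ell T D z = 0 := by
  have h1 : (dX P).natDegree ≤ P.natDegree := by
    rw [natDegree_le_iff_coeff_eq_zero]
    intro N hN
    rw [dX_coeff, coeff_eq_zero_of_natDegree_lt hN, map_zero]
  rw [eval_sum P le_rfl] at h
  have h2 := congrArg D h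
  rw [map_sum, map_zero] at h2
  rw [eval_sum _ h1, eval_der_sum P le_rfl, ← h2, mul_sum, sum_mul, sum_mul, ← sum_add_distrib]
  refine sum_congr rfl (fun i _ => ?_)
  rw [dX_coeff, Derivation.leibniz, der_aeval hD, Derivation.leibniz_pow, hw]
  simp only [smul_eq_mul, nsmul_eq_mul]
  ring

/-- the condition on a point of the space -/
def Cond (F : IntermediateField ℚ ℂ) (T : Typ) {r : ℕ} (v : Fin r → ℂ) (x : Fin r → ℚ) : Prop :=
  ¬ Null F T (lc v x) ∧
    ∃ D ∈ DF F, D (lc v x) ≠ 0 ∧ ∀ c, Null F T (lc v c) → D (lc v c) = 0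

/-- the bound for the degrees -/
def MT : Typ → ℕ → ℕ → ℕ
  | none, a, b => (2 * a + 1) * b
  | some _, a, b => 4 * a * b + a + 2 * b

theorem main_irr {T : Typ} (hT : InF F T) {r : ℕ} (v : Fin r → ℂ)
    (hv : ∀ c : Fin r → ℚ, lc v c = 0 → c = 0)
    {P : Polynomial (Polynomial F)} (hP : Irreducible P) {a : ℕ}
    (ha : ∀ i, (P.coeff i).natDegree ≤ a) (S : Finset (Fin r → ℚ))
    (hS : ∀ x ∈ S, Cond F T v x ∧ ∃ w, IsPt F T (lc v x) w ∧
      (P.map (ph F (lc v x))).eval w = 0) :
    S.card ≤ (MT T a P.natDegree * r).choose r := by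
  classical
  rcases S.eq_empty_or_nonempty with h | ⟨x₀, hx₀⟩
  · rw [h, card_empty]
    exact Nat.zero_le _
  have htr : ∀ x, Cond F T v x → ¬ IsAlgebraic F (lc v x) := by
    rintro x ⟨_, D, hD, hne, _⟩ halg
    exact hne (killed_of_alg halg D hD)
  obtain ⟨hc₀, w₀, hw₀, hPz₀⟩ := hS x₀ hx₀
  have hz₀ := htr _ hc₀
  rcases Nat.eq_zero_or_pos P.natDegree with h0 | h0
  · exfalso
    rw [eq_C_of_natDegree_eq_zero h0, map_C, eval_C] at hPz₀
    have h1 : P.coeff 0 = 0 := ph_inj hz₀ (by rw [hPz₀, map_zero])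
    apply hP.ne_zero
    rw [eq_C_of_natDegree_eq_zero h0, h1, map_zero]
  have hφC : ∀ z : ℂ, (ph F z).comp C = algebraMap F ℂ := by
    intro z
    ext x
    simp [ph]
  have haev : ∀ (κ : Polynomial F) (z w : ℂ),
      (κ.map ((ph F z).comp C)).eval w = aeval w κ := by
    intro κ z w
    rw [hφC, aeval_def, eval₂_eq_eval_map]
  obtain ⟨q, A, t, hAt, hMT, hq, hall⟩ : ∃ (q : ℕ → Polynomial F) (A t : ℕ), 0 < A + t ∧
      A + t = MT T a P.natDegree ∧ (∀ j, (q j).natDegree ≤ A) ∧
      ∀ x ∈ S, ∃ h : ℂ, (∀ D ∈ DF F, ell T D (lc v x) = h * D (lc v x)) ∧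
        ∑ j ∈ range (t + 1), aeval (lc v x) (q j) * h ^ j = 0 ∧
        ∑ j ∈ range (t + 1), aeval (lc v x) (q j) * (j * h ^ (j - 1)) ≠ 0 := by
    cases T with
    | none =>
      obtain ⟨Q, hQ, hQ'⟩ := exists_Q2 (E := ℂ) hP h0 ha X 1 (n := P.natDegree)
        (by rw [natDegree_X]; omega) (by omega) (ph_inj hz₀) (w₀ := w₀) (by
          rw [haev, aeval_X]
          obtain ⟨c, hc0, _, rfl⟩ := hw₀
          exact mul_ne_zero hc0 (Complex.exp_ne_zero _)) hPz₀
      refine ⟨fun j => Q.coeff j, P.natDegree * (1 * a) + P.natDegree * a, P.natDegree,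
        by omega, ?_, fun j => hQ.2 j, fun x hx => ?_⟩
      · change _ = (2 * a + 1) * P.natDegree
        ring
      · obtain ⟨hc, w, hw, hPz⟩ := hS x hx
        have hz := htr _ hc
        have hinj := ph_inj hz
        obtain ⟨c, hc0, hc', hwc⟩ := hw
        have hDw : ∀ D ∈ DF F, D w = w * ell none D (lc v x) := by
          intro D hD
          change D w = w * dlog D (lc v x)
          rw [hwc]
          unfold dlog
          rw [Derivation.leibniz, killed_of_alg hc' D hD, smul_zero, add_zero, smul_eq_mul,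
            mul_assoc, mul_div_cancel₀ _ (Complex.exp_ne_zero _)]
        have hw0 : w ≠ 0 := by
          rw [hwc]
          exact mul_ne_zero hc0 (Complex.exp_ne_zero _)
        set z := lc v x with hzdef
        have hne := mul_ne_zero hw0 (simple_root hP h0 hinj hPz)
        set h : ℂ := -((dX P).map (ph F z)).eval w /
          (w * (Polynomial.derivative (P.map (ph F z))).eval w) with hh
        have h1 : h * (w * (Polynomial.derivative (P.map (ph F z))).eval w) +
            ((dX P).map (ph F z)).eval w = 0 := by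
          rw [hh, div_mul_cancel₀ _ hne, neg_add_cancel]
        obtain ⟨h2, h3⟩ := hQ' (ph F z) hinj w hPz h (by
          rw [haev, aeval_X, pow_one, pow_one]
          exact h1)
        refine ⟨h, fun D hD => ?_, ?_, ?_⟩
        · have h4 := der_eq (T := none) hPz hD (hDw D hD)
          have h5 : (ell none D z - h * D z) * (w *
              (Polynomial.derivative (P.map (ph F z))).eval w) = 0 := by
            linear_combination h4 - D z * h1
          exact sub_eq_zero.1 ((mul_eq_zero.1 h5).resolve_right hne)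
        · rw [eval₂_eq_eval_map, eval_sum Q hQ.1] at h2
          exact h2
        · rw [eval₂_eq_eval_map, ← derivative_map, eval_der_sum Q hQ.1] at h3
          exact h3
    | some L =>
      obtain ⟨Y₀, hY₀, hκ₀, _⟩ := wp_facts hT.1 hT.2 hc₀.1 hw₀
      have hκd : (kap L hT.1 hT.2).natDegree ≤ 3 := by
        unfold kap
        compute_degree
      obtain ⟨Q', hQb, hQ'⟩ := exists_Q2 (E := ℂ) hP h0 ha (kap L hT.1 hT.2) 2
        (n := 2 * P.natDegree + 1) (by omega) (by omega) (ph_inj hz₀) (w₀ := w₀) (by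
          rw [haev, hκ₀]
          exact pow_ne_zero _ hY₀) hPz₀
      set Q := Q'.comp (-X ^ 2) with hQdef
      have hQ := Bd.comp hQb
      rw [← hQdef] at hQ
      refine ⟨fun j => Q.coeff j, P.natDegree * (2 * a) + (2 * P.natDegree + 1) * a,
        2 * P.natDegree, by omega, ?_, fun j => hQ.2 j, fun x hx => ?_⟩
      · change _ = 4 * a * P.natDegree + a + 2 * P.natDegree
        ring
      · obtain ⟨hc, w, hw, hPz⟩ := hS x hx
        have hz := htr _ hc
        have hinj := ph_inj hz
        obtain ⟨Y, hY, hκ, hDw⟩ := wp_facts hT.1 hT.2 hc.1 hw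
        set z := lc v x with hzdef
        have hne := mul_ne_zero hY (simple_root hP h0 hinj hPz)
        set h : ℂ := -((dX P).map (ph F z)).eval w /
          (Y * (Polynomial.derivative (P.map (ph F z))).eval w) with hh
        have h1 : h * (Y * (Polynomial.derivative (P.map (ph F z))).eval w) +
            ((dX P).map (ph F z)).eval w = 0 := by
          rw [hh, div_mul_cancel₀ _ hne, neg_add_cancel]
        have hell : ∀ D ∈ DF F, ell (some L) D z = h * D z := by
          intro D hD
          have h4 := der_eq (T := some L) hPz hD (hDw D hD)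
          have h5 : (ell (some L) D z - h * D z) * (Y *
              (Polynomial.derivative (P.map (ph F z))).eval w) = 0 := by
            linear_combination h4 - D z * h1
          exact sub_eq_zero.1 ((mul_eq_zero.1 h5).resolve_right hne)
        have hh0 : h ≠ 0 := by
          intro h5
          apply hc.1
          refine null_of_ell hT (fun D hD => ?_)
          rw [hell D hD, h5, zero_mul]
        obtain ⟨h2, h3⟩ := hQ' (ph F z) hinj w hPz (-h ^ 2) (by
          rw [haev, hκ]
          linear_combination (-(h * (Y * (Polynomial.derivative (P.map (ph F z))).eval w)) +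
            ((dX P).map (ph F z)).eval w) * h1)
        have hX2 : eval₂ (ph F z) h (-X ^ 2 : Polynomial (Polynomial F)) = -h ^ 2 := by
          rw [eval₂_neg, eval₂_pow, eval₂_X]
        refine ⟨h, hell, ?_, ?_⟩
        · have h6 : eval₂ (ph F z) h Q = 0 := by
            rw [hQdef, eval₂_comp, hX2]
            exact h2
          rw [eval₂_eq_eval_map, eval_sum Q hQ.1] at h6
          exact h6
        · have h6 : eval₂ (ph F z) h (Polynomial.derivative Q) ≠ 0 := by
            rw [hQdef, derivative_comp, eval₂_mul, eval₂_comp, hX2]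
            refine mul_ne_zero ?_ h3
            have h7 : Polynomial.derivative (-X ^ 2 : Polynomial (Polynomial F)) =
                -(2 * X) := by
              rw [derivative_neg, derivative_X_sq, map_ofNat]
            rw [h7, eval₂_neg, eval₂_mul, eval₂_X]
            have h8 : eval₂ (ph F z) h (2 : Polynomial (Polynomial F)) = 2 := by
              rw [show (2 : Polynomial (Polynomial F)) = ((2 : ℕ) : Polynomial (Polynomial F)) by
                norm_num, eval₂_natCast]
              norm_num
            rw [h8]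
            exact neg_ne_zero.2 (mul_ne_zero two_ne_zero hh0)
          rw [eval₂_eq_eval_map, ← derivative_map, eval_der_sum Q hQ.1] at h6
          exact h6
  have key := count_q hT v hv hAt hq S (fun x hx => ⟨(hS x hx).1.1, (hS x hx).1.2, hall x hx⟩)
  rwa [hMT] at key

theorem MT_add (T : Typ) (a b a' b' : ℕ) :
    MT T a b + MT T a' b' ≤ MT T (a + a') (b + b') := by
  cases T with
  | none =>
    change (2 * a + 1) * b + (2 * a' + 1) * b' ≤ (2 * (a + a') + 1) * (b + b')
    have : (2 * (a + a') + 1) * (b + b') = (2 * a + 1) * b + (2 * a' + 1) * b' +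
        (2 * a * b' + 2 * a' * b) := by ring
    omega
  | some L =>
    change 4 * a * b + a + 2 * b + (4 * a' * b' + a' + 2 * b') ≤
      4 * (a + a') * (b + b') + (a + a') + 2 * (b + b')
    have : 4 * (a + a') * (b + b') + (a + a') + 2 * (b + b') =
        4 * a * b + a + 2 * b + (4 * a' * b' + a' + 2 * b') + (4 * a * b' + 4 * a' * b) := by ring
    omega

theorem MT_mono (T : Typ) {a b a' b' : ℕ} (ha : a ≤ a') (hb : b ≤ b') :
    MT T a b ≤ MT T a' b' := by
  obtain ⟨k, rfl⟩ := Nat.exists_eq_add_of_le ha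
  obtain ⟨l, rfl⟩ := Nat.exists_eq_add_of_le hb
  exact (Nat.le_add_right _ _).trans (MT_add T a b k l)

/-- **The count of the solutions.** -/
theorem main {T : Typ} (hT : InF F T) {r : ℕ} (v : Fin r → ℂ)
    (hv : ∀ c : Fin r → ℚ, lc v c = 0 → c = 0)
    (P : Polynomial (Polynomial F)) (hP0 : P ≠ 0) (S : Finset (Fin r → ℚ))
    (hS : ∀ x ∈ S, Cond F T v x ∧ ∃ w, IsPt F T (lc v x) w ∧
      (P.map (ph F (lc v x))).eval w = 0) :
    S.card ≤ (MT T (Bivariate.swap P).natDegree P.natDegree * r).choose r := by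
  classical
  rcases Nat.eq_zero_or_pos r with hr | hr
  · subst hr
    have h : S = ∅ := by
      rw [Finset.eq_empty_iff_forall_notMem]
      intro x hx
      obtain ⟨_, D, _, hne, _⟩ := (hS x hx).1
      apply hne
      have h1 : lc v x = 0 := by
        rw [lc_apply]
        simp
      rw [h1, map_zero]
    rw [h, card_empty]
    exact Nat.zero_le _
  revert hP0 S
  induction P using WfDvdMonoid.induction_on_irreducible with
  | zero => exact fun h => absurd rfl h
  | unit u hu =>
    intro _ S hS
    have h : S = ∅ := by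
      rw [Finset.eq_empty_iff_forall_notMem]
      intro x hx
      obtain ⟨_, w, _, h6⟩ := hS x hx
      have h4 : IsUnit ((u.map (ph F (lc v x))).eval w) := by
        have h5 : IsUnit ((Polynomial.evalRingHom w).comp
          (Polynomial.mapRingHom (ph F (lc v x))) u) := hu.map _
        exact h5
      exact h4.ne_zero h6
    rw [h, card_empty]
    exact Nat.zero_le _
  | mul p i hp hi ih =>
    intro _ S hS
    have h1 := main_irr hT v hv hi (a := (Bivariate.swap i).natDegree) (coeff_le i)
      (S.filter (fun x => ∃ w, IsPt F T (lc v x) w ∧ (i.map (ph F (lc v x))).eval w = 0))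
      (fun x hx => ⟨(hS x (mem_filter.1 hx).1).1, (mem_filter.1 hx).2⟩)
    have h2 := ih hp
      (S.filter (fun x => ∃ w, IsPt F T (lc v x) w ∧ (p.map (ph F (lc v x))).eval w = 0))
      (fun x hx => ⟨(hS x (mem_filter.1 hx).1).1, (mem_filter.1 hx).2⟩)
    have h3 : S.card ≤ (S.filter (fun x => ∃ w, IsPt F T (lc v x) w ∧
        (i.map (ph F (lc v x))).eval w = 0)).card +
        (S.filter (fun x => ∃ w, IsPt F T (lc v x) w ∧
        (p.map (ph F (lc v x))).eval w = 0)).card := by
      refine le_trans (card_le_card ?_) (card_union_le _ _)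
      intro x hx
      obtain ⟨_, w, hw, h4⟩ := hS x hx
      rw [Polynomial.map_mul, eval_mul] at h4
      rw [mem_union, mem_filter, mem_filter]
      rcases mul_eq_zero.1 h4 with h5 | h5
      · exact Or.inl ⟨hx, w, hw, h5⟩
      · exact Or.inr ⟨hx, w, hw, h5⟩
    have hi0 : Bivariate.swap i ≠ 0 := by
      rw [Ne, EmbeddingLike.map_eq_zero_iff]
      exact hi.ne_zero
    have hp0 : Bivariate.swap p ≠ 0 := by
      rw [Ne, EmbeddingLike.map_eq_zero_iff]
      exact hp
    rw [map_mul, natDegree_mul hi0 hp0, natDegree_mul hi.ne_zero hp]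
    refine h3.trans ((add_le_add h1 h2).trans ((choose_add_le _ _ hr).trans
      (Nat.choose_le_choose _ ?_)))
    rw [← add_mul]
    exact Nat.mul_le_mul_right r (MT_add T _ _ _ _)

end Pool.Agent.TH813.CurveG
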