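import Mathlib
import Pool.Agent.TH813.CurveC

/-!
# The count of the points on plane curves: sets
-/

set_option autoImplicit false

open Module
open scoped PeriodPair

noncomputable section

namespace Pool.Agent.TH813.CurveG

open Polynomial
open Pool.Agent.TH813.ZtFin Pool.Agent.TH813.MixSys
open Pool.Agent.TH813.Curve (ph ph_apply swap_le alg_of_root)
open Pool.Agent.TH813.Rel (DF)

variable {F : IntermediateField ℚ ℂ}

/-- the field generated by `F` and the logarithms of algebraic points in `V` -/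
def FH (F : IntermediateField ℚ ℂ) (T : Typ) (V : Submodule ℚ ℂ) : IntermediateField ℚ ℂ :=
  F ⊔ IntermediateField.adjoin ℚ {u : ℂ | u ∈ V ∧ Null F T u}

theorem aev (P : Polynomial (Polynomial F)) (z w : ℂ) :
    Polynomial.aevalAeval z w P = (P.map (ph F z)).eval w := by
  rw [← Polynomial.eval₂_eq_eval_map]
  have h : ((Polynomial.aevalAeval z w : Polynomial (Polynomial F) →ₐ[F] ℂ) :
      Polynomial (Polynomial F) →+* ℂ) = Polynomial.eval₂RingHom (ph F z) w := by
    ext x
    · simp [ph]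
    · simp [ph]
    · simp
  exact RingHom.congr_fun h P

theorem null_of_pt_alg {T : Typ} (hT : InF F T) {z w : ℂ} (h : IsPt F T z w)
    (hw : IsAlgebraic F w) : Null F T z := by
  cases T with
  | none =>
    obtain ⟨c, hc0, hc, rfl⟩ := h
    have h9 : Complex.exp z = c⁻¹ * (c * Complex.exp z) := by
      rw [← mul_assoc, inv_mul_cancel₀ hc0, one_mul]
    change IsAlgebraic F (Complex.exp z)
    rw [h9]
    exact hc.inv.mul hw
  | some L =>
    obtain ⟨c, hc, hl, rfl⟩ := h
    refine null_of_om hT.1 hT.2 (fun D hD => ?_)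
    have h1 : Pool.Agent.TH813.Ell.om L D (z + c) = 0 := om_of_null (Or.inr hw) hD
    rw [Pool.Agent.TH813.Ell.om_add L D (hD _ hT.1) (hD _ hT.2), om_of_null hc hD,
      add_zero] at h1
    exact h1

/-- **The count of the points.** -/
theorem count_set {T : Typ} (hT : InF F T) (V : Submodule ℚ ℂ) [FiniteDimensional ℚ V]
    (P : Polynomial (Polynomial F)) (hP0 : P ≠ 0) {a b : ℕ}
    (ha : ∀ i, (P.coeff i).natDegree ≤ a) (hb : P.natDegree ≤ b) :
    {z : ℂ | z ∈ V ∧ ¬ IsAlgebraic (FH F T V) z ∧ ∃ w, IsPt F T z w ∧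
      Polynomial.aevalAeval z w P = 0}.encard ≤
      ((MT T a b * finrank ℚ V).choose (finrank ℚ V) : ℕ) := by
  classical
  set N := (MT T a b * finrank ℚ V).choose (finrank ℚ V) with hN
  set e := finBasis ℚ V with he
  have hlc : ∀ p : V, lc (fun i => (e i : ℂ)) (e.repr p) = (p : ℂ) := by
    intro p
    rw [lc_apply]
    have h := congrArg Subtype.val (e.sum_repr p)
    rw [← h]
    push_cast
    rfl
  have hlc' : ∀ c : Fin (finrank ℚ V) → ℚ, lc (fun i => (e i : ℂ)) c =
      ((e.equivFun.symm c : V) : ℂ) := by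
    intro c
    have h4 := hlc (e.equivFun.symm c)
    have h5 : (e.repr (e.equivFun.symm c) : Fin (finrank ℚ V) → ℚ) = c :=
      e.equivFun.apply_symm_apply c
    rw [h5] at h4
    exact h4
  set φ : ℂ → (Fin (finrank ℚ V) → ℚ) := fun z => if h : z ∈ V then e.repr ⟨z, h⟩ else 0 with hφ
  have hφz : ∀ z ∈ V, lc (fun i => (e i : ℂ)) (φ z) = z := by
    intro z hz
    rw [hφ]
    simp only [hz, dite_true]
    exact hlc ⟨z, hz⟩
  by_contra hcon
  rw [not_le] at hcon
  obtain ⟨t, hts, ht⟩ := Set.exists_subset_encard_eq (Order.add_one_le_of_lt hcon)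
  have hfin : t.Finite := by
    rw [← Set.encard_lt_top_iff, ht]
    exact_mod_cast ENat.natCast_lt_top (N + 1)
  have hcard : hfin.toFinset.card = N + 1 := by
    rw [hfin.encard_eq_coe_toFinset_card] at ht
    exact_mod_cast ht
  have hinj : Set.InjOn φ (hfin.toFinset : Set ℂ) := by
    intro z hz z' hz' h
    rw [← hφz z (hts (hfin.mem_toFinset.1 hz)).1, ← hφz z' (hts (hfin.mem_toFinset.1 hz')).1, h]
  have key := main hT (fun i => (e i : ℂ)) (by
    intro c hc
    rw [hlc'] at hc
    exact (LinearEquiv.map_eq_zero_iff _).1 (Subtype.ext hc)) P hP0 (hfin.toFinset.image φ) (by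
    intro x hx
    obtain ⟨z, hz, rfl⟩ := Finset.mem_image.1 hx
    obtain ⟨hzV, htr, w, hw, hPz⟩ := hts (hfin.mem_toFinset.1 hz)
    unfold Cond
    rw [hφz z hzV]
    rw [aev] at hPz
    refine ⟨⟨fun hnull => ?_, ?_⟩, w, hw, hPz⟩
    · apply htr
      have h1 : z ∈ FH F T V := by
        have h2 : z ∈ IntermediateField.adjoin ℚ {u : ℂ | u ∈ V ∧ Null F T u} :=
          IntermediateField.subset_adjoin _ _ ⟨hzV, hnull⟩
        exact (le_sup_right : _ ≤ F ⊔ _) h2
      exact isAlgebraic_algebraMap (⟨z, h1⟩ : FH F T V)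
    · by_contra hcon2
      push Not at hcon2
      apply htr
      refine alg_of_killed (fun D hD => ?_)
      by_contra hDz
      have h1 : D ∈ DF F := fun x hx => hD x ((le_sup_left : F ≤ F ⊔ _) hx)
      obtain ⟨c, hc, hDc⟩ := hcon2 D h1 hDz
      apply hDc
      apply hD
      have h2 : lc (fun i => (e i : ℂ)) c ∈
          IntermediateField.adjoin ℚ {u : ℂ | u ∈ V ∧ Null F T u} := by
        refine IntermediateField.subset_adjoin _ _ ⟨?_, hc⟩
        rw [hlc']
        exact Subtype.mem _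
      exact (le_sup_right : _ ≤ F ⊔ _) h2)
  rw [Finset.card_image_of_injOn hinj, hcard] at key
  have hmono : (MT T (Polynomial.Bivariate.swap P).natDegree P.natDegree *
      finrank ℚ V).choose (finrank ℚ V) ≤ N :=
    Nat.choose_le_choose _ (Nat.mul_le_mul_right _ (MT_mono T (swap_le ha) hb))
  omega

/-- the case without logarithms -/
theorem count_set' {T : Typ} (hT : InF F T) (V : Submodule ℚ ℂ) [FiniteDimensional ℚ V]
    (hV : ∀ u ∈ V, u ≠ 0 → ¬ Null F T u)
    (P : Polynomial (Polynomial F)) {a b : ℕ}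
    (ha : ∀ i, (P.coeff i).natDegree ≤ a) (hb : P.natDegree ≤ b) :
    {z : ℂ | z ∈ V ∧ z ≠ 0 ∧ (∃ i, Polynomial.aeval z (P.coeff i) ≠ 0) ∧ ∃ w, IsPt F T z w ∧
      Polynomial.aevalAeval z w P = 0}.encard ≤
      ((MT T a b * finrank ℚ V).choose (finrank ℚ V) : ℕ) := by
  rcases eq_or_ne P 0 with rfl | hP0
  · have h : {z : ℂ | z ∈ V ∧ z ≠ 0 ∧
        (∃ i, Polynomial.aeval z ((0 : Polynomial (Polynomial F)).coeff i) ≠ 0) ∧
        ∃ w, IsPt F T z w ∧ Polynomial.aevalAeval z w (0 : Polynomial (Polynomial F)) = 0} = ∅ := by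
      rw [Set.eq_empty_iff_forall_notMem]
      rintro z ⟨_, _, ⟨i, hi⟩, _⟩
      exact hi (by simp)
    rw [h, Set.encard_empty]
    exact zero_le
  · refine le_trans (Set.encard_le_encard ?_) (count_set hT V P hP0 ha hb)
    rintro z ⟨hzV, hz0, ⟨i, hi⟩, w, hw, hPz⟩
    refine ⟨hzV, fun halg => ?_, w, hw, hPz⟩
    have h1 : FH F T V = F := by
      unfold FH
      rw [sup_eq_left, IntermediateField.adjoin_le_iff]
      rintro u ⟨huV, hu⟩
      have h2 : u = 0 := by
        by_contra h3
        exact hV u huV h3 hu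
      rw [h2]
      exact F.zero_mem
    rw [h1] at halg
    have h7 : P.map (ph F z) ≠ 0 := by
      intro h8
      apply hi
      have h9 := congrArg (fun q => Polynomial.coeff q i) h8
      simpa [ph] using h9
    rw [aev] at hPz
    exact hV z hzV hz0 (null_of_pt_alg hT hw (alg_of_root halg h7 hPz))

end Pool.Agent.TH813.CurveG
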