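import Mathlib
import Pool.Agent.TH813.GTypes
import Pool.Agent.TH813.Count
import Pool.Agent.TH813.ZtFin

/-!
# Points with a field of transcendence degree one in a rational space
-/

set_option autoImplicit false

open Finset Module
open scoped PeriodPair

noncomputable section

namespace Pool.Agent.TH813.One

open H667R3 Pool.Agent.W245.EB
open Pool.Agent.W252 Pool.Agent.W669.Gel
open Pool.Agent.TH813.Core Pool.Agent.TH813.Ell Pool.Agent.TH813.G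
open Pool.Agent.TH813.Rel (DF MK bracket_mem)
open Pool.Agent.TH813.ZtFin (om_exact)

variable {F : IntermediateField ℚ ℂ}

/-- the numbers killed by all derivations which kill the field are in the field -/
def Cl (K : IntermediateField ℚ ℂ) : Prop :=
  ∀ w : ℂ, (∀ D ∈ DF K, D w = 0) → w ∈ K

/-- Rosenlicht's property of one group type at one point -/
structure Good {m : ℕ} (T : Ty F m) : Prop where
  r1 : ∀ K : IntermediateField ℚ ℂ, (∀ x ∈ F, x ∈ K) → Cl K → ∀ τ f : ℂ,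
    (∀ D ∈ DF K, D f = T.lam 0 D τ) → ∀ D ∈ DF K, T.lam 0 D τ = 0
  r2 : ∀ K : IntermediateField ℚ ℂ, (∀ x ∈ F, x ∈ K) → Cl K → ∀ j : Fin (m + 1), j ≠ 0 →
    ∀ g ∈ K, ∀ τ : ℂ, (∀ D ∈ DF K, T.lam j D τ = g * T.lam 0 D τ) →
      ∀ D ∈ DF K, T.lam 0 D τ = 0
  r3 : ∀ K : IntermediateField ℚ ℂ, (∀ x ∈ F, x ∈ K) → Cl K → ∀ (j : Fin (m + 1)) (τ : ℂ),
    (∀ D ∈ DF K, T.lam 0 D τ = 0) → ∃ f : ℂ, ∀ D ∈ DF K, T.lam j D τ = D f

theorem good_TM : Good (G.TM F) where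
  r1 := fun K _ _ τ f h D hD => by
    have h1 := Pool.Agent.TH813.Ros.exact K (n := 1) (fun _ => 1)
      (fun _ => Complex.exp τ) (fun _ => one_mem _) (fun _ => Complex.exp_ne_zero _) f
      (fun D hD => by
        rw [h D hD]
        simp [G.TM, dlog])
    rw [← h D hD]
    exact h1 D hD
  r2 := fun K _ _ j hj => absurd (Subsingleton.elim (α := Fin 1) j 0) hj
  r3 := fun K _ _ j τ h => ⟨0, fun D hD => by
    have hj : j = 0 := Subsingleton.elim (α := Fin 1) j 0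
    rw [hj, h D hD, map_zero]⟩

theorem good_TF (L : PeriodPair) (h2 : L.g₂ ∈ F) (h3 : L.g₃ ∈ F) : Good (TF L h2 h3) where
  r1 := fun K hK _ τ f h => om_exact (hK _ h2) (hK _ h3) τ f h
  r2 := fun K _ _ j hj => absurd (Subsingleton.elim (α := Fin 1) j 0) hj
  r3 := fun K _ _ j τ h => ⟨0, fun D hD => by
    have hj : j = 0 := Subsingleton.elim (α := Fin 1) j 0
    rw [hj, h D hD, map_zero]⟩

theorem good_TE {L : PeriodPair} {κ : ℂ} (hE : Eig L κ) (h2 : L.g₂ ∈ F) (h3 : L.g₃ ∈ F) :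
    Good (TE hE h2 h3) where
  r1 := fun K hK _ τ f h => om_exact (hK _ h2) (hK _ h3) τ f h
  r2 := fun K hK hcl j hj g hg τ h => by
    have hj1 : j = 1 := by
      fin_cases j
      · exact absurd rfl hj
      · rfl
    subst hj1
    have hκ : κ ∈ K := hcl _ (fun D hD => hE.kill D (hD _ (hK _ h2)) (hD _ (hK _ h3)))
    have hkL : ∀ c ∈ kL L, c ∈ K := fun c hc => hcl _ (fun D _ => der_kL D hc)
    have key := ros_linK hE K (hK _ h2) (hK _ h3) hkL hκ (m := 0) (n := 1) Fin.elim0 Fin.elim0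
      (fun l => l.elim0) (fun l => l.elim0) (fun _ => g) (fun _ => -1) (fun _ => τ)
      (fun _ => hg) (fun _ => neg_mem (one_mem _)) (zt L τ - κ * τ) (fun D hD => by
        have h4 : xi L κ D τ = g * om L D τ := h D hD
        unfold xi et at h4
        rw [map_sub, Derivation.leibniz, hD _ hκ]
        simp only [smul_eq_mul, univ_eq_empty, sum_empty, univ_unique, sum_singleton]
        linear_combination h4) (fun _ => 1) (fun _ => one_mem _) (fun N _ _ h6 => by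
        simp only [univ_unique, sum_singleton] at h6 ⊢
        have h7 := (mul_eq_zero.1 h6).resolve_left (neg_ne_zero.2 one_ne_zero)
        have h8 : N default = 0 := (map_eq_zero (starRingEnd ℂ)).1 h7
        rw [h8, mul_zero])
    intro D hD
    have h9 := key D hD
    simp only [univ_unique, sum_singleton, one_mul] at h9
    exact h9
  r3 := fun K hK hcl j τ h => by
    have hκ : κ ∈ K := hcl _ (fun D hD => hE.kill D (hD _ (hK _ h2)) (hD _ (hK _ h3)))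
    fin_cases j
    · exact ⟨0, fun D hD => by rw [map_zero]; exact h D hD⟩
    · refine ⟨zt L τ - κ * τ, fun D hD => ?_⟩
      have h4 : om L D τ = 0 := h D hD
      change xi L κ D τ = _
      unfold xi et
      rw [map_sub, Derivation.leibniz, hD _ hκ, h4]
      simp only [smul_eq_mul]
      ring

variable {ι : Type} {e : ι → ℕ}

/-- coordinates -/
abbrev Cx {ι : Type} (e : ι → ℕ) : Type := Σ c : ι, Option (Fin (e c + 1))

variable (T : ∀ c : ι, Ty F (e c))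

/-- the coordinates of a derivation at a point -/
def crd (D : Derivation ℚ ℂ ℂ) (κ : Cx e) (z : ι → ℂ) : ℂ := (T κ.1).frm κ.2 D (z κ.1)

/-- the derivation kills the point -/
def Kills (D : Derivation ℚ ℂ ℂ) (z : ι → ℂ) : Prop := ∀ κ, crd T D κ z = 0

theorem crd_sub_smul (D D' : Derivation ℚ ℂ ℂ) (ρ : ℂ) (κ : Cx e) (z : ι → ℂ) :
    crd T (D - ρ • D') κ z = crd T D κ z - ρ * crd T D' κ z := by
  unfold crd
  rw [sub_eq_add_neg, ← neg_smul, (T κ.1).frm_add_der, (T κ.1).frm_smul_der]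
  ring

theorem sub_smul_mem {D D' : Derivation ℚ ℂ ℂ} (hD : D ∈ DF F) (hD' : D' ∈ DF F) (ρ : ℂ) :
    D - ρ • D' ∈ DF F := Submodule.sub_mem _ hD (Submodule.smul_mem _ _ hD')

/-- the coordinates as linear maps -/
def crdL (D : DF F) (κ : Cx e) : (ι → ℂ) →ₗ[ℚ] ℂ := (T κ.1).frmL κ.2 D.2 ∘ₗ LinearMap.proj κ.1

theorem crdL_apply (D : DF F) (κ : Cx e) (z : ι → ℂ) : crdL T D κ z = crd T D κ z := rfl

/-- all minors vanish -/
def Rk1 (z : ι → ℂ) : Prop := ∀ D ∈ DF F, ∀ D' ∈ DF F, ∀ κ κ' : Cx e,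
  crd T D κ z * crd T D' κ' z = crd T D' κ z * crd T D κ' z

/-- the mixed minors vanish -/
def Ort (y z : ι → ℂ) : Prop := ∀ D ∈ DF F, ∀ D' ∈ DF F, ∀ κ κ' : Cx e,
  crd T D κ y * crd T D' κ' z - crd T D' κ y * crd T D κ' z +
    (crd T D κ z * crd T D' κ' y - crd T D' κ z * crd T D κ' y) = 0

variable {T}

theorem Rk1.rho {z : ι → ℂ} (h : Rk1 T z) {D₀ : Derivation ℚ ℂ ℂ} (hD₀ : D₀ ∈ DF F) {κ₀ : Cx e}
    (h0 : crd T D₀ κ₀ z ≠ 0) {D : Derivation ℚ ℂ ℂ} (hD : D ∈ DF F) :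
    Kills T (D - (crd T D κ₀ z / crd T D₀ κ₀ z) • D₀) z := by
  intro κ
  rw [crd_sub_smul]
  have := h D hD D₀ hD₀ κ₀ κ
  field_simp
  linear_combination -this

theorem rk1_of_rho {z : ι → ℂ} {D₀ : Derivation ℚ ℂ ℂ}
    (h : ∀ D ∈ DF F, ∃ ρ : ℂ, ∀ κ, crd T D κ z = ρ * crd T D₀ κ z) : Rk1 T z := by
  intro D hD D' hD' κ κ'
  obtain ⟨ρ, hρ⟩ := h D hD
  obtain ⟨ρ', hρ'⟩ := h D' hD'
  rw [hρ κ, hρ' κ', hρ' κ, hρ κ']
  ring

/-- a point killed by the derivations which kill a point of rank one -/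
theorem rk1_of_kills {y z : ι → ℂ} (h : Rk1 T y)
    (hk : ∀ D ∈ DF F, Kills T D y → Kills T D z) : Rk1 T z := by
  by_cases h0 : ∃ D₀ ∈ DF F, ∃ κ₀, crd T D₀ κ₀ y ≠ 0
  · obtain ⟨D₀, hD₀, κ₀, h0⟩ := h0
    refine rk1_of_rho (D₀ := D₀) (fun D hD => ⟨crd T D κ₀ y / crd T D₀ κ₀ y, fun κ => ?_⟩)
    have h1 := hk _ (sub_smul_mem hD hD₀ _) (h.rho hD₀ h0 hD) κ
    rw [crd_sub_smul] at h1
    exact sub_eq_zero.1 h1
  · push Not at h0
    intro D hD D' hD' κ κ'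
    rw [hk D hD (fun κ => h0 D hD κ) κ, hk D' hD' (fun κ => h0 D' hD' κ) κ]
    ring

/-- the converse -/
theorem kills_symm {y z : ι → ℂ} (h : Rk1 T y)
    (hk : ∀ D ∈ DF F, Kills T D y → Kills T D z) (hz : ∃ D ∈ DF F, ¬ Kills T D z) :
    ∀ D ∈ DF F, Kills T D z → Kills T D y := by
  obtain ⟨D₁, hD₁, hne⟩ := hz
  by_cases h0 : ∃ D₀ ∈ DF F, ∃ κ₀, crd T D₀ κ₀ y ≠ 0
  · obtain ⟨D₀, hD₀, κ₀, h0⟩ := h0
    intro D hD hDz
    have e1 : ∀ D ∈ DF F, ∀ κ, crd T D κ z = (crd T D κ₀ y / crd T D₀ κ₀ y) * crd T D₀ κ z := by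
      intro D hD κ
      have h1 := hk _ (sub_smul_mem hD hD₀ _) (h.rho hD₀ h0 hD) κ
      rw [crd_sub_smul] at h1
      exact sub_eq_zero.1 h1
    have h2 : ∃ κ, crd T D₀ κ z ≠ 0 := by
      by_contra hcon
      push Not at hcon
      apply hne
      intro κ
      rw [e1 D₁ hD₁ κ, hcon κ, mul_zero]
    obtain ⟨κ, h2⟩ := h2
    have h3 := e1 D hD κ
    rw [hDz κ, eq_comm] at h3
    have h4 := (mul_eq_zero.1 h3).resolve_right h2
    intro κ'
    have h5 := h.rho hD₀ h0 hD κ'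
    rw [crd_sub_smul, h4, zero_mul, sub_zero] at h5
    exact h5
  · push Not at h0
    intro D hD _ κ
    exact h0 D hD κ

variable (T)

/-- the field of the numbers killed by the derivations over `F` which kill the point -/
def Ky (z : ι → ℂ) : IntermediateField ℚ ℂ where
  carrier := {w | ∀ D ∈ DF F, Kills T D z → D w = 0}
  mul_mem' := by
    intro a b ha hb D hF hD
    rw [Derivation.leibniz, ha D hF hD, hb D hF hD, smul_zero, smul_zero, add_zero]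
  add_mem' := by
    intro a b ha hb D hF hD
    rw [map_add, ha D hF hD, hb D hF hD, add_zero]
  algebraMap_mem' := fun r D _ _ => D.map_algebraMap r
  inv_mem' := by
    intro a ha D hF hD
    rw [Derivation.leibniz_inv, ha D hF hD, smul_zero]

variable {T}

theorem F_le (z : ι → ℂ) : ∀ x ∈ F, x ∈ Ky T z := fun x hx _ hD _ => hD x hx

theorem mem_DF_Ky {z : ι → ℂ} {D : Derivation ℚ ℂ ℂ} :
    D ∈ DF (Ky T z) ↔ D ∈ DF F ∧ Kills T D z := by
  constructor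
  · intro h
    have hF : D ∈ DF F := fun x hx => h x (F_le z x hx)
    refine ⟨hF, fun κ => ((T κ.1).N_iff' hF (z κ.1)).1 (fun x hx => ?_) κ.2⟩
    exact h x (fun D' hF' hD' => ((T κ.1).N_iff' hF' (z κ.1)).2 (fun o => hD' ⟨κ.1, o⟩) x hx)
  · intro h w hw
    exact hw D h.1 h.2

theorem cl_Ky (z : ι → ℂ) : Cl (Ky T z) := fun _ hw D hD hk => hw D (mem_DF_Ky.2 ⟨hD, hk⟩)

theorem crd_bracket {D : Derivation ℚ ℂ ℂ} (hD : D ∈ DF F) (D' : Derivation ℚ ℂ ℂ) {z : ι → ℂ}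
    (h : Kills T D z) (κ : Cx e) : crd T ⁅D, D'⁆ κ z = D (crd T D' κ z) :=
  (T κ.1).frm_bracket hD D' (z := z κ.1) (fun o => h ⟨κ.1, o⟩) κ.2

/-- quotients of coordinates are killed -/
theorem quot_mem {z : ι → ℂ} (h : Rk1 T z) {D₀ : Derivation ℚ ℂ ℂ} (hD₀ : D₀ ∈ DF F)
    {κ : Cx e} (h0 : crd T D₀ κ z ≠ 0) (κ' : Cx e) :
    crd T D₀ κ' z / crd T D₀ κ z ∈ Ky T z := by
  intro D hD hk
  rw [div_eq_mul_inv, Derivation.leibniz, Derivation.leibniz_inv, ← crd_bracket hD _ hk,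
    ← crd_bracket hD _ hk]
  have := h ⁅D, D₀⁆ (bracket_mem F hD hD₀) D₀ hD₀ κ' κ
  simp only [smul_eq_mul]
  field_simp
  linear_combination this

/-- the second coordinate -/
def Two (T : ∀ c : ι, Ty F (e c)) (y : ι → ℂ) : Prop :=
  (∃ c, ∃ D ∈ DF F, D (y c) ≠ 0) ∨
    ∃ (c : ι) (j : Fin (e c + 1)), j ≠ 0 ∧ ∃ D ∈ DF F, (T c).lam 0 D (y c) ≠ 0 ∨
      (T c).lam j D (y c) ≠ 0

/-- **The tangent vectors.** -/
theorem tangent (hG : ∀ c, Good (T c)) {y τ : ι → ℂ} (h : Rk1 T y)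
    (h1 : ∃ c, ∃ D ∈ DF F, (T c).lam 0 D (y c) ≠ 0) (h2 : Two T y) (ho : Ort T y τ) :
    ∀ D ∈ DF F, Kills T D y → Kills T D τ := by
  obtain ⟨c₀, D₀, hD₀, h0⟩ := h1
  have h0' : crd T D₀ ⟨c₀, some 0⟩ y ≠ 0 := h0
  -- nonzero coordinates at `D₀`
  have hnz : ∀ {D : Derivation ℚ ℂ ℂ} {κ : Cx e}, D ∈ DF F → crd T D κ y ≠ 0 →
      crd T D₀ κ y ≠ 0 := by
    intro D κ hD hne h3
    have h4 := h D₀ hD₀ D hD ⟨c₀, some 0⟩ κ
    rw [h3, mul_zero] at h4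
    exact mul_ne_zero h0' hne h4
  have hst : ∀ D ∈ DF F, Kills T D y → ∀ κ κ', crd T D₀ κ y * crd T D κ' τ =
      crd T D κ τ * crd T D₀ κ' y := by
    intro D hD hk κ κ'
    have := ho D₀ hD₀ D hD κ κ'
    rw [hk κ, hk κ'] at this
    linear_combination this
  -- it is enough to have one zero
  have fin : ∀ κ, crd T D₀ κ y ≠ 0 → (∀ D ∈ DF F, Kills T D y → crd T D κ τ = 0) →
      ∀ D ∈ DF F, Kills T D y → Kills T D τ := by
    intro κ hκ hz D hD hk κ'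
    have h3 := hst D hD hk κ κ'
    rw [hz D hD hk, zero_mul] at h3
    exact (mul_eq_zero.1 h3).resolve_left hκ
  by_cases hA : ∃ (c : ι) (j : Fin (e c + 1)), j ≠ 0 ∧ (T c).lam 0 D₀ (y c) ≠ 0
  · -- the second kind
    obtain ⟨c, j, hj, hc⟩ := hA
    have hc' : crd T D₀ ⟨c, some 0⟩ y ≠ 0 := hc
    have hg := quot_mem h hD₀ hc' ⟨c, some j⟩
    have key := (hG c).r2 (Ky T y) (F_le y) (cl_Ky y) j hj _ hg (τ c) (fun D hD => by
      obtain ⟨hDF, hk⟩ := mem_DF_Ky.1 hD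
      have h3 := hst D hDF hk ⟨c, some 0⟩ ⟨c, some j⟩
      change _ * (T c).lam j D (τ c) = (T c).lam 0 D (τ c) * _ at h3
      field_simp
      linear_combination h3)
    exact fin ⟨c, some 0⟩ hc' (fun D hD hk => key D (mem_DF_Ky.2 ⟨hD, hk⟩))
  · push Not at hA
    -- a coordinate with exact values
    obtain ⟨κ, hκ, hex⟩ : ∃ κ : Cx e, crd T D₀ κ y ≠ 0 ∧
        ∃ f : ℂ, ∀ D ∈ DF F, Kills T D y → crd T D κ τ = D f := by
      rcases h2 with ⟨c, D, hD, hne⟩ | ⟨c, j, hj, D, hD, hne | hne⟩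
      · exact ⟨⟨c, none⟩, hnz (κ := ⟨c, none⟩) hD hne, τ c, fun D _ _ => rfl⟩
      · exact absurd (hA c j hj) (hnz (κ := ⟨c, some 0⟩) hD hne)
      · refine ⟨⟨c, some j⟩, hnz (κ := ⟨c, some j⟩) hD hne, ?_⟩
        have hj' : crd T D₀ ⟨c, some j⟩ y ≠ 0 := hnz (κ := ⟨c, some j⟩) hD hne
        obtain ⟨f, hf⟩ := (hG c).r3 (Ky T y) (F_le y) (cl_Ky y) j (τ c) (fun D hD => by
          obtain ⟨hDF, hk⟩ := mem_DF_Ky.1 hD
          have h3 := hst D hDF hk ⟨c, some j⟩ ⟨c, some 0⟩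
          have h4 : crd T D₀ ⟨c, some 0⟩ y = 0 := hA c j hj
          rw [h4, mul_zero] at h3
          exact (mul_eq_zero.1 h3).resolve_left hj')
        exact ⟨f, fun D hD hk => hf D (mem_DF_Ky.2 ⟨hD, hk⟩)⟩
    obtain ⟨f, hf⟩ := hex
    have hg := quot_mem h hD₀ hκ ⟨c₀, some 0⟩
    have key := (hG c₀).r1 (Ky T y) (F_le y) (cl_Ky y) (τ c₀)
      (crd T D₀ ⟨c₀, some 0⟩ y / crd T D₀ κ y * f) (fun D hD => by
      obtain ⟨hDF, hk⟩ := mem_DF_Ky.1 hD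
      have h3 := hst D hDF hk κ ⟨c₀, some 0⟩
      change _ * (T c₀).lam 0 D (τ c₀) = _ at h3
      rw [Derivation.leibniz, hD _ hg, smul_zero, add_zero, smul_eq_mul, ← hf D hDF hk]
      field_simp
      linear_combination -h3)
    exact fin ⟨c₀, some 0⟩ h0' (fun D hD hk => key D (mem_DF_Ky.2 ⟨hD, hk⟩))

end Pool.Agent.TH813.One
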