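import Mathlib
import Pool.Agent.TH813.One

/-!
# Points with a field of transcendence degree one in a rational space: the count
-/

set_option autoImplicit false

open Finset Module

noncomputable section

namespace Pool.Agent.TH813.One

open Pool.Agent.TH813.G
open Pool.Agent.TH813.Rel (DF MK mem_cl subset_cl kills_clF rk_le_of_subset_cl trF exists_derF)

section count

variable {V : Type*} [AddCommGroup V] [Module ℚ V] [FiniteDimensional ℚ V]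

/-- the counting lemma for complex valued forms -/
theorem countC {I : Type*} (b : I → V →ₗ[ℚ] V →ₗ[ℚ] ℂ)
    (hsymm : ∀ a x y, b a x y = b a y x) (S : Finset V)
    (h1 : ∀ t ∈ S, ∀ a, b a t t = 0)
    (hT : ∀ t ∈ S, ∀ τ, (∀ a, b a t τ = 0) → ∀ a, b a τ τ = 0)
    (hne : ∀ t ∈ S, ∀ t' ∈ S, t ≠ t' → ∃ a, b a t t' ≠ 0) :
    S.card ≤ (2 * finrank ℚ V).choose (finrank ℚ V) := by
  classical
  let b' : I × Dual ℚ ℂ → V →ₗ[ℚ] V →ₗ[ℚ] ℚ := fun a => (b a.1).compr₂ a.2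
  have hb' : ∀ a x y, b' a x y = a.2 (b a.1 x y) := fun a x y => rfl
  have hz : ∀ a x y, (∀ φ : Dual ℚ ℂ, b' (a, φ) x y = 0) → b a x y = 0 := fun a x y h =>
    (forall_dual_apply_eq_zero_iff ℚ _).1 h
  refine Count.count b' (fun a x y => by rw [hb', hb', hsymm]) two_ne_zero S
    (fun t ht a => by rw [hb', h1 t ht, map_zero])
    (fun t ht τ hτ a => by
      rw [hb', hT t ht τ (fun a => hz a t τ (fun φ => hτ (a, φ))), map_zero])
    (fun t ht t' ht' hn => ?_)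
  obtain ⟨a, ha⟩ := hne t ht t' ht' hn
  by_contra hcon
  push Not at hcon
  exact ha (hz a t t' (fun φ => hcon (a, φ)))

end count

variable {F : IntermediateField ℚ ℂ} {ι : Type} {e : ι → ℕ} (T : ∀ c : ι, Ty F (e c))

/-- the index set of the forms -/
abbrev Qx (F : IntermediateField ℚ ℂ) {ι : Type} (e : ι → ℕ) : Type :=
  (DF F × DF F) × (Cx e × Cx e)

/-- the forms -/
def bq (a : Qx F e) : (ι → ℂ) →ₗ[ℚ] (ι → ℂ) →ₗ[ℚ] ℂ :=
  LinearMap.mk₂ ℚ (fun y z => crdL T a.1.1 a.2.1 y * crdL T a.1.2 a.2.2 z -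
      crdL T a.1.2 a.2.1 y * crdL T a.1.1 a.2.2 z +
    (crdL T a.1.1 a.2.1 z * crdL T a.1.2 a.2.2 y - crdL T a.1.2 a.2.1 z * crdL T a.1.1 a.2.2 y))
    (fun x y z => by simp only [map_add]; ring)
    (fun c x y => by simp only [map_smul, smul_mul_assoc, mul_smul_comm, smul_sub, smul_add])
    (fun x y z => by simp only [map_add]; ring)
    (fun c x y => by simp only [map_smul, smul_mul_assoc, mul_smul_comm, smul_sub, smul_add])

theorem bq_apply (a : Qx F e) (y z : ι → ℂ) : bq T a y z =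
    crd T a.1.1 a.2.1 y * crd T a.1.2 a.2.2 z - crd T a.1.2 a.2.1 y * crd T a.1.1 a.2.2 z +
    (crd T a.1.1 a.2.1 z * crd T a.1.2 a.2.2 y - crd T a.1.2 a.2.1 z * crd T a.1.1 a.2.2 y) := rfl

theorem bq_ort {y z : ι → ℂ} : (∀ a, bq T a y z = 0) ↔ Ort T y z := by
  constructor
  · intro h D hD D' hD' κ κ'
    exact h ((⟨D, hD⟩, ⟨D', hD'⟩), (κ, κ'))
  · rintro h ⟨⟨⟨D, hD⟩, ⟨D', hD'⟩⟩, ⟨κ, κ'⟩⟩
    exact h D hD D' hD' κ κ'

variable {T}

theorem ort_self {y : ι → ℂ} : Ort T y y ↔ Rk1 T y := by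
  constructor
  · intro h D hD D' hD' κ κ'
    have := h D hD D' hD' κ κ'
    have h2 : (2 : ℂ) * (crd T D κ y * crd T D' κ' y - crd T D' κ y * crd T D κ' y) = 0 := by
      linear_combination this
    exact sub_eq_zero.1 ((mul_eq_zero.1 h2).resolve_left two_ne_zero)
  · intro h D hD D' hD' κ κ'
    have := h D hD D' hD' κ κ'
    linear_combination 2 * this

variable (T)

/-- the points of rank one outside the exceptional sets -/
def Sy (y : ι → ℂ) : Prop :=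
  Rk1 T y ∧ (∃ c, ∃ D ∈ DF F, (T c).lam 0 D (y c) ≠ 0) ∧ Two T y

/-- the vectors of `V` killed by the derivations which kill `y` -/
def Vy (V : Submodule ℚ (ι → ℂ)) (y : ι → ℂ) : Submodule ℚ (ι → ℂ) where
  carrier := {τ | τ ∈ V ∧ ∀ D ∈ DF F, Kills T D y → Kills T D τ}
  add_mem' := by
    rintro a b ⟨ha, ha'⟩ ⟨hb, hb'⟩
    refine ⟨V.add_mem ha hb, fun D hD hk κ => ?_⟩
    have := map_add (crdL T ⟨D, hD⟩ κ) a b
    rw [crdL_apply, crdL_apply, crdL_apply] at this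
    rw [this, ha' D hD hk κ, hb' D hD hk κ, add_zero]
  zero_mem' := by
    refine ⟨V.zero_mem, fun D hD hk κ => ?_⟩
    exact map_zero (crdL T ⟨D, hD⟩ κ)
  smul_mem' := by
    rintro c a ⟨ha, ha'⟩
    refine ⟨V.smul_mem c ha, fun D hD hk κ => ?_⟩
    have := map_smul (crdL T ⟨D, hD⟩ κ) c a
    rw [crdL_apply, crdL_apply] at this
    rw [this, ha' D hD hk κ, smul_zero]

variable {T}

theorem mem_Vy {V : Submodule ℚ (ι → ℂ)} {y τ : ι → ℂ} :
    τ ∈ Vy T V y ↔ τ ∈ V ∧ ∀ D ∈ DF F, Kills T D y → Kills T D τ := Iff.rfl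

theorem Sy.ne {y : ι → ℂ} (h : Sy T y) : ∃ D ∈ DF F, ¬ Kills T D y := by
  obtain ⟨c, D, hD, h1⟩ := h.2.1
  exact ⟨D, hD, fun hk => h1 (hk ⟨c, some 0⟩)⟩

theorem Vy_eq {V : Submodule ℚ (ι → ℂ)} {y y' : ι → ℂ} (hy : Rk1 T y)
    (hk : ∀ D ∈ DF F, Kills T D y → Kills T D y') (hy' : ∃ D ∈ DF F, ¬ Kills T D y') :
    Vy T V y = Vy T V y' := by
  have h' := kills_symm hy hk hy'
  ext τ
  constructor
  · rintro ⟨h1, h2⟩
    exact ⟨h1, fun D hD hD' => h2 D hD (h' D hD hD')⟩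
  · rintro ⟨h1, h2⟩
    exact ⟨h1, fun D hD hD' => h2 D hD (hk D hD hD')⟩

theorem card_le (hG : ∀ c, Good (T c)) (V : Submodule ℚ (ι → ℂ)) [FiniteDimensional ℚ V]
    (G : Finset (Submodule ℚ (ι → ℂ))) (hF : ∀ W ∈ G, ∃ y, y ∈ V ∧ Sy T y ∧ W = Vy T V y) :
    G.card ≤ (2 * finrank ℚ V).choose (finrank ℚ V) := by
  classical
  choose! y hyV hy hW using hF
  let f : G → V := fun W => ⟨y W, hyV W W.2⟩
  have hinj : Function.Injective f := by
    intro W W' h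
    have h1 : y W = y W' := congrArg (fun v : V => (v : ι → ℂ)) h
    apply Subtype.ext
    rw [hW W W.2, hW W' W'.2, h1]
  have hcard : G.card = (Finset.univ.image f).card := by
    rw [Finset.card_image_of_injective _ hinj, Finset.card_univ, Fintype.card_coe]
  rw [hcard]
  let b : Qx F e → V →ₗ[ℚ] V →ₗ[ℚ] ℂ := fun a => (bq T a).domRestrict₁₂ V V
  have hb : ∀ a (x z : V), b a x z = bq T a x z := fun a x z => rfl
  apply countC b
  · intro a x z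
    rw [hb, hb, bq_apply, bq_apply]
    ring
  · intro t ht
    obtain ⟨W, _, rfl⟩ := Finset.mem_image.1 ht
    intro a
    rw [hb]
    exact (bq_ort T).2 (ort_self.2 (hy W W.2).1) a
  · intro t ht τ hτ
    obtain ⟨W, _, rfl⟩ := Finset.mem_image.1 ht
    have hS := hy W W.2
    have h1 := tangent hG hS.1 hS.2.1 hS.2.2 ((bq_ort T).1 hτ)
    exact (bq_ort T).2 (ort_self.2 (rk1_of_kills hS.1 h1))
  · intro t ht t' ht' hne
    obtain ⟨W, _, rfl⟩ := Finset.mem_image.1 ht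
    obtain ⟨W', _, rfl⟩ := Finset.mem_image.1 ht'
    by_contra hcon
    push Not at hcon
    apply hne
    have hS := hy W W.2
    have h1 := tangent hG hS.1 hS.2.1 hS.2.2 ((bq_ort T).1 hcon)
    have h2 := Vy_eq (V := V) hS.1 h1 (hy W' W'.2).ne
    have h3 : W = W' := by
      apply Subtype.ext
      exact (hW W W.2).trans (h2.trans (hW W' W'.2).symm)
    rw [h3]

/-- **The main theorem.** -/
theorem main (hG : ∀ c, Good (T c)) (V : Submodule ℚ (ι → ℂ)) [FiniteDimensional ℚ V] :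
    ∃ G : Finset (Submodule ℚ (ι → ℂ)),
      G.card ≤ (2 * finrank ℚ V).choose (finrank ℚ V) ∧
      (∀ W ∈ G, W ≤ V ∧ (∃ y ∈ W, Sy T y) ∧ ∃ D₀ ∈ DF F, ∀ D ∈ DF F, ∃ ρ : ℂ,
        ∀ w ∈ W, Kills T (D - ρ • D₀) w) ∧
      (∀ W ∈ G, ∀ W' ∈ G, W ≠ W' → ∀ w ∈ W, w ∈ W' → ∀ D ∈ DF F, Kills T D w) ∧
      ∀ y ∈ V, Sy T y → ∃ W ∈ G, y ∈ W := by
  classical
  have hfin : {W | ∃ y, y ∈ V ∧ Sy T y ∧ W = Vy T V y}.Finite := by
    by_contra hinf
    obtain ⟨G, hG', hcard⟩ := (Set.not_finite.1 hinf : Set.Infinite _).exists_subset_card_eq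
      ((2 * finrank ℚ V).choose (finrank ℚ V) + 1)
    have := card_le hG V G (fun W hW => hG' hW)
    omega
  set G := hfin.toFinset with hGd
  have hm : ∀ W, W ∈ G ↔ ∃ y, y ∈ V ∧ Sy T y ∧ W = Vy T V y := fun W => by
    rw [hGd, Set.Finite.mem_toFinset]; rfl
  refine ⟨G, card_le hG V G (fun W hW => (hm W).1 hW), ?_, ?_, ?_⟩
  · intro W hW
    obtain ⟨y, hyV, hy, rfl⟩ := (hm W).1 hW
    refine ⟨fun x hx => hx.1, ⟨y, ⟨hyV, fun D _ h => h⟩, hy⟩, ?_⟩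
    obtain ⟨c, D₀, hD₀, h0⟩ := hy.2.1
    exact ⟨D₀, hD₀, fun D hD => ⟨_, fun w hw => hw.2 _ (sub_smul_mem hD hD₀ _)
      (hy.1.rho (κ₀ := ⟨c, some 0⟩) hD₀ h0 hD)⟩⟩
  · intro W hW W' hW' hne w hw hw' D hD
    obtain ⟨y, hyV, hy, rfl⟩ := (hm W).1 hW
    obtain ⟨y', hyV', hy', rfl⟩ := (hm W').1 hW'
    by_contra hk
    apply hne
    rw [Vy_eq hy.1 hw.2 ⟨D, hD, hk⟩, Vy_eq hy'.1 hw'.2 ⟨D, hD, hk⟩]
  · intro y hyV hy
    exact ⟨Vy T V y, (hm _).2 ⟨y, hyV, hy, rfl⟩, hyV, fun D _ h => h⟩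

/-! ### transcendence degrees -/

/-- a set of numbers which generates a field of transcendence degree at most one -/
theorem trF_le_one {S : Set ℂ} : trF F S ≤ 1 ↔ ∃ D₀ ∈ DF F, ∀ D ∈ DF F, ∃ ρ : ℂ,
    ∀ x ∈ S, (D - ρ • D₀) x = 0 := by
  classical
  have h01 : trF F S ≤ 1 ↔ (MK F).eRk S ≤ 1 := by
    have h := Pool.Agent.TH813.Rel.lt_iff (k := F) S 2
    have e1 : trF F S < (2 : ℕ) ↔ trF F S ≤ 1 := by
      have : ((2 : ℕ) : Cardinal) = Order.succ ((1 : ℕ) : Cardinal) := by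
        rw [Cardinal.succ_natCast]; exact Nat.cast_succ 1
      rw [this, Order.lt_succ_iff, Nat.cast_one]
    have e2 : (MK F).eRk S < (2 : ℕ) ↔ (MK F).eRk S ≤ 1 := by
      have : ((2 : ℕ) : ℕ∞) = 1 + 1 := by norm_num
      rw [this]
      exact ENat.lt_add_one_iff (by decide)
    rw [← e1, ← e2]
    exact h
  rw [h01]
  obtain ⟨I, hI⟩ := (MK F).exists_isBasis S (Set.subset_univ _)
  have hind : AlgebraicIndependent F (fun i : I => (i : ℂ)) := hI.indep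
  have hcl : ∀ D ∈ DF F, (∀ x ∈ I, D x = 0) → ∀ x ∈ S, D x = 0 := fun D hD h x hx =>
    kills_clF F hD h (by rw [hI.closure_eq_closure]; exact subset_cl _ hx)
  rw [← hI.encard_eq_eRk]
  constructor
  · intro h
    rcases Set.encard_le_one_iff_eq.1 h with h0 | ⟨a, ha⟩
    · refine ⟨0, Submodule.zero_mem _, fun D hD => ⟨0, fun x hx => ?_⟩⟩
      rw [smul_zero, sub_zero]
      exact hcl D hD (fun y hy => by rw [h0] at hy; exact absurd hy (Set.notMem_empty y)) x hx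
    · obtain ⟨D₀, hD₀, h1⟩ := exists_derF F hind (fun _ => 1)
      refine ⟨D₀, hD₀, fun D hD => ⟨D a, ?_⟩⟩
      refine hcl _ (sub_smul_mem hD hD₀ _) (fun y hy => ?_)
      have h2 := h1 ⟨y, hy⟩
      rw [ha] at hy
      have hya : y = a := hy
      have h3 : D₀ y = 1 := h2
      rw [Derivation.sub_apply, Derivation.smul_apply, h3, hya, smul_eq_mul, mul_one, sub_self]
  · rintro ⟨D₀, hD₀, h⟩
    rw [Set.encard_le_one_iff]
    intro a b ha hb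
    by_contra hab
    obtain ⟨D₁, hD₁, h1⟩ := exists_derF F hind (fun i => if (i : ℂ) = a then 1 else 0)
    obtain ⟨D₂, hD₂, h2⟩ := exists_derF F hind (fun i => if (i : ℂ) = b then 1 else 0)
    obtain ⟨ρ₁, hρ₁⟩ := h D₁ hD₁
    obtain ⟨ρ₂, hρ₂⟩ := h D₂ hD₂
    have haS := hI.subset ha
    have hbS := hI.subset hb
    have e1 : D₁ a = 1 := by rw [h1 ⟨a, ha⟩, if_pos rfl]
    have e2 : D₁ b = 0 := by rw [h1 ⟨b, hb⟩, if_neg (fun h : b = a => hab h.symm)]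
    have e3 : D₂ b = 1 := by rw [h2 ⟨b, hb⟩, if_pos rfl]
    have f1 := hρ₁ a haS
    have f2 := hρ₁ b hbS
    have f3 := hρ₂ b hbS
    rw [Derivation.sub_apply, Derivation.smul_apply, smul_eq_mul] at f1 f2 f3
    rw [e1] at f1
    rw [e2, zero_sub, neg_eq_zero] at f2
    rw [e3] at f3
    rcases mul_eq_zero.1 f2 with h5 | h5
    · rw [h5, zero_mul, sub_zero] at f1
      exact one_ne_zero f1
    · rw [h5, mul_zero, sub_zero] at f3
      exact one_ne_zero f3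

/-- sets of algebraic numbers -/
theorem one_le_trF {S : Set ℂ} (h : ∃ x ∈ S, ∃ D ∈ DF F, D x ≠ 0) : 1 ≤ trF F S := by
  obtain ⟨x, hx, D, hD, hne⟩ := h
  have h1 := Pool.Agent.TH813.Rel.le_iff (k := F) S 1
  rw [Nat.cast_one, Nat.cast_one] at h1
  refine h1.2 ?_
  rw [Order.one_le_iff_ne_zero]
  intro h2
  apply hne
  obtain ⟨I, hI⟩ := (MK F).exists_isBasis S (Set.subset_univ _)
  rw [← hI.encard_eq_eRk, Set.encard_eq_zero] at h2
  exact kills_clF F hD (S := I) (fun y hy => by rw [h2] at hy; exact absurd hy (Set.notMem_empty y))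
    (by rw [hI.closure_eq_closure]; exact subset_cl _ hx)

/-- the numbers of a point -/
def num (T : ∀ c : ι, Ty F (e c)) (z : ι → ℂ) : Set ℂ := ⋃ c, (T c).N (z c)

theorem num_iff {D : Derivation ℚ ℂ ℂ} (hD : D ∈ DF F) {z : ι → ℂ} :
    (∀ x ∈ num T z, D x = 0) ↔ Kills T D z := by
  constructor
  · intro h κ
    exact ((T κ.1).N_iff' hD (z κ.1)).1 (fun x hx => h x (Set.mem_iUnion.2 ⟨κ.1, hx⟩)) κ.2
  · intro h x hx
    obtain ⟨c, hc⟩ := Set.mem_iUnion.1 hx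
    exact ((T c).N_iff' hD (z c)).2 (fun o => h ⟨c, o⟩) x hc

theorem rk1_iff {y : ι → ℂ} : Rk1 T y ↔ trF F (num T y) ≤ 1 := by
  rw [trF_le_one]
  constructor
  · intro h
    by_cases h0 : ∃ D₀ ∈ DF F, ∃ κ₀, crd T D₀ κ₀ y ≠ 0
    · obtain ⟨D₀, hD₀, κ₀, h0⟩ := h0
      exact ⟨D₀, hD₀, fun D hD => ⟨_, (num_iff (sub_smul_mem hD hD₀ _)).2 (h.rho hD₀ h0 hD)⟩⟩
    · push Not at h0
      refine ⟨0, Submodule.zero_mem _, fun D hD => ⟨0, ?_⟩⟩
      rw [smul_zero, sub_zero]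
      exact (num_iff hD).2 (fun κ => h0 D hD κ)
  · rintro ⟨D₀, hD₀, h⟩
    refine rk1_of_rho (D₀ := D₀) (fun D hD => ?_)
    obtain ⟨ρ, hρ⟩ := h D hD
    refine ⟨ρ, fun κ => ?_⟩
    have h1 := (num_iff (sub_smul_mem hD hD₀ ρ)).1 hρ κ
    rw [crd_sub_smul] at h1
    exact sub_eq_zero.1 h1

/-- the numbers of a space -/
def numS (T : ∀ c : ι, Ty F (e c)) (W : Submodule ℚ (ι → ℂ)) : Set ℂ := ⋃ w ∈ W, num T w

/-- **The main theorem**, transcendence degrees. -/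
theorem main_tr (hG : ∀ c, Good (T c)) (V : Submodule ℚ (ι → ℂ)) [FiniteDimensional ℚ V] :
    ∃ G : Finset (Submodule ℚ (ι → ℂ)),
      G.card ≤ (2 * finrank ℚ V).choose (finrank ℚ V) ∧
      (∀ W ∈ G, W ≤ V ∧ (∃ y ∈ W, Sy T y) ∧ trF F (numS T W) = 1) ∧
      (∀ W ∈ G, ∀ W' ∈ G, W ≠ W' → ∀ w ∈ W, w ∈ W' → ∀ x ∈ num T w, IsAlgebraic F x) ∧
      ∀ y ∈ V, trF F (num T y) ≤ 1 → (∃ c, ∃ D ∈ DF F, (T c).lam 0 D (y c) ≠ 0) → Two T y →
        ∃ W ∈ G, y ∈ W := by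
  obtain ⟨G, h1, h2, h3, h4⟩ := main hG V
  refine ⟨G, h1, fun W hW => ?_, fun W hW W' hW' hne w hw hw' x hx => ?_, fun y hy hr ha hb =>
    h4 y hy ⟨rk1_iff.2 hr, ha, hb⟩⟩
  · obtain ⟨hWV, ⟨y, hyW, hy⟩, D₀, hD₀, hk⟩ := h2 W hW
    refine ⟨hWV, ⟨y, hyW, hy⟩, le_antisymm ?_ ?_⟩
    · rw [trF_le_one]
      refine ⟨D₀, hD₀, fun D hD => ?_⟩
      obtain ⟨ρ, hρ⟩ := hk D hD
      refine ⟨ρ, fun x hx => ?_⟩
      obtain ⟨w, hw, hx⟩ := Set.mem_iUnion₂.1 hx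
      exact (num_iff (sub_smul_mem hD hD₀ ρ)).2 (hρ w hw) x hx
    · obtain ⟨D, hD, hne⟩ := hy.ne
      apply one_le_trF
      by_contra hcon
      push Not at hcon
      exact hne ((num_iff hD).1 (fun x hx => hcon x (Set.mem_iUnion₂.2 ⟨y, hyW, hx⟩) D hD))
  · exact ZtFin.alg_of_killed (fun D hD => (num_iff hD).2 (h3 W hW W' hW' hne w hw hw' D hD) x hx)

end Pool.Agent.TH813.One
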