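import Mathlib
import Pool.Agent.TH813.GTup

/-!
# The relative theorem for the multiplicative group and several elliptic curves
-/

set_option autoImplicit false

open Finset Module
open scoped PeriodPair ComplexConjugate

noncomputable section

namespace Pool.Agent.TH813.G

open H667R3 Pool.Agent.W245.EB
open Pool.Agent.W252 Pool.Agent.W669.Gel
open Pool.Agent.TH813.Core Pool.Agent.TH813.Ell
open Pool.Agent.TH813.Rel (DF MK trF)
open Pool.Agent.TH813.Uni (trF_le_iff tr tr_add tr_eq tr_mono)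

variable {F : IntermediateField ℚ ℂ} {q : ℕ} {Λ : Fin q → PeriodPair} {κ : Fin q → ℂ}

theorem rk_congr {S S' : Set ℂ} (h : ∀ D ∈ DF F, (∀ x ∈ S, D x = 0) ↔ ∀ x ∈ S', D x = 0) :
    (MK F).eRk S = (MK F).eRk S' := by
  have h1 : (MK F).closure S = (MK F).closure S' := by
    ext x
    rw [mem_cl_iff, mem_cl_iff]
    refine forall_congr' (fun D => forall_congr' (fun hF => ?_))
    rw [h D hF]
  rw [← (MK F).eRk_closure_eq S, h1, (MK F).eRk_closure_eq S']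

theorem trF_le_congr {S S' : Set ℂ} (h : ∀ D ∈ DF F, (∀ x ∈ S, D x = 0) ↔ ∀ x ∈ S', D x = 0)
    {a m : ℕ} (hS : trF F S + m ≤ (a : Cardinal)) : trF F S' + m ≤ (a : Cardinal) := by
  obtain ⟨t, ht⟩ := Cardinal.lt_aleph0.1
    (lt_of_le_of_lt (le_self_add.trans hS) Cardinal.natCast_lt_aleph0)
  have h1 : trF F S' ≤ (t : Cardinal) := by
    rw [trF_le_iff, ← rk_congr h, ← trF_le_iff, ht]
  rw [ht] at hS
  exact (add_le_add_left h1 _).trans hS

theorem trF_NL (hE : ∀ c, Eig (Λ c) (κ c)) (h2 : ∀ c, (Λ c).g₂ ∈ F) (h3 : ∀ c, (Λ c).g₃ ∈ F)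
    {X W : SpL Λ} (h : X ≤ W) (hW : FdL W) : ∃ t : ℕ, trF F (NL Λ X W) = t ∧
      (MK F).eRk (NX (TA F hE h2 h3) (toS hE h2 h3 X) (toS hE h2 h3 W)) = t := by
  obtain ⟨t, ht⟩ := rk_lt (T := TA F hE h2 h3) (to_fd hE h2 h3 (hW.mono h)) (to_fd hE h2 h3 hW)
  refine ⟨t, trF_eq_of_rk ?_, ht⟩
  rw [← ht]
  refine rk_congr (fun D hF => ?_)
  rw [NX_iffL hE h2 h3 hF, NL_iff (fun c => hF _ (h2 c)) (fun c => hF _ (h3 c)) h]

theorem bot_conv (hE : ∀ c, Eig (Λ c) (κ c)) (h2 : ∀ c, (Λ c).g₂ ∈ F) (h3 : ∀ c, (Λ c).g₃ ∈ F)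
    (X A : SpL Λ) : toS hE h2 h3 X ⊓ toS hE h2 h3 A = ⊥ ↔ X ⊓ A = ⊥ := by
  rw [← to_inf, ← to_bot hE h2 h3]
  exact ⟨fun h => to_inj hE h2 h3 h, fun h => by rw [h]⟩

/-- **The relative theorem** for spaces. -/
theorem mainC (q r : ℕ) : ∃ B : ℕ, ∀ (Λ : Fin q → PeriodPair), NI Λ →
    ∀ F : IntermediateField ℚ ℂ, (∀ c, (Λ c).g₂ ∈ F) → (∀ c, (Λ c).g₃ ∈ F) →
    ∀ A V : SpL Λ, FdL V → finrank ℚ V.1 ≤ r → (∀ c, finrank (kL (Λ c)) (V.2 c) ≤ r) →
    ∃ 𝒯 : Finset (SpL Λ), 𝒯.card ≤ B ∧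
      (∀ W ∈ 𝒯, W ≤ V ∧ ∃ X ≤ W, X ⊓ A = ⊥ ∧
        trF F (NL Λ X W) + (1 : ℕ) ≤ ((wtL X : ℕ) : Cardinal)) ∧
      ∀ U ≤ V, ∀ m : ℕ, 0 < m →
        ((∃ X ≤ U, X ⊓ A = ⊥ ∧ trF F (NL Λ X X) + m ≤ ((wtL X : ℕ) : Cardinal)) ↔
        ∃ W ∈ 𝒯, ∃ X ≤ U ⊓ W, X ⊓ A = ⊥ ∧
          trF F (NL Λ X W) + m ≤ ((wtL X : ℕ) : Cardinal)) := by
  classical
  obtain ⟨B, hB⟩ := mainG (q + 1) (eE q) r
  refine ⟨B, fun Λ hni F h2 h3 A V hV hr1 hr2 => ?_⟩
  obtain ⟨κ, hE⟩ := exists_eigs Λ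
  obtain ⟨𝒯, hT1, hT2, hT3⟩ := hB F (TA F hE h2 h3) (ros_TA hE h2 h3 hni) (toS hE h2 h3 A)
    (toS hE h2 h3 V) (to_fd hE h2 h3 hV) (fun c => by
      refine Fin.cases ?_ (fun c => ?_) c
      · exact hr1
      · exact hr2 c)
  have hle : ∀ {X W : SpL Λ}, X ≤ W → FdL W → ∀ m : ℕ,
      (trF F (NL Λ X W) + m ≤ ((wtL X : ℕ) : Cardinal) ↔
        (MK F).eRk (NX (TA F hE h2 h3) (toS hE h2 h3 X) (toS hE h2 h3 W)) + m ≤
          ((wtd (TA F hE h2 h3) (toS hE h2 h3 X) : ℕ) : ℕ∞)) := by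
    intro X W h hW m
    obtain ⟨t, h1, h4⟩ := trF_NL hE h2 h3 h hW
    rw [h1, h4, wtd_to]
    norm_cast
  have hcv : ∀ Y : Sp (TA F hE h2 h3), Y ≤ toS hE h2 h3 V → ofS hE h2 h3 Y ≤ V := fun Y hY =>
    (to_le hE h2 h3).1 (by rw [to_of]; exact hY)
  refine ⟨𝒯.image (ofS hE h2 h3), Finset.card_image_le.trans hT1, fun W hW => ?_,
    fun U hUV m hm => ?_⟩
  · obtain ⟨Y, hY, rfl⟩ := Finset.mem_image.1 hW
    obtain ⟨h1, X, hX, hXA, hlt, -⟩ := hT2 Y hY
    have h4 := hcv Y h1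
    have h5 : ofS hE h2 h3 X ≤ ofS hE h2 h3 Y :=
      (to_le hE h2 h3).1 (by rw [to_of, to_of]; exact hX)
    refine ⟨h4, ofS hE h2 h3 X, h5, ?_, ?_⟩
    · rw [← bot_conv hE h2 h3, to_of]
      exact hXA
    · rw [hle h5 (hV.mono h4), to_of, to_of]
      obtain ⟨t, ht⟩ := rk_lt (T := TA F hE h2 h3) ((to_fd hE h2 h3 hV).mono (hX.trans h1))
        ((to_fd hE h2 h3 hV).mono h1)
      rw [ht] at hlt ⊢
      have h6 : t < wtd (TA F hE h2 h3) X := by exact_mod_cast hlt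
      exact_mod_cast h6
  · have key := hT3 (toS hE h2 h3 U) ((to_le hE h2 h3).2 hUV) m hm
    constructor
    · rintro ⟨X, hXU, hXA, h⟩
      obtain ⟨Y, hY, Z, hZ, hZA, h'⟩ := key.1 ⟨toS hE h2 h3 X, (to_le hE h2 h3).2 hXU,
        (bot_conv hE h2 h3 X A).2 hXA, (hle le_rfl (hV.mono (hXU.trans hUV)) m).1 h⟩
      have h4 := hcv Y (hT2 Y hY).1
      have h5 : ofS hE h2 h3 Z ≤ U ⊓ ofS hE h2 h3 Y :=
        (to_le hE h2 h3).1 (by rw [to_inf, to_of, to_of]; exact hZ)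
      refine ⟨ofS hE h2 h3 Y, Finset.mem_image_of_mem _ hY, ofS hE h2 h3 Z, h5, ?_, ?_⟩
      · rw [← bot_conv hE h2 h3, to_of]
        exact hZA
      · rw [hle (h5.trans inf_le_right) (hV.mono h4), to_of, to_of]
        exact h'
    · rintro ⟨W, hW, X, hX, hXA, h⟩
      obtain ⟨Y, hY, rfl⟩ := Finset.mem_image.1 hW
      have h4 := hcv Y (hT2 Y hY).1
      rw [hle (hX.trans inf_le_right) (hV.mono h4), to_of] at h
      have h5 : toS hE h2 h3 X ≤ toS hE h2 h3 U ⊓ Y := by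
        have := (to_le hE h2 h3).2 hX
        rwa [to_inf, to_of] at this
      obtain ⟨Z, hZU, hZA, h'⟩ := key.2 ⟨Y, hY, toS hE h2 h3 X, h5,
        (bot_conv hE h2 h3 X A).2 hXA, h⟩
      have h6 : ofS hE h2 h3 Z ≤ U := (to_le hE h2 h3).1 (by rw [to_of]; exact hZU)
      refine ⟨ofS hE h2 h3 Z, h6, ?_, ?_⟩
      · rw [← bot_conv hE h2 h3, to_of]
        exact hZA
      · rw [hle le_rfl (hV.mono (h6.trans hUV)), to_of]
        exact h'

/-- an independent subfamily with the same span -/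
theorem exists_sub {K : Type} [Field K] [Module K ℂ] (A : Submodule K ℂ) {n : ℕ} (z : Fin n → ℂ) :
    ∃ e : Fin (dmod A z) → Fin n, LinearIndependent K (fun i => A.mkQ (z (e i))) := by
  classical
  obtain ⟨κ, a, ha, hspan, hli⟩ := exists_linearIndependent' K (fun i => A.mkQ (z i))
  have : Finite κ := Finite.of_injective a ha
  have : Fintype κ := Fintype.ofFinite κ
  have hcard : Fintype.card κ = dmod A z := by
    unfold dmod
    rw [← finrank_span_eq_card hli, hspan]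
  let e := (Fintype.equivFin κ).symm
  refine ⟨fun j => a (e (Fin.cast hcard.symm j)), ?_⟩
  exact hli.comp (fun j => e (Fin.cast hcard.symm j))
    (e.injective.comp (Fin.cast_injective hcard.symm))

theorem bot_of_indep {K : Type} [Field K] [Module K ℂ] {A : Submodule K ℂ} {n : ℕ}
    {z : Fin n → ℂ} (hz : LinearIndependent K (fun i => A.mkQ (z i))) :
    Submodule.span K (Set.range z) ⊓ A = ⊥ := by
  rw [eq_bot_iff]
  rintro x ⟨hx, hxL⟩
  obtain ⟨c, rfl⟩ := (Submodule.mem_span_range_iff_exists_fun K).1 hx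
  have h1 : ∑ i, c i • A.mkQ (z i) = 0 := by
    have h2 : A.mkQ (∑ i, c i • z i) = 0 := by
      rw [Submodule.mkQ_apply, Submodule.Quotient.mk_eq_zero]
      exact hxL
    rw [map_sum] at h2
    simpa only [map_smul] using h2
  have h3 := Fintype.linearIndependent_iff.1 hz c h1
  simp only [h3, zero_smul, sum_const_zero]
  exact Submodule.zero_mem _

theorem indep_of_bot {K : Type} [Field K] [Module K ℂ] {A X : Submodule K ℂ} (hX : X ⊓ A = ⊥)
    {n : ℕ} {z : Fin n → ℂ} (hz : LinearIndependent K z)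
    (h : ∀ i, z i ∈ X) : LinearIndependent K (fun i => A.mkQ (z i)) := by
  rw [Fintype.linearIndependent_iff] at hz ⊢
  intro c hc
  apply hz c
  have h1 : ∑ i, c i • z i ∈ X ⊓ A := by
    refine ⟨Submodule.sum_mem _ (fun i _ => X.smul_mem _ (h i)), ?_⟩
    change ∑ i, c i • z i ∈ A
    rw [← Submodule.Quotient.mk_eq_zero, ← Submodule.mkQ_apply, map_sum]
    simpa only [map_smul] using hc
  rw [hX, Submodule.mem_bot] at h1
  exact h1

/-- **Failures for tuples** and for spaces. -/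
theorem tup_iff (h2 : ∀ c, (Λ c).g₂ ∈ F) (h3 : ∀ c, (Λ c).g₃ ∈ F) {A U : SpL Λ} (hU : FdL U)
    (m : ℕ) :
    (∃ (s : ℕ) (n : Fin q → ℕ) (t : Fin s → ℂ) (p : ∀ c, Fin (n c) → ℂ),
      (∀ c i, p c i ∉ (Λ c).lattice) ∧ trF F (PP Λ t p) + m ≤
        ((dmod A.1 t + 2 * ∑ c, dmod (A.2 c) (p c) : ℕ) : Cardinal) ∧
        (∀ i, t i ∈ U.1) ∧ ∀ c i, p c i ∈ U.2 c) ↔
    ∃ X ≤ U, X ⊓ A = ⊥ ∧ trF F (NL Λ X X) + m ≤ ((wtL X : ℕ) : Cardinal) := by
  obtain ⟨κ, hE⟩ := exists_eigs Λ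
  have hk : ∀ {s : ℕ} {n : Fin q → ℕ} (t : Fin s → ℂ) (p : ∀ c, Fin (n c) → ℂ),
      (∀ c i, p c i ∉ (Λ c).lattice) → ∀ D ∈ DF F, (∀ x ∈ PP Λ t p, D x = 0) ↔
        ∀ x ∈ NL Λ (spL Λ t p) (spL Λ t p), D x = 0 := by
    intro s n t p hp D hF
    rw [PP_kill hE (fun c => hF _ (h2 c)) (fun c => hF _ (h3 c)) hp,
      kill_iff_le hE (fun c => hF _ (h2 c)) (fun c => hF _ (h3 c))]
  constructor
  · rintro ⟨s, n, t, p, hp, hle, ht, hpU⟩
    obtain ⟨e₁, he₁⟩ := exists_sub A.1 t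
    choose e₂ he₂ using fun c => exists_sub (A.2 c) (p c)
    have hw : wtL (spL Λ (fun i => t (e₁ i)) (fun c i => p c (e₂ c i))) =
        dmod A.1 t + 2 * ∑ c, dmod (A.2 c) (p c) := by
      unfold wtL
      congr 1
      · change finrank ℚ (Submodule.span ℚ (Set.range (fun i => t (e₁ i)))) = _
        rw [finrank_span_eq_card (LinearIndependent.of_comp A.1.mkQ he₁), Fintype.card_fin]
      · congr 1
        refine sum_congr rfl (fun c _ => ?_)
        change finrank (kL (Λ c)) (Submodule.span (kL (Λ c)) (Set.range (fun i => p c (e₂ c i))))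
          = _
        rw [finrank_span_eq_card (LinearIndependent.of_comp (A.2 c).mkQ (he₂ c)),
          Fintype.card_fin]
    refine ⟨spL Λ (fun i => t (e₁ i)) (fun c i => p c (e₂ c i)),
      spL_le.2 ⟨fun i => ht _, fun c i => hpU c _⟩, ?_, ?_⟩
    · exact Prod.ext (bot_of_indep he₁) (funext (fun c => bot_of_indep (he₂ c)))
    · rw [hw]
      refine trF_le_congr (hk _ _ (fun c i => hp c _)) ?_
      refine trF_mono_add (F := F) (S' := PP Λ t p) ?_ hle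
      have r1 : Set.range (fun i => t (e₁ i)) ⊆ Set.range t := by
        rintro _ ⟨i, rfl⟩
        exact ⟨_, rfl⟩
      have r2 : ∀ c, Set.range (fun i => p c (e₂ c i)) ⊆ Set.range (p c) := by
        rintro c _ ⟨i, rfl⟩
        exact ⟨_, rfl⟩
      exact Set.union_subset_union (Set.union_subset_union r1 (Set.image_mono r1))
        (Set.iUnion_mono (fun c => Set.union_subset_union (r2 c) (Set.union_subset_union
          (Set.image_mono (r2 c)) (Set.image_mono (r2 c)))))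
  · rintro ⟨X, hXU, hXA, h⟩
    have hX := hU.mono hXU
    have hf1 := hX.1
    have hf2 := hX.2
    let b₁ := finBasis ℚ X.1
    choose p hp1 hp2 hp3 using fun c => exists_basis_off (X.2 c)
    have hsp : spL Λ (fun i => (b₁ i : ℂ)) p = X := by
      refine Prod.ext ?_ (funext (fun c => ?_))
      · change Submodule.span ℚ (Set.range (fun i => (b₁ i : ℂ))) = X.1
        have h1 : Set.range (fun i => (b₁ i : ℂ)) = X.1.subtype '' Set.range b₁ := by
          rw [← Set.range_comp]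
          rfl
        rw [h1, Submodule.span_image, Basis.span_eq, Submodule.map_top, Submodule.range_subtype]
      · change Submodule.span (kL (Λ c)) (Set.range (p c)) = X.2 c
        have := hf2 c
        refine Submodule.eq_of_le_of_finrank_le ?_ ?_
        · rw [Submodule.span_le]
          rintro _ ⟨i, rfl⟩
          exact hp2 c i
        · rw [finrank_span_eq_card (hp1 c), Fintype.card_fin]
    have hb : LinearIndependent ℚ (fun i => (b₁ i : ℂ)) :=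
      b₁.linearIndependent.map' X.1.subtype (Submodule.ker_subtype _)
    have hd1 : dmod A.1 (fun i => (b₁ i : ℂ)) = finrank ℚ X.1 := by
      have h1 := indep_of_bot (A := A.1) (X := X.1) (congrArg Prod.fst hXA) hb
        (fun i => (b₁ i).2)
      unfold dmod
      rw [finrank_span_eq_card h1, Fintype.card_fin]
    have hd2 : ∀ c, dmod (A.2 c) (p c) = finrank (kL (Λ c)) (X.2 c) := by
      intro c
      have h1 := indep_of_bot (A := A.2 c) (X := X.2 c)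
        (congrFun (congrArg Prod.snd hXA) c) (hp1 c) (hp2 c)
      unfold dmod
      rw [finrank_span_eq_card h1, Fintype.card_fin]
    refine ⟨_, _, fun i => (b₁ i : ℂ), p, hp3, ?_, fun i => hXU.1 (b₁ i).2,
      fun c i => hXU.2 c (hp2 c i)⟩
    rw [hd1, sum_congr rfl (fun c _ => hd2 c)]
    refine trF_le_congr (fun D hF => (hk _ _ hp3 D hF).symm) ?_
    rw [hsp]
    exact h

end Pool.Agent.TH813.G
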