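import Mathlib
import Pool.Agent.TH813.GRelC

/-!
# The multiplicative group and several elliptic curves: differentials of the first kind
-/

set_option autoImplicit false

open Finset Module
open scoped PeriodPair ComplexConjugate

noncomputable section

namespace Pool.Agent.TH813.G

open H667R3 Pool.Agent.W245.EB
open Pool.Agent.W252 Pool.Agent.W669.Gel
open Pool.Agent.TH813.Core Pool.Agent.TH813.Ell
open Pool.Agent.TH813.Rel (DF MK trF)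
open Pool.Agent.TH813.Uni (trF_le_iff tr tr_add tr_eq tr_mono)

variable {F : IntermediateField ℚ ℂ} {q : ℕ}

/-- the first form of a group type -/
@[reducible] def Ty.fst {m : ℕ} (T : Ty F m) (hW : ∀ z, (T.W z).Finite) : Ty F 0 where
  k := T.k
  fk := T.fk
  ck := T.ck
  ak := T.ak
  fin := T.fin
  deg := T.deg
  tw := fun _ => RingHom.id T.k
  tw_tw := fun _ _ => rfl
  tw_zero := fun _ => rfl
  lam := fun _ => T.lam 0
  lam_add_der := fun _ => T.lam_add_der 0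
  lam_smul_der := fun _ => T.lam_smul_der 0
  lam_add := fun _ D hD => T.lam_add 0 D hD
  lam_mul := fun _ D hD a u => by
    have h := T.lam_mul 0 D hD a u
    rw [T.tw_zero] at h
    exact h
  om_bracket := fun D hD => T.om_bracket D hD
  lam_bracket := fun D hD D' z _ h _ => T.om_bracket D hD D' z (h 0)
  N := fun z => {z} ∪ T.W z
  N_fin := fun z => (Set.finite_singleton z).union (hW z)
  N_iff := fun D hD z => by
    have h := T.W_iff D hD z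
    constructor
    · intro hx
      exact ⟨hx z (Or.inl rfl), fun _ => h.1 (fun x hx' => hx x (Or.inr hx'))⟩
    · rintro ⟨h4, h5⟩ x (rfl | hx)
      · exact h4
      · exact h.2 (h5 0) x hx
  W := T.W
  W_iff := T.W_iff

theorem Ros.fst {e : Fin q → ℕ} {T : Fam F e} (hR : Ros T) (hW : ∀ c z, ((T c).W z).Finite) :
    Ros (fun c => (T c).fst (hW c) : Fam F (fun _ : Fin q => 0)) := by
  classical
  intro K hFK hcl m idx b v x hb hrel c j ψ D hD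
  have h := hR K hFK hcl m (fun a => (⟨(idx a).1, 0⟩ : Σ c : Fin q, Fin (e c + 1))) b v x hb
    hrel c 0 ψ D hD
  refine Eq.trans (sum_congr rfl (fun a _ => ?_)) h
  have hiff : idx a = (⟨c, j⟩ : Σ _ : Fin q, Fin (0 + 1)) ↔
      (⟨(idx a).1, 0⟩ : Σ c : Fin q, Fin (e c + 1)) = ⟨c, 0⟩ := by
    constructor
    · intro h1
      rw [h1]
    · intro h1
      obtain ⟨h3, -⟩ := Sigma.mk.inj_iff.1 h1
      refine Sigma.ext h3 (heq_of_eq ?_)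
      exact @Subsingleton.elim (Fin 1) _ _ _
  by_cases h1 : idx a = (⟨c, j⟩ : Σ _ : Fin q, Fin (0 + 1))
  · rw [if_pos h1, if_pos (hiff.1 h1), (T c).tw_zero]
    rfl
  · rw [if_neg h1, if_neg (fun h3 => h1 (hiff.2 h3))]

variable {Λ : Fin q → PeriodPair} {κ : Fin q → ℂ}

section conv

variable (hE : ∀ c, Eig (Λ c) (κ c)) (h2 : ∀ c, (Λ c).g₂ ∈ F) (h3 : ∀ c, (Λ c).g₃ ∈ F)

theorem W_finA (c : Fin (q + 1)) (z : ℂ) : ((TA F hE h2 h3 c).W z).Finite := by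
  refine Fin.cases ?_ (fun c => ?_) c
  · exact Set.finite_singleton _
  · exact ((Set.finite_singleton _).subset Set.sdiff_subset).image _

/-- the family, with differentials of the first kind -/
def T1 : Fam F (fun _ : Fin (q + 1) => 0) :=
  fun c => (TA F hE h2 h3 c).fst (W_finA hE h2 h3 c)

theorem ros_T1 (hni : NI Λ) : Ros (T1 hE h2 h3) :=
  (ros_TA hE h2 h3 hni).fst (W_finA hE h2 h3)

/-- spaces for the family -/
def toS1 (X : SpL Λ) : Sp (T1 hE h2 h3) :=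
  Fin.cases (motive := fun c => Submodule (T1 hE h2 h3 c).k ℂ) X.1 X.2

/-- spaces for the family -/
def ofS1 (Y : Sp (T1 hE h2 h3)) : SpL Λ := (Y 0, fun c => Y c.succ)

theorem of_to1 (X : SpL Λ) : ofS1 hE h2 h3 (toS1 hE h2 h3 X) = X := rfl

theorem to_of1 (Y : Sp (T1 hE h2 h3)) : toS1 hE h2 h3 (ofS1 hE h2 h3 Y) = Y := by
  funext c
  refine Fin.cases ?_ (fun c => ?_) c
  · rfl
  · rfl

theorem to_le1 {X Y : SpL Λ} : toS1 hE h2 h3 X ≤ toS1 hE h2 h3 Y ↔ X ≤ Y := by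
  constructor
  · intro h
    exact ⟨h 0, fun c => h c.succ⟩
  · intro h c
    refine Fin.cases ?_ (fun c => ?_) c
    · exact h.1
    · exact h.2 c

theorem to_inf1 (X Y : SpL Λ) : toS1 hE h2 h3 (X ⊓ Y) = toS1 hE h2 h3 X ⊓ toS1 hE h2 h3 Y := by
  funext c
  refine Fin.cases ?_ (fun c => ?_) c
  · rfl
  · rfl

theorem to_bot1 : toS1 hE h2 h3 ⊥ = ⊥ := by
  funext c
  refine Fin.cases ?_ (fun c => ?_) c
  · rfl
  · rfl

theorem to_inj1 {X Y : SpL Λ} (h : toS1 hE h2 h3 X = toS1 hE h2 h3 Y) : X = Y := by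
  rw [← of_to1 hE h2 h3 X, h, of_to1]

theorem bot_conv1 (X A : SpL Λ) : toS1 hE h2 h3 X ⊓ toS1 hE h2 h3 A = ⊥ ↔ X ⊓ A = ⊥ := by
  rw [← to_inf1, ← to_bot1 hE h2 h3]
  exact ⟨fun h => to_inj1 hE h2 h3 h, fun h => by rw [h]⟩

theorem to_fd1 {X : SpL Λ} (h : FdL X) : Fd (T1 hE h2 h3) (toS1 hE h2 h3 X) := by
  intro c
  refine Fin.cases ?_ (fun c => ?_) c
  · exact h.1
  · exact h.2 c

end conv

/-- the weight of a family -/
def wtL1 (X : SpL Λ) : ℕ := finrank ℚ X.1 + ∑ c, finrank (kL (Λ c)) (X.2 c)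

theorem wtd_to1 (hE : ∀ c, Eig (Λ c) (κ c)) (h2 : ∀ c, (Λ c).g₂ ∈ F) (h3 : ∀ c, (Λ c).g₃ ∈ F)
    (X : SpL Λ) : wtd (T1 hE h2 h3) (toS1 hE h2 h3 X) = wtL1 X := by
  unfold wtd wtL1
  rw [Fin.sum_univ_succ]
  congr 1
  · exact one_mul _
  · exact sum_congr rfl (fun c _ => one_mul _)

/-- the numbers attached to two families of spaces -/
def NL1 (Λ : Fin q → PeriodPair) (X W : SpL Λ) : Set ℂ :=
  ((X.1 : Set ℂ) ∪ Complex.exp '' (W.1 : Set ℂ)) ∪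
    ⋃ c, ((X.2 c : Set ℂ) ∪ ℘[Λ c] '' ((W.2 c : Set ℂ) \ ((Λ c).lattice : Set ℂ)))

/-- the conditions on a derivation -/
def KilL1 (D : Derivation ℚ ℂ ℂ) (X W : SpL Λ) : Prop :=
  ((∀ x ∈ X.1, D x = 0 ∧ dlog D x = 0) ∧ ∀ w ∈ W.1, dlog D w = 0) ∧
    ∀ c, (∀ x ∈ X.2 c, D x = 0 ∧ om (Λ c) D x = 0) ∧ ∀ w ∈ W.2 c, om (Λ c) D w = 0

theorem NL_iff1 {D : Derivation ℚ ℂ ℂ} (h2 : ∀ c, D (Λ c).g₂ = 0) (h3 : ∀ c, D (Λ c).g₃ = 0)
    {X W : SpL Λ} (h : X ≤ W) : (∀ x ∈ NL1 Λ X W, D x = 0) ↔ KilL1 D X W := by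
  constructor
  · intro hD
    have hom : ∀ c, ∀ w ∈ W.2 c, om (Λ c) D w = 0 := fun c w hw => om_of_killed (fun hw' =>
      hD _ (Or.inr (Set.mem_iUnion.2 ⟨c, Or.inr ⟨w, ⟨hw, hw'⟩, rfl⟩⟩)))
    refine ⟨⟨fun x hx => ⟨hD x (Or.inl (Or.inl hx)), dlog_eq_zero.2
      (hD _ (Or.inl (Or.inr ⟨x, h.1 hx, rfl⟩)))⟩, fun w hw => dlog_eq_zero.2
      (hD _ (Or.inl (Or.inr ⟨w, hw, rfl⟩)))⟩, fun c => ⟨fun x hx => ⟨?_, ?_⟩, hom c⟩⟩
    · exact hD x (Or.inr (Set.mem_iUnion.2 ⟨c, Or.inl hx⟩))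
    · exact hom c x (h.2 c hx)
  · rintro ⟨⟨h4, h5⟩, h6⟩ x ((hx | ⟨w, hw, rfl⟩) | hx)
    · exact (h4 x hx).1
    · exact dlog_eq_zero.1 (h5 w hw)
    · obtain ⟨c, hx⟩ := Set.mem_iUnion.1 hx
      rcases hx with hx | ⟨w, ⟨hw, hw'⟩, rfl⟩
      · exact ((h6 c).1 x hx).1
      · exact (wp_killed (h2 c) (h3 c) ((h6 c).2 w hw) hw').1

theorem NX_iffL1 (hE : ∀ c, Eig (Λ c) (κ c)) (h2 : ∀ c, (Λ c).g₂ ∈ F) (h3 : ∀ c, (Λ c).g₃ ∈ F)
    {D : Derivation ℚ ℂ ℂ} (hF : D ∈ DF F) (X W : SpL Λ) :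
    (∀ x ∈ NX (T1 hE h2 h3) (toS1 hE h2 h3 X) (toS1 hE h2 h3 W), D x = 0) ↔ KilL1 D X W := by
  rw [NX_iff _ hF]
  constructor
  · intro h
    exact ⟨⟨fun x hx => ⟨(h 0).1 x hx none, (h 0).1 x hx (some 0)⟩, (h 0).2⟩, fun c =>
      ⟨fun x hx => ⟨(h c.succ).1 x hx none, (h c.succ).1 x hx (some 0)⟩, (h c.succ).2⟩⟩
  · rintro ⟨h4, h5⟩ c
    refine Fin.cases ?_ (fun c => ?_) c
    · refine ⟨fun x hx o => ?_, h4.2⟩
      rcases o with _ | j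
      · exact (h4.1 x hx).1
      · exact (h4.1 x hx).2
    · refine ⟨fun x hx o => ?_, (h5 c).2⟩
      rcases o with _ | j
      · exact ((h5 c).1 x hx).1
      · exact ((h5 c).1 x hx).2

theorem trF_NL1 (hE : ∀ c, Eig (Λ c) (κ c)) (h2 : ∀ c, (Λ c).g₂ ∈ F) (h3 : ∀ c, (Λ c).g₃ ∈ F)
    {X W : SpL Λ} (h : X ≤ W) (hW : FdL W) : ∃ t : ℕ, trF F (NL1 Λ X W) = t ∧
      (MK F).eRk (NX (T1 hE h2 h3) (toS1 hE h2 h3 X) (toS1 hE h2 h3 W)) = t := by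
  obtain ⟨t, ht⟩ := rk_lt (T := T1 hE h2 h3) (to_fd1 hE h2 h3 (hW.mono h)) (to_fd1 hE h2 h3 hW)
  refine ⟨t, trF_eq_of_rk ?_, ht⟩
  rw [← ht]
  refine rk_congr (fun D hF => ?_)
  rw [NX_iffL1 hE h2 h3 hF, NL_iff1 (fun c => hF _ (h2 c)) (fun c => hF _ (h3 c)) h]

/-- **The relative theorem** for spaces, differentials of the first kind. -/
theorem mainC1 (q r : ℕ) : ∃ B : ℕ, ∀ (Λ : Fin q → PeriodPair), NI Λ →
    ∀ F : IntermediateField ℚ ℂ, (∀ c, (Λ c).g₂ ∈ F) → (∀ c, (Λ c).g₃ ∈ F) →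
    ∀ A V : SpL Λ, FdL V → finrank ℚ V.1 ≤ r → (∀ c, finrank (kL (Λ c)) (V.2 c) ≤ r) →
    ∃ 𝒯 : Finset (SpL Λ), 𝒯.card ≤ B ∧
      (∀ W ∈ 𝒯, W ≤ V ∧ ∃ X ≤ W, X ⊓ A = ⊥ ∧
        trF F (NL1 Λ X W) + (1 : ℕ) ≤ ((wtL1 X : ℕ) : Cardinal)) ∧
      ∀ U ≤ V, ∀ m : ℕ, 0 < m →
        ((∃ X ≤ U, X ⊓ A = ⊥ ∧ trF F (NL1 Λ X X) + m ≤ ((wtL1 X : ℕ) : Cardinal)) ↔
        ∃ W ∈ 𝒯, ∃ X ≤ U ⊓ W, X ⊓ A = ⊥ ∧
          trF F (NL1 Λ X W) + m ≤ ((wtL1 X : ℕ) : Cardinal)) := by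
  classical
  obtain ⟨B, hB⟩ := mainG (q + 1) (fun _ : Fin (q + 1) => 0) r
  refine ⟨B, fun Λ hni F h2 h3 A V hV hr1 hr2 => ?_⟩
  obtain ⟨κ, hE⟩ := exists_eigs Λ
  obtain ⟨𝒯, hT1, hT2, hT3⟩ := hB F (T1 hE h2 h3) (ros_T1 hE h2 h3 hni) (toS1 hE h2 h3 A)
    (toS1 hE h2 h3 V) (to_fd1 hE h2 h3 hV) (fun c => by
      refine Fin.cases ?_ (fun c => ?_) c
      · exact hr1
      · exact hr2 c)
  have hle : ∀ {X W : SpL Λ}, X ≤ W → FdL W → ∀ m : ℕ,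
      (trF F (NL1 Λ X W) + m ≤ ((wtL1 X : ℕ) : Cardinal) ↔
        (MK F).eRk (NX (T1 hE h2 h3) (toS1 hE h2 h3 X) (toS1 hE h2 h3 W)) + m ≤
          ((wtd (T1 hE h2 h3) (toS1 hE h2 h3 X) : ℕ) : ℕ∞)) := by
    intro X W h hW m
    obtain ⟨t, h1, h4⟩ := trF_NL1 hE h2 h3 h hW
    rw [h1, h4, wtd_to1]
    norm_cast
  have hcv : ∀ Y : Sp (T1 hE h2 h3), Y ≤ toS1 hE h2 h3 V → ofS1 hE h2 h3 Y ≤ V := fun Y hY =>
    (to_le1 hE h2 h3).1 (by rw [to_of1]; exact hY)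
  refine ⟨𝒯.image (ofS1 hE h2 h3), Finset.card_image_le.trans hT1, fun W hW => ?_,
    fun U hUV m hm => ?_⟩
  · obtain ⟨Y, hY, rfl⟩ := Finset.mem_image.1 hW
    obtain ⟨h1, X, hX, hXA, hlt, -⟩ := hT2 Y hY
    have h4 := hcv Y h1
    have h5 : ofS1 hE h2 h3 X ≤ ofS1 hE h2 h3 Y :=
      (to_le1 hE h2 h3).1 (by rw [to_of1, to_of1]; exact hX)
    refine ⟨h4, ofS1 hE h2 h3 X, h5, ?_, ?_⟩
    · rw [← bot_conv1 hE h2 h3, to_of1]
      exact hXA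
    · rw [hle h5 (hV.mono h4), to_of1, to_of1]
      obtain ⟨t, ht⟩ := rk_lt (T := T1 hE h2 h3) ((to_fd1 hE h2 h3 hV).mono (hX.trans h1))
        ((to_fd1 hE h2 h3 hV).mono h1)
      rw [ht] at hlt ⊢
      have h6 : t < wtd (T1 hE h2 h3) X := by exact_mod_cast hlt
      exact_mod_cast h6
  · have key := hT3 (toS1 hE h2 h3 U) ((to_le1 hE h2 h3).2 hUV) m hm
    constructor
    · rintro ⟨X, hXU, hXA, h⟩
      obtain ⟨Y, hY, Z, hZ, hZA, h'⟩ := key.1 ⟨toS1 hE h2 h3 X, (to_le1 hE h2 h3).2 hXU,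
        (bot_conv1 hE h2 h3 X A).2 hXA, (hle le_rfl (hV.mono (hXU.trans hUV)) m).1 h⟩
      have h4 := hcv Y (hT2 Y hY).1
      have h5 : ofS1 hE h2 h3 Z ≤ U ⊓ ofS1 hE h2 h3 Y :=
        (to_le1 hE h2 h3).1 (by rw [to_inf1, to_of1, to_of1]; exact hZ)
      refine ⟨ofS1 hE h2 h3 Y, Finset.mem_image_of_mem _ hY, ofS1 hE h2 h3 Z, h5, ?_, ?_⟩
      · rw [← bot_conv1 hE h2 h3, to_of1]
        exact hZA
      · rw [hle (h5.trans inf_le_right) (hV.mono h4), to_of1, to_of1]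
        exact h'
    · rintro ⟨W, hW, X, hX, hXA, h⟩
      obtain ⟨Y, hY, rfl⟩ := Finset.mem_image.1 hW
      have h4 := hcv Y (hT2 Y hY).1
      rw [hle (hX.trans inf_le_right) (hV.mono h4), to_of1] at h
      have h5 : toS1 hE h2 h3 X ≤ toS1 hE h2 h3 U ⊓ Y := by
        have := (to_le1 hE h2 h3).2 hX
        rwa [to_inf1, to_of1] at this
      obtain ⟨Z, hZU, hZA, h'⟩ := key.2 ⟨Y, hY, toS1 hE h2 h3 X, h5,
        (bot_conv1 hE h2 h3 X A).2 hXA, h⟩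
      have h6 : ofS1 hE h2 h3 Z ≤ U := (to_le1 hE h2 h3).1 (by rw [to_of1]; exact hZU)
      refine ⟨ofS1 hE h2 h3 Z, h6, ?_, ?_⟩
      · rw [← bot_conv1 hE h2 h3, to_of1]
        exact hZA
      · rw [hle le_rfl (hV.mono (h6.trans hUV)), to_of1]
        exact h'

/-- the numbers attached to tuples -/
def PP1 (Λ : Fin q → PeriodPair) {s : ℕ} {n : Fin q → ℕ} (t : Fin s → ℂ)
    (p : ∀ c, Fin (n c) → ℂ) : Set ℂ :=
  (Set.range t ∪ Complex.exp '' Set.range t) ∪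
    ⋃ c, (Set.range (p c) ∪ ℘[Λ c] '' (Set.range (p c) \ ((Λ c).lattice : Set ℂ)))

/-- the space killed by a derivation -/
def ZK1 {L : PeriodPair} {κ : ℂ} (hE : Eig L κ) (D : Derivation ℚ ℂ ℂ) (h2 : D L.g₂ = 0)
    (h3 : D L.g₃ = 0) : Submodule (kL L) ℂ where
  carrier := {x | D x = 0 ∧ om L D x = 0}
  add_mem' := by
    rintro a b ⟨ha, ha'⟩ ⟨hb, hb'⟩
    exact ⟨by rw [map_add, ha, hb, add_zero], by rw [om_add L D h2 h3, ha', hb', add_zero]⟩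
  zero_mem' := ⟨map_zero D, om_zero D⟩
  smul_mem' := by
    rintro c x ⟨hx, hx'⟩
    have e1 : D ((c : ℂ) * x) = 0 := by
      rw [Derivation.leibniz, hx, der_kL D c.2, smul_zero, smul_zero, add_zero]
    have e2 : om L D ((c : ℂ) * x) = 0 := by
      rw [hE.om_mul D h2 h3 c c.2 x, hx', mul_zero]
    exact ⟨e1, e2⟩

/-- the spaces killed by a derivation -/
def ZL1 (hE : ∀ c, Eig (Λ c) (κ c)) (D : Derivation ℚ ℂ ℂ) (h2 : ∀ c, D (Λ c).g₂ = 0)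
    (h3 : ∀ c, D (Λ c).g₃ = 0) : SpL Λ :=
  (LinearMap.ker (D : ℂ →ₗ[ℚ] ℂ) ⊓ LinearMap.ker (dl D),
    fun c => ZK1 (hE c) D (h2 c) (h3 c))

theorem kill_iff_le1 (hE : ∀ c, Eig (Λ c) (κ c)) {D : Derivation ℚ ℂ ℂ}
    (h2 : ∀ c, D (Λ c).g₂ = 0) (h3 : ∀ c, D (Λ c).g₃ = 0) {X : SpL Λ} :
    (∀ x ∈ NL1 Λ X X, D x = 0) ↔ X ≤ ZL1 hE D h2 h3 := by
  rw [NL_iff1 h2 h3 le_rfl]
  constructor
  · rintro ⟨⟨h4, -⟩, h5⟩
    exact ⟨fun x hx => ⟨(h4 x hx).1, (h4 x hx).2⟩, fun c x hx => (h5 c).1 x hx⟩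
  · intro h
    exact ⟨⟨fun x hx => ⟨(h.1 hx).1, (h.1 hx).2⟩, fun x hx => (h.1 hx).2⟩,
      fun c => ⟨fun x hx => h.2 c hx, fun x hx => (h.2 c hx).2⟩⟩

theorem PP_kill1 (hE : ∀ c, Eig (Λ c) (κ c)) {D : Derivation ℚ ℂ ℂ}
    (h2 : ∀ c, D (Λ c).g₂ = 0) (h3 : ∀ c, D (Λ c).g₃ = 0) {s : ℕ} {n : Fin q → ℕ}
    {t : Fin s → ℂ} {p : ∀ c, Fin (n c) → ℂ} :
    (∀ x ∈ PP1 Λ t p, D x = 0) ↔ spL Λ t p ≤ ZL1 hE D h2 h3 := by
  rw [spL_le]
  constructor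
  · intro hD
    refine ⟨fun i => ⟨hD _ (Or.inl (Or.inl ⟨i, rfl⟩)), dlog_eq_zero.2
      (hD _ (Or.inl (Or.inr ⟨_, ⟨i, rfl⟩, rfl⟩)))⟩, fun c i => ⟨?_, om_of_killed (fun hz => ?_)⟩⟩
    · exact hD _ (Or.inr (Set.mem_iUnion.2 ⟨c, Or.inl ⟨i, rfl⟩⟩))
    · exact hD _ (Or.inr (Set.mem_iUnion.2 ⟨c, Or.inr ⟨_, ⟨⟨i, rfl⟩, hz⟩, rfl⟩⟩))
  · rintro ⟨h4, h5⟩ x ((⟨i, rfl⟩ | ⟨_, ⟨i, rfl⟩, rfl⟩) | hx)
    · exact (h4 i).1
    · exact dlog_eq_zero.1 (h4 i).2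
    · obtain ⟨c, hx⟩ := Set.mem_iUnion.1 hx
      rcases hx with ⟨i, rfl⟩ | ⟨_, ⟨⟨i, rfl⟩, hz⟩, rfl⟩
      · exact (h5 c i).1
      · exact (wp_killed (h2 c) (h3 c) (h5 c i).2 hz).1

/-- **Failures for tuples** and for spaces, differentials of the first kind. -/
theorem tup_iff1 (h2 : ∀ c, (Λ c).g₂ ∈ F) (h3 : ∀ c, (Λ c).g₃ ∈ F) {A U : SpL Λ} (hU : FdL U)
    (m : ℕ) :
    (∃ (s : ℕ) (n : Fin q → ℕ) (t : Fin s → ℂ) (p : ∀ c, Fin (n c) → ℂ),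
      trF F (PP1 Λ t p) + m ≤ ((dmod A.1 t + ∑ c, dmod (A.2 c) (p c) : ℕ) : Cardinal) ∧
        (∀ i, t i ∈ U.1) ∧ ∀ c i, p c i ∈ U.2 c) ↔
    ∃ X ≤ U, X ⊓ A = ⊥ ∧ trF F (NL1 Λ X X) + m ≤ ((wtL1 X : ℕ) : Cardinal) := by
  obtain ⟨κ, hE⟩ := exists_eigs Λ
  have hk : ∀ {s : ℕ} {n : Fin q → ℕ} (t : Fin s → ℂ) (p : ∀ c, Fin (n c) → ℂ),
      ∀ D ∈ DF F, (∀ x ∈ PP1 Λ t p, D x = 0) ↔
        ∀ x ∈ NL1 Λ (spL Λ t p) (spL Λ t p), D x = 0 := by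
    intro s n t p D hF
    rw [PP_kill1 hE (fun c => hF _ (h2 c)) (fun c => hF _ (h3 c)),
      kill_iff_le1 hE (fun c => hF _ (h2 c)) (fun c => hF _ (h3 c))]
  constructor
  · rintro ⟨s, n, t, p, hle, ht, hpU⟩
    obtain ⟨e₁, he₁⟩ := exists_sub A.1 t
    choose e₂ he₂ using fun c => exists_sub (A.2 c) (p c)
    have hw : wtL1 (spL Λ (fun i => t (e₁ i)) (fun c i => p c (e₂ c i))) =
        dmod A.1 t + ∑ c, dmod (A.2 c) (p c) := by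
      unfold wtL1
      congr 1
      · change finrank ℚ (Submodule.span ℚ (Set.range (fun i => t (e₁ i)))) = _
        rw [finrank_span_eq_card (LinearIndependent.of_comp A.1.mkQ he₁), Fintype.card_fin]
      · refine sum_congr rfl (fun c _ => ?_)
        change finrank (kL (Λ c)) (Submodule.span (kL (Λ c)) (Set.range (fun i => p c (e₂ c i))))
          = _
        rw [finrank_span_eq_card (LinearIndependent.of_comp (A.2 c).mkQ (he₂ c)),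
          Fintype.card_fin]
    refine ⟨spL Λ (fun i => t (e₁ i)) (fun c i => p c (e₂ c i)),
      spL_le.2 ⟨fun i => ht _, fun c i => hpU c _⟩, ?_, ?_⟩
    · exact Prod.ext (bot_of_indep he₁) (funext (fun c => bot_of_indep (he₂ c)))
    · rw [hw]
      refine trF_le_congr (hk _ _) ?_
      refine trF_mono_add (F := F) (S' := PP1 Λ t p) ?_ hle
      have r1 : Set.range (fun i => t (e₁ i)) ⊆ Set.range t := by
        rintro _ ⟨i, rfl⟩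
        exact ⟨_, rfl⟩
      have r2 : ∀ c, Set.range (fun i => p c (e₂ c i)) ⊆ Set.range (p c) := by
        rintro c _ ⟨i, rfl⟩
        exact ⟨_, rfl⟩
      exact Set.union_subset_union (Set.union_subset_union r1 (Set.image_mono r1))
        (Set.iUnion_mono (fun c => Set.union_subset_union (r2 c)
          (Set.image_mono (Set.sdiff_subset_sdiff_left (r2 c)))))
  · rintro ⟨X, hXU, hXA, h⟩
    have hX := hU.mono hXU
    have hf1 := hX.1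
    have hf2 := hX.2
    let b₁ := finBasis ℚ X.1
    let b₂ := fun c => finBasis (kL (Λ c)) (X.2 c)
    have hsp : ∀ {K : Type} [Field K] [Module K ℂ] (Y : Submodule K ℂ) {n : ℕ}
        (b : Basis (Fin n) K Y), Submodule.span K (Set.range (fun i => (b i : ℂ))) = Y := by
      intro K _ _ Y n b
      have h1 : Set.range (fun i => (b i : ℂ)) = Y.subtype '' Set.range b := by
        rw [← Set.range_comp]
        rfl
      rw [h1, Submodule.span_image, Basis.span_eq, Submodule.map_top, Submodule.range_subtype]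
    have hS : spL Λ (fun i => (b₁ i : ℂ)) (fun c i => (b₂ c i : ℂ)) = X :=
      Prod.ext (hsp X.1 b₁) (funext (fun c => hsp (X.2 c) (b₂ c)))
    have hd : ∀ {K : Type} [Field K] [Module K ℂ] (A Y : Submodule K ℂ) {n : ℕ}
        (b : Basis (Fin n) K Y), Y ⊓ A = ⊥ → dmod A (fun i => (b i : ℂ)) = n := by
      intro K _ _ A Y n b hYA
      have h1 := indep_of_bot (A := A) hYA
        (b.linearIndependent.map' Y.subtype (Submodule.ker_subtype _)) (fun i => (b i).2)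
      change finrank K (Submodule.span K (Set.range (fun i => A.mkQ (b i : ℂ)))) = n
      have h4 := finrank_span_eq_card h1
      rw [Fintype.card_fin] at h4
      exact h4
    refine ⟨_, _, fun i => (b₁ i : ℂ), fun c i => (b₂ c i : ℂ), ?_, fun i => hXU.1 (b₁ i).2,
      fun c i => hXU.2 c (b₂ c i).2⟩
    rw [hd A.1 X.1 b₁ (congrArg Prod.fst hXA), sum_congr rfl (fun c _ =>
      hd (A.2 c) (X.2 c) (b₂ c) (congrFun (congrArg Prod.snd hXA) c))]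
    refine trF_le_congr (fun D hF => (hk _ _ D hF).symm) ?_
    rw [hS]
    exact h

end Pool.Agent.TH813.G
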