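import Mathlib
import Pool.Agent.TH813.MixSys

/-!
# Solutions of systems `ζ(z_i) - Q_i(z)` algebraic in rational spaces
-/

set_option autoImplicit false

open Finset Module
open scoped PeriodPair

noncomputable section

namespace Pool.Agent.TH813.ZtSys

open Pool.Agent.W245.EB
open Pool.Agent.TH813.CountF
open Pool.Agent.TH813.DQ Pool.Agent.TH813.ZtFin Pool.Agent.TH813.Ell Pool.Agent.TH813.MixSys
open Pool.Agent.TH813.Rel (DF)

section der

variable {ι : Type}

theorem PF_map {m : ℕ} (θ : ℂ →ₗ[ℚ] ℂ) {p : (ι → ℚ) → ℂ}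
    (hp : p ∈ PF ℚ ℂ ι m) : (fun x => θ (p x)) ∈ PF ℚ ℂ ι m := by
  have h : ∀ c : ℂ, (fun x => θ (c * p x)) ∈ PF ℚ ℂ ι m := by
    unfold PF at hp
    induction hp using Submodule.span_induction with
    | mem q hq =>
      intro c
      obtain ⟨s, rfl⟩ := hq
      have h1 : (fun x => θ (c * mon ℂ s x)) = θ c • mon (K := ℚ) (ι := ι) ℂ s := by
        funext x
        change θ (c * algebraMap ℚ ℂ (s.1.map (X x)).prod) =
          θ c * algebraMap ℚ ℂ (s.1.map (X x)).prod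
        rw [mul_comm c, ← Algebra.smul_def, map_smul, Algebra.smul_def, mul_comm]
      rw [h1]
      exact Submodule.smul_mem _ _ (mon_mem _)
    | zero =>
      intro c
      have h1 : (fun x : ι → ℚ => θ (c * (0 : (ι → ℚ) → ℂ) x)) = 0 := by
        funext x
        simp
      rw [h1]
      exact Submodule.zero_mem _
    | add q q' _ _ h1 h2 =>
      intro c
      have h3 : (fun x => θ (c * (q + q') x)) = (fun x => θ (c * q x)) + (fun x => θ (c * q' x)) := by
        funext x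
        change θ (c * (q x + q' x)) = θ (c * q x) + θ (c * q' x)
        rw [mul_add, map_add]
      rw [h3]
      exact Submodule.add_mem _ (h1 c) (h2 c)
    | smul a q _ h1 =>
      intro c
      have h3 : (fun x => θ (c * (a • q) x)) = (fun x => θ (c * a * q x)) := by
        funext x
        change θ (c * (a * q x)) = θ (c * a * q x)
        rw [mul_assoc]
      rw [h3]
      exact h1 _
  have := h 1
  simpa using this

/-- derivations act on the coefficients -/
theorem derDQ {m : ℕ} (D : Derivation ℚ ℂ ℂ) {p : (ι → ℚ) → ℂ}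
    {p' : (ι → ℚ) → (ι → ℚ) → ℂ} (hp : IsDQ m p p') :
    IsDQ m (fun x => D (p x)) (fun y z => D (p' y z)) := by
  obtain ⟨hp0, H, h1, h2, h3, h4⟩ := hp
  refine ⟨PF_map D.toLinearMap hp0, fun y x => D.toLinearMap ∘ₗ H y x,
    fun y z => PF_map D.toLinearMap (h1 y z), fun h => ?_, fun x y => ?_, fun y z => ?_⟩
  · rw [h2 h]
    funext y x
    ext z
    exact map_zero D
  · change _ = D (H y x (x - y))
    rw [← h3, map_sub]
  · change D (H y y z) = _
    rw [h4]

end der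

variable {F : IntermediateField ℚ ℂ} {ι : Type} [Fintype ι] {n : ℕ}
  (μ : Fin n → (ι → ℚ) →ₗ[ℚ] ℂ)

/-- the equations -/
def fP (g2 g3 : ℂ) (e o e' o' : (ι → ℚ) → ℂ) (x : ι → ℚ) : ℂ :=
  (e' x * o x - e x * o' x) * (e' x * o x - e x * o' x) -
    (4 * ((e x * (e x * e x)) * (o x * (o x * o x))) - g2 * (e x * (o x * (o x * (o x *
      (o x * o x))))) - g3 * ((o x * (o x * o x)) * (o x * (o x * o x))))

/-- their derivatives -/
def fP' (g2 g3 : ℂ) (e o e' o' : (ι → ℚ) → ℂ) (de dO de' dO' : (ι → ℚ) → (ι → ℚ) → ℂ)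
    (y z : ι → ℚ) : ℂ :=
  2 * (e' y * o y - e y * o' y) * (o y * de' y z + e' y * dO y z - o' y * de y z - e y * dO' y z) -
    (4 * (3 * e y ^ 2 * de y z * o y ^ 3 + 3 * e y ^ 3 * o y ^ 2 * dO y z) -
      g2 * (de y z * o y ^ 5 + 5 * e y * o y ^ 4 * dO y z) - g3 * (6 * o y ^ 5 * dO y z))

omit [Fintype ι] in
theorem fP_dq (g2 g3 : ℂ) {e o e' o' : (ι → ℚ) → ℂ} {de dO de' dO' : (ι → ℚ) → (ι → ℚ) → ℂ}
    {b : ℕ} (hb : 1 ≤ b) (h1 : IsDQ b e de) (h2 : IsDQ 1 o dO) (h3 : IsDQ b e' de')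
    (h4 : IsDQ 1 o' dO') :
    IsDQ (3 * b + 3) (fP g2 g3 e o e' o') (fP' g2 g3 e o e' o' de dO de' dO') := by
  have k1 := (h3.mul h2).sub (h1.mul h4)
  have k2 := k1.mul k1
  have o3 := h2.mul (h2.mul h2)
  have k3 := ((h1.mul (h1.mul h1)).mul o3).smul 4
  have k4 := (h1.mul (h2.mul (h2.mul (h2.mul (h2.mul h2))))).smul g2
  have k5 := (o3.mul o3).smul g3
  have k6 := (k2.mono (m' := 3 * b + 3) (by omega)).sub
    (((k3.mono (m' := 3 * b + 3) (by omega)).sub (k4.mono (m' := 3 * b + 3) (by omega))).sub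
      (k5.mono (m' := 3 * b + 3) (by omega)))
  refine k6.congr (fun x => ?_) (fun y z => ?_)
  · unfold fP
    rfl
  · unfold fP'
    ring

/-- the form of the second kind, minus the differential of the polynomial -/
def ee (L : PeriodPair) (Q : MvPolynomial (Fin n) F) (i : Fin n) (D : Derivation ℚ ℂ ℂ)
    (x : ι → ℚ) : ℂ := et L D (μ i x) - D (ev μ Q x)

/-- the form of the first kind -/
def oo (L : PeriodPair) (i : Fin n) (D : Derivation ℚ ℂ ℂ) (x : ι → ℚ) : ℂ := om L D (μ i x)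

theorem ee_dq {L : PeriodPair} (h2 : L.g₂ ∈ F) (h3 : L.g₃ ∈ F) {Q : MvPolynomial (Fin n) F}
    {b : ℕ} (hQ : Q.totalDegree ≤ b) (hb : 1 ≤ b) (i : Fin n) (D : DF F) :
    IsDQ b (ee μ L Q i D) (fun y z => et L D (μ i z) - (D : Derivation ℚ ℂ ℂ) (dv μ Q y z)) := by
  have k1 : IsDQ 1 (fun x => et L D (μ i x)) (fun _ z => et L D (μ i z)) :=
    IsDQ.lin (etL L D (D.2 _ h2) (D.2 _ h3) ∘ₗ μ i)
  exact (k1.mono hb).sub (derDQ D (dq_poly μ hQ))

theorem oo_dq {L : PeriodPair} (h2 : L.g₂ ∈ F) (h3 : L.g₃ ∈ F) (i : Fin n) (D : DF F) :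
    IsDQ 1 (oo μ L i D) (fun _ z => om L D (μ i z)) :=
  IsDQ.lin (omL L D (D.2 _ h2) (D.2 _ h3) ∘ₗ μ i)

/-- the facts about a solution -/
theorem sol_zt {L : PeriodPair} (h2 : L.g₂ ∈ F) (h3 : L.g₃ ∈ F) {G u : ℂ}
    (hnn : ¬ Null F (some L) u) (ha : IsAlgebraic F (zt L u - G)) :
    ∃ X Y : ℂ, Y ≠ 0 ∧ Y ^ 2 = 4 * X ^ 3 - L.g₂ * X - L.g₃ ∧ (∃ D ∈ DF F, om L D u ≠ 0) ∧
      ∀ D ∈ DF F, et L D u - D G = X * om L D u ∧ D X = Y * om L D u := by
  have hl : u ∉ L.lattice := fun h => hnn (Or.inl h)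
  have hex : ∃ D ∈ DF F, om L D u ≠ 0 := by
    by_contra hcon
    push Not at hcon
    exact hnn (null_of_om h2 h3 hcon)
  have hY : ℘'[L] u ≠ 0 := by
    intro h0
    obtain ⟨D, hD, hne⟩ := hex
    apply hne
    unfold om
    rw [h0, div_zero]
  refine ⟨℘[L] u, ℘'[L] u, hY, L.derivWeierstrassP_sq _ hl, hex, fun D hD => ⟨?_, ?_⟩⟩
  · have h4 := killed_of_alg ha D hD
    rw [map_sub] at h4
    unfold et
    linear_combination h4
  · unfold om
    rw [mul_div_cancel₀ _ hY]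

/-- the equations of a coordinate -/
theorem coord {L : PeriodPair} (h2 : L.g₂ ∈ F) (h3 : L.g₃ ∈ F)
    {Q : MvPolynomial (Fin n) F} {b : ℕ} (hQ : Q.totalDegree ≤ b) (hb : 1 ≤ b) (i : Fin n) :
    ∃ (e : (DF F ⊕ DF F × DF F) → (ι → ℚ) → ℂ)
      (e' : (DF F ⊕ DF F × DF F) → (ι → ℚ) → (ι → ℚ) → ℂ),
      (∀ D, IsDQ (3 * b + 3) (e D) (e' D)) ∧
      (∀ x, ¬ Null F (some L) (μ i x) → IsAlgebraic F (zt L (μ i x) - ev μ Q x) → ∀ D, e D x = 0) ∧
      ∀ y z, ¬ Null F (some L) (μ i y) → IsAlgebraic F (zt L (μ i y) - ev μ Q y) →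
        (∀ D, e' D y z = 0) → Null F (some L) (μ i z) := by
  let e : (DF F ⊕ DF F × DF F) → (ι → ℚ) → ℂ := fun a => match a with
    | Sum.inl D => fP L.g₂ L.g₃ (ee μ L Q i D) (oo μ L i D)
        (fun x => (D : Derivation ℚ ℂ ℂ) (ee μ L Q i D x))
        (fun x => (D : Derivation ℚ ℂ ℂ) (oo μ L i D x))
    | Sum.inr (D, D') => fun x => ee μ L Q i D x * oo μ L i D' x - ee μ L Q i D' x * oo μ L i D x
  let e' : (DF F ⊕ DF F × DF F) → (ι → ℚ) → (ι → ℚ) → ℂ := fun a => match a with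
    | Sum.inl D => fP' L.g₂ L.g₃ (ee μ L Q i D) (oo μ L i D)
        (fun x => (D : Derivation ℚ ℂ ℂ) (ee μ L Q i D x))
        (fun x => (D : Derivation ℚ ℂ ℂ) (oo μ L i D x))
        (fun y z => et L D (μ i z) - (D : Derivation ℚ ℂ ℂ) (dv μ Q y z))
        (fun _ z => om L D (μ i z))
        (fun y z => (D : Derivation ℚ ℂ ℂ) (et L D (μ i z) -
          (D : Derivation ℚ ℂ ℂ) (dv μ Q y z)))
        (fun _ z => (D : Derivation ℚ ℂ ℂ) (om L D (μ i z)))
    | Sum.inr (D, D') => fun y z =>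
        (oo μ L i D' y * (et L D (μ i z) - (D : Derivation ℚ ℂ ℂ) (dv μ Q y z)) +
          ee μ L Q i D y * om L D' (μ i z)) -
        (oo μ L i D y * (et L D' (μ i z) - (D' : Derivation ℚ ℂ ℂ) (dv μ Q y z)) +
          ee μ L Q i D' y * om L D (μ i z))
  refine ⟨e, e', ?_, ?_, ?_⟩
  · rintro (D | ⟨D, D'⟩)
    · exact fP_dq L.g₂ L.g₃ hb (ee_dq μ h2 h3 hQ hb i D) (oo_dq μ h2 h3 i D)
        (derDQ D (ee_dq μ h2 h3 hQ hb i D)) (derDQ D (oo_dq μ h2 h3 i D))
    · exact (((ee_dq μ h2 h3 hQ hb i D).mul (oo_dq μ h2 h3 i D')).sub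
        ((ee_dq μ h2 h3 hQ hb i D').mul (oo_dq μ h2 h3 i D))).mono (by omega)
  · intro x hn ha a
    obtain ⟨X, Y, hY, hc, -, hX⟩ := sol_zt h2 h3 hn ha
    rcases a with D | ⟨D, D'⟩
    · obtain ⟨k1, k2⟩ := hX D D.2
      change fP L.g₂ L.g₃ (ee μ L Q i D) (oo μ L i D)
        (fun x => (D : Derivation ℚ ℂ ℂ) (ee μ L Q i D x))
        (fun x => (D : Derivation ℚ ℂ ℂ) (oo μ L i D x)) x = 0
      have k3 : ee μ L Q i D x = X * oo μ L i D x := k1
      have k4 : (D : Derivation ℚ ℂ ℂ) (ee μ L Q i D x) = Y * oo μ L i D x * oo μ L i D x +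
          X * (D : Derivation ℚ ℂ ℂ) (oo μ L i D x) := by
        rw [k3, Derivation.leibniz, k2, smul_eq_mul, smul_eq_mul]
        unfold oo
        ring
      unfold fP
      simp only
      rw [k4, k3]
      linear_combination (oo μ L i D x) ^ 6 * hc
    · obtain ⟨k1, -⟩ := hX D D.2
      obtain ⟨k2, -⟩ := hX D' D'.2
      change ee μ L Q i D x * oo μ L i D' x - ee μ L Q i D' x * oo μ L i D x = 0
      unfold ee oo
      rw [k1, k2]
      ring
  · intro y z hn ha hz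
    obtain ⟨X, Y, hY, hc, ⟨D₀, hD₀, ho₀⟩, hX⟩ := sol_zt h2 h3 hn ha
    have hE : ∀ D ∈ DF F, ee μ L Q i D y = X * om L D (μ i y) := fun D hD => (hX D hD).1
    have hDY : ∀ D ∈ DF F, 2 * D Y = (12 * X ^ 2 - L.g₂) * om L D (μ i y) := by
      intro D hD
      have h4 := congrArg D hc
      have e2 : D L.g₂ = 0 := hD _ h2
      have e3 : D L.g₃ = 0 := hD _ h3
      have h5 : D (4 : ℂ) = 0 := by
        have := D.map_natCast 4
        exact_mod_cast this
      rw [map_sub, map_sub, Derivation.leibniz, Derivation.leibniz, Derivation.leibniz_pow,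
        Derivation.leibniz_pow, e2, e3, h5, (hX D hD).2] at h4
      simp only [smul_eq_mul, nsmul_eq_mul] at h4
      push_cast at h4
      have h6 : Y * (2 * D Y - (12 * X ^ 2 - L.g₂) * om L D (μ i y)) = 0 := by
        linear_combination h4
      exact sub_eq_zero.1 ((mul_eq_zero.1 h6).resolve_left hY)
    -- the number `f`
    obtain ⟨f, hf⟩ : ∃ f : ℂ, et L D₀ (μ i z) - D₀ (dv μ Q y z) =
        X * om L D₀ (μ i z) + f * Y * om L D₀ (μ i y) :=
      ⟨(et L D₀ (μ i z) - D₀ (dv μ Q y z) - X * om L D₀ (μ i z)) / (Y * om L D₀ (μ i y)), by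
        field_simp
        ring⟩
    have hall : ∀ D ∈ DF F, et L D (μ i z) - D (dv μ Q y z) =
        X * om L D (μ i z) + f * Y * om L D (μ i y) := by
      intro D hD
      have h4 := hz (Sum.inr (⟨D, hD⟩, ⟨D₀, hD₀⟩))
      change (om L D₀ (μ i y) * (et L D (μ i z) - D (dv μ Q y z)) +
          ee μ L Q i D y * om L D₀ (μ i z)) -
        (om L D (μ i y) * (et L D₀ (μ i z) - D₀ (dv μ Q y z)) +
          ee μ L Q i D₀ y * om L D (μ i z)) = 0 at h4
      rw [hE D hD, hE D₀ hD₀, hf] at h4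
      have h5 : om L D₀ (μ i y) * (et L D (μ i z) - D (dv μ Q y z) -
          (X * om L D (μ i z) + f * Y * om L D (μ i y))) = 0 := by
        linear_combination h4
      exact sub_eq_zero.1 ((mul_eq_zero.1 h5).resolve_left ho₀)
    have hDf : ∀ D ∈ DF F, om L D (μ i y) ≠ 0 → D f = om L D (μ i z) := by
      intro D hD hne'
      have h4 := hz (Sum.inl ⟨D, hD⟩)
      change fP' L.g₂ L.g₃ (ee μ L Q i D) (oo μ L i D)
        (fun x => D (ee μ L Q i D x)) (fun x => D (oo μ L i D x))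
        (fun y z => et L D (μ i z) - D (dv μ Q y z)) (fun _ z => om L D (μ i z))
        (fun y z => D (et L D (μ i z) - D (dv μ Q y z)))
        (fun _ z => D (om L D (μ i z))) y z = 0 at h4
      have h6 : D (ee μ L Q i D y) = Y * om L D (μ i y) * om L D (μ i y) +
          X * D (om L D (μ i y)) := by
        rw [hE D hD, Derivation.leibniz, (hX D hD).2, smul_eq_mul, smul_eq_mul]
        ring
      have h8 := hDY D hD
      have h7 : D (et L D (μ i z) - D (dv μ Q y z)) = Y * om L D (μ i y) * om L D (μ i z) +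
          X * D (om L D (μ i z)) + (D f * Y * om L D (μ i y) + f * D Y * om L D (μ i y) +
            f * Y * D (om L D (μ i y))) := by
        rw [hall D hD, map_add, Derivation.leibniz, Derivation.leibniz,
          Derivation.leibniz, (hX D hD).2]
        simp only [smul_eq_mul]
        ring
      unfold fP' at h4
      simp only at h4
      rw [h7, h6, hE D hD, hall D hD] at h4
      unfold oo at h4
      have h9 : 2 * Y ^ 2 * (om L D (μ i y)) ^ 5 * (D f - om L D (μ i z)) = 0 := by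
        linear_combination h4 - f * Y * (om L D (μ i y)) ^ 5 * h8 -
          6 * (om L D (μ i y)) ^ 5 * om L D (μ i z) * hc
      have h10 : 2 * Y ^ 2 * (om L D (μ i y)) ^ 5 ≠ 0 :=
        mul_ne_zero (mul_ne_zero two_ne_zero (pow_ne_zero _ hY)) (pow_ne_zero _ hne')
      exact sub_eq_zero.1 ((mul_eq_zero.1 h9).resolve_left h10)
    have hDf' : ∀ D ∈ DF F, D f = om L D (μ i z) := by
      intro D hD
      by_cases h0 : om L D (μ i y) = 0
      · have h4 : D + D₀ ∈ DF F := (DF F).add_mem hD hD₀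
        have h6 := hDf (D + D₀) h4 (by rw [om_add_der, h0, zero_add]; exact ho₀)
        rw [om_add_der, Derivation.add_apply, hDf D₀ hD₀ ho₀] at h6
        exact add_right_cancel h6
      · exact hDf D hD h0
    exact null_of_om h2 h3 (om_exact h2 h3 _ f hDf')

/-- **The count of the solutions.** -/
theorem main {L : PeriodPair} (h2 : L.g₂ ∈ F) (h3 : L.g₃ ∈ F)
    (Q : Fin n → MvPolynomial (Fin n) F) {b : ℕ} (hQ : ∀ i, (Q i).totalDegree ≤ b) (hb : 1 ≤ b)
    (hμ : ∀ z, (∀ i, Null F (some L) (μ i z)) → z = 0) (S : Finset (ι → ℚ))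
    (hS : ∀ x ∈ S, ∀ i, ¬ Null F (some L) (μ i x) ∧
      IsAlgebraic F (zt L (μ i x) - ev μ (Q i) x)) :
    S.card ≤ ((3 * b + 3) * Fintype.card ι).choose (Fintype.card ι) := by
  classical
  have hc := fun i => coord μ h2 h3 (hQ i) hb i
  choose e e' k1 k2 k3 using hc
  have hdq' := fun p : (DF F ⊕ DF F × DF F) × Fin n => (k1 p.2 p.1).2
  choose H l1 l2 l3 l4 using hdq'
  have key := CountF.count (K := ℚ) (A := ℂ) (ι := ι) (d := 3 * b + 2) H
    (fun p y z => l1 p y z) S (fun p y hy x hx => by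
      rw [← l3, k2 p.2 x (hS x hx p.2).1 (hS x hx p.2).2 p.1,
        k2 p.2 y (hS y hy p.2).1 (hS y hy p.2).2 p.1, sub_zero])
    (fun y hy z hz => hμ z (fun i => k3 i y z (hS y hy i).1 (hS y hy i).2 (fun D => by
      rw [← l4 (D, i)]
      exact hz (D, i))))
  have e : Fintype.card ι + Fintype.card ι * (3 * b + 2) =
      (3 * b + 3) * Fintype.card ι := by ring
  rwa [e] at key

end Pool.Agent.TH813.ZtSys
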