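import Mathlib
import Pool.Agent.TH813.MixSys
import Pool.Agent.TH813.ZtSys

/-!
# Solutions of systems for `e^(z_i)`, `℘(z_i)` and `ζ(z_i)` in rational spaces
-/

set_option autoImplicit false

open Finset Module
open scoped PeriodPair

noncomputable section

namespace Pool.Agent.TH813.MixAll

open Pool.Agent.W252 Pool.Agent.W669.Gel Pool.Agent.W245.EB
open Pool.Agent.TH813.DQ Pool.Agent.TH813.ZtFin Pool.Agent.TH813.Ell Pool.Agent.TH813.MixSys
open Pool.Agent.TH813.Rel (DF)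

variable {F : IntermediateField ℚ ℂ} {ι : Type} [Fintype ι] {n : ℕ}
  (μ : Fin n → (ι → ℚ) →ₗ[ℚ] ℂ)

/-- the condition on a coordinate: for `false` the equation of the type, for `true` (elliptic
curves) `ζ(u) - B` is algebraic and `u` is no logarithm -/
def SolK (F : IntermediateField ℚ ℂ) : Typ → Bool → ℂ → ℂ → ℂ → Prop
  | T, false, A, B, u => Sol F T A B u
  | none, true, A, B, u => Sol F none A B u
  | some L, true, _, B, u => ¬ Null F (some L) u ∧ IsAlgebraic F (zt L u - B)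

/-- the equations of a coordinate -/
theorem coord {T : Typ} (s : Bool) (hT : InF F T) {P Q : MvPolynomial (Fin n) F} {a b : ℕ}
    (hP : P.totalDegree ≤ a) (hQ : Q.totalDegree ≤ b) (hab : a ≤ b) (hb : 1 ≤ b) (i : Fin n) :
    ∃ (e : (DF F ⊕ DF F × DF F) → (ι → ℚ) → ℂ)
      (e' : (DF F ⊕ DF F × DF F) → (ι → ℚ) → (ι → ℚ) → ℂ),
      (∀ D, IsDQ (a + 3 * b + 3) (e D) (e' D)) ∧
      (∀ x, SolK F T s (ev μ P x) (ev μ Q x) (μ i x) → ∀ D, e D x = 0) ∧
      ∀ y z, SolK F T s (ev μ P y) (ev μ Q y) (μ i y) → (∀ D, e' D y z = 0) →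
        Null F T (μ i z) := by
  have hfst : ∀ T' : Typ, InF F T' → ∃ (e : (DF F ⊕ DF F × DF F) → (ι → ℚ) → ℂ)
      (e' : (DF F ⊕ DF F × DF F) → (ι → ℚ) → (ι → ℚ) → ℂ),
      (∀ D, IsDQ (a + 3 * b + 3) (e D) (e' D)) ∧
      (∀ x, Sol F T' (ev μ P x) (ev μ Q x) (μ i x) → ∀ D, e D x = 0) ∧
      ∀ y z, Sol F T' (ev μ P y) (ev μ Q y) (μ i y) → (∀ D, e' D y z = 0) →
        Null F T' (μ i z) := by
    intro T' hT'
    obtain ⟨e, e', h1, h2, h3⟩ := MixSys.coord μ hT' hP hQ hab i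
    refine ⟨fun a => Sum.elim (fun D => e D) (fun p => e p.1) a,
      fun a => Sum.elim (fun D => e' D) (fun p => e' p.1) a, ?_, ?_, ?_⟩
    · rintro (D | p)
      · exact (h1 D).mono (by omega)
      · exact (h1 p.1).mono (by omega)
    · rintro x hx (D | p)
      · exact h2 x hx D
      · exact h2 x hx p.1
    · intro y z hy hz
      exact h3 y z hy (fun D => hz (Sum.inl D))
  cases s with
  | false =>
    cases T with
    | none => exact hfst none hT
    | some L => exact hfst (some L) hT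
  | true =>
    cases T with
    | none => exact hfst none hT
    | some L =>
      obtain ⟨e, e', h1, h2, h3⟩ := ZtSys.coord μ hT.1 hT.2 hQ hb i
      exact ⟨e, e', fun D => (h1 D).mono (by omega), fun x hx => h2 x hx.1 hx.2,
        fun y z hy => h3 y z hy.1 hy.2⟩

/-- **The count of the solutions.** -/
theorem main {T : Fin n → Typ} (s : Fin n → Bool) (hT : ∀ i, InF F (T i))
    (P Q : Fin n → MvPolynomial (Fin n) F)
    {a b : ℕ} (hP : ∀ i, (P i).totalDegree ≤ a) (hQ : ∀ i, (Q i).totalDegree ≤ b) (hab : a ≤ b)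
    (hb : 1 ≤ b) (hμ : ∀ z, (∀ i, Null F (T i) (μ i z)) → z = 0) (S : Finset (ι → ℚ))
    (hS : ∀ x ∈ S, ∀ i, SolK F (T i) (s i) (ev μ (P i) x) (ev μ (Q i) x) (μ i x)) :
    S.card ≤ ((a + 3 * b + 3) * Fintype.card ι).choose (Fintype.card ι) := by
  classical
  have hc := fun i => coord μ (s i) (hT i) (hP i) (hQ i) hab hb i
  choose e e' h1 h2 h3 using hc
  have hdq' := fun p : (DF F ⊕ DF F × DF F) × Fin n => (h1 p.2 p.1).2
  choose H k1 k2 k3 k4 using hdq'
  have key := CountF.count (K := ℚ) (A := ℂ) (ι := ι) (d := a + 3 * b + 2) H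
    (fun p y z => k1 p y z) S (fun p y hy x hx => by
      rw [← k3, h2 p.2 x (hS x hx p.2) p.1, h2 p.2 y (hS y hy p.2) p.1, sub_zero])
    (fun y hy z hz => hμ z (fun i => h3 i y z (hS y hy i) (fun D => by
      rw [← k4 (D, i)]
      exact hz (D, i))))
  have e : Fintype.card ι + Fintype.card ι * (a + 3 * b + 2) =
      (a + 3 * b + 3) * Fintype.card ι := by ring
  rwa [e] at key

end Pool.Agent.TH813.MixAll
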