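import Mathlib
import Pool.Agent.TH813.CountF
import Pool.Agent.TH813.ZtFin

/-!
# Points at which `ζ` is algebraic: the count, with jets
-/

set_option autoImplicit false

open Finset Module
open scoped PeriodPair

noncomputable section

namespace Pool.Agent.TH813.ZtJet

open Pool.Agent.TH813.CountF
open Pool.Agent.TH813.Rel (DF)

section poly

variable {K : IntermediateField ℚ ℂ} {ι : Type} [Fintype ι]

abbrev P (K : IntermediateField ℚ ℂ) (ι : Type) (m : ℕ) : Submodule ℂ ((ι → K) → ℂ) :=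
  PF K ℂ ι m

omit [Fintype ι] in
theorem mulm {a b m : ℕ} {p q : (ι → K) → ℂ} (hp : p ∈ P K ι a) (hq : q ∈ P K ι b)
    (h : a + b ≤ m) : (fun x => p x * q x) ∈ P K ι m := PF_mono h (PF_mul hp hq)

omit [Fintype ι] in
theorem addm {m : ℕ} {p q : (ι → K) → ℂ} (hp : p ∈ P K ι m) (hq : q ∈ P K ι m) :
    (fun x => p x + q x) ∈ P K ι m := Submodule.add_mem _ hp hq

omit [Fintype ι] in
theorem subm {m : ℕ} {p q : (ι → K) → ℂ} (hp : p ∈ P K ι m) (hq : q ∈ P K ι m) :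
    (fun x => p x - q x) ∈ P K ι m := Submodule.sub_mem _ hp hq

omit [Fintype ι] in
theorem cmulm {m : ℕ} (c : ℂ) {p : (ι → K) → ℂ} (hp : p ∈ P K ι m) :
    (fun x => c * p x) ∈ P K ι m := Submodule.smul_mem _ c hp

omit [Fintype ι] in
theorem mulcm {m : ℕ} (c : ℂ) {p : (ι → K) → ℂ} (hp : p ∈ P K ι m) :
    (fun x => p x * c) ∈ P K ι m := by
  have h : (fun x => p x * c) = fun x => c * p x := by
    funext x
    ring
  rw [h]
  exact cmulm c hp

omit [Fintype ι] in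
theorem powm {a m : ℕ} {p : (ι → K) → ℂ} (n : ℕ) (hp : p ∈ P K ι a) (h : n * a ≤ m) :
    (fun x => p x ^ n) ∈ P K ι m := PF_mono h (PF_pow hp n)

omit [Fintype ι] in
theorem constm (m : ℕ) (c : ℂ) : (fun _ : ι → K => c) ∈ P K ι m := PF_const m c

theorem linm (f : (ι → K) →ₗ[K] ℂ) : (fun x => f x) ∈ P K ι 1 := PF_lin f

/-- the first family of equations -/
def HQ (e o e₂ o₂ : (ι → K) →ₗ[K] ℂ) (y x : ι → K) : (ι → K) →ₗ[K] ℂ :=
  (o₂ x) • e + (e y) • o₂ - (o x) • e₂ - (e₂ y) • o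

omit [Fintype ι] in
theorem HQ_apply (e o e₂ o₂ : (ι → K) →ₗ[K] ℂ) (y x z : ι → K) :
    HQ e o e₂ o₂ y x z = o₂ x * e z + e y * o₂ z - o x * e₂ z - e₂ y * o z := rfl

theorem HQ_poly (e o e₂ o₂ : (ι → K) →ₗ[K] ℂ) (y z : ι → K) :
    (fun x => HQ e o e₂ o₂ y x z) ∈ P K ι 5 := by
  simp only [HQ_apply]
  refine PF_mono (a := 1) (by omega) ?_
  exact subm (subm (addm (mulcm _ (linm o₂)) (constm 1 _)) (mulcm _ (linm o))) (constm 1 _)

/-- the second family of equations -/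
def HP (g2 g3 : ℂ) (e o e' o' : (ι → K) →ₗ[K] ℂ) (y x : ι → K) :
    (ι → K) →ₗ[K] ℂ :=
  ((e' x * o x - e x * o' x) + (e' y * o y - e y * o' y)) •
      ((o x) • e' + (e' y) • o - (o' x) • e - (e y) • o') -
    (4 * ((e x ^ 2 + e x * e y + e y ^ 2) * o x ^ 3) - g2 * o x ^ 5) • e -
    (4 * (e y ^ 3 * (o x ^ 2 + o x * o y + o y ^ 2)) -
      g2 * (e y * (o x ^ 4 + o x ^ 3 * o y + o x ^ 2 * o y ^ 2 + o x * o y ^ 3 + o y ^ 4)) -
      g3 * (o x ^ 5 + o x ^ 4 * o y + o x ^ 3 * o y ^ 2 + o x ^ 2 * o y ^ 3 + o x * o y ^ 4 +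
        o y ^ 5)) • o

omit [Fintype ι] in
theorem HP_apply (g2 g3 : ℂ) (e o e' o' : (ι → K) →ₗ[K] ℂ) (y x z : ι → K) :
    HP g2 g3 e o e' o' y x z =
  ((e' x * o x - e x * o' x) + (e' y * o y - e y * o' y)) *
      (o x * e' z + e' y * o z - o' x * e z - e y * o' z) -
    (4 * ((e x ^ 2 + e x * e y + e y ^ 2) * o x ^ 3) - g2 * o x ^ 5) * e z -
    (4 * (e y ^ 3 * (o x ^ 2 + o x * o y + o y ^ 2)) -
      g2 * (e y * (o x ^ 4 + o x ^ 3 * o y + o x ^ 2 * o y ^ 2 + o x * o y ^ 3 + o y ^ 4)) -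
      g3 * (o x ^ 5 + o x ^ 4 * o y + o x ^ 3 * o y ^ 2 + o x ^ 2 * o y ^ 3 + o x * o y ^ 4 +
        o y ^ 5)) * o z := rfl

theorem HP_poly (g2 g3 : ℂ) (e o e' o' : (ι → K) →ₗ[K] ℂ) (y z : ι → K) :
    (fun x => HP g2 g3 e o e' o' y x z) ∈ P K ι 5 := by
  simp only [HP_apply]
  have he := linm e
  have ho := linm o
  have he' := linm e'
  have ho' := linm o'
  have p1 : ∀ n : ℕ, (fun x => o x ^ n) ∈ P K ι (n * 1) := fun n => powm n ho le_rfl
  have h1 : (fun x => (e' x * o x - e x * o' x) + (e' y * o y - e y * o' y)) ∈ P K ι 2 :=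
    addm (subm (mulm he' ho le_rfl) (mulm he ho' le_rfl)) (constm 2 _)
  have h2 : (fun x => o x * e' z + e' y * o z - o' x * e z - e y * o' z) ∈ P K ι 1 :=
    subm (subm (addm (mulcm _ ho) (constm 1 _)) (mulcm _ ho')) (constm 1 _)
  have h3 : (fun x => e x ^ 2 + e x * e y + e y ^ 2) ∈ P K ι 2 :=
    addm (addm (powm 2 he (by norm_num)) (PF_mono (by norm_num) (mulcm (e y) he))) (constm 2 _)
  have h4 : (fun x => 4 * ((e x ^ 2 + e x * e y + e y ^ 2) * o x ^ 3) - g2 * o x ^ 5) ∈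
      P K ι 5 := subm (cmulm 4 (mulm h3 (p1 3) (by norm_num))) (cmulm g2 (powm 5 ho (by norm_num)))
  have q : ∀ n : ℕ, n ≤ 5 → (fun x => o x ^ n) ∈ P K ι 5 := fun n hn =>
    powm n ho (by omega)
  have h5 : (fun x => 4 * (e y ^ 3 * (o x ^ 2 + o x * o y + o y ^ 2))) ∈ P K ι 5 :=
    cmulm 4 (cmulm _ (addm (addm (q 2 (by norm_num)) (PF_mono (by norm_num) (mulcm (o y) ho)))
      (constm 5 _)))
  have h6 : (fun x => g2 * (e y * (o x ^ 4 + o x ^ 3 * o y + o x ^ 2 * o y ^ 2 +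
      o x * o y ^ 3 + o y ^ 4))) ∈ P K ι 5 :=
    cmulm g2 (cmulm _ (addm (addm (addm (addm (q 4 (by norm_num)) (mulcm _ (q 3 (by norm_num))))
      (mulcm _ (q 2 (by norm_num)))) (PF_mono (by norm_num) (mulcm (o y ^ 3) ho))) (constm 5 _)))
  have h7 : (fun x => g3 * (o x ^ 5 + o x ^ 4 * o y + o x ^ 3 * o y ^ 2 + o x ^ 2 * o y ^ 3 +
      o x * o y ^ 4 + o y ^ 5)) ∈ P K ι 5 :=
    cmulm g3 (addm (addm (addm (addm (addm (q 5 le_rfl) (mulcm _ (q 4 (by norm_num))))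
      (mulcm _ (q 3 (by norm_num)))) (mulcm _ (q 2 (by norm_num))))
      (PF_mono (by norm_num) (mulcm (o y ^ 4) ho))) (constm 5 _))
  exact subm (subm (mulm h1 h2 (by norm_num)) (mulcm _ h4))
    (mulcm _ (subm (subm h5 h6) h7))

/-- the third family of equations -/
def HC (o o' e e' e₁ : (ι → K) →ₗ[K] ℂ) (y x : ι → K) : (ι → K) →ₗ[K] ℂ :=
  (o x ^ 2) • e₁ + ((o x + o y) * e₁ y) • o - (o x) • e' - (e' y) • o + (o' x) • e + (e y) • o'

omit [Fintype ι] in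
theorem HC_apply (o o' e e' e₁ : (ι → K) →ₗ[K] ℂ) (y x z : ι → K) :
    HC o o' e e' e₁ y x z = o x ^ 2 * e₁ z + (o x + o y) * e₁ y * o z - o x * e' z - e' y * o z +
      o' x * e z + e y * o' z := rfl

theorem HC_poly (o o' e e' e₁ : (ι → K) →ₗ[K] ℂ) (y z : ι → K) :
    (fun x => HC o o' e e' e₁ y x z) ∈ P K ι 5 := by
  simp only [HC_apply]
  refine PF_mono (a := 2) (by omega) ?_
  have ho := linm o
  have ho' := linm o'
  have l1 : ∀ {p : (ι → K) → ℂ}, p ∈ P K ι 1 → p ∈ P K ι 2 := fun h => PF_mono (by omega) h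
  exact addm (addm (subm (subm (addm (mulcm _ (powm 2 ho (by norm_num)))
    (mulcm _ (mulcm _ (addm (l1 ho) (constm 2 _))))) (mulcm _ (l1 ho))) (constm 2 _))
    (mulcm _ (l1 ho'))) (constm 2 _)

end poly

/-- the data: the forms of the first and second kind on a space over `K`, and their derivatives -/
structure Sys (K : IntermediateField ℚ ℂ) (R : ℕ) where
  E : DF K → (Fin R → K) →ₗ[K] ℂ
  O : DF K → (Fin R → K) →ₗ[K] ℂ
  E' : DF K → (Fin R → K) →ₗ[K] ℂ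
  O' : DF K → (Fin R → K) →ₗ[K] ℂ
  dE : ∀ (D : DF K) z, (D : Derivation ℚ ℂ ℂ) (E D z) = E' D z
  dO : ∀ (D : DF K) z, (D : Derivation ℚ ℂ ℂ) (O D z) = O' D z
  addE : ∀ D D' z, E (D + D') z = E D z + E D' z
  addO : ∀ D D' z, O (D + D') z = O D z + O D' z
  sep : ∀ z, (∀ D, E D z = 0 ∧ O D z = 0) → z = 0
  ros : ∀ z f, (∀ D : DF K, O D z = (D : Derivation ℚ ℂ ℂ) f) → ∀ D, O D z = 0
  closed : ∀ x : ℂ, (∀ D : DF K, (D : Derivation ℚ ℂ ℂ) x = 0) → x ∈ K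

variable {K : IntermediateField ℚ ℂ} {R : ℕ} (s : Sys K R) (g2 g3 : ℂ)

/-- good points -/
structure Good (y : Fin R → K) (X Y : ℂ) : Prop where
  curve : Y ^ 2 = 4 * X ^ 3 - g2 * X - g3
  hY : Y ≠ 0
  tr : ∃ D : DF K, (D : Derivation ℚ ℂ ℂ) X ≠ 0
  fE : ∀ D, s.E D y = X * s.O D y
  fX : ∀ D : DF K, (D : Derivation ℚ ℂ ℂ) X = Y * s.O D y

variable {s g2 g3}

theorem D_nat (D : Derivation ℚ ℂ ℂ) (n : ℕ) : D (n : ℂ) = 0 := D.map_natCast n

theorem Good.tr' {y : Fin R → K} {X Y : ℂ} (h : Good s g2 g3 y X Y) : ∃ D, s.O D y ≠ 0 := by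
  obtain ⟨D, hD⟩ := h.tr
  refine ⟨D, fun h0 => hD ?_⟩
  rw [h.fX, h0, mul_zero]

theorem Good.fY (h2 : g2 ∈ K) (h3 : g3 ∈ K) {y : Fin R → K} {X Y : ℂ} (h : Good s g2 g3 y X Y)
    (D : DF K) : (D : Derivation ℚ ℂ ℂ) Y = (6 * X ^ 2 - g2 / 2) * s.O D y := by
  have h4 := congrArg (D : Derivation ℚ ℂ ℂ) h.curve
  have e2 : (D : Derivation ℚ ℂ ℂ) g2 = 0 := D.2 _ h2
  have e3 : (D : Derivation ℚ ℂ ℂ) g3 = 0 := D.2 _ h3
  have h5 : (D : Derivation ℚ ℂ ℂ) (4 : ℂ) = 0 := by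
    have := D_nat D 4
    exact_mod_cast this
  rw [map_sub, map_sub, Derivation.leibniz, Derivation.leibniz, Derivation.leibniz_pow,
    Derivation.leibniz_pow, e2, e3, h5, h.fX] at h4
  simp only [smul_eq_mul, nsmul_eq_mul] at h4
  push_cast at h4
  have h6 : Y * ((D : Derivation ℚ ℂ ℂ) Y - (6 * X ^ 2 - g2 / 2) * s.O D y) = 0 := by
    linear_combination h4 / 2
  exact sub_eq_zero.1 ((mul_eq_zero.1 h6).resolve_left h.hY)

/-- the chain of the derivatives of `X` -/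
def Chain (s : Sys K R) (y : Fin R → K) (X : ℂ) (Z : ℕ → ℂ) : Prop :=
  Z 0 = X ∧ ∀ j, ∀ D : DF K, (D : Derivation ℚ ℂ ℂ) (Z j) = Z (j + 1) * s.O D y

theorem exists_chain (h2 : g2 ∈ K) (h3 : g3 ∈ K) {y : Fin R → K} {X Y : ℂ}
    (h : Good s g2 g3 y X Y) : ∃ Z, Chain s y X Z := by
  have step : ∀ w ∈ Algebra.adjoin K ({X, Y} : Set ℂ), ∃ w' ∈ Algebra.adjoin K ({X, Y} : Set ℂ),
      ∀ D : DF K, (D : Derivation ℚ ℂ ℂ) w = w' * s.O D y := by
    intro w hw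
    have hX : X ∈ Algebra.adjoin K ({X, Y} : Set ℂ) := Algebra.subset_adjoin (by simp)
    have hYm : Y ∈ Algebra.adjoin K ({X, Y} : Set ℂ) := Algebra.subset_adjoin (by simp)
    have hg : g2 ∈ Algebra.adjoin K ({X, Y} : Set ℂ) :=
      Subalgebra.algebraMap_mem (Algebra.adjoin K ({X, Y} : Set ℂ)) (⟨g2, h2⟩ : K)
    have hq : ∀ q : ℚ, (q : ℂ) ∈ Algebra.adjoin K ({X, Y} : Set ℂ) := fun q =>
      Subalgebra.algebraMap_mem (Algebra.adjoin K ({X, Y} : Set ℂ)) (⟨(q : ℂ), K.algebraMap_mem q⟩ : K)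
    induction hw using Algebra.adjoin_induction with
    | mem x hx =>
      rcases hx with rfl | rfl
      · exact ⟨Y, hYm, h.fX⟩
      · refine ⟨6 * X ^ 2 - g2 / 2, ?_, h.fY h2 h3⟩
        have e1 := hq 6
        have e2 := hq (1 / 2)
        push_cast at e1 e2
        have e3 : 6 * X ^ 2 - g2 / 2 = 6 * X ^ 2 - g2 * (1 / 2) := by ring
        rw [e3]
        exact sub_mem (mul_mem e1 (pow_mem hX 2)) (mul_mem hg e2)
    | algebraMap c =>
      refine ⟨0, zero_mem _, fun D => ?_⟩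
      rw [zero_mul]
      exact D.2 _ c.2
    | add x x' _ _ h4 h5 =>
      obtain ⟨a, ha, ha'⟩ := h4
      obtain ⟨b, hb, hb'⟩ := h5
      exact ⟨a + b, add_mem ha hb, fun D => by rw [map_add, ha', hb', add_mul]⟩
    | mul x x' hx hx' h4 h5 =>
      obtain ⟨a, ha, ha'⟩ := h4
      obtain ⟨b, hb, hb'⟩ := h5
      refine ⟨x * b + x' * a, add_mem (mul_mem hx hb) (mul_mem hx' ha), fun D => ?_⟩
      rw [Derivation.leibniz, ha', hb', smul_eq_mul, smul_eq_mul]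
      ring
  choose! f hf1 hf2 using step
  refine ⟨fun n => f^[n] X, rfl, fun j D => ?_⟩
  have hm : ∀ j, f^[j] X ∈ Algebra.adjoin K ({X, Y} : Set ℂ) := by
    intro j
    induction j with
    | zero => exact Algebra.subset_adjoin (by simp)
    | succ j ih =>
      rw [Function.iterate_succ_apply']
      exact hf1 _ ih
  change _ = f^[j + 1] X * _
  rw [Function.iterate_succ_apply']
  exact hf2 _ (hm j) D

/-- the obstruction to a further jet -/
def Free (s : Sys K R) (w : ℂ) : Prop :=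
  ¬ ∃ z : Fin R → K, ∀ D : DF K, s.O D z = 0 ∧ s.E D z = (D : Derivation ℚ ℂ ℂ) w

theorem exists_nonzero_add (s : Sys K R) {y : Fin R → K} {D D₀ : DF K} (h : s.O D y = 0)
    (h₀ : s.O D₀ y ≠ 0) : s.O (D + D₀) y ≠ 0 := by
  rw [s.addO, h, zero_add]
  exact h₀

theorem tan0 (h2 : g2 ∈ K) (h3 : g3 ∈ K) {y z : Fin R → K} {X Y : ℂ} (h : Good s g2 g3 y X Y)
    (hQ : ∀ D D' : DF K, s.O D' y * s.E D z + s.E D y * s.O D' z - s.O D y * s.E D' z -
      s.E D' y * s.O D z = 0)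
    (hP : ∀ D : DF K, ((s.E' D y * s.O D y - s.E D y * s.O' D y) +
        (s.E' D y * s.O D y - s.E D y * s.O' D y)) *
      (s.O D y * s.E' D z + s.E' D y * s.O D z - s.O' D y * s.E D z - s.E D y * s.O' D z) -
      (4 * ((s.E D y ^ 2 + s.E D y * s.E D y + s.E D y ^ 2) * s.O D y ^ 3) -
        g2 * s.O D y ^ 5) * s.E D z -
      (4 * (s.E D y ^ 3 * (s.O D y ^ 2 + s.O D y * s.O D y + s.O D y ^ 2)) -
        g2 * (s.E D y * (s.O D y ^ 4 + s.O D y ^ 3 * s.O D y + s.O D y ^ 2 * s.O D y ^ 2 +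
          s.O D y * s.O D y ^ 3 + s.O D y ^ 4)) -
        g3 * (s.O D y ^ 5 + s.O D y ^ 4 * s.O D y + s.O D y ^ 3 * s.O D y ^ 2 +
          s.O D y ^ 2 * s.O D y ^ 3 + s.O D y * s.O D y ^ 4 + s.O D y ^ 5)) * s.O D z = 0) :
    ∃ f : ℂ, (∀ D : DF K, (D : Derivation ℚ ℂ ℂ) f = 0) ∧ ∀ D, s.O D z = 0 ∧
      s.E D z = f * Y * s.O D y := by
  obtain ⟨D₀, ho₀⟩ := h.tr'
  have hY := h.hY
  have hc := h.curve
  -- the number `f`
  obtain ⟨f, hf⟩ : ∃ f : ℂ, s.E D₀ z = X * s.O D₀ z + f * Y * s.O D₀ y :=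
    ⟨(s.E D₀ z - X * s.O D₀ z) / (Y * s.O D₀ y), by field_simp; ring⟩
  have hall : ∀ D, s.E D z = X * s.O D z + f * Y * s.O D y := by
    intro D
    have h4 := hQ D D₀
    rw [h.fE D, h.fE D₀, hf] at h4
    have h5 : s.O D₀ y * (s.E D z - (X * s.O D z + f * Y * s.O D y)) = 0 := by
      linear_combination h4
    exact sub_eq_zero.1 ((mul_eq_zero.1 h5).resolve_left ho₀)
  have hDf : ∀ D : DF K, s.O D y ≠ 0 → (D : Derivation ℚ ℂ ℂ) f = s.O D z := by
    intro D hne'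
    have h4 := hP D
    have h6 : s.E' D y = Y * s.O D y * s.O D y + X * s.O' D y := by
      rw [← s.dE, h.fE, Derivation.leibniz, h.fX, s.dO, smul_eq_mul, smul_eq_mul]
      ring
    have h8 := h.fY h2 h3 D
    have h7 : s.E' D z = Y * s.O D y * s.O D z + X * s.O' D z +
        ((D : Derivation ℚ ℂ ℂ) f * Y * s.O D y + f * (6 * X ^ 2 - g2 / 2) * s.O D y * s.O D y +
          f * Y * s.O' D y) := by
      rw [← s.dE, hall D, map_add, Derivation.leibniz, Derivation.leibniz,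
        Derivation.leibniz, h.fX, h8, s.dO, s.dO]
      simp only [smul_eq_mul]
      ring
    rw [h6, h7, h.fE D, hall D] at h4
    have h9 : 2 * Y ^ 2 * (s.O D y) ^ 5 * ((D : Derivation ℚ ℂ ℂ) f - s.O D z) = 0 := by
      linear_combination h4 - 6 * (s.O D y) ^ 5 * s.O D z * hc
    have h10 : 2 * Y ^ 2 * (s.O D y) ^ 5 ≠ 0 :=
      mul_ne_zero (mul_ne_zero two_ne_zero (pow_ne_zero _ hY)) (pow_ne_zero _ hne')
    exact sub_eq_zero.1 ((mul_eq_zero.1 h9).resolve_left h10)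
  have hDf' : ∀ D : DF K, s.O D z = (D : Derivation ℚ ℂ ℂ) f := by
    intro D
    by_cases h0 : s.O D y = 0
    · have h6 := hDf (D + D₀) (exists_nonzero_add s h0 ho₀)
      rw [s.addO, Submodule.coe_add, Derivation.add_apply, hDf D₀ ho₀] at h6
      exact (add_right_cancel h6).symm
    · exact (hDf D h0).symm
  have hO := s.ros z f hDf'
  refine ⟨f, fun D => by rw [← hDf', hO], fun D => ⟨hO D, ?_⟩⟩
  rw [hall D, hO D]
  ring

/-- the further directions -/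
theorem tan1 {y z z' : Fin R → K} {X : ℂ} {Z : ℕ → ℂ} (hZ : Chain s y X Z) {f : ℂ} {j : ℕ}
    (ht : ∃ D, s.O D y ≠ 0)
    (hf : ∀ D : DF K, (D : Derivation ℚ ℂ ℂ) f = 0)
    (hz : ∀ D, s.E D z = f * Z (j + 1) * s.O D y)
    (hC : ∀ D, s.O D y ^ 2 * s.E D z' = s.O D y * s.E' D z - s.O' D y * s.E D z) :
    ∀ D, s.E D z' = f * Z (j + 2) * s.O D y := by
  obtain ⟨D₀, h₀⟩ := ht
  have key : ∀ D, s.O D y ≠ 0 → s.E D z' = f * Z (j + 2) * s.O D y := by
    intro D hD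
    have h4 := hC D
    have h5 : s.E' D z = f * Z (j + 2) * s.O D y * s.O D y + f * Z (j + 1) * s.O' D y := by
      rw [← s.dE, hz, Derivation.leibniz, Derivation.leibniz, hf, hZ.2, s.dO]
      simp only [smul_eq_mul]
      ring
    rw [h5, hz] at h4
    have h6 : s.O D y ^ 2 * (s.E D z' - f * Z (j + 2) * s.O D y) = 0 := by
      linear_combination h4
    exact sub_eq_zero.1 ((mul_eq_zero.1 h6).resolve_left (pow_ne_zero _ hD))
  intro D
  by_cases h0 : s.O D y = 0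
  · have h6 := key (D + D₀) (exists_nonzero_add s h0 h₀)
    rw [s.addO, s.addE, key D₀ h₀, mul_add] at h6
    exact add_right_cancel h6
  · exact key D h0

section ext

variable {i : ℕ}

/-- the index set of the coordinates -/
abbrev Ix (R i : ℕ) := Fin (i + 1) × Fin R

/-- the slices -/
def sl (j : Fin (i + 1)) : (Ix R i → K) →ₗ[K] (Fin R → K) where
  toFun x := fun l => x (j, l)
  map_add' _ _ := rfl
  map_smul' _ _ := rfl

/-- the equations -/
inductive Eqn (K : IntermediateField ℚ ℂ) (i : ℕ) : Type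
  | p (D : DF K)
  | q (D D' : DF K)
  | n (j : Fin i) (D : DF K)
  | c (j : Fin i) (D : DF K)

/-- the system of equations -/
def HH (s : Sys K R) (g2 g3 : ℂ) (a : Eqn K i) (y x : Ix R i → K) : (Ix R i → K) →ₗ[K] ℂ :=
  match a with
  | Eqn.p D => HP g2 g3 (s.E D ∘ₗ sl 0) (s.O D ∘ₗ sl 0) (s.E' D ∘ₗ sl 0) (s.O' D ∘ₗ sl 0) y x
  | Eqn.q D D' => HQ (s.E D ∘ₗ sl 0) (s.O D ∘ₗ sl 0) (s.E D' ∘ₗ sl 0) (s.O D' ∘ₗ sl 0) y x
  | Eqn.n j D => s.O D ∘ₗ sl j.succ
  | Eqn.c j D => HC (s.O D ∘ₗ sl 0) (s.O' D ∘ₗ sl 0) (s.E D ∘ₗ sl j.castSucc)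
      (s.E' D ∘ₗ sl j.castSucc) (s.E D ∘ₗ sl j.succ) y x

/-- the extended points -/
structure Ext (s : Sys K R) (g2 g3 : ℂ) (i : ℕ) (x : Ix R i → K) (X Y : ℂ) (Z : ℕ → ℂ) :
    Prop where
  good : Good s g2 g3 (sl 0 x) X Y
  chain : Chain s (sl 0 x) X Z
  fE : ∀ (j : Fin (i + 1)) (D : DF K), s.E D (sl j x) = Z j * s.O D (sl 0 x)
  fO : ∀ (j : Fin i) (D : DF K), s.O D (sl j.succ x) = 0
  free : Free s (Z i)

theorem Ext.dE {x : Ix R i → K} {X Y : ℂ} {Z : ℕ → ℂ} (h : Ext s g2 g3 i x X Y Z)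
    (j : Fin (i + 1)) (D : DF K) : s.E' D (sl j x) =
      Z (j + 1) * s.O D (sl 0 x) * s.O D (sl 0 x) + Z j * s.O' D (sl 0 x) := by
  rw [← s.dE, h.fE, Derivation.leibniz, h.chain.2, s.dO, smul_eq_mul, smul_eq_mul]
  ring

theorem HH_zero (a : Eqn K i) {x y : Ix R i → K} {X Y X' Y' : ℂ} {Z Z' : ℕ → ℂ}
    (hx : Ext s g2 g3 i x X Y Z) (hy : Ext s g2 g3 i y X' Y' Z') :
    HH s g2 g3 a y x (x - y) = 0 := by
  have e0 : Z 0 = X := hx.chain.1
  have e1 : ∀ D, s.E D (sl 0 x) = X * s.O D (sl 0 x) := hx.good.fE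
  have e0' : Z' 0 = X' := hy.chain.1
  have e1' : ∀ D, s.E D (sl 0 y) = X' * s.O D (sl 0 y) := hy.good.fE
  rcases a with D | ⟨D, D'⟩ | ⟨j, D⟩ | ⟨j, D⟩
  · change HP g2 g3 (s.E D ∘ₗ sl 0) (s.O D ∘ₗ sl 0) (s.E' D ∘ₗ sl 0) (s.O' D ∘ₗ sl 0) y x
      (x - y) = 0
    have h6 : s.E' D (sl 0 x) = Y * s.O D (sl 0 x) * s.O D (sl 0 x) + X * s.O' D (sl 0 x) := by
      rw [← s.dE, e1, Derivation.leibniz, hx.good.fX, s.dO, smul_eq_mul, smul_eq_mul]
      ring
    have h6' : s.E' D (sl 0 y) = Y' * s.O D (sl 0 y) * s.O D (sl 0 y) + X' * s.O' D (sl 0 y) := by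
      rw [← s.dE, e1', Derivation.leibniz, hy.good.fX, s.dO, smul_eq_mul, smul_eq_mul]
      ring
    rw [HP_apply]
    simp only [map_sub, LinearMap.comp_apply]
    rw [e1, e1', h6, h6']
    linear_combination (s.O D (sl 0 x)) ^ 6 * hx.good.curve - (s.O D (sl 0 y)) ^ 6 * hy.good.curve
  · change HQ (s.E D ∘ₗ sl 0) (s.O D ∘ₗ sl 0) (s.E D' ∘ₗ sl 0) (s.O D' ∘ₗ sl 0) y x (x - y) = 0
    rw [HQ_apply]
    simp only [map_sub, LinearMap.comp_apply]
    rw [e1, e1', e1, e1']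
    ring
  · change (s.O D ∘ₗ sl j.succ) (x - y) = 0
    rw [LinearMap.comp_apply, map_sub, map_sub, hx.fO, hy.fO, sub_zero]
  · change HC (s.O D ∘ₗ sl 0) (s.O' D ∘ₗ sl 0) (s.E D ∘ₗ sl j.castSucc)
      (s.E' D ∘ₗ sl j.castSucc) (s.E D ∘ₗ sl j.succ) y x (x - y) = 0
    rw [HC_apply]
    simp only [map_sub, LinearMap.comp_apply]
    rw [hx.fE j.castSucc, hy.fE j.castSucc, hx.fE j.succ, hy.fE j.succ, hx.dE j.castSucc,
      hy.dE j.castSucc]
    simp only [Fin.val_succ, Fin.val_castSucc]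
    ring

theorem HH_tan (h2 : g2 ∈ K) (h3 : g3 ∈ K) {y z : Ix R i → K} {X Y : ℂ} {Z : ℕ → ℂ}
    (hy : Ext s g2 g3 i y X Y Z) (hz : ∀ a, HH s g2 g3 a y y z = 0) : z = 0 := by
  obtain ⟨f, hf, h4⟩ := tan0 h2 h3 (z := sl 0 z) hy.good
    (fun D D' => hz (Eqn.q D D')) (fun D => hz (Eqn.p D))
  have hfY : Z 1 = Y := by
    obtain ⟨D, hD⟩ := hy.good.tr'
    have h5 := hy.chain.2 0 D
    rw [hy.chain.1, hy.good.fX] at h5
    exact (mul_right_cancel₀ hD h5).symm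
  have hOn : ∀ (j : Fin i) D, s.O D (sl j.succ z) = 0 := fun j D => hz (Eqn.n j D)
  have hE : ∀ j : ℕ, ∀ hj : j < i + 1, ∀ D, s.E D (sl ⟨j, hj⟩ z) =
      f * Z (j + 1) * s.O D (sl 0 y) := by
    intro j
    induction j with
    | zero =>
      intro hj D
      have h5 := (h4 D).2
      rw [← hfY] at h5
      exact h5
    | succ j ih =>
      intro hj
      have hj' : j < i := by omega
      refine tan1 (z := sl (⟨j, by omega⟩ : Fin (i + 1)) z) hy.chain hy.good.tr' hf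
        (ih (by omega)) (fun D => ?_)
      have h5 : HC (s.O D ∘ₗ sl 0) (s.O' D ∘ₗ sl 0) (s.E D ∘ₗ sl (⟨j, hj'⟩ : Fin i).castSucc)
        (s.E' D ∘ₗ sl (⟨j, hj'⟩ : Fin i).castSucc) (s.E D ∘ₗ sl (⟨j, hj'⟩ : Fin i).succ) y y z = 0 :=
        hz (Eqn.c ⟨j, hj'⟩ D)
      rw [HC_apply] at h5
      simp only [LinearMap.comp_apply] at h5
      have h6 : s.O' D (sl 0 z) = 0 := by
        rw [← s.dO, (h4 D).1, map_zero]
      rw [(h4 D).1, h6] at h5
      simp only [Fin.castSucc_mk, Fin.succ_mk] at h5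
      linear_combination h5
  have hO : ∀ j : Fin (i + 1), ∀ D, s.O D (sl j z) = 0 := by
    intro j D
    refine Fin.cases ?_ (fun l => ?_) j
    · exact (h4 D).1
    · exact hOn l D
  have hf0 : f = 0 := by
    by_contra hne
    have hfK : f⁻¹ ∈ K := K.inv_mem (s.closed f hf)
    apply hy.free
    refine ⟨(⟨f⁻¹, hfK⟩ : K) • sl (Fin.last i) z, fun D => ⟨?_, ?_⟩⟩
    · rw [map_smul, hO, smul_zero]
    · rw [map_smul, hy.chain.2]
      have h5 := hE i (by omega) D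
      change f⁻¹ * s.E D (sl ⟨i, _⟩ z) = _
      rw [h5]
      field_simp
  have hE0 : ∀ j : Fin (i + 1), ∀ D, s.E D (sl j z) = 0 := by
    intro j D
    have := hE j j.2 D
    rw [hf0] at this
    simpa using this
  funext ⟨j, l⟩
  exact congrFun (s.sep (sl j z) (fun D => ⟨hE0 j D, hO j D⟩)) l

/-- the count of the extended points -/
theorem card_ext (h2 : g2 ∈ K) (h3 : g3 ∈ K) (T : Finset (Ix R i → K))
    (hT : ∀ x ∈ T, ∃ X Y Z, Ext s g2 g3 i x X Y Z) :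
    T.card ≤ (6 * ((i + 1) * R)).choose ((i + 1) * R) := by
  have h := count (d := 5) (HH (i := i) s g2 g3) (by
    rintro (D | ⟨D, D'⟩ | ⟨j, D⟩ | ⟨j, D⟩) y z
    · exact HP_poly _ _ _ _ _ _ y z
    · exact HQ_poly _ _ _ _ y z
    · exact constm 5 _
    · exact HC_poly _ _ _ _ _ y z) T
    (fun a y hy x hx => by
      obtain ⟨X, Y, Z, hx'⟩ := hT x hx
      obtain ⟨X', Y', Z', hy'⟩ := hT y hy
      exact HH_zero a hx' hy')
    (fun y hy z hz => by
      obtain ⟨X, Y, Z, hy'⟩ := hT y hy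
      exact HH_tan h2 h3 hy' hz)
  have h7 : Fintype.card (Ix R i) = (i + 1) * R := by
    rw [Fintype.card_prod, Fintype.card_fin, Fintype.card_fin]
  rw [h7] at h
  have h8 : (i + 1) * R + (i + 1) * R * 5 = 6 * ((i + 1) * R) := by ring
  rwa [h8] at h

end ext

section indep

/-- the chain of a good point is independent modulo `K`: a polynomial argument -/
theorem no_stable (h2 : g2 ∈ K) (h3 : g3 ∈ K) {y : Fin R → K} {X Y : ℂ}
    (h : Good s g2 g3 y X Y) (U : Submodule K ℂ) (hfin : FiniteDimensional K U) (h1 : (1 : ℂ) ∈ U)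
    (hX : X ∈ U) (D₀ : DF K) (h₀ : s.O D₀ y ≠ 0)
    (hU : ∀ w ∈ U, (D₀ : Derivation ℚ ℂ ℂ) w / s.O D₀ y ∈ U) : False := by
  have hK : ∀ {c : ℂ}, c ∈ K → ∀ {w : ℂ}, w ∈ U → c * w ∈ U := fun {c} hc {w} hw =>
    U.smul_mem (⟨c, hc⟩ : K) hw
  have hn : ∀ n : ℕ, (n : ℂ) ∈ K := fun n => by simp
  have hfX := h.fX D₀
  have hfY := h.fY h2 h3 D₀
  -- second derivatives of powers
  have hder : ∀ n : ℕ, (D₀ : Derivation ℚ ℂ ℂ) ((D₀ : Derivation ℚ ℂ ℂ) (X ^ (n + 1)) / s.O D₀ y) /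
      s.O D₀ y = ((n : ℂ) + 1) * (X ^ n * (6 * X ^ 2 - g2 / 2) + n * X ^ (n - 1) * Y ^ 2) := by
    intro n
    have e1 : (D₀ : Derivation ℚ ℂ ℂ) (X ^ (n + 1)) / s.O D₀ y = ((n + 1 : ℕ) : ℂ) * (X ^ n * Y) := by
      rw [Derivation.leibniz_pow, hfX]
      simp only [Nat.add_sub_cancel, smul_eq_mul, nsmul_eq_mul]
      field_simp
    rw [e1, Derivation.leibniz, D_nat, Derivation.leibniz, Derivation.leibniz_pow, hfX, hfY]
    simp only [smul_eq_mul, nsmul_eq_mul]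
    push_cast
    field_simp
    ring
  have hpow : ∀ n : ℕ, X ^ n ∈ U := by
    intro n
    induction n using Nat.strong_induction_on with
    | _ n ih =>
      rcases n with _ | _ | n
      · rw [pow_zero]
        exact h1
      · rw [zero_add, pow_one]
        exact hX
      · have h4 := hU _ (hU _ (ih (n + 1) (by omega)))
        rw [hder n, h.curve] at h4
        have h5 : X ^ n ∈ U := ih n (by omega)
        have h6 : (n : ℂ) * (X ^ (n - 1) * (4 * X ^ 3 - g2 * X - g3)) =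
            4 * (n : ℂ) * X ^ (n + 2) - (n : ℂ) * g2 * X ^ n - (n : ℂ) * g3 * X ^ (n - 1) := by
          rcases n with _ | n
          · simp
          · rw [Nat.add_sub_cancel]
            push_cast
            ring
        have h7 : X ^ (n - 1) ∈ U := ih (n - 1) (by omega)
        have h8 : X ^ (n + 2) = (((n + 1 : ℕ) : ℂ) * ((4 * n + 6 : ℕ) : ℂ))⁻¹ *
            (((n : ℂ) + 1) * (X ^ n * (6 * X ^ 2 - g2 / 2) + n * X ^ (n - 1) *
              (4 * X ^ 3 - g2 * X - g3))) +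
            (((4 * n + 6 : ℕ) : ℂ)⁻¹ * (g2 * ((n : ℂ) + ((2 : ℕ) : ℂ)⁻¹))) * X ^ n +
            (((4 * n + 6 : ℕ) : ℂ)⁻¹ * (n * g3)) * X ^ (n - 1) := by
          have n1 : ((n + 1 : ℕ) : ℂ) ≠ 0 := by exact_mod_cast Nat.succ_ne_zero n
          have n2 : ((4 * n + 6 : ℕ) : ℂ) ≠ 0 := by
            have : (4 * n + 6 : ℕ) ≠ 0 := by omega
            exact_mod_cast this
          have h9 : ((n : ℂ) + 1) * (X ^ n * (6 * X ^ 2 - g2 / 2) + n * X ^ (n - 1) *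
              (4 * X ^ 3 - g2 * X - g3)) = ((n + 1 : ℕ) : ℂ) * (((4 * n + 6 : ℕ) : ℂ) * X ^ (n + 2) -
              (g2 * ((n : ℂ) + ((2 : ℕ) : ℂ)⁻¹)) * X ^ n - (n * g3) * X ^ (n - 1)) := by
            rw [mul_assoc (n : ℂ), h6]
            push_cast
            ring
          rw [h9]
          field_simp
          ring
        rw [h8]
        have k1 : (((n + 1 : ℕ) : ℂ) * ((4 * n + 6 : ℕ) : ℂ))⁻¹ ∈ K :=
          K.inv_mem (mul_mem (hn _) (hn _))
        have k2 : ((4 * n + 6 : ℕ) : ℂ)⁻¹ * (g2 * ((n : ℂ) + ((2 : ℕ) : ℂ)⁻¹)) ∈ K :=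
          mul_mem (K.inv_mem (hn _)) (mul_mem h2 (add_mem (hn n) (K.inv_mem (hn 2))))
        have k3 : ((4 * n + 6 : ℕ) : ℂ)⁻¹ * (n * g3) ∈ K :=
          mul_mem (K.inv_mem (hn _)) (mul_mem (hn n) h3)
        exact add_mem (add_mem (hK k1 h4) (hK k2 h5)) (hK k3 h7)
  have halg : IsAlgebraic K X := by
    have h4 : Subalgebra.toSubmodule (Algebra.adjoin K {X}) ≤ U := by
      intro w hw
      rw [Subalgebra.mem_toSubmodule, Algebra.adjoin_singleton_eq_range_aeval] at hw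
      obtain ⟨p, rfl⟩ := hw
      change Polynomial.aeval X p ∈ U
      rw [Polynomial.aeval_eq_sum_range]
      exact Submodule.sum_mem _ (fun i _ => U.smul_mem _ (hpow i))
    have h5 : (Subalgebra.toSubmodule (Algebra.adjoin K {X})).FG := by
      have : FiniteDimensional K (Subalgebra.toSubmodule (Algebra.adjoin K {X})) :=
        Submodule.finiteDimensional_of_le h4
      exact Module.Finite.iff_fg.1 this
    exact (IsIntegral.of_mem_of_fg _ h5 X (Algebra.self_mem_adjoin_singleton K X)).isAlgebraic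
  obtain ⟨D, hD⟩ := h.tr
  exact hD (Pool.Agent.TH813.ZtFin.killed_of_alg halg D D.2)

/-- some further jet is obstructed -/
theorem exists_free_of (h2 : g2 ∈ K) (h3 : g3 ∈ K) {y : Fin R → K} {X Y : ℂ} {Z : ℕ → ℂ}
    (h : Good s g2 g3 y X Y) (hZ : Chain s y X Z) (n : ℕ)
    (hdep : ∀ ρ : Fin n → Fin R → K, (∀ i D, s.O D (ρ i) = 0) →
      (∀ i, ∃ c : ℂ, ∀ D : DF K, s.E D (ρ i) = (D : Derivation ℚ ℂ ℂ) c) →
      ¬ LinearIndependent K ρ) : ∃ i < n, Free s (Z i) := by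
  classical
  by_contra hcon
  push Not at hcon
  have hρ : ∀ i : Fin n, ∃ z : Fin R → K, ∀ D : DF K, s.O D z = 0 ∧
      s.E D z = (D : Derivation ℚ ℂ ℂ) (Z i) := fun i => by
    have := hcon i i.2
    unfold Free at this
    exact not_not.1 this
  choose ρ hρ using hρ
  obtain ⟨D₀, h₀⟩ := h.tr'
  have hnl : ¬ LinearIndependent K ρ :=
    hdep ρ (fun i D => (hρ i D).1) (fun i => ⟨Z i, fun D => (hρ i D).2⟩)
  obtain ⟨c, hc, j₁, hj₁⟩ := Fintype.not_linearIndependent_iff.1 hnl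
  -- a relation of the chain
  have hκ : ∑ i : Fin n, (c i : ℂ) * Z i ∈ K := by
    apply s.closed
    intro D
    have h4 := congrArg (s.E D) hc
    rw [map_sum, map_zero] at h4
    rw [map_sum, ← h4]
    refine sum_congr rfl (fun i _ => ?_)
    rw [map_smul, (hρ i D).2, Derivation.leibniz, D.2 _ (c i).2, smul_zero, add_zero,
      smul_eq_mul]
    rfl
  -- the largest index
  obtain ⟨m, hm, hmax⟩ : ∃ m : Fin n, c m ≠ 0 ∧ ∀ j : Fin n, m < j → c j = 0 := by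
    have hne : (univ.filter (fun j : Fin n => c j ≠ 0)).Nonempty :=
      ⟨j₁, mem_filter.2 ⟨mem_univ _, hj₁⟩⟩
    refine ⟨_, (mem_filter.1 (max'_mem _ hne)).2, fun j hj => ?_⟩
    by_contra hj'
    exact absurd (le_max' _ j (mem_filter.2 ⟨mem_univ _, hj'⟩)) (not_le.2 hj)
  set B : Set ℂ := insert 1 (Z '' Set.Iio (m : ℕ)) with hB
  set U := Submodule.span K B with hU
  have h1 : (1 : ℂ) ∈ U := Submodule.subset_span (Set.mem_insert _ _)
  have hZU : ∀ j, j < (m : ℕ) → Z j ∈ U := fun j hj =>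
    Submodule.subset_span (Set.mem_insert_of_mem _ ⟨j, hj, rfl⟩)
  have hKU : ∀ {a : ℂ}, a ∈ K → a ∈ U := fun {a} ha => by
    have := U.smul_mem (⟨a, ha⟩ : K) h1
    change a * 1 ∈ U at this
    rwa [mul_one] at this
  have hZm : Z m ∈ U := by
    have h4 : ∑ i : Fin n, (c i : ℂ) * Z i = (c m : ℂ) * Z m +
        ∑ i ∈ univ.erase m, (c i : ℂ) * Z i := (add_sum_erase _ _ (mem_univ m)).symm
    have h5 : ∑ i ∈ univ.erase m, (c i : ℂ) * Z i ∈ U := by
      refine Submodule.sum_mem _ (fun i hi => ?_)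
      rcases lt_or_gt_of_ne (ne_of_mem_erase hi) with h6 | h6
      · exact U.smul_mem (c i) (hZU i h6)
      · rw [hmax i h6]
        simp
    have h6 : (c m : ℂ) * Z m ∈ U := by
      have h7 : (c m : ℂ) * Z m = ∑ i : Fin n, (c i : ℂ) * Z i -
        ∑ i ∈ univ.erase m, (c i : ℂ) * Z i := by rw [h4]; ring
      rw [h7]
      exact sub_mem (hKU hκ) h5
    have h8 := U.smul_mem (c m)⁻¹ h6
    have h9 : (c m)⁻¹ • ((c m : ℂ) * Z m) = Z m := by
      have : (c m : ℂ) ≠ 0 := fun h => hm (Subtype.ext h)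
      rw [Algebra.smul_def]
      change ((c m)⁻¹ : K) * ((c m : ℂ) * Z m) = Z m
      push_cast
      field_simp
    rwa [h9] at h8
  have hXU : X ∈ U := by
    rw [← hZ.1]
    rcases Nat.eq_zero_or_pos (m : ℕ) with h4 | h4
    · rw [h4] at hZm
      exact hZm
    · exact hZU 0 h4
  have hfin : FiniteDimensional K U := by
    apply FiniteDimensional.span_of_finite
    exact ((Set.finite_Iio _).image _).insert _
  refine no_stable h2 h3 h U hfin h1 hXU D₀ h₀ (fun w hw => ?_)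
  induction hw using Submodule.span_induction with
  | mem w hw =>
    rcases hw with rfl | ⟨j, hj, rfl⟩
    · rw [Derivation.map_one_eq_zero, zero_div]
      exact zero_mem _
    · rw [hZ.2 j D₀, mul_div_assoc, div_self h₀, mul_one]
      rcases Nat.lt_or_ge (j + 1) m with h4 | h4
      · exact hZU _ h4
      · have h5 : j + 1 = m := le_antisymm hj h4
        rw [h5]
        exact hZm
  | zero =>
    rw [map_zero, zero_div]
    exact zero_mem _
  | add a b _ _ ha hb =>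
    rw [map_add, add_div]
    exact add_mem ha hb
  | smul a w _ hw =>
    have h4 : (D₀ : Derivation ℚ ℂ ℂ) (a • w) / s.O D₀ y =
        a • ((D₀ : Derivation ℚ ℂ ℂ) w / s.O D₀ y) := by
      rw [Algebra.smul_def, Algebra.smul_def]
      change (D₀ : Derivation ℚ ℂ ℂ) ((a : ℂ) * w) / s.O D₀ y = (a : ℂ) * _
      rw [Derivation.leibniz, D₀.2 _ a.2, smul_zero, add_zero, smul_eq_mul]
      ring
    rw [h4]
    exact U.smul_mem _ hw

/-- **The count of the good points.** -/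
theorem card_good (h2 : g2 ∈ K) (h3 : g3 ∈ K) (S : Finset (Fin R → K))
    (hS : ∀ y ∈ S, ∃ X Y, Good s g2 g3 y X Y) (n : ℕ)
    (hdep : ∀ ρ : Fin n → Fin R → K, (∀ i D, s.O D (ρ i) = 0) →
      (∀ i, ∃ c : ℂ, ∀ D : DF K, s.E D (ρ i) = (D : Derivation ℚ ℂ ℂ) c) →
      ¬ LinearIndependent K ρ) :
    S.card ≤ ∑ i ∈ range n, (6 * ((i + 1) * R)).choose ((i + 1) * R) := by
  classical
  have hex : ∀ y ∈ S, ∃ i < n, ∃ x : Ix R i → K, sl 0 x = y ∧ ∃ X Y Z, Ext s g2 g3 i x X Y Z := by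
    intro y hy
    obtain ⟨X, Y, hg⟩ := hS y hy
    obtain ⟨Z, hZ⟩ := exists_chain h2 h3 hg
    have hfr := exists_free_of h2 h3 hg hZ n hdep
    have hfr' : ∃ i, Free s (Z i) := ⟨_, hfr.choose_spec.2⟩
    have h4 := Nat.find_spec hfr'
    have h5 : ∀ j, j < Nat.find hfr' → ∃ z : Fin R → K, ∀ D : DF K, s.O D z = 0 ∧
        s.E D z = (D : Derivation ℚ ℂ ℂ) (Z j) := fun j hj => by
      have := Nat.find_min hfr' hj
      unfold Free at this
      exact not_not.1 this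
    have h6 : Nat.find hfr' < n := by
      obtain ⟨i, hi, hi'⟩ := hfr
      exact lt_of_le_of_lt (Nat.find_min' hfr' hi') hi
    set i := Nat.find hfr' with hi
    choose! ρ hρ using h5
    let x : Ix R i → K := fun p => Fin.cases y (fun l => ρ l) p.1 p.2
    have hx0 : sl 0 x = y := rfl
    have hxs : ∀ j : Fin i, sl j.succ x = ρ j := fun j => rfl
    refine ⟨i, h6, x, hx0, X, Y, Z, ?_⟩
    refine ⟨by rw [hx0]; exact hg, by rw [hx0]; exact hZ, fun j D => ?_, fun j D => ?_, h4⟩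
    · refine Fin.cases ?_ (fun l => ?_) j
      · rw [hx0, hg.fE, Fin.val_zero, hZ.1]
      · rw [hxs, hx0, (hρ l l.2 D).2, hZ.2, Fin.val_succ]
    · rw [hxs]
      exact (hρ j j.2 D).1
  choose! i hi x hx0 hx using hex
  have h4 : S.card = ∑ j ∈ range n, (S.filter (fun y => i y = j)).card :=
    card_eq_sum_card_fiberwise (fun y hy => mem_coe.2 (mem_range.2 (hi y hy)))
  rw [h4]
  refine sum_le_sum (fun j _ => ?_)
  -- the extended points of level `j`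
  have h5 : ∀ y ∈ S.filter (fun y => i y = j), ∃ x : Ix R j → K, sl 0 x = y ∧
      ∃ X Y Z, Ext s g2 g3 j x X Y Z := by
    intro y hy
    obtain ⟨hy1, hy2⟩ := mem_filter.1 hy
    subst hy2
    exact ⟨x y, hx0 y hy1, hx y hy1⟩
  choose! x' hx'0 hx' using h5
  have h6 : ((S.filter (fun y => i y = j)).image x').card = (S.filter (fun y => i y = j)).card := by
    apply card_image_of_injOn
    intro a ha b hb hab
    have h7 := hx'0 a ha
    have h8 := hx'0 b hb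
    rw [← h7, ← h8, hab]
  rw [← h6]
  apply card_ext (s := s) h2 h3
  intro w hw
  obtain ⟨y, hy, rfl⟩ := mem_image.1 hw
  exact hx' y hy

end indep

end Pool.Agent.TH813.ZtJet
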