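import Mathlib
import Pool.Agent.TH813.ZtJet

/-!
# Points of a rational space at which `ζ` plus an additive function is algebraic: general spaces
-/

set_option autoImplicit false

open Finset Module
open scoped PeriodPair ComplexConjugate

noncomputable section

namespace Pool.Agent.TH813.ZtGen

open H667R3 Pool.Agent.W245.EB
open Pool.Agent.TH813.Ell Pool.Agent.TH813.ZtFin Pool.Agent.TH813.ZtJet
open Pool.Agent.TH813.Rel (DF)

section fields

variable {F : IntermediateField ℚ ℂ} {L : PeriodPair}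

theorem F_le_Kc {x : ℂ} (hx : x ∈ F) : x ∈ Kc F := fun _ hD => hD x hx

theorem DF_Kc {D : Derivation ℚ ℂ ℂ} : D ∈ DF (Kc F) ↔ D ∈ DF F :=
  ⟨fun h x hx => h x (F_le_Kc hx), fun h _ hx => hx D h⟩

theorem kL_le {c : ℂ} (hc : c ∈ kL L) : c ∈ Kc F := fun D _ => der_kL D hc

/-- a real multiplication is rational -/
theorem real_rat {α : ℂ} (h : α ∈ kL L) (hr : conj α = α) : ∃ q : ℚ, α = q := by
  obtain ⟨n, hn, h⟩ := h
  obtain ⟨a, ha⟩ := Complex.conj_eq_iff_real.1 hr
  have h1 := h _ L.ω₁_mem_lattice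
  obtain ⟨p, q, hpq⟩ := PeriodPair.mem_lattice.1 h1
  have h2 := L.indep
  rw [LinearIndependent.pair_iff] at h2
  have h3 := h2 ((p : ℝ) - n * a) (q : ℝ) (by
    rw [Complex.real_smul, Complex.real_smul]
    push_cast
    rw [ha] at hpq
    linear_combination hpq)
  have hn0 : (n : ℝ) ≠ 0 := by
    have := hn.ne'
    exact_mod_cast this
  refine ⟨(p : ℚ) / n, ?_⟩
  have h4 : a = (p : ℝ) / n := by
    rw [eq_div_iff hn0]
    linarith [h3.1]
  rw [ha, h4]
  push_cast
  rfl

/-- coordinates over the field of multiplications -/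
theorem expand {K : IntermediateField ℚ ℂ} (hk : ∀ c ∈ kL L, c ∈ K) {r : ℕ} (z : Fin r → ℂ)
    (hz : ∀ i, z i ∈ K) : ∃ (d : ℕ) (β : Fin d → ℂ) (α : Fin d → Fin r → ℂ), (∀ s, β s ∈ K) ∧
      (∀ s j, α s j ∈ kL L) ∧ (∀ j, z j = ∑ s, α s j * β s) ∧
      ∀ N : Fin d → ℂ, (∀ s, N s ∈ kL L) → ∑ s, N s * β s = 0 → ∀ s, N s = 0 := by
  classical
  set B := Submodule.span (kL L) (Set.range z) with hB
  have hfin : FiniteDimensional (kL L) B := FiniteDimensional.span_of_finite _ (Set.finite_range _)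
  have hBK : ∀ w ∈ B, w ∈ K := by
    intro w hw
    induction hw using Submodule.span_induction with
    | mem w hw =>
      obtain ⟨i, rfl⟩ := hw
      exact hz i
    | zero => exact zero_mem _
    | add a b _ _ ha hb => exact add_mem ha hb
    | smul a w _ hw => exact mul_mem (hk _ a.2) hw
  set b := finBasis (kL L) B with hb
  refine ⟨_, fun s => (b s : ℂ), fun s j => (b.repr ⟨z j, Submodule.subset_span ⟨j, rfl⟩⟩ s : ℂ),
    fun s => hBK _ (b s).2, fun s j => Subtype.mem _, fun j => ?_, fun N hN h s => ?_⟩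
  · have h := congrArg Subtype.val (b.sum_repr ⟨z j, Submodule.subset_span ⟨j, rfl⟩⟩)
    rw [Submodule.coe_sum] at h
    exact h.symm
  · have h1 := b.linearIndependent
    rw [Fintype.linearIndependent_iff] at h1
    have h2 := h1 (fun s => ⟨N s, hN s⟩) (by
      apply Subtype.ext
      rw [Submodule.coe_sum]
      exact h) s
    exact congrArg Subtype.val h2

variable {r : ℕ}

/-- relations of the first kind -/
theorem first (h2 : L.g₂ ∈ F) (h3 : L.g₃ ∈ F) (v : Fin r → ℂ) {z : Fin r → ℂ}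
    (hz : ∀ i, z i ∈ Kc F) {d : ℕ} {β : Fin d → ℂ} {α : Fin d → Fin r → ℂ}
    (hα : ∀ s j, α s j ∈ kL L) (hzj : ∀ j, z j = ∑ s, α s j * β s)
    (hN : ∀ N : Fin d → ℂ, (∀ s, N s ∈ kL L) → ∑ s, N s * β s = 0 → ∀ s, N s = 0) (f : ℂ)
    (h : ∀ D ∈ DF F, D f = ∑ j, z j * om L D (v j)) (s : Fin d) :
    ∀ D ∈ DF F, ∑ j, α s j * om L D (v j) = 0 := by
  obtain ⟨κ, hE⟩ := exists_eig L
  have key := ros_linK hE (Kc F) (F_le_Kc h2) (F_le_Kc h3) (fun c hc => kL_le hc)
    (fun D hD => hE.kill D (hD _ h2) (hD _ h3)) (m := 0) (n := r) Fin.elim0 Fin.elim0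
    (fun l => l.elim0) (fun l => l.elim0) z (fun _ => 0) v hz (fun _ => zero_mem _) f (fun D hD => by
      rw [h D (DF_Kc.1 hD)]
      simp) (α s) (hα s) (fun N hNk h5 _ => by
      refine hN (fun s => ∑ j, α s j * N j)
        (fun s => sum_mem (fun j _ => mul_mem (hα s j) (hNk j))) ?_ s
      rw [← h5]
      simp_rw [hzj, sum_mul]
      rw [sum_comm]
      refine sum_congr rfl (fun s _ => ?_)
      refine sum_congr rfl (fun j _ => ?_)
      ring)
  intro D hD
  exact key D (fun w hw => hw D hD)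

/-- relations of the second kind -/
theorem second (h2 : L.g₂ ∈ F) (h3 : L.g₃ ∈ F) (v : Fin r → ℂ) {z : Fin r → ℂ}
    (hz : ∀ i, z i ∈ Kc F) {d : ℕ} {β : Fin d → ℂ} {α : Fin d → Fin r → ℂ}
    (hα : ∀ s j, α s j ∈ kL L) (hzj : ∀ j, z j = ∑ s, α s j * β s)
    (hN : ∀ N : Fin d → ℂ, (∀ s, N s ∈ kL L) → ∑ s, N s * β s = 0 → ∀ s, N s = 0) (f : ℂ)
    (h1 : ∀ D ∈ DF F, ∑ j, z j * om L D (v j) = 0)
    (h : ∀ D ∈ DF F, D f = ∑ j, z j * et L D (v j)) (s : Fin d) :
    ∀ D ∈ DF F, ∑ j, conj (α s j) * om L D (v j) = 0 := by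
  obtain ⟨κ, hE⟩ := exists_eig L
  have hsum : ∀ D ∈ DF F, D (f - ∑ j, z j * zt L (v j)) =
      ∑ j, z j * ((℘[L] (v j) + κ) * om L D (v j)) := by
    intro D hD
    have e1 : ∑ j, z j * ((℘[L] (v j) + κ) * om L D (v j)) =
        ∑ j, z j * (℘[L] (v j) * om L D (v j)) := by
      have e2 : ∑ j, z j * ((℘[L] (v j) + κ) * om L D (v j)) =
          ∑ j, z j * (℘[L] (v j) * om L D (v j)) + κ * ∑ j, z j * om L D (v j) := by
        rw [mul_sum, ← sum_add_distrib]
        exact sum_congr rfl (fun j _ => by ring)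
      rw [e2, h1 D hD, mul_zero, add_zero]
    rw [e1, map_sub, h D hD, map_sum, ← sum_sub_distrib]
    refine sum_congr rfl (fun j _ => ?_)
    rw [Derivation.leibniz, hz j D hD, smul_zero, add_zero, smul_eq_mul]
    unfold et
    ring
  have key := ros_linK hE (Kc F) (F_le_Kc h2) (F_le_Kc h3) (fun c hc => kL_le hc)
    (fun D hD => hE.kill D (hD _ h2) (hD _ h3)) (m := 0) (n := r) Fin.elim0 Fin.elim0
    (fun l => l.elim0) (fun l => l.elim0) (fun _ => 0) z v (fun _ => zero_mem _) hz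
    (f - ∑ j, z j * zt L (v j)) (fun D hD => by
      rw [hsum D (DF_Kc.1 hD)]
      simp) (fun j => conj (α s j)) (fun j => conj_mem_kL (hα s j)) (fun N hNk _ h5 => by
      have h6 := hN (fun s => ∑ j, α s j * conj (N j))
        (fun s => sum_mem (fun j _ => mul_mem (hα s j) (conj_mem_kL (hNk j)))) (by
        rw [← h5]
        simp_rw [hzj, sum_mul]
        rw [sum_comm]
        refine sum_congr rfl (fun s _ => ?_)
        refine sum_congr rfl (fun j _ => ?_)
        ring) s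
      have h7 := congrArg conj h6
      simp only [map_sum, map_mul, Complex.conj_conj, map_zero] at h7
      exact h7)
  intro D hD
  exact key D (fun w hw => hw D hD)

/-- the rational vectors of a space, as vectors over the field -/
def up (F : IntermediateField ℚ ℂ) {r : ℕ} (H : Submodule ℚ (Fin r → ℚ)) :
    Submodule (Kc F) (Fin r → Kc F) :=
  Submodule.span (Kc F) ((fun a : Fin r → ℚ => fun i => ((a i : ℚ) : Kc F)) '' (H : Set (Fin r → ℚ)))

theorem mem_up {H : Submodule ℚ (Fin r → ℚ)} {a : Fin r → ℚ} (ha : a ∈ H) :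
    (fun i => ((a i : ℚ) : Kc F)) ∈ up F H := Submodule.subset_span ⟨a, ha, rfl⟩

/-- the null vectors of the first and second kind are combinations of the rational ones -/
theorem null_up (h2 : L.g₂ ∈ F) (h3 : L.g₃ ∈ F) (v l : Fin r → ℂ)
    {H : Submodule ℚ (Fin r → ℚ)} (hH : ∀ a : Fin r → ℚ, (∀ D ∈ DF F, om L D (lc v a) = 0) → a ∈ H)
    (z : Fin r → Kc F) (h1 : ∀ D ∈ DF F, ∑ j, (z j : ℂ) * om L D (v j) = 0)
    (hc : ∃ c : ℂ, ∀ D ∈ DF F, ∑ j, (z j : ℂ) * (et L D (v j) + D (l j)) = D c) :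
    z ∈ up F H := by
  classical
  obtain ⟨c, hc⟩ := hc
  obtain ⟨d, β, α, hβ, hα, hzj, hN⟩ := expand (L := L) (K := Kc F) (fun c hc => kL_le hc)
    (fun j => (z j : ℂ)) (fun j => (z j).2)
  have k1 := first h2 h3 v (fun j => (z j).2) hα hzj hN 0 (fun D hD => by
    rw [h1 D hD, map_zero])
  have k2 := second h2 h3 v (fun j => (z j).2) hα hzj hN (c - ∑ j, (z j : ℂ) * l j) h1
    (fun D hD => by
      rw [map_sub, ← hc D hD, map_sum, ← sum_sub_distrib]
      refine sum_congr rfl (fun j _ => ?_)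
      rw [Derivation.leibniz, (z j).2 D hD, smul_zero, add_zero, smul_eq_mul]
      ring)
  -- the rational vectors
  have hrat : ∀ (γ : Fin r → ℂ) (q : Fin r → ℚ), (∀ j, γ j = q j) →
      (∀ D ∈ DF F, ∑ j, γ j * om L D (v j) = 0) → q ∈ H := by
    intro γ q hq h
    refine hH q (fun D hD => ?_)
    rw [lc_apply, om_lin D (hD _ h2) (hD _ h3), ← h D hD]
    exact sum_congr rfl (fun j _ => by rw [hq])
  have hp : ∀ s j, ∃ p : ℚ, α s j + conj (α s j) = p := fun s j =>
    real_rat (L := L) (add_mem (hα s j) (conj_mem_kL (hα s j))) (by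
      rw [map_add, Complex.conj_conj, add_comm])
  choose p hp using hp
  have hpH : ∀ s, p s ∈ H := fun s => hrat (fun j => α s j + conj (α s j)) (p s) (hp s)
    (fun D hD => by
      simp_rw [add_mul]
      rw [sum_add_distrib, k1 s D hD, k2 s D hD, add_zero])
  by_cases hδ : ∃ δ ∈ kL L, δ ≠ 0 ∧ conj δ = - δ
  · obtain ⟨δ, hδk, hδ0, hδc⟩ := hδ
    have hq : ∀ s j, ∃ q : ℚ, δ * (α s j - conj (α s j)) = q := fun s j =>
      real_rat (L := L) (mul_mem hδk (sub_mem (hα s j) (conj_mem_kL (hα s j)))) (by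
        rw [map_mul, map_sub, Complex.conj_conj, hδc]
        ring)
    choose q hq using hq
    have hqH : ∀ s, q s ∈ H := fun s => hrat (fun j => δ * (α s j - conj (α s j))) (q s) (hq s)
      (fun D hD => by
        have e1 : ∑ j, δ * (α s j - conj (α s j)) * om L D (v j) =
            δ * (∑ j, α s j * om L D (v j) - ∑ j, conj (α s j) * om L D (v j)) := by
          rw [← sum_sub_distrib, mul_sum]
          exact sum_congr rfl (fun j _ => by ring)
        rw [e1, k1 s D hD, k2 s D hD, sub_zero, mul_zero])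
    have hz : z = ∑ s, ((⟨β s / 2, by
        have := (Kc F).mul_mem (hβ s) ((Kc F).inv_mem ((Kc F).algebraMap_mem 2))
        rw [eq_ratCast] at this
        push_cast at this
        exact this⟩ : Kc F) • (fun j => ((p s j : ℚ) : Kc F)) +
        (⟨β s * δ⁻¹ / 2, by
        have := (Kc F).mul_mem ((Kc F).mul_mem (hβ s) ((Kc F).inv_mem (kL_le hδk)))
          ((Kc F).inv_mem ((Kc F).algebraMap_mem 2))
        rw [eq_ratCast] at this
        push_cast at this
        exact this⟩ : Kc F) • (fun j => ((q s j : ℚ) : Kc F))) := by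
      funext j
      apply Subtype.ext
      rw [hzj j, Finset.sum_apply]
      push_cast
      refine sum_congr rfl (fun s _ => ?_)
      rw [Pi.add_apply, Pi.smul_apply, Pi.smul_apply, smul_eq_mul, smul_eq_mul]
      push_cast
      rw [← hp, ← hq]
      field_simp
      ring
    rw [hz]
    exact Submodule.sum_mem _ (fun s _ => add_mem (Submodule.smul_mem _ _ (mem_up (hpH s)))
      (Submodule.smul_mem _ _ (mem_up (hqH s))))
  · have hα' : ∀ s j, conj (α s j) = α s j := by
      intro s j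
      by_contra hne
      apply hδ
      refine ⟨α s j - conj (α s j), sub_mem (hα s j) (conj_mem_kL (hα s j)),
        fun h => hne (sub_eq_zero.1 h).symm, ?_⟩
      rw [map_sub, Complex.conj_conj]
      ring
    have hz : z = ∑ s, ((⟨β s / 2, by
        have := (Kc F).mul_mem (hβ s) ((Kc F).inv_mem ((Kc F).algebraMap_mem 2))
        rw [eq_ratCast] at this
        push_cast at this
        exact this⟩ : Kc F) • (fun j => ((p s j : ℚ) : Kc F))) := by
      funext j
      apply Subtype.ext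
      rw [hzj j, Finset.sum_apply]
      push_cast
      refine sum_congr rfl (fun s _ => ?_)
      rw [Pi.smul_apply, smul_eq_mul]
      push_cast
      rw [← hp, hα']
      ring
    rw [hz]
    exact Submodule.sum_mem _ (fun s _ => Submodule.smul_mem _ _ (mem_up (hpH s)))

/-- the dimension of the extended space -/
theorem finrank_up (H : Submodule ℚ (Fin r → ℚ)) : finrank (Kc F) (up F H) ≤ finrank ℚ H := by
  classical
  let b := finBasis ℚ H
  have h1 : up F H ≤ Submodule.span (Kc F) (Set.range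
      (fun s : Fin (finrank ℚ H) => fun i => (((b s : Fin r → ℚ) i : ℚ) : Kc F))) := by
    unfold up
    rw [Submodule.span_le]
    rintro _ ⟨a, ha, rfl⟩
    have h2 := congrArg Subtype.val (b.sum_repr ⟨a, ha⟩)
    rw [Submodule.coe_sum] at h2
    have h3 : (fun i => ((a i : ℚ) : Kc F)) = ∑ s, ((b.repr ⟨a, ha⟩ s : ℚ) : Kc F) •
        (fun i => (((b s : Fin r → ℚ) i : ℚ) : Kc F)) := by
      funext i
      have h4 := congrFun h2 i
      rw [Finset.sum_apply] at h4
      rw [Finset.sum_apply]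
      have h5 : (a i : ℚ) = ∑ s, b.repr ⟨a, ha⟩ s * (b s : Fin r → ℚ) i := h4.symm
      rw [h5]
      push_cast
      rfl
    change (fun i => ((a i : ℚ) : Kc F)) ∈ _
    rw [h3]
    exact Submodule.sum_mem _ (fun s _ => Submodule.smul_mem _ _
      (Submodule.subset_span ⟨s, rfl⟩))
  refine (Submodule.finrank_mono h1).trans ?_
  have h2 := finrank_range_le_card (R := Kc F)
    (fun s : Fin (finrank ℚ H) => fun i : Fin r => (((b s : Fin r → ℚ) i : ℚ) : Kc F))
  rwa [Fintype.card_fin] at h2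

end fields

section system

variable {F : IntermediateField ℚ ℂ} {L : PeriodPair} {r : ℕ}

/-- linear forms with given values at the basis vectors -/
def lf (F : IntermediateField ℚ ℂ) {r : ℕ} (w : Fin r → ℂ) : (Fin r → Kc F) →ₗ[Kc F] ℂ :=
  Fintype.linearCombination (Kc F) w

theorem lf_apply (w : Fin r → ℂ) (z : Fin r → Kc F) : lf F w z = ∑ i, (z i : ℂ) * w i := rfl

theorem der_lf {D : Derivation ℚ ℂ ℂ} (hD : D ∈ DF F) (w : Fin r → ℂ) (z : Fin r → Kc F) :
    D (lf F w z) = lf F (fun i => D (w i)) z := by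
  rw [lf_apply, lf_apply, map_sum]
  refine sum_congr rfl (fun i _ => ?_)
  rw [Derivation.leibniz, (z i).2 D hD, smul_zero, add_zero, smul_eq_mul]

theorem lf_add (w w' : Fin r → ℂ) (z : Fin r → Kc F) :
    lf F (fun i => w i + w' i) z = lf F w z + lf F w' z := by
  rw [lf_apply, lf_apply, lf_apply, ← sum_add_distrib]
  exact sum_congr rfl (fun i _ => by ring)

/-- the values of the form of the second kind -/
def wE (L : PeriodPair) (v l : Fin r → ℂ) (D : Derivation ℚ ℂ ℂ) : Fin r → ℂ :=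
  fun i => et L D (v i) + D (l i)

/-- the values of the form of the first kind -/
def wO (L : PeriodPair) (v : Fin r → ℂ) (D : Derivation ℚ ℂ ℂ) : Fin r → ℂ :=
  fun i => om L D (v i)

/-- the common kernel -/
def N0 (F : IntermediateField ℚ ℂ) (L : PeriodPair) (v l : Fin r → ℂ) :
    Submodule (Kc F) (Fin r → Kc F) where
  carrier := {z | ∀ D ∈ DF F, lf F (wE L v l D) z = 0 ∧ lf F (wO L v D) z = 0}
  add_mem' := by
    intro a b ha hb D hD
    rw [map_add, map_add, (ha D hD).1, (hb D hD).1, (ha D hD).2, (hb D hD).2, add_zero]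
    exact ⟨rfl, rfl⟩
  zero_mem' := by
    intro D _
    rw [map_zero, map_zero]
    exact ⟨rfl, rfl⟩
  smul_mem' := by
    intro c a ha D hD
    rw [map_smul, map_smul, (ha D hD).1, (ha D hD).2, smul_zero]
    exact ⟨rfl, rfl⟩

/-- the dimension of the quotient -/
def Rk (F : IntermediateField ℚ ℂ) (L : PeriodPair) (v l : Fin r → ℂ) : ℕ :=
  finrank (Kc F) ((Fin r → Kc F) ⧸ N0 F L v l)

theorem Rk_le (v l : Fin r → ℂ) : Rk F L v l ≤ r := by
  have h := (N0 F L v l).finrank_quotient_le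
  rw [finrank_fin_fun] at h
  exact h

/-- coordinates on the quotient -/
def eqv (F : IntermediateField ℚ ℂ) (L : PeriodPair) (v l : Fin r → ℂ) :
    ((Fin r → Kc F) ⧸ N0 F L v l) ≃ₗ[Kc F] (Fin (Rk F L v l) → Kc F) :=
  (finBasis (Kc F) ((Fin r → Kc F) ⧸ N0 F L v l)).equivFun

/-- the map to the coordinates on the quotient -/
def φ (F : IntermediateField ℚ ℂ) (L : PeriodPair) (v l : Fin r → ℂ) :
    (Fin r → Kc F) →ₗ[Kc F] (Fin (Rk F L v l) → Kc F) :=
  (eqv F L v l).toLinearMap ∘ₗ (N0 F L v l).mkQ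

theorem φ_surj (v l : Fin r → ℂ) (w : Fin (Rk F L v l) → Kc F) : ∃ z, φ F L v l z = w := by
  obtain ⟨z, hz⟩ := (N0 F L v l).mkQ_surjective ((eqv F L v l).symm w)
  refine ⟨z, ?_⟩
  change (eqv F L v l) ((N0 F L v l).mkQ z) = w
  rw [hz, LinearEquiv.apply_symm_apply]

/-- descended forms -/
def dn {v l : Fin r → ℂ} (f : (Fin r → Kc F) →ₗ[Kc F] ℂ) (hf : ∀ z ∈ N0 F L v l, f z = 0) :
    (Fin (Rk F L v l) → Kc F) →ₗ[Kc F] ℂ :=
  ((N0 F L v l).liftQ f (fun z hz => hf z hz)) ∘ₗ (eqv F L v l).symm.toLinearMap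

theorem dn_φ {v l : Fin r → ℂ} (f : (Fin r → Kc F) →ₗ[Kc F] ℂ) (hf : ∀ z ∈ N0 F L v l, f z = 0)
    (z : Fin r → Kc F) : dn f hf (φ F L v l z) = f z := by
  change ((N0 F L v l).liftQ f (fun z hz => hf z hz))
    ((eqv F L v l).symm ((eqv F L v l) ((N0 F L v l).mkQ z))) = f z
  rw [LinearEquiv.symm_apply_apply]
  rfl

theorem φ_eq_zero {v l : Fin r → ℂ} {z : Fin r → Kc F} : φ F L v l z = 0 ↔ z ∈ N0 F L v l := by
  change (eqv F L v l) ((N0 F L v l).mkQ z) = 0 ↔ _
  rw [LinearEquiv.map_eq_zero_iff, Submodule.mkQ_apply, Submodule.Quotient.mk_eq_zero]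

variable (F L) in
/-- the system of a space -/
def sys (h2 : L.g₂ ∈ F) (h3 : L.g₃ ∈ F) (v l : Fin r → ℂ) : Sys (Kc F) (Rk F L v l) where
  E D := dn (lf F (wE L v l D)) (fun z hz => (hz D (DF_Kc.1 D.2)).1)
  O D := dn (lf F (wO L v D)) (fun z hz => (hz D (DF_Kc.1 D.2)).2)
  E' D := dn (lf F (fun i => (D : Derivation ℚ ℂ ℂ) (wE L v l D i))) (fun z hz => by
    rw [← der_lf (DF_Kc.1 D.2), (hz D (DF_Kc.1 D.2)).1, map_zero])
  O' D := dn (lf F (fun i => (D : Derivation ℚ ℂ ℂ) (wO L v D i))) (fun z hz => by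
    rw [← der_lf (DF_Kc.1 D.2), (hz D (DF_Kc.1 D.2)).2, map_zero])
  dE D w := by
    obtain ⟨z, rfl⟩ := φ_surj v l w
    rw [dn_φ, dn_φ, der_lf (DF_Kc.1 D.2)]
  dO D w := by
    obtain ⟨z, rfl⟩ := φ_surj v l w
    rw [dn_φ, dn_φ, der_lf (DF_Kc.1 D.2)]
  addE D D' w := by
    obtain ⟨z, rfl⟩ := φ_surj v l w
    rw [dn_φ, dn_φ, dn_φ, ← lf_add]
    congr 2
    funext i
    unfold wE
    rw [Submodule.coe_add, et_add_der, Derivation.add_apply]
    ring
  addO D D' w := by
    obtain ⟨z, rfl⟩ := φ_surj v l w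
    rw [dn_φ, dn_φ, dn_φ, ← lf_add]
    congr 2
    funext i
    unfold wO
    rw [Submodule.coe_add, om_add_der]
  sep w hw := by
    obtain ⟨z, rfl⟩ := φ_surj v l w
    rw [φ_eq_zero]
    intro D hD
    have h := hw ⟨D, DF_Kc.2 hD⟩
    rw [dn_φ, dn_φ] at h
    exact h
  ros w f h := by
    obtain ⟨z, rfl⟩ := φ_surj v l w
    obtain ⟨d, β, α, hβ, hα, hzj, hN⟩ := expand (L := L) (K := Kc F) (fun c hc => kL_le hc)
      (fun j => (z j : ℂ)) (fun j => (z j).2)
    have k1 := first h2 h3 v (fun j => (z j).2) hα hzj hN f (fun D hD => by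
      have := h ⟨D, DF_Kc.2 hD⟩
      rw [dn_φ] at this
      exact this.symm)
    intro D
    rw [dn_φ, lf_apply]
    have hD := DF_Kc.1 D.2
    simp_rw [hzj, sum_mul]
    rw [sum_comm]
    refine sum_eq_zero (fun s _ => ?_)
    have h5 := k1 s D hD
    have h6 : ∑ j, α s j * β s * wO L v D j = β s * ∑ j, α s j * om L D (v j) := by
      rw [mul_sum]
      exact sum_congr rfl (fun j _ => by unfold wO; ring)
    rw [h6, h5, mul_zero]
  closed x h := fun D hD => h ⟨D, DF_Kc.2 hD⟩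

end system

section main

variable {F : IntermediateField ℚ ℂ} {L : PeriodPair} {r : ℕ}

/-- rational vectors as vectors over the field -/
def cst (F : IntermediateField ℚ ℂ) {r : ℕ} (c : Fin r → ℚ) : Fin r → Kc F :=
  fun i => ((c i : ℚ) : Kc F)

theorem lf_cst (w : Fin r → ℂ) (c : Fin r → ℚ) : lf F w (cst F c) = lc w c := by
  rw [lf_apply, lc_apply]
  refine sum_congr rfl (fun i _ => ?_)
  rw [Rat.smul_def]
  rfl

/-- the facts about a point at which `ζ` plus the additive function is algebraic -/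
theorem good (h2 : L.g₂ ∈ F) (h3 : L.g₃ ∈ F) (v l : Fin r → ℂ) {c : Fin r → ℚ}
    (hl : lc v c ∉ L.lattice) (hna : ¬ IsAlgebraic F (℘[L] (lc v c)))
    (ha : IsAlgebraic F (zt L (lc v c) + lc l c)) :
    Good (sys F L h2 h3 v l) L.g₂ L.g₃ (φ F L v l (cst F c)) (℘[L] (lc v c)) (℘'[L] (lc v c)) := by
  set y := lc v c with hy
  have hcurve := L.derivWeierstrassP_sq y hl
  have hex : ∃ D ∈ DF F, D (℘[L] y) ≠ 0 := by
    by_contra hcon
    push Not at hcon
    exact hna (alg_of_killed hcon)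
  have hY : ℘'[L] y ≠ 0 := by
    intro h0
    obtain ⟨X, Y, hc, hY, ⟨D, hD, hne⟩, hp⟩ := point h2 h3 v l hl hna ha
    have hXe : X = ℘[L] y := by
      have h4 := (hp D hD).1
      have ho : oD L v D c ≠ 0 := by
        intro h
        rw [(hp D hD).2, h, mul_zero] at hne
        exact hne rfl
      rw [eD_eq v l (hD _ h2) (hD _ h3), ← hy] at h4
      have h5 : D (zt L y + lc l c) = 0 := killed_of_alg ha D hD
      rw [map_add] at h5
      unfold et at h4
      rw [oD_eq v (hD _ h2) (hD _ h3), ← hy] at h4 ho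
      have h6 : (X - ℘[L] y) * om L D y = 0 := by linear_combination h5 - h4
      exact sub_eq_zero.1 ((mul_eq_zero.1 h6).resolve_right ho)
    rw [h0, ← hXe] at hcurve
    apply hY
    have h7 : Y ^ 2 = 0 := by
      rw [hc, ← hcurve]
      norm_num
    exact pow_eq_zero_iff (two_ne_zero) |>.1 h7
  obtain ⟨D₁, hD₁, hne₁⟩ := hex
  have key : ∀ D ∈ DF F, eD L v l D c = ℘[L] y * oD L v D c ∧ D (℘[L] y) =
      ℘'[L] y * oD L v D c := by
    intro D hD
    have e2 : D L.g₂ = 0 := hD _ h2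
    have e3 : D L.g₃ = 0 := hD _ h3
    rw [oD_eq v e2 e3, eD_eq v l e2 e3, ← hy]
    constructor
    · have h4 : D (zt L y + lc l c) = 0 := killed_of_alg ha D hD
      rw [map_add] at h4
      unfold et
      linear_combination h4
    · unfold om
      rw [mul_div_cancel₀ _ hY]
  have eE : ∀ D : DF (Kc F), (sys F L h2 h3 v l).E D (φ F L v l (cst F c)) = eD L v l D c := by
    intro D
    change dn (lf F (wE L v l D)) _ (φ F L v l (cst F c)) = _
    rw [dn_φ, lf_cst]
    rfl
  have eO : ∀ D : DF (Kc F), (sys F L h2 h3 v l).O D (φ F L v l (cst F c)) = oD L v D c := by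
    intro D
    change dn (lf F (wO L v D)) _ (φ F L v l (cst F c)) = _
    rw [dn_φ, lf_cst]
    rfl
  exact ⟨hcurve, hY, ⟨⟨D₁, DF_Kc.2 hD₁⟩, hne₁⟩, fun D => by rw [eE, eO, (key D (DF_Kc.1 D.2)).1],
    fun D => by rw [eO]; exact (key D (DF_Kc.1 D.2)).2⟩

theorem choose_mono' {a b : ℕ} (h : a ≤ b) : (6 * a).choose a ≤ (6 * b).choose b := by
  have e : ∀ n m : ℕ, (n + m).choose n = (n + m).choose m := fun n m => Nat.choose_symm_add
  have h1 : 6 * a = a + 5 * a := by ring
  have h2 : 6 * b = b + 5 * b := by ring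
  rw [h1, h2]
  calc (a + 5 * a).choose a = (a + 5 * a).choose (5 * a) := e _ _
    _ ≤ (b + 5 * a).choose (5 * a) := Nat.choose_le_choose _ (by omega)
    _ = (b + 5 * a).choose b := (e _ _).symm
    _ ≤ (b + 5 * b).choose b := Nat.choose_le_choose _ (by omega)

/-- **The finiteness theorem**, for vectors, general spaces. -/
theorem main (h2 : L.g₂ ∈ F) (h3 : L.g₃ ∈ F) (v l : Fin r → ℂ) (H : Submodule ℚ (Fin r → ℚ))
    (hH : ∀ a : Fin r → ℚ, (∀ D ∈ DF F, om L D (lc v a) = 0) → a ∈ H)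
    (S : Finset (Fin r → ℚ)) (hS : ∀ c ∈ S, lc v c ∉ L.lattice ∧
      ¬ IsAlgebraic F (℘[L] (lc v c)) ∧ IsAlgebraic F (zt L (lc v c) + lc l c))
    (hinc : ∀ c ∈ S, ∀ c' ∈ S, lc v c - lc v c' ∈ L.lattice → c = c') :
    S.card ≤ ∑ i ∈ range (finrank ℚ H + 1), (6 * ((i + 1) * r)).choose ((i + 1) * r) := by
  classical
  have hg := fun c (hc : c ∈ S) => good h2 h3 v l (hS c hc).1 (hS c hc).2.1 (hS c hc).2.2
  have hinj : (S.image (fun c => φ F L v l (cst F c))).card = S.card := by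
    apply card_image_of_injOn
    intro c hc c' hc' he
    have g1 := hg c hc
    have g2 := hg c' hc'
    have he' : φ F L v l (cst F c) = φ F L v l (cst F c') := he
    rw [← he'] at g2
    obtain ⟨D, hD⟩ := g1.tr'
    have hX : ℘[L] (lc v c) = ℘[L] (lc v c') := by
      have h4 := g1.fE D
      rw [g2.fE D] at h4
      exact (mul_right_cancel₀ hD h4).symm
    have hY : ℘'[L] (lc v c) = ℘'[L] (lc v c') := by
      have h4 := g1.fX D
      rw [hX, g2.fX D] at h4
      exact (mul_right_cancel₀ hD h4).symm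
    apply hinc c hc c' hc'
    rcases (wp_eq_iff L (hS c hc).1 (hS c' hc').1).1 hX with h4 | h4
    · exfalso
      have h5 : ℘'[L] (lc v c) = - ℘'[L] (lc v c') := by
        have e : lc v c = - lc v c' + (lc v c + lc v c') := by ring
        rw [e, ← L.derivWeierstrassP_neg]
        exact L.derivWeierstrassP_add_coe (- lc v c') ⟨_, h4⟩
      apply g1.hY
      rw [hY] at h5 ⊢
      have h6 : 2 * ℘'[L] (lc v c') = 0 := by linear_combination h5
      exact (mul_eq_zero.1 h6).resolve_left two_ne_zero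
    · exact h4
  rw [← hinj]
  have key := card_good (s := sys F L h2 h3 v l) (g2 := L.g₂) (g3 := L.g₃) (F_le_Kc h2)
    (F_le_Kc h3) (S.image (fun c => φ F L v l (cst F c))) (by
    intro w hw
    obtain ⟨c, hc, rfl⟩ := mem_image.1 hw
    exact ⟨_, _, hg c hc⟩) (finrank ℚ H + 1) (by
    intro ρ hρ1 hρ2 hli
    choose z hz using fun j => φ_surj v l (ρ j)
    have hzU : ∀ j, z j ∈ up F H := by
      intro j
      apply null_up h2 h3 v l hH
      · intro D hD
        have h4 := hρ1 j ⟨D, DF_Kc.2 hD⟩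
        rw [← hz j] at h4
        change dn (lf F (wO L v D)) _ (φ F L v l (z j)) = 0 at h4
        rw [dn_φ] at h4
        exact h4
      · obtain ⟨c, hc⟩ := hρ2 j
        refine ⟨c, fun D hD => ?_⟩
        have h4 := hc ⟨D, DF_Kc.2 hD⟩
        rw [← hz j] at h4
        change dn (lf F (wE L v l D)) _ (φ F L v l (z j)) = D c at h4
        rw [dn_φ] at h4
        exact h4
    have hli' : LinearIndependent (Kc F) z := by
      apply LinearIndependent.of_comp (φ F L v l)
      have : (φ F L v l) ∘ z = ρ := funext hz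
      rw [this]
      exact hli
    have hli'' : LinearIndependent (Kc F) (fun j => (⟨z j, hzU j⟩ : up F H)) :=
      LinearIndependent.of_comp (up F H).subtype hli'
    have h4 := hli''.fintype_card_le_finrank
    rw [Fintype.card_fin] at h4
    have h5 := finrank_up (F := F) H
    omega)
  refine key.trans (sum_le_sum (fun i _ => ?_))
  exact choose_mono' (Nat.mul_le_mul_left _ (Rk_le v l))

end main

end Pool.Agent.TH813.ZtGen
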