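import Mathlib
import Pool.Agent.Helper923.HMertens

/-!
# Integers with at most two large prime factors
-/

set_option autoImplicit false

namespace Pool.Agent.TH813.Rough

open Finset

theorem sum_inv : ∃ C : ℝ, 0 ≤ C ∧ ∀ x : ℕ, 2 ≤ x →
    ∑ p ∈ (Icc 1 x).filter Nat.Prime, 1 / (p : ℝ) ≤ Real.log (Real.log x) + C := by
  obtain ⟨C, hC0, hC⟩ := Pool.Agent.Helper923.HMertens.mertens_ratio
  have hl2 : 0 < Real.log 2 := Real.log_pos (by norm_num)
  refine ⟨C / Real.log 2 + |Real.log (Real.log 2)| + 1 / 2, by positivity, fun x hx => ?_⟩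
  have h1 := (abs_le.1 (hC 2 x le_rfl hx)).2
  have h2 : (Icc 1 x).filter Nat.Prime = insert 2 ((Ioc 2 x).filter Nat.Prime) := by
    ext p
    simp only [mem_filter, mem_Icc, mem_insert, mem_Ioc]
    constructor
    · rintro ⟨⟨h3, h4⟩, h5⟩
      rcases Nat.lt_or_ge 2 p with h | h
      · exact Or.inr ⟨⟨h, h4⟩, h5⟩
      · exact Or.inl (le_antisymm h h5.two_le)
    · rintro (rfl | ⟨⟨h3, h4⟩, h5⟩)
      · exact ⟨⟨by norm_num, hx⟩, Nat.prime_two⟩
      · exact ⟨⟨by omega, h4⟩, h5⟩
  have h3 : (2 : ℕ) ∉ (Ioc 2 x).filter Nat.Prime := by simp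
  rw [h2, sum_insert h3]
  have hlx : 0 < Real.log x := Real.log_pos (by exact_mod_cast (by omega : 1 < x))
  rw [Nat.cast_ofNat, Real.log_div hlx.ne' hl2.ne'] at h1
  have h4 := neg_abs_le (Real.log (Real.log 2))
  push_cast
  linarith

theorem sum_tele (x : ℕ) (hx : 1 ≤ x) :
    ∑ n ∈ Icc 2 x, (1 / ((n : ℝ) - 1) - 1 / n) = 1 - 1 / x := by
  induction x, hx using Nat.le_induction with
  | base => simp
  | succ n hn ih =>
    rw [sum_Icc_succ_top (by omega), ih]
    push_cast
    ring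

theorem sum_inv' : ∃ C : ℝ, 0 ≤ C ∧ ∀ x : ℕ, 2 ≤ x →
    ∑ p ∈ (Icc 1 x).filter Nat.Prime, 1 / ((p : ℝ) - 1) ≤ Real.log (Real.log x) + C := by
  obtain ⟨C, hC0, hC⟩ := sum_inv
  refine ⟨C + 1, by linarith, fun x hx => ?_⟩
  have h1 : ∑ p ∈ (Icc 1 x).filter Nat.Prime, (1 / ((p : ℝ) - 1) - 1 / p) ≤ 1 := by
    calc ∑ p ∈ (Icc 1 x).filter Nat.Prime, (1 / ((p : ℝ) - 1) - 1 / p)
        ≤ ∑ n ∈ Icc 2 x, (1 / ((n : ℝ) - 1) - 1 / n) := by
          refine sum_le_sum_of_subset_of_nonneg ?_ ?_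
          · intro p hp
            rw [mem_filter, mem_Icc] at hp
            rw [mem_Icc]
            exact ⟨hp.2.two_le, hp.1.2⟩
          · intro n hn _
            rw [mem_Icc] at hn
            have h2 : (2 : ℝ) ≤ n := by exact_mod_cast hn.1
            rw [sub_nonneg]
            apply one_div_le_one_div_of_le <;> linarith
      _ = 1 - 1 / x := sum_tele x (by omega)
      _ ≤ 1 := by
          have : (0 : ℝ) ≤ 1 / x := by positivity
          linarith
  rw [sum_sub_distrib] at h1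
  have h2 := hC x hx
  linarith

/-- the number of prime factors `≥ z` -/
def om (z n : ℕ) : ℕ := (n.primeFactors.filter (fun p => z ≤ p)).card

theorem om_one (z : ℕ) : om z 1 = 0 := by simp [om]

theorem om_mul (z : ℕ) {m n : ℕ} (h : m.Coprime n) : om z (m * n) = om z m + om z n := by
  unfold om
  rw [h.primeFactors_mul, filter_union, card_union_of_disjoint]
  exact disjoint_filter_filter h.disjoint_primeFactors

theorem om_prime_pow (z : ℕ) {p : ℕ} (hp : p.Prime) (n : ℕ) :
    om z (p ^ (n + 1)) = if z ≤ p then 1 else 0 := by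
  unfold om
  rw [Nat.primeFactors_pow p (Nat.succ_ne_zero n), hp.primeFactors]
  split_ifs with h
  · rw [filter_singleton, if_pos h]; simp
  · rw [filter_singleton, if_neg h]; simp

theorem om_dvd (z : ℕ) {m n : ℕ} (h : m ∣ n) (hn : n ≠ 0) : om z m ≤ om z n := by
  unfold om
  exact card_le_card (filter_subset_filter _ (Nat.primeFactors_mono h hn))

/-- the weight -/
noncomputable def wt (w : ℝ) (z m : ℕ) : ℝ := w ^ om z m

variable {w : ℝ}

theorem wt_nonneg (hw : 0 < w) (z m : ℕ) : 0 ≤ wt w z m := (pow_pos hw _).le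

theorem wt_dvd (hw : 0 < w) (hw1 : w ≤ 1) (z : ℕ) {m n : ℕ} (h : m ∣ n) (hn : n ≠ 0) :
    wt w z n ≤ wt w z m := pow_le_pow_of_le_one hw.le hw1 (om_dvd z h hn)

/-- the local weights -/
noncomputable def gp (w : ℝ) (z p : ℕ) : ℝ := if z ≤ p then w else 1

theorem local_sum (hw : 0 < w) (hw1 : w ≤ 1) (z : ℕ) {p : ℕ} (hp : p.Prime) :
    HasSum (fun n : ℕ => wt w z (p ^ n) / ((p ^ n : ℕ) : ℝ)) (1 + gp w z p * (1 / ((p : ℝ) - 1))) := by
  have hp1 : (1 : ℝ) < p := by exact_mod_cast hp.one_lt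
  have h1 : HasSum (fun n : ℕ => gp w z p * ((p : ℝ)⁻¹) ^ n) (gp w z p * (1 - (p : ℝ)⁻¹)⁻¹) :=
    (hasSum_geometric_of_lt_one (by positivity) (inv_lt_one_of_one_lt₀ hp1)).mul_left _
  have h2 : HasSum (fun n : ℕ => if n = 0 then (1 - gp w z p) else 0) (1 - gp w z p) :=
    hasSum_ite_eq 0 _
  convert h1.add h2 using 1
  · funext n
    rcases n with _ | n
    · simp [wt, om_one]
    · simp only [wt, om_prime_pow z hp, gp, Nat.succ_ne_zero, if_false, add_zero]
      split_ifs
      · rw [pow_one, inv_pow, Nat.cast_pow, div_eq_mul_inv]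
      · rw [pow_zero, inv_pow, Nat.cast_pow, div_eq_mul_inv]
  · have : (p : ℝ) - 1 ≠ 0 := by linarith
    field_simp
    ring

theorem gp_nonneg (hw : 0 < w) (z p : ℕ) : 0 ≤ gp w z p := by
  unfold gp; split_ifs <;> linarith

theorem euler_le (hw : 0 < w) (hw1 : w ≤ 1) (z x : ℕ) :
    ∑ m ∈ Icc 1 x, wt w z m / (m : ℝ) ≤
      ∏ p ∈ (x + 1).primesBelow, (1 + gp w z p * (1 / ((p : ℝ) - 1))) := by
  have key := EulerProduct.summable_and_hasSum_smoothNumbers_prod_primesBelow_tsum
    (f := fun m : ℕ => wt w z m / (m : ℝ)) (by simp [wt, om_one]) (by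
      intro m n hmn
      simp only [wt, om_mul z hmn, pow_add, Nat.cast_mul]
      rw [mul_div_mul_comm]) (by
      intro p hp
      have := (local_sum hw hw1 z hp).summable
      refine this.congr (fun n => ?_)
      rw [Real.norm_of_nonneg]
      exact div_nonneg (wt_nonneg hw _ _) (Nat.cast_nonneg _)) (x + 1)
  have h2 := key.2
  have h3 : ∏ p ∈ (x + 1).primesBelow, ∑' n : ℕ, (wt w z (p ^ n) / ((p ^ n : ℕ) : ℝ)) =
      ∏ p ∈ (x + 1).primesBelow, (1 + gp w z p * (1 / ((p : ℝ) - 1))) := by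
    refine prod_congr rfl (fun p hp => ?_)
    exact (local_sum hw hw1 z (Nat.prime_of_mem_primesBelow hp)).tsum_eq
  rw [h3] at h2
  have hmem : ∀ m ∈ Icc 1 x, m ∈ (x + 1).smoothNumbers := by
    intro m hm
    rw [mem_Icc] at hm
    rw [Nat.mem_smoothNumbers']
    intro p _ hpm
    exact Nat.lt_succ_of_le ((Nat.le_of_dvd (by omega) hpm).trans hm.2)
  let e : (Icc 1 x : Finset ℕ) ↪ (x + 1).smoothNumbers :=
    ⟨fun m => ⟨m.1, hmem m.1 m.2⟩, fun a b hab => by
      apply Subtype.ext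
      exact congrArg (fun t : (x + 1).smoothNumbers => (t : ℕ)) hab⟩
  have h4 := sum_le_hasSum ((Icc 1 x).attach.map e) (fun m _ =>
    div_nonneg (wt_nonneg hw z (m : ℕ)) (Nat.cast_nonneg (m : ℕ))) h2
  rw [sum_map] at h4
  calc ∑ m ∈ Icc 1 x, wt w z m / (m : ℝ)
      = ∑ m ∈ (Icc 1 x).attach, wt w z (m : ℕ) / ((m : ℕ) : ℝ) :=
        (sum_attach _ (fun m : ℕ => wt w z m / (m : ℝ))).symm
    _ ≤ _ := h4

theorem primesBelow_eq (x : ℕ) : (x + 1).primesBelow = (Icc 1 x).filter Nat.Prime := by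
  ext p
  rw [Nat.mem_primesBelow, mem_filter, mem_Icc]
  constructor
  · rintro ⟨h1, h2⟩
    exact ⟨⟨h2.one_le, by omega⟩, h2⟩
  · rintro ⟨⟨_, h1⟩, h2⟩
    exact ⟨by omega, h2⟩

theorem wt_sum : ∃ C : ℝ, 0 ≤ C ∧ ∀ (w : ℝ), 0 < w → w ≤ 1 → ∀ z x : ℕ, 2 ≤ z → 2 ≤ x →
    ∑ m ∈ Icc 1 x, wt w z m / (m : ℝ) ≤
      Real.exp (Real.log (Real.log z) + C + w * (Real.log (Real.log x) + C)) := by
  obtain ⟨C, hC0, hC⟩ := sum_inv'
  refine ⟨C, hC0, fun w hw hw1 z x hz hx => (euler_le hw hw1 z x).trans ?_⟩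
  rw [primesBelow_eq]
  have hp1 : ∀ p ∈ (Icc 1 x).filter Nat.Prime, (0 : ℝ) ≤ 1 / ((p : ℝ) - 1) := by
    intro p hp
    rw [mem_filter] at hp
    have : (1 : ℝ) < p := by exact_mod_cast hp.2.one_lt
    apply one_div_nonneg.2
    linarith
  calc ∏ p ∈ (Icc 1 x).filter Nat.Prime, (1 + gp w z p * (1 / ((p : ℝ) - 1)))
      ≤ ∏ p ∈ (Icc 1 x).filter Nat.Prime, Real.exp (gp w z p * (1 / ((p : ℝ) - 1))) := by
        refine prod_le_prod (fun p hp => ?_) (fun p hp => ?_)
        · have := mul_nonneg (gp_nonneg hw z p) (hp1 p hp)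
          linarith
        · rw [add_comm]
          exact Real.add_one_le_exp _
    _ = Real.exp (∑ p ∈ (Icc 1 x).filter Nat.Prime, gp w z p * (1 / ((p : ℝ) - 1))) :=
        (Real.exp_sum _ _).symm
    _ ≤ _ := by
        apply Real.exp_le_exp.2
        have h1 : ∀ p ∈ (Icc 1 x).filter Nat.Prime, gp w z p * (1 / ((p : ℝ) - 1)) ≤
            (if p ≤ z then 1 / ((p : ℝ) - 1) else 0) + w * (1 / ((p : ℝ) - 1)) := by
          intro p hp
          have h2 := hp1 p hp
          unfold gp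
          split_ifs with h3 h4 h4
          · linarith
          · linarith
          · have : 0 ≤ w * (1 / ((p : ℝ) - 1)) := mul_nonneg hw.le h2
            linarith
          · exact absurd (not_le.1 h3).le h4
        refine (sum_le_sum h1).trans ?_
        rw [sum_add_distrib, ← mul_sum]
        have h5 : ∑ p ∈ (Icc 1 x).filter Nat.Prime, (if p ≤ z then 1 / ((p : ℝ) - 1) else 0) ≤
            ∑ p ∈ (Icc 1 z).filter Nat.Prime, 1 / ((p : ℝ) - 1) := by
          rw [← sum_filter]
          refine sum_le_sum_of_subset_of_nonneg ?_ ?_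
          · intro p hp
            rw [mem_filter, mem_filter, mem_Icc] at hp
            rw [mem_filter, mem_Icc]
            exact ⟨⟨hp.1.1.1, hp.2⟩, hp.1.2⟩
          · intro p hp _
            rw [mem_filter] at hp
            have : (1 : ℝ) < p := by exact_mod_cast hp.2.one_lt
            apply one_div_nonneg.2
            linarith
        have h6 := hC z hz
        have h7 := mul_le_mul_of_nonneg_left (hC x hx) hw.le
        linarith

/-- the inequality of Hall and Tenenbaum -/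
theorem hall (hw : 0 < w) (hw1 : w ≤ 1) (z x : ℕ) :
    ∑ n ∈ Ioc 0 x, wt w z n * Real.log n ≤
      (Real.log 4 + 4) * x * ∑ m ∈ Ioc 0 x, wt w z m / (m : ℝ) := by
  let G : ArithmeticFunction ℝ := ⟨fun m => if m = 0 then 0 else wt w z m, by simp⟩
  have hG : ∀ m, m ≠ 0 → G m = wt w z m := fun m hm => by
    change (if m = 0 then 0 else wt w z m) = _
    rw [if_neg hm]
  have h1 := ArithmeticFunction.sum_Ioc_mul_eq_sum_sum G ArithmeticFunction.vonMangoldt x
  have h2 : ∀ n ∈ Ioc 0 x, wt w z n * Real.log n ≤ (G * ArithmeticFunction.vonMangoldt) n := by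
    intro n hn
    rw [mem_Ioc] at hn
    rw [ArithmeticFunction.mul_apply, ← ArithmeticFunction.vonMangoldt_sum, mul_sum,
      Nat.sum_divisorsAntidiagonal' (fun a b => G a * ArithmeticFunction.vonMangoldt b)]
    refine sum_le_sum (fun d hd => ?_)
    rw [Nat.mem_divisors] at hd
    obtain ⟨⟨m, hm⟩, hn0⟩ := hd
    have hd0 : 0 < d := Nat.pos_of_ne_zero (by rintro rfl; simp at hm; exact hn0 hm)
    have hmn : n / d = m := by rw [hm]; exact Nat.mul_div_cancel_left m hd0
    rw [hmn]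
    have hm0 : m ≠ 0 := by rintro rfl; simp at hm; exact hn0 hm
    rw [hG m hm0]
    exact mul_le_mul_of_nonneg_right (wt_dvd hw hw1 z ⟨d, by rw [hm]; ring⟩ hn0)
      ArithmeticFunction.vonMangoldt_nonneg
  refine (sum_le_sum h2).trans ?_
  rw [h1, mul_sum]
  refine sum_le_sum (fun m hm => ?_)
  rw [mem_Ioc] at hm
  rw [hG m (by omega)]
  have h3 : ∑ k ∈ Ioc 0 (x / m), ArithmeticFunction.vonMangoldt k =
      Chebyshev.psi ((x / m : ℕ) : ℝ) := by
    rw [Chebyshev.psi, Nat.floor_natCast]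
  rw [h3]
  have h4 := Chebyshev.psi_le_const_mul_self (x := ((x / m : ℕ) : ℝ)) (Nat.cast_nonneg _)
  have h5 : ((x / m : ℕ) : ℝ) ≤ (x : ℝ) / m := Nat.cast_div_le
  have hc : 0 ≤ Real.log 4 + 4 := by
    have : 0 ≤ Real.log 4 := Real.log_nonneg (by norm_num)
    linarith
  calc wt w z m * Chebyshev.psi ((x / m : ℕ) : ℝ)
      ≤ wt w z m * ((Real.log 4 + 4) * ((x : ℝ) / m)) := by
        refine mul_le_mul_of_nonneg_left (h4.trans ?_) (wt_nonneg hw z m)
        exact mul_le_mul_of_nonneg_left h5 hc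
    _ = (Real.log 4 + 4) * x * (wt w z m / m) := by ring

/-- few integers have at most two prime factors `≥ z` -/
theorem rough_count : ∃ C : ℝ, 0 ≤ C ∧ ∀ x z : ℕ, 16 ≤ x → 2 ≤ z →
    (((Icc 1 x).filter (fun n => om z n ≤ 2)).card : ℝ) ≤
      C * x * Real.log (Real.log x) ^ 2 * Real.log z / Real.log x := by
  obtain ⟨C, hC0, hC⟩ := wt_sum
  set c1 : ℝ := Real.log 4 + 4 with hc1
  have hc1' : 0 ≤ c1 := by
    have : 0 ≤ Real.log 4 := Real.log_nonneg (by norm_num)
    rw [hc1]; linarith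
  refine ⟨2 / Real.log 2 + 2 * c1 * Real.exp (2 * C + 1), by positivity, fun x z hx hz => ?_⟩
  have hx0 : (0 : ℝ) < x := by exact_mod_cast (by omega : 0 < x)
  have hx16 : (16 : ℝ) ≤ x := by exact_mod_cast hx
  -- the double logarithm
  have hlog16 : Real.exp 1 ≤ Real.log 16 := by
    have h1 : Real.log 16 = 4 * Real.log 2 := by
      rw [show (16 : ℝ) = 2 ^ 4 by norm_num, Real.log_pow]; norm_num
    rw [h1]
    have := Real.log_two_gt_d9
    have := Real.exp_one_lt_d9
    linarith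
  have hlx : Real.exp 1 ≤ Real.log x := hlog16.trans (Real.log_le_log (by norm_num) hx16)
  have hlx0 : 0 < Real.log x := lt_of_lt_of_le (Real.exp_pos 1) hlx
  have hll : 1 ≤ Real.log (Real.log x) := by
    have := Real.log_le_log (Real.exp_pos 1) hlx
    rwa [Real.log_exp] at this
  have hll0 : 0 < Real.log (Real.log x) := by linarith
  have hlz : Real.log 2 ≤ Real.log z := Real.log_le_log (by norm_num) (by exact_mod_cast hz)
  have hl2 : 0 < Real.log 2 := Real.log_pos (by norm_num)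
  have hlz0 : 0 < Real.log z := by linarith
  set w : ℝ := 1 / Real.log (Real.log x) with hw
  have hw0 : 0 < w := by positivity
  have hw1 : w ≤ 1 := by
    rw [hw, div_le_one hll0]; exact hll
  have h1 := hC w hw0 hw1 z x hz (by omega)
  have h2 : Real.exp (Real.log (Real.log z) + C + w * (Real.log (Real.log x) + C)) ≤
      Real.exp (2 * C + 1) * Real.log z := by
    have h3 : Real.log (Real.log z) + C + w * (Real.log (Real.log x) + C) ≤
        (2 * C + 1) + Real.log (Real.log z) := by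
      have h4 : w * (Real.log (Real.log x) + C) = 1 + w * C := by
        rw [hw]; field_simp
      have h5 : w * C ≤ 1 * C := mul_le_mul_of_nonneg_right hw1 hC0
      linarith
    refine (Real.exp_le_exp.2 h3).trans ?_
    rw [Real.exp_add, Real.exp_log hlz0]
  have h3 := hall hw0 hw1 z x
  have hIcc : Icc 1 x = Ioc 0 x := rfl
  rw [hIcc] at h1
  -- the two parts
  set S := (Icc 1 x).filter (fun n => om z n ≤ 2) with hS
  have hsplit : (S.card : ℝ) ≤ ((Icc 1 x).filter (fun n => n * n ≤ x)).card +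
      (S.filter (fun n => x < n * n)).card := by
    have : S ⊆ ((Icc 1 x).filter (fun n => n * n ≤ x)) ∪ (S.filter (fun n => x < n * n)) := by
      intro n hn
      rw [mem_union, mem_filter, mem_filter]
      rcases Nat.lt_or_ge x (n * n) with h | h
      · exact Or.inr ⟨hn, h⟩
      · exact Or.inl ⟨(mem_filter.1 hn).1, h⟩
    exact_mod_cast (card_le_card this).trans (card_union_le _ _)
  have hA : (((Icc 1 x).filter (fun n => n * n ≤ x)).card : ℝ) ≤ Real.sqrt x := by
    have : ((Icc 1 x).filter (fun n => n * n ≤ x)) ⊆ Icc 1 (Nat.sqrt x) := by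
      intro n hn
      rw [mem_filter, mem_Icc] at hn
      rw [mem_Icc]
      exact ⟨hn.1.1, Nat.le_sqrt.2 hn.2⟩
    have h4 := card_le_card this
    rw [Nat.card_Icc, Nat.add_sub_cancel] at h4
    calc (((Icc 1 x).filter (fun n => n * n ≤ x)).card : ℝ) ≤ (Nat.sqrt x : ℝ) := by exact_mod_cast h4
      _ ≤ Real.sqrt x := Real.nat_sqrt_le_real_sqrt
  have hsq : Real.sqrt x ≤ 2 * x / Real.log x := by
    have hs0 : 0 < Real.sqrt x := Real.sqrt_pos.2 hx0
    rw [le_div_iff₀ hlx0]
    have h4 : Real.log x ≤ 2 * Real.sqrt x := by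
      have h5 := Real.log_le_sub_one_of_pos hs0
      rw [Real.log_sqrt hx0.le] at h5
      linarith
    calc Real.sqrt x * Real.log x ≤ Real.sqrt x * (2 * Real.sqrt x) :=
          mul_le_mul_of_nonneg_left h4 hs0.le
      _ = 2 * x := by rw [show Real.sqrt x * (2 * Real.sqrt x) = 2 * (Real.sqrt x * Real.sqrt x) by ring,
          Real.mul_self_sqrt hx0.le]
  have hB : ((S.filter (fun n => x < n * n)).card : ℝ) * (w ^ 2 * (Real.log x / 2)) ≤
      c1 * x * (Real.exp (2 * C + 1) * Real.log z) := by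
    calc ((S.filter (fun n => x < n * n)).card : ℝ) * (w ^ 2 * (Real.log x / 2))
        = ∑ n ∈ S.filter (fun n => x < n * n), w ^ 2 * (Real.log x / 2) := by
          rw [sum_const, nsmul_eq_mul]
      _ ≤ ∑ n ∈ S.filter (fun n => x < n * n), wt w z n * Real.log n := by
          refine sum_le_sum (fun n hn => ?_)
          rw [mem_filter, hS, mem_filter, mem_Icc] at hn
          obtain ⟨⟨⟨h4, h5⟩, h6⟩, h7⟩ := hn
          have h8 : w ^ 2 ≤ wt w z n := pow_le_pow_of_le_one hw0.le hw1 h6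
          have hn0 : (0 : ℝ) < n := by exact_mod_cast h4
          have h9 : Real.log x / 2 ≤ Real.log n := by
            have h10 : Real.log x ≤ Real.log ((n : ℝ) * n) :=
              Real.log_le_log hx0 (by exact_mod_cast h7.le)
            rw [Real.log_mul hn0.ne' hn0.ne'] at h10
            linarith
          exact mul_le_mul h8 h9 (by positivity) (wt_nonneg hw0 z n)
      _ ≤ ∑ n ∈ Ioc 0 x, wt w z n * Real.log n := by
          refine sum_le_sum_of_subset_of_nonneg ?_ ?_
          · intro n hn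
            exact (mem_filter.1 (mem_filter.1 hn).1).1
          · intro n _ _
            exact mul_nonneg (wt_nonneg hw0 z n) (Real.log_natCast_nonneg n)
      _ ≤ c1 * x * ∑ m ∈ Ioc 0 x, wt w z m / (m : ℝ) := h3
      _ ≤ c1 * x * (Real.exp (2 * C + 1) * Real.log z) :=
          mul_le_mul_of_nonneg_left (h1.trans h2) (by positivity)
  have hB' : ((S.filter (fun n => x < n * n)).card : ℝ) ≤
      (2 * c1 * Real.exp (2 * C + 1)) * x * Real.log (Real.log x) ^ 2 * Real.log z / Real.log x := by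
    rw [le_div_iff₀ hlx0]
    have h4 : w ^ 2 * Real.log (Real.log x) ^ 2 = 1 := by rw [hw]; field_simp
    calc ((S.filter (fun n => x < n * n)).card : ℝ) * Real.log x
        = ((S.filter (fun n => x < n * n)).card : ℝ) * Real.log x *
          (w ^ 2 * Real.log (Real.log x) ^ 2) := by rw [h4, mul_one]
      _ = 2 * Real.log (Real.log x) ^ 2 *
          (((S.filter (fun n => x < n * n)).card : ℝ) * (w ^ 2 * (Real.log x / 2))) := by ring
      _ ≤ 2 * Real.log (Real.log x) ^ 2 * (c1 * x * (Real.exp (2 * C + 1) * Real.log z)) :=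
          mul_le_mul_of_nonneg_left hB (by positivity)
      _ = _ := by ring
  have hA' : Real.sqrt x ≤ (2 / Real.log 2) * x * Real.log (Real.log x) ^ 2 * Real.log z /
      Real.log x := by
    refine hsq.trans ?_
    rw [div_le_div_iff_of_pos_right hlx0]
    have h4 : 1 ≤ Real.log (Real.log x) ^ 2 := one_le_pow₀ hll
    have h5 : 1 ≤ Real.log z / Real.log 2 := by rw [le_div_iff₀ hl2]; linarith
    calc 2 * (x : ℝ) = 2 * x * (1 * 1) := by ring
      _ ≤ 2 * x * (Real.log (Real.log x) ^ 2 * (Real.log z / Real.log 2)) := by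
          refine mul_le_mul_of_nonneg_left ?_ (by positivity)
          exact mul_le_mul h4 h5 zero_le_one (by positivity)
      _ = _ := by ring
  calc (S.card : ℝ) ≤ _ := hsplit
    _ ≤ (2 / Real.log 2) * x * Real.log (Real.log x) ^ 2 * Real.log z / Real.log x +
        (2 * c1 * Real.exp (2 * C + 1)) * x * Real.log (Real.log x) ^ 2 * Real.log z /
          Real.log x := add_le_add (hA.trans hA') hB'
    _ = _ := by ring

end Pool.Agent.TH813.Rough
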