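import Mathlib

/-!
# Dense tripartite systems contain complete tripartite systems
-/

set_option autoImplicit false

namespace Pool.Agent.TH813.Tri

open Finset

open Classical in
/-- four points with many common neighbours -/
theorem link4 {V W : Type*} (SV : Finset V) (SW : Finset W) (A : V → W → Prop) (δ : ℝ)
    (hδ : 0 < δ) (hδ1 : δ ≤ 1)
    (h1 : δ * SV.card * SW.card ≤ (((SV ×ˢ SW).filter (fun e => A e.1 e.2)).card : ℝ))
    (h2 : 6 ≤ δ * SV.card) :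
    ∃ S ∈ SV.powersetCard 4,
      (δ / 2) ^ 4 * SW.card ≤ ((SW.filter (fun w => ∀ v ∈ S, A v w)).card : ℝ) := by
  have hV : (6 : ℝ) ≤ SV.card := by
    have : δ * SV.card ≤ 1 * SV.card := by
      exact mul_le_mul_of_nonneg_right hδ1 (Nat.cast_nonneg _)
    linarith
  have hV' : 6 ≤ SV.card := by exact_mod_cast hV
  have hne : (SV.powersetCard 4).Nonempty := by
    rw [powersetCard_nonempty]; omega
  apply exists_le_of_sum_le hne
  -- the degrees
  set d : W → ℕ := fun w => (SV.filter (fun v => A v w)).card with hd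
  have e1 : ((((SV ×ˢ SW).filter (fun e => A e.1 e.2)).card : ℕ) : ℝ) = ∑ w ∈ SW, (d w : ℝ) := by
    rw [← Nat.cast_sum]
    congr 1
    rw [card_filter, sum_product_right]
    refine sum_congr rfl (fun w _ => ?_)
    rw [hd]
    simp only
    rw [card_filter]
  have e2 : ∑ S ∈ SV.powersetCard 4, ((SW.filter (fun w => ∀ v ∈ S, A v w)).card : ℝ) =
      ∑ w ∈ SW, ((d w).choose 4 : ℝ) := by
    rw [← Nat.cast_sum, ← Nat.cast_sum]
    congr 1
    have := sum_card_bipartiteAbove_eq_sum_card_bipartiteBelow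
      (fun (S : Finset V) (w : W) => ∀ v ∈ S, A v w) (s := SV.powersetCard 4) (t := SW)
    unfold bipartiteAbove bipartiteBelow at this
    rw [this]
    refine sum_congr rfl (fun w _ => ?_)
    rw [hd]
    simp only
    rw [← card_powersetCard]
    congr 1
    ext S
    simp only [mem_filter, mem_powersetCard]
    constructor
    · rintro ⟨⟨h3, h4⟩, h5⟩
      exact ⟨fun v hv => mem_filter.2 ⟨h3 hv, h5 v hv⟩, h4⟩
    · rintro ⟨h3, h4⟩
      exact ⟨⟨fun v hv => (mem_filter.1 (h3 hv)).1, h4⟩, fun v hv => (mem_filter.1 (h3 hv)).2⟩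
  rw [e2, sum_const, card_powersetCard, nsmul_eq_mul]
  -- upper bound of the left side
  have u1 : (SV.card.choose 4 : ℝ) ≤ (SV.card : ℝ) ^ 4 / 24 := by
    have := Nat.choose_le_pow_div (α := ℝ) 4 SV.card
    simpa [Nat.factorial] using this
  -- lower bound of the right side
  have l1 : ∀ w, (((d w - 3 : ℕ) : ℝ)) ^ 4 / 24 ≤ ((d w).choose 4 : ℝ) := by
    intro w
    have := Nat.pow_le_choose (α := ℝ) 4 (d w)
    have h3 : d w + 1 - 4 = d w - 3 := by omega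
    rw [h3] at this
    simpa [Nat.factorial] using this
  rcases Nat.eq_zero_or_pos SW.card with h0 | hpos
  · have : SW = ∅ := card_eq_zero.1 h0
    subst this
    simp
  have hW : (0 : ℝ) < SW.card := by exact_mod_cast hpos
  have l2 : (∑ w ∈ SW, ((d w - 3 : ℕ) : ℝ)) ^ 4 / (SW.card : ℝ) ^ 3 ≤
      ∑ w ∈ SW, ((d w - 3 : ℕ) : ℝ) ^ 4 :=
    pow_sum_div_card_le_sum_pow (fun _ _ => Nat.cast_nonneg _) 3
  have l3 : δ / 2 * SV.card * SW.card ≤ ∑ w ∈ SW, ((d w - 3 : ℕ) : ℝ) := by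
    have h3 : ∀ w ∈ SW, (d w : ℝ) - 3 ≤ ((d w - 3 : ℕ) : ℝ) := by
      intro w _
      have : (d w : ℝ) ≤ ((d w - 3 : ℕ) : ℝ) + 3 := by
        exact_mod_cast (by omega : d w ≤ d w - 3 + 3)
      linarith
    have h4 := sum_le_sum h3
    rw [sum_sub_distrib, ← e1, sum_const, nsmul_eq_mul] at h4
    have h5 : (SW.card : ℝ) * 3 ≤ δ / 2 * SV.card * SW.card := by
      have : (3 : ℝ) ≤ δ / 2 * SV.card := by linarith
      calc (SW.card : ℝ) * 3 = 3 * SW.card := by ring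
        _ ≤ δ / 2 * SV.card * SW.card := mul_le_mul_of_nonneg_right this hW.le
    linarith
  have l4 : (δ / 2 * SV.card * SW.card) ^ 4 / (SW.card : ℝ) ^ 3 ≤
      (∑ w ∈ SW, ((d w - 3 : ℕ) : ℝ)) ^ 4 / (SW.card : ℝ) ^ 3 := by
    gcongr
  have l5 : (δ / 2 * SV.card * SW.card) ^ 4 / (SW.card : ℝ) ^ 3 =
      (δ / 2) ^ 4 * (SV.card : ℝ) ^ 4 * SW.card := by
    field_simp
  calc (SV.card.choose 4 : ℝ) * ((δ / 2) ^ 4 * SW.card)
      ≤ (SV.card : ℝ) ^ 4 / 24 * ((δ / 2) ^ 4 * SW.card) := by gcongr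
    _ = ((δ / 2) ^ 4 * (SV.card : ℝ) ^ 4 * SW.card) / 24 := by ring
    _ ≤ (∑ w ∈ SW, ((d w - 3 : ℕ) : ℝ) ^ 4) / 24 := by
        rw [← l5]; gcongr; exact l4.trans l2
    _ = ∑ w ∈ SW, ((d w - 3 : ℕ) : ℝ) ^ 4 / 24 := by rw [sum_div]
    _ ≤ ∑ w ∈ SW, ((d w).choose 4 : ℝ) := sum_le_sum (fun w _ => l1 w)

theorem enum4 {V : Type*} {S : Finset V} (h : S.card = 4) :
    ∃ e : Fin 4 → V, Function.Injective e ∧ ∀ i, e i ∈ S := by
  refine ⟨fun i => ((S.equivFinOfCardEq h).symm i : V), ?_, fun i => Subtype.coe_prop _⟩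
  intro i j hij
  exact (S.equivFinOfCardEq h).symm.injective (Subtype.ext hij)

open Classical in
/-- dense tripartite systems contain `K(4,4,4)` -/
theorem tri {V1 V2 V3 : Type*} (S1 : Finset V1) (S2 : Finset V2) (S3 : Finset V3)
    (A : V1 → V2 → V3 → Prop) (δ : ℝ) (hδ : 0 < δ) (hδ1 : δ ≤ 1)
    (h : δ * S1.card * S2.card * S3.card ≤
      (((S1 ×ˢ (S2 ×ˢ S3)).filter (fun e => A e.1 e.2.1 e.2.2)).card : ℝ))
    (h1 : 6 ≤ δ * S1.card) (h2 : 6 * 16 ≤ δ ^ 4 * S2.card)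
    (h3 : 4 * 2 ^ 20 ≤ δ ^ 16 * S3.card) :
    ∃ (p : Fin 4 → V1) (q : Fin 4 → V2) (r : Fin 4 → V3), Function.Injective p ∧
      Function.Injective q ∧ Function.Injective r ∧ (∀ i, p i ∈ S1) ∧ (∀ i, q i ∈ S2) ∧
      (∀ i, r i ∈ S3) ∧ ∀ i j k, A (p i) (q j) (r k) := by
  obtain ⟨T1, hT1, k1⟩ := link4 S1 (S2 ×ˢ S3) (fun v w => A v w.1 w.2) δ hδ hδ1 (by
    rw [card_product]
    push_cast
    linarith) h1
  rw [mem_powersetCard] at hT1
  have hδ4 : (δ / 2) ^ 4 ≤ 1 := by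
    apply pow_le_one₀ (by linarith) (by linarith)
  obtain ⟨T2, hT2, k2⟩ := link4 S2 S3 (fun v w => ∀ u ∈ T1, A u v w) ((δ / 2) ^ 4) (by positivity)
    hδ4 (by
      rw [card_product] at k1
      push_cast at k1
      rw [mul_assoc]
      convert k1) (by
      have : (δ / 2) ^ 4 * (S2.card : ℝ) = δ ^ 4 * S2.card / 16 := by ring
      rw [this]
      linarith)
  rw [mem_powersetCard] at hT2
  have k3 : (4 : ℝ) ≤ ((S3.filter (fun w => ∀ v ∈ T2, ∀ u ∈ T1, A u v w)).card : ℝ) := by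
    have k5 : (4 : ℝ) ≤ ((δ / 2) ^ 4 / 2) ^ 4 * (S3.card : ℝ) := by
      have : ((δ / 2) ^ 4 / 2) ^ 4 * (S3.card : ℝ) = δ ^ 16 * S3.card / 2 ^ 20 := by ring
      rw [this, le_div_iff₀ (by positivity)]
      linarith
    have k6 : ((δ / 2) ^ 4 / 2) ^ 4 * (S3.card : ℝ) ≤
        ((S3.filter (fun w => ∀ v ∈ T2, ∀ u ∈ T1, A u v w)).card : ℝ) := by
      convert k2
    exact k5.trans k6
  have k4 : 4 ≤ (S3.filter (fun w => ∀ v ∈ T2, ∀ u ∈ T1, A u v w)).card := by exact_mod_cast k3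
  obtain ⟨T3, hT3, hT3'⟩ := exists_subset_card_eq k4
  obtain ⟨p, hp, hp'⟩ := enum4 hT1.2
  obtain ⟨q, hq, hq'⟩ := enum4 hT2.2
  obtain ⟨r, hr, hr'⟩ := enum4 hT3'
  refine ⟨p, q, r, hp, hq, hr, fun i => hT1.1 (hp' i), fun i => hT2.1 (hq' i),
    fun i => (mem_filter.1 (hT3 (hr' i))).1, fun i j k => ?_⟩
  exact (mem_filter.1 (hT3 (hr' k))).2 (q j) (hq' j) (p i) (hp' i)

end Pool.Agent.TH813.Tri
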