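import Mathlib
import Pool.Agent.TH813.Tri
import Pool.Agent.TH813.Rough

/-!
# Sets of integers without prime grids are thin
-/

set_option autoImplicit false

namespace Pool.Agent.TH813.Dens

open Finset Pool.Agent.TH813.Rough

/-- no grids `m p_i q_j r_k` of primes -/
def NoGrid (Bad : ℕ → Prop) : Prop := ∀ (m : ℕ) (p q r : Fin 4 → ℕ), 0 < m →
  Function.Injective p → Function.Injective q → Function.Injective r →
  (∀ i, (p i).Prime) → (∀ i, (q i).Prime) → (∀ i, (r i).Prime) →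
  (∀ i j, p i < q j) → (∀ j k, q j < r k) → (∀ i j k, Bad (m * p i * q j * r k)) → False

/-- the edges -/
def Edge (Bad : ℕ → Prop) (z m p q r : ℕ) : Prop :=
  p.Prime ∧ q.Prime ∧ r.Prime ∧ z ≤ p ∧ p < q ∧ q < r ∧ Bad (m * p * q * r)

/-- dyadic intervals -/
def dy (i : ℕ) : Finset ℕ := Ico (2 ^ i) (2 ^ (i + 1))

theorem card_dy (i : ℕ) : (dy i).card = 2 ^ i := by
  unfold dy
  rw [Nat.card_Ico, pow_succ]; omega

theorem mem_dy {n : ℕ} (hn : n ≠ 0) : n ∈ dy (Nat.log 2 n) := by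
  unfold dy
  rw [mem_Ico]
  exact ⟨Nat.pow_log_le_self 2 hn, Nat.lt_pow_succ_log_self (by norm_num) n⟩

open Classical in
/-- the box -/
noncomputable def box (Bad : ℕ → Prop) (z m i j k : ℕ) : Finset (ℕ × ℕ × ℕ) :=
  (dy i ×ˢ (dy j ×ˢ dy k)).filter (fun e => Edge Bad z m e.1 e.2.1 e.2.2)

theorem box_card {Bad : ℕ → Prop} (hB : NoGrid Bad) {t m : ℕ} (hm : 0 < m) (i j k L : ℕ)
    (hL : 0 < L) (hz : 2 ^ 22 * L ^ 64 ≤ 2 ^ t) :
    ((box Bad (2 ^ t) m i j k).card : ℝ) ≤ (1 / (L : ℝ) ^ 4) * (2 ^ i * 2 ^ j * 2 ^ k) := by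
  classical
  by_contra hcon
  push Not at hcon
  have hL0 : (0 : ℝ) < L := by exact_mod_cast hL
  have hL1 : (1 : ℝ) ≤ L := by exact_mod_cast hL
  have hpos : 0 < (box Bad (2 ^ t) m i j k).card := by
    have : (0 : ℝ) < (box Bad (2 ^ t) m i j k).card := lt_of_le_of_lt (by positivity) hcon
    exact_mod_cast this
  obtain ⟨⟨p, q, r⟩, he⟩ := card_pos.1 hpos
  unfold box at he
  rw [mem_filter, mem_product, mem_product] at he
  obtain ⟨⟨h1, h2, h3⟩, h4, h5, h6, h7, h8, h9, h10⟩ := he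
  simp only at h1 h2 h3 h4 h5 h6 h7 h8 h9 h10
  unfold dy at h1 h2 h3
  rw [mem_Ico] at h1 h2 h3
  have hti : t ≤ i := by
    have : 2 ^ t < 2 ^ (i + 1) := lt_of_le_of_lt h7 h1.2
    have := (Nat.pow_lt_pow_iff_right (by norm_num : 1 < 2)).1 this
    omega
  have htj : t ≤ j := by
    have : 2 ^ t < 2 ^ (j + 1) := lt_of_le_of_lt (h7.trans h8.le) h2.2
    have := (Nat.pow_lt_pow_iff_right (by norm_num : 1 < 2)).1 this
    omega
  have htk : t ≤ k := by
    have : 2 ^ t < 2 ^ (k + 1) := lt_of_le_of_lt (h7.trans (h8.le.trans h9.le)) h3.2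
    have := (Nat.pow_lt_pow_iff_right (by norm_num : 1 < 2)).1 this
    omega
  have hbig : ∀ i, t ≤ i → (2 : ℝ) ^ 22 * (L : ℝ) ^ 64 ≤ 2 ^ i := by
    intro i hi
    have h11 : 2 ^ 22 * L ^ 64 ≤ 2 ^ i := hz.trans (Nat.pow_le_pow_right (by norm_num) hi)
    exact_mod_cast h11
  have hδ : (0 : ℝ) < 1 / (L : ℝ) ^ 4 := by positivity
  have hδ1 : 1 / (L : ℝ) ^ 4 ≤ 1 := by
    rw [div_le_one (by positivity)]
    exact one_le_pow₀ hL1
  obtain ⟨p, q, r, hp, hq, hr, hp', hq', hr', hA⟩ := Tri.tri (dy i) (dy j) (dy k)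
    (fun p q r => Edge Bad (2 ^ t) m p q r) (1 / (L : ℝ) ^ 4) hδ hδ1 (by
      rw [card_dy, card_dy, card_dy]
      push_cast
      refine le_trans (le_of_eq (by ring)) hcon.le) (by
      rw [card_dy]
      push_cast
      have h12 := hbig i hti
      have h13 : (L : ℝ) ^ 4 ≤ (L : ℝ) ^ 64 := pow_le_pow_right₀ hL1 (by norm_num)
      rw [one_div, inv_mul_eq_div, le_div_iff₀ (by positivity)]
      nlinarith [pow_pos hL0 4]) (by
      rw [card_dy]
      push_cast
      have h12 := hbig j htj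
      have h13 : (L : ℝ) ^ 16 ≤ (L : ℝ) ^ 64 := pow_le_pow_right₀ hL1 (by norm_num)
      rw [div_pow, one_pow, ← pow_mul, one_div, inv_mul_eq_div, le_div_iff₀ (by positivity)]
      norm_num
      nlinarith [pow_pos hL0 16]) (by
      rw [card_dy]
      push_cast
      have h12 := hbig k htk
      rw [div_pow, one_pow, ← pow_mul, one_div, inv_mul_eq_div, le_div_iff₀ (by positivity)]
      norm_num
      norm_num at h12
      exact h12)
  refine hB m p q r hm hp hq hr (fun i => (hA i 0 0).1) (fun j => (hA 0 j 0).2.1)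
    (fun k => (hA 0 0 k).2.2.1) (fun i j => (hA i j 0).2.2.2.2.1) (fun j k => (hA 0 j k).2.2.2.2.2.1)
    (fun i j k => (hA i j k).2.2.2.2.2.2)

theorem three_primes {z n : ℕ} (hn : n ≠ 0) (h : 3 ≤ om z n) :
    ∃ m p q r, n = m * p * q * r ∧ 0 < m ∧ p.Prime ∧ q.Prime ∧ r.Prime ∧ z ≤ p ∧ p < q ∧ q < r := by
  unfold om at h
  set S := n.primeFactors.filter (fun p => z ≤ p) with hS
  set e := S.orderEmbOfCardLe h with he
  have hmem : ∀ i, e i ∈ S := fun i => S.orderEmbOfCardLe_mem h i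
  have hpr : ∀ i, (e i).Prime ∧ e i ∣ n ∧ z ≤ e i := by
    intro i
    have := hmem i
    rw [hS, mem_filter, Nat.mem_primeFactors] at this
    exact ⟨this.1.1, this.1.2.1, this.2⟩
  have h01 : e 0 < e 1 := e.strictMono (by decide)
  have h12 : e 1 < e 2 := e.strictMono (by decide)
  have c01 : Nat.Coprime (e 0) (e 1) := (Nat.coprime_primes (hpr 0).1 (hpr 1).1).2 h01.ne
  have c02 : Nat.Coprime (e 0) (e 2) := (Nat.coprime_primes (hpr 0).1 (hpr 2).1).2 (h01.trans h12).ne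
  have c12 : Nat.Coprime (e 1) (e 2) := (Nat.coprime_primes (hpr 1).1 (hpr 2).1).2 h12.ne
  have hd : e 0 * e 1 * e 2 ∣ n := by
    apply Nat.Coprime.mul_dvd_of_dvd_of_dvd (Nat.Coprime.mul_left c02 c12)
    · exact Nat.Coprime.mul_dvd_of_dvd_of_dvd c01 (hpr 0).2.1 (hpr 1).2.1
    · exact (hpr 2).2.1
  obtain ⟨m, hm⟩ := hd
  refine ⟨m, e 0, e 1, e 2, by rw [hm]; ring, Nat.pos_of_ne_zero ?_, (hpr 0).1, (hpr 1).1,
    (hpr 2).1, (hpr 0).2.2, h01, h12⟩
  rintro rfl
  exact hn (by rw [hm, mul_zero])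

open Classical in
theorem count_three {Bad : ℕ → Prop} (hB : NoGrid Bad) (x t : ℕ)
    (hz : 2 ^ 22 * (Nat.log 2 x + 1) ^ 64 ≤ 2 ^ t) :
    (((Icc 1 x).filter (fun n => Bad n ∧ 3 ≤ om (2 ^ t) n)).card : ℝ) ≤
      (x : ℝ) / ((Nat.log 2 x + 1 : ℕ) : ℝ) := by
  set L := Nat.log 2 x + 1 with hLd
  have hL : 0 < L := Nat.succ_pos _
  have hL0 : (0 : ℝ) < L := by exact_mod_cast hL
  have hsub : (Icc 1 x).filter (fun n => Bad n ∧ 3 ≤ om (2 ^ t) n) ⊆
      (range L ×ˢ (range L ×ˢ range L)).biUnion (fun e =>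
        (Icc 1 (x / (2 ^ e.1 * 2 ^ e.2.1 * 2 ^ e.2.2))).biUnion (fun m =>
          (box Bad (2 ^ t) m e.1 e.2.1 e.2.2).image (fun f => m * f.1 * f.2.1 * f.2.2))) := by
    intro n hn
    rw [mem_filter, mem_Icc] at hn
    obtain ⟨⟨hn1, hnx⟩, hbad, hom⟩ := hn
    obtain ⟨m, p, q, r, h1, h2, h3, h4, h5, h6, h7, h8⟩ := three_primes (by omega) hom
    have hpx : p ≤ x := by
      refine le_trans (Nat.le_of_dvd (by omega) ?_) hnx
      rw [h1]; exact ⟨m * q * r, by ring⟩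
    have hqx : q ≤ x := by
      refine le_trans (Nat.le_of_dvd (by omega) ?_) hnx
      rw [h1]; exact ⟨m * p * r, by ring⟩
    have hrx : r ≤ x := by
      refine le_trans (Nat.le_of_dvd (by omega) ?_) hnx
      rw [h1]; exact ⟨m * p * q, by ring⟩
    have hlog : ∀ a, a ≤ x → Nat.log 2 a < L := fun a ha =>
      Nat.lt_succ_of_le (Nat.log_mono_right ha)
    rw [mem_biUnion]
    refine ⟨(Nat.log 2 p, Nat.log 2 q, Nat.log 2 r), ?_, ?_⟩
    · rw [mem_product, mem_product, mem_range, mem_range, mem_range]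
      exact ⟨hlog p hpx, hlog q hqx, hlog r hrx⟩
    · rw [mem_biUnion]
      refine ⟨m, ?_, ?_⟩
      · rw [mem_Icc]
        refine ⟨h2, ?_⟩
        rw [Nat.le_div_iff_mul_le (by positivity)]
        refine le_trans ?_ hnx
        have e1 := Nat.pow_log_le_self 2 h3.ne_zero
        have e2 := Nat.pow_log_le_self 2 h4.ne_zero
        have e3 := Nat.pow_log_le_self 2 h5.ne_zero
        calc m * (2 ^ Nat.log 2 p * 2 ^ Nat.log 2 q * 2 ^ Nat.log 2 r) ≤ m * (p * q * r) := by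
              gcongr
          _ = n := by rw [h1]; ring
      · rw [mem_image]
        refine ⟨(p, q, r), ?_, h1.symm⟩
        unfold box
        rw [mem_filter, mem_product, mem_product]
        refine ⟨⟨mem_dy h3.ne_zero, mem_dy h4.ne_zero, mem_dy h5.ne_zero⟩, h3, h4, h5, h6, h7, h8, ?_⟩
        simp only
        rw [← h1]; exact hbad
  have h1 : (((Icc 1 x).filter (fun n => Bad n ∧ 3 ≤ om (2 ^ t) n)).card : ℝ) ≤
      ∑ e ∈ range L ×ˢ (range L ×ˢ range L),
        ∑ m ∈ Icc 1 (x / (2 ^ e.1 * 2 ^ e.2.1 * 2 ^ e.2.2)),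
          ((box Bad (2 ^ t) m e.1 e.2.1 e.2.2).card : ℝ) := by
    have h2 := (card_le_card hsub).trans card_biUnion_le
    have h3 : ((Icc 1 x).filter (fun n => Bad n ∧ 3 ≤ om (2 ^ t) n)).card ≤
        ∑ e ∈ range L ×ˢ (range L ×ˢ range L),
        ∑ m ∈ Icc 1 (x / (2 ^ e.1 * 2 ^ e.2.1 * 2 ^ e.2.2)),
          (box Bad (2 ^ t) m e.1 e.2.1 e.2.2).card := by
      refine h2.trans (sum_le_sum (fun e _ => ?_))
      refine card_biUnion_le.trans (sum_le_sum (fun m _ => ?_))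
      exact card_image_le
    exact_mod_cast h3
  refine h1.trans ?_
  calc ∑ e ∈ range L ×ˢ (range L ×ˢ range L),
        ∑ m ∈ Icc 1 (x / (2 ^ e.1 * 2 ^ e.2.1 * 2 ^ e.2.2)),
          ((box Bad (2 ^ t) m e.1 e.2.1 e.2.2).card : ℝ)
      ≤ ∑ e ∈ range L ×ˢ (range L ×ˢ range L), (1 / (L : ℝ) ^ 4) * x := by
        refine sum_le_sum (fun e _ => ?_)
        have h2 : ∑ m ∈ Icc 1 (x / (2 ^ e.1 * 2 ^ e.2.1 * 2 ^ e.2.2)),
            ((box Bad (2 ^ t) m e.1 e.2.1 e.2.2).card : ℝ) ≤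
            ∑ m ∈ Icc 1 (x / (2 ^ e.1 * 2 ^ e.2.1 * 2 ^ e.2.2)),
              (1 / (L : ℝ) ^ 4) * (2 ^ e.1 * 2 ^ e.2.1 * 2 ^ e.2.2) := by
          refine sum_le_sum (fun m hm => ?_)
          rw [mem_Icc] at hm
          exact box_card hB hm.1 e.1 e.2.1 e.2.2 L hL hz
        refine h2.trans ?_
        rw [sum_const, Nat.card_Icc, Nat.add_sub_cancel, nsmul_eq_mul]
        have h3 : ((x / (2 ^ e.1 * 2 ^ e.2.1 * 2 ^ e.2.2) : ℕ) : ℝ) ≤
            (x : ℝ) / (2 ^ e.1 * 2 ^ e.2.1 * 2 ^ e.2.2) := by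
          have := Nat.cast_div_le (α := ℝ) (m := x) (n := 2 ^ e.1 * 2 ^ e.2.1 * 2 ^ e.2.2)
          push_cast at this
          exact this
        have hpos : (0 : ℝ) < 2 ^ e.1 * 2 ^ e.2.1 * 2 ^ e.2.2 := by positivity
        calc ((x / (2 ^ e.1 * 2 ^ e.2.1 * 2 ^ e.2.2) : ℕ) : ℝ) *
              (1 / (L : ℝ) ^ 4 * (2 ^ e.1 * 2 ^ e.2.1 * 2 ^ e.2.2))
            ≤ (x : ℝ) / (2 ^ e.1 * 2 ^ e.2.1 * 2 ^ e.2.2) *
              (1 / (L : ℝ) ^ 4 * (2 ^ e.1 * 2 ^ e.2.1 * 2 ^ e.2.2)) :=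
              mul_le_mul_of_nonneg_right h3 (by positivity)
          _ = (1 / (L : ℝ) ^ 4) * x := by
              field_simp
    _ = (x : ℝ) / L := by
        rw [sum_const, card_product, card_product, card_range, nsmul_eq_mul]
        push_cast
        field_simp

open Classical in
/-- **Sets without prime grids are thin.** -/
theorem thin : ∃ C : ℝ, 0 ≤ C ∧ ∀ Bad : ℕ → Prop, NoGrid Bad → ∀ x : ℕ, 16 ≤ x →
    (((Icc 1 x).filter (fun n => Bad n)).card : ℝ) ≤
      C * x * Real.log (Real.log x) ^ 3 / Real.log x := by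
  obtain ⟨C, hC0, hC⟩ := rough_count
  refine ⟨1 + 300 * C, by positivity, fun Bad hB x hx => ?_⟩
  have hx0 : (0 : ℝ) < x := by exact_mod_cast (by omega : 0 < x)
  have hx16 : (16 : ℝ) ≤ x := by exact_mod_cast hx
  have hlog16 : Real.exp 1 ≤ Real.log 16 := by
    have h1 : Real.log 16 = 4 * Real.log 2 := by
      rw [show (16 : ℝ) = 2 ^ 4 by norm_num, Real.log_pow]; norm_num
    rw [h1]
    have := Real.log_two_gt_d9
    have := Real.exp_one_lt_d9
    linarith
  have hlx : Real.exp 1 ≤ Real.log x := hlog16.trans (Real.log_le_log (by norm_num) hx16)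
  have hlx0 : 0 < Real.log x := lt_of_lt_of_le (Real.exp_pos 1) hlx
  have hll : 1 ≤ Real.log (Real.log x) := by
    have := Real.log_le_log (Real.exp_pos 1) hlx
    rwa [Real.log_exp] at this
  have hl2 : 0 < Real.log 2 := Real.log_pos (by norm_num)
  have hl2' : Real.log 2 ≤ 1 := by
    have := Real.log_two_lt_d9
    linarith
  have hl2'' : 1 / 2 ≤ Real.log 2 := by
    have := Real.log_two_gt_d9
    linarith
  set L := Nat.log 2 x + 1 with hLd
  have hL : 0 < L := Nat.succ_pos _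
  have hL0 : (0 : ℝ) < L := by exact_mod_cast hL
  set t := 22 + 64 * (Nat.log 2 L + 1) with ht
  have hz : 2 ^ 22 * L ^ 64 ≤ 2 ^ t := by
    rw [ht, pow_add]
    refine Nat.mul_le_mul_left _ ?_
    rw [mul_comm, pow_mul]
    exact Nat.pow_le_pow_left (Nat.lt_pow_succ_log_self (by norm_num) L).le 64
  have h1 := count_three hB x t hz
  have h2 := hC x (2 ^ t) hx (by
    calc 2 = 2 ^ 1 := rfl
      _ ≤ 2 ^ t := Nat.pow_le_pow_right (by norm_num) (by omega))
  -- the size of `L`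
  have hLlow : Real.log x ≤ L := by
    have h3 : x < 2 ^ L := Nat.lt_pow_succ_log_self (by norm_num) x
    have h4 : Real.log x ≤ Real.log ((2 : ℝ) ^ L) := by
      apply Real.log_le_log hx0
      exact_mod_cast h3.le
    rw [Real.log_pow] at h4
    have h5 : (L : ℝ) * Real.log 2 ≤ L * 1 := mul_le_mul_of_nonneg_left hl2' hL0.le
    linarith
  have hLup : (L : ℝ) ≤ 3 * Real.log x := by
    have h3 : 2 ^ (Nat.log 2 x) ≤ x := Nat.pow_log_le_self 2 (by omega)
    have h4 : Real.log ((2 : ℝ) ^ (Nat.log 2 x)) ≤ Real.log x := by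
      apply Real.log_le_log (by positivity)
      exact_mod_cast h3
    rw [Real.log_pow] at h4
    have h5 : ((Nat.log 2 x : ℕ) : ℝ) * (1 / 2) ≤ (Nat.log 2 x : ℕ) * Real.log 2 :=
      mul_le_mul_of_nonneg_left hl2'' (Nat.cast_nonneg _)
    have h6 : (1 : ℝ) ≤ Real.log x := by
      have := Real.add_one_le_exp (1 : ℝ)
      linarith
    rw [hLd]
    push_cast
    linarith
  have hlogL : Real.log L ≤ 3 * Real.log (Real.log x) := by
    have h3 : Real.log L ≤ Real.log (3 * Real.log x) := Real.log_le_log hL0 hLup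
    rw [Real.log_mul (by norm_num) hlx0.ne'] at h3
    have h4 : Real.log 3 ≤ 2 := by
      have := Real.log_le_sub_one_of_pos (show (0 : ℝ) < 3 by norm_num)
      linarith
    linarith
  have hlz : Real.log ((2 ^ t : ℕ) : ℝ) ≤ 300 * Real.log (Real.log x) := by
    have h3 : 2 ^ (Nat.log 2 L) ≤ L := Nat.pow_log_le_self 2 (by omega)
    have h4 : Real.log ((2 : ℝ) ^ (Nat.log 2 L)) ≤ Real.log L := by
      apply Real.log_le_log (by positivity)
      exact_mod_cast h3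
    rw [Real.log_pow] at h4
    have h7 : ((t : ℕ) : ℝ) = 86 + 64 * ((Nat.log 2 L : ℕ) : ℝ) := by
      rw [ht]; push_cast; ring
    have h8 : Real.log ((2 ^ t : ℕ) : ℝ) = (t : ℝ) * Real.log 2 := by
      rw [Nat.cast_pow, Real.log_pow]; norm_num
    rw [h8, h7]
    have h9 : (86 + 64 * ((Nat.log 2 L : ℕ) : ℝ)) * Real.log 2 =
        86 * Real.log 2 + 64 * (((Nat.log 2 L : ℕ) : ℝ) * Real.log 2) := by ring
    rw [h9]
    linarith
  clear_value t
  have hsub : (Icc 1 x).filter (fun n => Bad n) ⊆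
      ((Icc 1 x).filter (fun n => Bad n ∧ 3 ≤ om (2 ^ t) n)) ∪
        ((Icc 1 x).filter (fun n => om (2 ^ t) n ≤ 2)) := by
    intro n hn
    rw [mem_filter] at hn
    rw [mem_union, mem_filter, mem_filter]
    rcases Nat.lt_or_ge (om (2 ^ t) n) 3 with h | h
    · exact Or.inr ⟨hn.1, by omega⟩
    · exact Or.inl ⟨hn.1, hn.2, h⟩
  have h3 : (((Icc 1 x).filter (fun n => Bad n)).card : ℝ) ≤
      ((Icc 1 x).filter (fun n => Bad n ∧ 3 ≤ om (2 ^ t) n)).card +
        ((Icc 1 x).filter (fun n => om (2 ^ t) n ≤ 2)).card := by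
    exact_mod_cast (card_le_card hsub).trans (card_union_le _ _)
  have h4 : (x : ℝ) / L ≤ x * Real.log (Real.log x) ^ 3 / Real.log x := by
    have h5 : (x : ℝ) / L ≤ x / Real.log x := div_le_div_of_nonneg_left hx0.le hlx0 hLlow
    refine h5.trans ?_
    rw [div_le_div_iff_of_pos_right hlx0]
    have h6 : 1 ≤ Real.log (Real.log x) ^ 3 := one_le_pow₀ hll
    nlinarith
  have h5 : C * x * Real.log (Real.log x) ^ 2 * Real.log ((2 ^ t : ℕ) : ℝ) / Real.log x ≤
      300 * C * x * Real.log (Real.log x) ^ 3 / Real.log x := by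
    rw [div_le_div_iff_of_pos_right hlx0]
    calc C * x * Real.log (Real.log x) ^ 2 * Real.log ((2 ^ t : ℕ) : ℝ)
        ≤ C * x * Real.log (Real.log x) ^ 2 * (300 * Real.log (Real.log x)) :=
          mul_le_mul_of_nonneg_left hlz (by positivity)
      _ = _ := by ring
  calc (((Icc 1 x).filter (fun n => Bad n)).card : ℝ) ≤ _ := h3
    _ ≤ x * Real.log (Real.log x) ^ 3 / Real.log x +
        300 * C * x * Real.log (Real.log x) ^ 3 / Real.log x :=
        add_le_add (h1.trans h4) (h2.trans h5)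
    _ = _ := by ring

end Pool.Agent.TH813.Dens
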