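import Mathlib
import Pool.Agent.TH813.Sch
import Pool.Agent.TH813.Rel2

/-!
# Regular points of any transcendence degree in a rational space, over a field `F`
-/

set_option autoImplicit false

namespace Pool.Agent.TH813.AnyDeg

open Pool.Agent.W252 Pool.Agent.W669.Gel Module Finset
open Pool.Agent.TH813.Core Pool.Agent.TH813.Rank Pool.Agent.TH813.Core2
open Pool.Agent.TH813.Rel (DF evF evF_apply MK core2 rank_evF rank_lossF kills_clF mem_cl subset_cl)

variable {K : IntermediateField ℚ ℂ} {n m : ℕ} (V : Submodule ℚ (Fin n → ℂ))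

/-- the index set of the forms -/
abbrev Idx (K : IntermediateField ℚ ℂ) (n m : ℕ) := (Fin (m + 1) → DF K) ×
  (Fin (m + 1) → Fin n ⊕ Fin n) × Dual ℚ ℂ

/-- the determinants as multilinear forms -/
noncomputable def F (a : Idx K n m) : MultilinearMap ℚ (fun _ : Fin (m + 1) => V) ℚ :=
  a.2.2.compMultilinearMap
    (((Matrix.detRowAlternating (n := Fin (m + 1)) (R := ℂ)).toMultilinearMap.restrictScalars
      ℚ).compLinearMap
      (fun i => (LinearMap.funLeft ℚ ℂ a.2.1) ∘ₗ (ccl (a.1 i : Derivation ℚ ℂ ℂ)) ∘ₗ V.subtype))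

theorem F_apply (a : Idx K n m) (v : Fin (m + 1) → V) :
    F V a v = a.2.2 (Matrix.of fun i j =>
      cc (a.1 i : Derivation ℚ ℂ ℂ) (v i : Fin n → ℂ) (a.2.1 j)).det := rfl

theorem forms_zero (v : V) : (∀ a : Idx K n m, F V a (fun _ => v) = 0) ↔
    finrank ℂ (LinearMap.range (evF K (v : Fin n → ℂ))) ≤ m := by
  classical
  constructor
  · intro h
    by_contra hcon
    push Not at hcon
    let b := finBasis ℂ (LinearMap.range (evF K (v : Fin n → ℂ)))
    let x : Fin (m + 1) → (Fin n ⊕ Fin n → ℂ) := fun i => b (Fin.castLE hcon i)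
    have hx : LinearIndependent ℂ x := (b.linearIndependent.map'
      (LinearMap.range (evF K (v : Fin n → ℂ))).subtype
      (Submodule.ker_subtype _)).comp _ (Fin.castLE_injective hcon)
    obtain ⟨κ, hκ⟩ := Sch.exists_minor x hx
    have hch : ∀ i, ∃ D : DF K, cc (D : Derivation ℚ ℂ ℂ) (v : Fin n → ℂ) = x i := fun i =>
      (b (Fin.castLE hcon i)).2
    choose D hD using hch
    apply hκ
    apply (forall_dual_apply_eq_zero_iff ℚ _).1
    intro φ
    have := h (D, κ, φ)
    rw [F_apply] at this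
    simp only [hD] at this
    exact this
  · intro h a
    rw [F_apply]
    have h1 : ¬ LinearIndependent ℂ
        (fun i => cc (a.1 i : Derivation ℚ ℂ ℂ) (v : Fin n → ℂ)) := by
      intro hli
      have h2 : LinearIndependent ℂ (fun i =>
          (⟨cc (a.1 i : Derivation ℚ ℂ ℂ) (v : Fin n → ℂ), ⟨a.1 i, rfl⟩⟩ :
          LinearMap.range (evF K (v : Fin n → ℂ)))) := by
        apply LinearIndependent.of_comp (LinearMap.range (evF K (v : Fin n → ℂ))).subtype
        exact hli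
      have h3 := h2.fintype_card_le_finrank
      rw [Fintype.card_fin] at h3
      omega
    have h4 : (Matrix.of fun i j =>
        cc (a.1 i : Derivation ℚ ℂ ℂ) (v : Fin n → ℂ) (a.2.1 j)).det = 0 := by
      by_contra hne
      apply h1
      have h5 : LinearIndependent ℂ (Matrix.of fun i j =>
          cc (a.1 i : Derivation ℚ ℂ ℂ) (v : Fin n → ℂ) (a.2.1 j)).row :=
        Matrix.linearIndependent_rows_of_det_ne_zero hne
      have h6 : (Matrix.of fun i j =>
          cc (a.1 i : Derivation ℚ ℂ ℂ) (v : Fin n → ℂ) (a.2.1 j)).row =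
          (LinearMap.funLeft ℂ ℂ a.2.1) ∘
            (fun i => cc (a.1 i : Derivation ℚ ℂ ℂ) (v : Fin n → ℂ)) := by
        funext i j
        rfl
      rw [h6] at h5
      exact LinearIndependent.of_comp _ h5
    rw [h4, map_zero]

/-- the tangent condition -/
theorem tangent {z v : V}
    (hz : finrank ℂ (LinearMap.range (evF K (z : Fin n → ℂ))) = m)
    (h : ∀ a : Idx K n m, CountN.G (F V a) z z v = 0) :
    ∀ D ∈ DF K, cc D (z : Fin n → ℂ) = 0 →
      ∃ D' ∈ DF K, cc D (v : Fin n → ℂ) = cc D' (z : Fin n → ℂ) := by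
  classical
  intro D hDK hD
  let b := finBasisOfFinrankEq ℂ (LinearMap.range (evF K (z : Fin n → ℂ))) hz
  have hch : ∀ i, ∃ D : DF K, cc (D : Derivation ℚ ℂ ℂ) (z : Fin n → ℂ) = b i := fun i => (b i).2
  choose Dd hDd using hch
  by_contra hcon
  push Not at hcon
  -- independence
  have hb : LinearIndependent ℂ (fun i => (b i : Fin n ⊕ Fin n → ℂ)) :=
    b.linearIndependent.map' (LinearMap.range (evF K (z : Fin n → ℂ))).subtype
      (Submodule.ker_subtype _)
  have hspan : cc D (v : Fin n → ℂ) ∉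
      Submodule.span ℂ (Set.range (fun i => (b i : Fin n ⊕ Fin n → ℂ))) := by
    intro hmem
    have hle : Submodule.span ℂ (Set.range (fun i => (b i : Fin n ⊕ Fin n → ℂ))) ≤
        LinearMap.range (evF K (z : Fin n → ℂ)) := by
      rw [Submodule.span_le]
      rintro _ ⟨i, rfl⟩
      exact (b i).2
    obtain ⟨D', hD'⟩ := hle hmem
    exact hcon D' D'.2 hD'.symm
  have hli : LinearIndependent ℂ (Fin.snoc (fun i => (b i : Fin n ⊕ Fin n → ℂ))
      (cc D (v : Fin n → ℂ)) : Fin (m + 1) → (Fin n ⊕ Fin n → ℂ)) :=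
    linearIndependent_finSnoc.2 ⟨hb, hspan⟩
  obtain ⟨κ, hκ⟩ := Sch.exists_minor _ hli
  apply hκ
  apply (forall_dual_apply_eq_zero_iff ℚ _).1
  intro φ
  have h1 := h (Fin.snoc Dd ⟨D, hDK⟩, κ, φ)
  rw [CountN.G_self, Fin.sum_univ_castSucc, sum_eq_zero, zero_add] at h1
  · rw [F_apply] at h1
    rw [← h1]
    congr 2
    ext i j
    refine Fin.lastCases ?_ (fun i' => ?_) i
    · simp only [Matrix.of_apply, Fin.snoc_last]
      congr 1
      congr 1
      rw [Fin.insertNth_apply_same]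
    · simp only [Matrix.of_apply, Fin.snoc_castSucc]
      rw [← hDd i']
      congr 2
      rw [← Fin.succAbove_last_apply i', Fin.insertNth_apply_succAbove]
  · intro j _
    rw [F_apply]
    have h2 : (Matrix.of fun i j' =>
        cc ((Fin.snoc Dd ⟨D, hDK⟩ : Fin (m + 1) → DF K) i : Derivation ℚ ℂ ℂ)
        ((j.castSucc.insertNth v (fun _ => z) : Fin (m + 1) → V) i : Fin n → ℂ)
        (κ j')).det = 0 := by
      apply Matrix.det_eq_zero_of_row_eq_zero (Fin.last m)
      intro j'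
      rw [Matrix.of_apply, Fin.snoc_last]
      have h3 : (j.castSucc.insertNth v (fun _ => z) : Fin (m + 1) → V) (Fin.last m) = z := by
        have h4 : Fin.last m ≠ j.castSucc := (Fin.castSucc_lt_last j).ne'
        obtain ⟨i', hi'⟩ := Fin.exists_succAbove_eq h4
        rw [← hi', Fin.insertNth_apply_succAbove]
      rw [h3, hD]
      rfl
    change φ _ = 0
    rw [h2, map_zero]

variable (K)

/-- all the points of `V` attached to the field of `z` -/
def Wz (z : Fin n → ℂ) : Submodule ℚ (Fin n → ℂ) where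
  carrier := {v | v ∈ V ∧ ∀ D ∈ DF K, cc D z = 0 → cc D v = 0}
  add_mem' := by
    rintro a b ⟨ha, ha'⟩ ⟨hb, hb'⟩
    refine ⟨V.add_mem ha hb, fun D hK hD => ?_⟩
    rw [← ccl_apply, map_add, ccl_apply, ccl_apply, ha' D hK hD, hb' D hK hD, add_zero]
  zero_mem' := ⟨V.zero_mem, fun D _ _ => by rw [← ccl_apply, map_zero]⟩
  smul_mem' := by
    rintro c a ⟨ha, ha'⟩
    refine ⟨V.smul_mem c ha, fun D hK hD => ?_⟩
    rw [← ccl_apply, map_smul, ccl_apply, ha' D hK hD, smul_zero]

/-- the points considered -/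
structure Good (m : ℕ) (z : Fin n → ℂ) : Prop where
  hA : ∀ D ∈ DF K, (∀ i, dlog D (z i) = 0) → ∀ i, D (z i) = 0
  hB : ∀ D ∈ DF K, ∀ q : Fin n → ℚ, (∀ i, D (z i) = 0) →
      (∀ i, dlog D (z i) = q i) → q = 0
  hr : finrank ℂ (LinearMap.range (evF K z)) = m

variable {V} {K}

theorem Good.tan {z : V} (hz : Good K m (z : Fin n → ℂ)) {v : V}
    (h : ∀ a : Idx K n m, CountN.G (F V a) z z v = 0) :
    ∀ D ∈ DF K, cc D (z : Fin n → ℂ) = 0 → cc D (v : Fin n → ℂ) = 0 := by
  have ht := tangent V hz.hr h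
  intro D hDK hD
  have h1 := core2 (F := K) (ι := Fin n) (z := (z : Fin n → ℂ)) (w := (v : Fin n → ℂ))
    (v := (z : Fin n → ℂ)) (w' := (v : Fin n → ℂ)) (fun D hD q h0 h1 => hz.hB D hD q h0 h1)
    (fun D _ hD m => (cc_eq_zero.1 hD).2 m)
    (fun D hDK hD => by
      obtain ⟨D', hD', he⟩ := ht D hDK hD
      exact ⟨D', hD', he, fun i => congrFun he (Sum.inr i)⟩) D hDK hD
  obtain ⟨D', hD', he⟩ := ht D hDK hD
  have h2 : ∀ i, dlog D' ((z : Fin n → ℂ) i) = 0 := fun i =>
    (congrFun he (Sum.inr i)).symm.trans (h1.1 i)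
  rw [he]
  exact cc_eq_zero.2 ⟨hz.hA D' hD' h2, h2⟩

theorem mem_ker_evF {z : Fin n → ℂ} {D : DF K} :
    D ∈ LinearMap.ker (evF K z) ↔ cc (D : Derivation ℚ ℂ ℂ) z = 0 := by
  rw [LinearMap.mem_ker, evF_apply]

theorem Wz_eq {z z' : Fin n → ℂ} (hz : finrank ℂ (LinearMap.range (evF K z)) = m)
    (hz' : finrank ℂ (LinearMap.range (evF K z')) = m)
    (h : ∀ D ∈ DF K, cc D z = 0 → cc D z' = 0) : Wz K V z = Wz K V z' := by
  have h1 : LinearMap.ker (evF K z) = LinearMap.ker (evF K z') :=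
    ker_eq_of_finrank (evF K z) (evF K z')
      (fun D hD => mem_ker_evF.2 (h D D.2 (mem_ker_evF.1 hD))) (by rw [hz, hz'])
  have h2 : ∀ D ∈ DF K, cc D z = 0 ↔ cc D z' = 0 := fun D hD => by
    have := SetLike.ext_iff.1 h1 ⟨D, hD⟩
    rwa [mem_ker_evF, mem_ker_evF] at this
  ext v
  constructor
  · rintro ⟨h3, h4⟩
    exact ⟨h3, fun D hK hD => h4 D hK ((h2 D hK).2 hD)⟩
  · rintro ⟨h3, h4⟩
    exact ⟨h3, fun D hK hD => h4 D hK ((h2 D hK).1 hD)⟩

theorem rank_Wz {z v : Fin n → ℂ} (hz : finrank ℂ (LinearMap.range (evF K z)) = m)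
    (hv : v ∈ Wz K V z) : finrank ℂ (LinearMap.range (evF K v)) ≤ m :=
  (finrank_range_le (evF K z) (evF K v)
    (fun D hD => mem_ker_evF.2 (hv.2 D D.2 (mem_ker_evF.1 hD)))).trans hz.le

variable (V)

theorem card_le [FiniteDimensional ℚ V] (S : Finset (Submodule ℚ (Fin n → ℂ)))
    (hS : ∀ W ∈ S, ∃ z, z ∈ V ∧ Good K m z ∧ W = Wz K V z) :
    S.card ≤ ((m + 1) * finrank ℚ V).choose (finrank ℚ V) := by
  classical
  choose! z hzV hz hW using hS
  let f : S → V := fun W => ⟨z W, hzV W W.2⟩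
  have hinj : Function.Injective f := by
    intro W W' h
    have h1 : z W = z W' := congrArg (fun v : V => (v : Fin n → ℂ)) h
    apply Subtype.ext
    rw [hW W W.2, hW W' W'.2, h1]
  have hcard : S.card = (Finset.univ.image f).card := by
    rw [Finset.card_image_of_injective _ hinj, Finset.card_univ, Fintype.card_coe]
  rw [hcard]
  apply CountN.count (F (K := K) (m := m) V)
  · intro t ht
    obtain ⟨W, _, rfl⟩ := Finset.mem_image.1 ht
    exact (forms_zero V _).2 (hz W W.2).hr.le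
  · intro t ht τ hτ
    obtain ⟨W, _, rfl⟩ := Finset.mem_image.1 ht
    have h1 := Good.tan (z := f W) (hz W W.2) hτ
    exact (forms_zero V _).2 (rank_Wz (V := V) (hz W W.2).hr ⟨τ.2, h1⟩)
  · intro t ht t' ht' hne
    obtain ⟨W, _, rfl⟩ := Finset.mem_image.1 ht
    obtain ⟨W', _, rfl⟩ := Finset.mem_image.1 ht'
    by_contra hcon
    push Not at hcon
    apply hne
    have h1 := Good.tan (z := f W) (hz W W.2) hcon
    have h2 := Wz_eq (V := V) (hz W W.2).hr (hz W' W'.2).hr h1
    have h3 : W = W' := Subtype.ext ((hW W W.2).trans (h2.trans (hW W' W'.2).symm))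
    rw [h3]

/-- **Main theorem.** -/
theorem main (K : IntermediateField ℚ ℂ) (m : ℕ) (V : Submodule ℚ (Fin n → ℂ))
    [FiniteDimensional ℚ V] :
    ∃ S : Finset (Submodule ℚ (Fin n → ℂ)),
      S.card ≤ ((m + 1) * finrank ℚ V).choose (finrank ℚ V) ∧
      (∀ W ∈ S, ∃ z, z ∈ V ∧ Good K m z ∧ W = Wz K V z) ∧
      ∀ z ∈ V, Good K m z → Wz K V z ∈ S := by
  classical
  have hfin : {W | ∃ z, z ∈ V ∧ Good K m z ∧ W = Wz K V z}.Finite := by
    by_contra hinf
    obtain ⟨S, hS, hcard⟩ := (Set.not_finite.1 hinf : Set.Infinite _).exists_subset_card_eq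
      (((m + 1) * finrank ℚ V).choose (finrank ℚ V) + 1)
    have := card_le V S (fun W hW => hS hW)
    omega
  refine ⟨hfin.toFinset, card_le V _ (fun W hW => (Set.Finite.mem_toFinset hfin).1 hW),
    fun W hW => (Set.Finite.mem_toFinset hfin).1 hW, fun z hz hg => ?_⟩
  exact (Set.Finite.mem_toFinset hfin).2 ⟨z, hz, hg, rfl⟩

end Pool.Agent.TH813.AnyDeg
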