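import Mathlib
import Pool.Agent.TH813.USp

/-!
# Where Schanuel's inequality fails in a rational space of finite dimension
-/

set_option autoImplicit false

namespace Pool.Agent.TH813.Fail

open Pool.Agent.W252 Pool.Agent.W669.Gel Pool.Agent.H327R2.SC Module Finset
open Pool.Agent.TH813.Core Pool.Agent.TH813.Rank Pool.Agent.TH813.USp

variable {n : ℕ}

theorem Kz_sub {z : Fin n → ℂ} {x : ℂ} (hx : x ∈ Kz z) : x ∈ MM.closure (EE z) := by
  classical
  by_contra hcon
  obtain ⟨I, hI⟩ := MM.exists_isBasis (EE z) (Set.subset_univ _)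
  rw [← hI.closure_eq_closure] at hcon
  obtain ⟨h1, h2⟩ := (hI.indep.notMem_closure_iff (Set.mem_univ _)).1 hcon
  have hind : AlgebraicIndependent ℚ (fun i : ↥(insert x I) => (i : ℂ)) := h1
  obtain ⟨D, hD⟩ := Pool.Agent.H135R2.VS.exists_der hind (fun i => if (i : ℂ) = x then 1 else 0)
  have h0 : ∀ i ∈ I, D i = 0 := by
    intro i hi
    rw [hD ⟨i, Or.inr hi⟩, if_neg]
    intro h
    have h' : i = x := h
    exact h2 (h' ▸ hi)
  have hcl : ∀ w ∈ EE z, D w = 0 := fun w hw =>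
    kills_cl D h0 (by rw [hI.closure_eq_closure]; exact subset_cl _ hw)
  have h3 : cc D z = 0 := cc_eq_zero.2 ⟨fun i => hcl _ (Or.inl ⟨i, rfl⟩),
    fun i => dlog_eq_zero.2 (hcl _ (Or.inr ⟨i, rfl⟩))⟩
  have h4 := hx D h3
  rw [hD ⟨x, Or.inl rfl⟩, if_pos rfl] at h4
  exact one_ne_zero h4

theorem rk_Kz (z : Fin n → ℂ) : rk (Kz z : Set ℂ) ≤ (finrank ℂ (LinearMap.range (ev z)) : ℕ) := by
  rw [rank_ev]
  exact rk_le_of_subset_cl (fun x hx => Kz_sub hx)

/-- The closure of a set as a rational subspace. -/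
def clM (S : Set ℂ) : Submodule ℚ ℂ where
  carrier := MM.closure S
  add_mem' := fun ha hb => cl_add ha hb
  zero_mem' := cl_of_alg S isAlgebraic_zero
  smul_mem' := fun c x hx => by
    rw [Rat.smul_def]
    exact cl_mul (cl_of_alg S (isAlgebraic_algebraMap c)) hx

theorem span_le_clM {S T : Set ℂ} (h : S ⊆ MM.closure T) : Submodule.span ℚ S ≤ clM T :=
  Submodule.span_le.2 h

theorem lt_iff (S : Set ℂ) (m : ℕ) :
    Algebra.trdeg ℚ (IntermediateField.adjoin ℚ S) < (m : Cardinal) ↔ rk S < m := by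
  rw [← not_le, ← not_le, ← Cardinal.natCast_le_toENat, toENat_trdeg]

/-- The bound for the transcendence degree. -/
theorem bound {z : Fin (n + 1) → ℂ} (hz : LinearIndependent ℚ z)
    (hr : finrank ℂ (LinearMap.range (ev z)) ≤ n) (U : Submodule ℚ ℂ) [FiniteDimensional ℚ U]
    (hU : ∀ i, z i ∈ U) (E : Set ℂ) (hE : ∀ x ∈ E, x ∈ Kz z) :
    rk ((U : Set ℂ) ∪ E) < (finrank ℚ U : ℕ) := by
  classical
  let Z := Submodule.span ℚ (Set.range z)
  have hZU : Z ≤ U := by
    rw [Submodule.span_le]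
    rintro _ ⟨i, rfl⟩
    exact hU i
  let Z' : Submodule ℚ U := Z.comap U.subtype
  have hZ' : finrank ℚ Z' = n + 1 := by
    rw [(Submodule.comapSubtypeEquivOfLe hZU).finrank_eq, finrank_span_eq_card hz,
      Fintype.card_fin]
  obtain ⟨T, hT⟩ := Z'.exists_isCompl
  have hadd := Submodule.finrank_add_eq_of_isCompl hT
  let b := finBasis ℚ T
  let c : Fin (finrank ℚ T) → ℂ := fun l => ((b l : T) : U)
  have hzK : ∀ i, z i ∈ Kz z := fun i D hD => (cc_eq_zero.1 hD).1 i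
  have h1 : (U : Set ℂ) ⊆ MM.closure ((Kz z : Set ℂ) ∪ Set.range c) := by
    intro y hy
    have h2 : (⟨y, hy⟩ : U) ∈ Z' ⊔ T := by
      rw [hT.sup_eq_top]
      trivial
    obtain ⟨a, ha, t, ht, hat⟩ := Submodule.mem_sup.1 h2
    have h3 : y = (a : ℂ) + (t : ℂ) := (congrArg (fun s : U => (s : ℂ)) hat).symm
    rw [h3]
    refine cl_add ?_ ?_
    · have h4 : (a : ℂ) ∈ Z := ha
      refine span_le_clM (T := (Kz z : Set ℂ) ∪ Set.range c) ?_ h4
      rintro _ ⟨i, rfl⟩
      exact subset_cl _ (Or.inl (hzK i))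
    · have h5 := congrArg (fun s : T => ((s : U) : ℂ)) (b.sum_repr ⟨t, ht⟩)
      simp only [Submodule.coe_sum, Submodule.coe_smul] at h5
      rw [← h5]
      refine Submodule.sum_mem (clM ((Kz z : Set ℂ) ∪ Set.range c))
        (fun l _ => Submodule.smul_mem _ _ ?_)
      exact subset_cl _ (Or.inr ⟨l, rfl⟩)
  have h2 : (U : Set ℂ) ∪ E ⊆ MM.closure ((Kz z : Set ℂ) ∪ Set.range c) := by
    rintro x (hx | hx)
    · exact h1 hx
    · exact subset_cl _ (Or.inl (hE x hx))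
  have h3 : rk ((U : Set ℂ) ∪ E) ≤ ((n + finrank ℚ T : ℕ) : ℕ∞) := by
    refine (rk_le_of_subset_cl h2).trans ((MM.eRk_union_le_eRk_add_eRk _ _).trans ?_)
    push_cast
    refine add_le_add ((rk_Kz z).trans (by exact_mod_cast hr)) ?_
    have := rk_range_le c
    rwa [Fintype.card_fin] at this
  refine lt_of_le_of_lt h3 ?_
  rw [Nat.cast_lt]
  omega

theorem comb_indep {m : ℕ} {A : Matrix (Fin m) (Fin n) ℚ} (hA : LinearIndependent ℚ (fun i => A i))
    {z : Fin n → ℂ} (hz : LinearIndependent ℚ z) : LinearIndependent ℚ (comb A z) := by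
  let f : (Fin n → ℚ) →ₗ[ℚ] ℂ := Fintype.linearCombination ℚ z
  have hf : LinearMap.ker f = ⊥ := by
    rw [LinearMap.ker_eq_bot']
    intro c hc
    funext i
    exact Fintype.linearIndependent_iff.1 hz c (by rwa [Fintype.linearCombination_apply] at hc) i
  have h1 := hA.map' f hf
  have h2 : f ∘ (fun i => A i) = comb A z := by
    funext i
    rw [Function.comp_apply, Fintype.linearCombination_apply]
    unfold comb
    refine sum_congr rfl (fun j _ => ?_)
    rw [Rat.smul_def]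
  rwa [h2] at h1

/-- minimal failures are good -/
theorem good_of {V U : Submodule ℚ ℂ} (hUV : U ≤ V) {z : Fin (n + 1) → ℂ} (hzU : ∀ i, z i ∈ U)
    (hz : LinearIndependent ℚ z)
    (h2 : ∀ x : Fin n → ℂ, LinearIndependent ℚ x → (∀ i, x i ∈ U) → (n : Cardinal) ≤ td x)
    (h3 : ¬ ((n + 1 : ℕ) : Cardinal) ≤ td z) : Good V z := by
  classical
  have hle : finrank ℂ (LinearMap.range (ev z)) ≤ n := by
    rw [le_td_iff] at h3
    omega
  have hcU : ∀ A : Matrix (Fin n) (Fin (n + 1)) ℚ, ∀ i, comb A z i ∈ U := by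
    intro A i
    refine U.sum_mem (fun j _ => ?_)
    rw [← Rat.smul_def]
    exact U.smul_mem _ (hzU j)
  refine ⟨fun i => hUV (hzU i), ?_, ?_⟩
  · intro D q hD hq
    by_contra hne
    obtain ⟨A, hA, hA2⟩ := exists_ortho q
    have h4 := (le_td_iff n _).1 (h2 _ (comb_indep hA hz) (hcU A))
    have h5 := rank_loss A z D (by
      intro h0
      apply hne
      funext i
      have h6 := (cc_eq_zero.1 h0).2 i
      rw [hq i] at h6
      exact_mod_cast h6) (by
      funext k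
      rcases k with i | i
      · change ∑ j, (A i j : ℂ) * D (z j) = 0
        exact sum_eq_zero (fun j _ => by rw [hD j, mul_zero])
      · change ∑ j, (A i j : ℂ) * dlog D (z j) = 0
        have h7 : ∑ j, (A i j : ℂ) * dlog D (z j) = ((∑ j, A i j * q j : ℚ) : ℂ) := by
          push_cast
          exact sum_congr rfl (fun j _ => by rw [hq j])
        rw [h7, hA2 i, Rat.cast_zero])
    omega
  · apply le_antisymm hle
    obtain ⟨A, hA, -⟩ := exists_ortho (0 : Fin (n + 1) → ℚ)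
    have h4 := (le_td_iff n _).1 (h2 _ (comb_indep hA hz) (hcU A))
    refine h4.trans ?_
    rw [← lm_ev, LinearMap.range_comp]
    exact Submodule.finrank_map_le _ _

/-- the subspaces -/
def TS (V : Submodule ℚ ℂ) : Set (Submodule ℚ ℂ) :=
  {W | ∃ (n : ℕ) (z : Fin (n + 1) → ℂ), LinearIndependent ℚ z ∧ Good V z ∧ W = UU V z}

theorem finite_TS (V : Submodule ℚ ℂ) [FiniteDimensional ℚ V] : (TS V).Finite := by
  refine Set.Finite.subset (Set.finite_iUnion (fun n : Fin (finrank ℚ V) => finite_UU V n)) ?_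
  rintro W ⟨n, z, hz, hg, rfl⟩
  have h1 : LinearIndependent ℚ (fun i => (⟨z i, hg.mem i⟩ : V)) := by
    apply LinearIndependent.of_comp V.subtype
    exact hz
  have h2 := h1.fintype_card_le_finrank
  rw [Fintype.card_fin] at h2
  exact Set.mem_iUnion.2 ⟨⟨n, h2⟩, z, hg, rfl⟩

/-- **Main theorem.** -/
theorem main (V : Submodule ℚ ℂ) [FiniteDimensional ℚ V] :
    ∃ T : Finset (Submodule ℚ ℂ),
      (∀ W ∈ T, W ≤ V ∧ Algebra.trdeg ℚ (IntermediateField.adjoin ℚ
        ((W : Set ℂ) ∪ Complex.exp '' (W : Set ℂ))) < finrank ℚ W) ∧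
      ∀ U : Submodule ℚ ℂ, U ≤ V →
        ((∃ (m : ℕ) (z : Fin m → ℂ), LinearIndependent ℚ z ∧ (∀ i, z i ∈ U) ∧
            Algebra.trdeg ℚ (IntermediateField.adjoin ℚ
              (Set.range z ∪ Complex.exp '' Set.range z)) < m) ↔
          ∃ W ∈ T, Algebra.trdeg ℚ (IntermediateField.adjoin ℚ
            (((U ⊓ W : Submodule ℚ ℂ) : Set ℂ) ∪ Complex.exp '' (W : Set ℂ))) <
              finrank ℚ (U ⊓ W : Submodule ℚ ℂ)) := by
  classical
  set T := (finite_TS V).toFinset with hTdef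
  have hTm : ∀ W, W ∈ T ↔ W ∈ TS V := fun W => by rw [hTdef, Set.Finite.mem_toFinset]
  have hle : ∀ W ∈ T, W ≤ V := by
    intro W hW
    obtain ⟨n, z, hz, hg, rfl⟩ := (hTm W).1 hW
    exact fun x hx => hx.1
  have hexp : ∀ (n : ℕ) (z : Fin (n + 1) → ℂ), ∀ x ∈ Complex.exp '' ((UU V z : Submodule ℚ ℂ) : Set ℂ),
      x ∈ Kz z := by
    rintro n z _ ⟨w, hw, rfl⟩ D hD
    exact dlog_eq_zero.1 (hw.2 D hD)
  refine ⟨T, fun W hW => ⟨hle W hW, ?_⟩, fun U hUV => ⟨?_, ?_⟩⟩
  · obtain ⟨n, z, hz, hg, rfl⟩ := (hTm W).1 hW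
    have : FiniteDimensional ℚ (UU V z) := Submodule.finiteDimensional_of_le (hle _ hW)
    rw [lt_iff]
    have hmem : ∀ i, z i ∈ UU V z := fun i => ⟨hg.mem i, fun D hD => (cc_eq_zero.1 hD).2 i⟩
    exact bound hz hg.hr.le _ hmem _ (hexp n z)
  · intro hfail
    let P : ℕ → Prop := fun m => ∃ z : Fin m → ℂ, LinearIndependent ℚ z ∧ (∀ i, z i ∈ U) ∧
            Algebra.trdeg ℚ (IntermediateField.adjoin ℚ
              (Set.range z ∪ Complex.exp '' Set.range z)) < m
    have hP : ∃ m, P m := hfail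
    obtain ⟨n, hn⟩ : ∃ n, Nat.find hP = n + 1 := by
      apply Nat.exists_eq_succ_of_ne_zero
      intro h0
      have h1 : P 0 := by rw [← h0]; exact Nat.find_spec hP
      obtain ⟨z, -, -, h⟩ := h1
      rw [Nat.cast_zero] at h
      exact absurd h (not_lt.2 (zero_le))
    have hspec := Nat.find_spec hP
    rw [hn] at hspec
    obtain ⟨z, hz, hzU, htd⟩ := hspec
    have hg : Good V z := by
      refine good_of hUV hzU hz ?_ (not_le.2 htd)
      intro x hx hxU
      by_contra hcon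
      have h5 : P n := ⟨x, hx, hxU, not_le.1 hcon⟩
      have h6 := Nat.find_min' hP h5
      omega
    have hW : UU V z ∈ T := (hTm _).2 ⟨n, z, hz, hg, rfl⟩
    refine ⟨UU V z, hW, ?_⟩
    have : FiniteDimensional ℚ (U ⊓ UU V z : Submodule ℚ ℂ) :=
      Submodule.finiteDimensional_of_le (inf_le_left.trans hUV)
    rw [lt_iff]
    have hmem : ∀ i, z i ∈ (U ⊓ UU V z : Submodule ℚ ℂ) := fun i =>
      ⟨hzU i, hg.mem i, fun D hD => (cc_eq_zero.1 hD).2 i⟩
    exact bound hz hg.hr.le _ hmem _ (hexp n z)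
  · rintro ⟨W, hW, h⟩
    have : FiniteDimensional ℚ (U ⊓ W : Submodule ℚ ℂ) :=
      Submodule.finiteDimensional_of_le (inf_le_left.trans hUV)
    rw [lt_iff] at h
    let b := finBasis ℚ (U ⊓ W : Submodule ℚ ℂ)
    refine ⟨finrank ℚ (U ⊓ W : Submodule ℚ ℂ), fun i => (b i : ℂ), ?_, fun i => (b i).2.1, ?_⟩
    · exact b.linearIndependent.map' (U ⊓ W : Submodule ℚ ℂ).subtype (Submodule.ker_subtype _)
    · rw [lt_iff]
      refine lt_of_le_of_lt (MM.eRk_mono ?_) h
      rintro x (⟨i, rfl⟩ | ⟨_, ⟨i, rfl⟩, rfl⟩)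
      · exact Or.inl (b i).2
      · exact Or.inr ⟨_, (b i).2.2, rfl⟩

end Pool.Agent.TH813.Fail
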